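import Pool.Agent.Helper9.AFLConn

set_option autoImplicit false
set_option maxHeartbeats 1000000
set_option linter.unusedSectionVars false

namespace Pool.Agent.Helper9.AFL

open Equiv Metric Set

variable {n M : ℕ}

abbrev NV (n M : ℕ) := VT n M (Perm (Fin 6))

def gact (k : Perm (Fin 6)) (z : NV n M) : NV n M :=
  ⟨fun i h => z.1 i (k⁻¹ * h), by
    refine ⟨fun i g => z.2.1 i _, fun i g h hgh => z.2.2.1 i _ _ ?_, ?_⟩
    · intro e; exact hgh (mul_left_cancel e)
    · obtain ⟨i, g, h⟩ := z.2.2.2
      exact ⟨i, k * g, by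
        show M ≤ z.1 i (k⁻¹ * (k * g))
        rw [inv_mul_cancel_left]; exact h⟩⟩

theorem gact_mul (g h : Perm (Fin 6)) (z : NV n M) : gact g (gact h z) = gact (g * h) z := by
  apply Subtype.ext
  funext i k
  show z.1 i (h⁻¹ * (g⁻¹ * k)) = z.1 i ((g * h)⁻¹ * k)
  rw [mul_inv_rev, mul_assoc]

theorem gact_one (z : NV n M) : gact 1 z = z := by
  apply Subtype.ext
  funext i k
  show z.1 i (1⁻¹ * k) = z.1 i k
  rw [inv_one, one_mul]

theorem gact_adj {k : Perm (Fin 6)} {z w : NV n M} (h : adj z.1 w.1) :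
    adj (gact k z).1 (gact k w).1 := fun i g => h i (k⁻¹ * g)

theorem gact_free (hM : 3 ≤ M) {g : Perm (Fin 6)} {z : NV n M} (h : near 2 z.1 (gact g z).1) :
    g = 1 := by
  obtain ⟨i, k, hk⟩ := z.2.2.2
  by_contra hg
  have h1 := h i (g * k)
  have h2 : (gact g z).1 i (g * k) = z.1 i k := by
    show z.1 i (g⁻¹ * (g * k)) = z.1 i k
    rw [inv_mul_cancel_left]
  rw [h2] at h1
  have hne : k ≠ g * k := by
    intro e
    apply hg
    exact mul_right_cancel (b := k) (by rw [← e, one_mul])
  have h3 := z.2.2.1 i k (g * k) hne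
  omega

def vset (n M : ℕ) : Setoid (Fin 6 × NV n M) where
  r a b := ∃ g : Perm (Fin 6), g a.1 = b.1 ∧ gact g a.2 = b.2
  iseqv := by
    refine ⟨fun a => ⟨1, rfl, gact_one _⟩, ?_, ?_⟩
    · rintro a b ⟨g, h1, h2⟩
      refine ⟨g⁻¹, ?_, ?_⟩
      · rw [← h1]; exact g.symm_apply_apply _
      · rw [← h2, gact_mul, inv_mul_cancel, gact_one]
    · rintro a b c ⟨g, h1, h2⟩ ⟨k, h3, h4⟩
      refine ⟨k * g, ?_, ?_⟩
      · rw [Perm.mul_apply, h1, h3]
      · rw [← gact_mul, h2, h4]

abbrev VQ (n M : ℕ) := Quotient (vset n M)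

noncomputable instance VQ.fintype : Fintype (VQ n M) := Fintype.ofFinite _

noncomputable instance VQ.deceq : DecidableEq (VQ n M) := Classical.decEq _

def vv (i : Fin 6) (z : NV n M) : VQ n M := Quotient.mk _ (i, z)

theorem vv_eq {i j : Fin 6} {z w : NV n M} :
    vv i z = vv j w ↔ ∃ g : Perm (Fin 6), g i = j ∧ gact g z = w := by
  constructor
  · intro h; exact Quotient.exact h
  · intro h; exact Quotient.sound h

def padj (z : Fin 6 → NV n M) : Prop := ∀ i j, i ≠ j → adj (z i).1 (z j).1

noncomputable def HH (n M : ℕ) : Finset (Finset (VQ n M)) := by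
  classical
  exact Finset.univ.filter (fun e => ∃ z : Fin 6 → NV n M, padj z ∧
    e = Finset.univ.image (fun j => vv j (z j)))

theorem mem_HH {e : Finset (VQ n M)} : e ∈ HH n M ↔ ∃ z : Fin 6 → NV n M, padj z ∧
    e = Finset.univ.image (fun j => vv j (z j)) := by
  unfold HH
  simp

theorem near_gact_of_adj {z w : NV n M} {g h : Perm (Fin 6)} (h1 : adj z.1 w.1)
    (h2 : adj (gact g z).1 (gact h w).1) : near 2 w.1 (gact (g⁻¹ * h) w).1 := by
  have h3 := gact_adj (k := g⁻¹) h2
  rw [gact_mul, gact_mul, inv_mul_cancel, gact_one] at h3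
  exact near_trans (near_symm (near_of_adj h1)) (near_of_adj h3)

theorem vv_adj_inj (hM : 3 ≤ M) {i j : Fin 6} {z w : NV n M} (h : adj z.1 w.1)
    (he : vv i z = vv j w) : i = j := by
  obtain ⟨g, h1, h2⟩ := vv_eq.mp he
  have h3 : near 2 z.1 (gact g z).1 := by
    rw [h2]; exact near_mono (near_of_adj h) (by norm_num)
  have := gact_free hM h3
  rw [this] at h1
  exact h1

theorem padj_inj (hM : 3 ≤ M) {z : Fin 6 → NV n M} (hz : padj z) :
    Function.Injective (fun j => vv j (z j)) := by
  intro i j he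
  by_contra hij
  exact hij (vv_adj_inj hM (hz i j hij) he)

theorem HH_card (hM : 3 ≤ M) {e : Finset (VQ n M)} (he : e ∈ HH n M) : e.card = 6 := by
  obtain ⟨z, hz, rfl⟩ := mem_HH.mp he
  rw [Finset.card_image_of_injective _ (padj_inj hM hz)]
  simp

theorem exists_lift (hM : 3 ≤ M) {f : Fin 6 → VQ n M} (hf : Finset.univ.image f ∈ HH n M) :
    ∃ z : Fin 6 → NV n M, padj z ∧ ∀ i, f i = vv i (z i) := by
  classical
  obtain ⟨w, hw, he⟩ := mem_HH.mp hf
  have hfi : Function.Injective f := by
    have h1 := HH_card hM hf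
    have h2 : (Finset.univ.image f).card = (Finset.univ : Finset (Fin 6)).card := by
      rw [h1]; simp
    have := Finset.card_image_iff.mp h2
    intro a b hab
    exact this (Finset.mem_coe.mpr (Finset.mem_univ a)) (Finset.mem_coe.mpr (Finset.mem_univ b)) hab
  have h1 : ∀ i, ∃ j, vv j (w j) = f i := by
    intro i
    have : f i ∈ Finset.univ.image f := Finset.mem_image_of_mem _ (Finset.mem_univ i)
    rw [he, Finset.mem_image] at this
    obtain ⟨j, _, hj⟩ := this
    exact ⟨j, hj⟩
  choose π hπ using h1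
  have hπi : Function.Injective π := by
    intro a b hab
    apply hfi
    rw [← hπ a, ← hπ b, hab]
  let σ : Perm (Fin 6) := Equiv.ofBijective π (Finite.injective_iff_bijective.mp hπi)
  have hσ : ∀ i, σ i = π i := fun i => rfl
  refine ⟨fun i => gact σ⁻¹ (w (σ i)), ?_, ?_⟩
  · intro i j hij
    exact gact_adj (hw _ _ (fun e => hij (σ.injective e)))
  · intro i
    rw [← hπ i]
    apply vv_eq.mpr
    refine ⟨σ⁻¹, ?_, rfl⟩
    rw [← hσ]; exact σ.symm_apply_apply i

/-- Agreement off one slot. -/
theorem lift_off (hM : 3 ≤ M) {z z' : Fin 6 → NV n M} (hz : padj z) (hz' : padj z') (l : Fin 6)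
    (h : ∀ i, i ≠ l → vv i (z i) = vv i (z' i)) : ∀ i, i ≠ l → z i = z' i := by
  have h1 : ∀ i, ∃ g : Perm (Fin 6), i ≠ l → g i = i ∧ gact g (z i) = z' i := by
    intro i
    by_cases hi : i = l
    · exact ⟨1, fun h => absurd hi h⟩
    · obtain ⟨g, hg⟩ := vv_eq.mp (h i hi)
      exact ⟨g, fun _ => hg⟩
  choose g hg using h1
  have h2 : ∀ i j, i ≠ l → j ≠ l → i ≠ j → g i = g j := by
    intro i j hi hj hij
    have h3 := hz' i j hij
    rw [← (hg i hi).2, ← (hg j hj).2] at h3
    have h4 := gact_free hM (near_gact_of_adj (hz i j hij) h3)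
    exact inv_mul_eq_one.mp h4
  intro i hi
  have h3 : ∀ j, j ≠ l → g i j = j := by
    intro j hj
    by_cases hij : i = j
    · subst hij; exact (hg i hi).1
    · rw [h2 i j hi hj hij]; exact (hg j hj).1
  have h4 : g i = 1 := by
    ext j
    by_cases hj : j = l
    · subst hj
      have h5 : g i j = j := by
        by_contra hc
        have h6 := h3 (g i j) hc
        exact hc ((g i).injective h6)
      rw [h5]; rfl
    · rw [h3 j hj]; rfl
  have := (hg i hi).2
  rw [h4, gact_one] at this
  exact this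

theorem lift_unique (hM : 3 ≤ M) {z z' : Fin 6 → NV n M} (hz : padj z) (hz' : padj z')
    (h : ∀ i, vv i (z i) = vv i (z' i)) : z = z' := by
  funext i
  have : ∃ l : Fin 6, i ≠ l := by
    by_cases hi : i = 0
    · exact ⟨1, by rw [hi]; decide⟩
    · exact ⟨0, hi⟩
  obtain ⟨l, hl⟩ := this
  exact lift_off hM hz hz' l (fun i _ => h i) i hl

theorem lift_block (hM : 3 ≤ M) {W : Fin 6 → Finset (VQ n M)}
    (hW : ∀ t : Fin 6 → VQ n M, (∀ j, t j ∈ W j) → Finset.univ.image t ∈ HH n M) (j : Fin 6)
    (s : Finset (Fin 6)) : j ∉ s → ∀ f f' : Fin 6 → VQ n M, (∀ i, f i ∈ W i) → (∀ i, f' i ∈ W i) →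
      (∀ i, i ∉ s → f i = f' i) → ∀ z z' : Fin 6 → NV n M, padj z → padj z' →
      (∀ i, f i = vv i (z i)) → (∀ i, f' i = vv i (z' i)) → z j = z' j := by
  classical
  induction s using Finset.induction_on with
  | empty =>
    intro _ f f' _ _ h z z' hz hz' e e'
    have := lift_unique hM hz hz' (fun i => by rw [← e, ← e', h i (Finset.notMem_empty i)])
    rw [this]
  | insert l s hl ih =>
    intro hj f f' hf hf' h z z' hz hz' e e'
    rw [Finset.mem_insert, not_or] at hj
    let f2 : Fin 6 → VQ n M := Function.update f l (f' l)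
    have hf2 : ∀ i, f2 i ∈ W i := by
      intro i
      by_cases hi : i = l
      · subst hi
        show Function.update f i (f' i) i ∈ W i
        rw [Function.update_self]; exact hf' i
      · show Function.update f l (f' l) i ∈ W i
        rw [Function.update_of_ne hi]; exact hf i
    obtain ⟨z2, hz2, e2⟩ := exists_lift hM (hW f2 hf2)
    have h1 : z j = z2 j := by
      apply lift_off hM hz hz2 l _ j hj.1
      intro i hi
      rw [← e, ← e2]
      show f i = Function.update f l (f' l) i
      rw [Function.update_of_ne hi]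
    have h2 : z2 j = z' j := by
      apply ih hj.2 f2 f' hf2 hf' _ z2 z' hz2 hz' e2 e'
      intro i hi
      by_cases hil : i = l
      · subst hil
        show Function.update f i (f' i) i = f' i
        rw [Function.update_self]
      · show Function.update f l (f' l) i = f' i
        rw [Function.update_of_ne hil]
        exact h i (by rw [Finset.mem_insert, not_or]; exact ⟨hil, hi⟩)
    rw [h1, h2]

/-- The set from the statement. -/
def XS (n M : ℕ) : Set ((Fin 6 → VQ n M) → ℝ) :=
  {x | (∀ f, 0 ≤ x f) ∧ (∑ f, x f) = 1 ∧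
              ∃ W : Fin 6 → Finset (VQ n M),
                (∀ i j, i ≠ j → Disjoint (W i) (W j)) ∧
                (∀ t : Fin 6 → VQ n M, (∀ j, t j ∈ W j) → Finset.univ.image t ∈ HH n M) ∧
                (∀ f, x f ≠ 0 → ∀ j, f j ∈ W j)}

open Classical in
noncomputable def down (x : (Fin 6 → VQ n M) → ℝ) : Fn n M (Perm (Fin 6)) :=
  fun t => if padj t then x (fun i => vv i (t i)) else 0

open Classical in
noncomputable def up (y : Fn n M (Perm (Fin 6))) : (Fin 6 → VQ n M) → ℝ :=
  fun f => ∑ t : Tup n M (Perm (Fin 6)), if (fun i => vv i (t i)) = f then y t else 0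

theorem down_cont : Continuous (down : ((Fin 6 → VQ n M) → ℝ) → Fn n M (Perm (Fin 6))) := by
  classical
  unfold down
  apply continuous_pi
  intro t
  by_cases h : padj t
  · simp only [if_pos h]; exact continuous_apply _
  · simp only [if_neg h]; exact continuous_const

theorem up_cont : Continuous (up : Fn n M (Perm (Fin 6)) → (Fin 6 → VQ n M) → ℝ) := by
  classical
  unfold up
  apply continuous_pi
  intro f
  apply continuous_finsetSum
  intro t _
  by_cases h : (fun i => vv i (t i)) = f
  · simp only [if_pos h]; exact continuous_apply _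
  · simp only [if_neg h]; exact continuous_const

theorem up_sum (y : Fn n M (Perm (Fin 6))) : ∑ f, up y f = ∑ t, y t := by
  classical
  unfold up
  rw [Finset.sum_comm]
  apply Finset.sum_congr rfl
  intro t _
  rw [Finset.sum_ite_eq]
  simp

theorem up_supp {y : Fn n M (Perm (Fin 6))} {f : Fin 6 → VQ n M} (h : up y f ≠ 0) :
    ∃ t, y t ≠ 0 ∧ (fun i => vv i (t i)) = f := by
  classical
  unfold up at h
  obtain ⟨t, _, ht⟩ := Finset.exists_ne_zero_of_sum_ne_zero h
  by_cases hc : (fun i => vv i (t i)) = f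
  · rw [if_pos hc] at ht; exact ⟨t, ht, hc⟩
  · rw [if_neg hc] at ht; exact absurd rfl ht

theorem up_down (hM : 3 ≤ M) {x : (Fin 6 → VQ n M) → ℝ} (hx : x ∈ XS n M) : up (down x) = x := by
  classical
  obtain ⟨_, _, W, _, hW2, hW3⟩ := hx
  funext f
  unfold up
  by_cases hf : x f = 0
  · rw [hf]
    apply Finset.sum_eq_zero
    intro t _
    by_cases hc : (fun i => vv i (t i)) = f
    · rw [if_pos hc]
      unfold down
      split_ifs
      · rw [hc, hf]
      · rfl
    · rw [if_neg hc]
  · obtain ⟨z, hz, e⟩ := exists_lift hM (hW2 f (hW3 f hf))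
    have e' : (fun i => vv i (z i)) = f := (funext e).symm
    rw [Finset.sum_eq_single z]
    · rw [if_pos e']
      unfold down
      rw [if_pos hz, e']
    · intro t _ ht
      by_cases hc : (fun i => vv i (t i)) = f
      · rw [if_pos hc]
        unfold down
        rw [if_neg]
        intro hp
        apply ht
        exact lift_unique hM hp hz (fun i => by
          have h1 := congrFun hc i
          have h2 := congrFun e' i
          exact h1.trans h2.symm)
      · rw [if_neg hc]
    · intro h; exact absurd (Finset.mem_univ _) h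

theorem down_mem (hM : 3 ≤ M) {x : (Fin 6 → VQ n M) → ℝ} (hx : x ∈ XS n M) :
    down x ∈ YS n M (Perm (Fin 6)) := by
  classical
  have hud := up_down hM hx
  obtain ⟨h0, h1, W, hW1, hW2, hW3⟩ := hx
  refine ⟨fun t => ?_, ?_, ?_⟩
  · unfold down
    split_ifs
    · exact h0 _
    · exact le_refl _
  · rw [← up_sum, hud]; exact h1
  · intro t t' ht ht' i j hij
    have key : ∀ t : Tup n M (Perm (Fin 6)), down x t ≠ 0 → padj t ∧ ∀ i, vv i (t i) ∈ W i := by
      intro t ht
      unfold down at ht
      by_cases hp : padj t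
      · rw [if_pos hp] at ht
        exact ⟨hp, hW3 _ ht⟩
      · rw [if_neg hp] at ht; exact absurd rfl ht
    obtain ⟨p1, w1⟩ := key t ht
    obtain ⟨p2, w2⟩ := key t' ht'
    let f : Fin 6 → VQ n M := fun i => vv i (t i)
    let f' : Fin 6 → VQ n M := fun i => vv i (t' i)
    let f2 : Fin 6 → VQ n M := Function.update f j (f' j)
    have hf2 : ∀ k, f2 k ∈ W k := by
      intro k
      by_cases hk : k = j
      · subst hk
        show Function.update f k (f' k) k ∈ W k
        rw [Function.update_self]; exact w2 k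
      · show Function.update f j (f' j) k ∈ W k
        rw [Function.update_of_ne hk]; exact w1 k
    obtain ⟨z2, hz2, e2⟩ := exists_lift hM (hW2 f2 hf2)
    have a1 : z2 i = t i := by
      refine lift_block hM hW2 i (Finset.univ.erase i) (Finset.notMem_erase _ _) f2 f hf2 w1 ?_
        z2 t hz2 p1 e2 (fun _ => rfl)
      intro k hk
      have hki : k = i := by
        by_contra hc; exact hk (Finset.mem_erase.mpr ⟨hc, Finset.mem_univ _⟩)
      subst hki
      show Function.update f j (f' j) k = f k
      rw [Function.update_of_ne hij]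
    have a2 : z2 j = t' j := by
      refine lift_block hM hW2 j (Finset.univ.erase j) (Finset.notMem_erase _ _) f2 f' hf2 w2 ?_
        z2 t' hz2 p2 e2 (fun _ => rfl)
      intro k hk
      have hkj : k = j := by
        by_contra hc; exact hk (Finset.mem_erase.mpr ⟨hc, Finset.mem_univ _⟩)
      subst hkj
      show Function.update f k (f' k) k = f' k
      rw [Function.update_self]
    rw [← a1, ← a2]
    exact hz2 i j hij

theorem up_mem (hM : 3 ≤ M) {y : Fn n M (Perm (Fin 6))} (hy : y ∈ YS n M (Perm (Fin 6))) :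
    up y ∈ XS n M := by
  classical
  refine ⟨fun f => ?_, ?_, ?_⟩
  · unfold up
    apply Finset.sum_nonneg
    intro t _
    split_ifs
    · exact hy.1 t
    · exact le_refl _
  · rw [up_sum]; exact hy.2.1
  · refine ⟨fun j => Finset.univ.filter (fun v => ∃ t, y t ≠ 0 ∧ vv j (t j) = v), ?_, ?_, ?_⟩
    · intro i j hij
      rw [Finset.disjoint_left]
      intro v hv hv'
      simp only [Finset.mem_filter, Finset.mem_univ, true_and] at hv hv'
      obtain ⟨t, ht, e⟩ := hv
      obtain ⟨t', ht', e'⟩ := hv'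
      exact hij (vv_adj_inj hM (hy.2.2 t t' ht ht' i j hij) (e.trans e'.symm))
    · intro f hf
      simp only [Finset.mem_filter, Finset.mem_univ, true_and] at hf
      choose u hu hue using hf
      apply mem_HH.mpr
      refine ⟨fun j => u j j, ?_, ?_⟩
      · intro i j hij
        exact hy.2.2 (u i) (u j) (hu i) (hu j) i j hij
      · congr 1
        funext j
        exact (hue j).symm
    · intro f hf j
      obtain ⟨t, ht, rfl⟩ := up_supp hf
      simp only [Finset.mem_filter, Finset.mem_univ, true_and]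
      exact ⟨t, ht, rfl⟩

theorem X_conn (hM : 2 * (9 + 2 * Fintype.card (Col n (Perm (Fin 6)))) + 2 ≤ M) {d : ℕ} (hd : d < n)
    (g : EuclideanSpace ℝ (Fin d) → ((Fin 6 → VQ n M) → ℝ))
    (hg : ContinuousOn g (sphere 0 1)) (hgX : MapsTo g (sphere 0 1) (XS n M)) :
    ∃ h : EuclideanSpace ℝ (Fin d) → ((Fin 6 → VQ n M) → ℝ), ContinuousOn h (closedBall 0 1) ∧
      MapsTo h (closedBall 0 1) (XS n M) ∧ EqOn h g (sphere 0 1) := by
  have hM3 : 3 ≤ M := by omega
  obtain ⟨F, h1, h2, h3⟩ := YS_conn hM hd (fun x => down (g x)) (down_cont.comp_continuousOn hg)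
    (fun x hx => down_mem hM3 (hgX hx))
  refine ⟨fun x => up (F x), up_cont.comp_continuousOn h1, fun x hx => up_mem hM3 (h2 hx), ?_⟩
  intro x hx
  show up (F x) = g x
  rw [h3 hx]
  exact up_down hM3 (hgX hx)

end Pool.Agent.Helper9.AFL
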