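import Pool.Agent.Helper9.AFLGroup

set_option autoImplicit false
set_option maxHeartbeats 4000000

namespace Pool.Agent.Helper9.AFL

open Equiv

theorem c6_apply (i : Fin 6) : c6 i = i + 1 := by
  unfold c6; exact finRotate_apply i

theorem sixc_inj {u : GG} (h : sixc u) (i j : Fin 6) (hij : (u ^ (i : ℕ)) 0 = (u ^ (j : ℕ)) 0) :
    i = j := by
  obtain ⟨h1, h2, h3, h6⟩ := h
  have key : ∀ d : ℕ, 0 < d → d < 6 → (u ^ d) 0 ≠ 0 := by
    intro d hd0 hd6 e
    have p6 : (u ^ 6) 0 = 0 := h6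
    have q : (u ^ (6 - d)) 0 = 0 := by
      have : (u ^ (6 - d)) ((u ^ d) 0) = (u ^ 6) 0 := by
        rw [← Perm.mul_apply, ← pow_add]
        congr 2; omega
      rw [e, p6] at this
      exact this
    have hd : d = 1 ∨ d = 2 ∨ d = 3 ∨ d = 4 ∨ d = 5 := by omega
    rcases hd with rfl | rfl | rfl | rfl | rfl
    · exact h1 e
    · exact h2 e
    · exact h3 e
    · exact h2 q
    · exact h1 q
  have aux : ∀ a b : ℕ, a < b → b < 6 → (u ^ a) 0 ≠ (u ^ b) 0 := by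
    intro a b hab hb e
    apply key (b - a) (by omega) (by omega)
    have : (u ^ a) ((u ^ (b - a)) 0) = (u ^ a) 0 := by
      rw [← Perm.mul_apply, ← pow_add, e]
      congr 2; omega
    exact (u ^ a).injective this
  by_contra hne
  rcases lt_or_gt_of_ne (fun e => hne (Fin.ext e) : (i : ℕ) ≠ (j : ℕ)) with h | h
  · exact aux _ _ h j.2 hij
  · exact aux _ _ h i.2 hij.symm

theorem six_conj {u : GG} (h : sixc u) : ∃ k : GG, k * u * k⁻¹ = c6 := by
  have h2 : (u ^ 6) 0 = 0 := h.2.2.2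
  have h1 := sixc_inj h
  have hinj : Function.Injective (fun i : Fin 6 => (u ^ (i : ℕ)) 0) := fun i j hij => h1 i j hij
  let p : GG := Equiv.ofBijective _ (Finite.injective_iff_bijective.mp hinj)
  have hp : ∀ i : Fin 6, p i = (u ^ (i : ℕ)) 0 := fun i => rfl
  refine ⟨p⁻¹, ?_⟩
  have : u * p = p * c6 := by
    ext i
    rw [Perm.mul_apply, Perm.mul_apply, c6_apply, hp, hp]
    fin_cases i
    · simp
    · simp [pow_succ']
    · simp [pow_succ']
    · simp [pow_succ']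
    · simp [pow_succ']
    · have : ((5 : Fin 6) + 1 : Fin 6) = 0 := by decide
      simp only [Fin.reduceFinMk, this, Fin.val_zero, pow_zero, Perm.one_apply]
      have h3 : u ((u ^ 5) 0) = (u ^ 6) 0 := by rw [pow_succ' u 5]; rfl
      have h4 : u ((u ^ 5) 0) = 0 := h3.trans h2
      exact congrArg Fin.val h4
  rw [inv_inv, mul_assoc, this, ← mul_assoc, inv_mul_cancel, one_mul]

/-- The conclusion of the group lemma. -/
def Concl (S : Subgroup GG) : Prop :=
  ∃ (τ : Fin 4) (h : GG), h⁻¹ * kk1 τ * h ∈ S ∧ h⁻¹ * kk2 τ * h ∈ S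

theorem conj_back {h u k : GG} (e : h * u * h⁻¹ = k) : h⁻¹ * k * h = u := by
  rw [← e]; group

theorem tgt_good {S : Subgroup GG} {u : GG} (hx : x0 ∈ S) (hu : u ∈ S) (ht : tgt u) : Concl S := by
  rcases ht with h | ⟨h, hc, h⟩
  · obtain ⟨k, hk⟩ := six_conj h
    have := conj_back hk
    exact ⟨0, k, by show k⁻¹ * c6 * k ∈ S; rw [this]; exact hu,
      by show k⁻¹ * c6 * k ∈ S; rw [this]; exact hu⟩
  · have hx' := conj_back (cl_comm _ hc)
    rcases h with h | h | h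
    · exact ⟨3, _, by show _⁻¹ * x0 * _ ∈ S; rw [hx']; exact hx,
        by show _⁻¹ * b0 * _ ∈ S; rw [conj_back h]; exact hu⟩
    · exact ⟨2, _, by show _⁻¹ * v0 * _ ∈ S; rw [conj_back h]; exact hu,
        by show _⁻¹ * x0 * _ ∈ S; rw [hx']; exact hx⟩
    · exact ⟨1, _, by show _⁻¹ * x0 * _ ∈ S; rw [hx']; exact hx,
        by show _⁻¹ * y0 * _ ∈ S; rw [conj_back h]; exact hu⟩

theorem concl_of_x0 {S : Subgroup GG} (hx : x0 ∈ S) (ht : ∃ g ∈ S, g 0 = 3) : Concl S := by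
  obtain ⟨g, hg, hg0⟩ := ht
  obtain ⟨l, _, hl⟩ := cover g hg0
  exact tgt_good hx (wd_mem S hx hg l) hl

def TransS (S : Subgroup GG) : Prop := ∀ j, ∃ g ∈ S, g j = 0

theorem TransS.to {S : Subgroup GG} (h : TransS S) (i j : Fin 6) : ∃ g ∈ S, g i = j := by
  obtain ⟨g, hg, hgi⟩ := h i
  obtain ⟨k, hk, hkj⟩ := h j
  refine ⟨k⁻¹ * g, S.mul_mem (S.inv_mem hk) hg, ?_⟩
  rw [Perm.mul_apply, hgi, ← hkj]
  exact k.symm_apply_apply j

theorem TransS.conj {S : Subgroup GG} (h : TransS S) (k : GG) :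
    TransS (S.map (MulAut.conj k).toMonoidHom) := by
  intro j
  obtain ⟨g, hg, hgj⟩ := h.to (k⁻¹ j) (k⁻¹ 0)
  refine ⟨k * g * k⁻¹, ⟨g, hg, rfl⟩, ?_⟩
  rw [Perm.mul_apply, Perm.mul_apply, hgj]
  exact k.apply_symm_apply 0

theorem Concl.of_conj {S : Subgroup GG} (k : GG)
    (h : Concl (S.map (MulAut.conj k).toMonoidHom)) : Concl S := by
  obtain ⟨τ, h, ⟨g1, hg1, e1⟩, ⟨g2, hg2, e2⟩⟩ := h
  have e1' : k * g1 * k⁻¹ = h⁻¹ * kk1 τ * h := e1
  have e2' : k * g2 * k⁻¹ = h⁻¹ * kk2 τ * h := e2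
  refine ⟨τ, h * k, ?_, ?_⟩
  · have : (h * k)⁻¹ * kk1 τ * (h * k) = k⁻¹ * (h⁻¹ * kk1 τ * h) * k := by group
    rw [this, ← e1']
    have : k⁻¹ * (k * g1 * k⁻¹) * k = g1 := by group
    rw [this]; exact hg1
  · have : (h * k)⁻¹ * kk2 τ * (h * k) = k⁻¹ * (h⁻¹ * kk2 τ * h) * k := by group
    rw [this, ← e2']
    have : k⁻¹ * (k * g2 * k⁻¹) * k = g2 := by group
    rw [this]; exact hg2

theorem c3_conj (g : GG) (a b c : Fin 6) : g * c3 a b c * g⁻¹ = c3 (g a) (g b) (g c) := by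
  unfold c3
  rw [Equiv.swap_apply_apply, Equiv.swap_apply_apply]
  group

theorem conj_mem' {S : Subgroup GG} {g k : GG} (hg : g ∈ S) (hk : k ∈ S) : g * k * g⁻¹ ∈ S :=
  S.mul_mem (S.mul_mem hg hk) (S.inv_mem hg)

def w4 (a : Fin 4 → GG) (l : List (Fin 4)) : GG := (l.map a).prod

theorem w4_mem (S : Subgroup GG) {a : Fin 4 → GG} (ha : ∀ i, a i ∈ S) (l : List (Fin 4)) :
    w4 a l ∈ S := by
  unfold w4
  apply Subgroup.list_prod_mem
  intro y hy
  rw [List.mem_map] at hy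
  obtain ⟨b, _, rfl⟩ := hy
  exact ha b

def wlA : List (List (Fin 4)) :=
  [[1], [1,0], [0,1,1,0,0,1], [1,1], [0,1,1], [1,1,0,0,1,0], [1,1,0], [0,1], [1,1,0,1],
   [0,1,0,0,1,1], [1,0,0,1,1,0], [1,0,1,1]]

def wlB : List (List (Fin 4)) :=
  [[2], [2,0], [2,1], [0,2,2,0,0,2], [2,2], [0,2,2], [1,2,2], [2,2,0,0,2,0], [2,2,0], [0,2],
   [2,1,2,2], [2,2,0,2], [2,2,1], [1,2], [2,0,2,2], [2,2,1,2], [0,2,0,0,2,2], [2,0,0,2,2,0]]

def wlC : List (List (Fin 4)) :=
  [[3], [3,0], [3,1], [3,2], [3,3], [0,3,3], [1,3,3], [2,3,3], [3,3,0], [0,3], [3,1,3,3],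
   [3,2,3,3], [3,3,1], [1,3], [3,0,3,3], [3,3,2], [2,3]]

theorem stepA : ∀ p q : Fin 6, p ≠ 3 → q ≠ 3 → p ≠ q → ∃ l ∈ wlA,
    w4 ![c3 0 1 2, c3 3 p q, 1, 1] l = c3 0 1 3 ∨ w4 ![c3 0 1 2, c3 3 p q, 1, 1] l = x0 ∨
    w4 ![c3 0 1 2, c3 3 p q, 1, 1] l = a0 * a1⁻¹ := by decide +kernel

theorem stepB : ∀ p q : Fin 6, p ≠ 4 → q ≠ 4 → p ≠ q → ∃ l ∈ wlB,
    w4 ![c3 0 1 2, c3 0 1 3, c3 4 p q, 1] l = c3 0 1 4 := by decide +kernel

theorem stepC : ∀ p q : Fin 6, p ≠ 5 → q ≠ 5 → p ≠ q → ∃ l ∈ wlC,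
    w4 ![c3 0 1 2, c3 0 1 3, c3 0 1 4, c3 5 p q] l = c3 0 1 5 := by decide +kernel

theorem stepD : w4 ![c3 0 1 2, c3 0 1 3, c3 0 1 4, c3 0 1 5] [0,1,2,3,1,2] = x0 := by
  decide +kernel

theorem flipx : (swap 3 4 : GG) * (a0 * a1⁻¹) * (swap 3 4)⁻¹ = x0 := by decide +kernel

/-- For transitive `S` and a 3-cycle `(0 1 2)` in `S`, the conclusion holds. -/
theorem concl_of_c3 {S : Subgroup GG} (hT : TransS S) (hc : c3 0 1 2 ∈ S) : Concl S := by
  have key : ∀ j : Fin 6, ∃ p q : Fin 6, p ≠ j ∧ q ≠ j ∧ p ≠ q ∧ c3 j p q ∈ S := by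
    intro j
    obtain ⟨g, hg, hgj⟩ := hT.to 0 j
    refine ⟨g 1, g 2, ?_, ?_, ?_, ?_⟩
    · rw [← hgj]; intro e; exact absurd (g.injective e) (by decide)
    · rw [← hgj]; intro e; exact absurd (g.injective e) (by decide)
    · intro e; exact absurd (g.injective e) (by decide)
    · have := conj_mem' hg hc
      rw [c3_conj, hgj] at this
      exact this
  have hx : x0 ∈ S → Concl S := fun h => concl_of_x0 h (hT.to 0 3)
  have hx' : a0 * a1⁻¹ ∈ S → Concl S := by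
    intro h
    apply Concl.of_conj (swap 3 4)
    apply concl_of_x0
    · exact ⟨_, h, flipx⟩
    · exact (hT.conj _).to 0 3
  obtain ⟨p, q, h1, h2, h3, h4⟩ := key 3
  obtain ⟨l, _, hl⟩ := stepA p q h1 h2 h3
  have hm : w4 ![c3 0 1 2, c3 3 p q, 1, 1] l ∈ S := by
    apply w4_mem
    intro i
    fin_cases i
    · exact hc
    · exact h4
    · exact S.one_mem
    · exact S.one_mem
  rcases hl with hl | hl | hl
  · rw [hl] at hm
    obtain ⟨p, q, h1, h2, h3, h4⟩ := key 4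
    obtain ⟨l, _, hl⟩ := stepB p q h1 h2 h3
    have hm2 : w4 ![c3 0 1 2, c3 0 1 3, c3 4 p q, 1] l ∈ S := by
      apply w4_mem
      intro i
      fin_cases i
      · exact hc
      · exact hm
      · exact h4
      · exact S.one_mem
    rw [hl] at hm2
    obtain ⟨p, q, h1, h2, h3, h4⟩ := key 5
    obtain ⟨l, _, hl⟩ := stepC p q h1 h2 h3
    have hm3 : w4 ![c3 0 1 2, c3 0 1 3, c3 0 1 4, c3 5 p q] l ∈ S := by
      apply w4_mem
      intro i
      fin_cases i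
      · exact hc
      · exact hm
      · exact hm2
      · exact h4
    rw [hl] at hm3
    apply hx
    rw [← stepD]
    apply w4_mem
    intro i
    fin_cases i
    · exact hc
    · exact hm
    · exact hm2
    · exact hm3
  · rw [hl] at hm; exact hx hm
  · rw [hl] at hm; exact hx' hm

theorem c3_is (a b c : Fin 6) (h1 : a ≠ b) (h2 : b ≠ c) (h3 : a ≠ c) :
    (c3 a b c).IsThreeCycle := by
  unfold c3
  have := Equiv.Perm.isThreeCycle_swap_mul_swap_same (a := b) (b := a) (c := c) h1.symm h2 h3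
  rwa [Equiv.swap_comm b a] at this

theorem c3_012 : (c3 0 1 2).IsThreeCycle := c3_is 0 1 2 (by decide) (by decide) (by decide)

theorem c3_345 : (c3 3 4 5).IsThreeCycle := c3_is 3 4 5 (by decide) (by decide) (by decide)

theorem conj_of_type {x : GG} (h : orderOf x = 3) :
    (∃ k : GG, k * x * k⁻¹ = c3 0 1 2) ∨ (∃ k : GG, k * x * k⁻¹ = x0) := by
  have : Fact (Nat.Prime 3) := ⟨by norm_num⟩
  obtain ⟨n, hn⟩ := Equiv.Perm.cycleType_prime_order (σ := x) (by rw [h]; norm_num)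
  rw [h] at hn
  have hsum : x.cycleType.sum ≤ 6 := by
    rw [Equiv.Perm.sum_cycleType]
    exact (Finset.card_le_univ _).trans (by simp)
  rw [hn] at hsum
  simp only [Multiset.sum_replicate, smul_eq_mul] at hsum
  have hn1 : n = 0 ∨ n = 1 := by omega
  rcases hn1 with rfl | rfl
  · left
    have e : IsConj x (c3 0 1 2) := by
      rw [Equiv.Perm.isConj_iff_cycleType_eq, hn]
      rw [c3_012.cycleType]; rfl
    exact isConj_iff.mp e
  · right
    have e : IsConj x x0 := by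
      rw [Equiv.Perm.isConj_iff_cycleType_eq, hn]
      unfold x0
      have h1 := c3_012
      have h2 := c3_345
      have hd : (c3 0 1 2).Disjoint (c3 3 4 5) := by
        intro i
        revert i
        decide
      have := hd.cycleType_mul
      rw [h1.cycleType, h2.cycleType] at this
      show _ = (c3 0 1 2 * c3 3 4 5).cycleType
      rw [this]; rfl
    exact isConj_iff.mp e

theorem group_lemma {S : Subgroup GG} (hT : TransS S) : Concl S := by
  have h3 : 3 ∣ Nat.card S := by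
    have h6 : 6 ∣ Nat.card S := by
      have htr : MulAction.orbit S (0 : Fin 6) = Set.univ := by
        ext j
        simp only [Set.mem_univ, iff_true]
        obtain ⟨g, hg, hgj⟩ := hT.to 0 j
        exact ⟨⟨g, hg⟩, hgj⟩
      have := MulAction.index_stabilizer S (0 : Fin 6)
      rw [htr] at this
      have e6 : (Set.univ : Set (Fin 6)).ncard = 6 := by simp [Set.ncard_univ]
      replace this := this.trans e6
      have h7 := Subgroup.index_dvd_card (MulAction.stabilizer S (0 : Fin 6))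
      rw [this] at h7
      exact h7
    exact Dvd.dvd.trans (by norm_num) h6
  have : Fact (Nat.Prime 3) := ⟨by norm_num⟩
  obtain ⟨⟨x, hxS⟩, hx⟩ := exists_prime_orderOf_dvd_card' 3 h3
  have hx3 : orderOf x = 3 := by
    rw [← hx]; exact (Subgroup.orderOf_mk x hxS).symm
  rcases conj_of_type hx3 with ⟨k, hk⟩ | ⟨k, hk⟩
  · apply Concl.of_conj k
    apply concl_of_c3 (hT.conj k)
    exact ⟨x, hxS, hk⟩
  · apply Concl.of_conj k
    apply concl_of_x0
    · exact ⟨x, hxS, hk⟩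
    · exact (hT.conj k).to 0 3

end Pool.Agent.Helper9.AFL
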