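import Pool.Agent.Helper9.AFLPsi
import Pool.Agent.Helper9.AFLGroup2

set_option autoImplicit false
set_option maxHeartbeats 1000000

namespace Pool.Agent.Helper9.AFL

open Equiv

namespace Cyc

noncomputable def r (k : Fin 3) (w : Fin 3 → ℝ) : ℝ := max 0 (min (w k) (w (k + 1)) - w (k + 2))

noncomputable def P (k : Fin 3) (w : Fin 3 → ℝ) : ℝ := r k w - r (k + 2) w

def bet (k : Fin 3) : ℝ := 1 - ((k : ℕ) : ℝ)

def dd (k t : Fin 3) : ℝ := if t = k then 2 else -1

noncomputable def rho (k : Fin 3) (w : Fin 3 → ℝ) (σ : ℝ) : ℂ := ⟨P k w, bet k * σ⟩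

noncomputable def lam (k : Fin 3) (w : Fin 3 → ℝ) (σ : ℝ) : Fin 3 → ℝ :=
  fun t => w t + (r (k + 1) w + σ) * dd k t

def CC : Set (Fin 3 → ℝ) := {w | ∑ t, w t = 0}

theorem r_nonneg (k : Fin 3) (w : Fin 3 → ℝ) : 0 ≤ r k w := le_max_left _ _

theorem r_cont (k : Fin 3) : Continuous (r k) := by unfold r; fun_prop

theorem r_smul (k : Fin 3) (w : Fin 3 → ℝ) {c : ℝ} (hc : 0 ≤ c) : r k (c • w) = c * r k w := by
  unfold r
  simp only [Pi.smul_apply, smul_eq_mul]
  rw [mul_max_of_nonneg _ _ hc, mul_zero, mul_sub, mul_min_of_nonneg _ _ hc]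

theorem exists_quiet (w : Fin 3 → ℝ) : ∃ k : Fin 3, r (k + 1) w = 0 ∧ r (k + 2) w = 0 := by
  have h : ∃ k : Fin 3, w (k + 2) ≤ w k ∧ w (k + 2) ≤ w (k + 1) := by
    rcases le_total (w 0) (w 1) with h1 | h1 <;> rcases le_total (w 1) (w 2) with h2 | h2 <;>
      rcases le_total (w 0) (w 2) with h3 | h3
    · exact ⟨1, h1, h3⟩
    · exact ⟨1, h1, h1.trans h2⟩
    · exact ⟨1, h1, h3⟩
    · exact ⟨0, h3, h2⟩
    · exact ⟨2, h2, h1⟩
    · exact ⟨2, h2, h1⟩
    · exact ⟨0, h2.trans h1, h2⟩
    · exact ⟨0, h3, h2⟩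
  obtain ⟨k, h1, h2⟩ := h
  refine ⟨k, ?_, ?_⟩
  · unfold r
    apply max_eq_left
    have e1 : k + 1 + 1 = k + 2 := by fin_cases k <;> rfl
    have e2 : k + 1 + 2 = k := by fin_cases k <;> rfl
    rw [e1, e2, sub_nonpos]
    exact (min_le_right _ _).trans h1
  · unfold r
    apply max_eq_left
    have e1 : k + 2 + 1 = k := by fin_cases k <;> rfl
    have e2 : k + 2 + 2 = k + 1 := by fin_cases k <;> rfl
    rw [e1, e2, sub_nonpos]
    exact (min_le_left _ _).trans h2

theorem dd_sum (k : Fin 3) : ∑ t, dd k t = 0 := by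
  rw [Fin.sum_univ_three]
  fin_cases k <;> simp [dd] <;> norm_num

def sh : Perm (Fin 3) := finRotate 3

theorem sh_apply (i : Fin 3) : sh i = i + 1 := finRotate_apply i

theorem sh_inv (i : Fin 3) : sh⁻¹ i = i + 2 := by
  rw [Perm.inv_eq_iff_eq, sh_apply]
  fin_cases i <;> rfl

theorem r_sh (k : Fin 3) (w : Fin 3 → ℝ) : r (k + 1) (pw sh w) = r k w := by
  unfold r pw
  rw [sh_inv, sh_inv, sh_inv]
  have e1 : k + 1 + 2 = k := by fin_cases k <;> rfl
  have e2 : k + 1 + 1 + 2 = k + 1 := by fin_cases k <;> rfl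
  have e3 : k + 1 + 2 + 2 = k + 2 := by fin_cases k <;> rfl
  rw [e1, e2]

/-- Conditions on a group element. -/
def Ok (a : AA 3) : Prop :=
  (∀ w ∈ CC, pw a.1 w ∈ CC) ∧
  (∀ w ∈ CC, ∃ θ : Perm (Fin 3), ∀ i,
    rho (θ i) (pw a.1 w) 0 = (a.2 : ℂ) * rho i w 0 ∧ lam (θ i) (pw a.1 w) 0 = pw a.1 (lam i w 0)) ∧
  (a.2 : ℂ) ^ 2 = 1

theorem Ok.mul {a b : AA 3} (ha : Ok a) (hb : Ok b) : Ok (a * b) := by
  refine ⟨fun w hw => ?_, fun w hw => ?_, ?_⟩
  · show pw (a.1 * b.1) w ∈ CC
    rw [pw_mul]; exact ha.1 _ (hb.1 _ hw)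
  · obtain ⟨θ, hθ⟩ := hb.2.1 w hw
    obtain ⟨η, hη⟩ := ha.2.1 _ (hb.1 w hw)
    refine ⟨η * θ, fun i => ⟨?_, ?_⟩⟩
    · show rho (η (θ i)) (pw (a.1 * b.1) w) 0 = ((a.2 * b.2 : ℂˣ) : ℂ) * rho i w 0
      rw [pw_mul, (hη _).1, (hθ _).1, Units.val_mul, mul_assoc]
    · show lam (η (θ i)) (pw (a.1 * b.1) w) 0 = pw (a.1 * b.1) (lam i w 0)
      rw [pw_mul, pw_mul, (hη _).2, (hθ _).2]
  · show ((a.2 * b.2 : ℂˣ) : ℂ) ^ 2 = 1
    rw [Units.val_mul, mul_pow, ha.2.2, hb.2.2, one_mul]

theorem Ok.one : Ok 1 := by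
  refine ⟨fun w hw => ?_, fun w hw => ⟨1, fun i => ⟨?_, ?_⟩⟩, ?_⟩
  · show pw 1 w ∈ CC; rw [pw_one]; exact hw
  · show rho i (pw 1 w) 0 = ((1 : ℂˣ) : ℂ) * _
    rw [pw_one, Units.val_one, one_mul]
  · show lam i (pw 1 w) 0 = pw 1 _
    rw [pw_one, pw_one]
  · show ((1 : ℂˣ) : ℂ) ^ 2 = 1
    rw [Units.val_one, one_pow]

def ga : AA 3 := (sh, -1)

theorem Ok.ga : Ok ga := by
  refine ⟨fun w hw => ?_, fun w hw => ?_, ?_⟩
  · show ∑ t, pw sh w t = 0
    rw [← Equiv.sum_comp sh]
    have : ∀ t, pw sh w (sh t) = w t := by intro t; simp [pw]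
    simp_rw [this]; exact hw
  · obtain ⟨k, h1, h2⟩ := exists_quiet w
    have hr : ∀ i, r i (pw sh w) = r (i + 2) w := by
      intro i
      have := r_sh (i + 2) w
      have e : i + 2 + 1 = i := by fin_cases i <;> rfl
      rwa [e] at this
    -- sign flip
    have hneg : ∀ i, P ((Equiv.swap k (k + 1)) i) w = - P i w ∧
        lam ((Equiv.swap k (k + 1)) i) w 0 = lam i w 0 := by
      intro i
      have hk1 : k ≠ k + 1 := by fin_cases k <;> decide
      have hi : i = k ∨ i = k + 1 ∨ i = k + 2 := by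
        revert i; fin_cases k <;> decide
      have e1 : k + 1 + 2 = k := by fin_cases k <;> rfl
      have e2 : k + 2 + 2 = k + 1 := by fin_cases k <;> rfl
      have e3 : k + 1 + 1 = k + 2 := by fin_cases k <;> rfl
      have p0 : P k w = r k w := by unfold P; rw [h2]; ring
      have p1 : P (k + 1) w = - r k w := by unfold P; rw [e1, h1]; ring
      have p2 : P (k + 2) w = 0 := by unfold P; rw [e2, h1, h2]; ring
      have l0 : lam k w 0 = w := by unfold lam; rw [h1]; funext t; ring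
      have l1 : lam (k + 1) w 0 = w := by unfold lam; rw [e3, h2]; funext t; ring
      rcases hi with rfl | rfl | rfl
      · rw [Equiv.swap_apply_left, p0, p1, l0, l1]; exact ⟨rfl, rfl⟩
      · rw [Equiv.swap_apply_right, p0, p1, l0, l1, neg_neg]; exact ⟨rfl, rfl⟩
      · rw [Equiv.swap_apply_of_ne_of_ne (by fin_cases k <;> decide) (by fin_cases k <;> decide),
          p2, neg_zero]; exact ⟨rfl, rfl⟩
    have hP : ∀ i, P (sh i) (pw sh w) = P i w := by
      intro i
      unfold P
      rw [hr, hr, sh_apply]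
      have e1 : i + 1 + 2 = i := by fin_cases i <;> rfl
      rw [e1]
    have hL : ∀ i, lam (sh i) (pw sh w) 0 = pw sh (lam i w 0) := by
      intro i
      funext t
      unfold lam pw
      simp only
      have h3 := hr (sh i + 1)
      unfold pw at h3
      rw [h3, sh_apply, sh_inv]
      have e1 : i + 1 + 1 + 2 = i + 1 := by fin_cases i <;> rfl
      rw [e1]
      have e2 : dd (i + 1) t = dd i (t + 2) := by
        fin_cases i <;> fin_cases t <;> simp [dd]
      rw [e2]
    refine ⟨sh * Equiv.swap k (k + 1), fun i => ⟨?_, ?_⟩⟩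
    · show rho (sh (Equiv.swap k (k + 1) i)) (pw sh w) 0 = ((-1 : ℂˣ) : ℂ) * rho i w 0
      unfold rho
      rw [hP, (hneg i).1]
      apply Complex.ext <;> simp
    · show lam (sh (Equiv.swap k (k + 1) i)) (pw sh w) 0 = pw sh (lam i w 0)
      rw [hL, (hneg i).2]
  · show ((-1 : ℂˣ) : ℂ) ^ 2 = 1
    simp

def MC : Subgroup (Perm (Fin 6) × AA 3) := Subgroup.zpowers (c6, ga)

theorem c6_pow_ne : ∀ n : Fin 6, n ≠ 0 → c6 ^ (n : ℕ) ≠ 1 := by decide +kernel

theorem ga_pow : ga ^ 6 = 1 := by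
  unfold ga
  refine Prod.ext ?_ ?_
  · show sh ^ 6 = 1
    decide +kernel
  · show (-1 : ℂˣ) ^ 6 = 1
    norm_num

theorem c6_pow : c6 ^ 6 = 1 := by decide +kernel

theorem mem_MC {x : Perm (Fin 6) × AA 3} (h : x ∈ MC) : ∃ n : Fin 6, x = (c6, ga) ^ (n : ℕ) := by
  obtain ⟨n, rfl⟩ := Subgroup.mem_zpowers_iff.mp h
  have h6 : ((c6, ga) : Perm (Fin 6) × AA 3) ^ 6 = 1 := by
    refine Prod.ext ?_ ?_
    · exact c6_pow
    · exact ga_pow
  have hn : 0 ≤ n % 6 := Int.emod_nonneg _ (by norm_num)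
  have hn' : n % 6 < 6 := Int.emod_lt_of_pos _ (by norm_num)
  refine ⟨⟨(n % 6).toNat, by omega⟩, ?_⟩
  have : n = 6 * (n / 6) + n % 6 := (Int.mul_ediv_add_emod n 6).symm
  conv_lhs => rw [this]
  rw [zpow_add, zpow_mul]
  have e : ((c6, ga) : Perm (Fin 6) × AA 3) ^ (6 : ℤ) = 1 := by exact_mod_cast h6
  rw [e, one_zpow, one_mul]
  conv_lhs => rw [← Int.toNat_of_nonneg hn]
  rw [zpow_natCast]

theorem Ok_pow (n : ℕ) : Ok (ga ^ n) := by
  induction n with
  | zero => rw [pow_zero]; exact Ok.one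
  | succ n ih => rw [pow_succ]; exact ih.mul Ok.ga

theorem Ok_of_mem {k : Perm (Fin 6)} {a : AA 3} (h : (k, a) ∈ MC) : Ok a := by
  obtain ⟨n, hn⟩ := mem_MC h
  have : a = ga ^ (n : ℕ) := congrArg Prod.snd hn
  rw [this]; exact Ok_pow _

theorem quiet_pair {w : Fin 3 → ℝ} {i j : Fin 3} (hij : i ≠ j) (h : P i w = P j w) :
    ∀ k, r k w = 0 := by
  obtain ⟨k, h1, h2⟩ := exists_quiet w
  have e1 : k + 1 + 2 = k := by fin_cases k <;> rfl
  have e2 : k + 2 + 2 = k + 1 := by fin_cases k <;> rfl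
  have p0 : P k w = r k w := by unfold P; rw [h2]; ring
  have p1 : P (k + 1) w = - r k w := by unfold P; rw [e1, h1]; ring
  have p2 : P (k + 2) w = 0 := by unfold P; rw [e2, h1, h2]; ring
  have h3 : ∀ i : Fin 3, i = k ∨ i = k + 1 ∨ i = k + 2 := by
    fin_cases k <;> decide
  have h0 : r k w = 0 := by
    rcases h3 i with rfl | rfl | rfl <;> rcases h3 j with hj | hj | hj <;>
      rw [hj] at h hij <;> first
        | exact absurd rfl hij
        | (simp only [p0, p1, p2] at h; linarith)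
  intro l
  rcases h3 l with rfl | rfl | rfl
  · exact h0
  · exact h1
  · exact h2

noncomputable def DC : RD 3 (Fin 3) :=
  { C := CC
    closed := isClosed_eq (by fun_prop) continuous_const
    cone := by
      intro c _ w hw
      show ∑ t, (c • w) t = 0
      simp only [Pi.smul_apply, smul_eq_mul]
      rw [← Finset.mul_sum]
      have : ∑ t, w t = 0 := hw
      rw [this, mul_zero]
    zero := by show ∑ t, (0 : Fin 3 → ℝ) t = 0; simp
    rho := rho
    lam := lam
    rc := by
      intro i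
      have h1 := r_cont i
      have h2 := r_cont (i + 2)
      have : (fun q : (Fin 3 → ℝ) × ℝ => rho i q.1 q.2) =
          fun q => ((r i q.1 - r (i + 2) q.1 : ℝ) : ℂ) + ((bet i * q.2 : ℝ) : ℂ) * Complex.I := by
        funext q
        apply Complex.ext <;> simp [rho, P]
      rw [this]
      fun_prop
    lc := by
      intro i
      have h1 := r_cont (i + 1)
      unfold lam
      fun_prop
    rh := by
      intro i c w σ hc
      unfold rho P
      rw [r_smul _ _ hc, r_smul _ _ hc]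
      apply Complex.ext <;> simp <;> ring
    lh := by
      intro i c w σ hc
      unfold lam
      rw [r_smul _ _ hc]
      funext t
      simp only [Pi.smul_apply, smul_eq_mul]
      ring
    nd1 := by
      intro i w σ hw hσ hne h0
      apply hne
      set τ := r (i + 1) w + σ with hτ
      have hτ0 : 0 ≤ τ := add_nonneg (r_nonneg _ _) hσ
      have hv : ∀ t, w t = - τ * dd i t := by
        intro t
        have := congrFun h0 t
        simp only [lam, Pi.zero_apply] at this
        rw [← hτ] at this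
        linarith
      have hr : r (i + 1) w = 3 * τ := by
        unfold r
        have e1 : i + 1 + 1 = i + 2 := by fin_cases i <;> rfl
        have e2 : i + 1 + 2 = i := by fin_cases i <;> rfl
        rw [e1, e2, hv, hv, hv]
        have d0 : dd i i = 2 := by simp [dd]
        have d1 : dd i (i + 1) = -1 := by fin_cases i <;> simp [dd]
        have d2 : dd i (i + 2) = -1 := by fin_cases i <;> simp [dd]
        rw [d0, d1, d2, min_self, max_eq_right]
        · ring
        · linarith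
      have h1 : τ = 0 := by linarith
      have h2 : σ = 0 := by linarith
      have h3 : w = 0 := by funext t; rw [hv, h1]; simp
      rw [h3, h2]; rfl
    nd2 := by
      intro i j w σ hw hσ h
      by_cases hij : i = j
      · rw [hij]
      · have hre := congrArg Complex.re h
        have him := congrArg Complex.im h
        simp only [rho] at hre him
        have hσ0 : σ = 0 := by
          have : (bet i - bet j) * σ = 0 := by linarith
          rcases mul_eq_zero.mp this with h | h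
          · exfalso
            apply hij
            unfold bet at h
            have : ((i : ℕ) : ℝ) = ((j : ℕ) : ℝ) := by linarith
            exact Fin.ext (by exact_mod_cast this)
          · exact h
        have hq := quiet_pair hij hre
        unfold lam
        rw [hσ0, hq, hq]
        funext t; ring
    δ0 := 1
    δ0pos := one_pos
    coneδ := by
      intro δ _ _ w hw σ _ z
      show ∑ t, _ = 0
      simp only [Finset.sum_apply, Pi.smul_apply, smul_eq_mul]
      rw [Finset.sum_comm]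
      apply Finset.sum_eq_zero
      intro i _
      rw [← Finset.mul_sum]
      have : ∑ t, lam i w σ t = 0 := by
        unfold lam
        rw [Finset.sum_add_distrib, ← Finset.mul_sum, dd_sum]
        have : ∑ t, w t = 0 := hw
        rw [this]; ring
      rw [this, mul_zero]
    M := MC
    inj := by
      intro a ha
      obtain ⟨n, hn⟩ := mem_MC ha
      have h1 : (1 : Perm (Fin 6)) = c6 ^ (n : ℕ) := congrArg Prod.fst hn
      have h2 : a = ga ^ (n : ℕ) := congrArg Prod.snd hn
      have h3 : n = 0 := by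
        by_contra hne
        exact c6_pow_ne n hne h1.symm
      rw [h2, h3]; simp
    c1 := fun k a h => (Ok_of_mem h).1
    c2 := fun k a h => (Ok_of_mem h).2.1
    c3 := by
      intro k a h
      have := (Ok_of_mem h).2.2
      simp only [Fintype.card_fin]
      rw [pow_succ, this, one_mul]
    c4 := by
      intro k a h
      exact Complex.norm_eq_one_of_pow_eq_one (Ok_of_mem h).2.2 (by norm_num) }

theorem good_C : Good (kk1 0) (kk2 0) := by
  have hm : ((c6 : Perm (Fin 6)), ga) ∈ DC.M := Subgroup.mem_zpowers _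
  refine DC.good (a1 := ga) (a2 := ga) hm hm ?_
  intro e he h _
  have he' : ∑ t, e.2 t = 0 := he
  have h1 : (((-1 : ℂˣ) : ℂ)) * e.1 = e.1 := congrArg Prod.fst h
  have h2 : pw sh e.2 = e.2 := congrArg Prod.snd h
  have hz : e.1 = 0 := by
    have : - e.1 = e.1 := by simpa using h1
    have h3 : (2 : ℂ) * e.1 = 0 := by linear_combination - this
    exact (mul_eq_zero.mp h3).resolve_left two_ne_zero
  have hs : ∀ t : Fin 3, e.2 (t + 2) = e.2 t := by
    intro t
    have := congrFun h2 t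
    simp only [pw] at this
    rwa [sh_inv] at this
  have hs0 := hs 0
  have hs1 := hs 1
  rw [Fin.sum_univ_three] at he'
  have e1 : (0 : Fin 3) + 2 = 2 := rfl
  have e2 : (1 : Fin 3) + 2 = 0 := rfl
  rw [e1] at hs0
  rw [e2] at hs1
  refine Prod.ext hz ?_
  funext t
  have a0 : e.2 0 = 0 := by linarith
  have a1 : e.2 1 = 0 := by linarith
  have a2 : e.2 2 = 0 := by linarith
  fin_cases t
  · exact a0
  · exact a1
  · exact a2

end Cyc

end Pool.Agent.Helper9.AFL
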