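import Pool.Agent.Helper9.AFLTypes
import Pool.Agent.Helper9.AFLCyc

set_option autoImplicit false
set_option maxHeartbeats 1000000

namespace Pool.Agent.Helper9.AFL

open Equiv

theorem all_good (τ : Fin 4) : Good (kk1 τ) (kk2 τ) := by
  fin_cases τ
  · exact Cyc.good_C
  · exact good_S
  · exact good_A
  · exact good_F

theorem act_mul {n : ℕ} (g h : Perm (Fin 6)) (x : Fin n → Perm (Fin 6) → ℝ) :
    act g (act h x) = act (g * h) x := by
  funext i k
  simp [act, mul_inv_rev, mul_assoc]

theorem act_one {n : ℕ} (x : Fin n → Perm (Fin 6) → ℝ) : act 1 x = x := by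
  funext i k; simp [act]

def Sj (j : Fin 6) : Finset (Perm (Fin 6)) := Finset.univ.filter (fun g => g j = 0)

theorem Sj_ne (j : Fin 6) : (Sj j).Nonempty :=
  ⟨Equiv.swap j 0, by simp [Sj]⟩

section

variable {p : Fin 4 → ℕ}

abbrev Cfg (p : Fin 4 → ℕ) := (τ : Fin 4) → Perm (Fin 6) → ℂ × (Fin (p τ) → ℝ)

def actP (h : Perm (Fin 6)) (P : Cfg p) : Cfg p := fun τ g => P τ (g * h)

theorem actP_mul (g h : Perm (Fin 6)) (P : Cfg p) : actP g (actP h P) = actP (g * h) P := by
  funext τ x; simp [actP, mul_assoc]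

theorem actP_one (P : Cfg p) : actP 1 P = P := by
  funext τ x; simp [actP]

noncomputable def Phq (q P : Cfg p) (j : Fin 6) : ℝ :=
  (Sj j).inf' (Sj_ne j) (fun g => dist (actP g P) q)

theorem actP_cont (g : Perm (Fin 6)) : Continuous (actP g : Cfg p → Cfg p) := by
  unfold actP; fun_prop

theorem Phq_cont (q : Cfg p) (j : Fin 6) : Continuous (fun P => Phq q P j) := by
  unfold Phq
  apply Continuous.finset_inf'_apply
  intro g _
  exact (actP_cont g).dist continuous_const

theorem Phq_act (q P : Cfg p) (h : Perm (Fin 6)) (j : Fin 6) : Phq q (actP h P) (h j) = Phq q P j := by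
  unfold Phq
  apply le_antisymm
  · apply Finset.le_inf'
    intro g hg
    have hg' : g * h⁻¹ ∈ Sj (h j) := by
      simp only [Sj, Finset.mem_filter, Finset.mem_univ, true_and] at hg ⊢
      rw [Perm.mul_apply]
      have : h⁻¹ (h j) = j := h.symm_apply_apply j
      rw [this, hg]
    refine (Finset.inf'_le _ hg').trans ?_
    rw [actP_mul, inv_mul_cancel_right]
  · apply Finset.le_inf'
    intro g hg
    have hg' : g * h ∈ Sj j := by
      simp only [Sj, Finset.mem_filter, Finset.mem_univ, true_and] at hg ⊢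
      rw [Perm.mul_apply, hg]
    refine (Finset.inf'_le _ hg').trans ?_
    rw [actP_mul]

end

theorem theta_exists : ∃ (Q : Type) (_ : Fintype Q), ∀ n : ℕ,
    ∃ Θ : (Fin n → Perm (Fin 6) → ℝ) → Fin 6 → Q → ℝ, ContinuousOn Θ (StarS n) ∧
      (∀ x ∈ StarS n, ∀ (g : Perm (Fin 6)) (j : Fin 6), Θ (act g x) (g j) = Θ x j) ∧
      ∀ x ∈ StarS n, ∃ j, Θ x j ≠ Θ x 0 := by
  classical
  choose p K A1 A2 hK hA1 hA2 hfix hψ using all_good
  let P' : Set (Cfg p) := {P | (∀ τ g, P τ g ∈ K τ) ∧ (∀ τ g, P τ (kk1 τ * g) = A1 τ (P τ g)) ∧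
    (∀ τ g, P τ (kk2 τ * g) = A2 τ (P τ g))}
  have hP' : IsCompact P' := by
    have h1 : IsCompact (Set.pi Set.univ (fun τ : Fin 4 =>
        Set.pi Set.univ (fun _ : Perm (Fin 6) => K τ))) :=
      isCompact_univ_pi fun τ => isCompact_univ_pi fun _ => hK τ
    have h2 : IsClosed {P : Cfg p | (∀ τ g, P τ (kk1 τ * g) = A1 τ (P τ g)) ∧
        (∀ τ g, P τ (kk2 τ * g) = A2 τ (P τ g))} := by
      have : {P : Cfg p | (∀ τ g, P τ (kk1 τ * g) = A1 τ (P τ g)) ∧
        (∀ τ g, P τ (kk2 τ * g) = A2 τ (P τ g))} =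
        (⋂ τ, ⋂ g, {P : Cfg p | P τ (kk1 τ * g) = A1 τ (P τ g)}) ∩
        (⋂ τ, ⋂ g, {P : Cfg p | P τ (kk2 τ * g) = A2 τ (P τ g)}) := by
        ext P; simp
      rw [this]
      apply IsClosed.inter
      · apply isClosed_iInter; intro τ
        apply isClosed_iInter; intro g
        exact isClosed_eq (by fun_prop) ((hA1 τ).comp (by fun_prop))
      · apply isClosed_iInter; intro τ
        apply isClosed_iInter; intro g
        exact isClosed_eq (by fun_prop) ((hA2 τ).comp (by fun_prop))
    have h3 : P' = (Set.pi Set.univ (fun τ : Fin 4 =>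
        Set.pi Set.univ (fun _ : Perm (Fin 6) => K τ))) ∩
        {P : Cfg p | (∀ τ g, P τ (kk1 τ * g) = A1 τ (P τ g)) ∧
        (∀ τ g, P τ (kk2 τ * g) = A2 τ (P τ g))} := by
      ext P; simp [P', Set.mem_pi]
    rw [h3]
    exact h1.inter_right h2
  have hnc : ∀ P ∈ P', ∃ j, Phq P P j ≠ Phq P P 0 := by
    intro P hP
    by_contra hcon
    simp only [not_exists, not_not] at hcon
    have h0 : Phq P P 0 ≤ 0 := by
      unfold Phq
      have : (1 : Perm (Fin 6)) ∈ Sj 0 := by simp [Sj]
      refine (Finset.inf'_le _ this).trans ?_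
      rw [actP_one, dist_self]
    let S : Subgroup (Perm (Fin 6)) :=
      { carrier := {g | actP g P = P}
        mul_mem' := by
          intro a b ha hb
          show actP (a * b) P = P
          rw [← actP_mul]
          have hb' : actP b P = P := hb
          rw [hb']; exact ha
        one_mem' := actP_one P
        inv_mem' := by
          intro a ha
          show actP a⁻¹ P = P
          have ha' : actP a P = P := ha
          conv_lhs => rw [← ha']
          rw [actP_mul, inv_mul_cancel, actP_one] }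
    have hT : TransS S := by
      intro j
      have h1 : Phq P P j ≤ 0 := by rw [hcon j]; exact h0
      obtain ⟨g, hg, hge⟩ := Finset.exists_mem_eq_inf' (Sj_ne j) (fun g => dist (actP g P) P)
      have h2 : dist (actP g P) P ≤ 0 := by
        rw [← hge]; exact h1
      refine ⟨g, dist_le_zero.mp h2, ?_⟩
      simpa [Sj] using hg
    obtain ⟨τ, h, h1, h2⟩ := group_lemma hT
    have h1' : actP (h⁻¹ * kk1 τ * h) P = P := h1
    have h2' : actP (h⁻¹ * kk2 τ * h) P = P := h2
    apply hfix τ (P τ h) (hP.1 τ h)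
    constructor
    · rw [← hP.2.1 τ h]
      have := congrFun (congrFun h1' τ) h
      unfold actP at this
      rw [← this]
      congr 1; group
    · rw [← hP.2.2 τ h]
      have := congrFun (congrFun h2' τ) h
      unfold actP at this
      rw [← this]
      congr 1; group
  have hopen : ∀ q : Cfg p, IsOpen {P : Cfg p | ∃ j, Phq q P j ≠ Phq q P 0} := by
    intro q
    have : {P : Cfg p | ∃ j, Phq q P j ≠ Phq q P 0} =
        ⋃ j, {P : Cfg p | Phq q P j ≠ Phq q P 0} := by ext P; simp
    rw [this]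
    apply isOpen_iUnion; intro j
    exact isOpen_ne_fun (Phq_cont q j) (Phq_cont q 0)
  obtain ⟨t, ht⟩ := hP'.elim_finite_subcover
    (fun q : P' => {P : Cfg p | ∃ j, Phq q.1 P j ≠ Phq q.1 P 0}) (fun q => hopen q.1)
    (by intro P hP; rw [Set.mem_iUnion]; exact ⟨⟨P, hP⟩, hnc P hP⟩)
  refine ⟨↥t, inferInstance, ?_⟩
  intro n
  choose ψ hψc hψK hψ1 hψ2 using fun τ => hψ τ n
  let F : (Fin n → Perm (Fin 6) → ℝ) → Cfg p := fun x τ g => ψ τ (act g x)
  have hFc : ContinuousOn F (StarS n) := by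
    apply continuousOn_pi.mpr; intro τ
    apply continuousOn_pi.mpr; intro g
    apply (hψc τ).comp
    · apply Continuous.continuousOn
      unfold act; fun_prop
    · intro x hx; exact act_starS g hx
  have hFP : ∀ x ∈ StarS n, F x ∈ P' := by
    intro x hx
    refine ⟨fun τ g => hψK τ _ (act_starS g hx), fun τ g => ?_, fun τ g => ?_⟩
    · show ψ τ (act (kk1 τ * g) x) = _
      rw [← act_mul, hψ1 τ _ (act_starS g hx)]
    · show ψ τ (act (kk2 τ * g) x) = _
      rw [← act_mul, hψ2 τ _ (act_starS g hx)]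
  have hFa : ∀ x h, F (act h x) = actP h (F x) := by
    intro x h
    funext τ g
    show ψ τ (act g (act h x)) = ψ τ (act (g * h) x)
    rw [act_mul]
  refine ⟨fun x j q => Phq q.1.1 (F x) j, ?_, ?_, ?_⟩
  · apply continuousOn_pi.mpr; intro j
    apply continuousOn_pi.mpr; intro q
    exact (Phq_cont q.1.1 j).comp_continuousOn hFc
  · intro x hx g j
    funext q
    show Phq q.1.1 (F (act g x)) (g j) = Phq q.1.1 (F x) j
    rw [hFa, Phq_act]
  · intro x hx
    have h1 := ht (hFP x hx)
    rw [Set.mem_iUnion₂] at h1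
    obtain ⟨q, hq, j, hj⟩ := h1
    refine ⟨j, ?_⟩
    intro hh
    exact hj (congrFun hh ⟨q, hq⟩)

end Pool.Agent.Helper9.AFL
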