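import Pool.Agent.Helper9.AFLBlock
import Pool.Agent.Helper9.AFLSep

set_option autoImplicit false
set_option maxHeartbeats 1000000
set_option linter.unusedSectionVars false

namespace Pool.Agent.Helper9.AFL

open Equiv Metric Set

section core

variable {Q : Type} [Fintype Q]

def ell (o : Option Q) (a : Q → ℝ) : ℝ :=
  match o with
  | some l => a l
  | none => - ∑ l, a l

theorem ell_sum (a : Q → ℝ) : ∑ o : Option Q, ell o a = 0 := by
  rw [Fintype.sum_option]
  show - ∑ l, a l + ∑ l, a l = 0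
  ring

theorem ell_sub (o : Option Q) (a b : Q → ℝ) : ell o (a - b) = ell o a - ell o b := by
  cases o with
  | none =>
    show - ∑ l, (a l - b l) = - ∑ l, a l - - ∑ l, b l
    rw [Finset.sum_sub_distrib]; ring
  | some l => rfl

theorem ell_sumF (o : Option Q) (a : Fin 6 → Q → ℝ) : ell o (∑ j, a j) = ∑ j, ell o (a j) := by
  cases o with
  | none =>
    show - ∑ l, (∑ j, a j) l = ∑ j, - ∑ l, a j l
    rw [Finset.sum_neg_distrib, Finset.sum_comm]
    simp
  | some l =>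
    show (∑ j, a j) l = ∑ j, a j l
    simp

theorem ell_abs (o : Option Q) {v : Q → ℝ} {ε : ℝ} (hε : 0 ≤ ε) (h : ∀ l, |v l| ≤ ε) :
    |ell o v| ≤ (Fintype.card (Option Q) : ℝ) * ε := by
  have hc : (Fintype.card (Option Q) : ℝ) = (Fintype.card Q : ℝ) + 1 := by
    rw [Fintype.card_option]; push_cast; ring
  have hc0 : (0 : ℝ) ≤ (Fintype.card Q : ℝ) := Nat.cast_nonneg _
  rw [hc]
  cases o with
  | none =>
    show |- ∑ l, v l| ≤ _
    rw [abs_neg]
    calc |∑ l, v l| ≤ ∑ l, |v l| := Finset.abs_sum_le_sum_abs _ _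
      _ ≤ ∑ _l : Q, ε := Finset.sum_le_sum fun l _ => h l
      _ = (Fintype.card Q : ℝ) * ε := by simp
      _ ≤ _ := by nlinarith
  | some l =>
    show |v l| ≤ _
    have := h l
    nlinarith

theorem color_core {ε : ℝ} (hε : 0 ≤ ε) {a b : Fin 6 → Q → ℝ} (h1 : ∀ j l, |b j l - a j l| ≤ ε)
    (h2 : ∀ l, ∑ j, a j l = 0) {o : Option Q} (h3 : ∀ j o', ell o' (b j) ≤ ell o (b j)) :
    ∀ j l, |a j l| ≤ 7 * (Fintype.card (Option Q) : ℝ) ^ 2 * ε := by
  classical
  set m : ℝ := (Fintype.card (Option Q) : ℝ) with hm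
  have hm1 : 1 ≤ m := by
    rw [hm, Fintype.card_option]; push_cast
    have : (0 : ℝ) ≤ (Fintype.card Q : ℝ) := Nat.cast_nonneg _
    linarith
  have hd : ∀ j, |ell o (b j) - ell o (a j)| ≤ m * ε := by
    intro j
    rw [← ell_sub]
    exact ell_abs o hε (fun l => h1 j l)
  have hpos : ∀ j, 0 ≤ ell o (b j) := by
    intro j
    have h4 : ∑ o' : Option Q, ell o' (b j) ≤ ∑ _o' : Option Q, ell o (b j) :=
      Finset.sum_le_sum fun o' _ => h3 j o'
    rw [ell_sum] at h4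
    simp only [Finset.sum_const, Finset.card_univ, nsmul_eq_mul] at h4
    rw [← hm] at h4
    by_contra hc
    have : m * ell o (b j) < 0 := mul_neg_of_pos_of_neg (by linarith) (not_le.mp hc)
    linarith
  have hge : ∀ j, - (m * ε) ≤ ell o (a j) := by
    intro j
    have := abs_le.mp (hd j)
    linarith [hpos j, this.2]
  have hs : ∑ j, ell o (a j) = 0 := by
    rw [← ell_sumF]
    have : ∑ j, a j = 0 := by funext l; simp [h2 l]
    rw [this]
    cases o with
    | none => show - ∑ l : Q, (0 : ℝ) = 0; simp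
    | some l => rfl
  have hle : ∀ j, ell o (a j) ≤ 5 * (m * ε) := by
    intro j
    have h5 : ∑ i ∈ Finset.univ.erase j, ell o (a i) + ell o (a j) = 0 := by
      rw [Finset.sum_erase_add _ _ (Finset.mem_univ j)]; exact hs
    have h6 : ∑ _i ∈ Finset.univ.erase j, (-(m * ε)) ≤ ∑ i ∈ Finset.univ.erase j, ell o (a i) :=
      Finset.sum_le_sum fun i _ => hge i
    rw [Finset.sum_const, Finset.card_erase_of_mem (Finset.mem_univ j)] at h6
    simp only [Finset.card_univ, Fintype.card_fin, nsmul_eq_mul] at h6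
    norm_num at h6
    linarith
  have hb : ∀ j, ell o (b j) ≤ 6 * (m * ε) := by
    intro j
    have := abs_le.mp (hd j)
    linarith [hle j, this.2]
  have hall : ∀ j o', |ell o' (b j)| ≤ 6 * m ^ 2 * ε := by
    intro j o'
    rw [abs_le]
    have hmε : 0 ≤ m * ε := mul_nonneg (by linarith) hε
    have hmm : m * ε ≤ m ^ 2 * ε := by nlinarith
    constructor
    · have h5 : ∑ x ∈ Finset.univ.erase o', ell x (b j) + ell o' (b j) = 0 := by
        rw [Finset.sum_erase_add _ _ (Finset.mem_univ o')]; exact ell_sum _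
      have h6 : ∑ x ∈ Finset.univ.erase o', ell x (b j) ≤
          ∑ _x ∈ Finset.univ.erase o', 6 * (m * ε) :=
        Finset.sum_le_sum fun x _ => (h3 j x).trans (hb j)
      rw [Finset.sum_const, Finset.card_erase_of_mem (Finset.mem_univ o')] at h6
      simp only [Finset.card_univ, nsmul_eq_mul] at h6
      have h7 : ((Fintype.card (Option Q) - 1 : ℕ) : ℝ) ≤ m := by
        rw [hm]; exact_mod_cast Nat.sub_le _ _
      have h8 : ((Fintype.card (Option Q) - 1 : ℕ) : ℝ) * (6 * (m * ε)) ≤ m * (6 * (m * ε)) :=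
        mul_le_mul_of_nonneg_right h7 (by linarith)
      have h9 : m * (6 * (m * ε)) = 6 * m ^ 2 * ε := by ring
      linarith
    · have := (h3 j o').trans (hb j)
      linarith
  intro j l
  have h5 := hall j (some l)
  have h6 : ell (some l) (b j) = b j l := rfl
  rw [h6] at h5
  have h7 := abs_le.mp h5
  have h8 := abs_le.mp (h1 j l)
  have hmm1 : 1 ≤ m ^ 2 := by nlinarith
  have h9 : ε ≤ m ^ 2 * ε := by nlinarith
  rw [abs_le]
  constructor
  · nlinarith [h7.1, h8.2]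
  · nlinarith [h7.2, h8.1]

end core

variable {n M : ℕ}

noncomputable def rz (z : NV n M) : Fin n → Perm (Fin 6) → ℝ := (M : ℝ)⁻¹ • cst z.1

theorem rz_act (g : Perm (Fin 6)) (z : NV n M) : rz (gact g z) = act g (rz z) := by
  funext i h
  rfl

def Kc (n : ℕ) : Set (Fin n → Perm (Fin 6) → ℝ) := {x | IsStar x ∧ 1 ≤ ‖x‖ ∧ ‖x‖ ≤ 2}

theorem Kc_compact : IsCompact (Kc n) := by
  apply Metric.isCompact_of_isClosed_isBounded
  · have : Kc n = ((⋂ i, ⋂ g, {x : Fin n → Perm (Fin 6) → ℝ | 0 ≤ x i g}) ∩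
        (⋂ i, ⋂ g, ⋂ h, {x : Fin n → Perm (Fin 6) → ℝ | g ≠ h → x i g = 0 ∨ x i h = 0})) ∩
        ({x | 1 ≤ ‖x‖} ∩ {x | ‖x‖ ≤ 2}) := by
      ext x; simp [Kc, IsStar]
    rw [this]
    apply IsClosed.inter
    · apply IsClosed.inter
      · apply isClosed_iInter; intro i
        apply isClosed_iInter; intro g
        exact isClosed_le continuous_const (by fun_prop)
      · apply isClosed_iInter; intro i
        apply isClosed_iInter; intro g
        apply isClosed_iInter; intro h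
        by_cases hgh : g = h
        · simp [hgh]
        · have : {x : Fin n → Perm (Fin 6) → ℝ | g ≠ h → x i g = 0 ∨ x i h = 0} =
              {x | x i g = 0} ∪ {x | x i h = 0} := by ext x; simp [hgh]
          rw [this]
          exact (isClosed_eq (by fun_prop) continuous_const).union
            (isClosed_eq (by fun_prop) continuous_const)
    · exact (isClosed_le continuous_const continuous_norm).inter
        (isClosed_le continuous_norm continuous_const)
  · apply (Metric.isBounded_closedBall (x := (0 : Fin n → Perm (Fin 6) → ℝ)) (r := 2)).subset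
    intro x hx
    rw [mem_closedBall_zero_iff]
    exact hx.2.2

theorem Kc_sub : Kc n ⊆ StarS n := by
  intro x hx
  refine ⟨hx.1, ?_⟩
  intro e
  have := hx.2.1
  rw [e, norm_zero] at this
  norm_num at this

theorem rz_mem (hM : 1 ≤ M) (z : NV n M) : rz z ∈ Kc n := by
  have hM' : (0 : ℝ) < (M : ℝ) := by exact_mod_cast hM
  have hinv : (0 : ℝ) < (M : ℝ)⁻¹ := inv_pos.mpr hM'
  have hval : ∀ i g, rz z i g = (M : ℝ)⁻¹ * (z.1 i g : ℝ) := fun i g => rfl
  have hnn : ∀ i g, 0 ≤ rz z i g := by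
    intro i g; rw [hval]; positivity
  refine ⟨⟨hnn, fun i g h hgh => ?_⟩, ?_, ?_⟩
  · rw [hval, hval]
    rcases z.2.2.1 i g h hgh with h1 | h1
    · left; rw [h1]; simp
    · right; rw [h1]; simp
  · obtain ⟨i, g, h⟩ := z.2.2.2
    have h1 := (norm_le_pi_norm (rz z i) g).trans (norm_le_pi_norm (rz z) i)
    rw [Real.norm_of_nonneg (hnn i g), hval] at h1
    have h2 : (M : ℝ) ≤ (z.1 i g : ℝ) := by exact_mod_cast h
    have h3 : (M : ℝ)⁻¹ * (M : ℝ) ≤ (M : ℝ)⁻¹ * (z.1 i g : ℝ) :=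
      mul_le_mul_of_nonneg_left h2 hinv.le
    rw [inv_mul_cancel₀ hM'.ne'] at h3
    linarith
  · rw [pi_norm_le_iff_of_nonneg (by norm_num)]
    intro i
    rw [pi_norm_le_iff_of_nonneg (by norm_num)]
    intro g
    rw [Real.norm_of_nonneg (hnn i g), hval]
    have h2 : (z.1 i g : ℝ) ≤ 2 * (M : ℝ) := by exact_mod_cast z.2.1 i g
    have h3 : (M : ℝ)⁻¹ * (z.1 i g : ℝ) ≤ (M : ℝ)⁻¹ * (2 * (M : ℝ)) :=
      mul_le_mul_of_nonneg_left h2 hinv.le
    have h4 : (M : ℝ)⁻¹ * (2 * (M : ℝ)) = 2 := by field_simp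
    linarith

theorem rz_dist (hM : 1 ≤ M) {z w : NV n M} (h : adj z.1 w.1) : dist (rz z) (rz w) ≤ (M : ℝ)⁻¹ := by
  have hM' : (0 : ℝ) < (M : ℝ) := by exact_mod_cast hM
  have hinv : (0 : ℝ) < (M : ℝ)⁻¹ := inv_pos.mpr hM'
  rw [dist_pi_le_iff hinv.le]
  intro i
  rw [dist_pi_le_iff hinv.le]
  intro g
  have hval : ∀ z : NV n M, rz z i g = (M : ℝ)⁻¹ * (z.1 i g : ℝ) := fun z => rfl
  rw [hval, hval, Real.dist_eq, ← mul_sub, abs_mul, abs_of_pos hinv]
  have h1 : |(z.1 i g : ℝ) - (w.1 i g : ℝ)| ≤ 1 := by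
    have h2 := h i g
    have h3 : (z.1 i g : ℝ) ≤ (w.1 i g : ℝ) + 1 := by exact_mod_cast h2.1
    have h4 : (w.1 i g : ℝ) ≤ (z.1 i g : ℝ) + 1 := by exact_mod_cast h2.2
    rw [abs_le]; constructor <;> linarith
  nlinarith

/-- Existence of the colouring for large parameter. -/
theorem exists_colouring {Q : Type} [Fintype Q] (n : ℕ)
    (Θ : (Fin n → Perm (Fin 6) → ℝ) → Fin 6 → Q → ℝ) (hc : ContinuousOn Θ (StarS n))
    (he : ∀ x ∈ StarS n, ∀ (g : Perm (Fin 6)) (j : Fin 6), Θ (act g x) (g j) = Θ x j)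
    (hn : ∀ x ∈ StarS n, ∃ j, Θ x j ≠ Θ x 0) :
    ∃ M0 : ℕ, ∀ M, M0 ≤ M → ∃ c : VQ n M → Option Q, ∀ e ∈ HH n M, ∃ u ∈ e, ∃ v ∈ e, c u ≠ c v := by
  classical
  let Tb : (Fin n → Perm (Fin 6) → ℝ) → Fin 6 → Q → ℝ :=
    fun x j l => Θ x j l - (∑ i, Θ x i l) / 6
  have hTbc : ContinuousOn Tb (Kc n) := by
    have h1 : ∀ j l, ContinuousOn (fun x => Θ x j l) (Kc n) := fun j l =>
      (continuousOn_pi.mp (continuousOn_pi.mp (hc.mono Kc_sub) j) l)
    apply continuousOn_pi.mpr; intro j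
    apply continuousOn_pi.mpr; intro l
    exact (h1 j l).sub ((continuousOn_finsetSum _ (fun i _ => h1 i l)).div_const 6)
  have hTbe : ∀ x ∈ StarS n, ∀ (g : Perm (Fin 6)) (j : Fin 6), Tb (act g x) (g j) = Tb x j := by
    intro x hx g j
    funext l
    show Θ (act g x) (g j) l - (∑ i, Θ (act g x) i l) / 6 = Θ x j l - (∑ i, Θ x i l) / 6
    rw [he x hx g j, ← Equiv.sum_comp g]
    simp_rw [he x hx g]
  have hTbs : ∀ x l, ∑ j, Tb x j l = 0 := by
    intro x l
    show ∑ j, (Θ x j l - (∑ i, Θ x i l) / 6) = 0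
    rw [Finset.sum_sub_distrib, Finset.sum_const]
    simp only [Finset.card_univ, Fintype.card_fin, nsmul_eq_mul]
    push_cast; ring
  have hTbn : ∀ x ∈ Kc n, Tb x ≠ 0 := by
    intro x hx h0
    obtain ⟨j, hj⟩ := hn x (Kc_sub hx)
    apply hj
    funext l
    have h1 : Θ x j l - (∑ i, Θ x i l) / 6 = 0 := congrFun (congrFun h0 j) l
    have h2 : Θ x 0 l - (∑ i, Θ x i l) / 6 = 0 := congrFun (congrFun h0 0) l
    linarith
  have hε : ∃ ε : ℝ, 0 < ε ∧ ∀ x ∈ Kc n, ε ≤ ‖Tb x‖ := by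
    rcases (Kc n).eq_empty_or_nonempty with h | h
    · exact ⟨1, one_pos, fun x hx => by rw [h] at hx; exact hx.elim⟩
    · obtain ⟨x0, hx0, hmin⟩ := Kc_compact.exists_isMinOn h hTbc.norm
      exact ⟨‖Tb x0‖, norm_pos_iff.mpr (hTbn x0 hx0), fun x hx => hmin hx⟩
  obtain ⟨ε, hε0, hε⟩ := hε
  set m : ℝ := (Fintype.card (Option Q) : ℝ) with hm
  have hm1 : 1 ≤ m := by
    rw [hm, Fintype.card_option]; push_cast
    have : (0 : ℝ) ≤ (Fintype.card Q : ℝ) := Nat.cast_nonneg _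
    linarith
  have hm2 : 0 < 8 * m ^ 2 := by positivity
  have huc := Kc_compact.uniformContinuousOn_of_continuous hTbc
  rw [Metric.uniformContinuousOn_iff] at huc
  obtain ⟨δ, hδ0, hδ⟩ := huc (ε / (8 * m ^ 2)) (div_pos hε0 hm2)
  obtain ⟨M1, hM1⟩ := exists_nat_gt δ⁻¹
  refine ⟨M1 + 1, fun M hM => ?_⟩
  have hM1' : 1 ≤ M := by omega
  have hMpos : (0 : ℝ) < (M : ℝ) := by exact_mod_cast hM1'
  have hMδ : (M : ℝ)⁻¹ < δ := by
    rw [inv_lt_comm₀ hMpos hδ0]
    have : (M1 : ℝ) ≤ (M : ℝ) := by exact_mod_cast (by omega : M1 ≤ M)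
    linarith
  have ham : ∀ a : Q → ℝ, ∃ o : Option Q, ∀ o', ell o' a ≤ ell o a := fun a =>
    Finite.exists_max (fun o => ell o a)
  choose am ham using ham
  let c0 : Fin 6 × NV n M → Option Q := fun p => am (Tb (rz p.2) p.1)
  have hc0 : ∀ p q : Fin 6 × NV n M, (vset n M).r p q → c0 p = c0 q := by
    rintro ⟨i, z⟩ ⟨j, w⟩ ⟨g, h1, h2⟩
    show am (Tb (rz z) i) = am (Tb (rz w) j)
    have h1' : g i = j := h1
    have h2' : gact g z = w := h2
    rw [← h1', ← h2', rz_act, hTbe _ (Kc_sub (rz_mem hM1' z))]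
  let c : VQ n M → Option Q := Quotient.lift c0 hc0
  have hcv : ∀ i z, c (vv i z) = am (Tb (rz z) i) := fun i z => rfl
  refine ⟨c, ?_⟩
  intro e heH
  obtain ⟨z, hz, rfl⟩ := mem_HH.mp heH
  by_contra hcon
  have hsame : ∀ i j, c (vv i (z i)) = c (vv j (z j)) := by
    intro i j
    by_contra hne
    exact hcon ⟨_, Finset.mem_image_of_mem _ (Finset.mem_univ i), _,
      Finset.mem_image_of_mem _ (Finset.mem_univ j), hne⟩
  have hK : ∀ j, rz (z j) ∈ Kc n := fun j => rz_mem hM1' _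
  have hclose : ∀ j, dist (Tb (rz (z j))) (Tb (rz (z 0))) < ε / (8 * m ^ 2) := by
    intro j
    apply hδ _ (hK j) _ (hK 0)
    by_cases hj : j = 0
    · subst hj; rw [dist_self]; exact hδ0
    · exact (rz_dist hM1' (hz j 0 hj)).trans_lt hMδ
  have hcore := color_core (Q := Q) (ε := ε / (8 * m ^ 2)) (div_pos hε0 hm2).le
    (a := fun j => Tb (rz (z 0)) j) (b := fun j => Tb (rz (z j)) j)
    (by
      intro j l
      have h1 := (dist_le_pi_dist (Tb (rz (z j)) j) (Tb (rz (z 0)) j) l).trans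
        ((dist_le_pi_dist (Tb (rz (z j))) (Tb (rz (z 0))) j).trans (hclose j).le)
      rwa [Real.dist_eq] at h1)
    (fun l => hTbs _ l) (o := c (vv 0 (z 0)))
    (by
      intro j o'
      rw [hsame 0 j, hcv]
      exact ham _ o')
  have h7 : ‖Tb (rz (z 0))‖ ≤ 7 * m ^ 2 * (ε / (8 * m ^ 2)) := by
    have hnn : 0 ≤ 7 * m ^ 2 * (ε / (8 * m ^ 2)) := by positivity
    rw [pi_norm_le_iff_of_nonneg hnn]
    intro j
    rw [pi_norm_le_iff_of_nonneg hnn]
    intro l
    exact hcore j l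
  have h8 : 7 * m ^ 2 * (ε / (8 * m ^ 2)) = 7 / 8 * ε := by field_simp
  have h9 := hε _ (hK 0)
  rw [h8] at h7
  linarith

end Pool.Agent.Helper9.AFL
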