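import Pool.Agent.Helper9.AFLFill

set_option autoImplicit false
set_option maxHeartbeats 1000000
set_option linter.unusedSectionVars false

namespace Pool.Agent.Helper9.AFL

open Equiv Metric Set

variable {n M : ℕ} {L : Type} [Fintype L]

open Classical in
noncomputable def Hraw (H : C(unitInterval × YS n M L, YS n M L)) (s : ℝ) (y : Fn n M L) :
    Fn n M L :=
  if hy : y ∈ YS n M L then (H (projIcc 0 1 zero_le_one s, ⟨y, hy⟩)).1 else 0

theorem Hraw_mem (H : C(unitInterval × YS n M L, YS n M L)) (s : ℝ) {y : Fn n M L}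
    (hy : y ∈ YS n M L) : Hraw H s y ∈ YS n M L := by
  unfold Hraw
  rw [dif_pos hy]
  exact Subtype.property _

theorem Hraw_cont (H : C(unitInterval × YS n M L, YS n M L)) {S : Type} [TopologicalSpace S]
    {A : Set S} {f : S → Fn n M L} {s : S → ℝ} (hf : ContinuousOn f A) (hs : ContinuousOn s A)
    (hA : ∀ x ∈ A, f x ∈ YS n M L) : ContinuousOn (fun x => Hraw H (s x) (f x)) A := by
  rw [continuousOn_iff_continuous_domRestrict] at hf hs ⊢
  have : A.domRestrict (fun x => Hraw H (s x) (f x)) =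
      fun x : A => (H (projIcc 0 1 zero_le_one (s x), ⟨f x, hA x x.2⟩)).1 := by
    funext x
    show Hraw H (s x) (f x) = _
    unfold Hraw
    rw [dif_pos (hA x x.2)]
  rw [this]
  apply continuous_subtype_val.comp
  apply H.continuous.comp
  apply Continuous.prodMk
  · exact continuous_projIcc.comp hs
  · exact Continuous.subtype_mk hf _

theorem YS_conn [Fintype (Col n L)] [Nonempty L]
    (hM : 2 * (9 + 2 * Fintype.card (Col n L)) + 2 ≤ M) {d : ℕ} (hd : d < n)
    (f : EuclideanSpace ℝ (Fin d) → Fn n M L)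
    (hf : ContinuousOn f (sphere 0 1)) (hfY : MapsTo f (sphere 0 1) (YS n M L)) :
    ∃ F : EuclideanSpace ℝ (Fin d) → Fn n M L, ContinuousOn F (closedBall 0 1) ∧
      MapsTo F (closedBall 0 1) (YS n M L) ∧ EqOn F f (sphere 0 1) := by
  have hM3 : 3 ≤ M := by omega
  obtain ⟨H⟩ := id_homotopic (n := n) (M := M) (L := L) hM
  have hH0 : ∀ y (hy : y ∈ YS n M L), Hraw H.toContinuousMap 0 y = ss (uu y) := by
    intro y hy
    unfold Hraw
    rw [dif_pos hy]
    have : projIcc (0 : ℝ) 1 zero_le_one 0 = 0 := projIcc_left _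
    rw [this]
    exact congrArg Subtype.val (H.map_zero_left ⟨y, hy⟩)
  have hH1 : ∀ y (hy : y ∈ YS n M L), Hraw H.toContinuousMap 1 y = y := by
    intro y hy
    unfold Hraw
    rw [dif_pos hy]
    have : projIcc (0 : ℝ) 1 zero_le_one 1 = 1 := projIcc_right _
    rw [this]
    exact congrArg Subtype.val (H.map_one_left ⟨y, hy⟩)
  obtain ⟨h, h1, h2, h3⟩ := fillTT (E := EuclideanSpace ℝ (Fin d)) (L := L) hM3
    (by simpa using hd) (fun x => uu (f x)) (uu_cont.comp_continuousOn hf)
    (fun x hx => uu_TT (hfY hx))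
  classical
  let A : Set (EuclideanSpace ℝ (Fin d)) := {x | ‖x‖ ≤ 1 / 2}
  let B : Set (EuclideanSpace ℝ (Fin d)) := {x | 1 / 2 ≤ ‖x‖ ∧ ‖x‖ ≤ 1}
  have hAc : IsClosed A := isClosed_le continuous_norm continuous_const
  have hBc : IsClosed B :=
    (isClosed_le continuous_const continuous_norm).inter (isClosed_le continuous_norm continuous_const)
  let F : EuclideanSpace ℝ (Fin d) → Fn n M L := fun x =>
    if ‖x‖ ≤ 1 / 2 then ss (h ((2 : ℝ) • x))
    else Hraw H.toContinuousMap (2 * ‖x‖ - 1) (f (‖x‖⁻¹ • x))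
  have hns : ∀ x ∈ B, ‖x‖⁻¹ • x ∈ sphere (0 : EuclideanSpace ℝ (Fin d)) 1 := by
    intro x hx
    have hx0 : ‖x‖ ≠ 0 := by
      have := hx.1
      intro e; rw [e] at this; norm_num at this
    rw [mem_sphere_zero_iff_norm, norm_smul, norm_inv, norm_norm, inv_mul_cancel₀ hx0]
  have h2s : ∀ x ∈ A, (2 : ℝ) • x ∈ closedBall (0 : EuclideanSpace ℝ (Fin d)) 1 := by
    intro x hx
    rw [mem_closedBall_zero_iff, norm_smul, Real.norm_of_nonneg (by norm_num)]
    have : ‖x‖ ≤ 1 / 2 := hx
    linarith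
  have hFA : ∀ x ∈ A, F x = ss (h ((2 : ℝ) • x)) := fun x hx => if_pos hx
  have hFB : ∀ x ∈ B, F x = Hraw H.toContinuousMap (2 * ‖x‖ - 1) (f (‖x‖⁻¹ • x)) := by
    intro x hx
    by_cases hc : ‖x‖ ≤ 1 / 2
    · have he : ‖x‖ = 1 / 2 := le_antisymm hc hx.1
      have h2x : (2 : ℝ) • x ∈ sphere (0 : EuclideanSpace ℝ (Fin d)) 1 := by
        rw [mem_sphere_zero_iff_norm, norm_smul, Real.norm_of_nonneg (by norm_num), he]; norm_num
      rw [hFA x hc, he]
      have e1 : (2 : ℝ) * (1 / 2) - 1 = 0 := by norm_num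
      have e2 : ((1 : ℝ) / 2)⁻¹ = 2 := by norm_num
      rw [e1, e2, hH0 _ (hfY h2x), h3 h2x]
    · exact if_neg hc
  refine ⟨F, ?_, ?_, ?_⟩
  · have hcA : ContinuousOn F A := by
      have : ContinuousOn (fun x : EuclideanSpace ℝ (Fin d) => (ss (h ((2 : ℝ) • x)) : Fn n M L)) A := by
        apply (ss_cont hM3).comp
        · apply h1.comp (Continuous.continuousOn (by fun_prop))
          intro x hx; exact h2s x hx
        · intro x hx; exact h2 _ (h2s x hx)
      exact this.congr hFA
    have hcB : ContinuousOn F B := by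
      have : ContinuousOn (fun x : EuclideanSpace ℝ (Fin d) =>
          Hraw H.toContinuousMap (2 * ‖x‖ - 1) (f (‖x‖⁻¹ • x))) B := by
        apply Hraw_cont
        · apply hf.comp
          · have hinv : ContinuousOn (fun x : EuclideanSpace ℝ (Fin d) => ‖x‖⁻¹) B := by
              apply continuous_norm.continuousOn.inv₀
              intro x hx e
              have := hx.1
              rw [e] at this; norm_num at this
            exact hinv.smul continuousOn_id
          · intro x hx; exact hns x hx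
        · exact Continuous.continuousOn (by fun_prop)
        · intro x hx; exact hfY (hns x hx)
      exact this.congr hFB
    have hU : closedBall (0 : EuclideanSpace ℝ (Fin d)) 1 ⊆ A ∪ B := by
      intro x hx
      rw [mem_closedBall_zero_iff] at hx
      rcases le_total ‖x‖ (1 / 2) with hc | hc
      · exact Or.inl hc
      · exact Or.inr ⟨hc, hx⟩
    exact (hcA.union_of_isClosed hcB hAc hBc).mono hU
  · intro x hx
    rw [mem_closedBall_zero_iff] at hx
    rcases le_total ‖x‖ (1 / 2) with hc | hc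
    · rw [hFA x hc]; exact ss_mem hM3 (h2 _ (h2s x hc))
    · rw [hFB x ⟨hc, hx⟩]; exact Hraw_mem _ _ (hfY (hns x ⟨hc, hx⟩))
  · intro x hx
    have hx1 : ‖x‖ = 1 := by simpa using hx
    rw [hFB x ⟨by rw [hx1]; norm_num, hx1.le⟩, hx1]
    have e1 : (2 : ℝ) * 1 - 1 = 1 := by norm_num
    rw [e1, inv_one, one_smul, hH1 _ (hfY hx)]

end Pool.Agent.Helper9.AFL
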