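import Pool.Agent.Helper9.AFLSec

set_option autoImplicit false
set_option maxHeartbeats 1000000
set_option linter.unusedSectionVars false

namespace Pool.Agent.Helper9.AFL

open Equiv Metric Set

variable {E : Type} [NormedAddCommGroup E] [NormedSpace ℝ E] [FiniteDimensional ℝ E]
variable {n : ℕ} {L : Type} [Fintype L]

/-- Cone extension of a map on the unit sphere. -/
noncomputable def cone (w : E → Fin n → L → ℝ) (x : E) : Fin n → L → ℝ := ‖x‖ • w (‖x‖⁻¹ • x)

theorem cone_cont {w : E → Fin n → L → ℝ} (hw : ContinuousOn w (sphere 0 1)) :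
    Continuous (cone w) := by
  -- boundedness on the sphere
  have hb : ∃ C : ℝ, 0 ≤ C ∧ ∀ x ∈ sphere (0 : E) 1, ‖w x‖ ≤ C := by
    have hc : IsCompact (sphere (0 : E) 1) := by
      have := FiniteDimensional.proper_real E
      exact isCompact_sphere _ _
    obtain ⟨C, hC⟩ := hc.exists_bound_of_continuousOn hw
    exact ⟨max C 0, le_max_right _ _, fun x hx => (hC x hx).trans (le_max_left _ _)⟩
  obtain ⟨C, hC0, hC⟩ := hb
  have hns : ∀ x : E, x ≠ 0 → ‖x‖⁻¹ • x ∈ sphere (0 : E) 1 := by
    intro x hx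
    rw [mem_sphere_zero_iff_norm, norm_smul, norm_inv, norm_norm,
      inv_mul_cancel₀ (norm_ne_zero_iff.mpr hx)]
  rw [continuous_iff_continuousAt]
  intro x
  by_cases hx : x = 0
  · subst hx
    have h0 : cone w (0 : E) = 0 := by unfold cone; rw [norm_zero, zero_smul]
    unfold ContinuousAt
    rw [h0]
    apply squeeze_zero_norm (a := fun x : E => ‖x‖ * C)
    · intro y
      by_cases hy : y = 0
      · subst hy; rw [h0]; simp
      · unfold cone
        rw [norm_smul, norm_norm]
        exact mul_le_mul_of_nonneg_left (hC _ (hns y hy)) (norm_nonneg _)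
    · have : Filter.Tendsto (fun x : E => ‖x‖ * C) (nhds 0) (nhds (‖(0 : E)‖ * C)) :=
        (continuous_norm.mul continuous_const).tendsto 0
      simpa using this
  · have hopen : IsOpen {y : E | y ≠ 0} := isOpen_ne
    have h1 : ContinuousOn (fun y : E => ‖y‖⁻¹ • y) {y : E | y ≠ 0} := by
      apply ContinuousOn.smul
      · exact continuous_norm.continuousOn.inv₀ (fun y hy => norm_ne_zero_iff.mpr hy)
      · exact continuousOn_id
    have h2 : ContinuousOn (cone w) {y : E | y ≠ 0} := by
      unfold cone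
      apply ContinuousOn.smul continuous_norm.continuousOn
      exact hw.comp h1 (fun y hy => hns y hy)
    exact h2.continuousAt (hopen.mem_nhds hx)

theorem smul_star {x : Fin n → L → ℝ} (h : IsStar x) {c : ℝ} (hc : 0 ≤ c) : IsStar (c • x) := by
  refine ⟨fun i g => mul_nonneg hc (h.1 i g), fun i g g' hg => ?_⟩
  rcases h.2 i g g' hg with h1 | h1
  · left; show c * x i g = 0; rw [h1, mul_zero]
  · right; show c * x i g' = 0; rw [h1, mul_zero]

/-- Signed level. -/
noncomputable def lev (g0 : L) (t : L → ℝ) : ℝ := 2 * t g0 - ∑ h, t h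

open Classical in
noncomputable def shf (g0 : L) (t : L → ℝ) (a : ℝ) : L → ℝ :=
  fun g => if g = g0 then t g0 + max 0 (a - (∑ h, t h - t g0)) else max 0 (t g - a)

theorem shf_cont {S : Type} [TopologicalSpace S] (g0 : L) {f : S → L → ℝ} {a : S → ℝ} {s : Set S}
    (hf : ContinuousOn f s) (ha : ContinuousOn a s) :
    ContinuousOn (fun x => shf g0 (f x) (a x)) s := by
  classical
  have hf' : ∀ g, ContinuousOn (fun x => f x g) s := fun g => continuousOn_pi.mp hf g
  unfold shf
  apply continuousOn_pi.mpr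
  intro g
  by_cases hg : g = g0
  · simp only [if_pos hg]
    exact (hf' g0).add (continuousOn_const.sup (ha.sub ((continuousOn_finsetSum _
      (fun h _ => hf' h)).sub (hf' g0))))
  · simp only [if_neg hg]
    exact continuousOn_const.sup ((hf' g).sub ha)

theorem shf_star {g0 : L} {t : L → ℝ} (h0 : ∀ g, 0 ≤ t g) (h1 : ∀ g h, g ≠ h → t g = 0 ∨ t h = 0)
    {a : ℝ} (ha : 0 ≤ a) : (∀ g, 0 ≤ shf g0 t a g) ∧
      ∀ g h, g ≠ h → shf g0 t a g = 0 ∨ shf g0 t a h = 0 := by
  classical
  constructor
  · intro g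
    unfold shf
    split_ifs
    · exact add_nonneg (h0 _) (le_max_left _ _)
    · exact le_max_left _ _
  · have key : ∀ g h, g ≠ h → g = g0 → shf g0 t a g = 0 ∨ shf g0 t a h = 0 := by
      intro g h hgh hg
      have hh : h ≠ g0 := fun e => hgh (hg.trans e.symm)
      unfold shf
      rw [if_pos hg, if_neg hh]
      by_cases hth : t h = 0
      · right; rw [hth]; exact max_eq_left (by linarith)
      · have hg0 : t g0 = 0 := (h1 h g0 hh).resolve_left hth
        have hsum : ∑ k, t k = t h := by
          apply Finset.sum_eq_single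
          · intro k _ hk; exact (h1 k h hk).resolve_right hth
          · intro hc; exact absurd (Finset.mem_univ _) hc
        rw [hg0, hsum]
        rcases le_total a (t h) with h2 | h2
        · left; rw [max_eq_left (by linarith)]; ring
        · right; exact max_eq_left (by linarith)
    intro g h hgh
    by_cases hg : g = g0
    · exact key g h hgh hg
    · by_cases hh : h = g0
      · exact (key h g hgh.symm hh).symm
      · unfold shf
        rw [if_neg hg, if_neg hh]
        rcases h1 g h hgh with h2 | h2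
        · left; rw [h2]; exact max_eq_left (by linarith)
        · right; rw [h2]; exact max_eq_left (by linarith)

theorem shf_zero {g0 : L} {t : L → ℝ} (h0 : ∀ g, 0 ≤ t g) (h1 : ∀ g h, g ≠ h → t g = 0 ∨ t h = 0)
    {a : ℝ} (ha : 0 < a) (h : shf g0 t a = 0) : lev g0 t + a = 0 := by
  classical
  have e0 := congrFun h g0
  unfold shf at e0
  rw [if_pos rfl] at e0
  simp only [Pi.zero_apply] at e0
  have e1 : t g0 = 0 := by
    have := h0 g0
    have := le_max_left (0 : ℝ) (a - (∑ h, t h - t g0))
    linarith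
  have e2 : a ≤ ∑ h, t h := by
    have := le_max_right (0 : ℝ) (a - (∑ h, t h - t g0))
    rw [e1] at this e0
    linarith
  have hex : ∃ g, t g ≠ 0 := by
    by_contra hc
    simp only [not_exists, not_not] at hc
    rw [Finset.sum_eq_zero (fun g _ => hc g)] at e2
    linarith
  obtain ⟨g, hg⟩ := hex
  have hgg : g ≠ g0 := fun e => hg (e ▸ e1)
  have hsum : ∑ k, t k = t g := by
    apply Finset.sum_eq_single
    · intro k _ hk; exact (h1 k g hk).resolve_right hg
    · intro hc; exact absurd (Finset.mem_univ _) hc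
  have e3 := congrFun h g
  unfold shf at e3
  rw [if_neg hgg] at e3
  simp only [Pi.zero_apply] at e3
  have e4 : t g ≤ a := by
    have := le_max_right (0 : ℝ) (t g - a)
    linarith
  unfold lev
  rw [e1, hsum]
  rw [hsum] at e2
  linarith

theorem shf_id {g0 : L} {t : L → ℝ} (h0 : ∀ g, 0 ≤ t g) : shf g0 t 0 = t := by
  classical
  funext g
  unfold shf
  by_cases hg : g = g0
  · rw [if_pos hg, hg]
    have : t g0 ≤ ∑ h, t h := Finset.single_le_sum (fun h _ => h0 h) (Finset.mem_univ g0)
    rw [max_eq_left (by linarith)]; ring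
  · rw [if_neg hg, sub_zero]; exact max_eq_right (h0 g)

theorem fill [Nonempty L] (hd : Module.finrank ℝ E < n) (w : E → Fin n → L → ℝ)
    (hw : ContinuousOn w (sphere 0 1)) (hs : ∀ x ∈ sphere (0 : E) 1, IsStar (w x) ∧ w x ≠ 0) :
    ∃ h : E → Fin n → L → ℝ, ContinuousOn h (closedBall 0 1) ∧
      (∀ x ∈ closedBall (0 : E) 1, IsStar (h x) ∧ h x ≠ 0) ∧ EqOn h w (sphere 0 1) := by
  classical
  have hprop := FiniteDimensional.proper_real E
  let g0 : L := Classical.arbitrary L
  have hwc := cone_cont hw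
  have hns : ∀ x : E, x ≠ 0 → ‖x‖⁻¹ • x ∈ sphere (0 : E) 1 := by
    intro x hx
    rw [mem_sphere_zero_iff_norm, norm_smul, norm_inv, norm_norm,
      inv_mul_cancel₀ (norm_ne_zero_iff.mpr hx)]
  have hcs : ∀ x : E, IsStar (cone w x) := by
    intro x
    by_cases hx : x = 0
    · subst hx
      have : cone w (0 : E) = 0 := by unfold cone; rw [norm_zero, zero_smul]
      rw [this]
      exact ⟨fun _ _ => le_refl _, fun _ _ _ _ => Or.inl rfl⟩
    · exact smul_star (hs _ (hns x hx)).1 (norm_nonneg _)
  have hcn : ∀ x : E, x ≠ 0 → cone w x ≠ 0 := by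
    intro x hx
    exact smul_ne_zero (norm_ne_zero_iff.mpr hx) (hs _ (hns x hx)).2
  -- lower bound on the annulus
  have hδ : ∃ δ : ℝ, 0 < δ ∧ ∀ x : E, 1 / 2 ≤ ‖x‖ → ‖x‖ ≤ 1 → δ ≤ ‖cone w x‖ := by
    let A : Set E := closedBall 0 1 ∩ {x | 1 / 2 ≤ ‖x‖}
    have hA : IsCompact A := (isCompact_closedBall _ _).inter_right
      (isClosed_le continuous_const continuous_norm)
    rcases A.eq_empty_or_nonempty with h | h
    · refine ⟨1, one_pos, fun x h1 h2 => ?_⟩
      have : x ∈ A := ⟨by simpa using h2, h1⟩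
      rw [h] at this; exact this.elim
    · obtain ⟨x0, hx0, hmin⟩ := hA.exists_isMinOn h (hwc.norm.continuousOn)
      refine ⟨‖cone w x0‖, ?_, ?_⟩
      · apply norm_pos_iff.mpr
        apply hcn
        intro e
        have := hx0.2
        rw [e] at this
        simp only [mem_ofPred_eq, norm_zero] at this
        norm_num at this
      · intro x h1 h2
        exact hmin (⟨by simpa using h2, h1⟩ : x ∈ A)
  obtain ⟨δ, hδ0, hδ⟩ := hδ
  let R : E → Fin n → ℝ := fun x i => lev g0 (cone w x i)
  have hR : Continuous R := by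
    have : ∀ i g, Continuous (fun x => cone w x i g) := fun i g =>
      (continuous_apply g).comp ((continuous_apply i).comp hwc)
    show Continuous (fun x i => 2 * cone w x i g0 - ∑ h, cone w x i h)
    fun_prop
  set ε : ℝ := δ / 4 with hε
  have hε0 : 0 < ε := by rw [hε]; linarith
  obtain ⟨ρ, hρ1, hρ2, _⟩ := hR.exists_contDiff_approx (1 : ℕ∞) (ε := fun _ => ε)
    continuous_const (fun _ => hε0)
  have hdense : Dense (Set.range (fun x => - ρ x))ᶜ := by
    apply ContDiff.dense_compl_range_of_finrank_lt_finrank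
    · exact (hρ1.neg)
    · simpa using hd
  obtain ⟨v, hv1, hv2⟩ := hdense.exists_mem_open
    (isOpen_ball : IsOpen (ball (fun _ : Fin n => 3 * ε / 2) (ε / 2)))
    ⟨_, mem_ball_self (by linarith)⟩
  have hvi : ∀ i, ε < v i ∧ v i < 2 * ε := by
    intro i
    have h1 : dist v (fun _ => 3 * ε / 2) < ε / 2 := hv2
    have h2 := lt_of_le_of_lt (dist_le_pi_dist v (fun _ => 3 * ε / 2) i) h1
    rw [Real.dist_eq, abs_lt] at h2
    constructor <;> linarith [h2.1, h2.2]
  let a : E → Fin n → ℝ := fun x i => v i + ρ x i - R x i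
  have hρi : ∀ x i, |ρ x i - R x i| < ε := by
    intro x i
    have := lt_of_le_of_lt (dist_le_pi_dist (ρ x) (R x) i) (hρ2 x)
    rwa [Real.dist_eq] at this
  have ha : ∀ x i, 0 < a x i ∧ a x i < 3 * ε := by
    intro x i
    have h1 := abs_lt.mp (hρi x i)
    have h2 := hvi i
    constructor
    · show 0 < v i + ρ x i - R x i
      linarith [h1.1, h2.1]
    · show v i + ρ x i - R x i < 3 * ε
      linarith [h1.2, h2.2]
  let η : E → ℝ := fun x => max 0 (min 1 (2 - 2 * ‖x‖))
  have hη0 : ∀ x, 0 ≤ η x := fun x => le_max_left _ _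
  have hη1 : ∀ x, η x ≤ 1 := fun x => max_le zero_le_one (min_le_left _ _)
  have hac : ∀ i, Continuous (fun x => η x * a x i) := by
    intro i
    have h1 : Continuous (fun x => ρ x i) := (continuous_apply i).comp hρ1.continuous
    have h2 : Continuous (fun x => R x i) := (continuous_apply i).comp hR
    show Continuous (fun x => max 0 (min 1 (2 - 2 * ‖x‖)) * (v i + ρ x i - R x i))
    fun_prop
  refine ⟨fun x i => shf g0 (cone w x i) (η x * a x i), ?_, ?_, ?_⟩
  · apply continuousOn_pi.mpr
    intro i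
    apply shf_cont
    · exact ((continuous_apply i).comp hwc).continuousOn
    · exact (hac i).continuousOn
  · intro x hx
    have hx1 : ‖x‖ ≤ 1 := by simpa using hx
    have hst : ∀ i, _ := fun i => shf_star (g0 := g0) ((hcs x).1 i) ((hcs x).2 i)
      (mul_nonneg (hη0 x) (ha x i).1.le)
    refine ⟨⟨fun i => (hst i).1, fun i => (hst i).2⟩, ?_⟩
    intro h0
    have h0i : ∀ i, shf g0 (cone w x i) (η x * a x i) = 0 := fun i => congrFun h0 i
    rcases le_total ‖x‖ (1 / 2) with hc | hc
    · have hη : η x = 1 := by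
        show max 0 (min 1 (2 - 2 * ‖x‖)) = 1
        rw [min_eq_left (by linarith), max_eq_right zero_le_one]
      apply hv1
      refine ⟨x, ?_⟩
      funext i
      have h1 := h0i i
      rw [hη, one_mul] at h1
      have h2 := shf_zero ((hcs x).1 i) ((hcs x).2 i) (ha x i).1 h1
      have h3 : R x i + (v i + ρ x i - R x i) = 0 := h2
      show - ρ x i = v i
      linarith
    · have h1 := hδ x hc hx1
      have h2 : ∃ i g, δ ≤ cone w x i g := by
        by_contra hcon
        simp only [not_exists, not_le] at hcon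
        have : ‖cone w x‖ < δ := by
          rw [pi_norm_lt_iff hδ0]
          intro i
          rw [pi_norm_lt_iff hδ0]
          intro g
          rw [Real.norm_of_nonneg ((hcs x).1 i g)]
          exact hcon i g
        linarith
      obtain ⟨i, g, hig⟩ := h2
      have h3 := congrFun (h0i i) g
      have h4 : η x * a x i ≤ 3 * ε := by
        have := mul_le_mul_of_nonneg_right (hη1 x) (ha x i).1.le
        linarith [(ha x i).2]
      unfold shf at h3
      simp only [Pi.zero_apply] at h3
      by_cases hg : g = g0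
      · rw [if_pos hg] at h3
        have h5 := le_max_left (0 : ℝ) (η x * a x i - (∑ h, cone w x i h - cone w x i g0))
        rw [hg] at hig
        linarith
      · rw [if_neg hg] at h3
        have h5 := le_max_right (0 : ℝ) (cone w x i g - η x * a x i)
        linarith
  · intro x hx
    have hx1 : ‖x‖ = 1 := by simpa using hx
    have hη : η x = 0 := by
      show max 0 (min 1 (2 - 2 * ‖x‖)) = 0
      rw [hx1]; norm_num
    have hcx : cone w x = w x := by
      unfold cone; rw [hx1, one_smul, inv_one, one_smul]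
    funext i
    show shf g0 (cone w x i) (η x * a x i) = w x i
    rw [hη, zero_mul, shf_id ((hcs x).1 i), hcx]

theorem fillTT [Nonempty L] {M : ℕ} (hM : 3 ≤ M) (hd : Module.finrank ℝ E < n)
    (w : E → Fin n → L → ℝ)
    (hw : ContinuousOn w (sphere 0 1)) (hs : ∀ x ∈ sphere (0 : E) 1, w x ∈ TT n M L) :
    ∃ h : E → Fin n → L → ℝ, ContinuousOn h (closedBall 0 1) ∧
      (∀ x ∈ closedBall (0 : E) 1, h x ∈ TT n M L) ∧ EqOn h w (sphere 0 1) := by
  have hM' : (3 : ℝ) ≤ (M : ℝ) := by exact_mod_cast hM
  have hne : ∀ y ∈ TT n M L, (M : ℝ) - 2 ≤ ‖y‖ := by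
    intro y hy
    obtain ⟨i, g, h⟩ := hy.2
    have h1 := (norm_le_pi_norm (y i) g).trans (norm_le_pi_norm y i)
    rw [Real.norm_of_nonneg (hy.1.1 i g)] at h1
    linarith
  obtain ⟨h, h1, h2, h3⟩ := fill hd w hw (fun x hx => ⟨(hs x hx).1, by
    intro e
    have := hne _ (hs x hx)
    rw [e, norm_zero] at this
    linarith⟩)
  refine ⟨fun x => (max 1 (((M : ℝ) - 2) / ‖h x‖)) • h x, ?_, ?_, ?_⟩
  · have hm : ContinuousOn (fun x => max 1 (((M : ℝ) - 2) / ‖h x‖)) (closedBall 0 1) := by
      apply ContinuousOn.sup continuousOn_const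
      exact continuousOn_const.div h1.norm (fun x hx => norm_ne_zero_iff.mpr (h2 x hx).2)
    exact hm.smul h1
  · intro x hx
    have hc : (0 : ℝ) ≤ max 1 (((M : ℝ) - 2) / ‖h x‖) := le_trans zero_le_one (le_max_left _ _)
    refine ⟨smul_star (h2 x hx).1 hc, ?_⟩
    have hpos : 0 < ‖h x‖ := norm_pos_iff.mpr (h2 x hx).2
    have hex : ∃ i g, ‖h x‖ ≤ h x i g := by
      by_contra hcon
      simp only [not_exists, not_le] at hcon
      have : ‖h x‖ < ‖h x‖ := by
        conv_lhs => rw [← norm_norm]
        rw [norm_norm, pi_norm_lt_iff hpos]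
        intro i
        rw [pi_norm_lt_iff hpos]
        intro g
        rw [Real.norm_of_nonneg ((h2 x hx).1.1 i g)]
        exact hcon i g
      exact lt_irrefl _ this
    obtain ⟨i, g, hig⟩ := hex
    refine ⟨i, g, ?_⟩
    show (M : ℝ) - 2 ≤ max 1 (((M : ℝ) - 2) / ‖h x‖) * h x i g
    calc (M : ℝ) - 2 = (((M : ℝ) - 2) / ‖h x‖) * ‖h x‖ := by field_simp
      _ ≤ max 1 (((M : ℝ) - 2) / ‖h x‖) * h x i g :=
        mul_le_mul (le_max_right _ _) hig hpos.le hc
  · intro x hx
    have hw2 := hne _ (hs x hx)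
    show max 1 (((M : ℝ) - 2) / ‖h x‖) • h x = w x
    rw [h3 hx]
    have hpos : 0 < ‖w x‖ := by linarith
    rw [max_eq_left, one_smul]
    rw [div_le_one hpos]
    exact hw2

end Pool.Agent.Helper9.AFL
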