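import Pool.Agent.Helper9.AFLLat

set_option autoImplicit false
set_option maxHeartbeats 1000000
set_option linter.unusedSectionVars false

namespace Pool.Agent.Helper9.AFL

open Equiv

variable {n M : ℕ} {L : Type} [Finite L]

abbrev Tup (n M : ℕ) (L : Type) := Fin 6 → VT n M L
abbrev Fn (n M : ℕ) (L : Type) := Tup n M L → ℝ

/-- The block complex. -/
def YS (n M : ℕ) (L : Type) [Finite L] : Set (Fn n M L) :=
  {y | (∀ t, 0 ≤ y t) ∧ (∑ t, y t = 1) ∧
    ∀ t t', y t ≠ 0 → y t' ≠ 0 → ∀ i j, i ≠ j → adj (t i).1 (t' j).1}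

open Classical in
noncomputable def push (c : VT n M L → VT n M L) (y : Fn n M L) : Fn n M L :=
  fun t' => ∑ t, if (fun j => c (t j)) = t' then y t else 0

theorem push_nonneg {c : VT n M L → VT n M L} {y : Fn n M L} (h : ∀ t, 0 ≤ y t) (t') :
    0 ≤ push c y t' := by
  unfold push
  apply Finset.sum_nonneg
  intro t _
  split_ifs
  · exact h t
  · exact le_refl _

theorem push_sum (c : VT n M L → VT n M L) (y : Fn n M L) : ∑ t', push c y t' = ∑ t, y t := by
  classical
  unfold push
  rw [Finset.sum_comm]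
  apply Finset.sum_congr rfl
  intro t _
  simp

theorem push_supp {c : VT n M L → VT n M L} {y : Fn n M L} {t' : Tup n M L}
    (h : push c y t' ≠ 0) : ∃ t, y t ≠ 0 ∧ (fun j => c (t j)) = t' := by
  classical
  unfold push at h
  obtain ⟨t, _, ht⟩ := Finset.exists_ne_zero_of_sum_ne_zero h
  by_cases hc : (fun j => c (t j)) = t'
  · rw [if_pos hc] at ht; exact ⟨t, ht, hc⟩
  · rw [if_neg hc] at ht; exact absurd rfl ht

theorem push_cont (c : VT n M L → VT n M L) : Continuous (push c : Fn n M L → Fn n M L) := by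
  classical
  unfold push
  apply continuous_pi
  intro t'
  apply continuous_finsetSum
  intro t _
  by_cases hc : (fun j => c (t j)) = t'
  · simp only [if_pos hc]; exact continuous_apply t
  · simp only [if_neg hc]; exact continuous_const

def Compat (y y' : Fn n M L) : Prop :=
  ∀ t t', y t ≠ 0 → y' t' ≠ 0 → ∀ i j, i ≠ j → adj (t i).1 (t' j).1

theorem conv_supp {y y' : Fn n M L} {τ : ℝ} {t : Tup n M L}
    (h : ((1 - τ) • y + τ • y') t ≠ 0) : y t ≠ 0 ∨ (τ ≠ 0 ∧ y' t ≠ 0) := by
  by_contra hc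
  rw [not_or] at hc
  apply h
  simp only [Pi.add_apply, Pi.smul_apply, smul_eq_mul]
  have h1 : y t = 0 := not_not.mp hc.1
  by_cases h2 : τ = 0
  · rw [h1, h2]; ring
  · have : y' t = 0 := by
      by_contra h3; exact hc.2 ⟨h2, h3⟩
    rw [h1, this]; ring

theorem conv_mem {y y' : Fn n M L} (hy : y ∈ YS n M L) (hy' : y' ∈ YS n M L) (h : Compat y y')
    {τ : ℝ} (h0 : 0 ≤ τ) (h1 : τ ≤ 1) : (1 - τ) • y + τ • y' ∈ YS n M L := by
  refine ⟨fun t => ?_, ?_, ?_⟩
  · simp only [Pi.add_apply, Pi.smul_apply, smul_eq_mul]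
    exact add_nonneg (mul_nonneg (by linarith) (hy.1 t)) (mul_nonneg h0 (hy'.1 t))
  · simp only [Pi.add_apply, Pi.smul_apply, smul_eq_mul]
    rw [Finset.sum_add_distrib, ← Finset.mul_sum, ← Finset.mul_sum, hy.2.1, hy'.2.1]; ring
  · intro t t' ht ht' i j hij
    rcases conv_supp ht with h2 | ⟨_, h2⟩ <;> rcases conv_supp ht' with h3 | ⟨_, h3⟩
    · exact hy.2.2 t t' h2 h3 i j hij
    · exact h t t' h2 h3 i j hij
    · exact adj_symm (h t' t h3 h2 j i hij.symm)
    · exact hy'.2.2 t t' h2 h3 i j hij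

theorem homotopic_of_compat {S : Type} [TopologicalSpace S] (f g : C(S, YS n M L))
    (h : ∀ s, Compat (f s).1 (g s).1) : f.Homotopic g := by
  refine ⟨{ toFun := fun x => ⟨(1 - (x.1 : ℝ)) • (f x.2).1 + (x.1 : ℝ) • (g x.2).1,
      conv_mem (f x.2).2 (g x.2).2 (h x.2) x.1.2.1 x.1.2.2⟩
            continuous_toFun := ?_
            map_zero_left := ?_
            map_one_left := ?_ }⟩
  · apply Continuous.subtype_mk
    fun_prop
  · intro s
    apply Subtype.ext
    simp
  · intro s
    apply Subtype.ext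
    simp

/-! ### colours and weights -/

open Classical in
noncomputable def ph (a : VT n M L) (y : Fn n M L) : ℝ := ∑ t : Tup n M L, if t 0 = a then y t else 0

theorem ph_cont (a : VT n M L) : Continuous (ph a : Fn n M L → ℝ) := by
  classical
  unfold ph
  apply continuous_finsetSum
  intro t _
  by_cases hc : t 0 = a
  · simp only [if_pos hc]; exact continuous_apply t
  · simp only [if_neg hc]; exact continuous_const

theorem ph_supp {a : VT n M L} {y : Fn n M L} (h : 0 < ph a y) : ∃ t, y t ≠ 0 ∧ t 0 = a := by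
  classical
  unfold ph at h
  obtain ⟨t, _, ht⟩ := Finset.exists_ne_zero_of_sum_ne_zero h.ne'
  by_cases hc : t 0 = a
  · rw [if_pos hc] at ht; exact ⟨t, ht, hc⟩
  · rw [if_neg hc] at ht; exact absurd rfl ht

theorem ph_sum (y : Fn n M L) : ∑ a, ph a y = ∑ t, y t := by
  classical
  unfold ph
  rw [Finset.sum_comm]
  apply Finset.sum_congr rfl
  intro t _
  simp

theorem near_trans {R S : ℕ} {a b c : Fin n → L → ℕ} (h1 : near R a b) (h2 : near S b c) :
    near (R + S) a c := by
  intro i g
  have := h1 i g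
  have := h2 i g
  omega

theorem near_symm {R : ℕ} {a b : Fin n → L → ℕ} (h : near R a b) : near R b a :=
  fun i g => (h i g).symm

theorem near_mono {R S : ℕ} {a b : Fin n → L → ℕ} (h : near R a b) (hRS : R ≤ S) : near S a b := by
  intro i g
  have := h i g
  omega

theorem near_self (R : ℕ) (a : Fin n → L → ℕ) : near R a a := by
  intro i g; omega

theorem near_of_adj {a b : Fin n → L → ℕ} (h : adj a b) : near 1 a b := by
  intro i g
  have := h i g
  omega

theorem active_close {a b : VT n M L} {y : Fn n M L} (hy : y ∈ YS n M L) (ha : 0 < ph a y)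
    (hb : 0 < ph b y) : near 2 a.1 b.1 := by
  obtain ⟨t, ht, rfl⟩ := ph_supp ha
  obtain ⟨t', ht', rfl⟩ := ph_supp hb
  have h1 := hy.2.2 t t' ht ht' 0 1 (by decide)
  have h2 := hy.2.2 t' t' ht' ht' 0 1 (by decide)
  exact near_trans (near_of_adj h1) (near_symm (near_of_adj h2))

/-- every vertex of the support is close to every active vertex. -/
theorem supp_close {b : VT n M L} {y : Fn n M L} (hy : y ∈ YS n M L)
    (hb : 0 < ph b y) {t : Tup n M L} (ht : y t ≠ 0) (j : Fin 6) : near 2 b.1 (t j).1 := by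
  obtain ⟨t', ht', rfl⟩ := ph_supp hb
  by_cases hj : j = 0
  · subst hj
    have h1 := hy.2.2 t' t ht' ht 0 1 (by decide)
    have h2 := hy.2.2 t t ht ht 0 1 (by decide)
    exact near_trans (near_of_adj h1) (near_symm (near_of_adj h2))
  · exact near_mono (near_of_adj (hy.2.2 t' t ht' ht 0 j (Ne.symm hj))) (by norm_num)

abbrev Col (n : ℕ) (L : Type) := Fin n → L → Fin 3

def col (a : VT n M L) : Col n L := fun i g => ⟨a.1 i g % 3, Nat.mod_lt _ (by norm_num)⟩

theorem col_eq {a b : VT n M L} (h : near 2 a.1 b.1) (hc : col a = col b) : a = b := by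
  apply Subtype.ext
  funext i g
  have h1 := h i g
  have h2 := congrArg Fin.val (congrFun (congrFun hc i) g)
  simp only [col] at h2
  omega

noncomputable def CC0 (n M : ℕ) (L : Type) [Finite L] : ℝ := (Fintype.card (VT n M L) : ℝ)

noncomputable def tau (R : ℕ) (a : VT n M L) (y : Fn n M L) : ℝ :=
  ((2 * R : ℕ) : ℝ) * min 1 (CC0 n M L * ph a y)

theorem tau_cont (R : ℕ) (a : VT n M L) : Continuous (tau R a : Fn n M L → ℝ) := by
  have := ph_cont a
  unfold tau
  fun_prop

theorem tau_le (R : ℕ) (a : VT n M L) (y : Fn n M L) : tau R a y ≤ ((2 * R : ℕ) : ℝ) := by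
  unfold tau
  have h1 : min 1 (CC0 n M L * ph a y) ≤ 1 := min_le_left _ _
  have h2 : (0 : ℝ) ≤ ((2 * R : ℕ) : ℝ) := Nat.cast_nonneg _
  nlinarith

open Classical in
noncomputable def om (e : Col n L) (R q : ℕ) (y : Fn n M L) (a : VT n M L) : ℝ :=
  if col a = e then max 0 (min 1 (tau R a y - q)) else 0

theorem om_cont (e : Col n L) (R q : ℕ) (a : VT n M L) :
    Continuous (fun y : Fn n M L => om e R q y a) := by
  classical
  have := tau_cont R a
  unfold om
  split_ifs
  · fun_prop
  · exact continuous_const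

theorem om_nonneg (e : Col n L) (R q : ℕ) (y : Fn n M L) (a : VT n M L) : 0 ≤ om e R q y a := by
  unfold om
  split_ifs
  · exact le_max_left _ _
  · exact le_refl _

theorem om_le (e : Col n L) (R q : ℕ) (y : Fn n M L) (a : VT n M L) : om e R q y a ≤ 1 := by
  unfold om
  split_ifs
  · exact max_le zero_le_one (min_le_left _ _)
  · exact zero_le_one

theorem om_ne {e : Col n L} {R q : ℕ} {y : Fn n M L} {a : VT n M L} (hy : ∀ t, 0 ≤ y t)
    (h : om e R q y a ≠ 0) : col a = e ∧ (q : ℝ) < tau R a y ∧ 0 < ph a y := by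
  unfold om at h
  by_cases hc : col a = e
  · rw [if_pos hc] at h
    have h1 : (q : ℝ) < tau R a y := by
      by_contra hcon
      apply h
      apply max_eq_left
      exact (min_le_right _ _).trans (by linarith)
    refine ⟨hc, h1, ?_⟩
    by_contra hcon
    have h2 : ph a y = 0 := by
      apply le_antisymm (not_lt.mp hcon)
      classical
      unfold ph
      apply Finset.sum_nonneg
      intro t _
      split_ifs
      · exact hy t
      · exact le_refl _
    have h3 : tau R a y = 0 := by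
      unfold tau
      rw [h2, mul_zero, min_eq_right zero_le_one, mul_zero]
    rw [h3] at h1
    have : (0 : ℝ) ≤ (q : ℝ) := Nat.cast_nonneg _
    linarith
  · rw [if_neg hc] at h; exact absurd rfl h

noncomputable def op (ω : VT n M L → ℝ) (c : VT n M L → VT n M L → VT n M L) (v : Fn n M L) :
    Fn n M L := v + ∑ a, ω a • (push (c a) v - v)

theorem op_zero {ω : VT n M L → ℝ} {c : VT n M L → VT n M L → VT n M L} {v : Fn n M L}
    (h : ∀ a, ω a = 0) : op ω c v = v := by
  unfold op
  rw [Finset.sum_eq_zero, add_zero]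
  intro a _; rw [h a, zero_smul]

theorem op_single {ω : VT n M L → ℝ} {c : VT n M L → VT n M L → VT n M L} {v : Fn n M L}
    {a : VT n M L} (h : ∀ b, b ≠ a → ω b = 0) :
    op ω c v = (1 - ω a) • v + ω a • push (c a) v := by
  unfold op
  rw [Finset.sum_eq_single a]
  · module
  · intro b _ hb; rw [h b hb, zero_smul]
  · intro h; exact absurd (Finset.mem_univ _) h

noncomputable def stp (e : Col n L) (R q : ℕ) (y v : Fn n M L) : Fn n M L :=
  op (om e R q y) (fun a => cv R a (2 * R - (q + 1))) v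

theorem stp_cont {S : Type} [TopologicalSpace S] (e : Col n L) (R q : ℕ) {f g : S → Fn n M L}
    (hf : Continuous f) (hg : Continuous g) : Continuous (fun s => stp e R q (f s) (g s)) := by
  unfold stp op
  apply hg.add
  apply continuous_finsetSum
  intro a _
  exact ((om_cont e R q a).comp hf).smul (((push_cont _).comp hg).sub hg)

noncomputable def itr (e : Col n L) (R : ℕ) (y v : Fn n M L) : ℕ → Fn n M L
  | 0 => v
  | q + 1 => stp e R q y (itr e R y v q)

/-- Supports stay within `R` of all active vertices. -/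
def Inv (R : ℕ) (F : C(YS n M L, YS n M L)) : Prop :=
  ∀ y : YS n M L, ∀ b, 0 < ph b y.1 → ∀ t, (F y).1 t ≠ 0 → ∀ j, near R b.1 (t j).1

theorem colour_step {R : ℕ} (hM : 2 * R + 2 ≤ M) (e : Col n L) (F : C(YS n M L, YS n M L))
    (hF : Inv R F) : ∀ q, q ≤ 2 * R → ∃ F' : C(YS n M L, YS n M L), F.Homotopic F' ∧
      (∀ y, (F' y).1 = itr e R y.1 (F y).1 q) ∧
      (∀ y : YS n M L, ∀ a, 0 < ph a y.1 → col a = e → ∀ t, (F' y).1 t ≠ 0 → ∀ j,
        near R a.1 (t j).1) ∧
      (∀ y : YS n M L, ∀ a, 0 < ph a y.1 → col a = e → (q : ℝ) ≤ tau R a y.1 →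
        ∀ t, (F' y).1 t ≠ 0 → ∀ j, cr M R a.1 (2 * R - q) (t j).1 = (t j).1) ∧
      Inv (R + 2) F' := by
  intro q
  induction q with
  | zero =>
    intro _
    refine ⟨F, ContinuousMap.Homotopic.refl F, fun y => rfl, fun y a ha _ => hF y a ha, ?_, ?_⟩
    · intro y a ha _ _ t ht j
      exact cr_top (hF y a ha t ht j)
    · intro y b hb t ht j
      exact near_mono (hF y b hb t ht j) (by omega)
  | succ q ih =>
    intro hq
    obtain ⟨F1, hh, h1, J1, J2, K⟩ := ih (by omega)
    -- uniqueness of the active vertex of colour e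
    have huniq : ∀ y : YS n M L, ∀ a b, 0 < ph a y.1 → 0 < ph b y.1 → col a = e → col b = e →
        a = b := fun y a b ha hb hca hcb => col_eq (active_close y.2 ha hb) (hca.trans hcb.symm)
    have hdich : ∀ y : YS n M L, (∀ a, om e R q y.1 a = 0) ∨
        ∃ a, om e R q y.1 a ≠ 0 ∧ ∀ b, b ≠ a → om e R q y.1 b = 0 := by
      intro y
      by_cases h : ∃ a, om e R q y.1 a ≠ 0
      · right
        obtain ⟨a, ha⟩ := h
        refine ⟨a, ha, fun b hb => ?_⟩
        by_contra hcon
        obtain ⟨c1, _, c3⟩ := om_ne y.2.1 ha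
        obtain ⟨d1, _, d3⟩ := om_ne y.2.1 hcon
        exact hb (huniq y b a d3 c3 d1 c1)
      · left
        intro a
        by_contra hcon
        exact h ⟨a, hcon⟩
    -- the fold in the active case
    have hs1 : 2 * R - (q + 1) + 1 = 2 * R - q := by omega
    have hfold : ∀ (y : YS n M L) (a : VT n M L), om e R q y.1 a ≠ 0 →
        ∀ t t', (F1 y).1 t ≠ 0 → (F1 y).1 t' ≠ 0 → ∀ i j, i ≠ j →
        adj (t i).1 (cv R a (2 * R - (q + 1)) (t' j)).1 ∧
        adj (cv R a (2 * R - (q + 1)) (t i)).1 (cv R a (2 * R - (q + 1)) (t' j)).1 := by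
      intro y a ha t t' ht ht' i j hij
      obtain ⟨c1, c2, c3⟩ := om_ne y.2.1 ha
      have n1 := J1 y a c3 c1 t ht i
      have n2 := J1 y a c3 c1 t' ht' j
      have m1 := J2 y a c3 c1 c2.le t ht i
      have m2 := J2 y a c3 c1 c2.le t' ht' j
      rw [← hs1] at m1 m2
      rw [cv_val _ n1 hM, cv_val _ n2 hM]
      exact cr_fold n1 n2 m1 m2 (t i).2.1 (t' j).2.1 ((F1 y).2.2.2 t t' ht ht' i j hij)
    have hpush : ∀ (y : YS n M L) (a : VT n M L), om e R q y.1 a ≠ 0 →
        push (cv R a (2 * R - (q + 1))) (F1 y).1 ∈ YS n M L ∧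
        Compat (F1 y).1 (push (cv R a (2 * R - (q + 1))) (F1 y).1) := by
      intro y a ha
      constructor
      · refine ⟨push_nonneg (F1 y).2.1, by rw [push_sum]; exact (F1 y).2.2.1, ?_⟩
        intro t t' ht ht' i j hij
        obtain ⟨u, hu, rfl⟩ := push_supp ht
        obtain ⟨u', hu', rfl⟩ := push_supp ht'
        exact (hfold y a ha u u' hu hu' i j hij).2
      · intro t t' ht ht' i j hij
        obtain ⟨u', hu', rfl⟩ := push_supp ht'
        exact (hfold y a ha t u' ht hu' i j hij).1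
    have hmem : ∀ y : YS n M L, stp e R q y.1 (F1 y).1 ∈ YS n M L := by
      intro y
      unfold stp
      rcases hdich y with h | ⟨a, ha, hb⟩
      · rw [op_zero h]; exact (F1 y).2
      · rw [op_single hb]
        exact conv_mem (F1 y).2 (hpush y a ha).1 (hpush y a ha).2 (om_nonneg _ _ _ _ _)
          (om_le _ _ _ _ _)
    let F2 : C(YS n M L, YS n M L) :=
      { toFun := fun y => ⟨stp e R q y.1 (F1 y).1, hmem y⟩
        continuous_toFun := by
          apply Continuous.subtype_mk
          exact stp_cont e R q continuous_subtype_val (continuous_subtype_val.comp F1.continuous) }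
    have hF2 : ∀ y, (F2 y).1 = stp e R q y.1 (F1 y).1 := fun y => rfl
    -- description of supports
    have hsupp : ∀ (y : YS n M L) (t : Tup n M L), (F2 y).1 t ≠ 0 → (F1 y).1 t ≠ 0 ∨
        ∃ a, om e R q y.1 a ≠ 0 ∧ ∃ u, (F1 y).1 u ≠ 0 ∧
          (fun j => cv R a (2 * R - (q + 1)) (u j)) = t := by
      intro y t ht
      rw [hF2] at ht
      unfold stp at ht
      rcases hdich y with h | ⟨a, ha, hb⟩
      · rw [op_zero h] at ht; exact Or.inl ht
      · rw [op_single hb] at ht
        rcases conv_supp ht with h | ⟨_, h⟩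
        · exact Or.inl h
        · obtain ⟨u, hu, hut⟩ := push_supp h
          exact Or.inr ⟨a, ha, u, hu, hut⟩
    refine ⟨F2, hh.trans ?_, ?_, ?_, ?_, ?_⟩
    · apply homotopic_of_compat
      intro y t t' ht ht' i j hij
      rcases hsupp y t' ht' with h | ⟨a, ha, u, hu, rfl⟩
      · exact (F1 y).2.2.2 t t' ht h i j hij
      · exact (hfold y a ha t u ht hu i j hij).1
    · intro y
      rw [hF2, h1]; rfl
    · intro y a ha hca t ht j
      rcases hsupp y t ht with h | ⟨a', ha', u, hu, rfl⟩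
      · exact J1 y a ha hca t h j
      · obtain ⟨c1, c2, c3⟩ := om_ne y.2.1 ha'
        have := huniq y a a' ha c3 hca c1
        subst this
        have n1 := J1 y a c3 c1 u hu j
        show near R a.1 (cv R a (2 * R - (q + 1)) (u j)).1
        rw [cv_val _ n1 hM]
        exact cr_near _ n1 a.2.1
    · intro y a ha hca hτ t ht j
      have h1' : om e R q y.1 a = 1 := by
        unfold om
        rw [if_pos hca]
        push_cast at hτ
        rw [min_eq_left (by linarith), max_eq_right zero_le_one]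
      have hne : om e R q y.1 a ≠ 0 := by rw [h1']; exact one_ne_zero
      have hb : ∀ b, b ≠ a → om e R q y.1 b = 0 := by
        intro b hb
        by_contra hcon
        obtain ⟨d1, _, d3⟩ := om_ne y.2.1 hcon
        exact hb (huniq y b a d3 ha d1 hca)
      rw [hF2] at ht
      unfold stp at ht
      rw [op_single hb, h1', sub_self, zero_smul, zero_add, one_smul] at ht
      obtain ⟨u, hu, rfl⟩ := push_supp ht
      have n1 := J1 y a ha hca u hu j
      show cr M R a.1 (2 * R - (q + 1)) (cv R a (2 * R - (q + 1)) (u j)).1 =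
        (cv R a (2 * R - (q + 1)) (u j)).1
      rw [cv_val _ n1 hM, cr_idem]
    · intro y b hb t ht j
      rcases hsupp y t ht with h | ⟨a', ha', u, hu, rfl⟩
      · exact K y b hb t h j
      · obtain ⟨c1, c2, c3⟩ := om_ne y.2.1 ha'
        have n1 := J1 y a' c3 c1 u hu j
        show near (R + 2) b.1 (cv R a' (2 * R - (q + 1)) (u j)).1
        rw [cv_val _ n1 hM]
        have n2 := cr_near (M := M) (2 * R - (q + 1)) n1 a'.2.1
        have n3 := near_trans (active_close y.2 hb c3) n2
        exact near_mono n3 (by omega)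

theorem eq_of_supp {v w : Fn n M L} (hv : v ∈ YS n M L) (hw : w ∈ YS n M L) {t0 : Tup n M L}
    (h1 : ∀ t, v t ≠ 0 → t = t0) (h2 : ∀ t, w t ≠ 0 → t = t0) : v = w := by
  have key : ∀ v : Fn n M L, v ∈ YS n M L → (∀ t, v t ≠ 0 → t = t0) → v t0 = 1 := by
    intro v hv h
    have := hv.2.1
    rwa [Finset.sum_eq_single t0] at this
    · intro b _ hb
      by_contra hcon
      exact hb (h b hcon)
    · intro h; exact absurd (Finset.mem_univ _) h
  funext t
  by_cases ht : t = t0
  · rw [ht, key v hv h1, key w hw h2]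
  · have e1 : v t = 0 := by by_contra hc; exact ht (h1 t hc)
    have e2 : w t = 0 := by by_contra hc; exact ht (h2 t hc)
    rw [e1, e2]

theorem colour_pair {R : ℕ} (hM : 2 * R + 2 ≤ M) (e : Col n L) (F G : C(YS n M L, YS n M L))
    (hF : Inv R F) (hG : Inv R G) : ∃ F' G' : C(YS n M L, YS n M L),
      F.Homotopic F' ∧ G.Homotopic G' ∧ Inv (R + 2) F' ∧ Inv (R + 2) G' ∧
      (∀ y, F y = G y → F' y = G' y) ∧
      (∀ y : YS n M L, ∀ a, col a = e → 1 ≤ CC0 n M L * ph a y.1 → F' y = G' y) := by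
  obtain ⟨F', f1, f2, f3, f4, f5⟩ := colour_step hM e F hF (2 * R) le_rfl
  obtain ⟨G', g1, g2, g3, g4, g5⟩ := colour_step hM e G hG (2 * R) le_rfl
  refine ⟨F', G', f1, g1, f5, g5, ?_, ?_⟩
  · intro y h
    apply Subtype.ext
    rw [f2, g2, h]
  · intro y a hca hph
    have hpos : 0 < ph a y.1 := by
      by_contra hcon
      have h1 : (0 : ℝ) ≤ CC0 n M L := by unfold CC0; exact Nat.cast_nonneg _
      have h2 := mul_nonneg h1 (neg_nonneg.mpr (not_lt.mp hcon))
      nlinarith
    have hτ : ((2 * R : ℕ) : ℝ) ≤ tau R a y.1 := by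
      unfold tau
      rw [min_eq_left hph, mul_one]
    apply Subtype.ext
    have key : ∀ F' : C(YS n M L, YS n M L),
        (∀ t, (F' y).1 t ≠ 0 → ∀ j, near R a.1 (t j).1) →
        (∀ t, (F' y).1 t ≠ 0 → ∀ j, cr M R a.1 (2 * R - 2 * R) (t j).1 = (t j).1) →
        ∀ t, (F' y).1 t ≠ 0 → t = fun _ => cv R a 0 a := by
      intro F' k1 k2 t ht
      funext j
      apply Subtype.ext
      rw [cv_val _ (near_self R a.1) hM]
      have := k2 t ht j
      rw [Nat.sub_self] at this
      rw [← this]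
      exact cr_bot (k1 t ht j) (near_self R a.1) (t j).2.1 a.2.1
    exact eq_of_supp (F' y).2 (G' y).2 (key F' (f3 y a hpos hca) (f4 y a hpos hca hτ))
      (key G' (g3 y a hpos hca) (g4 y a hpos hca hτ))

theorem colour_list (l : List (Col n L)) : ∀ (R : ℕ), 2 * (R + 2 * l.length) + 2 ≤ M →
    ∀ F G : C(YS n M L, YS n M L), Inv R F → Inv R G → ∃ F' G' : C(YS n M L, YS n M L),
      F.Homotopic F' ∧ G.Homotopic G' ∧
      (∀ y : YS n M L, (F y = G y ∨ ∃ a, col a ∈ l ∧ 1 ≤ CC0 n M L * ph a y.1) → F' y = G' y) := by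
  induction l with
  | nil =>
    intro R _ F G _ _
    refine ⟨F, G, .refl F, .refl G, ?_⟩
    rintro y (h | ⟨a, ha, _⟩)
    · exact h
    · exact absurd ha (List.not_mem_nil)
  | cons e l ih =>
    intro R hM F G hF hG
    rw [List.length_cons] at hM
    obtain ⟨F1, G1, h1, h2, h3, h4, h5, h6⟩ := colour_pair (by omega) e F G hF hG
    obtain ⟨F2, G2, k1, k2, k3⟩ := ih (R + 2) (by omega) F1 G1 h3 h4
    refine ⟨F2, G2, h1.trans k1, h2.trans k2, ?_⟩
    rintro y (h | ⟨a, ha, hp⟩)
    · exact k3 y (Or.inl (h5 y h))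
    · rcases List.mem_cons.mp ha with h | h
      · exact k3 y (Or.inl (h6 y a h hp))
      · exact k3 y (Or.inr ⟨a, h, hp⟩)

theorem homotopic_of_inv [Fintype (Col n L)] {R : ℕ}
    (hM : 2 * (R + 2 * Fintype.card (Col n L)) + 2 ≤ M)
    (F G : C(YS n M L, YS n M L)) (hF : Inv R F) (hG : Inv R G) : F.Homotopic G := by
  obtain ⟨F', G', h1, h2, h3⟩ := colour_list (Finset.univ : Finset (Col n L)).toList R
    (by rw [Finset.length_toList]; exact hM) F G hF hG
  have : F' = G' := by
    ext1 y
    apply h3 y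
    right
    by_contra hcon
    simp only [not_exists, not_and, not_le, Finset.mem_toList, Finset.mem_univ, forall_const]
      at hcon
    have hs : ∑ a, ph a y.1 = 1 := by rw [ph_sum]; exact y.2.2.1
    have hne : (Finset.univ : Finset (VT n M L)).Nonempty := by
      by_contra hemp
      rw [Finset.not_nonempty_iff_eq_empty] at hemp
      rw [hemp] at hs
      simp at hs
    have hlt : ∑ a : VT n M L, CC0 n M L * ph a y.1 < ∑ _a : VT n M L, (1 : ℝ) :=
      Finset.sum_lt_sum_of_nonempty hne (fun a _ => hcon a)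
    rw [← Finset.mul_sum, hs, mul_one] at hlt
    simp [CC0] at hlt
  rw [this] at h1
  exact h1.trans h2.symm

end Pool.Agent.Helper9.AFL
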