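import Pool.Agent.Helper9.AFLPsi

set_option autoImplicit false
set_option maxHeartbeats 1000000

namespace Pool.Agent.Helper9.AFL

open Equiv

/-- Lower bound for a homogeneous map on a closed cone. -/
theorem cone_bound {p : ℕ} (C : Set (Fin p → ℝ)) (closed : IsClosed C)
    (cone : ∀ c : ℝ, 0 ≤ c → ∀ w ∈ C, c • w ∈ C) (F : (Fin p → ℝ) → ℝ → ℂ)
    (Fc : Continuous (fun q : (Fin p → ℝ) × ℝ => F q.1 q.2))
    (Fh : ∀ (c : ℝ) w σ, 0 ≤ c → F (c • w) (c * σ) = (c : ℂ) * F w σ)
    (Fn : ∀ w σ, w ∈ C → 0 ≤ σ → (w, σ) ≠ (0 : (Fin p → ℝ) × ℝ) → F w σ ≠ 0) :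
    ∃ c : ℝ, 0 < c ∧ ∀ w ∈ C, ∀ σ : ℝ, 0 ≤ σ → c * ‖(w, σ)‖ ≤ ‖F w σ‖ := by
  let B : Set ((Fin p → ℝ) × ℝ) := {q | q.1 ∈ C ∧ 0 ≤ q.2 ∧ ‖q‖ = 1}
  have hBc : IsCompact B := by
    apply Metric.isCompact_of_isClosed_isBounded
    · have e : B = (Prod.fst ⁻¹' C) ∩ ((Prod.snd ⁻¹' (Set.Ici 0)) ∩ Metric.sphere 0 1) := by
        ext q; simp [B]
      rw [e]
      exact (closed.preimage continuous_fst).inter
        ((isClosed_Ici.preimage continuous_snd).inter Metric.isClosed_sphere)
    · apply (Metric.isBounded_closedBall (x := (0 : (Fin p → ℝ) × ℝ)) (r := 1)).subset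
      intro q hq
      simp [hq.2.2]
  have hb : ∃ c : ℝ, 0 < c ∧ ∀ q ∈ B, c ≤ ‖F q.1 q.2‖ := by
    rcases B.eq_empty_or_nonempty with h | h
    · exact ⟨1, one_pos, fun q hq => by rw [h] at hq; exact hq.elim⟩
    · obtain ⟨q0, hq0, hmin⟩ := hBc.exists_isMinOn h (Fc.norm.continuousOn)
      refine ⟨‖F q0.1 q0.2‖, norm_pos_iff.mpr (Fn q0.1 q0.2 hq0.1 hq0.2.1 ?_), fun q hq => hmin hq⟩
      intro e
      have := hq0.2.2
      have e' : q0 = 0 := e
      rw [e', norm_zero] at this
      exact zero_ne_one this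
  obtain ⟨c, hc, hcB⟩ := hb
  refine ⟨c, hc, ?_⟩
  intro w hw σ hσ
  by_cases hq : (w, σ) = (0 : (Fin p → ℝ) × ℝ)
  · rw [hq, norm_zero, mul_zero]; exact norm_nonneg _
  · set r : ℝ := ‖((w, σ) : (Fin p → ℝ) × ℝ)‖ with hr
    have hrpos : 0 < r := norm_pos_iff.mpr hq
    have hqB : (r⁻¹ • w, r⁻¹ * σ) ∈ B := by
      refine ⟨cone _ (inv_nonneg.mpr hrpos.le) _ hw, mul_nonneg (inv_nonneg.mpr hrpos.le) hσ, ?_⟩
      have : ((r⁻¹ • w, r⁻¹ * σ) : (Fin p → ℝ) × ℝ) = r⁻¹ • (w, σ) := rfl
      rw [this, norm_smul, norm_inv, Real.norm_of_nonneg hrpos.le, ← hr, inv_mul_cancel₀ hrpos.ne']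
    have h1 := hcB _ hqB
    have h2 := Fh r (r⁻¹ • w) (r⁻¹ * σ) hrpos.le
    rw [smul_smul, mul_inv_cancel₀ hrpos.ne', one_smul, ← mul_assoc, mul_inv_cancel₀ hrpos.ne',
      one_mul] at h2
    rw [h2, norm_mul, Complex.norm_real, Real.norm_of_nonneg hrpos.le, mul_comm]
    exact mul_le_mul_of_nonneg_left h1 hrpos.le

/-- A direction transverse to finitely many nonzero complex numbers. -/
theorem exists_dir {J : Type} [Fintype J] (z : J → ℂ) (hz : ∀ j, z j ≠ 0) :
    ∃ u : ℂ, ∀ j, (z j).re * u.im - (z j).im * u.re ≠ 0 := by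
  classical
  obtain ⟨x, hx⟩ := (Finset.univ.image (fun j => (z j).im / (z j).re)).exists_notMem
  refine ⟨⟨1, x⟩, ?_⟩
  intro j h
  simp only [mul_one] at h
  by_cases hr : (z j).re = 0
  · rw [hr, zero_mul, zero_sub, neg_eq_zero] at h
    exact hz j (Complex.ext hr h)
  · apply hx
    rw [Finset.mem_image]
    refine ⟨j, Finset.mem_univ _, ?_⟩
    field_simp
    linarith

section Frob

variable (q d : ℕ) (B : Fin q → Finset (Fin 6)) (mg e : Fin q → Fin q → ℕ)

noncomputable def zt (d : ℕ) : ℂ := Complex.exp (2 * Real.pi * Complex.I / d)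

noncomputable def al (t t' : Fin q) : ℂ := if t = t' then 0 else (mg t t' : ℂ) * zt d ^ e t t'

def starC : Set (Fin q → ℝ) := {s | (∀ t, 0 ≤ s t) ∧ ∀ t t', t ≠ t' → s t = 0 ∨ s t' = 0}

/-- Symmetries of the labelled configuration. -/
def MF : Subgroup (Perm (Fin 6) × AA q) where
  carrier := {x | (∀ t, B (x.2.1 t) = (B t).image x.1) ∧
    (∀ t t', al q d mg e (x.2.1 t) (x.2.1 t') = (x.2.2 : ℂ) * al q d mg e t t') ∧
    (x.2.2 : ℂ) ^ (q - 1) = 1}
  mul_mem' := by
    rintro x y ⟨h1, h2, h3⟩ ⟨k1, k2, k3⟩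
    refine ⟨fun t => ?_, fun t t' => ?_, ?_⟩
    · show B (x.2.1 (y.2.1 t)) = (B t).image (x.1 * y.1)
      rw [h1, k1, Finset.image_image]; rfl
    · show al q d mg e (x.2.1 (y.2.1 t)) (x.2.1 (y.2.1 t')) = ((x.2.2 * y.2.2 : ℂˣ) : ℂ) * _
      rw [h2, k2, Units.val_mul, mul_assoc]
    · show ((x.2.2 * y.2.2 : ℂˣ) : ℂ) ^ (q - 1) = 1
      rw [Units.val_mul, mul_pow, h3, k3, one_mul]
  one_mem' := by
    refine ⟨fun t => ?_, fun t t' => ?_, ?_⟩
    · show B t = (B t).image (1 : Perm (Fin 6))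
      rw [Perm.coe_one, Finset.image_id]
    · show al q d mg e t t' = ((1 : ℂˣ) : ℂ) * _
      rw [Units.val_one, one_mul]
    · show ((1 : ℂˣ) : ℂ) ^ (q - 1) = 1
      rw [Units.val_one, one_pow]
  inv_mem' := by
    rintro x ⟨h1, h2, h3⟩
    refine ⟨fun t => ?_, fun t t' => ?_, ?_⟩
    · show B (x.2.1⁻¹ t) = (B t).image (x.1⁻¹ : Perm (Fin 6))
      have := h1 (x.2.1⁻¹ t)
      have e1 : x.2.1 (x.2.1⁻¹ t) = t := x.2.1.apply_symm_apply t
      rw [e1] at this
      rw [this, Finset.image_image]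
      have e2 : (⇑(x.1⁻¹ : Perm (Fin 6)) ∘ ⇑x.1) = id := by
        funext i; exact x.1.symm_apply_apply i
      rw [e2, Finset.image_id]
    · show al q d mg e (x.2.1⁻¹ t) (x.2.1⁻¹ t') = ((x.2.2⁻¹ : ℂˣ) : ℂ) * _
      have := h2 (x.2.1⁻¹ t) (x.2.1⁻¹ t')
      have e1 : x.2.1 (x.2.1⁻¹ t) = t := x.2.1.apply_symm_apply t
      have e2 : x.2.1 (x.2.1⁻¹ t') = t' := x.2.1.apply_symm_apply t'
      rw [e1, e2] at this
      rw [this, ← mul_assoc, Units.inv_mul, one_mul]
    · show ((x.2.2⁻¹ : ℂˣ) : ℂ) ^ (q - 1) = 1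
      rw [Units.val_inv_eq_inv_val, inv_pow, h3, inv_one]

noncomputable def rhoF (u : ℂ) (i : Fin q) (s : Fin q → ℝ) (σ : ℝ) : ℂ :=
  ∑ t, (s t : ℂ) * al q d mg e t i + (σ : ℂ) * ((i : ℕ) : ℂ) * u

noncomputable def lamF (i : Fin q) (s : Fin q → ℝ) (σ : ℝ) : Fin q → ℝ :=
  Pi.single i (∑ t, s t + σ)

variable {q d B mg e}

theorem starC_leg {s : Fin q → ℝ} (h : s ∈ starC q) (i0 : Fin q) : ∃ t0, ∀ t, t ≠ t0 → s t = 0 := by
  by_cases hy : ∃ g, s g ≠ 0
  · obtain ⟨g0, hg0⟩ := hy
    exact ⟨g0, fun g hg => (h.2 g g0 hg).resolve_right hg0⟩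
  · exact ⟨i0, fun g _ => by by_contra hc; exact hy ⟨g, hc⟩⟩

theorem rhoF_ne {u : ℂ} (hu : ∀ j : Fin q × Fin q × Fin q, j.2.1 ≠ j.2.2 →
      (al q d mg e j.1 j.2.1 - al q d mg e j.1 j.2.2).re * u.im -
      (al q d mg e j.1 j.2.1 - al q d mg e j.1 j.2.2).im * u.re ≠ 0)
    {i j : Fin q} (hij : i ≠ j) {s : Fin q → ℝ} {σ : ℝ} (hs : s ∈ starC q)
    (h : rhoF q d mg e u i s σ = rhoF q d mg e u j s σ) : s = 0 ∧ σ = 0 := by
  obtain ⟨t0, ht0⟩ := starC_leg hs i
  have h1 : ∀ i, rhoF q d mg e u i s σ =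
      (s t0 : ℂ) * al q d mg e t0 i + (σ : ℂ) * ((i : ℕ) : ℂ) * u := by
    intro i
    unfold rhoF
    rw [Finset.sum_eq_single t0]
    · intro t _ ht; rw [ht0 t ht]; simp
    · intro h; exact absurd (Finset.mem_univ _) h
  rw [h1, h1] at h
  have hu' := hu (t0, i, j) hij
  simp only at hu'
  set a := al q d mg e t0 i - al q d mg e t0 j with ha
  have h2 : (s t0 : ℂ) * a + ((σ * ((i : ℕ) - (j : ℕ) : ℝ) : ℝ) : ℂ) * u = 0 := by
    rw [ha]; push_cast; linear_combination h
  have hre := congrArg Complex.re h2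
  have him := congrArg Complex.im h2
  simp only [Complex.add_re, Complex.mul_re, Complex.ofReal_re, Complex.ofReal_im, zero_mul,
    sub_zero, Complex.zero_re, Complex.add_im, Complex.mul_im, add_zero, Complex.zero_im] at hre him
  have hs0 : s t0 = 0 := by
    have : s t0 * (a.re * u.im - a.im * u.re) = 0 := by linear_combination u.im * hre - u.re * him
    exact (mul_eq_zero.mp this).resolve_right hu'
  have hσ0 : σ * ((i : ℕ) - (j : ℕ) : ℝ) = 0 := by
    have : (σ * ((i : ℕ) - (j : ℕ) : ℝ)) * (a.re * u.im - a.im * u.re) = 0 := by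
      linear_combination a.re * him - a.im * hre
    exact (mul_eq_zero.mp this).resolve_right hu'
  refine ⟨?_, ?_⟩
  · funext t
    by_cases ht : t = t0
    · rw [ht, hs0]; rfl
    · exact ht0 t ht
  · apply (mul_eq_zero.mp hσ0).resolve_right
    intro hc
    apply hij
    have : ((i : ℕ) : ℝ) = ((j : ℕ) : ℝ) := by linarith
    exact Fin.ext (by exact_mod_cast this)

theorem frob_good (hq : 2 ≤ q) (hd : 0 < d) (hB : Function.Injective B)
    (hmg : ∀ t t', 1 ≤ mg t t') (hqd : (q - 1) % d = 0)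
    (hal : ∀ t i j, i ≠ j → al q d mg e t i ≠ al q d mg e t j)
    {k1 k2 : Perm (Fin 6)} (π1 π2 : Perm (Fin q)) (cc1 cc2 : ℕ)
    (hB1 : ∀ t, B (π1 t) = (B t).image k1) (hB2 : ∀ t, B (π2 t) = (B t).image k2)
    (hm1 : ∀ t t', mg (π1 t) (π1 t') = mg t t') (hm2 : ∀ t t', mg (π2 t) (π2 t') = mg t t')
    (he1 : ∀ t t', t ≠ t' → e (π1 t) (π1 t') % d = (e t t' + cc1) % d)
    (he2 : ∀ t t', t ≠ t' → e (π2 t) (π2 t') % d = (e t t' + cc2) % d)
    (hfix : (∀ t, π1 t ≠ t) ∨ (∀ t, π2 t ≠ t)) (hc : cc1 % d ≠ 0 ∨ cc2 % d ≠ 0) :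
    Good k1 k2 := by
  classical
  have hzt : IsPrimitiveRoot (zt d) d := by
    unfold zt
    exact Complex.isPrimitiveRoot_exp d hd.ne'
  have hztd : zt d ^ d = 1 := hzt.pow_eq_one
  have hzt0 : zt d ≠ 0 := hzt.ne_zero hd.ne'
  -- direction
  obtain ⟨u, hu0⟩ := exists_dir
    (fun j : {j : Fin q × Fin q × Fin q // j.2.1 ≠ j.2.2} =>
      al q d mg e j.1.1 j.1.2.1 - al q d mg e j.1.1 j.1.2.2)
    (fun j => sub_ne_zero.mpr (hal _ _ _ j.2))
  have hu : ∀ j : Fin q × Fin q × Fin q, j.2.1 ≠ j.2.2 →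
      (al q d mg e j.1 j.2.1 - al q d mg e j.1 j.2.2).re * u.im -
      (al q d mg e j.1 j.2.1 - al q d mg e j.1 j.2.2).im * u.re ≠ 0 := fun j hj => hu0 ⟨j, hj⟩
  have hclosed : IsClosed (starC q) := by
    have : starC q = (⋂ t, {s : Fin q → ℝ | 0 ≤ s t}) ∩
        (⋂ t, ⋂ t', {s : Fin q → ℝ | t ≠ t' → s t = 0 ∨ s t' = 0}) := by
      ext s; simp [starC]
    rw [this]
    apply IsClosed.inter
    · exact isClosed_iInter fun t => isClosed_le continuous_const (continuous_apply t)
    · apply isClosed_iInter; intro t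
      apply isClosed_iInter; intro t'
      by_cases h : t = t'
      · simp [h]
      · have : {s : Fin q → ℝ | t ≠ t' → s t = 0 ∨ s t' = 0} =
            {s | s t = 0} ∪ {s | s t' = 0} := by ext s; simp [h]
        rw [this]
        exact (isClosed_eq (continuous_apply t) continuous_const).union
          (isClosed_eq (continuous_apply t') continuous_const)
  have hcone : ∀ c : ℝ, 0 ≤ c → ∀ w ∈ starC q, c • w ∈ starC q := by
    rintro c hc w ⟨h1, h2⟩
    refine ⟨fun t => mul_nonneg hc (h1 t), fun t t' ht => ?_⟩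
    rcases h2 t t' ht with h | h
    · left; simp [h]
    · right; simp [h]
  have hrc : ∀ i, Continuous (fun p : (Fin q → ℝ) × ℝ => rhoF q d mg e u i p.1 p.2) := by
    intro i
    unfold rhoF
    fun_prop
  have hrh : ∀ i (c : ℝ) w σ, 0 ≤ c →
      rhoF q d mg e u i (c • w) (c * σ) = (c : ℂ) * rhoF q d mg e u i w σ := by
    intro i c w σ _
    unfold rhoF
    rw [mul_add, Finset.mul_sum]
    congr 1
    · apply Finset.sum_congr rfl
      intro t _
      simp only [Pi.smul_apply, smul_eq_mul, Complex.ofReal_mul]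
      ring
    · push_cast; ring
  -- separation of roots
  have hsep : ∃ c : ℝ, 0 < c ∧ ∀ i j, i ≠ j → ∀ w ∈ starC q, ∀ σ : ℝ, 0 ≤ σ →
      2 * c * ‖((w, σ) : (Fin q → ℝ) × ℝ)‖ ≤ ‖rhoF q d mg e u i w σ - rhoF q d mg e u j w σ‖ := by
    have h1 : ∀ x : Fin q × Fin q, ∃ c : ℝ, 0 < c ∧ (x.1 ≠ x.2 → ∀ w ∈ starC q, ∀ σ : ℝ, 0 ≤ σ →
        c * ‖((w, σ) : (Fin q → ℝ) × ℝ)‖ ≤
          ‖rhoF q d mg e u x.1 w σ - rhoF q d mg e u x.2 w σ‖) := by
      intro x
      by_cases hx : x.1 = x.2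
      · exact ⟨1, one_pos, fun h => absurd hx h⟩
      · obtain ⟨c, hc, h⟩ := cone_bound (starC q) hclosed hcone
          (fun w σ => rhoF q d mg e u x.1 w σ - rhoF q d mg e u x.2 w σ)
          ((hrc _).sub (hrc _))
          (by intro c w σ hc; rw [hrh _ c w σ hc, hrh _ c w σ hc]; ring)
          (by
            intro w σ hw hσ hne h0
            apply hne
            obtain ⟨h1, h2⟩ := rhoF_ne hu hx hw (sub_eq_zero.mp h0)
            rw [h1, h2]; rfl)
        exact ⟨c, hc, fun _ => h⟩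
    choose cf hcf1 hcf2 using h1
    have hne : (Finset.univ : Finset (Fin q × Fin q)).Nonempty :=
      ⟨(⟨0, by omega⟩, ⟨0, by omega⟩), Finset.mem_univ _⟩
    refine ⟨Finset.univ.inf' hne cf / 2, ?_, ?_⟩
    · apply half_pos
      rw [Finset.lt_inf'_iff]
      exact fun i _ => hcf1 i
    · intro i j hij w hw σ hσ
      refine le_trans ?_ (hcf2 (i, j) hij w hw σ hσ)
      apply mul_le_mul_of_nonneg_right _ (norm_nonneg _)
      have := Finset.inf'_le cf (Finset.mem_univ (i, j))
      linarith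
  obtain ⟨δ0, hδ0, hsep⟩ := hsep
  have htot : ∀ (π : Perm (Fin q)) (w : Fin q → ℝ), ∑ t, pw π w t = ∑ t, w t := by
    intro π w
    rw [← Equiv.sum_comp π]
    apply Finset.sum_congr rfl
    intro t _
    simp [pw]
  let D : RD q (Fin q) :=
    { C := starC q
      closed := hclosed
      cone := hcone
      zero := ⟨fun _ => le_refl _, fun _ _ _ => Or.inl rfl⟩
      rho := rhoF q d mg e u
      lam := lamF q
      rc := hrc
      lc := by
        intro i
        unfold lamF
        apply continuous_pi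
        intro t
        by_cases h : t = i
        · subst h; simp only [Pi.single_eq_same]; fun_prop
        · simp only [Pi.single_eq_of_ne h]; exact continuous_const
      rh := hrh
      lh := by
        intro i c w σ _
        unfold lamF
        rw [← Pi.single_smul']
        congr 1
        simp only [Pi.smul_apply, smul_eq_mul, mul_add, Finset.mul_sum]
      nd1 := by
        intro i w σ hw hσ hne h0
        apply hne
        have h1 : ∑ t, w t + σ = 0 := by
          have := congrFun h0 i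
          simpa [lamF] using this
        have h2 : 0 ≤ ∑ t, w t := Finset.sum_nonneg fun t _ => hw.1 t
        have h3 : ∑ t, w t = 0 := by linarith
        have h4 : σ = 0 := by linarith
        rw [Finset.sum_eq_zero_iff_of_nonneg (fun t _ => hw.1 t)] at h3
        have h5 : w = 0 := by funext t; exact h3 t (Finset.mem_univ t)
        rw [h5, h4]; rfl
      nd2 := by
        intro i j w σ hw hσ h
        by_cases hij : i = j
        · rw [hij]
        · obtain ⟨h1, h2⟩ := rhoF_ne hu hij hw h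
          rw [h1, h2]
          unfold lamF
          simp
      δ0 := δ0
      δ0pos := hδ0
      coneδ := by
        intro δ hδ hδle w hw σ hσ z
        have hv : ∀ t, (∑ i, (max 0 (δ * ‖((w, σ) : (Fin q → ℝ) × ℝ)‖ -
            ‖z - rhoF q d mg e u i w σ‖)) • lamF q i w σ) t =
            (max 0 (δ * ‖((w, σ) : (Fin q → ℝ) × ℝ)‖ - ‖z - rhoF q d mg e u t w σ‖)) *
              (∑ t, w t + σ) := by
          intro t
          rw [Finset.sum_apply, Finset.sum_eq_single t]
          · simp [lamF]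
          · intro j _ hj
            simp [lamF, Pi.single_eq_of_ne hj.symm]
          · intro h; exact absurd (Finset.mem_univ _) h
        have h2 : 0 ≤ ∑ t, w t := Finset.sum_nonneg fun t _ => hw.1 t
        refine ⟨fun t => ?_, fun t t' htt => ?_⟩
        · rw [hv]; exact mul_nonneg (le_max_left _ _) (by linarith)
        · rw [hv, hv]
          by_contra hcon
          rw [not_or] at hcon
          have h3 : 0 < δ * ‖((w, σ) : (Fin q → ℝ) × ℝ)‖ - ‖z - rhoF q d mg e u t w σ‖ := by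
            by_contra hh
            exact hcon.1 (by rw [max_eq_left (not_lt.mp hh), zero_mul])
          have h4 : 0 < δ * ‖((w, σ) : (Fin q → ℝ) × ℝ)‖ - ‖z - rhoF q d mg e u t' w σ‖ := by
            by_contra hh
            exact hcon.2 (by rw [max_eq_left (not_lt.mp hh), zero_mul])
          have h5 := hsep t t' htt w hw σ hσ
          have h6 : ‖rhoF q d mg e u t w σ - rhoF q d mg e u t' w σ‖ ≤
              ‖z - rhoF q d mg e u t w σ‖ + ‖z - rhoF q d mg e u t' w σ‖ := by
            have : rhoF q d mg e u t w σ - rhoF q d mg e u t' w σ =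
                (z - rhoF q d mg e u t' w σ) - (z - rhoF q d mg e u t w σ) := by ring
            rw [this]
            exact (norm_sub_le _ _).trans (by linarith)
          have h7 : δ * ‖((w, σ) : (Fin q → ℝ) × ℝ)‖ ≤ δ0 * ‖((w, σ) : (Fin q → ℝ) × ℝ)‖ :=
            mul_le_mul_of_nonneg_right hδle (norm_nonneg _)
          linarith
      M := MF q d B mg e
      inj := by
        rintro ⟨π, χ⟩ ⟨h1, h2, h3⟩
        have hπ : π = 1 := by
          ext t
          have := h1 t
          simp only [Perm.coe_one, Finset.image_id] at this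
          rw [hB this]; rfl
        subst hπ
        have hχ : χ = 1 := by
          have h4 := h2 ⟨0, by omega⟩ ⟨1, by omega⟩
          simp only [Perm.coe_one, id_eq] at h4
          have h5 : al q d mg e ⟨0, by omega⟩ ⟨1, by omega⟩ ≠ 0 := by
            have := hal ⟨0, by omega⟩ ⟨1, by omega⟩ ⟨0, by omega⟩ (by simp)
            have e0 : al q d mg e ⟨0, by omega⟩ ⟨0, by omega⟩ = 0 := by simp [al]
            rwa [e0] at this
          ext
          rw [Units.val_one]
          have h6 : (χ : ℂ) * al q d mg e ⟨0, by omega⟩ ⟨1, by omega⟩ =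
            1 * al q d mg e ⟨0, by omega⟩ ⟨1, by omega⟩ := by rw [one_mul]; exact h4.symm
          exact mul_right_cancel₀ h5 h6
        rw [hχ]; rfl
      c1 := by
        rintro k ⟨π, χ⟩ _ w ⟨h1, h2⟩
        refine ⟨fun t => h1 _, fun t t' ht => h2 _ _ ?_⟩
        intro hh
        exact ht (π⁻¹.injective hh)
      c2 := by
        rintro k ⟨π, χ⟩ ⟨h1, h2, h3⟩ w hw
        refine ⟨π, fun i => ⟨?_, ?_⟩⟩
        · show rhoF q d mg e u (π i) (pw π w) 0 = (χ : ℂ) * rhoF q d mg e u i w 0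
          unfold rhoF
          rw [← Equiv.sum_comp π]
          simp only [Complex.ofReal_zero, zero_mul, add_zero]
          rw [Finset.mul_sum]
          apply Finset.sum_congr rfl
          intro t _
          have e1 : pw π w (π t) = w t := by simp [pw]
          rw [e1]
          have e2 := h2 t i
          simp only at e2
          rw [e2]; ring
        · show lamF q (π i) (pw π w) 0 = pw π (lamF q i w 0)
          unfold lamF
          rw [htot]
          funext t
          unfold pw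
          by_cases ht : t = π i
          · subst ht; simp
          · rw [Pi.single_eq_of_ne ht, Pi.single_eq_of_ne]
            intro hh
            apply ht
            rw [← hh]
            exact (π.apply_symm_apply t).symm
      c3 := by
        rintro k ⟨π, χ⟩ ⟨h1, h2, h3⟩
        simp only [Fintype.card_fin]
        have : q = (q - 1) + 1 := by omega
        conv_lhs => rw [this]
        rw [pow_succ, h3, one_mul]
      c4 := by
        rintro k ⟨π, χ⟩ ⟨h1, h2, h3⟩
        exact Complex.norm_eq_one_of_pow_eq_one h3 (by omega) }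
  -- the two elements
  have hmem : ∀ (k : Perm (Fin 6)) (π : Perm (Fin q)) (cc : ℕ), (∀ t, B (π t) = (B t).image k) →
      (∀ t t', mg (π t) (π t') = mg t t') →
      (∀ t t', t ≠ t' → e (π t) (π t') % d = (e t t' + cc) % d) →
      (k, ((π, Units.mk0 (zt d ^ cc) (pow_ne_zero _ hzt0)) : AA q)) ∈ D.M := by
    intro k π cc h1 h2 h3
    refine ⟨h1, fun t t' => ?_, ?_⟩
    · show al q d mg e (π t) (π t') = zt d ^ cc * al q d mg e t t'
      unfold al
      by_cases ht : t = t'
      · simp [ht]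
      · rw [if_neg ht, if_neg (fun hh => ht (π.injective hh)), h2]
        have e1 : zt d ^ e (π t) (π t') = zt d ^ (e t t' + cc) := by
          rw [← pow_mod_orderOf, ← pow_mod_orderOf _ (e t t' + cc), ← hzt.eq_orderOf, h3 t t' ht]
        rw [e1, pow_add]; ring
    · show (zt d ^ cc) ^ (q - 1) = 1
      rw [← pow_mul, mul_comm, pow_mul]
      obtain ⟨m, hm⟩ := Nat.dvd_of_mod_eq_zero hqd
      rw [hm, pow_mul, hztd, one_pow, one_pow]
  have hm1' := hmem k1 π1 cc1 hB1 hm1 he1
  have hm2' := hmem k2 π2 cc2 hB2 hm2 he2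
  refine D.good hm1' hm2' ?_
  intro x hx h1 h2
  have hx' : x.2 ∈ starC q := hx
  have hs : x.2 = 0 := by
    have key : ∀ π : Perm (Fin q), (∀ t, π t ≠ t) → pw π x.2 = x.2 → x.2 = 0 := by
      intro π hπ hh
      funext t
      by_contra hne
      have h3 : x.2 (π t) = x.2 t := by
        have := congrFun hh (π t)
        simp only [pw] at this
        rw [← this]; simp
      rcases hx'.2 (π t) t (hπ t) with h | h
      · rw [h] at h3; exact hne h3.symm
      · exact hne h
    rcases hfix with h | h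
    · exact key π1 h (congrArg Prod.snd h1)
    · exact key π2 h (congrArg Prod.snd h2)
  have hz : x.1 = 0 := by
    have key : ∀ cc : ℕ, cc % d ≠ 0 → zt d ^ cc * x.1 = x.1 → x.1 = 0 := by
      intro cc hcc hh
      by_contra hne
      apply hcc
      have h3 : zt d ^ cc = 1 := by
        apply mul_right_cancel₀ hne
        rw [hh, one_mul]
      exact Nat.mod_eq_zero_of_dvd ((hzt.pow_eq_one_iff_dvd cc).mp h3)
    rcases hc with h | h
    · exact key cc1 h (congrArg Prod.fst h1)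
    · exact key cc2 h (congrArg Prod.fst h2)
  exact Prod.ext hz hs

end Frob

end Pool.Agent.Helper9.AFL
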