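import Mathlib

set_option autoImplicit false

namespace Pool.Agent.Helper9.AFL

open Equiv

/-- The symmetric group on six letters. -/
abbrev GG := Equiv.Perm (Fin 6)

/-- Build a permutation from two mutually inverse tables. -/
def c6 : GG := finRotate 6

def x0 : GG := (swap 0 1 * swap 1 2) * (swap 3 4 * swap 4 5)

def c3 (a b c : Fin 6) : GG := swap a b * swap b c

/-- order four element -/
def b0 : GG := swap 0 3 * swap 3 1 * swap 1 4 * (swap 2 5)

/-- (0 3 4 1 2 5) -/
def v0 : GG := swap 1 3 * swap 2 4

/-- (3 5 4 0 2 1) -/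
def y0 : GG := swap 0 3 * (swap 1 5 * swap 2 4)

def kk1 : Fin 4 → GG := ![c6, x0, v0, x0]
def kk2 : Fin 4 → GG := ![c6, y0, x0, b0]

def wd (x g : GG) (l : List Bool) : GG := (l.map (fun b => if b then g else x)).prod

theorem wd_mem (S : Subgroup GG) {x g : GG} (hx : x ∈ S) (hg : g ∈ S) (l : List Bool) :
    wd x g l ∈ S := by
  unfold wd
  apply Subgroup.list_prod_mem
  intro y hy
  rw [List.mem_map] at hy
  obtain ⟨b, _, rfl⟩ := hy
  cases b <;> simp [hx, hg]

def t1 : List Bool → List Bool := id

/-- the seven words -/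
def wl : List (List Bool) :=
  [[false,false,true,false,true,true,false,true,true],
   [false,true,true,false,true,true,true],
   [false,false,true,false,true,true,true],
   [true,false,true,false,true,true],
   [true,false,true,true],
   [false,false,true,false,false,true,true],
   [true,false,false,true,false,true]]

def sixc (u : GG) : Prop :=
  u 0 ≠ 0 ∧ u (u 0) ≠ 0 ∧ u (u (u 0)) ≠ 0 ∧ u (u (u (u (u (u 0))))) = 0

instance (u : GG) : Decidable (sixc u) := by unfold sixc; infer_instance

/-- generators of the centralizer of x0 as an explicit list -/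
def a0 : GG := swap 0 1 * swap 1 2
def a1 : GG := swap 3 4 * swap 4 5
def s0 : GG := swap 0 3 * (swap 1 4 * swap 2 5)

def cl : List GG :=
  (List.range 3).flatMap fun i => (List.range 3).flatMap fun j => (List.range 2).map fun k =>
    a0 ^ i * a1 ^ j * s0 ^ k

def tgt (u : GG) : Prop :=
  sixc u ∨ ∃ h ∈ cl, h * u * h⁻¹ = b0 ∨ h * u * h⁻¹ = v0 ∨ h * u * h⁻¹ = y0

instance (u : GG) : Decidable (tgt u) := by unfold tgt; infer_instance

theorem cl_comm : ∀ h ∈ cl, h * x0 * h⁻¹ = x0 := by decide +kernel

theorem cover : ∀ g : GG, g 0 = 3 → ∃ l ∈ wl, tgt (wd x0 g l) := by decide +kernel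

end Pool.Agent.Helper9.AFL
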