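import Mathlib

set_option autoImplicit false
set_option maxHeartbeats 1000000

namespace Pool.Agent.Helper9.AFL

open Equiv

variable {n M : ℕ} {L : Type}

/-- Lattice vertices. -/
def isV (n M : ℕ) (L : Type) (z : Fin n → L → ℕ) : Prop :=
  (∀ i g, z i g ≤ 2 * M) ∧ (∀ i g h, g ≠ h → z i g = 0 ∨ z i h = 0) ∧ ∃ i g, M ≤ z i g

abbrev VT (n M : ℕ) (L : Type) := {z : Fin n → L → ℕ // isV n M L z}

instance VT.fin [Finite L] : Finite (VT n M L) := by
  let f : VT n M L → (Fin n → L → Fin (2 * M + 1)) :=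
    fun z i g => ⟨z.1 i g, Nat.lt_succ_of_le (z.2.1 i g)⟩
  apply Finite.of_injective f
  intro z w h
  apply Subtype.ext
  funext i g
  have := congrFun (congrFun h i) g
  exact congrArg Fin.val this

noncomputable instance VT.fintype [Finite L] : Fintype (VT n M L) := Fintype.ofFinite _

def adj (z w : Fin n → L → ℕ) : Prop := ∀ i g, z i g ≤ w i g + 1 ∧ w i g ≤ z i g + 1

theorem adj_symm {z w : Fin n → L → ℕ} (h : adj z w) : adj w z := fun i g => (h i g).symm

def near (R : ℕ) (a z : Fin n → L → ℕ) : Prop := ∀ i g, z i g ≤ a i g + R ∧ a i g ≤ z i g + R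

def clE (M R a s z : ℕ) : ℕ := if M ≤ 2 * a then max z (min (2 * M) (a + R) - s) else min z ((a - R) + s)

def cr (M R : ℕ) (a : Fin n → L → ℕ) (s : ℕ) (z : Fin n → L → ℕ) : Fin n → L → ℕ :=
  fun i g => clE M R (a i g) s (z i g)

theorem cr_near {R : ℕ} {a z : Fin n → L → ℕ} (s : ℕ) (h : near R a z) (ha : ∀ i g, a i g ≤ 2 * M)  :
    near R a (cr M R a s z) := by
  intro i g
  obtain ⟨h1, h2⟩ := h i g
  have h3 := ha i g
  unfold cr clE
  split_ifs <;> omega

theorem cr_idem {R : ℕ} (a z : Fin n → L → ℕ) (s : ℕ) :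
    cr M R a s (cr M R a s z) = cr M R a s z := by
  funext i g
  unfold cr clE
  split_ifs <;> omega

theorem cr_top {R : ℕ} {a z : Fin n → L → ℕ} (h : near R a z) : cr M R a (2 * R) z = z := by
  funext i g
  obtain ⟨h1, h2⟩ := h i g
  unfold cr clE
  split_ifs <;> omega

theorem cr_bot {R : ℕ} {a z w : Fin n → L → ℕ} (h : near R a z) (h' : near R a w)
    (hz : ∀ i g, z i g ≤ 2 * M) (hw : ∀ i g, w i g ≤ 2 * M) : cr M R a 0 z = cr M R a 0 w := by
  funext i g
  obtain ⟨h1, h2⟩ := h i g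
  obtain ⟨h3, h4⟩ := h' i g
  have h5 := hz i g
  have h6 := hw i g
  unfold cr clE
  split_ifs <;> omega

theorem cr_isV {R : ℕ} {a z : Fin n → L → ℕ} (s : ℕ) (h : near R a z) (ha : isV n M L a)
    (hz : isV n M L z) (hM : 2 * R + 2 ≤ M) : isV n M L (cr M R a s z) := by
  refine ⟨?_, ?_, ?_⟩
  · intro i g
    have h1 := hz.1 i g
    unfold cr clE
    split_ifs <;> omega
  · intro i g g' hg
    have h1 := h i g
    have h2 := h i g'
    have h3 := hz.2.1 i g g' hg
    unfold cr clE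
    split_ifs <;> omega
  · obtain ⟨i, g, hig⟩ := hz.2.2
    refine ⟨i, g, ?_⟩
    have h1 := h i g
    unfold cr clE
    split_ifs <;> omega

theorem cr_fold {R : ℕ} {a z w : Fin n → L → ℕ} {s : ℕ} (hz : near R a z) (hw : near R a w)
    (hz1 : cr M R a (s + 1) z = z) (hw1 : cr M R a (s + 1) w = w)
    (hz2 : ∀ i g, z i g ≤ 2 * M) (hw2 : ∀ i g, w i g ≤ 2 * M) (h : adj z w) :
    adj z (cr M R a s w) ∧ adj (cr M R a s z) (cr M R a s w) := by
  constructor
  · intro i g
    have h1 := congrFun (congrFun hz1 i) g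
    have h2 := congrFun (congrFun hw1 i) g
    have h3 := hz i g
    have h4 := hw i g
    have h5 := h i g
    have h6 := hz2 i g
    have h7 := hw2 i g
    unfold cr clE at *
    split_ifs at * <;> omega
  · intro i g
    have h1 := congrFun (congrFun hz1 i) g
    have h2 := congrFun (congrFun hw1 i) g
    have h5 := h i g
    unfold cr clE at *
    split_ifs at * <;> omega

open Classical in
/-- Total version of the clamp on vertices. -/
noncomputable def cv (R : ℕ) (a : VT n M L) (s : ℕ) (z : VT n M L) : VT n M L :=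
  if h : isV n M L (cr M R a.1 s z.1) then ⟨_, h⟩ else z

theorem cv_val {R : ℕ} {a z : VT n M L} (s : ℕ) (h : near R a.1 z.1) (hM : 2 * R + 2 ≤ M) :
    (cv R a s z).1 = cr M R a.1 s z.1 := by
  unfold cv
  rw [dif_pos (cr_isV s h a.2 z.2 hM)]

end Pool.Agent.Helper9.AFL
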