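import Pool.Agent.Helper9.AFLRoots

set_option autoImplicit false
set_option maxHeartbeats 1000000

namespace Pool.Agent.Helper9.AFL

open Equiv

/-- Equivariant transversal. -/
theorem exists_R {A : Type} [Group A] (M : Subgroup (Perm (Fin 6) × A))
    (inj : ∀ a : A, ((1 : Perm (Fin 6)), a) ∈ M → a = 1) :
    ∃ R : Perm (Fin 6) → A, (∀ k a, (k, a) ∈ M → ∀ g, R (k * g) = a * R g) ∧
      ∀ g, ∃ k, (k, R g) ∈ M := by
  classical
  let r : Setoid (Perm (Fin 6)) :=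
    { r := fun g h => ∃ m ∈ M, m.1 * g = h
      iseqv := by
        refine ⟨fun g => ⟨1, M.one_mem, by simp⟩, ?_, ?_⟩
        · rintro g h ⟨m, hm, rfl⟩
          exact ⟨m⁻¹, M.inv_mem hm, by simp [mul_assoc, ← mul_assoc]⟩
        · rintro g h k ⟨m, hm, rfl⟩ ⟨m', hm', rfl⟩
          exact ⟨m' * m, M.mul_mem hm' hm, by simp [mul_assoc]⟩ }
  have hout : ∀ g, ∃ m ∈ M, m.1 * (Quotient.out (Quotient.mk r g)) = g := by
    intro g
    exact Quotient.exact (Quotient.out_eq (Quotient.mk r g))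
  choose m hm hmg using hout
  refine ⟨fun g => (m g).2, ?_, fun g => ⟨(m g).1, hm g⟩⟩
  intro k a hka g
  have hq : Quotient.mk r (k * g) = Quotient.mk r g :=
    (Quotient.sound (⟨(k, a), hka, rfl⟩ : ∃ m ∈ M, m.1 * g = k * g)).symm
  have h1 := hmg (k * g)
  rw [hq] at h1
  have h2 := hmg g
  have h3 : (m (k * g)).1 = k * (m g).1 := by
    apply mul_right_cancel (b := Quotient.out (Quotient.mk r g))
    rw [h1, mul_assoc, h2]
  have h4 : (m (k * g))⁻¹ * ((k, a) * m g) ∈ M := M.mul_mem (M.inv_mem (hm _)) (M.mul_mem hka (hm g))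
  have h5 : (m (k * g))⁻¹ * ((k, a) * m g) = (1, (m (k * g)).2⁻¹ * (a * (m g).2)) := by
    refine Prod.ext ?_ ?_
    · simp [h3]
    · simp
  rw [h5] at h4
  have h6 := inj _ h4
  show (m (k * g)).2 = a * (m g).2
  exact (inv_mul_eq_one.mp h6)

namespace RD

variable {p : ℕ} {I : Type} [Fintype I] (D : RD p I)

noncomputable def psi (δ : ℝ) (R : Perm (Fin 6) → AA p) :
    (n : ℕ) → (Fin n → Perm (Fin 6) → ℝ) → ℂ × (Fin p → ℝ)
  | 0, _ => 0
  | n + 1, x =>
    D.Phi δ (psi δ R n (fun i => x i.castSucc)) 0 +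
      ∑ g : Perm (Fin 6),
        (aact (R g) (D.Phi δ (aact (R g)⁻¹ (psi δ R n (fun i => x i.castSucc))) (x (Fin.last n) g))
          - D.Phi δ (psi δ R n (fun i => x i.castSucc)) 0)

theorem psi_cont (δ : ℝ) (R : Perm (Fin 6) → AA p) (n : ℕ) : Continuous (D.psi δ R n) := by
  induction n with
  | zero => exact continuous_const
  | succ n ih =>
    have h0 : Continuous (fun x : Fin (n + 1) → Perm (Fin 6) → ℝ =>
        D.psi δ R n (fun i => x i.castSucc)) := by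
      apply ih.comp
      fun_prop
    have h1 : Continuous (fun x : Fin (n + 1) → Perm (Fin 6) → ℝ =>
        D.Phi δ (D.psi δ R n (fun i => x i.castSucc)) 0) :=
      (D.Phi_cont δ).comp (h0.prodMk continuous_const)
    show Continuous (fun x : Fin (n + 1) → Perm (Fin 6) → ℝ =>
      D.Phi δ (D.psi δ R n (fun i => x i.castSucc)) 0 +
      ∑ g : Perm (Fin 6),
        (aact (R g) (D.Phi δ (aact (R g)⁻¹ (D.psi δ R n (fun i => x i.castSucc))) (x (Fin.last n) g))
          - D.Phi δ (D.psi δ R n (fun i => x i.castSucc)) 0))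
    apply h1.add
    apply continuous_finsetSum
    intro g _
    apply Continuous.sub _ h1
    have h2 : Continuous (aact (R g)) := LinearMap.continuous_of_finiteDimensional _
    have h3 : Continuous (aact (R g)⁻¹) := LinearMap.continuous_of_finiteDimensional _
    apply h2.comp
    exact (D.Phi_cont δ).comp ((h3.comp h0).prodMk (by fun_prop))

theorem exists_leg {y : Perm (Fin 6) → ℝ} (h : ∀ g h, g ≠ h → y g = 0 ∨ y h = 0) :
    ∃ g0, ∀ g, g ≠ g0 → y g = 0 := by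
  by_cases hy : ∃ g, y g ≠ 0
  · obtain ⟨g0, hg0⟩ := hy
    exact ⟨g0, fun g hg => (h g g0 hg).resolve_right hg0⟩
  · exact ⟨1, fun g _ => by by_contra hc; exact hy ⟨g, hc⟩⟩

variable {δ : ℝ} {R : Perm (Fin 6) → AA p}

theorem aact_CE {k : Perm (Fin 6)} {a : AA p} (h : (k, a) ∈ D.M) {e : ℂ × (Fin p → ℝ)}
    (he : e ∈ D.CE) : aact a e ∈ D.CE := D.c1 k a h _ he

theorem aact_CE' {k : Perm (Fin 6)} {a : AA p} (h : (k, a) ∈ D.M) {e : ℂ × (Fin p → ℝ)}
    (he : e ∈ D.CE) : aact a⁻¹ e ∈ D.CE := D.aact_CE (D.M.inv_mem h) he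

/-- Evaluation on a row supported on the leg `g0`. -/
theorem psi_leg (hR2 : ∀ g, ∃ k, (k, R g) ∈ D.M) {n : ℕ} {x : Fin (n + 1) → Perm (Fin 6) → ℝ}
    (he : D.psi δ R n (fun i => x i.castSucc) ∈ D.CE) {g0 : Perm (Fin 6)}
    (h0 : ∀ g, g ≠ g0 → x (Fin.last n) g = 0) :
    D.psi δ R (n + 1) x = aact (R g0)
      (D.Phi δ (aact (R g0)⁻¹ (D.psi δ R n (fun i => x i.castSucc))) (x (Fin.last n) g0)) := by
  have hz : ∀ g, aact (R g) (D.Phi δ (aact (R g)⁻¹ (D.psi δ R n (fun i => x i.castSucc))) 0) =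
      D.Phi δ (D.psi δ R n (fun i => x i.castSucc)) 0 := by
    intro g
    obtain ⟨k, hk⟩ := hR2 g
    have h1 := D.compat (δ := δ) hk (D.aact_CE' hk he)
    rw [← h1, aact_inv]
  show D.Phi δ (D.psi δ R n (fun i => x i.castSucc)) 0 +
      ∑ g : Perm (Fin 6),
        (aact (R g) (D.Phi δ (aact (R g)⁻¹ (D.psi δ R n (fun i => x i.castSucc))) (x (Fin.last n) g))
          - D.Phi δ (D.psi δ R n (fun i => x i.castSucc)) 0) = _
  rw [Finset.sum_eq_single g0]
  · abel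
  · intro g _ hg
    rw [h0 g hg, hz g, sub_self]
  · intro h; exact absurd (Finset.mem_univ _) h

theorem star_init {n : ℕ} {x : Fin (n + 1) → Perm (Fin 6) → ℝ} (h : IsStar x) :
    IsStar (fun i : Fin n => x i.castSucc) := ⟨fun _ _ => h.1 _ _, fun _ => h.2 _⟩

theorem psi_CE (h1 : 0 < δ) (h2 : δ ≤ D.δ0) (hR2 : ∀ g, ∃ k, (k, R g) ∈ D.M) (n : ℕ) :
    ∀ x : Fin n → Perm (Fin 6) → ℝ, IsStar x → D.psi δ R n x ∈ D.CE := by
  induction n with
  | zero => intro x _; exact D.zero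
  | succ n ih =>
    intro x hx
    have he := ih _ (star_init hx)
    obtain ⟨g0, hg0⟩ := exists_leg (hx.2 (Fin.last n))
    rw [D.psi_leg hR2 he hg0]
    obtain ⟨k, hk⟩ := hR2 g0
    exact D.aact_CE hk (D.Phi_CE h1 h2 (D.aact_CE' hk he) (hx.1 _ _))

theorem aact_eq_zero {a : AA p} {e : ℂ × (Fin p → ℝ)} (h : aact a e = 0) : e = 0 := by
  have := congrArg (aact a⁻¹) h
  rwa [aact_inv', map_zero] at this

theorem psi_ne (h1 : 0 < δ) (h2 : δ ≤ D.δ0)
    (h3 : ∀ e ∈ D.CE, ∀ σ : ℝ, 0 ≤ σ → D.Phi δ e σ = 0 → e = 0 ∧ σ = 0)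
    (hR2 : ∀ g, ∃ k, (k, R g) ∈ D.M) (n : ℕ) :
    ∀ x : Fin n → Perm (Fin 6) → ℝ, IsStar x → D.psi δ R n x = 0 → x = 0 := by
  induction n with
  | zero => intro x _ _; funext i; exact i.elim0
  | succ n ih =>
    intro x hx h
    have he := D.psi_CE (R := R) h1 h2 hR2 n _ (star_init hx)
    obtain ⟨g0, hg0⟩ := exists_leg (hx.2 (Fin.last n))
    rw [D.psi_leg hR2 he hg0] at h
    obtain ⟨k, hk⟩ := hR2 g0
    obtain ⟨h4, h5⟩ := h3 _ (D.aact_CE' hk he) _ (hx.1 _ _) (aact_eq_zero h)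
    have h6 := ih _ (star_init hx) (aact_eq_zero h4)
    funext i
    refine Fin.lastCases ?_ ?_ i
    · funext g
      by_cases hg : g = g0
      · rw [hg, h5]; rfl
      · exact hg0 g hg
    · intro j; exact congrFun h6 j

theorem psi_act (h1 : 0 < δ) (h2 : δ ≤ D.δ0)
    (hR1 : ∀ k a, (k, a) ∈ D.M → ∀ g, R (k * g) = a * R g)
    (hR2 : ∀ g, ∃ k, (k, R g) ∈ D.M) {k : Perm (Fin 6)} {a : AA p} (hka : (k, a) ∈ D.M) (n : ℕ) :
    ∀ x : Fin n → Perm (Fin 6) → ℝ, IsStar x → D.psi δ R n (act k x) = aact a (D.psi δ R n x) := by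
  induction n with
  | zero => intro x _; show (0 : ℂ × (Fin p → ℝ)) = aact a 0; rw [map_zero]
  | succ n ih =>
    intro x hx
    have hx' := act_star k hx
    have he := D.psi_CE (R := R) h1 h2 hR2 n _ (star_init hx)
    have he' := D.psi_CE (R := R) h1 h2 hR2 n _ (star_init hx')
    obtain ⟨g0, hg0⟩ := exists_leg (hx.2 (Fin.last n))
    have hg0' : ∀ g, g ≠ k * g0 → act k x (Fin.last n) g = 0 := by
      intro g hg
      apply hg0
      intro e
      apply hg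
      rw [← e, mul_inv_cancel_left]
    rw [D.psi_leg hR2 he hg0, D.psi_leg hR2 he' hg0', hR1 k a hka g0]
    have e1 : (fun i : Fin n => act k x i.castSucc) = act k (fun i : Fin n => x i.castSucc) := rfl
    have e2 : act k x (Fin.last n) (k * g0) = x (Fin.last n) g0 := by
      unfold act; rw [inv_mul_cancel_left]
    rw [e1, e2, ih _ (star_init hx), mul_inv_rev, aact_mul, aact_mul, aact_inv']

/-- The main output: distinguished elements without common fixed points give a good pair. -/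
theorem good {k1 k2 : Perm (Fin 6)} {a1 a2 : AA p} (hk1 : (k1, a1) ∈ D.M) (hk2 : (k2, a2) ∈ D.M)
    (hfix : ∀ e ∈ D.CE, aact a1 e = e → aact a2 e = e → e = 0) : Good k1 k2 := by
  obtain ⟨δ, h1, h2, h3⟩ := D.exists_delta
  obtain ⟨R, hR1, hR2⟩ := exists_R D.M D.inj
  refine ⟨p, {e | e ∈ D.CE ∧ ‖e‖ = 1}, aact a1, aact a2, ?_,
    LinearMap.continuous_of_finiteDimensional _, LinearMap.continuous_of_finiteDimensional _,
    ?_, ?_⟩
  · apply Metric.isCompact_of_isClosed_isBounded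
    · have e : {e | e ∈ D.CE ∧ ‖e‖ = 1} = (Prod.snd ⁻¹' D.C) ∩ Metric.sphere 0 1 := by
        ext q; simp [CE]
      rw [e]
      exact (D.closed.preimage continuous_snd).inter Metric.isClosed_sphere
    · apply (Metric.isBounded_closedBall (x := (0 : ℂ × (Fin p → ℝ))) (r := 1)).subset
      intro q hq
      simp [hq.2]
  · rintro e ⟨he, hn⟩ ⟨e1, e2⟩
    have := hfix e he e1 e2
    rw [this, norm_zero] at hn
    exact zero_ne_one hn
  · intro n
    have hne : ∀ x ∈ StarS n, D.psi δ R n x ≠ 0 := fun x hx h =>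
      hx.2 (D.psi_ne h1 h2 h3 hR2 n x hx.1 h)
    refine ⟨fun x => ‖D.psi δ R n x‖⁻¹ • D.psi δ R n x, ?_, ?_, ?_, ?_⟩
    · have hc := (D.psi_cont δ R n).continuousOn (s := StarS n)
      exact (hc.norm.inv₀ (fun x hx => norm_ne_zero_iff.mpr (hne x hx))).smul hc
    · intro x hx
      refine ⟨?_, ?_⟩
      · exact D.cone _ (inv_nonneg.mpr (norm_nonneg _)) _ (D.psi_CE h1 h2 hR2 n x hx.1)
      · rw [norm_smul, norm_inv, norm_norm, inv_mul_cancel₀ (norm_ne_zero_iff.mpr (hne x hx))]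
    · intro x hx
      show ‖D.psi δ R n (act k1 x)‖⁻¹ • D.psi δ R n (act k1 x) = _
      rw [D.psi_act h1 h2 hR1 hR2 hk1 n x hx.1, aact_norm _ (D.c4 _ _ hk1), map_smul]
    · intro x hx
      show ‖D.psi δ R n (act k2 x)‖⁻¹ • D.psi δ R n (act k2 x) = _
      rw [D.psi_act h1 h2 hR1 hR2 hk2 n x hx.1, aact_norm _ (D.c4 _ _ hk2), map_smul]

end RD

end Pool.Agent.Helper9.AFL
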