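import Mathlib

set_option autoImplicit false
set_option maxHeartbeats 1000000

namespace Pool.Agent.Helper9.AFL

open Equiv

/-- Rows supported on at most one leg, with nonnegative entries. -/
def IsStar {n : ℕ} {L : Type} (x : Fin n → L → ℝ) : Prop :=
  (∀ i g, 0 ≤ x i g) ∧ (∀ i g h, g ≠ h → x i g = 0 ∨ x i h = 0)

/-- Left translation on the legs. -/
def act {n : ℕ} (k : Perm (Fin 6)) (x : Fin n → Perm (Fin 6) → ℝ) : Fin n → Perm (Fin 6) → ℝ :=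
  fun i g => x i (k⁻¹ * g)

def StarS (n : ℕ) : Set (Fin n → Perm (Fin 6) → ℝ) := {x | IsStar x ∧ x ≠ 0}

/-- The pair `k1, k2` is good. -/
def Good (k1 k2 : Perm (Fin 6)) : Prop :=
  ∃ (p : ℕ) (K : Set (ℂ × (Fin p → ℝ))) (A1 A2 : ℂ × (Fin p → ℝ) → ℂ × (Fin p → ℝ)),
    IsCompact K ∧ Continuous A1 ∧ Continuous A2 ∧ (∀ e ∈ K, ¬ (A1 e = e ∧ A2 e = e)) ∧
    ∀ n : ℕ, ∃ ψ : (Fin n → Perm (Fin 6) → ℝ) → ℂ × (Fin p → ℝ),
      ContinuousOn ψ (StarS n) ∧ (∀ x ∈ StarS n, ψ x ∈ K) ∧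
      (∀ x ∈ StarS n, ψ (act k1 x) = A1 (ψ x)) ∧ (∀ x ∈ StarS n, ψ (act k2 x) = A2 (ψ x))

theorem act_star {n : ℕ} (k : Perm (Fin 6)) {x : Fin n → Perm (Fin 6) → ℝ} (h : IsStar x) :
    IsStar (act k x) := by
  refine ⟨fun i g => h.1 i _, fun i g g' hg => h.2 i _ _ ?_⟩
  intro e
  exact hg (mul_left_cancel e)

theorem act_ne {n : ℕ} (k : Perm (Fin 6)) {x : Fin n → Perm (Fin 6) → ℝ} (h : x ≠ 0) :
    act k x ≠ 0 := by
  intro e
  apply h
  funext i g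
  have := congrFun (congrFun e i) (k * g)
  simpa [act] using this

theorem act_starS {n : ℕ} (k : Perm (Fin 6)) {x : Fin n → Perm (Fin 6) → ℝ} (h : x ∈ StarS n) :
    act k x ∈ StarS n := ⟨act_star k h.1, act_ne k h.2⟩

/-- The group of scaled permutations. -/
abbrev AA (p : ℕ) := Perm (Fin p) × ℂˣ

def pw {p : ℕ} (s : Perm (Fin p)) (w : Fin p → ℝ) : Fin p → ℝ := fun t => w (s⁻¹ t)

def aact {p : ℕ} (a : AA p) : (ℂ × (Fin p → ℝ)) →ₗ[ℝ] (ℂ × (Fin p → ℝ)) where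
  toFun e := ((a.2 : ℂ) * e.1, pw a.1 e.2)
  map_add' x y := by
    refine Prod.ext ?_ ?_
    · simp [mul_add]
    · funext i; simp [pw]
  map_smul' c x := by
    refine Prod.ext ?_ ?_
    · simp only [Prod.smul_fst, RingHom.id_apply, Complex.real_smul]; ring
    · funext i; simp [pw]

theorem aact_apply {p : ℕ} (a : AA p) (e : ℂ × (Fin p → ℝ)) :
    aact a e = ((a.2 : ℂ) * e.1, pw a.1 e.2) := rfl

theorem pw_mul {p : ℕ} (s t : Perm (Fin p)) (w : Fin p → ℝ) : pw (s * t) w = pw s (pw t w) := by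
  funext i
  simp [pw, mul_inv_rev]

theorem pw_one {p : ℕ} (w : Fin p → ℝ) : pw (1 : Perm (Fin p)) w = w := by
  funext i; simp [pw]

theorem aact_mul {p : ℕ} (a b : AA p) (e : ℂ × (Fin p → ℝ)) :
    aact (a * b) e = aact a (aact b e) := by
  rw [aact_apply, aact_apply, aact_apply]
  refine Prod.ext ?_ ?_
  · simp [mul_assoc]
  · exact pw_mul _ _ _

theorem aact_one {p : ℕ} (e : ℂ × (Fin p → ℝ)) : aact (1 : AA p) e = e := by
  rw [aact_apply]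
  refine Prod.ext ?_ ?_
  · simp
  · exact pw_one _

theorem aact_inv {p : ℕ} (a : AA p) (e : ℂ × (Fin p → ℝ)) : aact a (aact a⁻¹ e) = e := by
  rw [← aact_mul, mul_inv_cancel, aact_one]

theorem aact_inv' {p : ℕ} (a : AA p) (e : ℂ × (Fin p → ℝ)) : aact a⁻¹ (aact a e) = e := by
  rw [← aact_mul, inv_mul_cancel, aact_one]

theorem pw_norm {p : ℕ} (s : Perm (Fin p)) (w : Fin p → ℝ) : ‖pw s w‖ = ‖w‖ := by
  apply le_antisymm
  · rw [pi_norm_le_iff_of_nonneg (norm_nonneg _)]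
    intro i; exact norm_le_pi_norm w _
  · rw [pi_norm_le_iff_of_nonneg (norm_nonneg _)]
    intro i
    have := norm_le_pi_norm (pw s w) (s i)
    simpa [pw] using this

theorem aact_norm {p : ℕ} (a : AA p) (h : ‖(a.2 : ℂ)‖ = 1) (e : ℂ × (Fin p → ℝ)) :
    ‖aact a e‖ = ‖e‖ := by
  rw [aact_apply, Prod.norm_def, Prod.norm_def]
  simp [pw_norm, h]

/-- Data for a labelled root construction. -/
structure RD (p : ℕ) (I : Type) [Fintype I] where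
  C : Set (Fin p → ℝ)
  closed : IsClosed C
  cone : ∀ c : ℝ, 0 ≤ c → ∀ w ∈ C, c • w ∈ C
  zero : (0 : Fin p → ℝ) ∈ C
  rho : I → (Fin p → ℝ) → ℝ → ℂ
  lam : I → (Fin p → ℝ) → ℝ → (Fin p → ℝ)
  rc : ∀ i, Continuous (fun q : (Fin p → ℝ) × ℝ => rho i q.1 q.2)
  lc : ∀ i, Continuous (fun q : (Fin p → ℝ) × ℝ => lam i q.1 q.2)
  rh : ∀ i (c : ℝ) w σ, 0 ≤ c → rho i (c • w) (c * σ) = (c : ℂ) * rho i w σ
  lh : ∀ i (c : ℝ) w σ, 0 ≤ c → lam i (c • w) (c * σ) = c • lam i w σ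
  nd1 : ∀ i w σ, w ∈ C → 0 ≤ σ → (w, σ) ≠ (0 : (Fin p → ℝ) × ℝ) → lam i w σ ≠ 0
  nd2 : ∀ i j w σ, w ∈ C → 0 ≤ σ → rho i w σ = rho j w σ → lam i w σ = lam j w σ
  δ0 : ℝ
  δ0pos : 0 < δ0
  coneδ : ∀ δ : ℝ, 0 < δ → δ ≤ δ0 → ∀ w ∈ C, ∀ σ : ℝ, 0 ≤ σ → ∀ z : ℂ,
    ∑ i, (max 0 (δ * ‖(w, σ)‖ - ‖z - rho i w σ‖)) • lam i w σ ∈ C
  M : Subgroup (Perm (Fin 6) × AA p)
  inj : ∀ a : AA p, ((1 : Perm (Fin 6)), a) ∈ M → a = 1
  c1 : ∀ k a, (k, a) ∈ M → ∀ w ∈ C, pw a.1 w ∈ C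
  c2 : ∀ k a, (k, a) ∈ M → ∀ w ∈ C, ∃ θ : Perm I, ∀ i,
    rho (θ i) (pw a.1 w) 0 = (a.2 : ℂ) * rho i w 0 ∧ lam (θ i) (pw a.1 w) 0 = pw a.1 (lam i w 0)
  c3 : ∀ k a, (k, a) ∈ M → (a.2 : ℂ) ^ Fintype.card I = a.2
  c4 : ∀ k a, (k, a) ∈ M → ‖(a.2 : ℂ)‖ = 1

namespace RD

variable {p : ℕ} {I : Type} [Fintype I] (D : RD p I)

noncomputable def wt (δ : ℝ) (z : ℂ) (w : Fin p → ℝ) (σ : ℝ) (i : I) : ℝ :=
  max 0 (δ * ‖(w, σ)‖ - ‖z - D.rho i w σ‖)

noncomputable def Phi (δ : ℝ) (e : ℂ × (Fin p → ℝ)) (σ : ℝ) : ℂ × (Fin p → ℝ) :=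
  (∏ i, (e.1 - D.rho i e.2 σ), ∑ i, D.wt δ e.1 e.2 σ i • D.lam i e.2 σ)

def CE : Set (ℂ × (Fin p → ℝ)) := {e | e.2 ∈ D.C}

theorem Phi_cont (δ : ℝ) :
    Continuous (fun q : (ℂ × (Fin p → ℝ)) × ℝ => D.Phi δ q.1 q.2) := by
  unfold Phi
  have h1 : ∀ i, Continuous (fun q : (ℂ × (Fin p → ℝ)) × ℝ => D.rho i q.1.2 q.2) := by
    intro i
    exact (D.rc i).comp (by fun_prop : Continuous (fun q : (ℂ × (Fin p → ℝ)) × ℝ => (q.1.2, q.2)))
  have h2 : ∀ i, Continuous (fun q : (ℂ × (Fin p → ℝ)) × ℝ => D.lam i q.1.2 q.2) := by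
    intro i
    exact (D.lc i).comp (by fun_prop : Continuous (fun q : (ℂ × (Fin p → ℝ)) × ℝ => (q.1.2, q.2)))
  refine Continuous.prodMk ?_ ?_
  · apply continuous_finsetProd
    intro i _
    exact (by fun_prop : Continuous (fun q : (ℂ × (Fin p → ℝ)) × ℝ => q.1.1)).sub (h1 i)
  · apply continuous_finsetSum
    intro i _
    have h4 : Continuous (fun q : (ℂ × (Fin p → ℝ)) × ℝ => D.wt δ q.1.1 q.1.2 q.2 i) := by
      unfold wt
      have h3 := h1 i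
      fun_prop
    exact h4.smul (h2 i)

theorem Phi_CE {δ : ℝ} (h1 : 0 < δ) (h2 : δ ≤ D.δ0) {e : ℂ × (Fin p → ℝ)} (he : e ∈ D.CE) {σ : ℝ}
    (hσ : 0 ≤ σ) : D.Phi δ e σ ∈ D.CE := D.coneδ δ h1 h2 e.2 he σ hσ e.1

theorem compat {δ : ℝ} {k : Perm (Fin 6)} {a : AA p} (h : (k, a) ∈ D.M) {e : ℂ × (Fin p → ℝ)}
    (he : e ∈ D.CE) : D.Phi δ (aact a e) 0 = aact a (D.Phi δ e 0) := by
  obtain ⟨θ, hθ⟩ := D.c2 k a h e.2 he
  have h4 := D.c4 k a h
  rw [aact_apply, aact_apply]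
  unfold Phi
  simp only
  refine Prod.ext ?_ ?_
  · simp only
    rw [← Equiv.prod_comp θ]
    have : ∀ i, (a.2 : ℂ) * e.1 - D.rho (θ i) (pw a.1 e.2) 0 = (a.2 : ℂ) * (e.1 - D.rho i e.2 0) := by
      intro i; rw [(hθ i).1]; ring
    simp_rw [this]
    rw [Finset.prod_mul_distrib, Finset.prod_const, Finset.card_univ, D.c3 k a h]
  · simp only
    rw [← Equiv.sum_comp θ]
    funext t
    simp only [Finset.sum_apply, pw, Pi.smul_apply, smul_eq_mul]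
    apply Finset.sum_congr rfl
    intro i _
    have e1 : D.wt δ ((a.2 : ℂ) * e.1) (pw a.1 e.2) 0 (θ i) = D.wt δ e.1 e.2 0 i := by
      unfold wt
      rw [(hθ i).1, ← mul_sub, norm_mul, h4, one_mul, Prod.norm_def, Prod.norm_def]
      simp only
      rw [pw_norm]
    have e2 := congrFun (hθ i).2 t
    rw [e1, e2]
    rfl

/-- Choice of a good small parameter. -/
theorem exists_delta : ∃ δ : ℝ, 0 < δ ∧ δ ≤ D.δ0 ∧ ∀ e ∈ D.CE, ∀ σ : ℝ, 0 ≤ σ →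
    D.Phi δ e σ = 0 → e = 0 ∧ σ = 0 := by
  classical
  -- the compact base
  let B : Set ((Fin p → ℝ) × ℝ) := {q | q.1 ∈ D.C ∧ 0 ≤ q.2 ∧ ‖q‖ = 1}
  have hBc : IsCompact B := by
    apply Metric.isCompact_of_isClosed_isBounded
    · have e : B = (Prod.fst ⁻¹' D.C) ∩ ((Prod.snd ⁻¹' (Set.Ici 0)) ∩ Metric.sphere 0 1) := by
        ext q; simp [B]
      rw [e]
      exact (D.closed.preimage continuous_fst).inter
        ((isClosed_Ici.preimage continuous_snd).inter Metric.isClosed_sphere)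
    · apply (Metric.isBounded_closedBall (x := (0 : (Fin p → ℝ) × ℝ)) (r := 1)).subset
      intro q hq
      simp [hq.2.2]
  have hnz : ∀ q ∈ B, q ≠ 0 := by
    intro q hq e
    have := hq.2.2
    rw [e, norm_zero] at this
    exact zero_ne_one this
  -- lower bound for labels
  have hμ : ∃ μ : ℝ, 0 < μ ∧ ∀ q ∈ B, ∀ i, μ ≤ ‖D.lam i q.1 q.2‖ := by
    have hi : ∀ i, ∃ μ : ℝ, 0 < μ ∧ ∀ q ∈ B, μ ≤ ‖D.lam i q.1 q.2‖ := by
      intro i
      rcases B.eq_empty_or_nonempty with h | h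
      · exact ⟨1, one_pos, fun q hq => by rw [h] at hq; exact hq.elim⟩
      · obtain ⟨q0, hq0, hmin⟩ := hBc.exists_isMinOn h ((D.lc i).norm.continuousOn)
        exact ⟨‖D.lam i q0.1 q0.2‖, norm_pos_iff.mpr
          (D.nd1 i q0.1 q0.2 hq0.1 hq0.2.1 (hnz q0 hq0)), fun q hq => hmin hq⟩
    choose μ hμ1 hμ2 using hi
    rcases isEmpty_or_nonempty I with h | h
    · exact ⟨1, one_pos, fun q _ i => (h.false i).elim⟩
    · refine ⟨Finset.univ.inf' Finset.univ_nonempty μ, ?_, ?_⟩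
      · rw [Finset.lt_inf'_iff]; exact fun i _ => hμ1 i
      · intro q hq i
        exact (Finset.inf'_le μ (Finset.mem_univ i)).trans (hμ2 i q hq)
  obtain ⟨μ, hμ0, hμ1⟩ := hμ
  have hij : ∀ i j, ∃ δ : ℝ, 0 < δ ∧ ∀ q ∈ B, ‖D.rho i q.1 q.2 - D.rho j q.1 q.2‖ < δ →
      ‖D.lam j q.1 q.2 - D.lam i q.1 q.2‖ < μ := by
    intro i j
    let B' := B ∩ {q | μ ≤ ‖D.lam j q.1 q.2 - D.lam i q.1 q.2‖}
    have hB' : IsCompact B' := hBc.inter_right
      (isClosed_le continuous_const ((D.lc j).sub (D.lc i)).norm)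
    rcases B'.eq_empty_or_nonempty with h | h
    · refine ⟨1, one_pos, fun q hq _ => ?_⟩
      by_contra hcon
      have : q ∈ B' := ⟨hq, not_lt.mp hcon⟩
      rw [h] at this; exact this
    · obtain ⟨q0, hq0, hmin⟩ := hB'.exists_isMinOn h (((D.rc i).sub (D.rc j)).norm.continuousOn)
      refine ⟨‖D.rho i q0.1 q0.2 - D.rho j q0.1 q0.2‖, ?_, ?_⟩
      · apply norm_pos_iff.mpr
        intro e
        have e' := D.nd2 i j q0.1 q0.2 hq0.1.1 hq0.1.2.1 (sub_eq_zero.mp e)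
        have := hq0.2
        simp only [Set.mem_ofPred_eq, e', sub_self, norm_zero] at this
        linarith
      · intro q hq hlt
        by_contra hcon
        have : q ∈ B' := ⟨hq, not_lt.mp hcon⟩
        exact absurd (hmin this) (not_le.mpr hlt)
  choose δf hδ1 hδ2 using hij
  have hδ : ∃ δ : ℝ, 0 < δ ∧ δ ≤ D.δ0 ∧ ∀ i j, δ ≤ δf i j := by
    rcases isEmpty_or_nonempty I with h | h
    · exact ⟨D.δ0, D.δ0pos, le_refl _, fun i => (h.false i).elim⟩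
    · refine ⟨min D.δ0 (Finset.univ.inf' Finset.univ_nonempty
        (fun q : I × I => δf q.1 q.2)), ?_, min_le_left _ _, ?_⟩
      · rw [lt_min_iff, Finset.lt_inf'_iff]
        exact ⟨D.δ0pos, fun i _ => hδ1 _ _⟩
      · intro i j
        exact (min_le_right _ _).trans (Finset.inf'_le (fun q : I × I => δf q.1 q.2)
          (Finset.mem_univ (i, j)))
  obtain ⟨δ, hδp, hδ0, hδle⟩ := hδ
  refine ⟨δ, hδp, hδ0, ?_⟩
  intro e he σ hσ h0
  have hp : ∏ i, (e.1 - D.rho i e.2 σ) = 0 := congrArg Prod.fst h0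
  have hs : ∑ i, D.wt δ e.1 e.2 σ i • D.lam i e.2 σ = 0 := congrArg Prod.snd h0
  obtain ⟨i, _, hi⟩ := Finset.prod_eq_zero_iff.mp hp
  have hz : e.1 = D.rho i e.2 σ := sub_eq_zero.mp hi
  by_cases hq : (e.2, σ) = (0 : (Fin p → ℝ) × ℝ)
  · have h1 : e.2 = 0 := congrArg Prod.fst hq
    have h2 : σ = 0 := congrArg Prod.snd hq
    refine ⟨Prod.ext ?_ h1, h2⟩
    have := D.rh i 0 e.2 σ (le_refl _)
    rw [zero_smul, zero_mul] at this
    rw [hz, h1, h2, this]; simp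
  · exfalso
    set c : ℝ := ‖((e.2, σ) : (Fin p → ℝ) × ℝ)‖ with hc
    have hcpos : 0 < c := norm_pos_iff.mpr hq
    -- normalized point
    have hqB : (c⁻¹ • e.2, c⁻¹ * σ) ∈ B := by
      refine ⟨D.cone _ (inv_nonneg.mpr hcpos.le) _ he, mul_nonneg (inv_nonneg.mpr hcpos.le) hσ, ?_⟩
      have : ((c⁻¹ • e.2, c⁻¹ * σ) : (Fin p → ℝ) × ℝ) = c⁻¹ • (e.2, σ) := rfl
      rw [this, norm_smul, norm_inv, Real.norm_of_nonneg hcpos.le, ← hc, inv_mul_cancel₀ hcpos.ne']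
    have hback : c • (c⁻¹ • e.2) = e.2 := by rw [smul_smul, mul_inv_cancel₀ hcpos.ne', one_smul]
    have hback' : c * (c⁻¹ * σ) = σ := by rw [← mul_assoc, mul_inv_cancel₀ hcpos.ne', one_mul]
    have hr : ∀ j, D.rho j e.2 σ = (c : ℂ) * D.rho j (c⁻¹ • e.2) (c⁻¹ * σ) := by
      intro j
      have := D.rh j c (c⁻¹ • e.2) (c⁻¹ * σ) hcpos.le
      rwa [hback, hback'] at this
    have hl : ∀ j, D.lam j e.2 σ = c • D.lam j (c⁻¹ • e.2) (c⁻¹ * σ) := by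
      intro j
      have := D.lh j c (c⁻¹ • e.2) (c⁻¹ * σ) hcpos.le
      rwa [hback, hback'] at this
    set w' := c⁻¹ • e.2
    set σ' := c⁻¹ * σ
    have hclose : ∀ j, D.wt δ e.1 e.2 σ j ≠ 0 → ‖D.lam j w' σ' - D.lam i w' σ'‖ < μ := by
      intro j hj
      apply hδ2 i j _ hqB
      have h1 : 0 < δ * c - ‖e.1 - D.rho j e.2 σ‖ := by
        by_contra hcon
        apply hj
        unfold wt
        exact max_eq_left (not_lt.mp hcon)
      rw [hz, hr i, hr j, ← mul_sub, norm_mul, Complex.norm_real, Real.norm_of_nonneg hcpos.le]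
        at h1
      have h2 : ‖D.rho i w' σ' - D.rho j w' σ'‖ < δ := by
        have : c * ‖D.rho i w' σ' - D.rho j w' σ'‖ < c * δ := by linarith
        exact lt_of_mul_lt_mul_left this hcpos.le
      exact h2.trans_le (hδle i j)
    have hwi : D.wt δ e.1 e.2 σ i = δ * c := by
      unfold wt
      rw [hz, sub_self, norm_zero, sub_zero]
      exact max_eq_right (by positivity)
    have hwn : ∀ j, 0 ≤ D.wt δ e.1 e.2 σ j := fun j => le_max_left _ _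
    have hsum : ∑ j, D.wt δ e.1 e.2 σ j • D.lam j w' σ' = 0 := by
      have : c • ∑ j, D.wt δ e.1 e.2 σ j • D.lam j w' σ' = 0 := by
        rw [← hs, Finset.smul_sum]
        apply Finset.sum_congr rfl
        intro j _
        rw [hl j, smul_comm]
      exact (smul_eq_zero.mp this).resolve_left hcpos.ne'
    set Wt := ∑ j, D.wt δ e.1 e.2 σ j with hWt
    have hW : 0 < Wt := by
      have : D.wt δ e.1 e.2 σ i ≤ Wt := Finset.single_le_sum (fun j _ => hwn j) (Finset.mem_univ i)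
      rw [hwi] at this
      have : 0 < δ * c := by positivity
      linarith
    have hdec : Wt • D.lam i w' σ' =
        - ∑ j, D.wt δ e.1 e.2 σ j • (D.lam j w' σ' - D.lam i w' σ') := by
      simp_rw [smul_sub]
      rw [Finset.sum_sub_distrib, hsum, ← Finset.sum_smul]
      simp [hWt]
    have hle : ‖∑ j, D.wt δ e.1 e.2 σ j • (D.lam j w' σ' - D.lam i w' σ')‖ < Wt * μ := by
      have h1 : ∀ j ∈ Finset.univ, ‖D.wt δ e.1 e.2 σ j • (D.lam j w' σ' - D.lam i w' σ')‖ ≤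
          D.wt δ e.1 e.2 σ j * μ := by
        intro j _
        rw [norm_smul, Real.norm_of_nonneg (hwn j)]
        by_cases hj : D.wt δ e.1 e.2 σ j = 0
        · rw [hj]; simp
        · exact mul_le_mul_of_nonneg_left (hclose j hj).le (hwn j)
      have h2 : ‖D.wt δ e.1 e.2 σ i • (D.lam i w' σ' - D.lam i w' σ')‖ <
          D.wt δ e.1 e.2 σ i * μ := by
        rw [sub_self, smul_zero, norm_zero, hwi]; positivity
      calc _ ≤ ∑ j, ‖D.wt δ e.1 e.2 σ j • (D.lam j w' σ' - D.lam i w' σ')‖ := norm_sum_le _ _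
        _ < ∑ j, D.wt δ e.1 e.2 σ j * μ := Finset.sum_lt_sum h1 ⟨i, Finset.mem_univ i, h2⟩
        _ = Wt * μ := by rw [hWt, Finset.sum_mul]
    have hge : Wt * μ ≤ ‖Wt • D.lam i w' σ'‖ := by
      rw [norm_smul, Real.norm_of_nonneg hW.le]
      exact mul_le_mul_of_nonneg_left (hμ1 _ hqB i) hW.le
    rw [hdec, norm_neg] at hge
    linarith

end RD

end Pool.Agent.Helper9.AFL
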