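import Pool.Agent.Helper9.AFLFold
import Pool.Agent.Helper9.AFLRoots

set_option autoImplicit false
set_option maxHeartbeats 1000000
set_option linter.unusedSectionVars false

namespace Pool.Agent.Helper9.AFL

open Equiv

variable {n M : ℕ} {L : Type} [Fintype L]

noncomputable def ub (y : Fn n M L) : Fin n → L → ℝ := fun i g => ∑ t, y t * ((t 0).1 i g : ℝ)

noncomputable def rr (x : Fin n → L → ℝ) : Fin n → L → ℝ :=
  fun i g => max 0 (2 * x i g - ∑ h, x i h)

noncomputable def uu (y : Fn n M L) : Fin n → L → ℝ := rr (ub y)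

def TT (n M : ℕ) (L : Type) : Set (Fin n → L → ℝ) := {w | IsStar w ∧ ∃ i g, (M : ℝ) - 2 ≤ w i g}

theorem uu_cont : Continuous (uu : Fn n M L → Fin n → L → ℝ) := by
  unfold uu rr ub
  fun_prop

theorem ub_nonneg {y : Fn n M L} (hy : y ∈ YS n M L) (i : Fin n) (g : L) : 0 ≤ ub y i g :=
  Finset.sum_nonneg fun t _ => mul_nonneg (hy.1 t) (Nat.cast_nonneg _)

theorem active_of_supp {y : Fn n M L} (hy : y ∈ YS n M L) {t : Tup n M L} (ht : y t ≠ 0) :
    0 < ph (t 0) y := by
  classical
  have h1 : y t ≤ ph (t 0) y := by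
    unfold ph
    refine le_trans (le_of_eq ?_) (Finset.single_le_sum (a := t) ?_ (Finset.mem_univ t))
    · rw [if_pos rfl]
    · intro t' _
      split_ifs
      · exact hy.1 t'
      · exact le_refl _
  have h2 : 0 < y t := lt_of_le_of_ne (hy.1 t) (Ne.symm ht)
  linarith

theorem ub_bounds {y : Fn n M L} (hy : y ∈ YS n M L) {b : VT n M L} (hb : 0 < ph b y)
    (i : Fin n) (g : L) : ub y i g ≤ (b.1 i g : ℝ) + 2 ∧ (b.1 i g : ℝ) ≤ ub y i g + 2 := by
  have hc : ∀ t, y t ≠ 0 → ((t 0).1 i g : ℝ) ≤ (b.1 i g : ℝ) + 2 ∧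
      (b.1 i g : ℝ) ≤ ((t 0).1 i g : ℝ) + 2 := by
    intro t ht
    have := active_close hy hb (active_of_supp hy ht) i g
    constructor
    · exact_mod_cast this.1
    · exact_mod_cast this.2
  constructor
  · have : ub y i g ≤ ∑ t, y t * ((b.1 i g : ℝ) + 2) := by
      apply Finset.sum_le_sum
      intro t _
      by_cases ht : y t = 0
      · rw [ht]; simp
      · exact mul_le_mul_of_nonneg_left (hc t ht).1 (hy.1 t)
    rwa [← Finset.sum_mul, hy.2.1, one_mul] at this
  · have : ∑ t, y t * ((b.1 i g : ℝ) - 2) ≤ ub y i g := by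
      apply Finset.sum_le_sum
      intro t _
      by_cases ht : y t = 0
      · rw [ht]; simp
      · have := (hc t ht).2
        exact mul_le_mul_of_nonneg_left (by linarith) (hy.1 t)
    rw [← Finset.sum_mul, hy.2.1, one_mul] at this
    linarith

theorem ub_zero {y : Fn n M L} (hy : y ∈ YS n M L) {b : VT n M L} (hb : 0 < ph b y)
    {i : Fin n} {g h : L} (hgh : h ≠ g) (h3 : 3 ≤ b.1 i g) : ub y i h = 0 := by
  apply Finset.sum_eq_zero
  intro t _
  by_cases ht : y t = 0
  · rw [ht, zero_mul]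
  · have h1 := active_close hy hb (active_of_supp hy ht) i g
    have h2 := (t 0).2.2.1 i h g hgh
    have h4 : (t 0).1 i h = 0 := by omega
    rw [h4]; simp

theorem uu_close {y : Fn n M L} (hy : y ∈ YS n M L) {b : VT n M L} (hb : 0 < ph b y)
    (i : Fin n) (g : L) : uu y i g ≤ (b.1 i g : ℝ) + 2 ∧ (b.1 i g : ℝ) ≤ uu y i g + 2 := by
  classical
  obtain ⟨h1, h2⟩ := ub_bounds hy hb i g
  have hs : ub y i g ≤ ∑ h, ub y i h :=
    Finset.single_le_sum (fun h _ => ub_nonneg hy i h) (Finset.mem_univ g)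
  have h0 := ub_nonneg hy i g
  constructor
  · unfold uu rr
    apply max_le
    · have : (0 : ℝ) ≤ (b.1 i g : ℝ) := Nat.cast_nonneg _
      linarith
    · linarith
  · by_cases h3 : 3 ≤ b.1 i g
    · have h4 : ∑ h, ub y i h = ub y i g := by
        apply Finset.sum_eq_single
        · intro h _ hh; exact ub_zero hy hb hh h3
        · intro h; exact absurd (Finset.mem_univ _) h
      have : ub y i g ≤ uu y i g := by
        unfold uu rr
        rw [h4]
        exact le_trans (by linarith) (le_max_right _ _)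
      linarith
    · have h5 : (b.1 i g : ℝ) ≤ 2 := by
        have : b.1 i g ≤ 2 := by omega
        exact_mod_cast this
      have h6 : 0 ≤ uu y i g := le_max_left _ _
      linarith

theorem rr_star {x : Fin n → L → ℝ} (hx : ∀ i g, 0 ≤ x i g) : IsStar (rr x) := by
  classical
  refine ⟨fun i g => le_max_left _ _, fun i g h hgh => ?_⟩
  by_contra hcon
  rw [not_or] at hcon
  have h1 : 0 < 2 * x i g - ∑ h, x i h := by
    by_contra hc
    exact hcon.1 (max_eq_left (not_lt.mp hc))
  have h2 : 0 < 2 * x i h - ∑ h, x i h := by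
    by_contra hc
    exact hcon.2 (max_eq_left (not_lt.mp hc))
  have h3 : x i g + x i h ≤ ∑ h, x i h := by
    rw [← Finset.sum_pair hgh]
    exact Finset.sum_le_sum_of_subset_of_nonneg (Finset.subset_univ _) (fun k _ _ => hx i k)
  linarith

theorem exists_active {y : Fn n M L} (hy : y ∈ YS n M L) : ∃ b, 0 < ph b y := by
  have : ∃ t, y t ≠ 0 := by
    by_contra hc
    simp only [not_exists, not_not] at hc
    have h1 := hy.2.1
    rw [Finset.sum_eq_zero (fun t _ => hc t)] at h1
    exact zero_ne_one h1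
  obtain ⟨t, ht⟩ := this
  exact ⟨_, active_of_supp hy ht⟩

theorem uu_TT {y : Fn n M L} (hy : y ∈ YS n M L) : uu y ∈ TT n M L := by
  refine ⟨rr_star (ub_nonneg hy), ?_⟩
  obtain ⟨b, hb⟩ := exists_active hy
  obtain ⟨i, g, hig⟩ := b.2.2.2
  refine ⟨i, g, ?_⟩
  have := (uu_close hy hb i g).2
  have h2 : (M : ℝ) ≤ (b.1 i g : ℝ) := by exact_mod_cast hig
  linarith

/-! ### the section -/

noncomputable def pp (M : ℕ) (w : Fin n → L → ℝ) : Fin n → L → ℝ :=
  fun i g => min (2 * (M : ℝ)) ((1 + 2 / ((M : ℝ) - 2)) * w i g)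

theorem pp_cont : Continuous (pp M : (Fin n → L → ℝ) → Fin n → L → ℝ) := by
  unfold pp; fun_prop

def cst (z : Fin n → L → ℕ) : Fin n → L → ℝ := fun i g => (z i g : ℝ)

noncomputable def Wz (z : VT n M L) (w : Fin n → L → ℝ) : ℝ := max 0 (1 - ‖pp M w - cst z.1‖)

theorem Wz_cont (z : VT n M L) : Continuous (Wz z : (Fin n → L → ℝ) → ℝ) := by
  unfold Wz
  have : Continuous (pp M : (Fin n → L → ℝ) → Fin n → L → ℝ) := pp_cont
  fun_prop

noncomputable def Tot (M : ℕ) (w : Fin n → L → ℝ) : ℝ := ∑ z : VT n M L, Wz z w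

open Classical in
noncomputable def ss (w : Fin n → L → ℝ) : Fn n M L :=
  fun t => (Tot M w)⁻¹ * ∑ z : VT n M L, if (fun _ => z) = t then Wz z w else 0

theorem Wz_nonneg (z : VT n M L) (w : Fin n → L → ℝ) : 0 ≤ Wz z w := le_max_left _ _

theorem Wz_pos {z : VT n M L} {w : Fin n → L → ℝ} (h : Wz z w ≠ 0) (i : Fin n) (g : L) :
    pp M w i g - z.1 i g < 1 ∧ (z.1 i g : ℝ) - pp M w i g < 1 := by
  have h1 : ‖pp M w - cst z.1‖ < 1 := by
    by_contra hc
    apply h
    unfold Wz
    apply max_eq_left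
    linarith [not_lt.mp hc]
  have h2 := (pi_norm_lt_iff one_pos).mp ((pi_norm_lt_iff one_pos).mp h1 i) g
  have h3 := abs_lt.mp h2
  simp only [Pi.sub_apply, cst] at h3
  constructor
  · exact h3.2
  · linarith [h3.1]

theorem Tot_pos (hM : 3 ≤ M) {w : Fin n → L → ℝ} (hw : w ∈ TT n M L) : 0 < Tot M w := by
  classical
  have hM' : (3 : ℝ) ≤ (M : ℝ) := by exact_mod_cast hM
  have hk : 0 < 2 / ((M : ℝ) - 2) := div_pos two_pos (by linarith)
  have hp0 : ∀ i g, 0 ≤ pp M w i g := by
    intro i g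
    unfold pp
    apply le_min
    · linarith
    · exact mul_nonneg (by linarith) (hw.1.1 i g)
  let z : Fin n → L → ℕ := fun i g => ⌊pp M w i g⌋₊
  have hz : isV n M L z := by
    refine ⟨fun i g => ?_, fun i g h hgh => ?_, ?_⟩
    · apply Nat.floor_le_of_le
      unfold pp
      push_cast
      exact min_le_left _ _
    · have key : ∀ g, w i g = 0 → z i g = 0 := by
        intro g hg
        show ⌊pp M w i g⌋₊ = 0
        unfold pp
        rw [hg, mul_zero, min_eq_right (by linarith)]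
        simp
      rcases hw.1.2 i g h hgh with h1 | h1
      · left; exact key g h1
      · right; exact key h h1
    · obtain ⟨i, g, hig⟩ := hw.2
      refine ⟨i, g, ?_⟩
      apply Nat.le_floor
      unfold pp
      apply le_min
      · linarith
      · have h1 : (1 + 2 / ((M : ℝ) - 2)) * ((M : ℝ) - 2) = M := by
          have : (M : ℝ) - 2 ≠ 0 := by linarith
          field_simp
          ring
        calc (M : ℝ) = (1 + 2 / ((M : ℝ) - 2)) * ((M : ℝ) - 2) := h1.symm
          _ ≤ (1 + 2 / ((M : ℝ) - 2)) * w i g := mul_le_mul_of_nonneg_left hig (by linarith)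
  have hpos : 0 < Wz (⟨z, hz⟩ : VT n M L) w := by
    unfold Wz
    rw [lt_max_iff]
    right
    rw [sub_pos, pi_norm_lt_iff one_pos]
    intro i
    rw [pi_norm_lt_iff one_pos]
    intro g
    simp only [Pi.sub_apply, cst, Real.norm_eq_abs]
    rw [abs_lt]
    have h1 := Nat.floor_le (hp0 i g)
    have h2 := Nat.lt_floor_add_one (pp M w i g)
    constructor
    · show -1 < pp M w i g - ((⌊pp M w i g⌋₊ : ℕ) : ℝ)
      linarith
    · show pp M w i g - ((⌊pp M w i g⌋₊ : ℕ) : ℝ) < 1
      linarith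
  exact lt_of_lt_of_le hpos (Finset.single_le_sum (fun z _ => Wz_nonneg z w) (Finset.mem_univ _))

theorem ss_supp {w : Fin n → L → ℝ} {t : Tup n M L} (h : ss w t ≠ 0) :
    ∃ z : VT n M L, (fun _ => z) = t ∧ Wz z w ≠ 0 := by
  classical
  unfold ss at h
  have h1 := right_ne_zero_of_mul h
  obtain ⟨z, _, hz⟩ := Finset.exists_ne_zero_of_sum_ne_zero h1
  by_cases hc : (fun _ => z) = t
  · rw [if_pos hc] at hz; exact ⟨z, hc, hz⟩
  · rw [if_neg hc] at hz; exact absurd rfl hz

theorem ss_mem (hM : 3 ≤ M) {w : Fin n → L → ℝ} (hw : w ∈ TT n M L) : (ss w : Fn n M L) ∈ YS n M L := by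
  classical
  have hT := Tot_pos hM hw
  refine ⟨fun t => ?_, ?_, ?_⟩
  · unfold ss
    apply mul_nonneg (inv_nonneg.mpr hT.le)
    apply Finset.sum_nonneg
    intro z _
    split_ifs
    · exact Wz_nonneg z w
    · exact le_refl _
  · unfold ss
    rw [← Finset.mul_sum, Finset.sum_comm]
    have : ∑ z : VT n M L, ∑ t : Tup n M L, (if (fun _ => z) = t then Wz z w else 0) = Tot M w := by
      unfold Tot
      apply Finset.sum_congr rfl
      intro z _
      simp
    rw [this, inv_mul_cancel₀ hT.ne']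
  · intro t t' ht ht' i j _
    obtain ⟨z, rfl, hz⟩ := ss_supp ht
    obtain ⟨z', rfl, hz'⟩ := ss_supp ht'
    intro k g
    obtain ⟨h1, h2⟩ := Wz_pos hz k g
    obtain ⟨h3, h4⟩ := Wz_pos hz' k g
    constructor
    · have : (z.1 k g : ℝ) < (z'.1 k g : ℝ) + 2 := by linarith
      have h5 : z.1 k g < z'.1 k g + 2 := by exact_mod_cast this
      show z.1 k g ≤ z'.1 k g + 1
      omega
    · have : (z'.1 k g : ℝ) < (z.1 k g : ℝ) + 2 := by linarith
      have h5 : z'.1 k g < z.1 k g + 2 := by exact_mod_cast this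
      show z'.1 k g ≤ z.1 k g + 1
      omega

theorem ss_cont (hM : 3 ≤ M) : ContinuousOn (ss : (Fin n → L → ℝ) → Fn n M L) (TT n M L) := by
  classical
  unfold ss
  apply continuousOn_pi.mpr
  intro t
  apply ContinuousOn.mul
  · apply ContinuousOn.inv₀
    · apply Continuous.continuousOn
      unfold Tot
      exact continuous_finsetSum _ fun z _ => Wz_cont z
    · intro w hw; exact (Tot_pos hM hw).ne'
  · apply Continuous.continuousOn
    apply continuous_finsetSum
    intro z _
    by_cases hc : (fun _ => z) = t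
    · simp only [if_pos hc]; exact Wz_cont z
    · simp only [if_neg hc]; exact continuous_const

noncomputable def G0 (hM : 3 ≤ M) : C(YS n M L, YS n M L) :=
  { toFun := fun y => ⟨ss (uu y.1), ss_mem hM (uu_TT y.2)⟩
    continuous_toFun := by
      apply Continuous.subtype_mk
      have h1 : Continuous (fun y : YS n M L => uu y.1) := uu_cont.comp continuous_subtype_val
      exact (ss_cont hM).comp_continuous h1 (fun y => uu_TT y.2) }

theorem G0_inv (hM : 8 ≤ M) : Inv 9 (G0 (n := n) (M := M) (L := L) (by omega)) := by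
  intro y b hb t ht j
  have ht' : ss (uu y.1) t ≠ 0 := ht
  obtain ⟨z, rfl, hz⟩ := ss_supp ht'
  intro i g
  obtain ⟨h1, h2⟩ := Wz_pos hz i g
  obtain ⟨h3, h4⟩ := uu_close y.2 hb i g
  have hM' : (8 : ℝ) ≤ (M : ℝ) := by exact_mod_cast hM
  have hb2 : (b.1 i g : ℝ) ≤ 2 * (M : ℝ) := by exact_mod_cast b.2.1 i g
  have hk : 0 < 2 / ((M : ℝ) - 2) := div_pos two_pos (by linarith)
  have hu0 : 0 ≤ uu y.1 i g := (uu_TT y.2).1.1 i g
  have h5 : pp M (uu y.1) i g ≤ uu y.1 i g + 6 := by
    unfold pp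
    refine (min_le_right _ _).trans ?_
    have h6 : 2 / ((M : ℝ) - 2) * uu y.1 i g ≤ 6 := by
      rw [div_mul_eq_mul_div, div_le_iff₀ (by linarith)]
      linarith
    linarith
  have h7 : uu y.1 i g ≤ pp M (uu y.1) i g + 2 := by
    unfold pp
    have : uu y.1 i g - 2 ≤ min (2 * (M : ℝ)) ((1 + 2 / ((M : ℝ) - 2)) * uu y.1 i g) := by
      apply le_min
      · linarith
      · have := mul_nonneg hk.le hu0
        linarith
    linarith
  constructor
  · have : (z.1 i g : ℝ) < (b.1 i g : ℝ) + 9 := by linarith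
    have h8 : z.1 i g < b.1 i g + 9 := by exact_mod_cast this
    show z.1 i g ≤ b.1 i g + 9
    omega
  · have : (b.1 i g : ℝ) < (z.1 i g : ℝ) + 9 := by linarith
    have h8 : b.1 i g < z.1 i g + 9 := by exact_mod_cast this
    show b.1 i g ≤ z.1 i g + 9
    omega

theorem id_inv : Inv 9 (ContinuousMap.id (YS n M L)) := by
  intro y b hb t ht j
  exact near_mono (supp_close y.2 hb ht j) (by norm_num)

theorem id_homotopic [Fintype (Col n L)] (hM : 2 * (9 + 2 * Fintype.card (Col n L)) + 2 ≤ M) :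
    (G0 (n := n) (M := M) (L := L) (by omega)).Homotopic (ContinuousMap.id (YS n M L)) :=
  homotopic_of_inv hM _ _ (G0_inv (by omega)) id_inv

end Pool.Agent.Helper9.AFL
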