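import Pool.Agent.Helper9.AFLFrob
import Pool.Agent.Helper9.AFLGroup2

set_option autoImplicit false
set_option maxHeartbeats 1000000

namespace Pool.Agent.Helper9.AFL

open Equiv

theorem al_inj {q d : ℕ} {mg e : Fin q → Fin q → ℕ} (hd : 0 < d) (hmg : ∀ t t', 1 ≤ mg t t')
    (h : ∀ t i j, i ≠ j → t ≠ i → t ≠ j → ¬ (mg t i = mg t j ∧ e t i % d = e t j % d)) :
    ∀ t i j, i ≠ j → al q d mg e t i ≠ al q d mg e t j := by
  intro t i j hij heq
  have hzt : IsPrimitiveRoot (zt d) d := by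
    unfold zt
    exact Complex.isPrimitiveRoot_exp d hd.ne'
  have hzt0 : zt d ≠ 0 := hzt.ne_zero hd.ne'
  have hn : ‖zt d‖ = 1 := Complex.norm_eq_one_of_pow_eq_one hzt.pow_eq_one hd.ne'
  have hnz : ∀ i, t ≠ i → al q d mg e t i ≠ 0 := by
    intro i hi
    unfold al
    rw [if_neg hi]
    have := hmg t i
    refine mul_ne_zero ?_ (pow_ne_zero _ hzt0)
    exact_mod_cast (by omega : mg t i ≠ 0)
  have h0 : al q d mg e t t = 0 := by simp [al]
  by_cases h1 : t = i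
  · subst h1
    rw [h0] at heq
    exact hnz j hij heq.symm
  by_cases h2 : t = j
  · subst h2
    rw [h0] at heq
    exact hnz i h1 heq
  apply h t i j hij h1 h2
  unfold al at heq
  rw [if_neg h1, if_neg h2] at heq
  have h3 := congrArg norm heq
  simp only [norm_mul, norm_pow, hn, one_pow, mul_one, Complex.norm_natCast] at h3
  have h4 : mg t i = mg t j := by exact_mod_cast h3
  refine ⟨h4, ?_⟩
  rw [h4] at heq
  have h5 : (mg t j : ℂ) ≠ 0 := by
    have := hmg t j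
    exact_mod_cast (by omega : mg t j ≠ 0)
  have h6 := mul_left_cancel₀ h5 heq
  have h7 : zt d ^ (e t i % d) = zt d ^ (e t j % d) := by
    have e1 := pow_mod_orderOf (zt d) (e t i)
    have e2 := pow_mod_orderOf (zt d) (e t j)
    rw [← hzt.eq_orderOf] at e1 e2
    rw [e1, e2, h6]
  exact hzt.pow_inj (Nat.mod_lt _ hd) (Nat.mod_lt _ hd) h7

def eS : Fin 3 → Fin 3 → ℕ := ![![0,0,1],![1,0,0],![0,1,0]]
def mS : Fin 3 → Fin 3 → ℕ := fun _ _ => 1
def BS : Fin 3 → Finset (Fin 6) := ![{0,3},{1,4},{2,5}]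
def pS1 : Perm (Fin 3) := swap 0 1 * swap 1 2
def pS2 : Perm (Fin 3) := swap 1 2

theorem good_S : Good (kk1 1) (kk2 1) := by
  refine frob_good (q := 3) (d := 2) (B := BS) (mg := mS) (e := eS) (by norm_num) (by norm_num)
    (by decide +kernel) (by decide +kernel) (by norm_num)
    (al_inj (by norm_num) (by decide +kernel) (by decide +kernel)) pS1 pS2 0 1
    (by decide +kernel) (by decide +kernel) (by decide +kernel) (by decide +kernel)
    (by decide +kernel) (by decide +kernel) (Or.inl (by decide +kernel)) (Or.inr (by decide))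

def eA : Fin 4 → Fin 4 → ℕ := ![![0,0,1,2],![0,0,2,1],![1,2,0,0],![2,1,0,0]]
def mA : Fin 4 → Fin 4 → ℕ := fun _ _ => 1
def BA : Fin 4 → Finset (Fin 6) := ![{0,1,2},{0,3,4},{1,4,5},{2,3,5}]
def pA1 : Perm (Fin 4) := swap 0 1 * swap 2 3
/-- (0 2 3 1) table: 1 to 2, 2 to 3, 3 to 1 -/
def pA2 : Perm (Fin 4) := swap 1 2 * swap 2 3

theorem good_A : Good (kk1 2) (kk2 2) := by
  refine frob_good (q := 4) (d := 3) (B := BA) (mg := mA) (e := eA) (by norm_num) (by norm_num)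
    (by decide +kernel) (by decide +kernel) (by norm_num)
    (al_inj (by norm_num) (by decide +kernel) (by decide +kernel)) pA1 pA2 0 1
    (by decide +kernel) (by decide +kernel) (by decide +kernel) (by decide +kernel)
    (by decide +kernel) (by decide +kernel) (Or.inl (by decide +kernel)) (Or.inr (by decide))

def eF : Fin 9 → Fin 9 → ℕ := ![![0, 0, 2, 3, 0, 3, 1, 1, 2], ![2, 0, 0, 3, 3, 0, 2, 1, 1],
  ![0, 2, 0, 0, 3, 3, 1, 2, 1], ![1, 1, 2, 0, 0, 2, 3, 0, 3], ![2, 1, 1, 2, 0, 0, 3, 3, 0],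
  ![1, 2, 1, 0, 2, 0, 0, 3, 3], ![3, 0, 3, 1, 1, 2, 0, 0, 2], ![3, 3, 0, 2, 1, 1, 2, 0, 0],
  ![0, 3, 3, 1, 2, 1, 0, 2, 0]]
def mF : Fin 9 → Fin 9 → ℕ := ![![1, 1, 1, 1, 2, 2, 1, 2, 2], ![1, 1, 1, 2, 1, 2, 2, 1, 2],
  ![1, 1, 1, 2, 2, 1, 2, 2, 1], ![1, 2, 2, 1, 1, 1, 1, 2, 2], ![2, 1, 2, 1, 1, 1, 2, 1, 2],
  ![2, 2, 1, 1, 1, 1, 2, 2, 1], ![1, 2, 2, 1, 2, 2, 1, 1, 1], ![2, 1, 2, 2, 1, 2, 1, 1, 1],
  ![2, 2, 1, 2, 2, 1, 1, 1, 1]]
def BF : Fin 9 → Finset (Fin 6) := ![{0,3},{0,4},{0,5},{1,3},{1,4},{1,5},{2,3},{2,4},{2,5}]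
/-- table 4 5 3 7 8 6 1 2 0 : cycles (0 4 8)(1 5 6)(2 3 7) -/
def pF1 : Perm (Fin 9) := (swap 0 4 * swap 4 8) * ((swap 1 5 * swap 5 6) * (swap 2 3 * swap 3 7))
/-- table 3 0 6 4 1 7 5 2 8 : cycles (0 3 4 1)(2 6 5 7) -/
def pF2 : Perm (Fin 9) := (swap 0 3 * swap 3 4 * swap 4 1) * (swap 2 6 * swap 6 5 * swap 5 7)

theorem good_F : Good (kk1 3) (kk2 3) := by
  refine frob_good (q := 9) (d := 4) (B := BF) (mg := mF) (e := eF) (by norm_num) (by norm_num)
    (by decide +kernel) (by decide +kernel) (by norm_num)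
    (al_inj (by norm_num) (by decide +kernel) (by decide +kernel)) pF1 pF2 0 1
    (by decide +kernel) (by decide +kernel) (by decide +kernel) (by decide +kernel)
    (by decide +kernel) (by decide +kernel) (Or.inl (by decide +kernel)) (Or.inr (by decide))

end Pool.Agent.Helper9.AFL
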