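import Pool.Agent.Helper9.AWBase

set_option autoImplicit false
set_option linter.unusedSectionVars false
set_option linter.unusedSimpArgs false
set_option linter.unusedVariables false

namespace Pool.Agent.Helper9.AW

variable {K : Type*} [Field K]

variable (s : Scalars K)

theorem rel_first : gA s ^ 2 * gB s - s.β • (gA s * gB s * gA s) + gB s * gA s ^ 2 -
    s.γ • (gA s * gB s + gB s * gA s) - s.ρ • gB s = s.γs • gA s ^ 2 + s.ω • gA s + s.η • 1 := by
  have h := RingQuot.mkAlgHom_rel K (Rel.first (s := s) _ _ rfl rfl)
  simpa [gA, gB] using h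

theorem rel_second : gB s ^ 2 * gA s - s.β • (gB s * gA s * gB s) + gA s * gB s ^ 2 -
    s.γs • (gB s * gA s + gA s * gB s) - s.ρs • gA s = s.γ • gB s ^ 2 + s.ω • gB s + s.ηs • 1 := by
  have h := RingQuot.mkAlgHom_rel K (Rel.second (s := s) _ _ rfl rfl)
  simpa [gA, gB] using h

variable {s}

theorem aw_induction {C : AwAlg s → Prop} (hA : C (gA s)) (hB : C (gB s))
    (halg : ∀ r : K, C (algebraMap K (AwAlg s) r)) (hadd : ∀ x y, C x → C y → C (x + y))
    (hmul : ∀ x y, C x → C y → C (x * y)) (a : AwAlg s) : C a := by
  obtain ⟨y, rfl⟩ := RingQuot.mkAlgHom_surjective K (Rel s) a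
  induction y using FreeAlgebra.induction with
  | grade0 r => rw [AlgHom.commutes]; exact halg r
  | grade1 x =>
    have : x = 0 ∨ x = 1 := by omega
    rcases this with h | h
    · rw [h]; exact hA
    · rw [h]; exact hB
  | mul a b ha hb => rw [map_mul]; exact hmul _ _ ha hb
  | add a b ha hb => rw [map_add]; exact hadd _ _ ha hb

section mod

variable (s) (V : Type*) [AddCommGroup V] [Module K V] [Module (AwAlg s) V]
  [IsScalarTower K (AwAlg s) V]

/-- the action of an element as a linear operator -/
noncomputable def act (a : AwAlg s) : V →ₗ[K] V where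
  toFun x := a • x
  map_add' x y := smul_add a x y
  map_smul' r x := by
    rw [RingHom.id_apply, algebra_compatible_smul (AwAlg s) r x, algebra_compatible_smul (AwAlg s) r (a • x),
      smul_smul, smul_smul, Algebra.commutes]

variable {V}

theorem act_apply (a : AwAlg s) (x : V) : act s V a x = a • x := rfl

theorem isAW_act : IsAW s (act s V (gA s)) (act s V (gB s)) := by
  constructor
  · intro x
    have h := congrArg (fun a : AwAlg s => a • x) (rel_first s)
    simp only [sub_smul, add_smul, pow_two, mul_smul, smul_assoc, one_smul] at h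
    simp only [act_apply]
    exact h
  · intro x
    have h := congrArg (fun a : AwAlg s => a • x) (rel_second s)
    simp only [sub_smul, add_smul, pow_two, mul_smul, smul_assoc, one_smul] at h
    simp only [act_apply]
    exact h

theorem simple_iff : IsSimpleModule (AwAlg s) V ↔ Irr (act s V (gA s)) (act s V (gB s)) := by
  constructor
  · intro h
    have hnt : Nontrivial V := IsSimpleModule.nontrivial (AwAlg s) V
    refine ⟨exists_ne 0, fun U hU => ?_⟩
    have key : ∀ (a : AwAlg s), ∀ x ∈ U, a • x ∈ U := by
      intro a
      induction a using aw_induction with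
      | hA => exact hU.1
      | hB => exact hU.2
      | halg r =>
        intro x hx
        rw [← algebra_compatible_smul]
        exact U.smul_mem r hx
      | hadd a b ha hb =>
        intro x hx
        rw [add_smul]
        exact U.add_mem (ha x hx) (hb x hx)
      | hmul a b ha hb =>
        intro x hx
        rw [mul_smul]
        exact ha _ (hb x hx)
    let W : Submodule (AwAlg s) V :=
      { carrier := U
        add_mem' := fun ha hb => U.add_mem ha hb
        zero_mem' := U.zero_mem
        smul_mem' := fun a x hx => key a x hx }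
    rcases eq_bot_or_eq_top W with h1 | h1
    · left
      rw [eq_bot_iff]
      intro x hx
      have : x ∈ W := hx
      rw [h1] at this
      simpa using this
    · right
      rw [eq_top_iff]
      intro x _
      have : x ∈ W := by rw [h1]; trivial
      exact this
  · rintro ⟨⟨x0, hx0⟩, h⟩
    have hnt : Nontrivial V := ⟨x0, 0, hx0⟩
    refine (isSimpleModule_iff (AwAlg s) V).mpr ⟨fun W => ?_⟩
    rcases h (W.restrictScalars K) ⟨fun x hx => W.smul_mem _ hx, fun x hx => W.smul_mem _ hx⟩ with
      h1 | h1
    · left
      rw [eq_bot_iff]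
      intro x hx
      have : x ∈ W.restrictScalars K := hx
      rw [h1] at this
      simpa using this
    · right
      rw [eq_top_iff]
      intro x _
      have : x ∈ W.restrictScalars K := by rw [h1]; trivial
      exact this

theorem iso_iff {V' : Type*} [AddCommGroup V'] [Module K V'] [Module (AwAlg s) V']
    [IsScalarTower K (AwAlg s) V'] : Nonempty (V ≃ₗ[AwAlg s] V') ↔
      ∃ f : V →ₗ[K] V', Function.Bijective f ∧
        (∀ x, f (act s V (gA s) x) = act s V' (gA s) (f x)) ∧
        ∀ x, f (act s V (gB s) x) = act s V' (gB s) (f x) := by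
  constructor
  · rintro ⟨e⟩
    refine ⟨(e.restrictScalars K : V →ₗ[K] V'), e.bijective, fun x => ?_, fun x => ?_⟩
    · exact e.map_smul _ x
    · exact e.map_smul _ x
  · rintro ⟨f, hf, fA, fB⟩
    have key : ∀ (a : AwAlg s), ∀ x, f (a • x) = a • f x := by
      intro a
      induction a using aw_induction with
      | hA => exact fA
      | hB => exact fB
      | halg r =>
        intro x
        rw [← algebra_compatible_smul, ← algebra_compatible_smul, map_smul]
      | hadd a b ha hb =>
        intro x
        rw [add_smul, add_smul, map_add, ha, hb]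
      | hmul a b ha hb =>
        intro x
        rw [mul_smul, mul_smul, ha, hb]
    let g : V →ₗ[AwAlg s] V' :=
      { toFun := f
        map_add' := f.map_add
        map_smul' := key }
    exact ⟨LinearEquiv.ofBijective g hf⟩

end mod

/-- every pair satisfying the relations comes from a module. -/
theorem exists_module (s : Scalars K) {V : Type*} [AddCommGroup V] [Module K V]
    (A B : V →ₗ[K] V) (h : IsAW s A B) : ∃ (_ : Module (AwAlg s) V)
      (_ : IsScalarTower K (AwAlg s) V), (∀ x : V, gA s • x = A x) ∧ ∀ x : V, gB s • x = B x := by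
  let f : FreeAlgebra K (Fin 2) →ₐ[K] Module.End K V := FreeAlgebra.lift K ![A, B]
  have f0 : f (FreeAlgebra.ι K 0) = A := by simp [f]
  have f1 : f (FreeAlgebra.ι K 1) = B := by simp [f]
  have hf : ∀ ⦃x y⦄, Rel s x y → f x = f y := by
    rintro _ _ (⟨a, b, ha, hb⟩ | ⟨a, b, ha, hb⟩)
    · subst ha hb
      simp only [map_sub, map_add, map_mul, map_pow, map_smul, map_one, f0, f1]
      ext x
      exact h.1 x
    · subst ha hb
      simp only [map_sub, map_add, map_mul, map_pow, map_smul, map_one, f0, f1]
      ext x
      exact h.2 x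
  let φ : AwAlg s →ₐ[K] Module.End K V := RingQuot.liftAlgHom K ⟨f, hf⟩
  have φA : φ (gA s) = A := by
    rw [gA, RingQuot.liftAlgHom_mkAlgHom_apply]
    exact f0
  have φB : φ (gB s) = B := by
    rw [gB, RingQuot.liftAlgHom_mkAlgHom_apply]
    exact f1
  letI inst : Module (AwAlg s) V := Module.compHom V φ.toRingHom
  have hsm : ∀ (a : AwAlg s) (x : V), a • x = φ a x := fun _ _ => rfl
  refine ⟨inst, ⟨fun r a x => ?_⟩, fun x => ?_, fun x => ?_⟩
  · rw [hsm, hsm, map_smul]
    rfl
  · rw [hsm, φA]
  · rw [hsm, φB]

end Pool.Agent.Helper9.AW
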