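import Pool.Agent.Helper9.AWDefs

/-! Operator pairs in tridiagonal-diagonal form. -/

set_option autoImplicit false

namespace Pool.Agent.Helper9.AW

open Polynomial

variable {K : Type*} [Field K]

/-- the two Askey-Wilson relations for a pair of operators. -/
def IsAW {V : Type*} [AddCommGroup V] [Module K V] (s : Scalars K) (A B : V →ₗ[K] V) : Prop :=
  (∀ x, A (A (B x)) - s.β • A (B (A x)) + B (A (A x)) - s.γ • (A (B x) + B (A x)) - s.ρ • B x =
    s.γs • A (A x) + s.ω • A x + s.η • x) ∧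
  (∀ x, B (B (A x)) - s.β • B (A (B x)) + A (B (B x)) - s.γs • (B (A x) + A (B x)) - s.ρs • A x =
    s.γ • B (B x) + s.ω • B x + s.ηs • x)

/-- `v_0, v_1, ...` is a basis of `V` of size `D.N` (and `v_j = 0` for `j ≥ D.N`), on which `A` acts
by the tridiagonal and `B` by the diagonal matrix of the array. -/
structure Tri {V : Type*} [AddCommGroup V] [Module K V] (D : Arr K) (A B : V →ₗ[K] V)
    (v : ℕ → V) : Prop where
  hw : ∀ j, D.w j ≠ 0 ↔ (1 ≤ j ∧ (j : ℕ∞) < D.N)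
  pos : 1 ≤ D.N
  vz : ∀ j : ℕ, D.N ≤ j → v j = 0
  ind : LinearIndependent K (fun j : {j : ℕ // (j : ℕ∞) < D.N} => v j)
  spn : ⊤ ≤ Submodule.span K (Set.range v)
  hB : ∀ j, B (v j) = D.θ j • v j
  hA : ∀ j, A (v j) = v (j + 1) + D.a j • v j + D.w j • v (j - 1)

/-- invariant subspace -/
def Inv {V : Type*} [AddCommGroup V] [Module K V] (A B : V →ₗ[K] V) (U : Submodule K V) : Prop :=
  (∀ x ∈ U, A x ∈ U) ∧ (∀ x ∈ U, B x ∈ U)

/-- irreducible pair -/
def Irr {V : Type*} [AddCommGroup V] [Module K V] (A B : V →ₗ[K] V) : Prop :=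
  (∃ x : V, x ≠ 0) ∧ ∀ U : Submodule K V, Inv A B U → U = ⊥ ∨ U = ⊤

end Pool.Agent.Helper9.AW
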