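import Pool.Agent.Helper9.AWEnd

set_option autoImplicit false
set_option linter.unusedSectionVars false
set_option linter.unusedSimpArgs false
set_option linter.unusedVariables false

namespace Pool.Agent.Helper9.AW

open Polynomial

variable {K : Type*} [Field K] {D : Arr K} {s : Scalars K} {V : Type*} [AddCommGroup V]
  [Module K V] {A B : V →ₗ[K] V} {v : ℕ → V}

/-- the Casimir operator -/
def casimir (s : Scalars K) (A B : V →ₗ[K] V) : V →ₗ[K] V :=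
  s.β • (B ∘ₗ A ∘ₗ A ∘ₗ B) - B ∘ₗ A ∘ₗ B ∘ₗ A - A ∘ₗ B ∘ₗ A ∘ₗ B +
    s.γs • (A ∘ₗ B ∘ₗ A + B ∘ₗ A ∘ₗ A + A ∘ₗ A ∘ₗ B) + (s.β * s.ρs - s.γs ^ 2) • (A ∘ₗ A) +
    s.γ • (B ∘ₗ A ∘ₗ B) + s.ω • (A ∘ₗ B + B ∘ₗ A) +
    ((1 + s.β) * s.ηs + s.γ * s.ρs - s.ω * s.γs) • A + s.η • B

theorem casimir_apply (x : V) : casimir s A B x =
  s.β • B (A (A (B x))) - B (A (B (A x))) - A (B (A (B x))) +
    s.γs • (A (B (A x)) + B (A (A x)) + A (A (B x))) + (s.β * s.ρs - s.γs ^ 2) • A (A x) +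
    s.γ • B (A (B x)) + s.ω • (A (B x) + B (A x)) +
    ((1 + s.β) * s.ηs + s.γ * s.ρs - s.ω * s.γs) • A x + s.η • B x := rfl

theorem casimir_comm (h : IsAW s A B) (x : V) :
    casimir s A B (A x) = A (casimir s A B x) := by
  have h1 := congrArg (fun z => B (A z)) (h.1 x)
  have h2 := h.1 (A (B x))
  simp only [casimir_apply, map_add, map_sub, map_smul] at h1 h2 ⊢
  linear_combination (norm := module) h2 - h1

theorem casimir_v0 (T : Tri D A B v) (G : Good s D) : casimir s A B (v 0) = D.κ s • v 0 := by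
  have e2 := G.e2 0 G.zero_lt
  have e2' := G.e2 1 G.one_lt
  have e4 := G.e4 0 G.one_lt
  have e5 := G.e5 0 G.zero_lt
  have hP := G.p01
  have hz := G.hrec 0
  have hp : D.pre s 0 = s.β * D.θ 0 + s.γs - D.θ 1 := rfl
  have hp1 : D.pre s 1 = D.θ 0 := rfl
  simp only [zero_add, show 0 - 1 = 0 from rfl, show 1 + 1 = 2 from rfl] at e2 e2' e4 e5 hz
  rw [G.w_zero] at e5
  rw [hp1] at e2'
  simp only [Scalars.R] at e2 e2'
  have off : D.a 0 * (D.θ 0 - D.pre s 0) * D.θ 1 + D.a 1 * (D.θ 1 - D.θ 2) * D.θ 0 =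
      s.γ * D.θ 0 * D.θ 1 - s.ηs := by
    by_cases h : D.θ 0 = D.θ 1
    · rw [h] at e2 e4 ⊢
      linear_combination D.θ 1 * e4 - e2
    · apply mul_left_cancel₀ (sub_ne_zero.mpr h)
      linear_combination D.θ 1 * e2 - D.θ 0 * e2'
  rw [hp] at e2 e4 e5 off
  rw [hz] at e4 e5 off e2'
  simp only [Scalars.P] at hP
  have s2 : s.β * D.θ 0 * D.θ 2 - D.θ 1 * D.θ 2 - D.θ 0 * D.θ 1 +
      s.γs * (D.θ 0 + D.θ 1 + D.θ 2) + (s.β * s.ρs - s.γs ^ 2) = 0 := by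
    rw [hz]
    linear_combination -s.β * hP
  have s1 : (D.a 0 + D.a 1) * (s.β * D.θ 0 * D.θ 1 + s.γs * (D.θ 0 + D.θ 1) +
      (s.β * s.ρs - s.γs ^ 2)) - (D.θ 0 + D.θ 1 - s.γs) * (D.θ 1 * D.a 1 + D.a 0 * D.θ 0) +
      s.γ * D.θ 0 * D.θ 1 + s.ω * (D.θ 0 + D.θ 1) +
      ((1 + s.β) * s.ηs + s.γ * s.ρs - s.ω * s.γs) = 0 := by
    linear_combination (1 + s.β) * off - (D.θ 0 + D.θ 1 - s.γs) * e4 -
      (s.γ + s.β * (D.a 0 + D.a 1)) * hP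
  have s0 : s.β * D.θ 0 ^ 2 * (D.a 0 ^ 2 + D.w 1) -
      2 * D.θ 0 * (D.θ 1 * D.w 1 + D.a 0 ^ 2 * D.θ 0) +
      s.γs * ((D.θ 1 * D.w 1 + D.a 0 ^ 2 * D.θ 0) + 2 * D.θ 0 * (D.a 0 ^ 2 + D.w 1)) +
      (s.β * s.ρs - s.γs ^ 2) * (D.a 0 ^ 2 + D.w 1) + s.γ * D.a 0 * D.θ 0 ^ 2 +
      2 * s.ω * D.a 0 * D.θ 0 + ((1 + s.β) * s.ηs + s.γ * s.ρs - s.ω * s.γs) * D.a 0 +
      s.η * D.θ 0 - D.κ s = 0 := by
    simp only [Arr.κ]
    rw [hp]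
    linear_combination (s.β * D.θ 0 + s.γs - D.θ 1) * e5 - (1 + s.β) * D.a 0 * e2 -
      (s.β * (D.a 0 ^ 2 + D.w 1) + s.γ * D.a 0) * hP
  have key : (s.β * D.θ 0 * D.θ 2 - D.θ 1 * D.θ 2 - D.θ 0 * D.θ 1 +
      s.γs * (D.θ 0 + D.θ 1 + D.θ 2) + (s.β * s.ρs - s.γs ^ 2)) • v 2 +
      ((D.a 0 + D.a 1) * (s.β * D.θ 0 * D.θ 1 + s.γs * (D.θ 0 + D.θ 1) +
      (s.β * s.ρs - s.γs ^ 2)) - (D.θ 0 + D.θ 1 - s.γs) * (D.θ 1 * D.a 1 + D.a 0 * D.θ 0) +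
      s.γ * D.θ 0 * D.θ 1 + s.ω * (D.θ 0 + D.θ 1) +
      ((1 + s.β) * s.ηs + s.γ * s.ρs - s.ω * s.γs)) • v 1 +
      (s.β * D.θ 0 ^ 2 * (D.a 0 ^ 2 + D.w 1) -
      2 * D.θ 0 * (D.θ 1 * D.w 1 + D.a 0 ^ 2 * D.θ 0) +
      s.γs * ((D.θ 1 * D.w 1 + D.a 0 ^ 2 * D.θ 0) + 2 * D.θ 0 * (D.a 0 ^ 2 + D.w 1)) +
      (s.β * s.ρs - s.γs ^ 2) * (D.a 0 ^ 2 + D.w 1) + s.γ * D.a 0 * D.θ 0 ^ 2 +
      2 * s.ω * D.a 0 * D.θ 0 + ((1 + s.β) * s.ηs + s.γ * s.ρs - s.ω * s.γs) * D.a 0 +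
      s.η * D.θ 0 - D.κ s) • v 0 = 0 := by
    rw [s2, s1, s0]
    simp
  have hA1 : A (v 1) = v 2 + D.a 1 • v 1 + D.w 1 • v 0 := T.A_succ 0
  rw [casimir_apply]
  simp only [T.hB, T.A_zero, hA1, map_add, map_smul]
  rw [← sub_eq_zero, ← key]
  module

theorem casimir_eq (T : Tri D A B v) (G : Good s D) (h : IsAW s A B) (x : V) :
    casimir s A B x = D.κ s • x := by
  have h1 := T.end_eq_aeval (f := casimir s A B) (casimir_comm h) (g := C (D.κ s)) (by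
    rw [casimir_v0 T G, aeval_C, Module.algebraMap_end_apply]) x
  rw [h1, aeval_C, Module.algebraMap_end_apply]

/-- the Casimir value is an isomorphism invariant -/
theorem kappa_eq {W : Type*} [AddCommGroup W] [Module K W] {A' B' : W →ₗ[K] W} {v' : ℕ → W}
    {D' : Arr K} (T : Tri D A B v) (G : Good s D) (h : IsAW s A B) (T' : Tri D' A' B' v')
    (G' : Good s D') (h' : IsAW s A' B') {f : V →ₗ[K] W} (fA : ∀ x, f (A x) = A' (f x))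
    (fB : ∀ x, f (B x) = B' (f x)) {x : V} (hx : f x ≠ 0) : D.κ s = D'.κ s := by
  have h1 : f (casimir s A B x) = casimir s A' B' (f x) := by
    simp only [casimir_apply, map_add, map_sub, map_smul, fA, fB]
  rw [casimir_eq T G h, casimir_eq T' G' h', map_smul] at h1
  have h2 : (D.κ s - D'.κ s) • f x = 0 := by rw [sub_smul, h1, sub_self]
  rcases smul_eq_zero.mp h2 with h3 | h3
  · exact sub_eq_zero.mp h3
  · exact absurd h3 hx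

end Pool.Agent.Helper9.AW
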