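import Pool.Agent.Helper9.AWCount

set_option autoImplicit false
set_option linter.unusedSectionVars false
set_option linter.unusedSimpArgs false
set_option linter.unusedVariables false

namespace Pool.Agent.Helper9.AW

open Polynomial

variable {K : Type*} [Field K] {D : Arr K} {s : Scalars K} {V : Type*} [AddCommGroup V]
  [Module K V] {A B : V →ₗ[K] V} {v : ℕ → V}

namespace Good

variable (G : Good s D) {P : ℕ}
include G

theorem pre_of_period (hT : D.IsPeriod P) : D.θ (P - 1) = D.pre s 0 := by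
  have : D.Th s ((P - 1 : ℕ) : ℤ) = D.Th s (-1) := G.Th_of_dvd hT (by
    have h := hT.1
    have : ((P - 1 : ℕ) : ℤ) - (-1) = (P : ℤ) := by omega
    rw [this])
  exact this

theorem pre2_of_period (hT : D.IsPeriod P) (h2 : 2 ≤ P) : D.θ (P - 2) = D.Th s (-2) := by
  have : D.Th s ((P - 2 : ℕ) : ℤ) = D.Th s (-2) := G.Th_of_dvd hT (by
    have : ((P - 2 : ℕ) : ℤ) - (-2) = (P : ℤ) := by omega
    rw [this])
  exact this

theorem n_pos {n : ℕ} (hN : D.N = ((n * P : ℕ) : ℕ∞)) : 1 ≤ n := by
  rcases Nat.eq_zero_or_pos n with h | h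
  · exfalso
    have := G.two
    rw [hN, h] at this
    simp at this
  · exact h

/-- a doubled array is a folded walk -/
theorem fold_of_doubled {m : ℕ} (h : D.Doubled m) : Fold s D (2 * m + 1) := by
  refine ⟨fun t => ?_, ?_, ?_, by omega⟩
  · have h0 : D.Th s (m : ℤ) = D.Th s ((m + 1 : ℕ) : ℤ) := h.2.2.1.symm
    have := G.reflect (i := (m : ℤ)) (j := ((m + 1 : ℕ) : ℤ)) h0 (by
      rw [show ((m : ℤ) + 1) = ((m + 1 : ℕ) : ℤ) by push_cast; ring,
        show (((m + 1 : ℕ) : ℤ) - 1) = (m : ℤ) by push_cast; ring]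
      exact h0.symm) (t - m)
    rw [show (m : ℤ) + (t - m) = t by ring] at this
    rw [this]
    congr 1
    push_cast
    ring
  · rw [show (2 * m + 1) / 2 = m by omega]
    exact h.2.1
  · rw [show (2 * m + 1) / 2 = m by omega, h.1]
    exact_mod_cast (by omega : m + 1 < 2 * m + 2)

end Good

/-- the generator of the commutant for a periodic array -/
theorem gen_of_start (T : Tri D A B v) (G : Good s D) (hAW : IsAW s A B) {P n : ℕ}
    (hT : D.IsPeriod P) (hN : D.N = ((n * P : ℕ) : ℕ∞)) (hS : D.Start P n) : Gen T P (D.q P) := by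
  have e1 := G.pre_of_period hT
  by_cases hP1 : P = 1
  · subst hP1
    obtain ⟨c1, c2⟩ := (G.T_one_iff hT).mp rfl
    exact gen_const T G c1 c2
  have hP2 : 2 ≤ P := by have := hT.1; omega
  have e2 := G.pre2_of_period hT hP2
  have hnotc : ¬ (D.pre s 0 = D.θ 0 ∧ D.θ 0 = D.θ 1) := fun h => hP1 ((G.T_one_iff hT).mpr h)
  unfold Arr.Start at hS
  rw [e1] at hS
  by_cases hL : D.pre s 0 = D.θ 0
  · have hnc : D.θ 0 ≠ D.θ 1 := fun h => hnotc ⟨hL, h⟩
    rcases hS with hS | hS | hS
    · rcases hS.2 with h | h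
      · exact absurd h hP1
      · exact gen_L T G hAW hT hL hnc hN h
    · exact absurd (hL.symm.trans hS) hnc
    · exfalso
      rw [e2, G.refl_loop hL] at hS
      have h3 : D.θ 1 = D.θ 0 := hS.2
      exact hnc h3.symm
  by_cases ha : D.pre s 0 = D.θ 1
  · have hnc : D.θ 0 ≠ D.θ 1 := fun h => hL (by rw [ha, h])
    exact gen_a T G hAW hT ha hnc hN
  · rcases hS with hS | hS | hS
    · exact absurd hS.1 hL
    · exact absurd hS ha
    · rw [e2] at hS
      exact gen_b T G hAW hT hS.2 hL ha hN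

theorem irr_of_types (T : Tri D A B v) (G : Good s D) (hAW : IsAW s A B)
    (h : D.Distinct ∨ (∃ m, D.Doubled m) ∨ ∃ P n, D.Periodic P n) : Irr A B := by
  rcases h with h | ⟨m, h⟩ | ⟨P, n, h⟩
  · exact T.irr_of_distinct h
  · exact T.irr_of_chi (G.fold_of_doubled h) h.1 h.2.2.2.1 h.2.2.2.2.2
  · exact (gen_of_start T G hAW h.2.1 h.2.2.1 h.2.2.2.1).irr_of G.two h.2.2.1 h.2.2.2.2

/-- periodicity from finiteness data -/
theorem periodic_of (T : Tri D A B v) (G : Good s D) (hAW : IsAW s A B) (hI : Irr A B) {P n : ℕ}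
    (hT : D.IsPeriod P) (hN : D.N = ((n * P : ℕ) : ℕ∞)) (hS : D.Start P n) : D.Periodic P n :=
  ⟨G.two, hT, hN, hS, (gen_of_start T G hAW hT hN hS).pi_of_irr G.two hN hI⟩

theorem types_of_irr (T : Tri D A B v) (G : Good s D) (hAW : IsAW s A B) (hI : Irr A B) :
    D.Distinct ∨ (∃ m, D.Doubled m) ∨ ∃ P n, D.Periodic P n := by
  by_cases hD : D.Distinct
  · exact Or.inl hD
  right
  obtain ⟨e, F⟩ := G.exists_fold hD
  -- constant sequences
  by_cases hc : D.pre s 0 = D.θ 0 ∧ D.θ 0 = D.θ 1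
  · right
    have hT : D.IsPeriod 1 := by
      refine ⟨le_rfl, hc.2.symm, ?_, fun t h1 h2 => by omega⟩
      have := G.Th_const hc.1 hc.2 ((2 : ℕ) : ℤ)
      rw [Th_nat] at this
      rw [show 1 + 1 = 2 from rfl, this, hc.2]
    have H := gen_const T G hc.1 hc.2
    have hfin := Gen.fin_of_irr T H.Ppos H.monic H.deg H.comm hI
    obtain ⟨M, hM⟩ := ENat.ne_top_iff_exists.mp hfin
    have hN : D.N = ((M * 1 : ℕ) : ℕ∞) := by rw [← hM, mul_one]
    exact ⟨1, M, periodic_of T G hAW hI hT hN (Or.inl ⟨rfl, Or.inl rfl⟩)⟩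
  have m0 : D.θ e = D.θ 0 := by rw [F.nat (le_refl e), Nat.sub_self]
  rcases le_or_gt D.N (e : ℕ∞) with hNe | hNe
  · -- short walks
    obtain ⟨hN, ha, he3⟩ := F.short G hNe
    right
    have hT := F.period_a G ha
    have hN' : D.N = ((1 * e : ℕ) : ℕ∞) := by rw [hN, one_mul]
    refine ⟨e, 1, periodic_of T G hAW hI hT hN' (Or.inr (Or.inl ?_))⟩
    rw [G.pre_of_period hT, ha]
  have hNe1 : ((e + 1 : ℕ) : ℕ∞) ≤ D.N := by
    push_cast
    exact Order.add_one_le_of_lt hNe
  rcases hNe1.eq_or_lt with hN | hlt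
  · -- the walk just returns
    by_cases he1 : e = 1
    · left
      subst he1
      have hN' : D.N = ((2 * 0 + 2 : ℕ) : ℕ∞) := hN.symm
      have hl : D.θ (0 + 1) = D.θ 0 := m0
      have hnc : D.θ (0 + 2) ≠ D.θ (0 + 1) := by
        intro h
        apply hc
        have hp : D.pre s 1 = D.θ 0 := rfl
        have h1 := G.pre_add 0
        have h2 := G.pre_add 1
        simp only [zero_add] at h h1 h2 hl
        rw [hp, show 1 + 1 = 2 from rfl, h, hl] at h2
        refine ⟨?_, hl.symm⟩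
        rw [h1, hl]
        exact h2.symm
      exact ⟨0, hN', fun i j hi hj _ => by omega, hl, hnc, Or.inl rfl,
        T.chi_of_irr G hAW F hN' (Or.inl rfl) hI hnc⟩
    have he2 : 2 ≤ e := by have := F.pos; omega
    have hnc := F.ne01 he2
    have heN : (e : ℕ∞) < D.N := by rw [← hN]; exact_mod_cast Nat.lt_succ_self e
    by_cases ha : D.a e = D.a 0
    · rcases Nat.even_or_odd e with hev | hodd
      · exact (T.not_irr_even G hAW F hN.symm ha (Nat.even_iff.mp hev) hI).elim
      · left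
        obtain ⟨m, rfl⟩ := hodd
        have hm1 : 1 ≤ m := by omega
        have inj := F.inj
        rw [show (2 * m + 1) / 2 = m by omega] at inj
        have hl : D.θ (m + 1) = D.θ m := by
          rw [F.nat (by omega : m ≤ 2 * m + 1)]
          congr 1
          omega
        have hncm : D.θ (m + 2) ≠ D.θ (m + 1) := by
          rw [hl, F.nat (by omega : m + 2 ≤ 2 * m + 1)]
          intro h
          have := inj _ _ (by omega) le_rfl h
          omega
        exact ⟨m, hN.symm, inj, hl, hncm, Or.inr ha,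
          T.chi_of_irr G hAW F hN.symm (Or.inr ha) hI hncm⟩
    · right
      have hL : D.pre s 0 = D.θ 0 := by
        by_contra h
        exact ha (G.a_eq heN G.zero_lt m0 (fun h' => h h'.symm) hnc)
      have hT := F.period_loop G hL hnc
      have hN' : D.N = ((1 * (e + 1) : ℕ) : ℕ∞) := by rw [← hN, one_mul]
      refine ⟨e + 1, 1, periodic_of T G hAW hI hT hN' (Or.inl ⟨?_, Or.inr ?_⟩)⟩
      · rw [Nat.add_sub_cancel]; exact m0
      · rw [one_mul, Nat.add_sub_cancel]; exact ha
  · -- long walks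
    right
    by_cases hL : D.pre s 0 = D.θ 0
    · have hnc : D.θ 0 ≠ D.θ 1 := fun h => hc ⟨hL, h⟩
      have hT := F.period_loop G hL hnc
      obtain ⟨n, hN, ha⟩ := dvd_L T G hAW hI hT hL hnc hlt
      refine ⟨e + 1, n, periodic_of T G hAW hI hT hN (Or.inl ⟨?_, Or.inr ha⟩)⟩
      rw [G.pre_of_period hT, hL]
    by_cases ha : D.pre s 0 = D.θ 1
    · have hnc : D.θ 0 ≠ D.θ 1 := fun h => hL (by rw [ha, h])
      have hT := F.period_a G ha
      obtain ⟨n, hN⟩ := dvd_a T G hAW hI hT ha hnc hlt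
      refine ⟨e, n, periodic_of T G hAW hI hT hN (Or.inr (Or.inl ?_))⟩
      rw [G.pre_of_period hT, ha]
    · have hb : D.Th s (-2) = D.θ 0 := by
        rcases F.long G hlt with h | h | h
        · exact absurd h hL
        · exact absurd h ha
        · exact h
      have hT := F.period_b G hb hL ha
      have hle : ((e + 2 : ℕ) : ℕ∞) ≤ D.N := by
        have := Order.add_one_le_of_lt hlt
        push_cast at this ⊢
        rw [add_assoc, one_add_one_eq_two] at this
        exact this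
      obtain ⟨n, hN⟩ := dvd_b T G hAW hI hT hb hL ha hle
      refine ⟨e + 2, n, periodic_of T G hAW hI hT hN (Or.inr (Or.inr ⟨by omega, ?_⟩))⟩
      rw [G.pre2_of_period hT (by omega), hb]

end Pool.Agent.Helper9.AW
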