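import Pool.Agent.Helper9.AWSeq

set_option autoImplicit false
set_option linter.unusedSectionVars false
set_option linter.unusedSimpArgs false
set_option linter.unusedVariables false

namespace Pool.Agent.Helper9.AW

open Polynomial

variable {K : Type*} [Field K] {D : Arr K} {s : Scalars K}

theorem closed_of_good (G : Good s D) : Closed s D := by
  refine ⟨G.two, G.hw, G.p01, G.hrec, fun j hj => ?_, fun j hj h => ?_, fun j hj => ?_,
    fun n hn => ?_, fun j hj h => ?_⟩
  · rw [← mul_assoc]; exact G.e2 j hj
  · have e4 := G.e4 j hj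
    have e1 := G.pre_add j
    have e3 := G.hrec j
    rw [e3, e1] at e4
    rw [e1]
    rw [h] at e4 ⊢
    linear_combination e4
  · have := G.link hj
    linear_combination this
  · have hj : (n : ℕ∞) < D.N := by rw [hn]; exact_mod_cast Nat.lt_succ_self n
    have := (G.cas hj).2
    simp only [Arr.CR] at this
    rw [G.w_ge (by rw [hn])] at this
    linear_combination this
  · have e5 := G.e5 j hj
    have hp : D.w j * (D.θ j - D.pre s (j - 1)) = D.w j * (D.θ j - D.θ (j + 2)) := by
      rcases j with _ | j
      · rw [G.w_zero]; ring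
      · rw [Nat.add_sub_cancel, G.pre_add j]
        have e6 : D.pre s (j + 1) = D.θ j := rfl
        rw [e6] at h
        have e3 := G.hrec (j + 1)
        rw [show j + 1 + 1 = j + 2 from rfl, show j + 1 + 2 = j + 3 from rfl] at *
        rw [e3, ← h]
    rw [h] at e5
    linear_combination e5 - hp

theorem good_of_closed (C : Closed s D) : Good s D := by
  have w0 : D.w 0 = 0 := by
    by_contra h
    have := (C.hw 0).mp h
    omega
  have e2 : ∀ j : ℕ, (j : ℕ∞) < D.N →
      D.a j * (D.θ j - D.pre s j) * (D.θ j - D.θ (j + 1)) = s.R (D.θ j) := by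
    intro j hj
    rw [mul_assoc]
    exact C.diag j hj
  have e4 : ∀ j : ℕ, ((j + 1 : ℕ) : ℕ∞) < D.N →
    D.a j * (D.θ j - D.pre s j) + D.a (j + 1) * (D.θ (j + 1) - D.θ (j + 2)) =
      s.γ * (D.θ j + D.θ (j + 1)) + s.ω := by
    intro j hj
    by_cases h : D.θ (j + 1) = D.θ j
    · have e := C.loop j hj h
      have e1 := pre_add' C.hrec j
      have e3 := C.hrec j
      rw [e3, e1]
      rw [e1] at e
      rw [h] at e ⊢
      linear_combination e
    · have h' : D.θ j - D.θ (j + 1) ≠ 0 := fun h' => h (sub_eq_zero.mp h').symm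
      have f1 := e2 j (Tri.lt_of_succ_lt hj)
      have f2 := e2 (j + 1) hj
      have e6 : D.pre s (j + 1) = D.θ j := rfl
      rw [e6, show j + 1 + 1 = j + 2 from rfl] at f2
      simp only [Scalars.R] at f1 f2
      apply mul_left_cancel₀ h'
      linear_combination f1 - f2
  have CR' : ∀ j : ℕ, (j : ℕ∞) < D.N → D.CR s j = D.κ s := by
    intro j hj
    by_cases hj1 : ((j + 1 : ℕ) : ℕ∞) < D.N
    · have l := C.link j hj1
      simp only [Arr.CR]
      linear_combination l - D.a j * (D.θ j - D.pre s j) * e4 j hj1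
    · have hN : D.N = ((j + 1 : ℕ) : ℕ∞) := by
        refine le_antisymm (not_lt.mp hj1) ?_
        push_cast
        exact Order.add_one_le_of_lt hj
      have l := C.last j hN
      have w1 : D.w (j + 1) = 0 := by
        by_contra h
        exact hj1 ((C.hw (j + 1)).mp h).2
      simp only [Arr.CR]
      rw [w1]
      linear_combination l
  have CL' : ∀ j : ℕ, (j : ℕ∞) < D.N → D.CL s j = D.κ s := by
    intro j hj
    rcases j with _ | j
    · simp only [Arr.CL, Arr.κ, w0]
      ring
    · rw [← CR_eq_CL (e4 j hj), CR' j (Tri.lt_of_succ_lt hj)]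
  refine ⟨C.hw, C.two, C.p01, C.hrec, e2, e4, fun j hj => ?_⟩
  by_cases h : D.pre s j = D.θ (j + 1)
  · have e5 := C.centre j hj h
    have hp : D.w j * (D.θ j - D.pre s (j - 1)) = D.w j * (D.θ j - D.θ (j + 2)) := by
      rcases j with _ | j
      · rw [w0]; ring
      · rw [Nat.add_sub_cancel, pre_add' C.hrec j]
        have e6 : D.pre s (j + 1) = D.θ j := rfl
        rw [e6] at h
        have e3 := C.hrec (j + 1)
        rw [show j + 1 + 1 = j + 2 from rfl, show j + 1 + 2 = j + 3 from rfl] at *
        rw [e3, ← h]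
    rw [h]
    linear_combination e5 + hp
  · have h1 := CL_sub_CR (s := s) (D := D) j
    rw [CL' j hj, CR' j hj, sub_self] at h1
    have h2 : D.θ (j + 1) - D.pre s j ≠ 0 := fun h' => h (sub_eq_zero.mp h').symm
    rcases mul_eq_zero.mp h1.symm with h3 | h3
    · exact absurd h3 h2
    · exact sub_eq_zero.mp h3

theorem closed_iff : Closed s D ↔ Good s D := ⟨good_of_closed, closed_of_good⟩

end Pool.Agent.Helper9.AW
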