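import Pool.Agent.Helper9.AWBase

set_option autoImplicit false
set_option linter.unusedSectionVars false

namespace Pool.Agent.Helper9.AW

open Polynomial

variable {K : Type*} [Field K] {V : Type*} [AddCommGroup V] [Module K V]
  {D : Arr K} {A B : V →ₗ[K] V} {v : ℕ → V}

namespace Tri

variable (T : Tri D A B v)
include T

theorem span_lt : ⊤ ≤ Submodule.span K (Set.range fun j : {j : ℕ // (j : ℕ∞) < D.N} => v j) := by
  refine T.spn.trans (Submodule.span_le.mpr ?_)
  rintro _ ⟨j, rfl⟩
  by_cases h : (j : ℕ∞) < D.N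
  · exact Submodule.subset_span ⟨⟨j, h⟩, rfl⟩
  · rw [T.vz j (not_lt.mp h)]
    exact Submodule.zero_mem _

/-- the basis -/
noncomputable def basis : Module.Basis {j : ℕ // (j : ℕ∞) < D.N} K V :=
  Module.Basis.mk T.ind T.span_lt

theorem basis_apply (j : {j : ℕ // (j : ℕ∞) < D.N}) : T.basis j = v j := by
  simp [basis]

open Classical in
/-- coordinates -/
noncomputable def c (i : ℕ) : V →ₗ[K] K :=
  if h : (i : ℕ∞) < D.N then T.basis.coord ⟨i, h⟩ else 0

theorem c_ge {i : ℕ} (h : D.N ≤ i) (x : V) : T.c i x = 0 := by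
  rw [c, dif_neg (not_lt.mpr h)]
  rfl

theorem c_self {j : ℕ} (h : (j : ℕ∞) < D.N) : T.c j (v j) = 1 := by
  rw [c, dif_pos h]
  have := T.basis_apply ⟨j, h⟩
  simp only at this
  rw [← this]
  simp

theorem c_ne {i j : ℕ} (h : i ≠ j) : T.c i (v j) = 0 := by
  by_cases hi : (i : ℕ∞) < D.N
  · by_cases hj : (j : ℕ∞) < D.N
    · rw [c, dif_pos hi]
      have := T.basis_apply ⟨j, hj⟩
      simp only at this
      rw [← this]
      rw [Module.Basis.coord_apply, Module.Basis.repr_self, Finsupp.single_apply, if_neg]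
      intro h'
      exact h (by simpa using (congrArg Subtype.val h').symm)
    · rw [T.vz j (not_lt.mp hj), map_zero]
  · exact T.c_ge (not_lt.mp hi) _

theorem ext_hom {W : Type*} [AddCommGroup W] [Module K W] {f g : V →ₗ[K] W}
    (h : ∀ j, f (v j) = g (v j)) : f = g := by
  refine LinearMap.ext_on_range (v := v) ?_ h
  exact top_le_iff.mp T.spn

theorem ext_hom' {W : Type*} [AddCommGroup W] [Module K W] {f g : V →ₗ[K] W}
    (h : ∀ j : ℕ, (j : ℕ∞) < D.N → f (v j) = g (v j)) : f = g := by
  refine T.ext_hom fun j => ?_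
  by_cases hj : (j : ℕ∞) < D.N
  · exact h j hj
  · rw [T.vz j (not_lt.mp hj), map_zero, map_zero]

theorem exists_hom {W : Type*} [AddCommGroup W] [Module K W] (u : ℕ → W)
    (hu : ∀ j : ℕ, D.N ≤ j → u j = 0) : ∃ f : V →ₗ[K] W, ∀ j, f (v j) = u j := by
  refine ⟨T.basis.constr ℕ (fun j => u j), fun j => ?_⟩
  by_cases hj : (j : ℕ∞) < D.N
  · have := T.basis_apply ⟨j, hj⟩
    simp only at this
    rw [← this, Module.Basis.constr_basis]
  · rw [T.vz j (not_lt.mp hj), map_zero, hu j (not_lt.mp hj)]

theorem c_eq (i j : ℕ) (hj : (j : ℕ∞) < D.N) : T.c i (v j) = if i = j then 1 else 0 := by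
  by_cases h : i = j
  · subst h
    rw [if_pos rfl, T.c_self hj]
  · rw [if_neg h, T.c_ne h]

theorem ext_c {x : V} (h : ∀ i, T.c i x = 0) : x = 0 := by
  apply T.basis.repr.injective
  ext i
  have := h i
  rw [c, dif_pos i.2] at this
  simpa using this

theorem repr_sum (x : V) : ∃ S : Finset ℕ, x = ∑ i ∈ S, T.c i x • v i ∧ ∀ i, i ∉ S → T.c i x = 0 := by
  classical
  refine ⟨(T.basis.repr x).support.image Subtype.val, ?_, ?_⟩
  · conv_lhs => rw [← T.basis.linearCombination_repr x]
    rw [Finsupp.linearCombination_apply, Finsupp.sum, Finset.sum_image (by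
      intro a _ b _ h
      exact Subtype.ext h)]
    refine Finset.sum_congr rfl fun i _ => ?_
    rw [T.basis_apply, c, dif_pos i.2]
    rfl
  · intro i hi
    by_cases h : (i : ℕ∞) < D.N
    · rw [c, dif_pos h]
      by_contra h'
      apply hi
      rw [Finset.mem_image]
      refine ⟨⟨i, h⟩, ?_, rfl⟩
      rw [Finsupp.mem_support_iff]
      exact h'
    · exact T.c_ge (not_lt.mp h) _

theorem w_zero : D.w 0 = 0 := by
  by_contra h
  have := (T.hw 0).mp h
  omega

theorem w_ge {j : ℕ} (h : D.N ≤ j) : D.w j = 0 := by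
  by_contra h'
  exact absurd ((T.hw j).mp h').2 (not_lt.mpr h)

theorem w_ne {j : ℕ} (h1 : 1 ≤ j) (h : (j : ℕ∞) < D.N) : D.w j ≠ 0 := (T.hw j).mpr ⟨h1, h⟩

theorem zero_lt : ((0 : ℕ) : ℕ∞) < D.N := by
  have := T.pos
  exact lt_of_lt_of_le (by norm_num) this

omit T in
theorem lt_of_succ_lt {D : Arr K} {j : ℕ} (h : ((j + 1 : ℕ) : ℕ∞) < D.N) : (j : ℕ∞) < D.N :=
  lt_of_le_of_lt (by exact_mod_cast Nat.le_succ j) h

omit T in
theorem lt_mono {D : Arr K} {i j : ℕ} (h : (j : ℕ∞) < D.N) (hij : i ≤ j) : (i : ℕ∞) < D.N :=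
  lt_of_le_of_lt (by exact_mod_cast hij) h

theorem A_zero : A (v 0) = v 1 + D.a 0 • v 0 := by
  rw [T.hA 0, T.w_zero, zero_smul, add_zero]

theorem A_succ (j : ℕ) : A (v (j + 1)) = v (j + 2) + D.a (j + 1) • v (j + 1) + D.w (j + 1) • v j := by
  rw [T.hA (j + 1)]
  rfl

theorem c_A_succ {i : ℕ} (hi : ((i + 1 : ℕ) : ℕ∞) < D.N) (x : V) :
    T.c (i + 1) (A x) = T.c i x + D.a (i + 1) * T.c (i + 1) x + D.w (i + 2) * T.c (i + 2) x := by
  have h : T.c (i + 1) ∘ₗ A = T.c i + D.a (i + 1) • T.c (i + 1) + D.w (i + 2) • T.c (i + 2) := by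
    refine T.ext_hom' fun j hj => ?_
    simp only [LinearMap.comp_apply, LinearMap.add_apply, LinearMap.smul_apply, smul_eq_mul]
    rcases j with _ | j
    · rw [T.A_zero, map_add, map_smul, smul_eq_mul, T.c_eq (i + 1) 0 hj, T.c_eq i 0 hj,
        T.c_eq (i + 2) 0 hj, if_neg (by omega : ¬ (i + 1 = 0)), if_neg (by omega : ¬ (i + 2 = 0)),
        mul_zero, mul_zero, mul_zero, add_zero, add_zero, add_zero]
      rcases Nat.eq_zero_or_pos i with h0 | h0
      · subst h0
        rw [if_pos rfl]
        exact T.c_self hi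
      · rw [if_neg (by omega), T.c_ne (by omega)]
    · rw [T.A_succ, map_add, map_add, map_smul, map_smul, smul_eq_mul, smul_eq_mul,
        T.c_eq (i + 1) (j + 1) hj, T.c_eq i (j + 1) hj, T.c_eq (i + 2) (j + 1) hj,
        T.c_eq (i + 1) j (lt_of_succ_lt hj)]
      by_cases h1 : i + 1 = j + 2
      · have h2 : T.c (i + 1) (v (j + 2)) = 1 := by rw [← h1]; exact T.c_self hi
        have h3 : i = j + 1 := by omega
        rw [h2, if_neg (by omega : ¬ (i + 1 = j + 1)), if_pos h3, if_neg (by omega : ¬ (i + 2 = j + 1)),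
          if_neg (by omega : ¬ (i + 1 = j))]
        ring
      · rw [T.c_ne h1]
        by_cases h2 : i = j
        · subst h2
          simp
        · by_cases h3 : i + 1 = j
          · subst h3
            simp
            omega
          · rw [if_neg (by omega : ¬ (i + 1 = j + 1)), if_neg (by omega : ¬ (i = j + 1)),
              if_neg (by omega : ¬ (i + 2 = j + 1)), if_neg h3]
            ring
  have := congrArg (fun f => f x) h
  simpa using this

theorem c_A_zero (x : V) : T.c 0 (A x) = D.a 0 * T.c 0 x + D.w 1 * T.c 1 x := by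
  have h : T.c 0 ∘ₗ A = D.a 0 • T.c 0 + D.w 1 • T.c 1 := by
    refine T.ext_hom' fun j hj => ?_
    simp only [LinearMap.comp_apply, LinearMap.add_apply, LinearMap.smul_apply, smul_eq_mul]
    rcases j with _ | j
    · rw [T.A_zero, map_add, map_smul, smul_eq_mul, T.c_ne (by omega), T.c_self hj, T.c_ne (by omega)]
      ring
    · rw [T.A_succ, map_add, map_add, map_smul, map_smul, smul_eq_mul, smul_eq_mul,
        T.c_ne (by omega), T.c_ne (by omega), T.c_eq 0 j (lt_of_succ_lt hj), T.c_eq 1 (j + 1) hj]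
      rcases j with _ | j
      · simp
      · rw [if_neg (by omega), if_neg (by omega)]
        ring
  have := congrArg (fun f => f x) h
  simpa using this

theorem c_B (i : ℕ) (x : V) : T.c i (B x) = D.θ i * T.c i x := by
  have h : T.c i ∘ₗ B = D.θ i • T.c i := by
    refine T.ext_hom' fun j hj => ?_
    simp only [LinearMap.comp_apply, LinearMap.smul_apply, smul_eq_mul, T.hB, map_smul]
    rw [T.c_eq i j hj]
    by_cases h : i = j
    · subst h; rfl
    · rw [if_neg h]; ring
  have := congrArg (fun f => f x) h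
  simpa using this

theorem exists_proj : ∃ π : K → V →ₗ[K] V, ∀ t, (∀ j, D.θ j = t → π t (v j) = v j) ∧
    (∀ j, D.θ j ≠ t → π t (v j) = 0) := by
  classical
  have h : ∀ t, ∃ f : V →ₗ[K] V, ∀ j, f (v j) = if D.θ j = t then v j else 0 := by
    intro t
    refine T.exists_hom _ fun j hj => ?_
    rw [T.vz j hj, ite_self]
  choose π hπ using h
  refine ⟨π, fun t => ⟨fun j hj => ?_, fun j hj => ?_⟩⟩
  · rw [hπ, if_pos hj]
  · rw [hπ, if_neg hj]

/-- the projection onto the eigenspace of `B` -/
noncomputable def π (t : K) : V →ₗ[K] V := T.exists_proj.choose t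

theorem π_pos {t : K} {j : ℕ} (h : D.θ j = t) : T.π t (v j) = v j :=
  (T.exists_proj.choose_spec t).1 j h

theorem π_neg {t : K} {j : ℕ} (h : D.θ j ≠ t) : T.π t (v j) = 0 :=
  (T.exists_proj.choose_spec t).2 j h

theorem B_π (t : K) (x : V) : B (T.π t x) = t • T.π t x := by
  have h : B ∘ₗ T.π t = t • T.π t := by
    refine T.ext_hom fun j => ?_
    simp only [LinearMap.comp_apply, LinearMap.smul_apply]
    by_cases h : D.θ j = t
    · rw [T.π_pos h, T.hB, h]
    · rw [T.π_neg h, map_zero, smul_zero]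
  exact congrArg (fun f => f x) h

theorem c_π_pos {t : K} {i : ℕ} (h : D.θ i = t) (x : V) : T.c i (T.π t x) = T.c i x := by
  have h : T.c i ∘ₗ T.π t = T.c i := by
    refine T.ext_hom fun j => ?_
    simp only [LinearMap.comp_apply]
    by_cases h1 : D.θ j = t
    · rw [T.π_pos h1]
    · rw [T.π_neg h1, map_zero, T.c_ne]
      intro h2
      exact h1 (h2 ▸ h)
  exact congrArg (fun f => f x) h

theorem c_π_neg {t : K} {i : ℕ} (h : D.θ i ≠ t) (x : V) : T.c i (T.π t x) = 0 := by
  have h1 := congrArg (T.c i) (T.B_π t x)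
  rw [T.c_B, map_smul, smul_eq_mul] at h1
  have h2 : (D.θ i - t) * T.c i (T.π t x) = 0 := by linear_combination h1
  rcases mul_eq_zero.mp h2 with h3 | h3
  · exact absurd (sub_eq_zero.mp h3) h
  · exact h3

theorem c_of_eig {t : K} {x : V} (hx : B x = t • x) {i : ℕ} (h : D.θ i ≠ t) : T.c i x = 0 := by
  have h1 := congrArg (T.c i) hx
  rw [T.c_B, map_smul, smul_eq_mul] at h1
  have h2 : (D.θ i - t) * T.c i x = 0 := by linear_combination h1
  rcases mul_eq_zero.mp h2 with h3 | h3
  · exact absurd (sub_eq_zero.mp h3) h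
  · exact h3

theorem eq_of_c {x y : V} (h : ∀ i, T.c i x = T.c i y) : x = y := by
  have : x - y = 0 := T.ext_c fun i => by rw [map_sub, h i, sub_self]
  exact sub_eq_zero.mp this

theorem π_of_eig {t : K} {x : V} (hx : B x = t • x) : T.π t x = x := by
  refine T.eq_of_c fun i => ?_
  by_cases h : D.θ i = t
  · rw [T.c_π_pos h]
  · rw [T.c_π_neg h, T.c_of_eig hx h]

theorem π_of_eig_ne {t t' : K} {x : V} (hx : B x = t • x) (hne : t ≠ t') : T.π t' x = 0 := by
  refine T.eq_of_c fun i => ?_
  rw [map_zero]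
  by_cases h : D.θ i = t'
  · rw [T.c_π_pos h, T.c_of_eig hx (fun h' => hne (h' ▸ h))]
  · rw [T.c_π_neg h]

theorem eig_of_c {t : K} {x : V} (h : ∀ i, D.θ i ≠ t → T.c i x = 0) : B x = t • x := by
  refine T.eq_of_c fun i => ?_
  rw [T.c_B, map_smul, smul_eq_mul]
  by_cases hi : D.θ i = t
  · rw [hi]
  · rw [h i hi, mul_zero, mul_zero]

theorem π_mem {U : Submodule K V} (hU : ∀ x ∈ U, B x ∈ U) (t : K) {x : V} (hx : x ∈ U) :
    T.π t x ∈ U := by
  classical
  obtain ⟨S, hS, hS'⟩ := T.repr_sum x
  set F : Finset K := insert t (S.image D.θ) with hF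
  set q : K[X] := Lagrange.basis F id t with hq
  have h1 : ∀ j, aeval B q (v j) = q.eval (D.θ j) • v j := by
    intro j
    have : ∀ p : K[X], aeval B p (v j) = p.eval (D.θ j) • v j := by
      intro p
      induction p using Polynomial.induction_on' with
      | add p q hp hq => rw [map_add, LinearMap.add_apply, hp, hq, eval_add, add_smul]
      | monomial n c =>
        rw [aeval_monomial, eval_monomial]
        have : ∀ n, (B ^ n) (v j) = (D.θ j) ^ n • v j := by
          intro n
          induction n with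
          | zero => simp
          | succ n ih => rw [pow_succ', Module.End.mul_apply, ih, map_smul, T.hB, smul_smul, pow_succ]
        rw [Module.End.mul_apply, this, Module.algebraMap_end_apply, smul_smul]
    exact this q
  have h2 : T.π t x = aeval B q x := by
    rw [hS, map_sum, map_sum]
    refine Finset.sum_congr rfl fun i hi => ?_
    rw [map_smul, map_smul, h1]
    by_cases h : D.θ i = t
    · rw [T.π_pos h, h]
      have : q.eval t = 1 := by
        have := Lagrange.eval_basis_self (s := F) (v := (id : K → K)) (i := t)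
          (Function.injective_id.injOn) (Finset.mem_insert_self _ _)
        simpa using this
      rw [this, one_smul]
    · rw [T.π_neg h]
      have : q.eval (D.θ i) = 0 := by
        have := Lagrange.eval_basis_of_ne (s := F) (v := (id : K → K)) (i := t) (j := D.θ i)
          (fun h' => h h'.symm) (Finset.mem_insert_of_mem (Finset.mem_image_of_mem _ hi))
        simpa using this
      rw [this, zero_smul]
  rw [h2]
  have h3 : ∀ p : K[X], aeval B p x ∈ U := by
    intro p
    induction p using Polynomial.induction_on' with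
    | add p q hp hq => rw [map_add, LinearMap.add_apply]; exact U.add_mem hp hq
    | monomial n c =>
      rw [aeval_monomial, Module.End.mul_apply, Module.algebraMap_end_apply]
      refine U.smul_mem _ ?_
      induction n with
      | zero => simpa using hx
      | succ n ih => rw [pow_succ', Module.End.mul_apply]; exact hU _ ih
  exact h3 q

end Tri

end Pool.Agent.Helper9.AW
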