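import Pool.Agent.Helper9.AWT3L

set_option autoImplicit false
set_option linter.unusedSectionVars false
set_option linter.unusedSimpArgs false
set_option linter.unusedVariables false

namespace Pool.Agent.Helper9.AW

open Polynomial

variable {K : Type*} [Field K] {D : Arr K} {s : Scalars K} {V : Type*} [AddCommGroup V]
  [Module K V] {A B : V →ₗ[K] V} {v : ℕ → V}

/-! ### counting multiples -/

theorem cnt0 {M P : ℕ} (hM : 1 ≤ M) :
    ((Finset.range M).filter (fun j => P ∣ j)).card ≤ 1 + (M - 1) / P := by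
  have h : (Finset.range M).filter (fun j => P ∣ j) ⊆
      insert 0 (((Finset.range (M - 1)).filter (fun j => P ∣ j + 1)).image Nat.succ) := by
    intro j hj
    rw [Finset.mem_filter, Finset.mem_range] at hj
    rcases Nat.eq_zero_or_pos j with h | h
    · rw [h]; exact Finset.mem_insert_self _ _
    · refine Finset.mem_insert_of_mem (Finset.mem_image.mpr ⟨j - 1, ?_, by
        show j - 1 + 1 = j
        omega⟩)
      rw [Finset.mem_filter, Finset.mem_range, Nat.sub_add_cancel h]
      exact ⟨by omega, hj.2⟩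
  refine (Finset.card_le_card h).trans ((Finset.card_insert_le _ _).trans ?_)
  have h2 := Nat.card_multiples (M - 1) P
  have h3 := Finset.card_image_le (s := (Finset.range (M - 1)).filter (fun j => P ∣ j + 1))
    (f := Nat.succ)
  omega

theorem cnt2 {M P : ℕ} :
    ((Finset.range M).filter (fun j => P ∣ j + 2)).card ≤ (M + 1) / P := by
  have h : (Finset.range M).filter (fun j => P ∣ j + 2) ⊆
      (((Finset.range (M + 1)).filter (fun j => P ∣ j + 1)).image Nat.pred) := by
    intro j hj
    rw [Finset.mem_filter, Finset.mem_range] at hj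
    refine Finset.mem_image.mpr ⟨j + 1, ?_, rfl⟩
    rw [Finset.mem_filter, Finset.mem_range]
    exact ⟨by omega, hj.2⟩
  refine (Finset.card_le_card h).trans (Finset.card_image_le.trans ?_)
  rw [Nat.card_multiples]

theorem cntm {M P : ℕ} (hM : 1 ≤ M) (hP : 2 ≤ P) :
    ((Finset.range M).filter (fun j : ℕ => (P : ℤ) ∣ (j : ℤ) - 1)).card ≤ 1 + (M - 1) / P := by
  have h : (Finset.range M).filter (fun j : ℕ => (P : ℤ) ∣ (j : ℤ) - 1) ⊆
      (((Finset.range M).filter (fun j => P ∣ j)).image Nat.succ) := by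
    intro j hj
    rw [Finset.mem_filter, Finset.mem_range] at hj
    have hj0 : 1 ≤ j := by
      by_contra h
      have : j = 0 := by omega
      rw [this] at hj
      have h1 := hj.2
      have h2 : (P : ℤ) ∣ 1 := by
        have := (dvd_neg (a := (P : ℤ)) (b := 1)).mp (by simpa using h1)
        exact this
      have h3 : P ∣ 1 := by exact_mod_cast h2
      have := Nat.le_of_dvd (by norm_num) h3
      omega
    refine Finset.mem_image.mpr ⟨j - 1, ?_, by
        show j - 1 + 1 = j
        omega⟩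
    rw [Finset.mem_filter, Finset.mem_range]
    refine ⟨by omega, ?_⟩
    have h1 := hj.2
    have h2 : (j : ℤ) - 1 = ((j - 1 : ℕ) : ℤ) := by omega
    rw [h2] at h1
    exact_mod_cast h1
  exact (Finset.card_le_card h).trans (Finset.card_image_le.trans (cnt0 hM))

namespace Tri

variable (T : Tri D A B v)
include T

/-- vectors with distinct leading indices are independent -/
theorem lead_indep {ι : Type*} [Fintype ι] (u : ι → V) (l : ι → ℕ) (hl : Function.Injective l)
    (h1 : ∀ i, T.c (l i) (u i) ≠ 0) (h2 : ∀ i k, l i < k → T.c k (u i) = 0) (y : ι → K)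
    (h : ∑ i, y i • u i = 0) : y = 0 := by
  classical
  by_contra hy
  have hne : (Finset.univ.filter fun i => y i ≠ 0).Nonempty := by
    obtain ⟨i, hi⟩ := Function.ne_iff.mp hy
    exact ⟨i, by simpa using hi⟩
  obtain ⟨i, hi, hmax⟩ := Finset.exists_max_image _ l hne
  rw [Finset.mem_filter] at hi
  have h3 := congrArg (T.c (l i)) h
  rw [map_sum, map_zero, Finset.sum_eq_single i] at h3
  · rw [map_smul, smul_eq_mul] at h3
    rcases mul_eq_zero.mp h3 with h4 | h4
    · exact hi.2 h4
    · exact h1 i h4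
  · intro k _ hk
    by_cases hyk : y k = 0
    · rw [hyk, zero_smul, map_zero]
    · have h5 := hmax k (by simpa using hyk)
      have h6 : l k ≠ l i := fun h' => hk (hl h')
      rw [map_smul, h2 k (l i) (by omega), smul_zero]
  · intro h'
    exact absurd (Finset.mem_univ i) h'

open Classical in
theorem two_count (hI : Irr A B) {M : ℕ} (hN : D.N = M) {ι : Type*} [Fintype ι]
    (δ : ι → V →ₗ[K] V) (hA : ∀ i x, δ i (A x) = A (δ i x)) (hB : ∀ i x, δ i (B x) = B (δ i x))
    (hinj : ∀ y : ι → K, ∑ i, y i • δ i (v 0) = 0 → y = 0) (t : K) (p x : V)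
    (hp : B p = t • p) (hx : B x = t • x) (Dop : V →ₗ[K] V)
    (hD : ∀ f : V →ₗ[K] V, (∀ z, f (A z) = A (f z)) → (∀ z, f (B z) = B (f z)) →
      ∀ z, f (Dop z) = Dop (f z)) (hDp : Dop p = 0) (hDx : Dop x ≠ 0) (hp0 : p ≠ 0) :
    2 * Fintype.card ι ≤ ((Finset.range M).filter (fun j => D.θ j = t)).card := by
  set J := (Finset.range M).filter (fun j => D.θ j = t) with hJ
  set L : (ι → K) →ₗ[K] (V →ₗ[K] V) := Fintype.linearCombination K δ with hL
  have hLa : ∀ y, L y = ∑ i, y i • δ i := fun y => by rw [hL, Fintype.linearCombination_apply]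
  have LA : ∀ y z, L y (A z) = A (L y z) := by
    intro y z
    rw [hLa, LinearMap.sum_apply, LinearMap.sum_apply, map_sum]
    refine Finset.sum_congr rfl fun i _ => ?_
    rw [LinearMap.smul_apply, LinearMap.smul_apply, map_smul, hA]
  have LB : ∀ y z, L y (B z) = B (L y z) := by
    intro y z
    rw [hLa, LinearMap.sum_apply, LinearMap.sum_apply, map_sum]
    refine Finset.sum_congr rfl fun i _ => ?_
    rw [LinearMap.smul_apply, LinearMap.smul_apply, map_smul, hB]
  have L0 : ∀ y (z : V), z ≠ 0 → L y z = 0 → y = 0 := by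
    intro y z hz h
    have := hI.inj (f := L y) (LA y) (LB y) hz h (y := v 0)
    refine hinj y ?_
    rw [hLa, LinearMap.sum_apply] at this
    simpa using this
  let Ψ : ((ι → K) × (ι → K)) →ₗ[K] (J → K) := LinearMap.pi fun j =>
    T.c j ∘ₗ ((LinearMap.applyₗ p ∘ₗ L) ∘ₗ LinearMap.fst K _ _ +
      (LinearMap.applyₗ x ∘ₗ L) ∘ₗ LinearMap.snd K _ _)
  have hΨ : Function.Injective Ψ := by
    rw [injective_iff_map_eq_zero]
    rintro ⟨a, b⟩ h
    have hu : L a p + L b x = 0 := by
      refine T.ext_c fun i => ?_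
      by_cases hi : i ∈ J
      · have := congrFun h ⟨i, hi⟩
        simpa [Ψ] using this
      · by_cases hiN : (i : ℕ∞) < D.N
        · have hθ : D.θ i ≠ t := by
            intro h'
            apply hi
            rw [hJ, Finset.mem_filter, Finset.mem_range]
            rw [hN] at hiN
            exact ⟨by exact_mod_cast hiN, h'⟩
          have e1 : B (L a p) = t • L a p := by rw [← LB, hp, map_smul]
          have e2 : B (L b x) = t • L b x := by rw [← LB, hx, map_smul]
          rw [map_add, T.c_of_eig e1 hθ, T.c_of_eig e2 hθ, add_zero]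
        · exact T.c_ge (not_lt.mp hiN) _
    have h1 : L b (Dop x) = 0 := by
      have h2 := congrArg Dop hu
      rw [map_add, map_zero, ← hD _ (LA a) (LB a), ← hD _ (LA b) (LB b), hDp, map_zero,
        zero_add] at h2
      exact h2
    have hb := L0 b _ hDx h1
    rw [hb, map_zero, LinearMap.zero_apply, add_zero] at hu
    have ha := L0 a _ hp0 hu
    rw [ha, hb]
    rfl
  have h := LinearMap.finrank_le_finrank_of_injective hΨ
  rw [Module.finrank_prod, Module.finrank_fintype_fun_eq_card, Module.finrank_fintype_fun_eq_card,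
    Fintype.card_coe] at h
  omega

open Classical in
theorem one_count (hI : Irr A B) {M : ℕ} (hN : D.N = M) {ι : Type*} [Fintype ι]
    (δ : ι → V →ₗ[K] V) (hA : ∀ i x, δ i (A x) = A (δ i x)) (hB : ∀ i x, δ i (B x) = B (δ i x))
    (hinj : ∀ y : ι → K, ∑ i, y i • δ i (v 0) = 0 → y = 0) (t : K) (p : V)
    (hp : B p = t • p) (hp0 : p ≠ 0) :
    Fintype.card ι ≤ ((Finset.range M).filter (fun j => D.θ j = t)).card := by
  set J := (Finset.range M).filter (fun j => D.θ j = t) with hJ
  set L : (ι → K) →ₗ[K] (V →ₗ[K] V) := Fintype.linearCombination K δ with hL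
  have hLa : ∀ y, L y = ∑ i, y i • δ i := fun y => by rw [hL, Fintype.linearCombination_apply]
  have LA : ∀ y z, L y (A z) = A (L y z) := by
    intro y z
    rw [hLa, LinearMap.sum_apply, LinearMap.sum_apply, map_sum]
    refine Finset.sum_congr rfl fun i _ => ?_
    rw [LinearMap.smul_apply, LinearMap.smul_apply, map_smul, hA]
  have LB : ∀ y z, L y (B z) = B (L y z) := by
    intro y z
    rw [hLa, LinearMap.sum_apply, LinearMap.sum_apply, map_sum]
    refine Finset.sum_congr rfl fun i _ => ?_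
    rw [LinearMap.smul_apply, LinearMap.smul_apply, map_smul, hB]
  let Ψ : (ι → K) →ₗ[K] (J → K) := LinearMap.pi fun j =>
    T.c j ∘ₗ (LinearMap.applyₗ p ∘ₗ L)
  have hΨ : Function.Injective Ψ := by
    rw [injective_iff_map_eq_zero]
    intro a h
    have hu : L a p = 0 := by
      refine T.ext_c fun i => ?_
      by_cases hi : i ∈ J
      · have := congrFun h ⟨i, hi⟩
        simpa [Ψ] using this
      · by_cases hiN : (i : ℕ∞) < D.N
        · have hθ : D.θ i ≠ t := by
            intro h'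
            apply hi
            rw [hJ, Finset.mem_filter, Finset.mem_range]
            rw [hN] at hiN
            exact ⟨by exact_mod_cast hiN, h'⟩
          have e1 : B (L a p) = t • L a p := by rw [← LB, hp, map_smul]
          rw [T.c_of_eig e1 hθ]
        · exact T.c_ge (not_lt.mp hiN) _
    have := hI.inj (f := L a) (LA a) (LB a) hp0 hu (y := v 0)
    refine hinj a ?_
    rw [hLa, LinearMap.sum_apply] at this
    simpa using this
  have h := LinearMap.finrank_le_finrank_of_injective hΨ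
  rw [Module.finrank_fintype_fun_eq_card, Module.finrank_fintype_fun_eq_card,
    Fintype.card_coe] at h
  exact h

/-- the detector -/
noncomputable def Dop : V →ₗ[K] V :=
  (LinearMap.id - T.π (D.θ 1)) ∘ₗ (A - D.a 0 • LinearMap.id)

theorem Dop_apply (x : V) : T.Dop x = (A x - D.a 0 • x) - T.π (D.θ 1) (A x - D.a 0 • x) := by
  simp [Dop]

theorem Dop_comm {f : V →ₗ[K] V} (hA : ∀ z, f (A z) = A (f z)) (hB : ∀ z, f (B z) = B (f z))
    (z : V) : f (T.Dop z) = T.Dop (f z) := by
  rw [T.Dop_apply, T.Dop_apply, map_sub, T.comm_π hB, map_sub, map_smul, hA]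

theorem Dop_v0 : T.Dop (v 0) = 0 := by
  rw [T.Dop_apply, T.A_zero, add_sub_cancel_right, T.π_pos rfl, sub_self]

theorem pow_lead {q : K[X]} {P : ℕ} (hm : q.Monic) (hd : q.natDegree = P) (i : ℕ)
    (hN : ((i * P : ℕ) : ℕ∞) < D.N) : T.c (i * P) (aeval A (q ^ i) (v 0)) = 1 ∧
    ∀ k, i * P < k → T.c k (aeval A (q ^ i) (v 0)) = 0 := by
  have L := T.lead_aeval (q ^ i)
  have hdk : (q ^ i).natDegree = i * P := by rw [natDegree_pow, hd]
  rw [hdk] at L
  exact ⟨by rw [L.2 hN, (hm.pow i).leadingCoeff], L.1⟩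

theorem pow_commA (q : K[X]) (x : V) : aeval A q (A x) = A (aeval A q x) := by
  have : aeval A q * A = A * aeval A q := by
    have h : aeval A (q * X) = aeval A q * aeval A X := map_mul _ q X
    have h' : aeval A (X * q) = aeval A X * aeval A q := map_mul _ X q
    rw [aeval_X] at h h'
    rw [← h, ← h', mul_comm]
  exact congrArg (fun f => f x) this

theorem pow_commB {q : K[X]} (h : ∀ x, aeval A q (B x) = B (aeval A q x)) (i : ℕ) (x : V) :
    aeval A (q ^ i) (B x) = B (aeval A (q ^ i) x) := by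
  induction i generalizing x with
  | zero => simp
  | succ i ih => rw [pow_succ, map_mul, Module.End.mul_apply, Module.End.mul_apply, h, ih]

end Tri

theorem succ_div_dvd {M P : ℕ} (hM : 1 ≤ M) (h : 1 + (M - 1) / P ≤ M / P) : P ∣ M := by
  obtain ⟨a, rfl⟩ : ∃ a, M = a + 1 := ⟨M - 1, by omega⟩
  rw [Nat.add_sub_cancel, Nat.succ_div] at h
  by_contra hd
  rw [if_neg hd] at h
  omega

theorem succ_div_dvd' {M P : ℕ} (hM : 1 ≤ M) (h : 1 + (M - 1) / P ≤ (M + 1) / P) :
    P ∣ M ∨ P ∣ M + 1 := by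
  obtain ⟨a, rfl⟩ : ∃ a, M = a + 1 := ⟨M - 1, by omega⟩
  rw [Nat.add_sub_cancel, Nat.succ_div, Nat.succ_div] at h
  by_contra hd
  push Not at hd
  rw [if_neg hd.1, if_neg hd.2] at h
  omega

theorem idx_lt {M P n : ℕ} (hM : 1 ≤ M) (hP : 1 ≤ P) (hn : n ≤ 1 + (M - 1) / P) (i : Fin n) :
    (i : ℕ) * P < M := by
  have h1 : (i : ℕ) ≤ (M - 1) / P := by have := i.2; omega
  have h2 : (i : ℕ) * P ≤ M - 1 := (Nat.mul_le_mul_right P h1).trans (Nat.div_mul_le_self _ _)
  omega

/-- start type (L): the size is a multiple of the period -/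
theorem dvd_L (T : Tri D A B v) (G : Good s D) (hAW : IsAW s A B) (hI : Irr A B) {P : ℕ}
    (hT : D.IsPeriod P) (hL : D.pre s 0 = D.θ 0) (hnc : D.θ 0 ≠ D.θ 1) (hPN : (P : ℕ∞) < D.N) :
    ∃ n : ℕ, D.N = ((n * P : ℕ) : ℕ∞) ∧ D.a (n * P - 1) ≠ D.a 0 := by
  classical
  have hP3 := typeL_ge3 G hT hL hnc
  obtain ⟨hqm, hqd⟩ := q_monic (D := D) hT.1
  have hcomm := fun x => typeL_comm T G hAW hT hL hnc hPN x
  have hfin := Gen.fin_of_irr T hT.1 hqm hqd (fun _ => hcomm) hI
  obtain ⟨M, hM⟩ := ENat.ne_top_iff_exists.mp hfin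
  have hN : D.N = (M : ℕ∞) := hM.symm
  have hPM : P < M := by rw [hN] at hPN; exact_mod_cast hPN
  have hM1 : 1 ≤ M := by omega
  -- the second vector
  have hdx : P ∣ (P - 1) + 1 := by rw [Nat.sub_add_cancel hT.1]
  obtain ⟨i0, i1, i2, i3⟩ := typeL_idx G hT hL hnc hdx
  have hxB : B (v (P - 1)) = D.θ 0 • v (P - 1) := by rw [T.hB, i0]
  have hDx : T.Dop (v (P - 1)) ≠ 0 := by
    intro h
    have h1 := congrArg (T.c P) h
    have hP1 : P - 1 + 1 = P := Nat.sub_add_cancel hT.1
    rw [T.Dop_apply, map_sub, map_zero, T.c_π_neg (by rw [← hP1, i1]; exact hnc), sub_zero,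
      map_sub, map_smul, T.hA, hP1, map_add, map_add, map_smul, map_smul, T.c_self hPN,
      T.c_ne (by omega : P ≠ P - 1), T.c_ne (by omega : P ≠ P - 1 - 1)] at h1
    simp at h1
  have hJ : ((Finset.range M).filter (fun j => D.θ j = D.θ 0)).card ≤ (1 + (M - 1) / P) + M / P := by
    have h1 : (Finset.range M).filter (fun j => D.θ j = D.θ 0) ⊆
      (Finset.range M).filter (fun j => P ∣ j) ∪ (Finset.range M).filter (fun j => P ∣ j + 1) := by
      intro j hj
      rw [Finset.mem_filter] at hj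
      rw [Finset.mem_union, Finset.mem_filter, Finset.mem_filter]
      rcases typeL_class G hT hL hnc hj.2 with h | h
      · exact Or.inl ⟨hj.1, h⟩
      · exact Or.inr ⟨hj.1, h⟩
    refine (Finset.card_le_card h1).trans ((Finset.card_union_le _ _).trans ?_)
    rw [Nat.card_multiples]
    exact Nat.add_le_add_right (cnt0 hM1) _
  -- first count
  have hdvd : P ∣ M := by
    refine succ_div_dvd hM1 ?_
    have := T.two_count hI hN (ι := Fin (1 + (M - 1) / P)) (fun i => aeval A (D.q P ^ (i : ℕ)))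
      (fun i x => T.pow_commA _ x) (fun i x => T.pow_commB hcomm _ x) (fun y hy => by
        refine T.lead_indep (fun i : Fin (1 + (M - 1) / P) => aeval A (D.q P ^ (i : ℕ)) (v 0))
          (fun i => (i : ℕ) * P) ?_ ?_ ?_ y hy
        · intro i j h
          exact Fin.ext (Nat.eq_of_mul_eq_mul_right hT.1 h)
        · intro i
          have hlt := idx_lt hM1 hT.1 le_rfl i
          rw [(T.pow_lead hqm hqd i (by rw [hN]; exact_mod_cast hlt)).1]
          exact one_ne_zero
        · intro i k hk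
          have hlt := idx_lt hM1 hT.1 le_rfl i
          exact (T.pow_lead hqm hqd i (by rw [hN]; exact_mod_cast hlt)).2 k hk)
      (D.θ 0) (v 0) (v (P - 1)) (T.hB 0) hxB T.Dop (fun f h1 h2 z => T.Dop_comm h1 h2 z) T.Dop_v0 hDx
      (T.v_ne T.zero_lt)
    rw [Fintype.card_fin] at this
    omega
  obtain ⟨n, hn⟩ := hdvd
  have hn' : M = n * P := by rw [hn, mul_comm]
  have hMP : M / P = n := by rw [hn, Nat.mul_div_cancel_left _ hT.1]
  have hMP' : 1 + (M - 1) / P = n := by
    obtain ⟨a, rfl⟩ : ∃ a, M = a + 1 := ⟨M - 1, by omega⟩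
    rw [Nat.succ_div, if_pos ⟨n, hn⟩] at hMP
    rw [Nat.add_sub_cancel]
    omega
  refine ⟨n, by rw [hN, hn'], fun ha => ?_⟩
  rw [← hn'] at ha
  -- second count
  have hdM : P ∣ (M - 1) + 1 := by rw [Nat.sub_add_cancel hM1, hn]; exact dvd_mul_right P n
  obtain ⟨j0, j1, j2, j3⟩ := typeL_idx G hT hL hnc hdM
  have hlt : ((M - 1 : ℕ) : ℕ∞) < D.N := by rw [hN]; exact_mod_cast (by omega : M - 1 < M)
  have hm2 : D.θ (M - 1 - 1) = D.θ 1 := by
    have := j3
    obtain ⟨k, hk⟩ : ∃ k, M - 1 = k + 1 := ⟨M - 1 - 1, by omega⟩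
    rw [hk] at this ⊢
    exact this
  have hAe : A (v (M - 1)) - D.a 0 • v (M - 1) = D.w (M - 1) • v (M - 1 - 1) := by
    rw [T.hA, Nat.sub_add_cancel hM1, T.vz M (by rw [hN]), ha]
    abel
  obtain ⟨f, fA, fB, f0⟩ := T.end_of G hAW (v (M - 1)) (by rw [T.hB, j0]) (by
    rw [hAe, map_smul, T.hB, hm2, smul_comm])
  have hnd : ∀ i : ℕ, i * P ≠ M - 1 := by
    intro i hi
    have h1 : P ∣ M - 1 := ⟨i, by rw [← hi, mul_comm]⟩
    have h2 : P ∣ M - (M - 1) := Nat.dvd_sub ⟨n, hn⟩ h1
    rw [show M - (M - 1) = 1 by omega] at h2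
    have := Nat.le_of_dvd (by norm_num) h2
    omega
  have hidx : ∀ i : Fin n, (((i : ℕ) * P : ℕ) : ℕ∞) < D.N := by
    intro i
    rw [hN]
    exact_mod_cast idx_lt hM1 hT.1 (by rw [hMP']) i
  have := T.two_count hI hN (ι := Option (Fin n))
    (fun i => i.elim f (fun i => aeval A (D.q P ^ (i : ℕ))))
    (fun i x => by cases i with
      | none => exact fA x
      | some i => exact T.pow_commA _ x)
    (fun i x => by cases i with
      | none => exact fB x
      | some i => exact T.pow_commB hcomm _ x)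
    (fun y hy => by
      refine T.lead_indep (fun i : Option (Fin n) =>
        (i.elim f (fun i => aeval A (D.q P ^ (i : ℕ))) : V →ₗ[K] V) (v 0))
        (fun i => i.elim (M - 1) (fun i => (i : ℕ) * P)) ?_ ?_ ?_ y hy
      · intro i j h
        cases i with
        | none =>
          cases j with
          | none => rfl
          | some j => exact absurd h.symm (hnd j)
        | some i =>
          cases j with
          | none => exact absurd h (hnd i)
          | some j =>
            congr 1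
            exact Fin.ext (Nat.eq_of_mul_eq_mul_right hT.1 h)
      · intro i
        cases i with
        | none =>
          show T.c (M - 1) (f (v 0)) ≠ 0
          rw [f0, T.c_self hlt]
          exact one_ne_zero
        | some i =>
          show T.c ((i : ℕ) * P) (aeval A (D.q P ^ (i : ℕ)) (v 0)) ≠ 0
          rw [(T.pow_lead hqm hqd i (hidx i)).1]
          exact one_ne_zero
      · intro i k hk
        cases i with
        | none =>
          show T.c k (f (v 0)) = 0
          have hk' : M - 1 < k := hk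
          rw [f0, T.c_ne (by omega)]
        | some i => exact (T.pow_lead hqm hqd i (hidx i)).2 k hk)
    (D.θ 0) (v 0) (v (P - 1)) (T.hB 0) hxB T.Dop (fun f h1 h2 z => T.Dop_comm h1 h2 z) T.Dop_v0 hDx
    (T.v_ne T.zero_lt)
  rw [Fintype.card_option, Fintype.card_fin] at this
  omega

/-- start type (b) -/
theorem dvd_b (T : Tri D A B v) (G : Good s D) (hAW : IsAW s A B) (hI : Irr A B) {P : ℕ}
    (hT : D.IsPeriod P) (hb : D.Th s (-2) = D.θ 0) (hn0 : D.pre s 0 ≠ D.θ 0)
    (hn1 : D.pre s 0 ≠ D.θ 1) (hPN : (P : ℕ∞) ≤ D.N) :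
    ∃ n : ℕ, D.N = ((n * P : ℕ) : ℕ∞) := by
  classical
  have hP3 := typeB_ge3 G hT hb hn0 hn1
  obtain ⟨hqm, hqd⟩ := q_monic (D := D) hT.1
  have hcomm := fun (h : (P : ℕ∞) < D.N) x => typeB_comm T G hAW hT hb hn0 hn1 h x
  have hfin := Gen.fin_of_irr T hT.1 hqm hqd hcomm hI
  obtain ⟨M, hM⟩ := ENat.ne_top_iff_exists.mp hfin
  have hN : D.N = (M : ℕ∞) := hM.symm
  have hPM : P ≤ M := by rw [hN] at hPN; exact_mod_cast hPN
  have hM1 : 1 ≤ M := by omega
  rcases Nat.eq_or_lt_of_le hPM with hEq | hLt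
  · exact ⟨1, by rw [hN, ← hEq, one_mul]⟩
  have hPN' : (P : ℕ∞) < D.N := by rw [hN]; exact_mod_cast hLt
  have hcomm' := hcomm hPN'
  obtain ⟨t, rfl⟩ : ∃ t, P = t + 2 := ⟨P - 2, by omega⟩
  obtain ⟨i0, i1, i2, i3, i4⟩ := typeB_idx G hT hb hn0 hn1 (j := t) (dvd_refl _)
  have hxB : B (v t) = D.θ 0 • v t := by rw [T.hB, i0]
  have ht1 : ((t + 1 : ℕ) : ℕ∞) < D.N := Tri.lt_mono hPN' (by omega)
  have hDx : T.Dop (v t) ≠ 0 := by
    intro h
    have h1 := congrArg (T.c (t + 1)) h
    rw [T.Dop_apply, map_sub, map_zero, T.c_π_neg (by rw [i1]; exact hn1), sub_zero,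
      map_sub, map_smul, T.hA, map_add, map_add, map_smul, map_smul, T.c_self ht1,
      T.c_ne (by omega : t + 1 ≠ t), T.c_ne (by omega : t + 1 ≠ t - 1)] at h1
    simp at h1
  have hJ : ((Finset.range M).filter (fun j => D.θ j = D.θ 0)).card ≤
      (1 + (M - 1) / (t + 2)) + (M + 1) / (t + 2) := by
    have h1 : (Finset.range M).filter (fun j => D.θ j = D.θ 0) ⊆
      (Finset.range M).filter (fun j => t + 2 ∣ j) ∪
        (Finset.range M).filter (fun j => t + 2 ∣ j + 2) := by
      intro j hj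
      rw [Finset.mem_filter] at hj
      rw [Finset.mem_union, Finset.mem_filter, Finset.mem_filter]
      rcases typeB_class G hT hb hn0 hn1 hj.2 with h | h
      · exact Or.inl ⟨hj.1, h⟩
      · exact Or.inr ⟨hj.1, h⟩
    refine (Finset.card_le_card h1).trans ((Finset.card_union_le _ _).trans ?_)
    exact Nat.add_le_add (cnt0 hM1) cnt2
  have hdvd : t + 2 ∣ M ∨ t + 2 ∣ M + 1 := by
    refine succ_div_dvd' hM1 ?_
    have := T.two_count hI hN (ι := Fin (1 + (M - 1) / (t + 2)))
      (fun i => aeval A (D.q (t + 2) ^ (i : ℕ)))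
      (fun i x => T.pow_commA _ x) (fun i x => T.pow_commB hcomm' _ x) (fun y hy => by
        refine T.lead_indep (fun i : Fin (1 + (M - 1) / (t + 2)) =>
          aeval A (D.q (t + 2) ^ (i : ℕ)) (v 0))
          (fun i => (i : ℕ) * (t + 2)) ?_ ?_ ?_ y hy
        · intro i j h
          exact Fin.ext (Nat.eq_of_mul_eq_mul_right hT.1 h)
        · intro i
          have hlt := idx_lt hM1 hT.1 le_rfl i
          rw [(T.pow_lead hqm hqd i (by rw [hN]; exact_mod_cast hlt)).1]
          exact one_ne_zero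
        · intro i k hk
          have hlt := idx_lt hM1 hT.1 le_rfl i
          exact (T.pow_lead hqm hqd i (by rw [hN]; exact_mod_cast hlt)).2 k hk)
      (D.θ 0) (v 0) (v t) (T.hB 0) hxB T.Dop (fun f h1 h2 z => T.Dop_comm h1 h2 z) T.Dop_v0 hDx
      (T.v_ne T.zero_lt)
    rw [Fintype.card_fin] at this
    omega
  rcases hdvd with hdvd | hdvd
  · obtain ⟨n, hn⟩ := hdvd
    exact ⟨n, by rw [hN, hn, mul_comm]⟩
  exfalso
  obtain ⟨n, hn⟩ := hdvd
  have hMP : (M + 1) / (t + 2) = n := by rw [hn, Nat.mul_div_cancel_left _ hT.1]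
  have hMP' : 1 + (M - 1) / (t + 2) = n := by
    obtain ⟨a, rfl⟩ : ∃ a, M = a + 1 := ⟨M - 1, by omega⟩
    rw [Nat.succ_div, if_pos ⟨n, hn⟩, Nat.succ_div, if_neg] at hMP
    · rw [Nat.add_sub_cancel]
      omega
    · intro h
      have h2 : t + 2 ∣ (a + 1 + 1) - (a + 1) := Nat.dvd_sub ⟨n, hn⟩ h
      rw [show a + 1 + 1 - (a + 1) = 1 by omega] at h2
      have := Nat.le_of_dvd (by norm_num) h2
      omega
  -- the last vector is special
  obtain ⟨k, rfl⟩ : ∃ k, M = k + 2 := ⟨M - 2, by omega⟩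
  have hdk : t + 2 ∣ (k + 1) + 2 := ⟨n, hn⟩
  obtain ⟨j0, j1, j2, j3, j4⟩ := typeB_idx G hT hb hn0 hn1 hdk
  have j4' : D.θ k = D.θ 1 := j4
  have hlt : ((k + 1 : ℕ) : ℕ∞) < D.N := by rw [hN]; exact_mod_cast (by omega : k + 1 < k + 2)
  have hAe : A (v (k + 1)) - D.a 0 • v (k + 1) = (D.a (k + 1) - D.a 0) • v (k + 1) +
      D.w (k + 1) • v k := by
    rw [T.A_succ, T.vz (k + 2) (by rw [hN])]
    module
  obtain ⟨f, fA, fB, f0⟩ := T.end_of G hAW (v (k + 1)) (by rw [T.hB, j0]) (by
    rw [hAe]
    by_cases h01 : D.θ 0 = D.θ 1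
    · rw [map_add, map_smul, map_smul, T.hB, T.hB, j0, j4', h01]
      module
    · have ha : D.a (k + 1) = D.a 0 := G.a_eq hlt G.zero_lt j0 (fun h => hn0 h.symm) h01
      rw [ha, sub_self, zero_smul, zero_add, map_smul, T.hB, j4', smul_comm])
  have hnd : ∀ i : ℕ, i * (t + 2) ≠ k + 1 := by
    intro i hi
    have h1 : t + 2 ∣ k + 1 := ⟨i, by rw [← hi, mul_comm]⟩
    have h2 : t + 2 ∣ (k + 2 + 1) - (k + 1) := Nat.dvd_sub ⟨n, hn⟩ h1
    rw [show k + 2 + 1 - (k + 1) = 2 by omega] at h2
    have := Nat.le_of_dvd (by norm_num) h2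
    omega
  have hidx : ∀ i : Fin n, (((i : ℕ) * (t + 2) : ℕ) : ℕ∞) < D.N := by
    intro i
    rw [hN]
    exact_mod_cast idx_lt hM1 hT.1 (by rw [hMP']) i
  have := T.two_count hI hN (ι := Option (Fin n))
    (fun i => i.elim f (fun i => aeval A (D.q (t + 2) ^ (i : ℕ))))
    (fun i x => by cases i with
      | none => exact fA x
      | some i => exact T.pow_commA _ x)
    (fun i x => by cases i with
      | none => exact fB x
      | some i => exact T.pow_commB hcomm' _ x)
    (fun y hy => by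
      refine T.lead_indep (fun i : Option (Fin n) =>
        (i.elim f (fun i => aeval A (D.q (t + 2) ^ (i : ℕ))) : V →ₗ[K] V) (v 0))
        (fun i => i.elim (k + 1) (fun i => (i : ℕ) * (t + 2))) ?_ ?_ ?_ y hy
      · intro i j h
        cases i with
        | none =>
          cases j with
          | none => rfl
          | some j => exact absurd h.symm (hnd j)
        | some i =>
          cases j with
          | none => exact absurd h (hnd i)
          | some j =>
            congr 1
            exact Fin.ext (Nat.eq_of_mul_eq_mul_right hT.1 h)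
      · intro i
        cases i with
        | none =>
          show T.c (k + 1) (f (v 0)) ≠ 0
          rw [f0, T.c_self hlt]
          exact one_ne_zero
        | some i =>
          show T.c ((i : ℕ) * (t + 2)) (aeval A (D.q (t + 2) ^ (i : ℕ)) (v 0)) ≠ 0
          rw [(T.pow_lead hqm hqd i (hidx i)).1]
          exact one_ne_zero
      · intro i m hm
        cases i with
        | none =>
          show T.c m (f (v 0)) = 0
          have hk' : k + 1 < m := hm
          rw [f0, T.c_ne (by omega)]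
        | some i => exact (T.pow_lead hqm hqd i (hidx i)).2 m hm)
    (D.θ 0) (v 0) (v t) (T.hB 0) hxB T.Dop (fun f h1 h2 z => T.Dop_comm h1 h2 z) T.Dop_v0 hDx
    (T.v_ne T.zero_lt)
  rw [Fintype.card_option, Fintype.card_fin] at this
  omega

/-- start type (a) -/
theorem dvd_a (T : Tri D A B v) (G : Good s D) (hAW : IsAW s A B) (hI : Irr A B) {P : ℕ}
    (hT : D.IsPeriod P) (ha : D.pre s 0 = D.θ 1) (hnc : D.θ 0 ≠ D.θ 1)
    (hPN : ((P + 1 : ℕ) : ℕ∞) < D.N) :
    ∃ n : ℕ, D.N = ((n * P : ℕ) : ℕ∞) := by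
  classical
  have hP2 := period_ge_two_a G ha hnc hT
  have hPN0 : (P : ℕ∞) < D.N := Tri.lt_of_succ_lt hPN
  obtain ⟨hqm, hqd⟩ := q_monic (D := D) hT.1
  have hcomm := fun x => typeA_comm T G hAW hT ha hnc hPN0 x
  have hfin := Gen.fin_of_irr T hT.1 hqm hqd (fun _ => hcomm) hI
  obtain ⟨M, hM⟩ := ENat.ne_top_iff_exists.mp hfin
  have hN : D.N = (M : ℕ∞) := hM.symm
  have hPM : P + 1 < M := by rw [hN] at hPN; exact_mod_cast hPN
  have hM1 : 1 ≤ M := by omega
  have hinj : ∀ y : Fin (1 + (M - 1) / P) → K, ∑ i, y i • aeval A (D.q P ^ (i : ℕ)) (v 0) = 0 →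
      y = 0 := by
    intro y hy
    refine T.lead_indep (fun i : Fin (1 + (M - 1) / P) => aeval A (D.q P ^ (i : ℕ)) (v 0))
      (fun i => (i : ℕ) * P) ?_ ?_ ?_ y hy
    · intro i j h
      exact Fin.ext (Nat.eq_of_mul_eq_mul_right hT.1 h)
    · intro i
      have hlt := idx_lt hM1 hT.1 le_rfl i
      rw [(T.pow_lead hqm hqd i (by rw [hN]; exact_mod_cast hlt)).1]
      exact one_ne_zero
    · intro i k hk
      have hlt := idx_lt hM1 hT.1 le_rfl i
      exact (T.pow_lead hqm hqd i (by rw [hN]; exact_mod_cast hlt)).2 k hk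
  have hclass : ∀ j : ℕ, D.θ j = D.θ 1 → (P : ℤ) ∣ (j : ℤ) - 1 ∨ P ∣ j + 1 := by
    intro j hj
    rcases G.class_of hT (G.refl_a ha) (i := 1) (j := (j : ℤ)) hj.symm with h2 | h2
    · exact Or.inl h2
    · right
      rw [show (1 : ℤ) + j - 0 = ((j + 1 : ℕ) : ℤ) by push_cast; ring] at h2
      exact_mod_cast h2
  have hdvd : P ∣ M := by
    refine succ_div_dvd hM1 ?_
    by_cases hP : P = 2
    · have h1 := T.one_count hI hN (ι := Fin (1 + (M - 1) / P)) (fun i => aeval A (D.q P ^ (i : ℕ)))
        (fun i x => T.pow_commA _ x) (fun i x => T.pow_commB hcomm _ x) hinj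
        (D.θ 1) (v 1) (T.hB 1) (T.v_ne G.one_lt)
      rw [Fintype.card_fin] at h1
      refine h1.trans ?_
      rw [← Nat.card_multiples M P]
      refine Finset.card_le_card fun j hj => ?_
      rw [Finset.mem_filter] at hj ⊢
      refine ⟨hj.1, ?_⟩
      rcases hclass j hj.2 with h2 | h2
      · subst hP
        have : (2 : ℤ) ∣ (j : ℤ) + 1 := by
          have h3 : (j : ℤ) + 1 = ((j : ℤ) - 1) + 2 := by ring
          rw [h3]
          exact dvd_add h2 (dvd_refl _)
        exact_mod_cast this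
      · exact h2
    · have hP3 : 3 ≤ P := by omega
      -- neighbours of the start
      have h20 : D.θ 2 ≠ D.θ 0 := by
        intro h
        rcases G.class_of hT (G.refl_a ha) (i := 0) (j := 2) h.symm with h2 | h2
        · have h3 : P ∣ 2 := by
            have : (P : ℤ) ∣ ((2 : ℕ) : ℤ) := by simpa using h2
            exact_mod_cast this
          have := Nat.le_of_dvd (by norm_num) h3
          omega
        · have h3 : P ∣ 2 := by
            have : (P : ℤ) ∣ ((2 : ℕ) : ℤ) := by simpa using h2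
            exact_mod_cast this
          have := Nat.le_of_dvd (by norm_num) h3
          omega
      obtain ⟨t, rfl⟩ : ∃ t, P = t + 2 := ⟨P - 2, by omega⟩
      have hper : ∀ k : ℤ, D.Th s (((t + 2 : ℕ) : ℤ) + k) = D.Th s k := by
        intro k
        refine G.Th_of_dvd hT ?_
        rw [add_sub_cancel_right]
      have p0 : D.θ (t + 2) = D.θ 0 := hT.2.1
      have p1 : D.θ (t + 3) = D.θ 1 := hT.2.2.1
      have p2 : D.θ (t + 4) = D.θ 2 := by
        have := hper 2
        rw [show (((t + 2 : ℕ) : ℤ) + 2) = ((t + 4 : ℕ) : ℤ) by push_cast; ring] at this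
        exact this
      have pm1 : D.θ (t + 1) = D.θ 1 := by
        have := hper (-1)
        rw [show (((t + 2 : ℕ) : ℤ) + -1) = ((t + 1 : ℕ) : ℤ) by push_cast; ring, Th_m1, ha] at this
        exact this
      have pm2 : D.θ t = D.θ 2 := by
        have := hper (-2)
        rw [show (((t + 2 : ℕ) : ℤ) + -2) = (t : ℤ) by push_cast; ring, G.refl_a ha (-2)] at this
        exact this
      have hw : D.w (t + 3) ≠ 0 := G.w_ne (by omega) hPN
      set p := D.w (t + 3) • v (t + 1) - v (t + 3) with hp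
      have hpB : B p = D.θ 1 • p := by
        rw [hp, map_sub, map_smul, T.hB, T.hB, pm1, p1]
        module
      have hp0 : p ≠ 0 := by
        intro h
        have h1 := congrArg (T.c (t + 3)) h
        rw [hp, map_sub, map_smul, T.c_self hPN, T.c_ne (by omega)] at h1
        simp at h1
      have hDp : (T.π (D.θ 0) ∘ₗ A) p = 0 := by
        rw [LinearMap.comp_apply, hp, map_sub, map_smul, T.A_succ, T.A_succ,
          show t + 2 + 1 = t + 3 from rfl, show t + 2 + 2 = t + 4 from rfl]
        simp only [map_sub, map_add, map_smul]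
        rw [T.π_pos p0, T.π_neg (j := t + 1) (by rw [pm1]; exact hnc.symm),
          T.π_neg (j := t) (by rw [pm2]; exact h20), T.π_neg (j := t + 4) (by rw [p2]; exact h20),
          T.π_neg (j := t + 3) (by rw [p1]; exact hnc.symm)]
        module
      have hDx : (T.π (D.θ 0) ∘ₗ A) (v 1) ≠ 0 := by
        rw [LinearMap.comp_apply, T.A_succ 0]
        simp only [map_sub, map_add, map_smul, zero_add]
        rw [T.π_neg h20, T.π_neg (j := 1) hnc.symm, T.π_pos (j := 0) rfl]
        simp only [smul_zero, zero_add]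
        exact smul_ne_zero (G.w_ne le_rfl G.one_lt) (T.v_ne T.zero_lt)
      have h1 := T.two_count hI hN (ι := Fin (1 + (M - 1) / (t + 2)))
        (fun i => aeval A (D.q (t + 2) ^ (i : ℕ)))
        (fun i x => T.pow_commA _ x) (fun i x => T.pow_commB hcomm _ x) hinj
        (D.θ 1) p (v 1) hpB (T.hB 1) (T.π (D.θ 0) ∘ₗ A) (fun f h1 h2 z => by
          rw [LinearMap.comp_apply, LinearMap.comp_apply, T.comm_π h2, h1]) hDp hDx hp0
      rw [Fintype.card_fin] at h1
      have hJ : ((Finset.range M).filter (fun j => D.θ j = D.θ 1)).card ≤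
          (1 + (M - 1) / (t + 2)) + M / (t + 2) := by
        have h1 : (Finset.range M).filter (fun j => D.θ j = D.θ 1) ⊆
          (Finset.range M).filter (fun j : ℕ => ((t + 2 : ℕ) : ℤ) ∣ (j : ℤ) - 1) ∪
            (Finset.range M).filter (fun j => t + 2 ∣ j + 1) := by
          intro j hj
          rw [Finset.mem_filter] at hj
          rw [Finset.mem_union, Finset.mem_filter, Finset.mem_filter]
          rcases hclass j hj.2 with h | h
          · exact Or.inl ⟨hj.1, h⟩
          · exact Or.inr ⟨hj.1, h⟩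
        refine (Finset.card_le_card h1).trans ((Finset.card_union_le _ _).trans ?_)
        rw [Nat.card_multiples]
        exact Nat.add_le_add_right (cntm hM1 (by omega)) _
      omega
  obtain ⟨n, hn⟩ := hdvd
  exact ⟨n, by rw [hN, hn, mul_comm]⟩

end Pool.Agent.Helper9.AW
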