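import Mathlib

/-! Definitions used in the classification of the irreducible modules of polynomial type over the
Askey-Wilson algebra. -/

set_option autoImplicit false

namespace Pool.Agent.Helper9.AW

open Polynomial

/-- The eight scalars `β, γ, γ*, ρ, ρ*, ω, η, η*`. -/
structure Scalars (K : Type*) where
  β : K
  γ : K
  γs : K
  ρ : K
  ρs : K
  ω : K
  η : K
  ηs : K

variable {K : Type*} [Field K]

/-- The two Askey-Wilson relations between the free generators `a = A` and `b = A*`. -/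
inductive Rel (s : Scalars K) : FreeAlgebra K (Fin 2) → FreeAlgebra K (Fin 2) → Prop
  | first (a b : FreeAlgebra K (Fin 2)) (ha : a = FreeAlgebra.ι K 0) (hb : b = FreeAlgebra.ι K 1) :
      Rel s (a ^ 2 * b - s.β • (a * b * a) + b * a ^ 2 - s.γ • (a * b + b * a) - s.ρ • b)
        (s.γs • a ^ 2 + s.ω • a + s.η • 1)
  | second (a b : FreeAlgebra K (Fin 2)) (ha : a = FreeAlgebra.ι K 0)
      (hb : b = FreeAlgebra.ι K 1) :
      Rel s (b ^ 2 * a - s.β • (b * a * b) + a * b ^ 2 - s.γs • (b * a + a * b) - s.ρs • a)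
        (s.γ • b ^ 2 + s.ω • b + s.ηs • 1)

/-- The Askey-Wilson algebra. -/
abbrev AwAlg (s : Scalars K) := RingQuot (Rel s)

/-- The generator `A`. -/
noncomputable def gA (s : Scalars K) : AwAlg s := RingQuot.mkAlgHom K (Rel s) (FreeAlgebra.ι K 0)

/-- The generator `A*`. -/
noncomputable def gB (s : Scalars K) : AwAlg s := RingQuot.mkAlgHom K (Rel s) (FreeAlgebra.ι K 1)

/-- Polynomial type: there is a basis indexed by the natural numbers below `N` (finite or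
infinite) in which `A*` acts by a diagonal and `A` by an irreducible tridiagonal matrix. -/
def PolyType (s : Scalars K) (V : Type*) [AddCommGroup V] [Module K V] [Module (AwAlg s) V] :
    Prop :=
  ∃ (N : ℕ∞) (b : Module.Basis {j : ℕ // (j : ℕ∞) < N} K V),
    (∀ i j, i ≠ j → b.repr (gB s • b j) i = 0) ∧
    (∀ i j : {j : ℕ // (j : ℕ∞) < N}, ((i : ℕ) + 1 < j ∨ (j : ℕ) + 1 < i) →
      b.repr (gA s • b j) i = 0) ∧
    (∀ i j : {j : ℕ // (j : ℕ∞) < N}, ((i : ℕ) + 1 = j ∨ (j : ℕ) + 1 = i) →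
      b.repr (gA s • b j) i ≠ 0)

/-- An array: a size `N` (a positive integer or infinity) and three sequences. -/
structure Arr (K : Type*) where
  N : ℕ∞
  θ : ℕ → K
  a : ℕ → K
  w : ℕ → K

/-- The array `D` describes the module `V`: there is a basis `v_j` (`0 ≤ j < N`) with
`A v_j = v_{j+1} + a_j v_j + w_j v_{j-1}` and `A* v_j = θ_j v_j` (and `v_j = 0` for `j ≥ N`). -/
def Realizes (s : Scalars K) (D : Arr K) (V : Type*) [AddCommGroup V] [Module K V]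
    [Module (AwAlg s) V] : Prop :=
  ∃ v : ℕ → V, (∀ j : ℕ, D.N ≤ j → v j = 0) ∧
    LinearIndependent K (fun j : {j : ℕ // (j : ℕ∞) < D.N} => v j) ∧
    Submodule.span K (Set.range v) = ⊤ ∧
    (∀ j, gB s • v j = D.θ j • v j) ∧
    (∀ j, gA s • v j = v (j + 1) + D.a j • v j + D.w j • v (j - 1))

/-- `P(x,y) = x^2 - βxy + y^2 - γ*(x+y) - ρ*` -/
def Scalars.P (s : Scalars K) (x y : K) : K :=
  x ^ 2 - s.β * x * y + y ^ 2 - s.γs * (x + y) - s.ρs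

/-- `R(x) = γx^2 + ωx + η*` -/
def Scalars.R (s : Scalars K) (x : K) : K := s.γ * x ^ 2 + s.ω * x + s.ηs

/-- `θ_{j-1}`, where `θ_{-1} = βθ_0 + γ* - θ_1`. -/
def Arr.pre (s : Scalars K) (D : Arr K) : ℕ → K
  | 0 => s.β * D.θ 0 + s.γs - D.θ 1
  | j + 1 => D.θ j

/-- The value of the Casimir element. -/
def Arr.κ (s : Scalars K) (D : Arr K) : K :=
  D.a 0 * (D.θ 0 - D.θ 1) * (s.γ * (D.pre s 0 + D.θ 0) + s.ω - D.a 0 * (D.θ 0 - D.θ 1)) +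
    s.ρ * D.pre s 0 * D.θ 0 + s.η * (D.pre s 0 + D.θ 0)

/-- Admissible arrays of size at least two, in solved form. -/
structure Closed (s : Scalars K) (D : Arr K) : Prop where
  two : 2 ≤ D.N
  hw : ∀ j, D.w j ≠ 0 ↔ (1 ≤ j ∧ (j : ℕ∞) < D.N)
  p01 : s.P (D.θ 0) (D.θ 1) = 0
  hrec : ∀ j, D.θ (j + 2) = s.β * D.θ (j + 1) + s.γs - D.θ j
  diag : ∀ j : ℕ, (j : ℕ∞) < D.N →
    D.a j * ((D.θ j - D.pre s j) * (D.θ j - D.θ (j + 1))) = s.R (D.θ j)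
  loop : ∀ j : ℕ, ((j + 1 : ℕ) : ℕ∞) < D.N → D.θ (j + 1) = D.θ j →
    (D.a j + D.a (j + 1)) * (D.θ j - D.pre s j) = 2 * s.γ * D.θ j + s.ω
  link : ∀ j : ℕ, ((j + 1 : ℕ) : ℕ∞) < D.N →
    D.w (j + 1) * ((D.θ (j + 1) - D.pre s j) * (D.θ (j + 2) - D.θ j)) =
      D.κ s - s.ρ * D.θ j * D.θ (j + 1) - s.η * (D.θ j + D.θ (j + 1)) -
        D.a j * D.a (j + 1) * ((D.θ j - D.pre s j) * (D.θ (j + 1) - D.θ (j + 2)))
  last : ∀ n : ℕ, D.N = ((n + 1 : ℕ) : ℕ∞) →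
    0 = D.κ s - s.ρ * D.θ n * D.θ (n + 1) - s.η * (D.θ n + D.θ (n + 1)) -
      D.a n * (D.θ n - D.pre s n) * (s.γ * (D.θ n + D.θ (n + 1)) + s.ω -
        D.a n * (D.θ n - D.pre s n))
  centre : ∀ j : ℕ, (j : ℕ∞) < D.N → D.pre s j = D.θ (j + 1) →
    (D.w j + D.w (j + 1)) * (D.θ j - D.θ (j + 2)) =
      s.ρ * D.θ j + s.η + (2 * s.γ * D.θ j + s.ω) * D.a j - 2 * (D.θ j - D.θ (j + 1)) * D.a j ^ 2

/-- Admissible arrays. -/
def Arr.Admissible (s : Scalars K) (D : Arr K) : Prop :=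
  (D.N = 1 ∧ (∀ j, D.w j = 0) ∧ D.a 0 * s.P (D.θ 0) (D.θ 0) = s.R (D.θ 0) ∧
    ((2 - s.β) * D.θ 0 - s.γs) * D.a 0 ^ 2 - (2 * s.γ * D.θ 0 + s.ω) * D.a 0 =
      s.ρ * D.θ 0 + s.η) ∨ Closed s D

/-- `p_0 = 1`, `p_1 = X - a_0`, `p_{j+1} = (X - a_j) p_j - w_j p_{j-1}`. -/
noncomputable def Arr.p (D : Arr K) : ℕ → K[X]
  | 0 => 1
  | 1 => X - C (D.a 0)
  | (j + 2) => (X - C (D.a (j + 1))) * Arr.p D (j + 1) - C (D.w (j + 1)) * Arr.p D j

/-- Type 1: the eigenvalues are distinct. -/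
def Arr.Distinct (D : Arr K) : Prop :=
  ∀ i j : ℕ, (i : ℕ∞) < D.N → (j : ℕ∞) < D.N → D.θ i = D.θ j → i = j

/-- The quadratic attached to a repeated eigenvalue `θ_m = θ_{m+1}`. -/
noncomputable def Arr.chi (D : Arr K) (m : ℕ) : K[X] :=
  X ^ 2 - C (D.a m + D.a (m + 1)) * X + C (D.a m * D.a (m + 1) - D.w (m + 1))

/-- Type 2: doubled arrays. -/
def Arr.Doubled (D : Arr K) (m : ℕ) : Prop :=
  D.N = ((2 * m + 2 : ℕ) : ℕ∞) ∧ (∀ i j : ℕ, i ≤ m → j ≤ m → D.θ i = D.θ j → i = j) ∧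
    D.θ (m + 1) = D.θ m ∧ D.θ (m + 2) ≠ D.θ (m + 1) ∧ (m = 0 ∨ D.a (2 * m + 1) = D.a 0) ∧
    Irreducible (D.chi m)

/-- `T` is the minimal period of the sequence `θ`. -/
def Arr.IsPeriod (D : Arr K) (T : ℕ) : Prop :=
  1 ≤ T ∧ D.θ T = D.θ 0 ∧ D.θ (T + 1) = D.θ 1 ∧
    ∀ t, 1 ≤ t → t < T → ¬ (D.θ t = D.θ 0 ∧ D.θ (t + 1) = D.θ 1)

/-- The possible starts of a periodic array. -/
def Arr.Start (D : Arr K) (T n : ℕ) : Prop :=
  (D.θ (T - 1) = D.θ 0 ∧ (T = 1 ∨ D.a (n * T - 1) ≠ D.a 0)) ∨ D.θ (T - 1) = D.θ 1 ∨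
    (2 ≤ T ∧ D.θ (T - 2) = D.θ 0)

open Classical in
/-- The polynomial attached to the period. -/
noncomputable def Arr.q (D : Arr K) (T : ℕ) : K[X] :=
  if T = 1 then X
  else if D.θ (T - 1) = D.θ 0 then D.p T - C (D.a T - D.a 0) * D.p (T - 1)
  else if D.θ (T - 1) = D.θ 1 then D.p T
  else D.p T - C (D.w T) * D.p (T - 2)

/-- Type 3: periodic arrays. -/
def Arr.Periodic (D : Arr K) (T n : ℕ) : Prop :=
  2 ≤ D.N ∧ D.IsPeriod T ∧ D.N = ((n * T : ℕ) : ℕ∞) ∧ D.Start T n ∧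
    (n = 1 ∨ ∃ π : K[X], Irreducible π ∧ π.comp (D.q T) = D.p (n * T))

/-- The arrays of the three types. -/
def Arr.IrrType (D : Arr K) : Prop :=
  D.Distinct ∨ (∃ m, D.Doubled m) ∨ ∃ T n, D.Periodic T n

/-- Equal arrays (on the relevant range). -/
def Arr.Same (D D' : Arr K) : Prop :=
  D.N = D'.N ∧ ∀ j : ℕ, (j : ℕ∞) < D.N → D.θ j = D'.θ j ∧ D.a j = D'.a j ∧ D.w j = D'.w j

/-- Mirror images. -/
def Arr.Mirror (D D' : Arr K) : Prop :=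
  ∃ n : ℕ, D.N = ((n + 1 : ℕ) : ℕ∞) ∧ D'.N = ((n + 1 : ℕ) : ℕ∞) ∧
    (∀ i j : ℕ, i + j = n → D.θ i = D'.θ j ∧ D.a i = D'.a j) ∧
    ∀ i j : ℕ, 1 ≤ i → 1 ≤ j → i + j = n + 1 → D.w i = D'.w j

/-- Equivalent arrays: equal, or mirror images, or both doubled with the same `θ` and `a_0`, or
both periodic with the same size, set of eigenvalues, Casimir value and last polynomial. -/
def Arr.Equivalent (s : Scalars K) (D D' : Arr K) : Prop :=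
  D.Same D' ∨ D.Mirror D' ∨
    (∃ m, D.Doubled m ∧ D'.Doubled m ∧ (∀ j, D.θ j = D'.θ j) ∧ (m = 0 ∨ D.a 0 = D'.a 0)) ∨
    ∃ T n T' n', D.Periodic T n ∧ D'.Periodic T' n' ∧ D.N = D'.N ∧
      (∀ x, (∃ j : ℕ, (j : ℕ∞) < D.N ∧ D.θ j = x) ↔ ∃ j : ℕ, (j : ℕ∞) < D'.N ∧ D'.θ j = x) ∧
      D.κ s = D'.κ s ∧ D.p (n * T) = D'.p (n * T)

end Pool.Agent.Helper9.AW
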