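import Pool.Agent.Helper9.AWPer

set_option autoImplicit false
set_option linter.unusedSectionVars false
set_option linter.unusedSimpArgs false

namespace Pool.Agent.Helper9.AW

open Polynomial

variable {K : Type*} [Field K] {D : Arr K} {s : Scalars K}

theorem p_zero : D.p 0 = 1 := rfl

theorem p_one : D.p 1 = X - C (D.a 0) := rfl

theorem p_succ_succ (j : ℕ) :
    D.p (j + 2) = (X - C (D.a (j + 1))) * D.p (j + 1) - C (D.w (j + 1)) * D.p j := rfl

theorem p_succ (h0 : D.w 0 = 0) (j : ℕ) :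
    D.p (j + 1) = (X - C (D.a j)) * D.p j - C (D.w j) * D.p (j - 1) := by
  rcases j with _ | j
  · rw [p_one, p_zero, h0]
    simp
  · exact p_succ_succ j

theorem p_monic_natDegree (j : ℕ) : (D.p j).Monic ∧ (D.p j).natDegree = j ∧
    (D.p (j + 1)).Monic ∧ (D.p (j + 1)).natDegree = j + 1 := by
  induction j with
  | zero => exact ⟨monic_one, natDegree_one, monic_X_sub_C _, natDegree_X_sub_C _⟩
  | succ j ih =>
    obtain ⟨h1, h2, h3, h4⟩ := ih
    have e : D.p (j + 1 + 1) = (X - C (D.a (j + 1))) * D.p (j + 1) + -(C (D.w (j + 1)) * D.p j) := by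
      rw [p_succ_succ]; ring
    have m1 : ((X - C (D.a (j + 1))) * D.p (j + 1)).Monic := (monic_X_sub_C _).mul h3
    have d1 : ((X - C (D.a (j + 1))) * D.p (j + 1)).natDegree = j + 1 + 1 := by
      rw [Monic.natDegree_mul (monic_X_sub_C _) h3, natDegree_X_sub_C, h4]; ring
    have d2 : (-(C (D.w (j + 1)) * D.p j)).natDegree < j + 1 + 1 := by
      rw [natDegree_neg]
      refine lt_of_le_of_lt (natDegree_C_mul_le _ _) ?_
      rw [h2]; omega
    have d3 : (-(C (D.w (j + 1)) * D.p j)).degree < ((X - C (D.a (j + 1))) * D.p (j + 1)).degree := by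
      refine degree_lt_degree ?_
      rw [d1]
      exact d2
    refine ⟨h3, h4, ?_, ?_⟩
    · rw [e]
      exact m1.add_of_left d3
    · rw [e, natDegree_add_eq_left_of_degree_lt d3, d1]

theorem p_monic (j : ℕ) : (D.p j).Monic := (p_monic_natDegree j).1

theorem p_natDegree (j : ℕ) : (D.p j).natDegree = j := (p_monic_natDegree j).2.1

section walk

variable {W : Type*} [AddCommGroup W] [Module K W] {A' B' : W →ₗ[K] W}

theorem walk (G : Good s D) (hAW : IsAW s A' B') (u : ℕ → W)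
    (hA : ∀ j, A' (u j) = u (j + 1) + D.a j • u j + D.w j • u (j - 1))
    (h0 : B' (u 0) = D.θ 0 • u 0) (h1 : B' (u 1) = D.θ 1 • u 1) (j : ℕ) (hj : (j : ℕ∞) < D.N) :
    B' (u j) = D.θ j • u j := by
  have hrec := G.hrec
  induction j using Nat.strong_induction_on with
  | _ j ih =>
  rcases j with _ | j
  · exact h0
  rcases j with _ | j
  · exact h1
  have hj1 : ((j + 1 : ℕ) : ℕ∞) < D.N := Tri.lt_of_succ_lt hj
  have hj0 : (j : ℕ∞) < D.N := Tri.lt_of_succ_lt hj1
  have b1 := ih (j + 1) (by omega) hj1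
  have b0 := ih j (by omega) hj0
  have hr := hAW.1 (u j)
  have e4 := G.e4 j hj1
  have e5 := G.e5 j hj0
  rw [pre_add' hrec j, hrec j] at e4
  have A1 : A' (u (j + 1)) = u (j + 2) + D.a (j + 1) • u (j + 1) + D.w (j + 1) • u j := hA (j + 1)
  rcases j with _ | j
  · have A0 : A' (u 0) = u 1 + D.a 0 • u 0 := by rw [hA 0, G.w_zero, zero_smul, add_zero]
    simp only [zero_add] at *
    rw [G.w_zero, pre_add' hrec 0, hrec 0] at e5
    simp only [b0, A0, A1, b1, map_add, map_smul] at hr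
    have e5' : (2 * D.θ 0 * (D.a 0 ^ 2 + D.w 1) - s.β * (D.θ 0 * D.a 0 ^ 2 +
        D.θ 1 * D.w 1) - 2 * s.γ * D.θ 0 * D.a 0 - s.ρ * D.θ 0 -
        (s.γs * (D.a 0 ^ 2 + D.w 1) + s.ω * D.a 0 + s.η)) = 0 := by linear_combination e5
    have e4' : (D.a 0 + D.a 1) * (D.θ 0 + D.θ 1) -
      s.β * (D.θ 1 * D.a 1 + D.θ 0 * D.a 0) - s.γ * (D.θ 0 + D.θ 1) -
      (s.γs * (D.a 0 + D.a 1) + s.ω) = 0 := by
      linear_combination e4
    have key : B' (u 2) + (D.θ 0 - s.β * D.θ 1 - s.γs) • u 2 +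
      ((D.a 0 + D.a 1) * (D.θ 0 + D.θ 1) -
      s.β * (D.θ 1 * D.a 1 + D.θ 0 * D.a 0) - s.γ * (D.θ 0 + D.θ 1) -
      (s.γs * (D.a 0 + D.a 1) + s.ω)) • u 1 + (2 * D.θ 0 * (D.a 0 ^ 2 + D.w 1) - s.β *
        (D.θ 0 * D.a 0 ^ 2 +
        D.θ 1 * D.w 1) - 2 * s.γ * D.θ 0 * D.a 0 - s.ρ * D.θ 0 -
        (s.γs * (D.a 0 ^ 2 + D.w 1) + s.ω * D.a 0 + s.η)) • u 0 = 0 := by
      have h' := sub_eq_zero.mpr hr
      rw [← h']
      module
    rw [e5', e4'] at key
    have h2 := hrec 0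
    rw [show 0 + 2 = 2 from rfl, show 0 + 1 = 1 from rfl] at h2
    rw [h2]
    have : B' (u 2) = (s.β * D.θ 1 + s.γs - D.θ 0) • u 2 + (B' (u 2) +
      (D.θ 0 - s.β * D.θ 1 - s.γs) • u 2 + (0 : K) • u 1 + (0 : K) • u 0) := by module
    rw [this, key, add_zero]
  · have e4m := G.e4 j hj0
    rw [pre_add' hrec j, hrec j] at e4m
    have Am := hA j
    have A0 : A' (u (j + 1)) = u (j + 2) + D.a (j + 1) • u (j + 1) + D.w (j + 1) • u j := hA (j + 1)
    have bm := ih j (by omega) (Tri.lt_of_succ_lt hj0)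
    have e3m : D.w (j + 1) • D.w j • (D.θ (j - 1) • u (j - 1)) +
      (D.w (j + 1) * D.w j * (D.θ (j + 1) - s.β * D.θ j - s.γs)) • u (j - 1) = 0 := by
      rcases j with _ | k
      · rw [G.w_zero]; simp
      · rw [hrec k]
        simp only [Nat.add_sub_cancel]
        module
    have bmm : D.w j • B' (u (j - 1)) = D.w j • (D.θ (j - 1) • u (j - 1)) := by
      rcases j with _ | k
      · rw [G.w_zero]; simp
      · have := ih k (by omega) (Tri.lt_mono hj (by omega))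
        simp only [Nat.add_sub_cancel]
        rw [this]
    simp only [Nat.add_sub_cancel] at e5
    rw [pre_add' hrec (j + 1), pre_add' hrec j, hrec (j + 1)] at e5
    have r := hrec j
    simp only [show j + 1 + 1 = j + 2 from rfl] at *
    have e5' : (2 * D.θ (j + 1) * (D.a (j + 1) ^ 2 + D.w (j + 1) + D.w (j + 2)) -
        s.β * (D.θ (j + 1) * D.a (j + 1) ^ 2 +
        D.θ j * D.w (j + 1) + D.θ (j + 2) * D.w (j + 2)) - 2 * s.γ * D.θ (j + 1) * D.a (j + 1) -
        s.ρ * D.θ (j + 1) -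
        (s.γs * (D.a (j + 1) ^ 2 + D.w (j + 1) + D.w (j + 2)) + s.ω * D.a (j + 1) + s.η)) = 0 := by
        linear_combination e5
    have e4' : (D.a (j + 1) + D.a (j + 2)) * (D.θ (j + 1) + D.θ (j + 2)) -
      s.β * (D.θ (j + 2) * D.a (j + 2) + D.θ (j + 1) * D.a (j + 1)) -
        s.γ * (D.θ (j + 1) + D.θ (j + 2)) -
      (s.γs * (D.a (j + 1) + D.a (j + 2)) + s.ω) = 0 := by linear_combination e4
    have e4m' : D.w (j + 1) * ((D.a j + D.a (j + 1)) * (D.θ j + D.θ (j + 1)) -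
        s.β * (D.θ (j + 1) * D.a (j + 1) + D.θ j * D.a j) - s.γ * (D.θ j + D.θ (j + 1)) -
        (s.γs * (D.a j + D.a (j + 1)) + s.ω)) = 0 := by
      linear_combination D.w (j + 1) * e4m
    rw [show j + 2 + 1 = j + 1 + 2 from rfl] at A1 ⊢
    simp only [b0, A0, A1, Am, b1, bm, map_add, map_smul, bmm] at hr
    have key : B' (u (j + 1 + 2)) + (D.θ (j + 1) - s.β * D.θ (j + 2) - s.γs) • u (j + 1 + 2) +
        ((D.a (j + 1) + D.a (j + 2)) * (D.θ (j + 1) + D.θ (j + 2)) -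
      s.β * (D.θ (j + 2) * D.a (j + 2) + D.θ (j + 1) * D.a (j + 1)) -
        s.γ * (D.θ (j + 1) + D.θ (j + 2)) -
      (s.γs * (D.a (j + 1) + D.a (j + 2)) + s.ω)) • u (j + 2) +
        (2 * D.θ (j + 1) * (D.a (j + 1) ^ 2 + D.w (j + 1) + D.w (j + 2)) -
        s.β * (D.θ (j + 1) * D.a (j + 1) ^ 2 +
        D.θ j * D.w (j + 1) + D.θ (j + 2) * D.w (j + 2)) - 2 * s.γ * D.θ (j + 1) * D.a (j + 1) -
        s.ρ * D.θ (j + 1) -
        (s.γs * (D.a (j + 1) ^ 2 + D.w (j + 1) + D.w (j + 2)) + s.ω * D.a (j + 1) + s.η)) •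
          u (j + 1) +
        (D.w (j + 1) * ((D.a j + D.a (j + 1)) * (D.θ j + D.θ (j + 1)) -
        s.β * (D.θ (j + 1) * D.a (j + 1) + D.θ j * D.a j) - s.γ * (D.θ j + D.θ (j + 1)) -
        (s.γs * (D.a j + D.a (j + 1)) + s.ω))) • u j +
        (D.w (j + 1) • D.w j • (D.θ (j - 1) • u (j - 1)) +
      (D.w (j + 1) * D.w j * (D.θ (j + 1) - s.β * D.θ j - s.γs)) • u (j - 1)) = 0 := by
      have h' := sub_eq_zero.mpr hr
      rw [← h']
      module
    rw [e5', e4', e4m', e3m] at key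
    have h2 := hrec (j + 1)
    rw [show j + 1 + 1 = j + 2 from rfl] at h2
    rw [h2]
    have : B' (u (j + 1 + 2)) = (s.β * D.θ (j + 2) + s.γs - D.θ (j + 1)) • u (j + 1 + 2) +
      (B' (u (j + 1 + 2)) +
      (D.θ (j + 1) - s.β * D.θ (j + 2) - s.γs) • u (j + 1 + 2) + (0 : K) • u (j + 2) +
        (0 : K) • u (j + 1) + (0 : K) • u j + 0) := by module
    rw [this, key, add_zero]

/-- the sequence `p_j(A') u`. -/
theorem seq_hA (w0 : D.w 0 = 0) (A' : W →ₗ[K] W) (u0 : W) (j : ℕ) :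
    A' (aeval A' (D.p j) u0) = aeval A' (D.p (j + 1)) u0 + D.a j • aeval A' (D.p j) u0 +
      D.w j • aeval A' (D.p (j - 1)) u0 := by
  rw [p_succ w0 j]
  simp only [map_sub, map_mul, aeval_X, aeval_C, LinearMap.sub_apply, Module.End.mul_apply,
    Module.algebraMap_end_apply]
  abel

theorem seq_zero (w0 : D.w 0 = 0) (wN : ∀ j : ℕ, D.N ≤ j → D.w j = 0) {n : ℕ} (hn : D.N = n)
    (A' : W →ₗ[K] W) (u0 : W) (h : aeval A' (D.p n) u0 = 0) (j : ℕ) (hj : n ≤ j) :
    aeval A' (D.p j) u0 = 0 := by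
  induction j with
  | zero =>
    have : n = 0 := by omega
    rw [← this]; exact h
  | succ j ih =>
    rcases Nat.lt_or_ge n (j + 1) with h1 | h1
    · have h2 := ih (by omega)
      have h3 := seq_hA w0 A' u0 j
      rw [h2, map_zero, smul_zero, add_zero, wN j (by rw [hn]; exact_mod_cast (by omega : n ≤ j)),
        zero_smul, add_zero] at h3
      exact h3.symm
    · have : j + 1 = n := by omega
      rw [this]; exact h

end walk

namespace Tri

variable {V : Type*} [AddCommGroup V] [Module K V] {A B : V →ₗ[K] V} {v : ℕ → V}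
  {W : Type*} [AddCommGroup W] [Module K W] {A' B' : W →ₗ[K] W}

theorem v_eq (T : Tri D A B v) (j : ℕ) : v j = aeval A (D.p j) (v 0) ∧
    v (j + 1) = aeval A (D.p (j + 1)) (v 0) := by
  induction j with
  | zero =>
    refine ⟨by simp [p_zero], ?_⟩
    rw [p_one, ← sub_eq_iff_eq_add.mpr T.A_zero]
    simp
  | succ j ih =>
    refine ⟨ih.2, ?_⟩
    have h1 := seq_hA T.w_zero A (v 0) (j + 1)
    rw [Nat.add_sub_cancel, ← ih.1, ← ih.2, T.A_succ] at h1
    have h2 : v (j + 2) + (D.a (j + 1) • v (j + 1) + D.w (j + 1) • v j) =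
      aeval A (D.p (j + 1 + 1)) (v 0) + (D.a (j + 1) • v (j + 1) + D.w (j + 1) • v j) := by
      rw [← add_assoc, ← add_assoc]; exact h1
    exact add_right_cancel h2

theorem v_aeval (T : Tri D A B v) (j : ℕ) : aeval A (D.p j) (v 0) = v j := (T.v_eq j).1.symm

theorem cyclic (T : Tri D A B v) (x : V) : ∃ g : K[X], x = aeval A g (v 0) := by
  obtain ⟨S, hS, _⟩ := T.repr_sum x
  refine ⟨∑ i ∈ S, C (T.c i x) * D.p i, ?_⟩
  rw [map_sum, LinearMap.sum_apply]
  conv_lhs => rw [hS]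
  refine Finset.sum_congr rfl fun i _ => ?_
  rw [map_mul, aeval_C, Module.End.mul_apply, Module.algebraMap_end_apply, T.v_aeval]

theorem comm_aeval {f : V →ₗ[K] W} (hf : ∀ x, f (A x) = A' (f x)) (g : K[X]) (x : V) :
    f (aeval A g x) = aeval A' g (f x) := by
  induction g using Polynomial.induction_on' with
  | add p q hp hq => rw [map_add, map_add, LinearMap.add_apply, LinearMap.add_apply, map_add, hp, hq]
  | monomial n c =>
    rw [aeval_monomial, aeval_monomial, Module.End.mul_apply, Module.End.mul_apply,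
      Module.algebraMap_end_apply, Module.algebraMap_end_apply, map_smul]
    congr 1
    induction n generalizing x with
    | zero => simp
    | succ n ih => rw [pow_succ', pow_succ', Module.End.mul_apply, Module.End.mul_apply, hf, ih]

theorem end_eq_aeval (T : Tri D A B v) {f : V →ₗ[K] V} (hf : ∀ x, f (A x) = A (f x)) {g : K[X]}
    (h : f (v 0) = aeval A g (v 0)) (x : V) : f x = aeval A g x := by
  obtain ⟨q, rfl⟩ := T.cyclic x
  rw [comm_aeval hf, h]
  rw [← Module.End.mul_apply, ← Module.End.mul_apply, ← map_mul, ← map_mul, mul_comm]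

theorem kill (T : Tri D A B v) {n : ℕ} (hn : D.N = n) (x : V) : aeval A (D.p n) x = 0 := by
  obtain ⟨q, rfl⟩ := T.cyclic x
  rw [← Module.End.mul_apply, ← map_mul, mul_comm, map_mul, Module.End.mul_apply, T.v_aeval,
    T.vz n (by rw [hn]), map_zero]

theorem hom_of (T : Tri D A B v) (G : Good s D) (hAW : IsAW s A' B') (u0 : W)
    (h0 : B' u0 = D.θ 0 • u0) (h1 : B' (A' u0 - D.a 0 • u0) = D.θ 1 • (A' u0 - D.a 0 • u0))
    (hN : ∀ n : ℕ, D.N = n → aeval A' (D.p n) u0 = 0) :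
    ∃ f : V →ₗ[K] W, (∀ x, f (A x) = A' (f x)) ∧ (∀ x, f (B x) = B' (f x)) ∧ f (v 0) = u0 := by
  have hz : ∀ j : ℕ, D.N ≤ j → aeval A' (D.p j) u0 = 0 := by
    intro j hj
    have hfin : D.N ≠ ⊤ := fun h' => by rw [h'] at hj; exact absurd hj (by simp)
    obtain ⟨n, hn⟩ := ENat.ne_top_iff_exists.mp hfin
    refine seq_zero T.w_zero (fun j hj => T.w_ge hj) hn.symm A' u0 (hN n hn.symm) j ?_
    rw [← hn] at hj
    exact_mod_cast hj
  obtain ⟨f, hf⟩ := T.exists_hom (fun j => aeval A' (D.p j) u0) hz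
  have hwalk := walk G hAW (fun j => aeval A' (D.p j) u0) (fun j => seq_hA T.w_zero A' u0 j)
    (by simpa [p_zero] using h0) (by
      have e : aeval A' (D.p 1) u0 = A' u0 - D.a 0 • u0 := by
        simp only [p_one, map_sub, aeval_X, aeval_C, LinearMap.sub_apply,
          Module.algebraMap_end_apply]
      show B' (aeval A' (D.p 1) u0) = D.θ 1 • aeval A' (D.p 1) u0
      rw [e]
      exact h1)
  refine ⟨f, fun x => ?_, fun x => ?_, ?_⟩
  · have : f ∘ₗ A = A' ∘ₗ f := by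
      refine T.ext_hom fun j => ?_
      simp only [LinearMap.comp_apply]
      rw [T.hA, map_add, map_add, map_smul, map_smul, hf, hf, hf, seq_hA T.w_zero]
    exact congrArg (fun g => g x) this
  · have : f ∘ₗ B = B' ∘ₗ f := by
      refine T.ext_hom' fun j hj => ?_
      simp only [LinearMap.comp_apply]
      rw [T.hB, map_smul, hf, hwalk j hj]
    exact congrArg (fun g => g x) this
  · rw [hf]; simp [p_zero]

theorem end_of (T : Tri D A B v) (G : Good s D) (hAW : IsAW s A B) (u0 : V)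
    (h0 : B u0 = D.θ 0 • u0) (h1 : B (A u0 - D.a 0 • u0) = D.θ 1 • (A u0 - D.a 0 • u0)) :
    ∃ f : V →ₗ[K] V, (∀ x, f (A x) = A (f x)) ∧ (∀ x, f (B x) = B (f x)) ∧ f (v 0) = u0 :=
  T.hom_of G hAW u0 h0 h1 fun _ hn => T.kill hn u0

/-- the leading index -/
theorem exists_lead (T : Tri D A B v) {x : V} (hx : x ≠ 0) :
    ∃ l : ℕ, (l : ℕ∞) < D.N ∧ T.c l x ≠ 0 ∧ ∀ i, l < i → T.c i x = 0 := by
  classical
  obtain ⟨S, hS, hS'⟩ := T.repr_sum x
  have hne : ∃ i, T.c i x ≠ 0 := by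
    by_contra h
    push Not at h
    exact hx (T.ext_c h)
  have hfin : ∃ l, T.c l x ≠ 0 ∧ ∀ i, l < i → T.c i x = 0 := by
    have hb : ∀ i, T.c i x ≠ 0 → i ≤ S.sup id := by
      intro i hi
      have : i ∈ S := by
        by_contra h
        exact hi (hS' i h)
      exact Finset.le_sup (f := id) this
    obtain ⟨i0, hi0⟩ := hne
    set P : ℕ → Prop := fun i => T.c i x ≠ 0 with hP
    have h1 := Nat.findGreatest_spec (P := P) (hb i0 hi0) hi0
    refine ⟨Nat.findGreatest P (S.sup id), h1, fun i hi => ?_⟩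
    by_contra h
    exact Nat.findGreatest_is_greatest hi (hb i h) h
  obtain ⟨l, h1, h2⟩ := hfin
  refine ⟨l, ?_, h1, h2⟩
  by_contra h
  exact h1 (T.c_ge (not_lt.mp h) x)

end Tri

/-! ### Irreducible pairs -/

section irr

variable {V : Type*} [AddCommGroup V] [Module K V] {A B : V →ₗ[K] V}

theorem Irr.inj (h : Irr A B) {f : V →ₗ[K] V} (hA : ∀ x, f (A x) = A (f x))
    (hB : ∀ x, f (B x) = B (f x)) {x y : V} (hx : x ≠ 0) (hfx : f x = 0) : f y = 0 := by
  rcases h.2 (LinearMap.ker f) ⟨fun z hz => by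
      rw [LinearMap.mem_ker] at *; rw [hA, hz, map_zero],
    fun z hz => by rw [LinearMap.mem_ker] at *; rw [hB, hz, map_zero]⟩ with h1 | h1
  · exfalso
    have : x ∈ LinearMap.ker f := hfx
    rw [h1] at this
    exact hx (by simpa using this)
  · have : y ∈ LinearMap.ker f := by rw [h1]; trivial
    exact this

theorem Irr.surj (h : Irr A B) {f : V →ₗ[K] V} (hA : ∀ x, f (A x) = A (f x))
    (hB : ∀ x, f (B x) = B (f x)) {x : V} (hfx : f x ≠ 0) (y : V) : ∃ z, f z = y := by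
  rcases h.2 (LinearMap.range f) ⟨fun z hz => by
      obtain ⟨t, rfl⟩ := hz; exact ⟨A t, hA t⟩,
    fun z hz => by obtain ⟨t, rfl⟩ := hz; exact ⟨B t, hB t⟩⟩ with h1 | h1
  · exfalso
    have : f x ∈ LinearMap.range f := ⟨x, rfl⟩
    rw [h1] at this
    exact hfx (by simpa using this)
  · have : y ∈ LinearMap.range f := by rw [h1]; trivial
    exact this

end irr

end Pool.Agent.Helper9.AW
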