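import Pool.Agent.Helper9.AWCoord

set_option autoImplicit false
set_option linter.unusedSectionVars false
set_option linter.unusedSimpArgs false

namespace Pool.Agent.Helper9.AW

open Polynomial

variable {K : Type*} [Field K] {V : Type*} [AddCommGroup V] [Module K V]
  {D : Arr K} {A B : V →ₗ[K] V} {v : ℕ → V} {s : Scalars K}

/-- the entry equations for an array of size at least 2 -/
structure Good (s : Scalars K) (D : Arr K) : Prop where
  hw : ∀ j, D.w j ≠ 0 ↔ (1 ≤ j ∧ (j : ℕ∞) < D.N)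
  two : 2 ≤ D.N
  p01 : s.P (D.θ 0) (D.θ 1) = 0
  hrec : ∀ j, D.θ (j + 2) = s.β * D.θ (j + 1) + s.γs - D.θ j
  e2 : ∀ j : ℕ, (j : ℕ∞) < D.N →
    D.a j * (D.θ j - D.pre s j) * (D.θ j - D.θ (j + 1)) = s.R (D.θ j)
  e4 : ∀ j : ℕ, ((j + 1 : ℕ) : ℕ∞) < D.N →
    D.a j * (D.θ j - D.pre s j) + D.a (j + 1) * (D.θ (j + 1) - D.θ (j + 2)) =
      s.γ * (D.θ j + D.θ (j + 1)) + s.ω
  e5 : ∀ j : ℕ, (j : ℕ∞) < D.N →
    D.w j * (D.θ j - D.pre s (j - 1)) + D.w (j + 1) * (D.θ j - D.θ (j + 2)) +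
      (2 * D.θ j - D.pre s j - D.θ (j + 1)) * D.a j ^ 2 - (2 * s.γ * D.θ j + s.ω) * D.a j =
      s.ρ * D.θ j + s.η

theorem pre_add' (hrec : ∀ j, D.θ (j + 2) = s.β * D.θ (j + 1) + s.γs - D.θ j) (j : ℕ) :
    D.pre s j = s.β * D.θ j + s.γs - D.θ (j + 1) := by
  rcases j with _ | j
  · rfl
  · simp only [Arr.pre]
    rw [hrec j]
    ring

theorem Ppre' (hrec : ∀ j, D.θ (j + 2) = s.β * D.θ (j + 1) + s.γs - D.θ j)
    (h0 : s.P (D.θ 0) (D.θ 1) = 0) (j : ℕ) : s.P (D.θ j) (D.θ (j + 1)) = 0 := by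
  induction j with
  | zero => exact h0
  | succ j ih =>
    rw [hrec j]
    simp only [Scalars.P] at ih ⊢
    linear_combination ih

/-- `P(θ_j, y) = (y - θ_{j-1}) (y - θ_{j+1})`. -/
theorem P_fac' (hrec : ∀ j, D.θ (j + 2) = s.β * D.θ (j + 1) + s.γs - D.θ j)
    (h0 : s.P (D.θ 0) (D.θ 1) = 0) (j : ℕ) (y : K) :
    s.P (D.θ j) y = (y - D.pre s j) * (y - D.θ (j + 1)) := by
  have h1 := Ppre' hrec h0 j
  rw [pre_add' hrec j]
  simp only [Scalars.P] at h1 ⊢
  linear_combination h1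

namespace Tri

variable (T : Tri D A B v)
include T

theorem rec_of (h : IsAW s A B) (j : ℕ) (hj : ((j + 2 : ℕ) : ℕ∞) < D.N) :
    D.θ (j + 2) = s.β * D.θ (j + 1) + s.γs - D.θ j := by
  have h1 := h.1 (v j)
  have h2 := congrArg (T.c (j + 2)) h1
  rcases j with _ | j
  · simp only [T.hB, T.A_zero, T.A_succ, map_add, map_smul, map_sub, smul_eq_mul] at h2
    rw [T.c_self hj, T.c_ne (by omega : 0 + 2 ≠ 0 + 1), T.c_ne (by omega : 0 + 2 ≠ 0)] at h2
    linear_combination h2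
  · rw [T.hB, T.A_succ, map_smul, map_smul] at h2
    simp only [T.hB, T.A_succ, map_add, map_smul, map_sub, smul_eq_mul] at h2
    rw [T.hA j] at h2
    simp only [T.hB, T.A_succ, map_add, map_smul, map_sub, smul_eq_mul] at h2
    rw [T.c_self hj, T.c_ne (by omega : j + 1 + 2 ≠ j + 2), T.c_ne (by omega : j + 1 + 2 ≠ j + 1),
      T.c_ne (by omega : j + 1 + 2 ≠ j), T.c_ne (by omega : j + 1 + 2 ≠ j - 1)] at h2
    linear_combination h2

theorem P_of (h : IsAW s A B) (j : ℕ) (hj : ((j + 1 : ℕ) : ℕ∞) < D.N) :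
    s.P (D.θ j) (D.θ (j + 1)) = 0 := by
  have h1 := h.2 (v j)
  have h2 := congrArg (T.c (j + 1)) h1
  rw [T.hA] at h2
  simp only [T.hB, T.hA, map_add, map_smul, map_sub, smul_eq_mul] at h2
  rw [T.c_self hj, T.c_ne (by omega : j + 1 ≠ j), T.c_ne (by omega : j + 1 ≠ j - 1)] at h2
  simp only [Scalars.P]
  linear_combination h2

theorem e2_of (h : IsAW s A B) (j : ℕ) (hj : (j : ℕ∞) < D.N) :
    D.a j * s.P (D.θ j) (D.θ j) = s.R (D.θ j) := by
  have h1 := h.2 (v j)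
  have h2 := congrArg (T.c j) h1
  rcases j with _ | j
  · simp only [T.hB, T.A_zero, map_add, map_smul, map_sub, smul_eq_mul] at h2
    rw [T.c_self hj, T.c_ne (by omega : 0 ≠ 0 + 1)] at h2
    simp only [Scalars.P, Scalars.R]
    linear_combination h2
  · simp only [T.hB, T.A_succ, map_add, map_smul, map_sub, smul_eq_mul] at h2
    rw [T.c_self hj, T.c_ne (by omega : j + 1 ≠ j + 2), T.c_ne (by omega : j + 1 ≠ j)] at h2
    simp only [Scalars.P, Scalars.R]
    linear_combination h2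

theorem e4_of (h : IsAW s A B) (j : ℕ) (hj : ((j + 1 : ℕ) : ℕ∞) < D.N) :
    (D.a j + D.a (j + 1)) * (D.θ j + D.θ (j + 1)) -
      s.β * (D.θ (j + 1) * D.a (j + 1) + D.θ j * D.a j) - s.γ * (D.θ j + D.θ (j + 1)) =
      s.γs * (D.a j + D.a (j + 1)) + s.ω := by
  have h1 := h.1 (v j)
  have h2 := congrArg (T.c (j + 1)) h1
  rcases j with _ | j
  · simp only [T.hB, T.A_zero, T.A_succ, map_add, map_smul, map_sub, smul_eq_mul] at h2
    rw [T.c_self hj, T.c_ne (by omega : 0 + 1 ≠ 0 + 2), T.c_ne (by omega : 0 + 1 ≠ 0)] at h2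
    linear_combination h2
  · rw [T.hB, T.A_succ, map_smul, map_smul] at h2
    simp only [T.hB, T.A_succ, map_add, map_smul, map_sub, smul_eq_mul] at h2
    rw [T.hA j] at h2
    simp only [T.hB, T.A_succ, map_add, map_smul, map_sub, smul_eq_mul] at h2
    rw [show j + 1 + 2 = j + 2 + 1 from rfl, show j + 1 + 1 = j + 2 from rfl] at h2
    have hj' : ((j + 2 : ℕ) : ℕ∞) < D.N := hj
    rw [T.c_self hj', T.c_ne (by omega : j + 2 ≠ j + 2 + 1), T.c_ne (by omega : j + 2 ≠ j + 1),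
      T.c_ne (by omega : j + 2 ≠ j), T.c_ne (by omega : j + 2 ≠ j - 1)] at h2
    linear_combination h2

theorem e5_of (h : IsAW s A B) (j : ℕ) (hj : (j : ℕ∞) < D.N) :
    2 * D.θ j * (D.a j ^ 2 + D.w j + D.w (j + 1)) - s.β * (D.θ j * D.a j ^ 2 +
      D.θ (j - 1) * D.w j + D.θ (j + 1) * D.w (j + 1)) - 2 * s.γ * D.θ j * D.a j - s.ρ * D.θ j =
      s.γs * (D.a j ^ 2 + D.w j + D.w (j + 1)) + s.ω * D.a j + s.η := by
  have h1 := h.1 (v j)
  have h2 := congrArg (T.c j) h1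
  rcases j with _ | j
  · simp only [T.hB, T.A_zero, T.A_succ, map_add, map_smul, map_sub, smul_eq_mul] at h2
    rw [T.c_self hj, T.c_ne (by omega : 0 ≠ 0 + 2), T.c_ne (by omega : 0 ≠ 0 + 1)] at h2
    rw [T.w_zero]
    linear_combination h2
  · rw [T.hB, T.A_succ, map_smul, map_smul] at h2
    simp only [T.hB, T.A_succ, map_add, map_smul, map_sub, smul_eq_mul] at h2
    rw [T.hA j] at h2
    simp only [T.hB, T.A_succ, map_add, map_smul, map_sub, smul_eq_mul] at h2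
    rw [T.c_self hj, T.c_ne (by omega : j + 1 ≠ j + 1 + 2), T.c_ne (by omega : j + 1 ≠ j + 2),
      T.c_ne (by omega : j + 1 ≠ j), T.c_ne (by omega : j + 1 ≠ j - 1)] at h2
    simp only [Nat.add_sub_cancel]
    linear_combination h2

theorem good_of (h : IsAW s A B) (h2 : 2 ≤ D.N)
    (hrec : ∀ j, D.θ (j + 2) = s.β * D.θ (j + 1) + s.γs - D.θ j) : Good s D := by
  have h1 : ((0 + 1 : ℕ) : ℕ∞) < D.N := lt_of_lt_of_le (by norm_num) h2
  have h0 : s.P (D.θ 0) (D.θ 1) = 0 := T.P_of h 0 h1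
  refine ⟨T.hw, h2, h0, hrec, fun j hj => ?_, fun j hj => ?_, fun j hj => ?_⟩
  · have e := T.e2_of h j hj
    rw [P_fac' hrec h0 j] at e
    linear_combination e
  · have e := T.e4_of h j hj
    rw [pre_add' hrec j, hrec j]
    linear_combination e
  · have e := T.e5_of h j hj
    rcases j with _ | j
    · rw [T.w_zero, pre_add' hrec 0, hrec 0]
      rw [T.w_zero] at e
      linear_combination e
    · simp only [Nat.add_sub_cancel] at e ⊢
      rw [pre_add' hrec (j + 1), pre_add' hrec j, hrec (j + 1)]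
      have r := hrec j
      have r2 := hrec (j + 1)
      simp only [show j + 1 + 1 = j + 2 from rfl] at *
      linear_combination e

end Tri

theorem isAW_of_good (T : Tri D A B v) (G : Good s D) : IsAW s A B := by
  have hrec := G.hrec
  have hP := Ppre' G.hrec G.p01
  -- the first relation on basis vectors
  have k1 : ∀ j, A (A (B (v j))) - s.β • A (B (A (v j))) + B (A (A (v j))) -
      s.γ • (A (B (v j)) + B (A (v j))) - s.ρ • B (v j) -
      (s.γs • A (A (v j)) + s.ω • A (v j) + s.η • v j) = 0 := by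
    intro j
    by_cases hj : (j : ℕ∞) < D.N
    swap
    · rw [T.vz j (not_lt.mp hj)]
      simp
    have e5 := G.e5 j hj
    -- the coefficient of `v (j+1)`
    have e4 : ((D.a j + D.a (j + 1)) * (D.θ j + D.θ (j + 1)) -
      s.β * (D.θ (j + 1) * D.a (j + 1) + D.θ j * D.a j) - s.γ * (D.θ j + D.θ (j + 1)) -
      (s.γs * (D.a j + D.a (j + 1)) + s.ω)) • v (j + 1) = 0 := by
      by_cases hj1 : ((j + 1 : ℕ) : ℕ∞) < D.N
      · have e := G.e4 j hj1
        rw [pre_add' hrec j, hrec j] at e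
        have : (D.a j + D.a (j + 1)) * (D.θ j + D.θ (j + 1)) -
          s.β * (D.θ (j + 1) * D.a (j + 1) + D.θ j * D.a j) - s.γ * (D.θ j + D.θ (j + 1)) -
          (s.γs * (D.a j + D.a (j + 1)) + s.ω) = 0 := by linear_combination e
        rw [this, zero_smul]
      · rw [T.vz (j + 1) (not_lt.mp hj1), smul_zero]
    have e3 : (D.θ j + D.θ (j + 2) - s.β * D.θ (j + 1) - s.γs) = 0 := by
      rw [hrec j]; ring
    rcases j with _ | j
    · have w0 := T.w_zero
      simp only [T.hB, T.A_zero, T.A_succ, map_add, map_smul]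
      rw [w0, pre_add' hrec 0, hrec 0] at e5
      have e5' : (2 * D.θ 0 * (D.a 0 ^ 2 + D.w 1) - s.β * (D.θ 0 * D.a 0 ^ 2 +
        D.θ 1 * D.w 1) - 2 * s.γ * D.θ 0 * D.a 0 - s.ρ * D.θ 0 -
        (s.γs * (D.a 0 ^ 2 + D.w 1) + s.ω * D.a 0 + s.η)) = 0 := by linear_combination e5
      have key : (D.θ 0 + D.θ 2 - s.β * D.θ 1 - s.γs) • v 2 +
        ((D.a 0 + D.a (0 + 1)) * (D.θ 0 + D.θ (0 + 1)) -
      s.β * (D.θ (0 + 1) * D.a (0 + 1) + D.θ 0 * D.a 0) - s.γ * (D.θ 0 + D.θ (0 + 1)) -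
      (s.γs * (D.a 0 + D.a (0 + 1)) + s.ω)) • v (0 + 1) +
        (2 * D.θ 0 * (D.a 0 ^ 2 + D.w 1) - s.β * (D.θ 0 * D.a 0 ^ 2 +
        D.θ 1 * D.w 1) - 2 * s.γ * D.θ 0 * D.a 0 - s.ρ * D.θ 0 -
        (s.γs * (D.a 0 ^ 2 + D.w 1) + s.ω * D.a 0 + s.η)) • v 0 = 0 := by
        rw [e4, e5', show D.θ 0 + D.θ 2 - s.β * D.θ 1 - s.γs = 0 from e3]
        simp
      rw [← key]
      simp only [show (0 : ℕ) + 1 = 1 from rfl, show (0 : ℕ) + 2 = 2 from rfl]
      module
    · have e4' : D.w (j + 1) * ((D.a j + D.a (j + 1)) * (D.θ j + D.θ (j + 1)) -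
        s.β * (D.θ (j + 1) * D.a (j + 1) + D.θ j * D.a j) - s.γ * (D.θ j + D.θ (j + 1)) -
        (s.γs * (D.a j + D.a (j + 1)) + s.ω)) = 0 := by
        have e := G.e4 j hj
        rw [pre_add' hrec j, hrec j] at e
        linear_combination D.w (j + 1) * e
      have e3' : D.w (j + 1) * D.w j * (D.θ (j - 1) + D.θ (j + 1) - s.β * D.θ j - s.γs) = 0 := by
        rcases j with _ | k
        · rw [T.w_zero]; ring
        · rw [hrec k]
          simp only [Nat.add_sub_cancel]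
          ring
      simp only [Nat.add_sub_cancel] at e5
      rw [pre_add' hrec (j + 1), pre_add' hrec j, hrec (j + 1)] at e5
      have r := hrec j
      simp only [show j + 1 + 1 = j + 2 from rfl] at *
      have e5' : (2 * D.θ (j + 1) * (D.a (j + 1) ^ 2 + D.w (j + 1) + D.w (j + 2)) -
        s.β * (D.θ (j + 1) * D.a (j + 1) ^ 2 +
        D.θ j * D.w (j + 1) + D.θ (j + 2) * D.w (j + 2)) - 2 * s.γ * D.θ (j + 1) * D.a (j + 1) -
        s.ρ * D.θ (j + 1) -
        (s.γs * (D.a (j + 1) ^ 2 + D.w (j + 1) + D.w (j + 2)) + s.ω * D.a (j + 1) + s.η)) = 0 := by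
        linear_combination e5
      have key : (D.θ (j + 1) + D.θ (j + 1 + 2) - s.β * D.θ (j + 2) - s.γs) • v (j + 1 + 2) +
        ((D.a (j + 1) + D.a (j + 2)) * (D.θ (j + 1) + D.θ (j + 2)) -
      s.β * (D.θ (j + 2) * D.a (j + 2) + D.θ (j + 1) * D.a (j + 1)) -
        s.γ * (D.θ (j + 1) + D.θ (j + 2)) -
      (s.γs * (D.a (j + 1) + D.a (j + 2)) + s.ω)) • v (j + 2) +
        (2 * D.θ (j + 1) * (D.a (j + 1) ^ 2 + D.w (j + 1) + D.w (j + 2)) -
        s.β * (D.θ (j + 1) * D.a (j + 1) ^ 2 +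
        D.θ j * D.w (j + 1) + D.θ (j + 2) * D.w (j + 2)) - 2 * s.γ * D.θ (j + 1) * D.a (j + 1) -
        s.ρ * D.θ (j + 1) -
        (s.γs * (D.a (j + 1) ^ 2 + D.w (j + 1) + D.w (j + 2)) + s.ω * D.a (j + 1) + s.η)) •
          v (j + 1) +
        (D.w (j + 1) * ((D.a j + D.a (j + 1)) * (D.θ j + D.θ (j + 1)) -
        s.β * (D.θ (j + 1) * D.a (j + 1) + D.θ j * D.a j) - s.γ * (D.θ j + D.θ (j + 1)) -
        (s.γs * (D.a j + D.a (j + 1)) + s.ω))) • v j +
        (D.w (j + 1) * D.w j * (D.θ (j - 1) + D.θ (j + 1) - s.β * D.θ j - s.γs)) • v (j - 1)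
          = 0 := by
        rw [e4, e5', e4', e3', show D.θ (j + 1) + D.θ (j + 1 + 2) - s.β * D.θ (j + 2) - s.γs = 0
          from e3]
        simp
      rw [← key]
      rw [T.hB, T.A_succ, map_smul, map_smul]
      simp only [T.hB, T.A_succ, map_add, map_smul]
      rw [T.hA j]
      simp only [T.hB, T.A_succ, map_add, map_smul]
      module
  have k2 : ∀ j, B (B (A (v j))) - s.β • B (A (B (v j))) + A (B (B (v j))) -
      s.γs • (B (A (v j)) + A (B (v j))) - s.ρs • A (v j) -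
      (s.γ • B (B (v j)) + s.ω • B (v j) + s.ηs • v j) = 0 := by
    intro j
    by_cases hj : (j : ℕ∞) < D.N
    swap
    · rw [T.vz j (not_lt.mp hj)]
      simp
    have e2 := G.e2 j hj
    have e2' : D.a j * s.P (D.θ j) (D.θ j) - s.R (D.θ j) = 0 := by
      rw [P_fac' hrec G.p01 j]
      linear_combination e2
    simp only [T.hB, map_smul]
    rcases j with _ | j
    · simp only [T.hB, T.A_zero, map_add, map_smul]
      have key : (s.P (D.θ 0) (D.θ (0 + 1))) • v (0 + 1) +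
        (D.a 0 * s.P (D.θ 0) (D.θ 0) - s.R (D.θ 0)) • v 0 = 0 := by
        rw [e2', hP 0]; simp
      rw [← key]
      simp only [Scalars.P, Scalars.R, zero_add]
      module
    · simp only [T.hB, T.A_succ, map_add, map_smul]
      have key : (s.P (D.θ (j + 1)) (D.θ (j + 1 + 1))) • v (j + 1 + 1) +
        (D.a (j + 1) * s.P (D.θ (j + 1)) (D.θ (j + 1)) - s.R (D.θ (j + 1))) • v (j + 1) +
        (D.w (j + 1) * s.P (D.θ j) (D.θ (j + 1))) • v j = 0 := by
        rw [e2', hP (j + 1), hP j]; simp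
      rw [← key]
      simp only [Scalars.P, Scalars.R, show j + 1 + 1 = j + 2 from rfl]
      module
  constructor
  · intro x
    have h : A ∘ₗ A ∘ₗ B - s.β • (A ∘ₗ B ∘ₗ A) + B ∘ₗ A ∘ₗ A - s.γ • (A ∘ₗ B + B ∘ₗ A) - s.ρ • B -
        (s.γs • (A ∘ₗ A) + s.ω • A + s.η • LinearMap.id) = 0 := by
      refine T.ext_hom fun j => ?_
      simpa using k1 j
    have h' := congrArg (fun f => f x) h
    simp only [LinearMap.sub_apply, LinearMap.add_apply, LinearMap.comp_apply, LinearMap.smul_apply,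
      LinearMap.id_apply, LinearMap.zero_apply] at h'
    exact sub_eq_zero.mp h'
  · intro x
    have h : B ∘ₗ B ∘ₗ A - s.β • (B ∘ₗ A ∘ₗ B) + A ∘ₗ B ∘ₗ B - s.γs • (B ∘ₗ A + A ∘ₗ B) - s.ρs • A -
        (s.γ • (B ∘ₗ B) + s.ω • B + s.ηs • LinearMap.id) = 0 := by
      refine T.ext_hom fun j => ?_
      simpa using k2 j
    have h' := congrArg (fun f => f x) h
    simp only [LinearMap.sub_apply, LinearMap.add_apply, LinearMap.comp_apply, LinearMap.smul_apply,
      LinearMap.id_apply, LinearMap.zero_apply] at h'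
    exact sub_eq_zero.mp h'

end Pool.Agent.Helper9.AW
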