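import Pool.Agent.Helper9.AWClosed

set_option autoImplicit false
set_option linter.unusedSectionVars false
set_option linter.unusedSimpArgs false
set_option linter.unusedVariables false

namespace Pool.Agent.Helper9.AW

variable {K : Type*} [Field K] {s : Scalars K} {D : Arr K}

theorem explicit_a (C : Closed s D) (j : ℕ) (hj : (j : ℕ∞) < D.N) (h1 : D.θ j ≠ D.pre s j)
    (h2 : D.θ j ≠ D.θ (j + 1)) :
    D.a j = s.R (D.θ j) / ((D.θ j - D.pre s j) * (D.θ j - D.θ (j + 1))) := by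
  rw [eq_div_iff (mul_ne_zero (sub_ne_zero.mpr h1) (sub_ne_zero.mpr h2))]
  exact C.diag j hj

theorem explicit_w (C : Closed s D) (j : ℕ) (hj : ((j + 1 : ℕ) : ℕ∞) < D.N)
    (h0 : D.θ (j + 1) ≠ D.θ j) (h1 : D.θ (j + 1) ≠ D.pre s j) (h2 : D.θ (j + 2) ≠ D.θ j) :
    D.w (j + 1) = (D.κ s - s.ρ * D.θ j * D.θ (j + 1) - s.η * (D.θ j + D.θ (j + 1)) +
      s.R (D.θ j) * s.R (D.θ (j + 1)) / (D.θ (j + 1) - D.θ j) ^ 2) /
        ((D.θ (j + 1) - D.pre s j) * (D.θ (j + 2) - D.θ j)) := by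
  rw [eq_div_iff (mul_ne_zero (sub_ne_zero.mpr h1) (sub_ne_zero.mpr h2)), C.link j hj,
    ← C.diag j (lt_of_le_of_lt (by exact_mod_cast Nat.le_succ j) hj), ← C.diag (j + 1) hj]
  have e : D.pre s (j + 1) = D.θ j := rfl
  rw [e, show j + 1 + 1 = j + 2 from rfl]
  have h3 : D.θ (j + 1) - D.θ j ≠ 0 := sub_ne_zero.mpr h0
  field_simp
  ring

theorem explicit_q (C : Closed s D) (q : AlgebraicClosure K) (hq0 : q ≠ 0) (hq : q ^ 2 ≠ 1)
    (hβ : algebraMap K (AlgebraicClosure K) s.β = q + q⁻¹) :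
    ∃ b c d : AlgebraicClosure K,
      (∀ j : ℕ, algebraMap K (AlgebraicClosure K) (D.θ j) = c + b * q ^ j + d * q⁻¹ ^ j) ∧
      (2 - (q + q⁻¹)) * c = algebraMap K (AlgebraicClosure K) s.γs ∧
      (q - q⁻¹) ^ 2 * (b * d) = -(algebraMap K (AlgebraicClosure K) s.ρs +
        algebraMap K (AlgebraicClosure K) s.γs * c) := by
  set φ := algebraMap K (AlgebraicClosure K) with hφ
  have hq1 : q ≠ 1 := fun h => hq (by rw [h]; norm_num)
  have h2 : (2 : AlgebraicClosure K) - (q + q⁻¹) ≠ 0 := by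
    intro h
    have h3 : (q - 1) ^ 2 = 0 := by
      field_simp at h
      linear_combination -h
    exact hq1 (sub_eq_zero.mp (pow_eq_zero_iff (by norm_num) |>.mp h3))
  have h3 : q - q⁻¹ ≠ 0 := by
    intro h
    apply hq
    field_simp at h
    linear_combination h
  set c := φ s.γs / (2 - (q + q⁻¹)) with hc
  have hc' : (2 - (q + q⁻¹)) * c = φ s.γs := by rw [hc, mul_div_cancel₀ _ h2]
  set b := ((φ (D.θ 1) - c) - (φ (D.θ 0) - c) * q⁻¹) / (q - q⁻¹) with hb
  set d := ((φ (D.θ 0) - c) * q - (φ (D.θ 1) - c)) / (q - q⁻¹) with hd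
  have hb' : (q - q⁻¹) * b = (φ (D.θ 1) - c) - (φ (D.θ 0) - c) * q⁻¹ := by
    rw [hb, mul_div_cancel₀ _ h3]
  have hd' : (q - q⁻¹) * d = (φ (D.θ 0) - c) * q - (φ (D.θ 1) - c) := by
    rw [hd, mul_div_cancel₀ _ h3]
  have hqq : q * q⁻¹ = 1 := mul_inv_cancel₀ hq0
  have main : ∀ j : ℕ, φ (D.θ j) = c + b * q ^ j + d * q⁻¹ ^ j ∧
      φ (D.θ (j + 1)) = c + b * q ^ (j + 1) + d * q⁻¹ ^ (j + 1) := by
    intro j
    induction j with
    | zero =>
      constructor
      · apply mul_left_cancel₀ h3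
        simp only [pow_zero, mul_one]
        linear_combination -hb' - hd'
      · apply mul_left_cancel₀ h3
        simp only [zero_add, pow_one]
        linear_combination -q * hb' - q⁻¹ * hd' 
    | succ j ih =>
      refine ⟨ih.2, ?_⟩
      rw [show j + 1 + 1 = j + 2 from rfl, C.hrec j, map_sub, map_add, map_mul, hβ, ih.1, ih.2,
        ← hc']
      simp only [pow_succ]
      linear_combination (b * q ^ j + d * q⁻¹ ^ j) * hqq
  refine ⟨b, c, d, fun j => (main j).1, hc', ?_⟩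
  have hP := congrArg φ C.p01
  simp only [Scalars.P, map_sub, map_add, map_mul, map_pow, hβ, map_zero] at hP
  have : (q - q⁻¹) ^ 2 * (b * d) = ((q - q⁻¹) * b) * ((q - q⁻¹) * d) := by ring
  rw [this, hb', hd']
  linear_combination -hP + (φ (D.θ 0) + φ (D.θ 1) - c) * hc' - (φ (D.θ 0) - c) ^ 2 * hqq

theorem explicit_two (C : Closed s D) (hβ : s.β = 2) (j : ℕ) :
    D.θ j = D.θ 0 + j * (D.θ 1 - D.θ 0) + (j.choose 2 : ℕ) * s.γs := by
  have main : ∀ j : ℕ, D.θ j = D.θ 0 + j * (D.θ 1 - D.θ 0) + (j.choose 2 : ℕ) * s.γs ∧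
      D.θ (j + 1) = D.θ 0 + (j + 1 : ℕ) * (D.θ 1 - D.θ 0) + ((j + 1).choose 2 : ℕ) * s.γs := by
    intro j
    induction j with
    | zero => constructor <;> simp
    | succ j ih =>
      refine ⟨ih.2, ?_⟩
      have e1 : (j + 1).choose 2 = j + j.choose 2 := by
        rw [Nat.choose_succ_succ' j 1, Nat.choose_one_right]
      have e2 : (j + 1 + 1).choose 2 = (j + 1) + (j + 1).choose 2 := by
        rw [Nat.choose_succ_succ' (j + 1) 1, Nat.choose_one_right]
      rw [show j + 1 + 1 = j + 2 from rfl] at e2 ⊢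
      rw [C.hrec j, ih.1, ih.2, hβ, e2, e1]
      push_cast
      ring
  exact (main j).1

theorem explicit_neg_two (C : Closed s D) (hβ : s.β = -2) (j : ℕ) :
    D.θ j = (-1) ^ j * (D.θ 0 - j * (D.θ 0 + D.θ 1) + (j / 2 : ℕ) * s.γs) := by
  have main : ∀ j : ℕ, D.θ j = (-1) ^ j * (D.θ 0 - j * (D.θ 0 + D.θ 1) + (j / 2 : ℕ) * s.γs) ∧
      D.θ (j + 1) = (-1) ^ (j + 1) * (D.θ 0 - (j + 1 : ℕ) * (D.θ 0 + D.θ 1) +
        ((j + 1) / 2 : ℕ) * s.γs) := by
    intro j
    induction j with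
    | zero => constructor <;> simp
    | succ j ih =>
      refine ⟨ih.2, ?_⟩
      rw [show j + 1 + 1 = j + 2 from rfl, C.hrec j, ih.1, ih.2, hβ,
        show (j + 2) / 2 = j / 2 + 1 by omega]
      rcases Nat.even_or_odd' j with ⟨i, rfl | rfl⟩
      · rw [show (2 * i + 1) / 2 = i by omega, show 2 * i / 2 = i by omega]
        have h1 : (-1 : K) ^ (2 * i) = 1 := by rw [pow_mul]; simp
        rw [pow_add, pow_add, h1]
        push_cast
        ring
      · rw [show (2 * i + 1 + 1) / 2 = i + 1 by omega, show (2 * i + 1) / 2 = i by omega]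
        have h1 : (-1 : K) ^ (2 * i + 1) = -1 := by rw [pow_succ, pow_mul]; simp
        rw [pow_add (-1 : K) (2 * i + 1) 1, pow_add (-1 : K) (2 * i + 1) 2, h1]
        push_cast
        ring
  exact (main j).1

end Pool.Agent.Helper9.AW
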