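import Pool.Agent.Helper9.AWIrr

set_option autoImplicit false
set_option linter.unusedSectionVars false
set_option linter.unusedSimpArgs false

namespace Pool.Agent.Helper9.AW

open Polynomial

variable {K : Type*} [Field K] {D : Arr K} {s : Scalars K} {V : Type*} [AddCommGroup V]
  [Module K V] {A B : V →ₗ[K] V} {v : ℕ → V}

/-- the conditions satisfied by `v 0`. -/
def X0 (D : Arr K) (A B : V →ₗ[K] V) (u : V) : Prop :=
  B u = D.θ 0 • u ∧ B (A u - D.a 0 • u) = D.θ 1 • (A u - D.a 0 • u)

namespace Tri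

variable (T : Tri D A B v)
include T

/-- raising the index -/
theorem c_A_high {d : ℕ} {x : V} (h : ∀ i, d < i → T.c i x = 0) :
    (∀ i, d + 1 < i → T.c i (A x) = 0) ∧
      (((d + 1 : ℕ) : ℕ∞) < D.N → T.c (d + 1) (A x) = T.c d x) := by
  constructor
  · intro i hi
    by_cases hN : (i : ℕ∞) < D.N
    · obtain ⟨k, rfl⟩ : ∃ k, i = k + 1 := ⟨i - 1, by omega⟩
      rw [T.c_A_succ hN, h k (by omega), h (k + 1) (by omega), h (k + 2) (by omega)]
      ring
    · exact T.c_ge (not_lt.mp hN) _
  · intro hN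
    rw [T.c_A_succ hN, h (d + 1) (by omega), h (d + 2) (by omega)]
    ring

theorem lead_pow (k : ℕ) : (∀ i, k < i → T.c i ((A ^ k) (v 0)) = 0) ∧
    ((k : ℕ∞) < D.N → T.c k ((A ^ k) (v 0)) = 1) := by
  induction k with
  | zero =>
    refine ⟨fun i hi => ?_, fun h => ?_⟩
    · rw [pow_zero, Module.End.one_apply, T.c_ne (by omega)]
    · rw [pow_zero, Module.End.one_apply, T.c_self h]
  | succ k ih =>
    have h := T.c_A_high ih.1
    rw [pow_succ', Module.End.mul_apply]
    exact ⟨h.1, fun hN => by rw [h.2 hN, ih.2 (lt_of_succ_lt hN)]⟩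

theorem lead_aeval (g : K[X]) : (∀ i, g.natDegree < i → T.c i (aeval A g (v 0)) = 0) ∧
    ((g.natDegree : ℕ∞) < D.N → T.c g.natDegree (aeval A g (v 0)) = g.leadingCoeff) := by
  have hsum : aeval A g (v 0) = ∑ k ∈ Finset.range (g.natDegree + 1), g.coeff k • (A ^ k) (v 0) := by
    rw [aeval_eq_sum_range, LinearMap.sum_apply]
    rfl
  constructor
  · intro i hi
    rw [hsum, map_sum]
    refine Finset.sum_eq_zero fun k hk => ?_
    rw [Finset.mem_range] at hk
    rw [map_smul, (T.lead_pow k).1 i (by omega), smul_zero]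
  · intro hN
    rw [hsum, map_sum, Finset.sum_range_succ, Finset.sum_eq_zero, zero_add, map_smul,
      (T.lead_pow _).2 hN, smul_eq_mul, mul_one]
    · rfl
    · intro k hk
      rw [Finset.mem_range] at hk
      rw [map_smul, (T.lead_pow k).1 _ hk, smul_zero]

theorem aeval_ne {g : K[X]} (h0 : g ≠ 0) (hN : (g.natDegree : ℕ∞) < D.N) : aeval A g (v 0) ≠ 0 := by
  intro h
  have := (T.lead_aeval g).2 hN
  rw [h, map_zero] at this
  exact h0 (leadingCoeff_eq_zero.mp this.symm)

/-- a monic polynomial of degree `N` killing `v 0` is `p_N`. -/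
theorem eq_p {n : ℕ} (hn : D.N = n) {g : K[X]} (hg : g.Monic) (hd : g.natDegree = n)
    (hk : aeval A g (v 0) = 0) : g = D.p n := by
  by_contra hne
  have h0 : g - D.p n ≠ 0 := sub_ne_zero.mpr hne
  have hlt : (g - D.p n).natDegree < n := by
    have hdeg : (g - D.p n).degree < g.degree := by
      refine degree_sub_lt_left ?_ hg.ne_zero ?_
      · rw [degree_eq_natDegree hg.ne_zero, degree_eq_natDegree (p_monic n).ne_zero, hd,
          p_natDegree]
      · rw [hg.leadingCoeff, (p_monic n).leadingCoeff]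
    rw [degree_eq_natDegree hg.ne_zero, hd] at hdeg
    exact (natDegree_lt_iff_degree_lt h0).mpr hdeg
  refine T.aeval_ne h0 (by rw [hn]; exact_mod_cast hlt) ?_
  rw [map_sub, LinearMap.sub_apply, hk, T.kill hn, sub_zero]

theorem X0_v0 (_h2 : 2 ≤ D.N) : X0 D A B (v 0) := by
  refine ⟨T.hB 0, ?_⟩
  rw [T.A_zero, add_sub_cancel_right, T.hB]

omit T in
theorem X0.map {f : V →ₗ[K] V} (hA : ∀ x, f (A x) = A (f x)) (hB : ∀ x, f (B x) = B (f x)) {u : V}
    (h : X0 D A B u) : X0 D A B (f u) := by
  refine ⟨by rw [← hB, h.1, map_smul], ?_⟩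
  have : A (f u) - D.a 0 • f u = f (A u - D.a 0 • u) := by rw [map_sub, map_smul, hA]
  rw [this, ← hB, h.2, map_smul]

omit T in
theorem X0.sub {u w : V} (h : X0 D A B u) (h' : X0 D A B w) : X0 D A B (u - w) := by
  refine ⟨by rw [map_sub, h.1, h'.1, smul_sub], ?_⟩
  have : A (u - w) - D.a 0 • (u - w) = (A u - D.a 0 • u) - (A w - D.a 0 • w) := by
    rw [map_sub, smul_sub]; abel
  rw [this, map_sub, h.2, h'.2, ← smul_sub]

omit T in
theorem X0.smul {u : V} (c : K) (h : X0 D A B u) : X0 D A B (c • u) := by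
  refine ⟨by rw [map_smul, h.1, smul_comm], ?_⟩
  have : A (c • u) - D.a 0 • (c • u) = c • (A u - D.a 0 • u) := by
    rw [map_smul, smul_sub, smul_comm (D.a 0) c]
  rw [this, map_smul, h.2, smul_comm]

end Tri

/-- the properties of the period operator -/
structure Gen (T : Tri D A B v) (P : ℕ) (q : K[X]) : Prop where
  Ppos : 1 ≤ P
  monic : q.Monic
  deg : q.natDegree = P
  comm : (P : ℕ∞) < D.N → ∀ x, aeval A q (B x) = B (aeval A q x)
  lead : ∀ u, X0 D A B u → ∀ l : ℕ, (l : ℕ∞) < D.N → T.c l u ≠ 0 → (∀ i, l < i → T.c i u = 0) → P ∣ l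
  c0 : ∀ U : Submodule K V, Inv A B U → (∀ x ∈ U, X0 D A B x → x = 0) → ∀ x ∈ U, T.c 0 x = 0

namespace Gen

variable {T : Tri D A B v} {P : ℕ} {q : K[X]}

theorem comm_A (x : V) : aeval A q (A x) = A (aeval A q x) := by
  have : aeval A q * A = A * aeval A q := by
    have h : aeval A (q * X) = aeval A q * aeval A X := map_mul _ q X
    have h' : aeval A (X * q) = aeval A X * aeval A q := map_mul _ X q
    rw [aeval_X] at h h'
    rw [← h, ← h', mul_comm]
  exact congrArg (fun f => f x) this

theorem comm_comp (H : Gen T P q) (hP : (P : ℕ∞) < D.N) (g : K[X]) (x : V) :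
    aeval A (g.comp q) (B x) = B (aeval A (g.comp q) x) := by
  rw [aeval_comp]
  have := Tri.comm_aeval (A := aeval A q) (A' := aeval A q) (f := B)
    (fun x => (H.comm hP x).symm) g x
  exact this.symm

theorem comp_deg (H : Gen T P q) (g : K[X]) : (g.comp q).natDegree = g.natDegree * P := by
  rw [natDegree_comp, H.deg]

/-- the special vectors are the images of `v 0` under polynomials in the period operator. -/
theorem span (H : Gen T P q) (h2 : 2 ≤ D.N) {n : ℕ} (hN : D.N = ((n * P : ℕ) : ℕ∞)) :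
    ∀ u, X0 D A B u → ∃ g : K[X], g.degree < n ∧ u = aeval A (g.comp q) (v 0) := by
  have hPpos := H.Ppos
  have main : ∀ m : ℕ, ∀ u, X0 D A B u → (∀ i, m ≤ i → T.c i u = 0) →
      ∃ g : K[X], g.degree < n ∧ u = aeval A (g.comp q) (v 0) := by
    intro m
    induction m using Nat.strong_induction_on with
    | _ m ih =>
    intro u hu hm
    by_cases h0 : u = 0
    · refine ⟨0, ?_, ?_⟩
      · rw [degree_zero]
        exact WithBot.bot_lt_coe n
      · rw [h0]; simp
    · obtain ⟨l, hl, hcl, hl'⟩ := T.exists_lead h0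
      have hlm : l < m := by
        by_contra h
        exact hcl (hm l (not_lt.mp h))
      obtain ⟨k, hk⟩ := H.lead u hu l hl hcl hl'
      rw [mul_comm] at hk
      have hln : l < n * P := by rw [hN] at hl; exact_mod_cast hl
      have hkn : k < n := by
        by_contra h
        have : n * P ≤ k * P := Nat.mul_le_mul_right P (not_lt.mp h)
        omega
      set g0 : K[X] := C (T.c l u) * X ^ k with hg0
      have hcomp : aeval A (g0.comp q) (v 0) = T.c l u • aeval A (q ^ k) (v 0) := by
        rw [hg0, mul_comp, C_comp, X_pow_comp, map_mul, aeval_C, Module.End.mul_apply,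
          Module.algebraMap_end_apply]
      have hX : X0 D A B (aeval A (q ^ k) (v 0)) := by
        rcases Nat.eq_zero_or_pos k with hk0 | hk0
        · rw [hk0, pow_zero, map_one, Module.End.one_apply]
          exact T.X0_v0 h2
        · have hPN : (P : ℕ∞) < D.N := by
            refine Tri.lt_mono hl ?_
            rw [hk]
            exact Nat.le_mul_of_pos_left P hk0
          have e : aeval A (q ^ k) = aeval A ((X ^ k : K[X]).comp q) := by rw [X_pow_comp]
          rw [e]
          exact Tri.X0.map (f := aeval A ((X ^ k : K[X]).comp q)) (fun x => comm_A x)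
            (fun x => H.comm_comp hPN _ x) (T.X0_v0 h2)
      have hdk : (q ^ k).natDegree = l := by rw [natDegree_pow, H.deg, hk]
      have L := T.lead_aeval (q ^ k)
      rw [hdk] at L
      have hlead : T.c l (aeval A (q ^ k) (v 0)) = 1 := by
        rw [L.2 hl, (H.monic.pow k).leadingCoeff]
      obtain ⟨g1, hg1, hu1⟩ := ih l hlm (u - T.c l u • aeval A (q ^ k) (v 0))
        (Tri.X0.sub hu (Tri.X0.smul _ hX)) (by
          intro i hi
          rw [map_sub, map_smul, smul_eq_mul]
          rcases Nat.eq_or_lt_of_le hi with h | h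
          · rw [← h, hlead]; ring
          · rw [hl' i h, L.1 i h]; ring)
      refine ⟨g1 + g0, ?_, ?_⟩
      · refine lt_of_le_of_lt (degree_add_le _ _) (max_lt hg1 ?_)
        refine lt_of_le_of_lt (degree_C_mul_X_pow_le _ _) ?_
        exact_mod_cast hkn
      · rw [add_comp, map_add, LinearMap.add_apply, ← hu1, hcomp]
        abel
  intro u hu
  refine main (n * P) u hu fun i hi => ?_
  refine T.c_ge ?_ u
  rw [hN]
  exact_mod_cast hi

theorem irr_of (H : Gen T P q) (h2 : 2 ≤ D.N) {n : ℕ} (hN : D.N = ((n * P : ℕ) : ℕ∞))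
    (hn : n = 1 ∨ ∃ π : K[X], Irreducible π ∧ π.comp q = D.p (n * P)) : Irr A B := by
  refine ⟨⟨v 0, T.v_ne T.zero_lt⟩, fun U hU => ?_⟩
  by_cases hbot : U = ⊥
  · exact Or.inl hbot
  right
  by_cases hX : ∀ x ∈ U, X0 D A B x → x = 0
  · exact absurd (T.bot_of_c0 hU.1 (H.c0 U hU hX)) hbot
  push Not at hX
  obtain ⟨x, hx, hx0, hxne⟩ := hX
  refine T.top_of_v0 hU ?_
  obtain ⟨g, hg, hxg⟩ := H.span h2 hN x hx0
  have hgne : g ≠ 0 := by
    rintro rfl
    rw [zero_comp, map_zero, LinearMap.zero_apply] at hxg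
    exact hxne hxg
  have hAU : ∀ (p : K[X]), ∀ y ∈ U, aeval A p y ∈ U := by
    intro p y hy
    induction p using Polynomial.induction_on' with
    | add p q hp hq => rw [map_add, LinearMap.add_apply]; exact U.add_mem hp hq
    | monomial n c =>
      rw [aeval_monomial, Module.End.mul_apply, Module.algebraMap_end_apply]
      refine U.smul_mem _ ?_
      induction n with
      | zero => simpa using hy
      | succ n ih => rw [pow_succ', Module.End.mul_apply]; exact hU.1 _ ih
  rcases hn with hn | ⟨π, hπ, hπq⟩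
  · subst hn
    have : g.degree < 1 := by exact_mod_cast hg
    obtain ⟨c, rfl⟩ : ∃ c, g = C c := ⟨g.coeff 0, eq_C_of_degree_le_zero (Nat.WithBot.lt_one_iff_le_zero.mp this)⟩
    have hc : c ≠ 0 := by rintro rfl; exact hgne (by simp)
    rw [C_comp, aeval_C, Module.algebraMap_end_apply] at hxg
    have := U.smul_mem c⁻¹ hx
    rw [hxg, smul_smul, inv_mul_cancel₀ hc, one_smul] at this
    exact this
  · have hcop : IsCoprime g π := by
      refine ((hπ.coprime_iff_not_dvd (n := g)).mpr ?_).symm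
      intro hd
      have h1 := natDegree_le_of_dvd hd hgne
      have h3 : π.natDegree = n := by
        have := congrArg natDegree hπq
        rw [H.comp_deg, p_natDegree] at this
        exact Nat.eq_of_mul_eq_mul_right H.Ppos this
      have h4 : g.natDegree < n := (natDegree_lt_iff_degree_lt hgne).mpr hg
      omega
    obtain ⟨a, b, hab⟩ := hcop
    have h1 : aeval A ((a * g + b * π).comp q) (v 0) = v 0 := by
      rw [hab, one_comp, map_one, Module.End.one_apply]
    have h3 : aeval A ((a * g + b * π).comp q) (v 0) = aeval A (a.comp q) x := by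
      rw [add_comp, mul_comp, mul_comp, hπq, map_add, LinearMap.add_apply, map_mul, map_mul,
        Module.End.mul_apply, Module.End.mul_apply, T.kill hN, map_zero, add_zero, ← hxg]
    rw [← h1, h3]
    exact hAU _ x hx

theorem pi_of_irr (H : Gen T P q) (h2 : 2 ≤ D.N) {n : ℕ} (hN : D.N = ((n * P : ℕ) : ℕ∞))
    (hI : Irr A B) : n = 1 ∨ ∃ π : K[X], Irreducible π ∧ π.comp q = D.p (n * P) := by
  have hPpos := H.Ppos
  have hn0 : n ≠ 0 := by
    rintro rfl
    rw [hN] at h2
    simp at h2
  by_cases hn1 : n = 1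
  · exact Or.inl hn1
  right
  have hPN : (P : ℕ∞) < D.N := by
    rw [hN]
    exact_mod_cast (by nlinarith [Nat.lt_of_le_of_ne (Nat.one_le_iff_ne_zero.mpr hn0) (Ne.symm hn1)] :
      P < n * P)
  -- `z^n v0` is a special vector
  have hX : X0 D A B (aeval A ((X ^ n : K[X]).comp q) (v 0)) :=
    Tri.X0.map (f := aeval A ((X ^ n : K[X]).comp q)) (fun x => comm_A x)
      (fun x => H.comm_comp hPN _ x) (T.X0_v0 h2)
  obtain ⟨g, hg, hgz⟩ := H.span h2 hN _ hX
  set π : K[X] := X ^ n - g with hπ
  have hmon : π.Monic := monic_X_pow_sub (by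
    exact hg)
  have hdeg : π.natDegree = n := by
    rw [hπ, natDegree_sub_eq_left_of_natDegree_lt, natDegree_X_pow]
    rw [natDegree_X_pow]
    by_cases h0 : g = 0
    · rw [h0, natDegree_zero]; omega
    · exact (natDegree_lt_iff_degree_lt h0).mpr hg
  have hcomp : π.comp q = D.p (n * P) := by
    refine T.eq_p hN (hmon.comp H.monic (by rw [H.deg]; omega)) ?_ ?_
    · rw [H.comp_deg, hdeg]
    · rw [hπ, sub_comp, map_sub, LinearMap.sub_apply, hgz, sub_self]
  have small : ∀ f : K[X], f ≠ 0 → f.natDegree < n → aeval A (f.comp q) (v 0) ≠ 0 := by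
    intro f hf hd
    refine T.aeval_ne ?_ ?_
    · intro h
      have h1 := H.comp_deg f
      rw [h, natDegree_zero] at h1
      have h3 : f.natDegree = 0 := by
        rcases Nat.eq_zero_or_pos f.natDegree with h4 | h4
        · exact h4
        · have := Nat.mul_pos h4 hPpos
          omega
      obtain ⟨c, rfl⟩ : ∃ c, f = C c := ⟨_, eq_C_of_natDegree_eq_zero h3⟩
      rw [C_comp] at h
      exact hf h
    · rw [H.comp_deg, hN]
      exact_mod_cast Nat.mul_lt_mul_of_pos_right hd hPpos
  refine ⟨π, ?_, hcomp⟩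
  have hnu : ¬ IsUnit π := by
    intro h
    have := natDegree_eq_zero_of_isUnit h
    omega
  refine ⟨hnu, ?_⟩
  intro f g' hfg
  by_contra hcon
  push Not at hcon
  obtain ⟨hf, hg'⟩ := hcon
  have hf0 : f ≠ 0 := by rintro rfl; rw [zero_mul] at hfg; exact hmon.ne_zero hfg
  have hg0 : g' ≠ 0 := by rintro rfl; rw [mul_zero] at hfg; exact hmon.ne_zero hfg
  have hdd : f.natDegree + g'.natDegree = n := by
    rw [← natDegree_mul hf0 hg0, ← hfg, hdeg]
  have hf1 : f.natDegree ≠ 0 := by
    intro h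
    apply hf
    rw [eq_C_of_natDegree_eq_zero h] at hf0 ⊢
    exact (isUnit_C).mpr (Ne.isUnit (by simpa using hf0))
  have hg1 : g'.natDegree ≠ 0 := by
    intro h
    apply hg'
    rw [eq_C_of_natDegree_eq_zero h] at hg0 ⊢
    exact (isUnit_C).mpr (Ne.isUnit (by simpa using hg0))
  have h3 : aeval A (f.comp q) (aeval A (g'.comp q) (v 0)) = 0 := by
    rw [← Module.End.mul_apply, ← map_mul, ← mul_comp, ← hfg, hcomp, T.kill hN]
  have h4 := hI.inj (f := aeval A (f.comp q)) (fun x => comm_A x) (fun x => H.comm_comp hPN _ x)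
    (y := v 0) (small g' hg0 (by omega)) h3
  exact small f hf0 (by omega) h4

theorem fin_of_irr (T : Tri D A B v) (hP : 1 ≤ P) (hmon : q.Monic) (hdeg : q.natDegree = P)
    (hcomm : (P : ℕ∞) < D.N → ∀ x, aeval A q (B x) = B (aeval A q x)) (hI : Irr A B) :
    D.N ≠ ⊤ := by
  intro htop
  have hPN : (P : ℕ∞) < D.N := by rw [htop]; exact ENat.natCast_lt_top P
  have hne : aeval A q (v 0) ≠ 0 := T.aeval_ne hmon.ne_zero (by rw [hdeg]; exact hPN)
  obtain ⟨x, hx⟩ := hI.surj (f := aeval A q) (fun x => comm_A x) (hcomm hPN) hne (v 0)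
  obtain ⟨g, rfl⟩ := T.cyclic x
  rw [← Module.End.mul_apply, ← map_mul] at hx
  have hg0 : g ≠ 0 := by
    rintro rfl
    rw [mul_zero, map_zero, LinearMap.zero_apply] at hx
    exact T.v_ne T.zero_lt hx.symm
  have hd : (q * g).natDegree = P + g.natDegree := by rw [hmon.natDegree_mul' hg0, hdeg]
  have h1 := (T.lead_aeval (q * g)).2 (by rw [htop]; exact ENat.natCast_lt_top _)
  rw [hx, hd, T.c_ne (by omega)] at h1
  have h2 := leadingCoeff_eq_zero.mp h1.symm
  rcases mul_eq_zero.mp h2 with h3 | h3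
  · exact hmon.ne_zero h3
  · exact hg0 h3

end Gen

end Pool.Agent.Helper9.AW
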