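import Pool.Agent.Helper9.AWEnd

set_option autoImplicit false
set_option linter.unusedSectionVars false
set_option linter.unusedSimpArgs false

namespace Pool.Agent.Helper9.AW

open Polynomial

variable {K : Type*} [Field K] {D : Arr K} {s : Scalars K} {V : Type*} [AddCommGroup V]
  [Module K V] {A B : V →ₗ[K] V} {v : ℕ → V}

theorem chi_natDegree (m : ℕ) : (D.chi m).natDegree = 2 := by
  unfold Arr.chi
  compute_degree!

theorem chi_monic (m : ℕ) : (D.chi m).Monic := by
  have h := chi_natDegree (D := D) m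
  unfold Monic leadingCoeff
  rw [h]
  unfold Arr.chi
  simp [coeff_X, coeff_C]

theorem chi_eval (m : ℕ) (x : K) :
    (D.chi m).eval x = x ^ 2 - (D.a m + D.a (m + 1)) * x + (D.a m * D.a (m + 1) - D.w (m + 1)) := by
  simp [Arr.chi]

theorem chi_irr_iff (m : ℕ) : Irreducible (D.chi m) ↔ ∀ x, (D.chi m).eval x ≠ 0 := by
  have hd := chi_natDegree (D := D) m
  rw [Polynomial.Monic.irreducible_iff_roots_eq_zero_of_degree_le_three (chi_monic m)
    (by rw [hd]) (by rw [hd]; norm_num)]
  constructor
  · intro h x hx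
    have : x ∈ (D.chi m).roots := by
      rw [mem_roots (chi_monic m).ne_zero]
      exact hx
    rw [h] at this
    simp at this
  · intro h
    rw [Multiset.eq_zero_iff_forall_notMem]
    intro x hx
    rw [mem_roots (chi_monic m).ne_zero] at hx
    exact h x hx

namespace Tri

variable (T : Tri D A B v)
include T

theorem v_ne {j : ℕ} (hj : (j : ℕ∞) < D.N) : v j ≠ 0 := by
  intro h
  have := T.c_self hj
  rw [h, map_zero] at this
  exact zero_ne_one this

theorem top_of_v0 {U : Submodule K V} (hU : Inv A B U) (h : v 0 ∈ U) : U = ⊤ := by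
  rw [eq_top_iff]
  intro x _
  obtain ⟨g, rfl⟩ := T.cyclic x
  induction g using Polynomial.induction_on' with
  | add p q hp hq => rw [map_add, LinearMap.add_apply]; exact U.add_mem (hp trivial) (hq trivial)
  | monomial n c =>
    rw [aeval_monomial, Module.End.mul_apply, Module.algebraMap_end_apply]
    refine U.smul_mem _ ?_
    induction n with
    | zero => simpa using h
    | succ n ih => rw [pow_succ', Module.End.mul_apply]; exact hU.1 _ (ih trivial)

theorem bot_of_pair {U : Submodule K V} (hU : ∀ x ∈ U, A x ∈ U) (m : ℕ) (hm : (m : ℕ∞) < D.N)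
    (h : ∀ x ∈ U, T.c m x = 0 ∧ T.c (m + 1) x = 0) : U = ⊥ := by
  have up : ∀ k : ℕ, ∀ x ∈ U, T.c (m + k) x = 0 ∧ T.c (m + k + 1) x = 0 := by
    intro k
    induction k with
    | zero => exact h
    | succ k ih =>
      intro x hx
      have h1 := ih x hx
      have h2 := ih (A x) (hU x hx)
      refine ⟨h1.2, ?_⟩
      by_cases hN : ((m + k + 2 : ℕ) : ℕ∞) < D.N
      · have h3 := T.c_A_succ (i := m + k) (lt_mono hN (by omega)) x
        rw [h2.2, h1.1, h1.2, mul_zero, add_zero, zero_add] at h3
        rcases mul_eq_zero.mp h3.symm with h4 | h4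
        · exact absurd h4 (T.w_ne (by omega) hN)
        · exact h4
      · exact T.c_ge (not_lt.mp hN) x
  have dn : ∀ k : ℕ, k ≤ m → ∀ x ∈ U, T.c (m - k) x = 0 ∧ T.c (m - k + 1) x = 0 := by
    intro k
    induction k with
    | zero => intro _; exact h
    | succ k ih =>
      intro hk x hx
      have h1 := ih (by omega) x hx
      have h2 := ih (by omega) (A x) (hU x hx)
      obtain ⟨i, hi⟩ : ∃ i, m - k = i + 1 := ⟨m - k - 1, by omega⟩
      have hi' : m - (k + 1) = i := by omega
      rw [hi] at h1 h2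
      rw [hi']
      have h3 := T.c_A_succ (i := i) (lt_mono hm (by omega)) x
      rw [h2.1, h1.1, h1.2, mul_zero, mul_zero, add_zero, add_zero] at h3
      exact ⟨h3.symm, h1.1⟩
  rw [Submodule.eq_bot_iff]
  intro x hx
  refine T.ext_c fun i => ?_
  rcases Nat.lt_or_ge i m with hi | hi
  · have := (dn (m - i) (by omega) x hx).1
    rwa [show m - (m - i) = i by omega] at this
  · have := (up (i - m) x hx).1
    rwa [show m + (i - m) = i by omega] at this

theorem bot_of_c0 {U : Submodule K V} (hU : ∀ x ∈ U, A x ∈ U) (h : ∀ x ∈ U, T.c 0 x = 0) :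
    U = ⊥ := by
  refine T.bot_of_pair hU 0 T.zero_lt fun x hx => ⟨h x hx, ?_⟩
  by_cases hN : ((1 : ℕ) : ℕ∞) < D.N
  · have h3 := T.c_A_zero x
    rw [h x hx, h _ (hU x hx), mul_zero, zero_add] at h3
    rcases mul_eq_zero.mp h3.symm with h4 | h4
    · exact absurd h4 (T.w_ne (by omega) hN)
    · exact h4
  · exact T.c_ge (not_lt.mp hN) x

/-- moving down one step inside an invariant subspace -/
theorem step_down {U : Submodule K V} (hU : Inv A B U) {j : ℕ} (hj : ((j + 1 : ℕ) : ℕ∞) < D.N)
    (h : v (j + 1) ∈ U) (h1 : D.θ (j + 1) ≠ D.θ j)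
    (h2 : ((j + 2 : ℕ) : ℕ∞) < D.N → D.θ (j + 2) ≠ D.θ j) :
    v j ∈ U := by
  have h3 := T.π_mem hU.2 (D.θ j) (hU.1 _ h)
  rw [T.A_succ, map_add, map_add, map_smul, map_smul, T.π_neg h1, T.π_pos rfl] at h3
  have h4 : T.π (D.θ j) (v (j + 2)) = 0 := by
    by_cases hN : ((j + 2 : ℕ) : ℕ∞) < D.N
    · exact T.π_neg (h2 hN)
    · rw [T.vz _ (not_lt.mp hN), map_zero]
  rw [h4, smul_zero, add_zero, zero_add] at h3
  have h5 := U.smul_mem (D.w (j + 1))⁻¹ h3
  rwa [smul_smul, inv_mul_cancel₀ (T.w_ne (by omega) hj), one_smul] at h5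

theorem irr_of_distinct (h : D.Distinct) : Irr A B := by
  refine ⟨⟨v 0, T.v_ne T.zero_lt⟩, fun U hU => ?_⟩
  by_cases hbot : U = ⊥
  · exact Or.inl hbot
  right
  obtain ⟨x, hx, hx0⟩ := (Submodule.ne_bot_iff U).mp hbot
  obtain ⟨l, hl, hcl, _⟩ := T.exists_lead hx0
  have h1 : T.π (D.θ l) x = T.c l x • v l := by
    refine T.eq_of_c fun i => ?_
    rw [map_smul, smul_eq_mul, T.c_eq i l hl]
    by_cases hi : i = l
    · rw [hi, if_pos rfl, T.c_π_pos rfl, mul_one]
    · rw [if_neg hi, mul_zero]
      by_cases hiN : (i : ℕ∞) < D.N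
      · exact T.c_π_neg (fun h' => hi (h i l hiN hl h')) x
      · exact T.c_ge (not_lt.mp hiN) _
  have h2 := T.π_mem hU.2 (D.θ l) hx
  rw [h1] at h2
  have h3 : v l ∈ U := by
    have := U.smul_mem (T.c l x)⁻¹ h2
    rwa [smul_smul, inv_mul_cancel₀ hcl, one_smul] at this
  have h4 : ∀ j, j ≤ l → v (l - j) ∈ U := by
    intro j
    induction j with
    | zero => intro _; exact h3
    | succ j ih =>
      intro hj
      have h5 := ih (by omega)
      obtain ⟨i, hi⟩ : ∃ i, l - j = i + 1 := ⟨l - j - 1, by omega⟩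
      rw [hi] at h5
      have hi' : l - (j + 1) = i := by omega
      rw [hi']
      have hiN : ((i + 1 : ℕ) : ℕ∞) < D.N := lt_mono hl (by omega)
      refine T.step_down hU hiN h5 ?_ ?_
      · intro h'
        have := h _ _ hiN (lt_of_succ_lt hiN) h'
        omega
      · intro hN h'
        have := h _ _ hN (lt_of_succ_lt hiN) h'
        omega
  refine T.top_of_v0 hU ?_
  have := h4 l le_rfl
  rwa [Nat.sub_self] at this

theorem comm_π {f : V →ₗ[K] V} (hf : ∀ x, f (B x) = B (f x)) (t : K) (x : V) :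
    f (T.π t x) = T.π t (f x) := by
  have h : f ∘ₗ T.π t = T.π t ∘ₗ f := by
    refine T.ext_hom fun j => ?_
    simp only [LinearMap.comp_apply]
    have h1 : B (f (v j)) = D.θ j • f (v j) := by rw [← hf, T.hB, map_smul]
    by_cases h : D.θ j = t
    · rw [T.π_pos h, ← h, T.π_of_eig h1]
    · rw [T.π_neg h, map_zero, T.π_of_eig_ne h1 h]
  exact congrArg (fun g => g x) h

/-- the irreducible doubled modules -/
theorem irr_of_chi {m : ℕ} (F : Fold s D (2 * m + 1)) (hN : D.N = ((2 * m + 2 : ℕ) : ℕ∞))
    (hnc : D.θ (m + 2) ≠ D.θ (m + 1)) (hchi : Irreducible (D.chi m)) : Irr A B := by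
  refine ⟨⟨v 0, T.v_ne T.zero_lt⟩, fun U hU => ?_⟩
  by_cases hbot : U = ⊥
  · exact Or.inl hbot
  right
  have hloop : D.θ (m + 1) = D.θ m := by
    rw [F.nat (by omega : m ≤ 2 * m + 1)]
    congr 1
    omega
  have hmN : (m : ℕ∞) < D.N := by rw [hN]; exact_mod_cast (by omega : m < 2 * m + 2)
  have hm1N : ((m + 1 : ℕ) : ℕ∞) < D.N := by rw [hN]; exact_mod_cast (by omega : m + 1 < 2 * m + 2)
  have inj := F.inj
  rw [show (2 * m + 1) / 2 = m by omega] at inj
  obtain ⟨x, hx, hc⟩ : ∃ x ∈ U, T.c m x ≠ 0 ∨ T.c (m + 1) x ≠ 0 := by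
    by_contra h
    push Not at h
    exact hbot (T.bot_of_pair hU.1 m hmN h)
  set y := T.π (D.θ m) x with hy
  have hyU : y ∈ U := T.π_mem hU.2 _ hx
  set y' := T.π (D.θ m) (A y) with hy'
  have hyU' : y' ∈ U := T.π_mem hU.2 _ (hU.1 _ hyU)
  set α := T.c m x with hα
  set α' := T.c (m + 1) x with hα'
  have c1 : T.c m y = α := T.c_π_pos rfl x
  have c2 : T.c (m + 1) y = α' := T.c_π_pos hloop x
  have idx : ∀ i : ℕ, (i : ℕ∞) < D.N → D.θ i = D.θ m → i = m ∨ i = m + 1 := by
    intro i hi h
    have hi' : i < 2 * m + 2 := by rw [hN] at hi; exact_mod_cast hi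
    rcases Nat.lt_or_ge m i with h1 | h1
    · right
      rw [F.nat (by omega : i ≤ 2 * m + 1)] at h
      have := inj _ _ (by omega) le_rfl h
      omega
    · left
      exact inj _ _ h1 le_rfl h
  have expand : ∀ z : V, B z = D.θ m • z → z = T.c m z • v m + T.c (m + 1) z • v (m + 1) := by
    intro z hz
    refine T.eq_of_c fun i => ?_
    rw [map_add, map_smul, map_smul, smul_eq_mul, smul_eq_mul]
    by_cases hi : (i : ℕ∞) < D.N
    · by_cases hθ : D.θ i = D.θ m
      · rcases idx i hi hθ with h1 | h1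
        · rw [h1, T.c_self hmN, T.c_ne (by omega)]; ring
        · rw [h1, T.c_self hm1N, T.c_ne (by omega)]; ring
      · rw [T.c_of_eig hz hθ, T.c_ne, T.c_ne]
        · ring
        · rintro rfl; exact hθ hloop
        · rintro rfl; exact hθ rfl
    · rw [T.c_ge (not_lt.mp hi), T.c_ge (not_lt.mp hi), T.c_ge (not_lt.mp hi)]; ring
  have c3 : T.c m y' = D.a m * α + D.w (m + 1) * α' := by
    rw [hy', T.c_π_pos rfl, ← c1, ← c2]
    rcases m with _ | k
    · exact T.c_A_zero y
    · rw [T.c_A_succ hmN, T.c_of_eig (T.B_π _ _) (i := k)]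
      · ring
      · intro h'
        have := inj k (k + 1) (by omega) le_rfl h'
        omega
  have c4 : T.c (m + 1) y' = α + D.a (m + 1) * α' := by
    rw [hy', T.c_π_pos hloop, ← c1, ← c2, T.c_A_succ hm1N, T.c_of_eig (T.B_π _ _) (i := m + 2)]
    · ring
    · rw [← hloop]; exact hnc
  have ey := expand y (T.B_π _ _)
  have ey' := expand y' (T.B_π _ _)
  rw [c1, c2] at ey
  rw [c3, c4] at ey'
  have hvm : v m ∈ U := by
    by_cases hdet : α ^ 2 + (D.a (m + 1) - D.a m) * α * α' - D.w (m + 1) * α' ^ 2 = 0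
    · exfalso
      have hα0 : α' ≠ 0 := by
        intro h
        rw [h] at hdet hc
        have : α = 0 := by
          have : α ^ 2 = 0 := by linear_combination hdet
          exact pow_eq_zero_iff (two_ne_zero) |>.mp this
        rw [this] at hc
        simp at hc
      refine (chi_irr_iff m).mp hchi (α / α' + D.a (m + 1)) ?_
      rw [chi_eval]
      field_simp
      linear_combination hdet
    · have h1 : (α + D.a (m + 1) * α') • y - α' • y' =
        (α ^ 2 + (D.a (m + 1) - D.a m) * α * α' - D.w (m + 1) * α' ^ 2) • v m := by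
        rw [ey, ey']
        module
      have h2 : (α ^ 2 + (D.a (m + 1) - D.a m) * α * α' - D.w (m + 1) * α' ^ 2) • v m ∈ U := by
        rw [← h1]
        exact U.sub_mem (U.smul_mem _ hyU) (U.smul_mem _ hyU')
      have h3 := U.smul_mem (α ^ 2 + (D.a (m + 1) - D.a m) * α * α' - D.w (m + 1) * α' ^ 2)⁻¹ h2
      rwa [smul_smul, inv_mul_cancel₀ hdet, one_smul] at h3
  have h4 : ∀ j, j ≤ m → v (m - j) ∈ U := by
    intro j
    induction j with
    | zero => intro _; exact hvm
    | succ j ih =>
      intro hj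
      have h5 := ih (by omega)
      obtain ⟨i, hi⟩ : ∃ i, m - j = i + 1 := ⟨m - j - 1, by omega⟩
      rw [hi] at h5
      have hi' : m - (j + 1) = i := by omega
      rw [hi']
      have hiN : ((i + 1 : ℕ) : ℕ∞) < D.N := lt_mono hmN (by omega)
      refine T.step_down hU hiN h5 ?_ ?_
      · intro h'
        have := inj _ _ (by omega) (by omega) h'
        omega
      · intro hN h'
        by_cases hm : i + 2 ≤ m
        · have := inj _ _ hm (by omega) h'
          omega
        · have : i + 2 = m + 1 := by omega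
          rw [this, hloop] at h'
          have := inj _ _ le_rfl (by omega) h'
          omega
  refine T.top_of_v0 hU ?_
  have := h4 m le_rfl
  rwa [Nat.sub_self] at this

/-- symmetric walk with an integer centre: reducible -/
theorem not_irr_even (G : Good s D) (hAW : IsAW s A B) {e : ℕ} (F : Fold s D e)
    (hN : D.N = ((e + 1 : ℕ) : ℕ∞)) (ha : D.a e = D.a 0) (he : e % 2 = 0) (hI : Irr A B) : False := by
  obtain ⟨k, hk⟩ : ∃ k, e = k + 1 := ⟨e - 1, by have := F.pos; omega⟩
  have heN : (e : ℕ∞) < D.N := by rw [hN]; exact_mod_cast Nat.lt_succ_self e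
  have m0 : D.θ e = D.θ 0 := by rw [F.nat (le_refl e), Nat.sub_self]
  have m1 : D.θ k = D.θ 1 := by
    rw [F.nat (by omega : k ≤ e)]
    congr 1
    omega
  have hAe : A (v e) - D.a 0 • v e = D.w e • v k := by
    rw [hk, T.A_succ, ← hk, T.vz (k + 2) (by rw [hN, hk]), ha]
    abel
  obtain ⟨f, fA, fB, f0⟩ := T.end_of G hAW (v e) (by rw [T.hB, m0]) (by
    rw [hAe, map_smul, T.hB, m1, smul_comm])
  set c := e / 2 with hc
  have hcN : (c : ℕ∞) < D.N := lt_mono heN (by omega)
  have h1 : B (f (v c)) = D.θ c • f (v c) := by rw [← fB, T.hB, map_smul]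
  have h2 : f (v c) = T.c c (f (v c)) • v c := by
    refine T.eq_of_c fun i => ?_
    rw [map_smul, smul_eq_mul, T.c_eq i c hcN]
    by_cases hi : i = c
    · rw [hi, if_pos rfl, mul_one]
    · rw [if_neg hi, mul_zero]
      by_cases hiN : (i : ℕ∞) < D.N
      · refine T.c_of_eig h1 fun h' => hi ?_
        have hi' : i < e + 1 := by rw [hN] at hiN; exact_mod_cast hiN
        rcases Nat.lt_or_ge c i with h3 | h3
        · rw [F.nat (by omega : i ≤ e)] at h'
          have := F.inj _ _ (by omega) le_rfl h'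
          omega
        · exact F.inj _ _ h3 le_rfl h'
      · exact T.c_ge (not_lt.mp hiN) _
  set l := T.c c (f (v c)) with hl
  have h3 := hI.inj (f := f - l • LinearMap.id) (fun x => by
      simp only [LinearMap.sub_apply, LinearMap.smul_apply, LinearMap.id_apply, fA, map_sub,
        map_smul]) (fun x => by
      simp only [LinearMap.sub_apply, LinearMap.smul_apply, LinearMap.id_apply, fB, map_sub,
        map_smul]) (x := v c) (y := v 0) (T.v_ne hcN) (by
      simp only [LinearMap.sub_apply, LinearMap.smul_apply, LinearMap.id_apply]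
      rw [← h2, sub_self])
  simp only [LinearMap.sub_apply, LinearMap.smul_apply, LinearMap.id_apply, f0] at h3
  have h4 := congrArg (T.c e) h3
  rw [map_sub, map_smul, T.c_self heN, T.c_ne (by omega), smul_zero, sub_zero, map_zero] at h4
  exact one_ne_zero h4

/-- symmetric walk with a loop in the middle -/
theorem chi_of_irr (G : Good s D) (hAW : IsAW s A B) {m : ℕ} (F : Fold s D (2 * m + 1))
    (hN : D.N = ((2 * m + 2 : ℕ) : ℕ∞)) (ha : m = 0 ∨ D.a (2 * m + 1) = D.a 0) (hI : Irr A B)
    (hnc : D.θ (m + 2) ≠ D.θ (m + 1)) : Irreducible (D.chi m) := by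
  rw [chi_irr_iff]
  intro μ hμ
  rw [chi_eval] at hμ
  have hloop : D.θ (m + 1) = D.θ m := by
    rw [F.nat (by omega : m ≤ 2 * m + 1)]
    congr 1
    omega
  have hmN : (m : ℕ∞) < D.N := by rw [hN]; exact_mod_cast (by omega : m < 2 * m + 2)
  have hm1N : ((m + 1 : ℕ) : ℕ∞) < D.N := by rw [hN]; exact_mod_cast (by omega : m + 1 < 2 * m + 2)
  have heN : ((2 * m + 1 : ℕ) : ℕ∞) < D.N := by rw [hN]; exact_mod_cast (by omega)
  have inj := F.inj
  rw [show (2 * m + 1) / 2 = m by omega] at inj
  set x := (μ - D.a (m + 1)) • v m + v (m + 1) with hx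
  have hx0 : x ≠ 0 := by
    intro h
    have := congrArg (T.c (m + 1)) h
    rw [hx, map_add, map_smul, T.c_self hm1N, T.c_ne (by omega), map_zero] at this
    simp at this
  rcases Nat.eq_zero_or_pos m with hm0 | hm0
  · subst hm0
    -- the line spanned by `x` is invariant
    have hBx : ∀ z : V, B z = D.θ 0 • z := by
      intro z
      have : B = D.θ 0 • LinearMap.id := by
        refine T.ext_hom' fun j hj => ?_
        have hj' : j < 2 := by rw [hN] at hj; exact_mod_cast hj
        rw [T.hB]
        rcases (by omega : j = 0 ∨ j = 1) with h1 | h1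
        · subst h1; rfl
        · subst h1
          simp only [zero_add] at hloop
          rw [hloop]; rfl
      rw [this]; rfl
    have hAx : A x = μ • x := by
      rw [hx]
      simp only [map_add, map_smul, zero_add]
      rw [T.A_zero, T.A_succ 0]
      simp only [zero_add]
      rw [T.vz 2 (by rw [hN])]
      simp only [zero_add] at hμ
      have e : D.w 1 = (μ - D.a 0) * (μ - D.a 1) := by linear_combination -hμ
      rw [e]
      module
    rcases hI.2 (Submodule.span K {x}) ⟨fun z hz => by
        obtain ⟨t, rfl⟩ := Submodule.mem_span_singleton.mp hz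
        rw [map_smul, hAx]
        exact Submodule.smul_mem _ _ (Submodule.smul_mem _ _ (Submodule.mem_span_singleton_self x)),
      fun z hz => by rw [hBx]; exact Submodule.smul_mem _ _ hz⟩ with h1 | h1
    · rw [Submodule.span_singleton_eq_bot] at h1
      exact hx0 h1
    · have h2 : v 0 ∈ Submodule.span K {x} := by rw [h1]; trivial
      obtain ⟨t, ht⟩ := Submodule.mem_span_singleton.mp h2
      have h3 := congrArg (T.c 1) ht
      rw [map_smul, hx, map_add, map_smul, T.c_ne (by omega), T.c_self hm1N] at h3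
      simp at h3
      rw [h3, zero_smul] at ht
      exact T.v_ne T.zero_lt ht.symm
  · rcases ha with ha | ha
    · omega
    have m0 : D.θ (2 * m + 1) = D.θ 0 := by
      rw [F.nat (le_refl (2 * m + 1)), Nat.sub_self]
    have m1 : D.θ (2 * m) = D.θ 1 := by
      rw [F.nat (by omega : 2 * m ≤ 2 * m + 1)]
      congr 1
      omega
    have hAe : A (v (2 * m + 1)) - D.a 0 • v (2 * m + 1) = D.w (2 * m + 1) • v (2 * m) := by
      rw [T.A_succ, T.vz (2 * m + 2) (by rw [hN]), ha]
      abel
    obtain ⟨f, fA, fB, f0⟩ := T.end_of G hAW (v (2 * m + 1)) (by rw [T.hB, m0]) (by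
      rw [hAe, map_smul, T.hB, m1, smul_comm])
    have hBx : B x = D.θ m • x := by
      rw [hx, map_add, map_smul, T.hB, T.hB, hloop]
      module
    have hMx : T.π (D.θ m) (A x) = μ • x := by
      obtain ⟨k, rfl⟩ : ∃ k, m = k + 1 := ⟨m - 1, by omega⟩
      rw [hx]
      simp only [map_add, map_smul]
      rw [T.A_succ, T.A_succ]
      simp only [map_add, map_smul]
      rw [T.π_pos (j := k + 1) rfl, T.π_pos (j := k + 2) hloop, T.π_neg (j := k) (fun h' => by
        have := inj k (k + 1) (by omega) le_rfl h'; omega), T.π_neg (j := k + 1 + 2) (by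
          rw [← hloop]; exact hnc)]
      have e : D.w (k + 2) = (μ - D.a (k + 1)) * (μ - D.a (k + 2)) := by
        simp only [show k + 1 + 1 = k + 2 from rfl] at hμ
        linear_combination -hμ
      rw [show k + 1 + 1 = k + 2 from rfl, e]
      module
    set y := f x with hy
    have hBy : B y = D.θ m • y := by rw [hy, ← fB, hBx, map_smul]
    have hMy : T.π (D.θ m) (A y) = μ • y := by
      rw [hy, ← fA, ← T.comm_π fB, hMx, map_smul]
    have idx : ∀ i : ℕ, (i : ℕ∞) < D.N → D.θ i = D.θ m → i = m ∨ i = m + 1 := by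
      intro i hi h
      have hi' : i < 2 * m + 2 := by rw [hN] at hi; exact_mod_cast hi
      rcases Nat.lt_or_ge m i with h1 | h1
      · right
        rw [F.nat (by omega : i ≤ 2 * m + 1)] at h
        have := inj _ _ (by omega) le_rfl h
        omega
      · left
        exact inj _ _ h1 le_rfl h
    have c4 := congrArg (T.c (m + 1)) hMy
    rw [T.c_π_pos hloop, T.c_A_succ hm1N, map_smul, smul_eq_mul,
      T.c_of_eig hBy (i := m + 2) (by rw [← hloop]; exact hnc)] at c4
    have hyx : y = T.c (m + 1) y • x := by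
      refine T.eq_of_c fun i => ?_
      rw [map_smul, hx, map_add, map_smul, smul_eq_mul, smul_eq_mul]
      by_cases hi : (i : ℕ∞) < D.N
      · by_cases hθ : D.θ i = D.θ m
        · rcases idx i hi hθ with h1 | h1
          · rw [h1, T.c_self hmN, T.c_ne (by omega)]
            linear_combination c4
          · rw [h1, T.c_self hm1N, T.c_ne (by omega)]; ring
        · rw [T.c_of_eig hBy hθ, T.c_ne, T.c_ne]
          · ring
          · rintro rfl; exact hθ hloop
          · rintro rfl; exact hθ rfl
      · rw [T.c_ge (not_lt.mp hi), T.c_ge (not_lt.mp hi), T.c_ge (not_lt.mp hi)]; ring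
    set l := T.c (m + 1) y with hl
    have h3 := hI.inj (f := f - l • LinearMap.id) (fun x => by
        simp only [LinearMap.sub_apply, LinearMap.smul_apply, LinearMap.id_apply, fA, map_sub,
          map_smul]) (fun x => by
        simp only [LinearMap.sub_apply, LinearMap.smul_apply, LinearMap.id_apply, fB, map_sub,
          map_smul]) (x := x) (y := v 0) hx0 (by
        simp only [LinearMap.sub_apply, LinearMap.smul_apply, LinearMap.id_apply]
        rw [← hy, ← hyx, sub_self])
    simp only [LinearMap.sub_apply, LinearMap.smul_apply, LinearMap.id_apply, f0] at h3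
    have h4 := congrArg (T.c (2 * m + 1)) h3
    rw [map_sub, map_smul, T.c_self heN, T.c_ne (by omega), smul_zero, sub_zero, map_zero] at h4
    exact one_ne_zero h4

end Tri

end Pool.Agent.Helper9.AW
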