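import Pool.Agent.Helper9.AWClass
import Pool.Agent.Helper9.AWCas

set_option autoImplicit false
set_option linter.unusedSectionVars false
set_option linter.unusedSimpArgs false
set_option linter.unusedVariables false

namespace Pool.Agent.Helper9.AW

open Polynomial

variable {K : Type*} [Field K] {D D' : Arr K} {s : Scalars K} {V : Type*} [AddCommGroup V]
  [Module K V] {A B : V →ₗ[K] V} {v v' : ℕ → V}
  {V' : Type*} [AddCommGroup V'] [Module K V'] {A' B' : V' →ₗ[K] V'}

/-- transport along an isomorphism -/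
theorem Tri.map (T : Tri D A B v) (e : V ≃ₗ[K] V') (hA : ∀ x, e (A x) = A' (e x))
    (hB : ∀ x, e (B x) = B' (e x)) : Tri D A' B' (fun j => e (v j)) := by
  refine ⟨T.hw, T.pos, fun j hj => by rw [T.vz j hj, map_zero], ?_, ?_, fun j => ?_, fun j => ?_⟩
  · exact T.ind.map' (e : V →ₗ[K] V') (LinearMap.ker_eq_bot.mpr e.injective)
  · intro y _
    have h : e.symm y ∈ Submodule.span K (Set.range v) := T.spn trivial
    have h2 := Submodule.mem_map_of_mem (f := (e : V →ₗ[K] V')) h
    rw [Submodule.map_span, ← Set.range_comp] at h2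
    simpa [Function.comp_def] using h2
  · rw [← hB, T.hB, map_smul]
  · rw [← hA, T.hA, map_add, map_add, map_smul, map_smul]

theorem N_eq (T : Tri D A B v) (T' : Tri D' A B v') : D.N = D'.N := by
  have e := T.basis.indexEquiv T'.basis
  have key : ∀ N N' : ℕ∞, ({j : ℕ // (j : ℕ∞) < N} ≃ {j : ℕ // (j : ℕ∞) < N'}) → N ≤ N' := by
    intro N N' e
    by_contra hlt
    rw [not_le] at hlt
    have hfin : N' ≠ ⊤ := fun h => by rw [h] at hlt; exact absurd hlt (by simp)
    obtain ⟨n, hn⟩ := ENat.ne_top_iff_exists.mp hfin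
    subst hn
    -- `n + 1` distinct elements of the source
    let g : Fin (n + 1) → Fin n := fun i =>
      ⟨(e ⟨i, lt_of_le_of_lt (by exact_mod_cast (by omega : (i : ℕ) ≤ n)) hlt⟩ : ℕ), by
        have := (e ⟨i, lt_of_le_of_lt (by exact_mod_cast (by omega : (i : ℕ) ≤ n)) hlt⟩).2
        exact_mod_cast this⟩
    have hg : Function.Injective g := by
      intro i j h
      have h1 := congrArg (fun z : Fin n => (z : ℕ)) h
      have h2 := e.injective (Subtype.ext h1)
      exact Fin.ext (congrArg Subtype.val h2)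
    have := Fintype.card_le_of_injective g hg
    simp at this
  exact le_antisymm (key _ _ e) (key _ _ e.symm)

theorem schur (hI : Irr A B) (hI' : Irr A' B') (f : V →ₗ[K] V') (fA : ∀ x, f (A x) = A' (f x))
    (fB : ∀ x, f (B x) = B' (f x)) {x0 : V} (hne : f x0 ≠ 0) : Function.Bijective f := by
  constructor
  · rw [← LinearMap.ker_eq_bot]
    rcases hI.2 (LinearMap.ker f) ⟨fun z hz => by
        rw [LinearMap.mem_ker] at *; rw [fA, hz, map_zero],
      fun z hz => by rw [LinearMap.mem_ker] at *; rw [fB, hz, map_zero]⟩ with h1 | h1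
    · exact h1
    · exfalso
      have : x0 ∈ LinearMap.ker f := by rw [h1]; trivial
      exact hne this
  · rw [← LinearMap.range_eq_top]
    rcases hI'.2 (LinearMap.range f) ⟨fun z hz => by
        obtain ⟨t, rfl⟩ := hz; exact ⟨A t, fA t⟩,
      fun z hz => by obtain ⟨t, rfl⟩ := hz; exact ⟨B t, fB t⟩⟩ with h1 | h1
    · exfalso
      have : f x0 ∈ LinearMap.range f := ⟨x0, rfl⟩
      rw [h1] at this
      exact hne (by simpa using this)
    · exact h1

/-! ### type 1 -/

/-- if the bases start proportionally, the arrays agree. -/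
theorem same_of (T : Tri D A B v) (T' : Tri D' A B v') (hD : D.Distinct) {c : K}
    (hc : c ≠ 0) (h0 : v' 0 = c • v 0) : D.Same D' := by
  have hN := N_eq T T'
  have step : ∀ j : ℕ, (j : ℕ∞) < D.N → v' j = c • v j → v' (j - 1) = c • v (j - 1) →
      D.a j = D'.a j ∧ D.w j = D'.w j ∧ v' (j + 1) = c • v (j + 1) := by
    intro j hj e1 e2
    have e3 : v' (j + 1) = c • v (j + 1) + (c * (D.a j - D'.a j)) • v j +
        (c * (D.w j - D'.w j)) • v (j - 1) := by
      have h1 := T'.hA j
      rw [e1, e2, map_smul, T.hA] at h1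
      have h2 : v' (j + 1) = c • (v (j + 1) + D.a j • v j + D.w j • v (j - 1)) -
        D'.a j • c • v j - D'.w j • c • v (j - 1) := by rw [h1]; abel
      rw [h2]
      module
    have hB := T'.hB (j + 1)
    -- coordinates
    have ha : c * (D.a j - D'.a j) = 0 := by
      have k : T.c j (v' (j + 1)) = c * (D.a j - D'.a j) := by
        rw [e3, map_add, map_add, map_smul, map_smul, map_smul, T.c_self hj, T.c_ne (by omega)]
        rcases j with _ | j
        · rw [T.w_zero, T'.w_zero]; simp
        · rw [T.c_ne (by omega)]; simp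
      by_cases hj1 : ((j + 1 : ℕ) : ℕ∞) < D.N
      · have k1 : T.c (j + 1) (v' (j + 1)) = c := by
          rw [e3, map_add, map_add, map_smul, map_smul, map_smul, T.c_self hj1,
            T.c_ne (by omega : j + 1 ≠ j), T.c_ne (by omega : j + 1 ≠ j - 1)]
          simp
        have k2 : D.θ (j + 1) = D'.θ (j + 1) := by
          by_contra h
          rw [T.c_of_eig hB h] at k1
          exact hc k1.symm
        rw [← k]
        refine T.c_of_eig hB ?_
        rw [← k2]
        intro h
        have := hD _ _ hj hj1 h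
        omega
      · rw [← k, T'.vz (j + 1) (by rw [← hN]; exact not_lt.mp hj1), map_zero]
    have hw : c * (D.w j - D'.w j) = 0 := by
      rcases j with _ | j
      · rw [T.w_zero, T'.w_zero]; ring
      have hj' : (j : ℕ∞) < D.N := Tri.lt_of_succ_lt hj
      have k : T.c j (v' (j + 1 + 1)) = c * (D.w (j + 1) - D'.w (j + 1)) := by
        rw [e3, map_add, map_add, map_smul, map_smul, map_smul, Nat.add_sub_cancel, T.c_self hj',
          T.c_ne (by omega), T.c_ne (by omega)]
        simp
      by_cases hj1 : ((j + 1 + 1 : ℕ) : ℕ∞) < D.N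
      · have k1 : T.c (j + 1 + 1) (v' (j + 1 + 1)) = c := by
          rw [e3, map_add, map_add, map_smul, map_smul, map_smul, T.c_self hj1,
            T.c_ne (by omega : j + 1 + 1 ≠ j + 1), T.c_ne (by omega : j + 1 + 1 ≠ j + 1 - 1)]
          simp
        have k2 : D.θ (j + 1 + 1) = D'.θ (j + 1 + 1) := by
          by_contra h
          rw [T.c_of_eig hB h] at k1
          exact hc k1.symm
        rw [← k]
        refine T.c_of_eig hB ?_
        rw [← k2]
        intro h
        have := hD _ _ hj' hj1 h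
        omega
      · rw [← k, T'.vz (j + 1 + 1) (by rw [← hN]; exact not_lt.mp hj1), map_zero]
    refine ⟨?_, ?_, ?_⟩
    · rcases mul_eq_zero.mp ha with h | h
      · exact absurd h hc
      · exact sub_eq_zero.mp h
    · rcases mul_eq_zero.mp hw with h | h
      · exact absurd h hc
      · exact sub_eq_zero.mp h
    · rw [e3, ha, hw]; simp
  have all : ∀ j : ℕ, (j : ℕ∞) < D.N → v' j = c • v j ∧ v' (j - 1) = c • v (j - 1) := by
    intro j
    induction j with
    | zero => intro _; exact ⟨h0, h0⟩
    | succ j ih =>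
      intro hj
      obtain ⟨i1, i2⟩ := ih (Tri.lt_of_succ_lt hj)
      exact ⟨(step j (Tri.lt_of_succ_lt hj) i1 i2).2.2, i1⟩
  refine ⟨hN, fun j hj => ?_⟩
  obtain ⟨i1, i2⟩ := all j hj
  obtain ⟨s1, s2, _⟩ := step j hj i1 i2
  refine ⟨?_, s1, s2⟩
  have hB := T'.hB j
  by_contra h
  have := T.c_of_eig hB h
  rw [i1, map_smul, T.c_self hj] at this
  simp at this
  exact hc this

/-- the reversed array -/
def Arr.rev (D : Arr K) (n : ℕ) : Arr K where
  N := D.N
  θ := fun j => D.θ (n - j)
  a := fun j => D.a (n - j)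
  w := fun j => if j = 0 then 0 else D.w (n + 1 - j)

/-- the factors of the reversed basis -/
def Arr.fac (D : Arr K) (n : ℕ) : ℕ → K
  | 0 => 1
  | j + 1 => Arr.fac D n j * D.w (n - j)

theorem fac_ne (T : Tri D A B v) {n : ℕ} (hN : D.N = ((n + 1 : ℕ) : ℕ∞)) {j : ℕ} (hj : j ≤ n) :
    D.fac n j ≠ 0 := by
  induction j with
  | zero => exact one_ne_zero
  | succ j ih =>
    refine mul_ne_zero (ih (by omega)) (T.w_ne (by omega) ?_)
    rw [hN]
    exact_mod_cast (by omega : n - j < n + 1)

theorem fac_ge {n : ℕ} (w0 : D.w 0 = 0) {j : ℕ} (hj : n < j) : D.fac n j = 0 := by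
  induction j with
  | zero => omega
  | succ j ih =>
    show D.fac n j * D.w (n - j) = 0
    rcases Nat.lt_or_ge n j with h | h
    · rw [ih h, zero_mul]
    · rw [show n - j = 0 by omega, w0, mul_zero]

theorem Tri.rev (T : Tri D A B v) {n : ℕ} (hN : D.N = ((n + 1 : ℕ) : ℕ∞)) :
    Tri (D.rev n) A B (fun j => D.fac n j • v (n - j)) := by
  have hlt : ∀ j : ℕ, ((j : ℕ∞) < (D.rev n).N ↔ j ≤ n) := by
    intro j
    show (j : ℕ∞) < D.N ↔ j ≤ n
    rw [hN]
    constructor
    · intro h
      have : j < n + 1 := by exact_mod_cast h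
      omega
    · intro h
      exact_mod_cast (by omega : j < n + 1)
  refine ⟨fun j => ?_, T.pos, fun j hj => ?_, ?_, ?_, fun j => ?_, fun j => ?_⟩
  · rw [hlt]
    show (if j = 0 then (0 : K) else D.w (n + 1 - j)) ≠ 0 ↔ _
    by_cases h0 : j = 0
    · simp [h0]
    · rw [if_neg h0, T.hw, hN]
      constructor
      · rintro ⟨h1, h2⟩
        omega
      · rintro ⟨h1, h2⟩
        exact ⟨by omega, by exact_mod_cast (by omega : n + 1 - j < n + 1)⟩
  · have : n < j := by
      by_contra h
      exact absurd ((hlt j).mpr (not_lt.mp h)) (not_lt.mpr hj)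
    show D.fac n j • v (n - j) = 0
    rw [fac_ge T.w_zero this, zero_smul]
  · -- independence
    rw [linearIndependent_iff']
    intro S g hg i hi
    have hi' : (i : ℕ) ≤ n := (hlt i).mp i.2
    have h1 := congrArg (T.c (n - i)) hg
    rw [map_sum, map_zero, Finset.sum_eq_single i] at h1
    · rw [map_smul, map_smul, smul_eq_mul, smul_eq_mul, T.c_self (by
        rw [hN]; exact_mod_cast (by omega : n - (i : ℕ) < n + 1)), mul_one] at h1
      rcases mul_eq_zero.mp h1 with h2 | h2
      · exact h2
      · exact absurd h2 (fac_ne T hN hi')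
    · intro k _ hk
      have hk' : (k : ℕ) ≤ n := (hlt k).mp k.2
      have hne : (k : ℕ) ≠ i := fun h => hk (Subtype.ext h)
      rw [map_smul, map_smul, T.c_ne (by omega), smul_zero, smul_zero]
    · intro h
      exact absurd hi h
  · refine T.spn.trans (Submodule.span_le.mpr ?_)
    rintro _ ⟨j, rfl⟩
    by_cases h : j ≤ n
    · have h1 : v j = (D.fac n (n - j))⁻¹ • (D.fac n (n - j) • v (n - (n - j))) := by
        rw [smul_smul, inv_mul_cancel₀ (fac_ne T hN (by omega)), one_smul]
        congr 1
        omega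
      rw [h1]
      exact Submodule.smul_mem _ _ (Submodule.subset_span ⟨n - j, rfl⟩)
    · rw [T.vz j (by rw [hN]; exact_mod_cast (by omega : n + 1 ≤ j))]
      exact Submodule.zero_mem _
  · show B (D.fac n j • v (n - j)) = D.θ (n - j) • (D.fac n j • v (n - j))
    rw [map_smul, T.hB, smul_comm]
  · show A (D.fac n j • v (n - j)) = D.fac n (j + 1) • v (n - (j + 1)) +
      D.a (n - j) • (D.fac n j • v (n - j)) +
      (if j = 0 then (0 : K) else D.w (n + 1 - j)) • (D.fac n (j - 1) • v (n - (j - 1)))
    rcases Nat.lt_or_ge n j with hnj | hnj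
    · rw [fac_ge T.w_zero hnj, fac_ge T.w_zero (by omega : n < j + 1), if_neg (by omega),
        show n + 1 - j = 0 by omega, T.w_zero]
      simp
    · have e1 : D.fac n (j + 1) = D.fac n j * D.w (n - j) := rfl
      rw [map_smul, T.hA, e1, show n - (j + 1) = n - j - 1 by omega]
      rcases j with _ | j
      · rw [if_pos rfl]
        have : v (n - 0 + 1) = 0 := T.vz _ (by rw [hN]; exact_mod_cast (by omega : n + 1 ≤ n - 0 + 1))
        rw [this]
        module
      · rw [if_neg (by omega)]
        have e2 : D.fac n (j + 1) = D.fac n j * D.w (n - j) := rfl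
        rw [Nat.add_sub_cancel, show n - (j + 1) + 1 = n - j by omega,
          show n + 1 - (j + 1) = n - j by omega, e2]
        module

theorem mirror_of_same_rev (T' : Tri D' A B v') {n : ℕ} (hN : D.N = ((n + 1 : ℕ) : ℕ∞))
    (h : (D.rev n).Same D') : D.Mirror D' := by
  obtain ⟨h1, h2⟩ := h
  have h1' : D.N = D'.N := h1
  refine ⟨n, hN, by rw [← h1', hN], fun i j hij => ?_, fun i j hi hj hij => ?_⟩
  · have hj : (j : ℕ∞) < (D.rev n).N := by
      show (j : ℕ∞) < D.N
      rw [hN]; exact_mod_cast (by omega : j < n + 1)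
    obtain ⟨a1, a2, _⟩ := h2 j hj
    have e : n - j = i := by omega
    have a1' : D.θ (n - j) = D'.θ j := a1
    have a2' : D.a (n - j) = D'.a j := a2
    rw [e] at a1' a2'
    exact ⟨a1', a2'⟩
  · have hj' : (j : ℕ∞) < (D.rev n).N := by
      show (j : ℕ∞) < D.N
      rw [hN]; exact_mod_cast (by omega : j < n + 1)
    obtain ⟨_, _, a3⟩ := h2 j hj'
    have a3' : (if j = 0 then (0 : K) else D.w (n + 1 - j)) = D'.w j := a3
    rw [if_neg (by omega), show n + 1 - j = i by omega] at a3'
    exact a3'

/-- uniqueness for distinct eigenvalues -/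
theorem iso_distinct (T : Tri D A B v) (T' : Tri D' A B v') (hD : D.Distinct) :
    D.Same D' ∨ D.Mirror D' := by
  have hN := N_eq T T'
  have hv0 : v' 0 ≠ 0 := T'.v_ne T'.zero_lt
  obtain ⟨l, hl, hcl, hgt⟩ := T.exists_lead hv0
  have hB0 := T'.hB 0
  have hθ : D.θ l = D'.θ 0 := by
    by_contra h
    exact hcl (T.c_of_eig hB0 h)
  set c := T.c l (v' 0) with hc
  have e0 : v' 0 = c • v l := by
    refine T.eq_of_c fun i => ?_
    rw [map_smul, smul_eq_mul, T.c_eq i l hl]
    by_cases hi : i = l
    · rw [hi, if_pos rfl, mul_one]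
    · rw [if_neg hi, mul_zero]
      by_cases hiN : (i : ℕ∞) < D.N
      · refine T.c_of_eig hB0 fun h' => hi ?_
        exact hD _ _ hiN hl (h'.trans hθ.symm)
      · exact T.c_ge (not_lt.mp hiN) _
  have e1 : v' 1 = A (v' 0) - D'.a 0 • v' 0 := by
    rw [T'.A_zero]; abel
  have hB1 := T'.hB 1
  rcases Nat.eq_zero_or_pos l with h0 | h0
  · left
    rw [h0] at e0
    exact same_of T T' hD (c := c) hcl e0
  · right
    obtain ⟨k, rfl⟩ : ∃ k, l = k + 1 := ⟨l - 1, by omega⟩
    have hend : D.N = ((k + 1 + 1 : ℕ) : ℕ∞) := by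
      by_contra hne
      have hlt : ((k + 2 : ℕ) : ℕ∞) < D.N := by
        refine lt_of_le_of_ne ?_ (fun h => hne h.symm)
        have := Order.add_one_le_of_lt hl
        exact_mod_cast this
      rw [e0, map_smul, T.A_succ] at e1
      have c1 : T.c (k + 2) (v' 1) ≠ 0 := by
        rw [e1]
        simp only [map_sub, map_add, map_smul, smul_eq_mul]
        rw [T.c_self hlt, T.c_ne (by omega : k + 2 ≠ k + 1), T.c_ne (by omega : k + 2 ≠ k)]
        simpa using hcl
      have c2 : T.c k (v' 1) ≠ 0 := by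
        rw [e1]
        simp only [map_sub, map_add, map_smul, smul_eq_mul]
        rw [T.c_self (Tri.lt_of_succ_lt hl), T.c_ne (by omega : k ≠ k + 1),
          T.c_ne (by omega : k ≠ k + 2)]
        simpa using ⟨hcl, T.w_ne (by omega) hl⟩
      have t1 : D.θ (k + 2) = D'.θ 1 := by
        by_contra h
        exact c1 (T.c_of_eig hB1 h)
      have t2 : D.θ k = D'.θ 1 := by
        by_contra h
        exact c2 (T.c_of_eig hB1 h)
      have := hD _ _ hlt (Tri.lt_of_succ_lt hl) (t1.trans t2.symm)
      omega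
    refine mirror_of_same_rev T' hend ?_
    refine same_of (T.rev hend) T' ?_ (c := c) hcl ?_
    · intro i j hi hj hij
      have hi' : i < k + 1 + 1 := by
        have : (i : ℕ∞) < D.N := hi
        rw [hend] at this; exact_mod_cast this
      have hj' : j < k + 1 + 1 := by
        have : (j : ℕ∞) < D.N := hj
        rw [hend] at this; exact_mod_cast this
      have := hD (k + 1 - i) (k + 1 - j) (by rw [hend]; exact_mod_cast (by omega))
        (by rw [hend]; exact_mod_cast (by omega)) hij
      omega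
    · show v' 0 = c • ((1 : K) • v (k + 1 - 0))
      rw [one_smul, Nat.sub_zero]
      exact e0

/-- equal arrays give isomorphic modules -/
theorem iso_of_same (T : Tri D A B v) {v' : ℕ → V'} (T' : Tri D' A' B' v') (h : D.Same D') :
    ∃ f : V →ₗ[K] V', (∀ x, f (A x) = A' (f x)) ∧ (∀ x, f (B x) = B' (f x)) ∧ f (v 0) = v' 0 := by
  obtain ⟨f, hf⟩ := T.exists_hom v' (fun j hj => T'.vz j (by rw [← h.1]; exact hj))
  refine ⟨f, fun x => ?_, fun x => ?_, hf 0⟩
  · have : f ∘ₗ A = A' ∘ₗ f := by
      refine T.ext_hom' fun j hj => ?_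
      simp only [LinearMap.comp_apply]
      rw [T.hA, map_add, map_add, map_smul, map_smul, hf, hf, hf, T'.hA, (h.2 j hj).2.1,
        (h.2 j hj).2.2]
    exact congrArg (fun g => g x) this
  · have : f ∘ₗ B = B' ∘ₗ f := by
      refine T.ext_hom' fun j hj => ?_
      simp only [LinearMap.comp_apply]
      rw [T.hB, map_smul, hf, T'.hB, (h.2 j hj).1]
    exact congrArg (fun g => g x) this


end Pool.Agent.Helper9.AW
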