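import Pool.Agent.Helper9.AWIso1

set_option autoImplicit false
set_option linter.unusedSectionVars false
set_option linter.unusedSimpArgs false
set_option linter.unusedVariables false

namespace Pool.Agent.Helper9.AW

open Polynomial

variable {K : Type*} [Field K] {D D' : Arr K} {s : Scalars K} {V : Type*} [AddCommGroup V]
  [Module K V] {A B : V →ₗ[K] V} {v v' : ℕ → V}
  {V' : Type*} [AddCommGroup V'] [Module K V'] {A' B' : V' →ₗ[K] V'}

theorem same_rev_of_mirror (T : Tri D A B v) (h : D.Mirror D') :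
    ∃ n : ℕ, D'.N = ((n + 1 : ℕ) : ℕ∞) ∧ D.Same (D'.rev n) := by
  obtain ⟨n, h1, h2, h3, h4⟩ := h
  refine ⟨n, h2, ?_, fun j hj => ?_⟩
  · show D.N = D'.N
    rw [h1, h2]
  · have hj' : j < n + 1 := by rw [h1] at hj; exact_mod_cast hj
    refine ⟨(h3 j (n - j) (by omega)).1, (h3 j (n - j) (by omega)).2, ?_⟩
    show D.w j = if j = 0 then (0 : K) else D'.w (n + 1 - j)
    by_cases h0 : j = 0
    · rw [if_pos h0, h0, T.w_zero]
    · rw [if_neg h0]
      exact h4 j (n + 1 - j) (by omega) (by omega) (by omega)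

theorem iso_of_mirror (T : Tri D A B v) {v' : ℕ → V'} (T' : Tri D' A' B' v') (h : D.Mirror D') :
    ∃ f : V →ₗ[K] V', (∀ x, f (A x) = A' (f x)) ∧ (∀ x, f (B x) = B' (f x)) ∧ f (v 0) ≠ 0 := by
  obtain ⟨n, hN, hS⟩ := same_rev_of_mirror T h
  obtain ⟨f, fA, fB, f0⟩ := iso_of_same T (T'.rev hN) hS
  refine ⟨f, fA, fB, ?_⟩
  rw [f0]
  exact (T'.rev hN).v_ne (T'.rev hN).zero_lt

theorem theta_eq (G : Good s D) (G' : Good s D') (h0 : D.θ 0 = D'.θ 0) (h1 : D.θ 1 = D'.θ 1)
    (j : ℕ) : D.θ j = D'.θ j := by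
  have : ∀ j, D.θ j = D'.θ j ∧ D.θ (j + 1) = D'.θ (j + 1) := by
    intro j
    induction j with
    | zero => exact ⟨h0, h1⟩
    | succ j ih =>
      refine ⟨ih.2, ?_⟩
      rw [show j + 1 + 1 = j + 2 from rfl, G.hrec, G'.hrec, ih.1, ih.2]
  exact (this j).1

theorem Th_congr (h : ∀ j, D.θ j = D'.θ j) (t : ℤ) : D.Th s t = D'.Th s t := by
  have hp : D.pre s 0 = D'.pre s 0 := by simp only [Arr.pre]; rw [h, h]
  have hn : ∀ n, D.neg s n = D'.neg s n ∧ D.neg s (n + 1) = D'.neg s (n + 1) := by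
    intro n
    induction n with
    | zero => exact ⟨h 0, hp⟩
    | succ n ih =>
      refine ⟨ih.2, ?_⟩
      show s.β * D.neg s (n + 1) + s.γs - D.neg s n = s.β * D'.neg s (n + 1) + s.γs - D'.neg s n
      rw [ih.1, ih.2]
  rcases t with n | n
  · exact h n
  · exact (hn (n + 1)).1

theorem Fold.congr {e : ℕ} (F : Fold s D e) (h : ∀ j, D.θ j = D'.θ j) (hN : D.N = D'.N) :
    Fold s D' e := by
  refine ⟨fun t => ?_, fun i j hi hj hij => F.inj i j hi hj (by rw [h, h, hij]), ?_, F.pos⟩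
  · rw [← Th_congr h, ← Th_congr h]; exact F.refl t
  · rw [← hN]; exact F.lt

/-! ### type 2 -/

/-- eigenspaces of a doubled module are stable for the walk conditions -/
theorem doubled_X0 (T : Tri D A B v) (G : Good s D) (hAW : IsAW s A B) (hI : Irr A B) {m : ℕ}
    (hD : D.Doubled m) (T' : Tri D' A B v') (u : V) (hu : B u = D'.θ 0 • u) : X0 D' A B u := by
  have F := G.fold_of_doubled hD
  obtain ⟨hN, inj, hloop, hnc, ha, _⟩ := hD
  have h2N : 2 ≤ D'.N := by
    rw [← N_eq T T', hN]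
    exact_mod_cast (by omega : 2 ≤ 2 * m + 2)
  have heN : ((2 * m + 1 : ℕ) : ℕ∞) < D.N := by rw [hN]; exact_mod_cast (by omega)
  have m0 : D.θ (2 * m + 1) = D.θ 0 := by rw [F.nat (le_refl (2 * m + 1)), Nat.sub_self]
  -- the extra endomorphism
  obtain ⟨f, fA, fB, f0⟩ : ∃ f : V →ₗ[K] V, (∀ x, f (A x) = A (f x)) ∧ (∀ x, f (B x) = B (f x)) ∧
      f (v 0) = v (2 * m + 1) := by
    refine T.end_of G hAW (v (2 * m + 1)) (by rw [T.hB, m0]) ?_
    rcases Nat.eq_zero_or_pos m with hm0 | hm0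
    · subst hm0
      have hB : ∀ z : V, B z = D.θ 0 • z := by
        intro z
        refine T.eig_of_c fun i hi => ?_
        by_cases hiN : (i : ℕ∞) < D.N
        · exfalso
          have hi' : i < 2 := by rw [hN] at hiN; exact_mod_cast hiN
          rcases (by omega : i = 0 ∨ i = 1) with h | h
          · rw [h] at hi; exact hi rfl
          · rw [h] at hi; exact hi hloop
        · exact T.c_ge (not_lt.mp hiN) _
      rw [hB]
      simp only [zero_add] at hloop
      rw [hloop]
    · rcases ha with ha | ha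
      · omega
      have m1 : D.θ (2 * m) = D.θ 1 := by
        rw [F.nat (by omega : 2 * m ≤ 2 * m + 1)]
        congr 1
        omega
      have hAe : A (v (2 * m + 1)) - D.a 0 • v (2 * m + 1) = D.w (2 * m + 1) • v (2 * m) := by
        rw [T.A_succ, T.vz (2 * m + 2) (by rw [hN]), ha]
        abel
      rw [hAe, map_smul, T.hB, m1, smul_comm]
  -- the eigenspace
  have hv0 : v' 0 ≠ 0 := T'.v_ne T'.zero_lt
  obtain ⟨l, hl, hcl, hgt⟩ := T.exists_lead hv0
  have hB0 := T'.hB 0
  have hθl : D.θ l = D'.θ 0 := by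
    by_contra h
    exact hcl (T.c_of_eig hB0 h)
  have hl' : l < 2 * m + 2 := by rw [hN] at hl; exact_mod_cast hl
  obtain ⟨k, hk, hθ⟩ : ∃ k, k ≤ m ∧ D.θ k = D'.θ 0 := by
    rcases Nat.lt_or_ge m l with h | h
    · refine ⟨2 * m + 1 - l, by omega, ?_⟩
      rw [← F.nat (by omega : l ≤ 2 * m + 1)]
      exact hθl
    · exact ⟨l, h, hθl⟩
  set k' := 2 * m + 1 - k with hk'
  have hθ' : D.θ k' = D'.θ 0 := by rw [hk', ← F.nat (by omega : k ≤ 2 * m + 1)]; exact hθ
  have hkN : (k : ℕ∞) < D.N := by rw [hN]; exact_mod_cast (by omega : k < 2 * m + 2)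
  have hkN' : (k' : ℕ∞) < D.N := by rw [hN]; exact_mod_cast (by omega : k' < 2 * m + 2)
  have expand : ∀ z : V, B z = D'.θ 0 • z → z = T.c k z • v k + T.c k' z • v k' := by
    intro z hz
    refine T.eq_of_c fun i => ?_
    rw [map_add, map_smul, map_smul, smul_eq_mul, smul_eq_mul]
    by_cases hi : (i : ℕ∞) < D.N
    · have hi' : i < 2 * m + 2 := by rw [hN] at hi; exact_mod_cast hi
      by_cases hθi : D.θ i = D'.θ 0
      · have hik : i = k ∨ i = k' := by
          rcases Nat.lt_or_ge m i with h | h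
          · right
            have h1 := F.nat (by omega : i ≤ 2 * m + 1)
            have := inj (2 * m + 1 - i) k (by omega) hk (by rw [← h1, hθi, hθ])
            omega
          · left
            exact inj i k h hk (hθi.trans hθ.symm)
        rcases hik with h | h
        · rw [h, T.c_self hkN, T.c_ne (by omega)]; ring
        · rw [h, T.c_self hkN', T.c_ne (by omega)]; ring
      · rw [T.c_of_eig hz hθi, T.c_ne (by rintro rfl; exact hθi hθ),
          T.c_ne (by rintro rfl; exact hθi hθ')]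
        ring
    · rw [T.c_ge (not_lt.mp hi), T.c_ge (not_lt.mp hi), T.c_ge (not_lt.mp hi)]; ring
  have hfB : B (f (v' 0)) = D'.θ 0 • f (v' 0) := by rw [← fB, hB0, map_smul]
  have x0 : X0 D' A B (v' 0) := T'.X0_v0 h2N
  have x1 : X0 D' A B (f (v' 0)) := Tri.X0.map fA fB x0
  have e1 := expand _ hB0
  have e2 := expand _ hfB
  generalize T.c k (f (v' 0)) = γ at e2
  generalize T.c k' (f (v' 0)) = δ at e2
  generalize T.c k (v' 0) = α at e1
  generalize T.c k' (v' 0) = β at e1
  have hdet : α * δ - β * γ ≠ 0 := by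
    intro hdet
    -- the two vectors are proportional
    have hprop : ∃ c : K, f (v' 0) = c • v' 0 := by
      by_cases hα0 : α = 0
      · have hβ0 : β ≠ 0 := by
          intro hβ0
          rw [hα0, hβ0, zero_smul, zero_smul, add_zero] at e1
          exact hv0 e1
        have hγ0 : γ = 0 := by
          rw [hα0] at hdet
          have : β * γ = 0 := by linear_combination -hdet
          rcases mul_eq_zero.mp this with h | h
          · exact absurd h hβ0
          · exact h
        refine ⟨δ / β, ?_⟩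
        rw [e2, e1, hα0, hγ0, zero_smul, zero_add, zero_add,
          smul_smul, div_mul_cancel₀ _ hβ0]
      · refine ⟨γ / α, ?_⟩
        have h1 : δ = γ / α * β := by
          rw [div_mul_eq_mul_div, eq_div_iff hα0]
          linear_combination hdet
        rw [e2, e1, smul_add, smul_smul, smul_smul,
          div_mul_cancel₀ _ hα0, ← h1]
    obtain ⟨c, hc⟩ := hprop
    have h3 := hI.inj (f := f - c • LinearMap.id) (fun x => by
        simp only [LinearMap.sub_apply, LinearMap.smul_apply, LinearMap.id_apply, fA, map_sub,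
          map_smul]) (fun x => by
        simp only [LinearMap.sub_apply, LinearMap.smul_apply, LinearMap.id_apply, fB, map_sub,
          map_smul]) (x := v' 0) (y := v 0) hv0 (by
        simp only [LinearMap.sub_apply, LinearMap.smul_apply, LinearMap.id_apply]
        rw [hc, sub_self])
    simp only [LinearMap.sub_apply, LinearMap.smul_apply, LinearMap.id_apply, f0] at h3
    have h4 := congrArg (T.c (2 * m + 1)) h3
    rw [map_sub, map_smul, T.c_self heN, T.c_ne (by omega), smul_zero, sub_zero, map_zero] at h4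
    exact one_ne_zero h4
  have yk : X0 D' A B (v k) := by
    have : v k = (α * δ - β * γ)⁻¹ • (δ • v' 0 - β • f (v' 0)) := by
      rw [eq_inv_smul_iff₀ hdet]
      rw [e2, e1]
      module
    rw [this]
    exact Tri.X0.smul _ (Tri.X0.sub (Tri.X0.smul _ x0) (Tri.X0.smul _ x1))
  have yk' : X0 D' A B (v k') := by
    have : v k' = (α * δ - β * γ)⁻¹ • (α • f (v' 0) - γ • v' 0) := by
      rw [eq_inv_smul_iff₀ hdet]
      rw [e2, e1]
      module
    rw [this]
    exact Tri.X0.smul _ (Tri.X0.sub (Tri.X0.smul _ x1) (Tri.X0.smul _ x0))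
  have e3 : u = T.c k u • v k - (-T.c k' u) • v k' := by
    conv_lhs => rw [expand u hu]
    module
  rw [e3]
  exact Tri.X0.sub (Tri.X0.smul _ yk) (Tri.X0.smul _ yk')

/-- a module isomorphic to a doubled one is doubled with the same data -/
theorem iso_doubled (T : Tri D A B v) (G : Good s D) (hAW : IsAW s A B) (hI : Irr A B) {m : ℕ}
    (hD : D.Doubled m) (T' : Tri D' A B v') (G' : Good s D') :
    D'.Doubled m ∧ (∀ j, D.θ j = D'.θ j) ∧ (m = 0 ∨ D.a 0 = D'.a 0) := by
  have key := fun u hu => doubled_X0 T G hAW hI hD T' u hu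
  have F := G.fold_of_doubled hD
  obtain ⟨hN, inj, hloop, hnc, ha, _⟩ := hD
  have hNN := N_eq T T'
  have heN : ((2 * m + 1 : ℕ) : ℕ∞) < D.N := by rw [hN]; exact_mod_cast (by omega)
  have m0 : D.θ (2 * m + 1) = D.θ 0 := by rw [F.nat (le_refl (2 * m + 1)), Nat.sub_self]
  -- the start of the other array
  have hv0 : v' 0 ≠ 0 := T'.v_ne T'.zero_lt
  obtain ⟨l, hl, hcl, hgt⟩ := T.exists_lead hv0
  have hB0 := T'.hB 0
  have hθl : D.θ l = D'.θ 0 := by
    by_contra h
    exact hcl (T.c_of_eig hB0 h)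
  have hl' : l < 2 * m + 2 := by rw [hN] at hl; exact_mod_cast hl
  obtain ⟨k, hk, hθ⟩ : ∃ k, k ≤ m ∧ D.θ k = D'.θ 0 := by
    rcases Nat.lt_or_ge m l with h | h
    · refine ⟨2 * m + 1 - l, by omega, ?_⟩
      rw [← F.nat (by omega : l ≤ 2 * m + 1)]
      exact hθl
    · exact ⟨l, h, hθl⟩
  have hkN : (k : ℕ∞) < D.N := by rw [hN]; exact_mod_cast (by omega : k < 2 * m + 2)
  have hk1N : ((k + 1 : ℕ) : ℕ∞) < D.N := by rw [hN]; exact_mod_cast (by omega : k + 1 < 2 * m + 2)
  have hX := key (v k) (by rw [T.hB, hθ])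
  have hk0 : k = 0 := by
    by_contra hk0
    obtain ⟨i, rfl⟩ : ∃ i, k = i + 1 := ⟨k - 1, by omega⟩
    have hy := hX.2
    have c1 : T.c (i + 2) (A (v (i + 1)) - D'.a 0 • v (i + 1)) ≠ 0 := by
      rw [T.A_succ]
      simp only [map_sub, map_add, map_smul, smul_eq_mul]
      rw [T.c_self hk1N, T.c_ne (by omega : i + 2 ≠ i + 1), T.c_ne (by omega : i + 2 ≠ i)]
      simp
    have c2 : T.c i (A (v (i + 1)) - D'.a 0 • v (i + 1)) ≠ 0 := by
      rw [T.A_succ]
      simp only [map_sub, map_add, map_smul, smul_eq_mul]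
      rw [T.c_self (Tri.lt_of_succ_lt hkN), T.c_ne (by omega : i ≠ i + 1),
        T.c_ne (by omega : i ≠ i + 2)]
      simpa using T.w_ne (by omega) hkN
    have t1 : D.θ (i + 2) = D'.θ 1 := by
      by_contra h
      exact c1 (T.c_of_eig hy h)
    have t2 : D.θ i = D'.θ 1 := by
      by_contra h
      exact c2 (T.c_of_eig hy h)
    have t3 : D.θ (i + 2) = D.θ i := t1.trans t2.symm
    rcases Nat.lt_or_ge (i + 1) m with h | h
    · have := inj _ _ (by omega) (by omega) t3
      omega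
    · have hm : m = i + 1 := by omega
      subst hm
      rw [hloop] at t3
      have := inj _ _ le_rfl (by omega) t3
      omega
  subst hk0
  have h1 : D.θ 1 = D'.θ 1 := by
    have c1 : T.c 1 (A (v 0) - D'.a 0 • v 0) ≠ 0 := by
      rw [T.A_zero]
      simp only [map_sub, map_add, map_smul, smul_eq_mul]
      rw [T.c_self G.one_lt, T.c_ne (by omega : 1 ≠ 0)]
      simp
    by_contra h
    exact c1 (T.c_of_eig hX.2 h)
  have hθθ := theta_eq G G' hθ h1
  have F' : Fold s D' (2 * m + 1) := F.congr hθθ hNN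
  have hN' : D'.N = ((2 * m + 2 : ℕ) : ℕ∞) := by rw [← hNN, hN]
  have hnc' : D'.θ (m + 2) ≠ D'.θ (m + 1) := by rw [← hθθ, ← hθθ]; exact hnc
  have ha' : m = 0 ∨ D'.a (2 * m + 1) = D'.a 0 := by
    rcases Nat.eq_zero_or_pos m with hm0 | hm0
    · exact Or.inl hm0
    right
    have hz := (key (v' (2 * m + 1)) (by rw [T'.hB, ← hθθ, m0, hθ])).2
    have c1 : T'.c (2 * m + 1) (A (v' (2 * m + 1)) - D'.a 0 • v' (2 * m + 1)) =
        D'.a (2 * m + 1) - D'.a 0 := by
      rw [T'.A_succ]
      simp only [map_sub, map_add, map_smul, smul_eq_mul]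
      rw [T'.c_self (by rw [← hNN]; exact heN), T'.c_ne (by omega : 2 * m + 1 ≠ 2 * m + 2),
        T'.c_ne (by omega : 2 * m + 1 ≠ 2 * m)]
      ring
    have hne : D'.θ (2 * m + 1) ≠ D'.θ 1 := by
      rw [← hθθ, ← hθθ, m0]
      intro h
      have := inj 0 1 (by omega) (by omega) h
      omega
    have := T'.c_of_eig hz hne
    rw [c1] at this
    exact sub_eq_zero.mp this
  have hchi := T'.chi_of_irr G' hAW F' hN' ha' hI hnc'
  refine ⟨⟨hN', fun i j hi hj hij => inj i j hi hj (by rw [hθθ, hθθ, hij]), ?_, hnc', ha', hchi⟩,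
    hθθ, ?_⟩
  · rw [← hθθ, ← hθθ]; exact hloop
  · rcases Nat.eq_zero_or_pos m with hm0 | hm0
    · exact Or.inl hm0
    right
    have c1 : T.c 0 (A (v 0) - D'.a 0 • v 0) = D.a 0 - D'.a 0 := by
      rw [T.A_zero]
      simp only [map_sub, map_add, map_smul, smul_eq_mul]
      rw [T.c_self T.zero_lt, T.c_ne (by omega : 0 ≠ 1)]
      ring
    have hne : D.θ 0 ≠ D'.θ 1 := by
      rw [← h1]
      intro h
      have := inj 0 1 (by omega) (by omega) h
      omega
    have := T.c_of_eig hX.2 hne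
    rw [c1] at this
    exact sub_eq_zero.mp this

end Pool.Agent.Helper9.AW
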