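import Pool.Agent.Helper9.AWIso2

set_option autoImplicit false
set_option linter.unusedSectionVars false
set_option linter.unusedSimpArgs false
set_option linter.unusedVariables false

namespace Pool.Agent.Helper9.AW

open Polynomial

variable {K : Type*} [Field K] {D D' : Arr K} {s : Scalars K} {V : Type*} [AddCommGroup V]
  [Module K V] {A B : V →ₗ[K] V} {v v' : ℕ → V}
  {V' : Type*} [AddCommGroup V'] [Module K V'] {A' B' : V' →ₗ[K] V'}

/-- two arrays with the same eigenvalue have the same diagonal entry there. -/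
theorem a_eq' (G : Good s D) (G' : Good s D') {i j : ℕ} (hi : (i : ℕ∞) < D.N)
    (hj : (j : ℕ∞) < D'.N) (h : D.θ i = D'.θ j) (h1 : D'.θ j ≠ D'.pre s j)
    (h2 : D'.θ j ≠ D'.θ (j + 1)) : D.a i = D'.a j := by
  have e1 := G.e2 i hi
  have e2 := G'.e2 j hj
  have f1 := P_fac' G.hrec G.p01 i (D.θ i)
  have f2 := P_fac' G'.hrec G'.p01 j (D'.θ j)
  rw [mul_assoc, ← f1, h] at e1
  rw [mul_assoc, ← f2] at e2
  have h3 : s.P (D'.θ j) (D'.θ j) ≠ 0 := by
    rw [f2]
    exact mul_ne_zero (sub_ne_zero.mpr h1) (sub_ne_zero.mpr h2)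
  exact mul_right_cancel₀ h3 (e1.trans e2.symm)

theorem doubled_aw (G : Good s D) {m : ℕ} (hD : D.Doubled m) :
    (∀ j, j < m → D.a (2 * m + 1 - j) = D.a j) ∧ (∀ j, j ≤ m → D.w (2 * m + 2 - j) = D.w j) := by
  have F := G.fold_of_doubled hD
  obtain ⟨hN, inj, hloop, hnc, ha, _⟩ := hD
  have lt : ∀ j : ℕ, j < 2 * m + 2 → (j : ℕ∞) < D.N := fun j hj => by rw [hN]; exact_mod_cast hj
  have hA : ∀ j, j < m → D.a (2 * m + 1 - j) = D.a j := by
    intro j hj
    rcases Nat.eq_zero_or_pos j with h0 | h0
    · subst h0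
      rw [Nat.sub_zero]
      rcases ha with h | h
      · omega
      · exact h
    · obtain ⟨i, rfl⟩ : ∃ i, j = i + 1 := ⟨j - 1, by omega⟩
      refine G.a_eq (lt _ (by omega)) (lt _ (by omega)) ?_ ?_ ?_
      · exact (F.nat (by omega : i + 1 ≤ 2 * m + 1)).symm
      · intro h
        have := inj (i + 1) i (by omega) (by omega) h
        omega
      · intro h
        have := inj (i + 1) (i + 2) (by omega) (by omega) h
        omega
  refine ⟨hA, fun j => ?_⟩
  induction j with
  | zero =>
    intro _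
    rw [G.w_zero, G.w_ge (by rw [hN]; exact_mod_cast (by omega : 2 * m + 2 ≤ 2 * m + 2 - 0))]
  | succ j ih =>
    intro hj
    have ih' := ih (by omega)
    have e5 := G.e5 j (lt _ (by omega))
    obtain ⟨i, hi⟩ : ∃ i, 2 * m + 1 - j = i + 1 := ⟨2 * m - j, by omega⟩
    have e5' := G.e5 (i + 1) (lt _ (by omega))
    rw [Nat.add_sub_cancel] at e5'
    have q0 : D.θ (i + 1) = D.θ j := by rw [← hi]; exact (F.nat (by omega)).symm
    have q1 : D.pre s (i + 1) = D.θ (j + 1) := by
      show D.θ i = D.θ (j + 1)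
      rw [F.nat (by omega : i ≤ 2 * m + 1)]
      congr 1
      omega
    have q2 : D.θ (i + 1 + 1) = D.pre s j := by
      rw [← Th_pre, F.refl, ← Th_nat (s := s)]
      congr 1
      push_cast
      omega
    have q3 : D.pre s i = D.θ (j + 2) := by
      rw [← Th_pre, F.refl, ← Th_nat (s := s)]
      congr 1
      push_cast
      omega
    have q4 : D.w (i + 1 + 1) * (D.θ (i + 1) - D.θ (i + 1 + 2)) =
        D.w j * (D.θ j - D.pre s (j - 1)) := by
      rw [show i + 1 + 1 = 2 * m + 2 - j by omega, ih', q0]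
      rcases j with _ | j
      · rw [G.w_zero]; ring
      · congr 2
        rw [Nat.add_sub_cancel, ← Th_pre, F.refl, ← Th_nat (s := s)]
        congr 1
        push_cast
        omega
    have q5 : D.a (i + 1) = D.a j := by rw [← hi]; exact hA j (by omega)
    rw [q4, q0, q1, q2, q3, q5] at e5'
    have hne : D.θ j - D.θ (j + 2) ≠ 0 := by
      rw [sub_ne_zero]
      intro h
      rcases Nat.lt_or_ge (j + 1) m with h' | h'
      · have := inj j (j + 2) (by omega) (by omega) h
        omega
      · have hm : m = j + 1 := by omega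
        subst hm
        rw [hloop] at h
        have := inj j (j + 1) (by omega) (by omega) h
        omega
    have h6 : D.w (i + 1) = D.w (j + 1) := by
      apply mul_right_cancel₀ hne
      linear_combination e5' - e5
    rw [show 2 * m + 2 - (j + 1) = i + 1 by omega]
    exact h6

theorem doubled_p (G : Good s D) (G' : Good s D') {m : ℕ} (hD : D.Doubled m) (hD' : D'.Doubled m)
    (hθ : ∀ j, D.θ j = D'.θ j) (ha0 : m = 0 ∨ D.a 0 = D'.a 0) :
    D.p (2 * m + 2) = D'.p (2 * m + 2) := by
  have F := G.fold_of_doubled hD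
  obtain ⟨mA, mW⟩ := doubled_aw G hD
  obtain ⟨mA', mW'⟩ := doubled_aw G' hD'
  obtain ⟨hN, inj, hloop, hnc, ha, _⟩ := hD
  obtain ⟨hN', inj', hloop', hnc', ha', _⟩ := hD'
  have lt : ∀ j : ℕ, j < 2 * m + 2 → (j : ℕ∞) < D.N := fun j hj => by rw [hN]; exact_mod_cast hj
  have lt' : ∀ j : ℕ, j < 2 * m + 2 → (j : ℕ∞) < D'.N := fun j hj => by
    rw [hN']; exact_mod_cast hj
  have hpre : ∀ j, D.pre s j = D'.pre s j := by
    intro j
    rw [G.pre_add, G'.pre_add, hθ, hθ]
  have eA : ∀ j, j < m → D.a j = D'.a j := by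
    intro j hj
    rcases Nat.eq_zero_or_pos j with h0 | h0
    · subst h0
      rcases ha0 with h | h
      · omega
      · exact h
    · obtain ⟨i, rfl⟩ : ∃ i, j = i + 1 := ⟨j - 1, by omega⟩
      refine a_eq' G G' (lt _ (by omega)) (lt' _ (by omega)) (hθ _) ?_ ?_
      · intro h
        have := inj' (i + 1) i (by omega) (by omega) h
        omega
      · intro h
        have := inj' (i + 1) (i + 2) (by omega) (by omega) h
        omega
  have eW : ∀ j, j ≤ m → D.w j = D'.w j := by
    intro j
    induction j with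
    | zero => intro _; rw [G.w_zero, G'.w_zero]
    | succ j ih =>
      intro hj
      have ih' := ih (by omega)
      have e5 := G.e5 j (lt _ (by omega))
      have e5' := G'.e5 j (lt' _ (by omega))
      rw [← hθ, ← hθ, ← hθ, ← hpre, ← hpre, ← ih', ← eA j (by omega)] at e5'
      have hne : D.θ j - D.θ (j + 2) ≠ 0 := by
        rw [sub_ne_zero]
        intro h
        rcases Nat.lt_or_ge (j + 1) m with h' | h'
        · have := inj j (j + 2) (by omega) (by omega) h
          omega
        · have hm : m = j + 1 := by omega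
          subst hm
          rw [hloop] at h
          have := inj j (j + 1) (by omega) (by omega) h
          omega
      apply mul_right_cancel₀ hne
      linear_combination e5 - e5'
  have hy : D.pre s m = D.θ (m + 2) := by
    rw [← Th_pre, F.refl, ← Th_nat (s := s)]
    congr 1
    push_cast
    omega
  have hxy : D.θ m - D.pre s m ≠ 0 := by
    rw [hy, ← hloop]
    exact sub_ne_zero.mpr hnc.symm
  have hS : D.a m + D.a (m + 1) = D'.a m + D'.a (m + 1) := by
    have e := G.e4 m (lt _ (by omega))
    have e' := G'.e4 m (lt' _ (by omega))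
    rw [← hθ, ← hθ, ← hθ, ← hpre] at e'
    rw [hloop, ← hy] at e e'
    apply mul_right_cancel₀ hxy
    linear_combination e - e'
  have hΔ : D.a m * D.a (m + 1) - D.w (m + 1) = D'.a m * D'.a (m + 1) - D'.w (m + 1) := by
    have e := G.e5 m (lt _ (by omega))
    have e' := G'.e5 m (lt' _ (by omega))
    have f := G.e4 m (lt _ (by omega))
    have f' := G'.e4 m (lt' _ (by omega))
    rw [← hθ, ← hθ, ← hθ, ← hpre, ← hpre, ← eW m le_rfl] at e'
    rw [← hθ, ← hθ, ← hθ, ← hpre] at f'
    rw [hloop, ← hy] at e e' f f'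
    apply mul_right_cancel₀ hxy
    linear_combination -e + e' + D.a m * f - D'.a m * f'
  set δ := D'.a m - D.a m with hδ
  have eP : ∀ j, j ≤ m → D.p j = D'.p j := by
    intro j
    induction j using Nat.strong_induction_on with
    | _ j ih =>
      intro hj
      rcases j with _ | j
      · rfl
      · rw [p_succ G.w_zero, p_succ G'.w_zero, eA j (by omega), eW j (by omega),
          ih j (by omega) (by omega), ih (j - 1) (by omega) (by omega)]
  have main : ∀ i, i ≤ m + 1 → D'.p (m + 1 + i) = D.p (m + 1 + i) -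
      C (δ * ∏ k ∈ Finset.range i, D.w (m - k)) * D.p (m - i) := by
    intro i
    induction i using Nat.strong_induction_on with
    | _ i ih =>
    intro hi
    rcases i with _ | i
    · rw [Finset.range_zero, Finset.prod_empty, mul_one, add_zero, Nat.sub_zero, p_succ G.w_zero,
        p_succ G'.w_zero, eW m le_rfl, eP m le_rfl, eP (m - 1) (by omega), hδ, C_sub]
      ring
    rcases i with _ | i
    · have h1 := ih 0 (by omega) (by omega)
      rw [Finset.range_zero, Finset.prod_empty, mul_one, add_zero, Nat.sub_zero] at h1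
      rw [Finset.range_one, Finset.prod_singleton, Nat.sub_zero, zero_add,
        p_succ G.w_zero (m + 1), p_succ G'.w_zero (m + 1), h1, Nat.add_sub_cancel,
        p_succ G.w_zero m, ← eP m le_rfl]
      have k1 : D'.a (m + 1) = D.a (m + 1) - δ := by rw [hδ]; linear_combination -hS
      have k2 : D'.w (m + 1) = D.w (m + 1) + δ * (D.a (m + 1) - D.a m - δ) := by
        have : D'.a m = D.a m + δ := by rw [hδ]; ring
        rw [k1, this] at hΔ
        linear_combination hΔ
      rw [k1, k2]
      simp only [C_add, C_sub, C_mul]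
      ring
    · have h0 := ih i (by omega) (by omega)
      have h1 := ih (i + 1) (by omega) (by omega)
      obtain ⟨t, ht⟩ : ∃ t, m = t + i + 1 := ⟨m - i - 1, by omega⟩
      have e1 : D'.p (m + 1 + (i + 1 + 1)) = (X - C (D'.a (m + i + 2))) * D'.p (m + 1 + (i + 1)) -
          C (D'.w (m + i + 2)) * D'.p (m + 1 + i) := by
        have := p_succ G'.w_zero (m + i + 2)
        rw [show m + i + 2 + 1 = m + 1 + (i + 1 + 1) by ring,
          show m + i + 2 = m + 1 + (i + 1) by ring,
          show m + 1 + (i + 1) - 1 = m + 1 + i by omega] at this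
        rw [this, show m + i + 2 = m + 1 + (i + 1) by ring]
      have e2 : D.p (m + 1 + (i + 1 + 1)) = (X - C (D.a (m + i + 2))) * D.p (m + 1 + (i + 1)) -
          C (D.w (m + i + 2)) * D.p (m + 1 + i) := by
        have := p_succ G.w_zero (m + i + 2)
        rw [show m + i + 2 + 1 = m + 1 + (i + 1 + 1) by ring,
          show m + i + 2 = m + 1 + (i + 1) by ring,
          show m + 1 + (i + 1) - 1 = m + 1 + i by omega] at this
        rw [this, show m + i + 2 = m + 1 + (i + 1) by ring]
      have a1 : D.a (m + i + 2) = D.a t := by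
        rw [← mA t (by omega)]; congr 1; omega
      have a1' : D'.a (m + i + 2) = D.a t := by
        rw [eA t (by omega), ← mA' t (by omega)]; congr 1; omega
      have w1 : D.w (m + i + 2) = D.w (t + 1) := by
        rw [← mW (t + 1) (by omega)]; congr 1; omega
      have w1' : D'.w (m + i + 2) = D.w (t + 1) := by
        rw [eW (t + 1) (by omega), ← mW' (t + 1) (by omega)]; congr 1; omega
      have e3 := p_succ G.w_zero t
      rw [e1, h1, h0, e2, a1, a1', w1, w1']
      simp only [Finset.prod_range_succ]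
      rw [show m - (i + 1 + 1) = t - 1 by omega, show m - (i + 1) = t by omega,
        show m - i = t + 1 by omega, e3]
      simp only [C_mul]
      ring
  have h := main (m + 1) le_rfl
  rw [Finset.prod_range_succ, Nat.sub_self, G.w_zero, mul_zero, mul_zero, C_0, zero_mul, sub_zero,
    show m + 1 + (m + 1) = 2 * m + 2 by ring] at h
  exact h.symm

theorem hom_doubled (T : Tri D A B v) (G : Good s D) {v' : ℕ → V'} (T' : Tri D' A' B' v')
    (G' : Good s D') (hAW' : IsAW s A' B') {m : ℕ} (hD : D.Doubled m) (hD' : D'.Doubled m)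
    (hθ : ∀ j, D.θ j = D'.θ j) (ha0 : m = 0 ∨ D.a 0 = D'.a 0) :
    ∃ f : V →ₗ[K] V', (∀ x, f (A x) = A' (f x)) ∧ (∀ x, f (B x) = B' (f x)) ∧ f (v 0) = v' 0 := by
  have hp := doubled_p G G' hD hD' hθ ha0
  refine T.hom_of G hAW' (v' 0) (by rw [T'.hB, hθ]) ?_ ?_
  · rcases ha0 with h | h
    · subst h
      have h1 := hD'.2.2.1
      simp only [zero_add] at h1
      have hB : ∀ z : V', B' z = D'.θ 0 • z := by
        intro z
        refine T'.eig_of_c fun i hi => ?_
        by_cases hiN : (i : ℕ∞) < D'.N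
        · exfalso
          have hi' : i < 2 := by rw [hD'.1] at hiN; exact_mod_cast hiN
          rcases (by omega : i = 0 ∨ i = 1) with h | h
          · rw [h] at hi; exact hi rfl
          · rw [h] at hi; exact hi h1
        · exact T'.c_ge (not_lt.mp hiN) _
      rw [hB, hθ 1, h1]
    · rw [T'.A_zero, h, add_sub_cancel_right, T'.hB, hθ]
  · intro n hn
    have : n = 2 * m + 2 := by
      have h1 := hD.1
      rw [hn] at h1
      exact_mod_cast h1
    rw [this, hp]
    exact T'.kill hD'.1 _

/-! ### type 3 -/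

theorem periodic_inv (T : Tri D A B v) (G : Good s D) (hAW : IsAW s A B) (T' : Tri D' A B v')
    (G' : Good s D') {M : ℕ} (hM : D.N = M) :
    D.N = D'.N ∧ (∀ x, (∃ j : ℕ, (j : ℕ∞) < D.N ∧ D.θ j = x) ↔
      ∃ j : ℕ, (j : ℕ∞) < D'.N ∧ D'.θ j = x) ∧ D.κ s = D'.κ s ∧ D.p M = D'.p M := by
  have hN := N_eq T T'
  have key : ∀ {D D' : Arr K} {v v' : ℕ → V} (T : Tri D A B v) (T' : Tri D' A B v') (x : K),
      (∃ j : ℕ, (j : ℕ∞) < D.N ∧ D.θ j = x) → ∃ j : ℕ, (j : ℕ∞) < D'.N ∧ D'.θ j = x := by
    rintro D D' v v' T T' x ⟨j, hj, rfl⟩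
    obtain ⟨l, hl, hc, _⟩ := T'.exists_lead (T.v_ne hj)
    refine ⟨l, hl, ?_⟩
    by_contra h
    exact hc (T'.c_of_eig (T.hB j) h)
  refine ⟨hN, fun x => ⟨key T T' x, key T' T x⟩,
    kappa_eq T G hAW T' G' hAW (f := LinearMap.id) (fun _ => rfl) (fun _ => rfl)
      (x := v 0) (T.v_ne T.zero_lt), ?_⟩
  exact (T.eq_p hM (p_monic M) (p_natDegree M) (T'.kill (by rw [← hN, hM]) _)).symm

end Pool.Agent.Helper9.AW
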