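import Pool.Agent.Helper9.AWIso3

set_option autoImplicit false
set_option linter.unusedSectionVars false
set_option linter.unusedSimpArgs false
set_option linter.unusedVariables false
set_option linter.unreachableTactic false
set_option linter.unusedTactic false

namespace Pool.Agent.Helper9.AW

open Polynomial

variable {K : Type*} [Field K] {D D' : Arr K} {s : Scalars K}
  {V' : Type*} [AddCommGroup V'] [Module K V'] {A' B' : V' →ₗ[K] V'} {v' : ℕ → V'}

/-- two arrays with a common eigenvalue have the same sequences up to translation and reflection -/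
theorem Th_match (G : Good s D) (G' : Good s D') {k : ℕ} (h : D'.θ k = D.θ 0) :
    ∃ ε : ℤ, (ε = 1 ∨ ε = -1) ∧ ∀ t : ℤ, D.Th s t = D'.Th s ((k : ℤ) + ε * t) := by
  have h1 := G.p01
  have h2 := G'.ThP_fac (k : ℤ) (D.θ 1)
  rw [Th_nat, h, h1] at h2
  rcases mul_eq_zero.mp h2.symm with h3 | h3
  · refine ⟨-1, Or.inr rfl, fun t => ?_⟩
    refine seq_eq (f := fun t => D.Th s t) (g := fun t => D'.Th s ((k : ℤ) + -1 * t)) (β := s.β)
      (c := s.γs) G.Threc (fun z => ?_) ?_ ?_ t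
    · have := G'.Threc ((k : ℤ) + -1 * z)
      rw [show (k : ℤ) + -1 * (z + 1) = (k : ℤ) + -1 * z - 1 by ring,
        show (k : ℤ) + -1 * (z - 1) = (k : ℤ) + -1 * z + 1 by ring]
      linear_combination this
    · simp only [mul_zero, add_zero]
      exact h.symm
    · have : (k : ℤ) + -1 * 1 = (k : ℤ) - 1 := by ring
      rw [this]
      exact sub_eq_zero.mp h3
  · refine ⟨1, Or.inl rfl, fun t => ?_⟩
    refine seq_eq (f := fun t => D.Th s t) (g := fun t => D'.Th s ((k : ℤ) + 1 * t)) (β := s.β)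
      (c := s.γs) G.Threc (fun z => ?_) ?_ ?_ t
    · have := G'.Threc ((k : ℤ) + 1 * z)
      rw [show (k : ℤ) + 1 * (z + 1) = (k : ℤ) + 1 * z + 1 by ring,
        show (k : ℤ) + 1 * (z - 1) = (k : ℤ) + 1 * z - 1 by ring]
      exact this
    · simp only [mul_zero, add_zero]
      exact h.symm
    · simp only [mul_one]
      exact sub_eq_zero.mp h3

theorem reduce (G : Good s D) {P : ℕ} (hT : D.IsPeriod P) (z : ℤ) :
    ∃ l : ℕ, l < P ∧ ∀ t : ℤ, D.Th s ((l : ℤ) + t) = D.Th s (z + t) := by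
  have hP : (0 : ℤ) < P := by exact_mod_cast hT.1
  have h1 := Int.emod_nonneg z hP.ne'
  have h2 := Int.emod_lt_of_pos z hP
  obtain ⟨l, hl⟩ := Int.eq_ofNat_of_zero_le h1
  refine ⟨l, by omega, fun t => ?_⟩
  refine G.Th_of_dvd hT ?_
  have h3 : (P : ℤ) ∣ z - z % P := Int.dvd_self_sub_emod
  rw [show (l : ℤ) + t - (z + t) = -(z - z % P) by rw [hl]; ring]
  exact (dvd_neg).mpr h3

theorem nat1 {x : K} {l : ℕ} {t : ℕ} (h : D.Th s ((l : ℤ) + t) = x) : D.θ (l + t) = x := by
  rw [← h, ← Th_nat (s := s)]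
  congr 1

theorem natm {x : K} {l t : ℕ} (ht : t ≤ l) (h : D.Th s ((l : ℤ) - t) = x) : D.θ (l - t) = x := by
  rw [← h, ← Th_nat (s := s)]
  congr 1
  omega

section

variable (T' : Tri D' A' B' v') (G : Good s D) (G' : Good s D')
include T' G G'

theorem X0_a {k : ℕ} (hk : (k : ℕ∞) < D'.N) (h0 : D'.θ k = D.θ 0)
    (h1 : D'.Th s ((k : ℤ) + 1) = D.θ 1) (hm : D'.Th s ((k : ℤ) - 1) = D.θ 1)
    (n0 : D.θ 0 ≠ D.pre s 0) (n1 : D.θ 0 ≠ D.θ 1) : ∃ u, u ≠ 0 ∧ X0 D A' B' u := by
  have ha : D'.a k = D.a 0 := a_eq' G' G hk G.zero_lt h0 n0 n1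
  refine ⟨v' k, T'.v_ne hk, by rw [T'.hB, h0], ?_⟩
  have e1 : A' (v' k) - D.a 0 • v' k = v' (k + 1) + D'.w k • v' (k - 1) := by
    rw [T'.hA, ha]; abel
  have h1' : D'.θ (k + 1) = D.θ 1 := nat1 (s := s) (t := 1) (by exact_mod_cast h1)
  rw [e1, map_add, map_smul, T'.hB, T'.hB, h1']
  rcases Nat.eq_zero_or_pos k with hk0 | hk0
  · subst hk0
    rw [T'.w_zero]
    module
  · rw [natm (s := s) (t := 1) hk0 (by exact_mod_cast hm)]
    module

theorem X0_L {l : ℕ} (hl : ((l + 1 : ℕ) : ℕ∞) < D'.N) (h0 : D'.θ l = D.θ 0)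
    (h1 : D'.θ (l + 1) = D.θ 0) (hm : D'.Th s ((l : ℤ) - 1) = D.θ 1) (h2 : D'.θ (l + 2) = D.θ 1)
    (hL : D.pre s 0 = D.θ 0) (n1 : D.θ 0 ≠ D.θ 1) (hκ : D.κ s = D'.κ s) :
    ∃ u, u ≠ 0 ∧ X0 D A' B' u := by
  have hp : D'.pre s l = D.θ 1 := by rw [← Th_pre]; exact hm
  have hlk := G'.link hl
  have e4 := G'.e4 l hl
  have hw : D'.w (l + 1) = (D'.a l - D.a 0) * (D'.a (l + 1) - D.a 0) := by
    have hk : D.κ s = D.a 0 * (D.θ 0 - D.θ 1) * (2 * s.γ * D.θ 0 + s.ω - D.a 0 * (D.θ 0 - D.θ 1)) +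
      s.ρ * D.θ 0 * D.θ 0 + 2 * s.η * D.θ 0 := by
      simp only [Arr.κ, hL]
      ring
    rw [← hκ, hk, h0, h1, h2, hp] at hlk
    rw [h0, h1, h2, hp] at e4
    have hne : D.θ 0 - D.θ 1 ≠ 0 := sub_ne_zero.mpr n1
    apply mul_left_cancel₀ (mul_ne_zero hne hne)
    linear_combination -hlk + D.a 0 * (D.θ 0 - D.θ 1) * e4
  have hl0 : (l : ℕ∞) < D'.N := Tri.lt_of_succ_lt hl
  refine ⟨(D'.a (l + 1) - D.a 0) • v' l - v' (l + 1), ?_, ?_, ?_⟩
  · intro h
    have := congrArg (T'.c (l + 1)) h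
    rw [map_sub, map_smul, T'.c_self hl, T'.c_ne (by omega), map_zero] at this
    simp at this
  · rw [map_sub, map_smul, T'.hB, T'.hB, h0, h1]
    module
  · have e1 : A' ((D'.a (l + 1) - D.a 0) • v' l - v' (l + 1)) -
        D.a 0 • ((D'.a (l + 1) - D.a 0) • v' l - v' (l + 1)) =
        ((D'.a (l + 1) - D.a 0) * D'.w l) • v' (l - 1) - v' (l + 2) := by
      rw [map_sub, map_smul, T'.hA l, T'.A_succ, hw]
      module
    rw [e1, map_sub, map_smul, T'.hB, T'.hB, h2]
    rcases Nat.eq_zero_or_pos l with hk0 | hk0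
    · subst hk0
      rw [T'.w_zero]
      module
    · rw [natm (s := s) (t := 1) hk0 (by exact_mod_cast hm)]
      module

theorem a_or {j : ℕ} (hj : (j : ℕ∞) < D'.N) (h0 : D'.θ j = D.θ 0) (n0 : D.θ 0 ≠ D.pre s 0) :
    D.θ 0 = D.θ 1 ∨ D'.a j = D.a 0 := by
  by_cases h : D.θ 0 = D.θ 1
  · exact Or.inl h
  · exact Or.inr (a_eq' G' G hj G.zero_lt h0 n0 h)

theorem X0_b {l : ℕ} (hl1 : 1 ≤ l) (hl : ((l + 1 : ℕ) : ℕ∞) < D'.N) (h1 : D'.θ (l + 1) = D.θ 0)
    (hm1 : D'.θ (l - 1) = D.θ 0) (h2 : D'.θ (l + 2) = D.θ 1)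
    (hm2 : D'.Th s ((l : ℤ) - 2) = D.θ 1) (n0 : D.θ 0 ≠ D.pre s 0) :
    ∃ u, u ≠ 0 ∧ X0 D A' B' u := by
  obtain ⟨i, rfl⟩ : ∃ i, l = i + 1 := ⟨l - 1, by omega⟩
  rw [Nat.add_sub_cancel] at hm1
  have hi : (i : ℕ∞) < D'.N := Tri.lt_mono hl (by omega)
  have hl' : ((i + 2 : ℕ) : ℕ∞) < D'.N := hl
  have h1' : D'.θ (i + 2) = D.θ 0 := h1
  have h2' : D'.θ (i + 3) = D.θ 1 := h2
  refine ⟨D'.w (i + 2) • v' i - v' (i + 2), ?_, ?_, ?_⟩
  · intro h
    have := congrArg (T'.c (i + 2)) h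
    rw [map_sub, map_smul, T'.c_self hl', T'.c_ne (by omega), map_zero] at this
    simp at this
  · rw [map_sub, map_smul, T'.hB, T'.hB, hm1, h1']
    module
  · have e1 : A' (D'.w (i + 2) • v' i - v' (i + 2)) - D.a 0 • (D'.w (i + 2) • v' i - v' (i + 2)) =
        (D'.w (i + 2) * (D'.a i - D.a 0)) • v' i - (D'.a (i + 2) - D.a 0) • v' (i + 2) +
          (D'.w (i + 2) * D'.w i) • v' (i - 1) - v' (i + 3) := by
      rw [map_sub, map_smul, T'.hA i, T'.A_succ (i + 1)]
      simp only [show i + 1 + 1 = i + 2 from rfl, show i + 1 + 2 = i + 3 from rfl]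
      module
    have hm2' : D'.w i • B' (v' (i - 1)) = D.θ 1 • (D'.w i • v' (i - 1)) := by
      rcases Nat.eq_zero_or_pos i with hi0 | hi0
      · subst hi0
        rw [T'.w_zero]; simp
      · have : D'.θ (i - 1) = D.θ 1 := by
          rw [← hm2, ← Th_nat (s := s)]
          congr 1
          push_cast
          omega
        rw [T'.hB, this]
        module
    have hm3 : (D'.w (i + 2) * D'.w i) • B' (v' (i - 1)) =
        D.θ 1 • ((D'.w (i + 2) * D'.w i) • v' (i - 1)) := by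
      rw [mul_smul, hm2']
      module
    rw [e1]
    simp only [map_sub, map_add, map_smul]
    rw [hm3, T'.hB i, T'.hB (i + 2), T'.hB (i + 3), hm1, h1', h2']
    rcases a_or T' G G' hi hm1 n0 with h | h
    · rw [h]
      module
    · rcases a_or T' G G' hl' h1' n0 with h' | h'
      · rw [h']; module
      · rw [h, h']
        module

end

theorem exists_X0 (T' : Tri D' A' B' v') (G : Good s D) (G' : Good s D') {P n P' n' : ℕ}
    (hP : D.Periodic P n) (hP' : D'.Periodic P' n')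
    (hθ : ∀ x, (∃ j : ℕ, (j : ℕ∞) < D.N ∧ D.θ j = x) ↔ ∃ j : ℕ, (j : ℕ∞) < D'.N ∧ D'.θ j = x)
    (hκ : D.κ s = D'.κ s) : ∃ u, u ≠ 0 ∧ X0 D A' B' u := by
  obtain ⟨k, hk, hk0⟩ := (hθ (D.θ 0)).mp ⟨0, G.zero_lt, rfl⟩
  obtain ⟨ε, hε, hm⟩ := Th_match G G' hk0
  obtain ⟨_, hT, hN, hS, _⟩ := hP
  obtain ⟨_, hT', hN', hS', _⟩ := hP'
  have hn' : 1 ≤ n' := G'.n_pos hN'
  have hPN' : P' ≤ n' * P' := Nat.le_mul_of_pos_left P' hn'
  have lt' : ∀ j : ℕ, j < n' * P' → (j : ℕ∞) < D'.N := fun j hj => by rw [hN']; exact_mod_cast hj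
  have e1 := G.pre_of_period hT
  by_cases hP1 : P = 1
  · subst hP1
    obtain ⟨c1, c2⟩ := (G.T_one_iff hT).mp rfl
    have hall : ∀ z : ℤ, D'.Th s z = D.θ 0 := by
      intro z
      have h1 := hm (ε * (z - k))
      have h2 : (k : ℤ) + ε * (ε * (z - k)) = z := by
        rcases hε with h | h <;> rw [h] <;> ring
      rw [h2, G.Th_const c1 c2] at h1
      exact h1.symm
    have hB : ∀ z, B' z = D.θ 0 • z := by
      intro z
      refine T'.eig_of_c fun i hi => ?_
      exact absurd (hall (i : ℤ)) hi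
    exact ⟨v' 0, T'.v_ne T'.zero_lt, hB _, by rw [← c2]; exact hB _⟩
  have hP2 : 2 ≤ P := by have := hT.1; omega
  have e2 := G.pre2_of_period hT hP2
  have hnotc : ¬ (D.pre s 0 = D.θ 0 ∧ D.θ 0 = D.θ 1) := fun h => hP1 ((G.T_one_iff hT).mpr h)
  have t0 := hm 0
  have t1 := hm 1
  have tm1 := hm (-1)
  have tm2 := hm (-2)
  have tm3 := hm (-3)
  have T0 : D.Th s 0 = D.θ 0 := rfl
  have T1 : D.Th s 1 = D.θ 1 := rfl
  rw [T0] at t0
  rw [T1] at t1
  rw [Th_m1] at tm1
  unfold Arr.Start at hS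
  rw [e1] at hS
  by_cases hL : D.pre s 0 = D.θ 0
  · -- loops
    have hnc : D.θ 0 ≠ D.θ 1 := fun h => hnotc ⟨hL, h⟩
    have hm2 : D.Th s (-2) = D.θ 1 := by rw [G.refl_loop hL]; rfl
    rw [hm2] at tm2
    rw [hL] at tm1
    obtain ⟨z, z0, z1, zm1, z2⟩ : ∃ z : ℤ, D'.Th s z = D.θ 0 ∧ D'.Th s (z + 1) = D.θ 0 ∧
        D'.Th s (z + -1) = D.θ 1 ∧ D'.Th s (z + 2) = D.θ 1 := by
      rcases hε with h | h
      · refine ⟨(k : ℤ) - 1, ?_, ?_, ?_, ?_⟩
        · rw [tm1, h]; congr 1 <;> ring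
        · rw [t0, h]; congr 1 <;> ring
        · rw [tm2, h]; congr 1 <;> ring
        · rw [t1, h]; congr 1 <;> ring
      · refine ⟨(k : ℤ), ?_, ?_, ?_, ?_⟩
        · rw [t0, h]; congr 1 <;> ring
        · rw [tm1, h]; congr 1 <;> ring
        · rw [t1, h]; congr 1 <;> ring
        · rw [tm2, h]; congr 1 <;> ring
    obtain ⟨l, hl, hlt⟩ := reduce G' hT' z
    have l0 : D'.θ l = D.θ 0 := by
      have := hlt 0
      rw [add_zero, add_zero, z0] at this
      exact this
    have l1 : D'.θ (l + 1) = D.θ 0 := nat1 (s := s) (t := 1) (by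
      have := hlt 1
      rw [z1] at this
      exact_mod_cast this)
    have l2 : D'.θ (l + 2) = D.θ 1 := nat1 (s := s) (t := 2) (by
      have := hlt 2
      rw [z2] at this
      exact_mod_cast this)
    have lm : D'.Th s ((l : ℤ) - 1) = D.θ 1 := by
      have := hlt (-1)
      rw [zm1] at this
      rw [sub_eq_add_neg]
      exact this
    by_cases hlN : l + 1 < n' * P'
    · exact X0_L T' G G' (lt' _ hlN) l0 l1 lm l2 hL hnc hκ
    · -- the loop is at the end
      have hl1 : n' * P' = l + 1 := by omega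
      have hPl : P' = l + 1 := by omega
      have hN'' : D'.N = ((l + 1 : ℕ) : ℕ∞) := by rw [hN', hl1]
      have hp' := G'.pre_of_period hT'
      rw [hPl, Nat.add_sub_cancel, l0] at hp'
      have q0 : D'.θ 0 = D.θ 0 := by
        rw [← hT'.2.1, hPl, l1]
      have q1 : D'.θ 1 = D.θ 1 := by
        rw [← hT'.2.2.1, hPl]
        exact l2
      have hnc' : D'.θ 0 ≠ D'.θ 1 := by rw [q0, q1]; exact hnc
      have hL' : D'.pre s 0 = D'.θ 0 := by rw [← hp', q0]
      have hlpos : l ≠ 0 := by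
        rintro rfl
        rw [hPl] at hT'
        have := (G'.T_one_iff hT').mp rfl
        exact hnc' this.2
      have ha' : D'.a l ≠ D'.a 0 := by
        rcases hS' with h | h | h
        · rcases h.2 with h' | h'
          · omega
          · rw [hl1, Nat.add_sub_cancel] at h'
            exact h'
        · exfalso
          rw [hPl, Nat.add_sub_cancel, l0, q1] at h
          exact hnc h
        · exfalso
          have e3 := G'.pre2_of_period hT' h.1
          rw [h.2, G'.refl_loop hL'] at e3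
          have e4 : D'.Th s (-1 - -2) = D'.θ 1 := by norm_num; rfl
          rw [e4] at e3
          exact hnc' e3
      have hend := loop_end G' hL' hN'' hnc' (by rw [l0, q0]) (by rw [l1, q0]) (by
        rw [← Th_pre, lm, q1]) ha'
      have hk1 : D.κ s = D.a 0 * (D.θ 0 - D.θ 1) *
        (2 * s.γ * D.θ 0 + s.ω - D.a 0 * (D.θ 0 - D.θ 1)) +
        s.ρ * D.θ 0 * D.θ 0 + 2 * s.η * D.θ 0 := by
        simp only [Arr.κ, hL]
        ring
      have hk2 : D'.κ s = D'.a 0 * (D'.θ 0 - D'.θ 1) *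
        (2 * s.γ * D'.θ 0 + s.ω - D'.a 0 * (D'.θ 0 - D'.θ 1)) +
        s.ρ * D'.θ 0 * D'.θ 0 + 2 * s.η * D'.θ 0 := by
        simp only [Arr.κ, hL']
        ring
      rw [hk1, hk2, q0, q1] at hκ
      rw [q0, q1] at hend
      have hne : D.θ 0 - D.θ 1 ≠ 0 := sub_ne_zero.mpr hnc
      have hprod : (D.a 0 - D'.a 0) * (D.a 0 - D'.a l) = 0 := by
        apply mul_left_cancel₀ (mul_ne_zero hne hne)
        linear_combination -hκ - (D.a 0 - D'.a 0) * (D.θ 0 - D.θ 1) * hend
      rcases mul_eq_zero.mp hprod with h | h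
      · refine ⟨v' 0, T'.v_ne T'.zero_lt, by rw [T'.hB, q0], ?_⟩
        rw [sub_eq_zero.mp h, T'.A_zero, add_sub_cancel_right, T'.hB, q1]
      · refine ⟨v' l, T'.v_ne (lt' _ (by omega)), by rw [T'.hB, l0], ?_⟩
        have e5 : A' (v' l) - D'.a l • v' l = D'.w l • v' (l - 1) := by
          rw [T'.hA, T'.vz (l + 1) (by rw [hN''])]
          abel
        rw [sub_eq_zero.mp h, e5, map_smul, T'.hB,
          natm (s := s) (t := 1) (Nat.one_le_iff_ne_zero.mpr hlpos) (by exact_mod_cast lm), smul_comm]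
  by_cases ha : D.pre s 0 = D.θ 1
  · have hnc : D.θ 0 ≠ D.θ 1 := fun h => hL (by rw [ha, h])
    rw [ha] at tm1
    have h1 : D'.Th s ((k : ℤ) + 1) = D.θ 1 := by
      rcases hε with h | h
      · rw [t1, h]; congr 1 <;> ring
      · rw [tm1, h]; congr 1 <;> ring
    have h2 : D'.Th s ((k : ℤ) - 1) = D.θ 1 := by
      rcases hε with h | h
      · rw [tm1, h]; congr 1 <;> ring
      · rw [t1, h]; congr 1 <;> ring
    exact X0_a T' G G' hk hk0 h1 h2 (by rw [ha]; exact hnc) hnc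
  · have hb : D.Th s (-2) = D.θ 0 := by
      rcases hS with hS | hS | hS
      · exact absurd hS.1 hL
      · exact absurd hS ha
      · rw [e2] at hS
        exact hS.2
    have hm3 : D.Th s (-3) = D.θ 1 := by
      rw [G.refl_b hb]
      rfl
    rw [hb] at tm2
    rw [hm3] at tm3
    obtain ⟨z, z1, zm1, z2, zm2⟩ : ∃ z : ℤ, D'.Th s (z + 1) = D.θ 0 ∧
        D'.Th s (z + -1) = D.θ 0 ∧ D'.Th s (z + 2) = D.θ 1 ∧ D'.Th s (z + -2) = D.θ 1 := by
      refine ⟨(k : ℤ) - ε, ?_, ?_, ?_, ?_⟩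
      · rcases hε with h | h
        · rw [t0, h]; congr 1 <;> ring
        · rw [tm2, h]; congr 1 <;> ring
      · rcases hε with h | h
        · rw [tm2, h]; congr 1 <;> ring
        · rw [t0, h]; congr 1 <;> ring
      · rcases hε with h | h
        · rw [t1, h]; congr 1 <;> ring
        · rw [tm3, h]; congr 1 <;> ring
      · rcases hε with h | h
        · rw [tm3, h]; congr 1 <;> ring
        · rw [t1, h]; congr 1 <;> ring
    have n0 : D.θ 0 ≠ D.pre s 0 := fun h => hL h.symm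
    have hP2' : 2 ≤ P' := by
      by_contra h
      have hP1' : P' = 1 := by have := hT'.1; omega
      subst hP1'
      obtain ⟨c1, c2⟩ := (G'.T_one_iff hT').mp rfl
      rw [G'.Th_const c1 c2] at tm1 t0
      exact hL (tm1.trans t0.symm)
    -- the pair vector
    have pair : ∀ l : ℕ, 1 ≤ l → l + 1 < n' * P' → (∀ t : ℤ, D'.Th s ((l : ℤ) + t) = D'.Th s (z + t)) →
        ∃ u, u ≠ 0 ∧ X0 D A' B' u := by
      intro l h1 h2 h3
      refine X0_b T' G G' h1 (lt' _ h2) ?_ ?_ ?_ ?_ n0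
      · exact nat1 (s := s) (t := 1) (by
          have := h3 1
          rw [z1] at this
          exact_mod_cast this)
      · exact natm (s := s) (t := 1) h1 (by
          have := h3 (-1)
          rw [zm1] at this
          rw [sub_eq_add_neg]
          exact_mod_cast this)
      · exact nat1 (s := s) (t := 2) (by
          have := h3 2
          rw [z2] at this
          exact_mod_cast this)
      · have := h3 (-2)
        rw [zm2] at this
        rw [sub_eq_add_neg]
        exact this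
    obtain ⟨l, hl, hlt⟩ := reduce G' hT' z
    rcases Nat.eq_zero_or_pos l with hl0 | hl0
    · by_cases hbig : P' + 1 < n' * P'
      · refine pair P' hT'.1 hbig fun t => ?_
        rw [← hlt t, hl0]
        have := G'.per hT' t
        rw [Nat.cast_zero, zero_add, add_comm]
        exact this
      · -- a single period, the centre is at the start
        have hn1 : n' = 1 := by
          by_contra h
          have : 2 * P' ≤ n' * P' := Nat.mul_le_mul_right P' (by omega)
          omega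
        subst hn1
        obtain ⟨i, rfl⟩ : ∃ i, P' = i + 2 := ⟨P' - 2, by omega⟩
        have hN'' : D'.N = ((i + 2 : ℕ) : ℕ∞) := by rw [hN', one_mul]
        subst hl0
        have s0 : D'.θ (i + 1) = D.θ 0 := by
          have h1 := hlt (-1)
          rw [zm1, Nat.cast_zero, zero_add, ← G'.per hT'] at h1
          rw [← h1, ← Th_nat (s := s)]
          congr 1
          push_cast
          ring
        have s1 : D'.θ i = D.θ 1 := by
          have h1 := hlt (-2)
          rw [zm2, Nat.cast_zero, zero_add, ← G'.per hT'] at h1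
          rw [← h1, ← Th_nat (s := s)]
          congr 1
          push_cast
          ring
        have hi1 : ((i + 1 : ℕ) : ℕ∞) < D'.N := by rw [hN'']; exact_mod_cast (by omega)
        refine ⟨v' (i + 1), T'.v_ne hi1, by rw [T'.hB, s0], ?_⟩
        have e5 : A' (v' (i + 1)) - D.a 0 • v' (i + 1) =
            (D'.a (i + 1) - D.a 0) • v' (i + 1) + D'.w (i + 1) • v' i := by
          rw [T'.A_succ, T'.vz (i + 2) (by rw [hN''])]
          module
        rw [e5, map_add, map_smul, map_smul, T'.hB, T'.hB, s0, s1]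
        rcases a_or T' G G' hi1 s0 n0 with h | h
        · rw [h]; module
        · rw [h]; module
    · by_cases hl1 : l + 1 < n' * P'
      · exact pair l hl0 hl1 hlt
      · have hP'l : P' = l + 1 := by omega
        have s0 : D'.θ 0 = D.θ 0 := by
          rw [← hT'.2.1, hP'l]
          refine nat1 (s := s) (t := 1) ?_
          have := hlt 1
          rw [z1] at this
          exact_mod_cast this
        have s1 : D'.θ 1 = D.θ 1 := by
          rw [← hT'.2.2.1, hP'l]
          refine nat1 (s := s) (l := l) (t := 2) ?_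
          have := hlt 2
          rw [z2] at this
          exact_mod_cast this
        refine ⟨v' 0, T'.v_ne T'.zero_lt, by rw [T'.hB, s0], ?_⟩
        have e5 : A' (v' 0) - D.a 0 • v' 0 = v' 1 + (D'.a 0 - D.a 0) • v' 0 := by
          rw [T'.A_zero]
          module
        rw [e5, map_add, map_smul, T'.hB, T'.hB, s0, s1]
        rcases a_or T' G G' T'.zero_lt s0 n0 with h | h
        · rw [h]; module
        · rw [h]; module

end Pool.Agent.Helper9.AW
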