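import Pool.Agent.Helper9.AWClosed
import Pool.Agent.Helper9.AWAlg

set_option autoImplicit false
set_option linter.unusedSectionVars false
set_option linter.unusedSimpArgs false
set_option linter.unusedVariables false

namespace Pool.Agent.Helper9.AW

open Polynomial

variable {K : Type*} [Field K] {s : Scalars K}

theorem admissible_hw {D : Arr K} (h : D.Admissible s) :
    (∀ j, D.w j ≠ 0 ↔ (1 ≤ j ∧ (j : ℕ∞) < D.N)) ∧ 1 ≤ D.N := by
  rcases h with h | h
  · refine ⟨fun j => ?_, h.1.ge⟩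
    rw [h.2.1 j, h.1]
    constructor
    · intro h; exact absurd rfl h
    · rintro ⟨h1, h2⟩
      have : j < 1 := by exact_mod_cast h2
      omega
  · exact ⟨h.hw, le_trans (by norm_num) h.two⟩

/-- every array shape is realised by operators. -/
theorem exists_tri {D : Arr K} (hw : ∀ j, D.w j ≠ 0 ↔ (1 ≤ j ∧ (j : ℕ∞) < D.N))
    (pos : 1 ≤ D.N) :
    ∃ (A B : ({j : ℕ // (j : ℕ∞) < D.N} →₀ K) →ₗ[K] ({j : ℕ // (j : ℕ∞) < D.N} →₀ K))
      (v : ℕ → ({j : ℕ // (j : ℕ∞) < D.N} →₀ K)), Tri D A B v := by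
  classical
  set b : Module.Basis {j : ℕ // (j : ℕ∞) < D.N} K ({j : ℕ // (j : ℕ∞) < D.N} →₀ K) :=
    Finsupp.basisSingleOne with hb
  let v : ℕ → ({j : ℕ // (j : ℕ∞) < D.N} →₀ K) := fun j =>
    if h : (j : ℕ∞) < D.N then b ⟨j, h⟩ else 0
  have v1 : ∀ (j : ℕ) (h : (j : ℕ∞) < D.N), v j = b ⟨j, h⟩ := fun j h => dif_pos h
  have v0 : ∀ (j : ℕ), D.N ≤ j → v j = 0 := fun j h => dif_neg (not_lt.mpr h)
  have w0 : ∀ j : ℕ, D.N ≤ j → D.w j = 0 := by
    intro j hj
    by_contra h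
    exact absurd ((hw j).mp h).2 (not_lt.mpr hj)
  have w00 : D.w 0 = 0 := by
    by_contra h
    have := (hw 0).mp h
    omega
  refine ⟨b.constr K (fun j => v (j + 1) + D.a j • v j + D.w j • v (j - 1)),
    b.constr K (fun j => D.θ j • v j), v, hw, pos, v0, ?_, ?_, fun j => ?_, fun j => ?_⟩
  · have : (fun j : {j : ℕ // (j : ℕ∞) < D.N} => v j) = b := by
      funext j
      exact v1 j j.2
    rw [this]
    exact b.linearIndependent
  · rw [← b.span_eq]
    refine Submodule.span_mono ?_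
    rintro _ ⟨j, rfl⟩
    exact ⟨j, v1 j j.2⟩
  · by_cases h : (j : ℕ∞) < D.N
    · rw [v1 j h, Module.Basis.constr_basis, v1 j h]
    · rw [v0 j (not_lt.mp h), map_zero, smul_zero]
  · by_cases h : (j : ℕ∞) < D.N
    · rw [v1 j h, Module.Basis.constr_basis, v1 j h]
    · have hj := not_lt.mp h
      rw [v0 j hj, map_zero, smul_zero, w0 j hj, zero_smul, v0 (j + 1) (hj.trans (by
        exact_mod_cast Nat.le_succ j))]
      simp

theorem isAW_one {D : Arr K} {V : Type*} [AddCommGroup V] [Module K V] {A B : V →ₗ[K] V}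
    {v : ℕ → V} (T : Tri D A B v) (h1 : D.N = 1)
    (h2 : D.a 0 * s.P (D.θ 0) (D.θ 0) = s.R (D.θ 0))
    (h3 : ((2 - s.β) * D.θ 0 - s.γs) * D.a 0 ^ 2 - (2 * s.γ * D.θ 0 + s.ω) * D.a 0 =
      s.ρ * D.θ 0 + s.η) : IsAW s A B := by
  have hA : ∀ x, A x = D.a 0 • x := by
    intro x
    have : A = D.a 0 • LinearMap.id := by
      refine T.ext_hom' fun j hj => ?_
      have hj0 : j = 0 := by
        rw [h1] at hj
        have : j < 1 := by exact_mod_cast hj
        omega
      subst hj0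
      rw [T.A_zero, T.vz 1 (by rw [h1]; norm_num), zero_add]
      rfl
    rw [this]; rfl
  have hB : ∀ x, B x = D.θ 0 • x := by
    intro x
    have : B = D.θ 0 • LinearMap.id := by
      refine T.ext_hom' fun j hj => ?_
      have hj0 : j = 0 := by
        rw [h1] at hj
        have : j < 1 := by exact_mod_cast hj
        omega
      subst hj0
      rw [T.hB]
      rfl
    rw [this]; rfl
  simp only [Scalars.P, Scalars.R] at h2
  constructor
  · intro x
    simp only [hA, hB, map_smul]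
    have e : (D.a 0 * D.a 0 * D.θ 0 - s.β * (D.a 0 * D.θ 0 * D.a 0) + D.θ 0 * D.a 0 * D.a 0 -
      s.γ * (D.a 0 * D.θ 0 + D.θ 0 * D.a 0) - s.ρ * D.θ 0 -
      (s.γs * (D.a 0 * D.a 0) + s.ω * D.a 0 + s.η)) • x = 0 := by
      have : D.a 0 * D.a 0 * D.θ 0 - s.β * (D.a 0 * D.θ 0 * D.a 0) + D.θ 0 * D.a 0 * D.a 0 -
        s.γ * (D.a 0 * D.θ 0 + D.θ 0 * D.a 0) - s.ρ * D.θ 0 -
        (s.γs * (D.a 0 * D.a 0) + s.ω * D.a 0 + s.η) = 0 := by linear_combination h3
      rw [this, zero_smul]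
    rw [← sub_eq_zero, ← e]
    module
  · intro x
    simp only [hA, hB, map_smul]
    have e : (D.θ 0 * D.θ 0 * D.a 0 - s.β * (D.a 0 * D.θ 0 * D.θ 0) + D.θ 0 * D.a 0 * D.θ 0 -
      s.γs * (D.a 0 * D.θ 0 + D.θ 0 * D.a 0) - s.ρs * D.a 0 -
      (s.γ * (D.θ 0 * D.θ 0) + s.ω * D.θ 0 + s.ηs)) • x = 0 := by
      have : D.θ 0 * D.θ 0 * D.a 0 - s.β * (D.a 0 * D.θ 0 * D.θ 0) + D.θ 0 * D.a 0 * D.θ 0 -
        s.γs * (D.a 0 * D.θ 0 + D.θ 0 * D.a 0) - s.ρs * D.a 0 -
        (s.γ * (D.θ 0 * D.θ 0) + s.ω * D.θ 0 + s.ηs) = 0 := by linear_combination h2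
      rw [this, zero_smul]
    rw [← sub_eq_zero, ← e]
    module

theorem isAW_of_admissible {D : Arr K} {V : Type*} [AddCommGroup V] [Module K V] {A B : V →ₗ[K] V}
    {v : ℕ → V} (T : Tri D A B v) (h : D.Admissible s) : IsAW s A B := by
  rcases h with h | h
  · exact isAW_one T h.1 h.2.2.1 h.2.2.2
  · exact isAW_of_good T (good_of_closed h)

/-- the sequence defined by the recurrence -/
def recSeq (s : Scalars K) (x y : K) : ℕ → K
  | 0 => x
  | 1 => y
  | (j + 2) => s.β * recSeq s x y (j + 1) + s.γs - recSeq s x y j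

/-- from operators in tridiagonal-diagonal form to an admissible array. -/
theorem exists_admissible {V : Type*} [AddCommGroup V] [Module K V] {A B : V →ₗ[K] V} {D : Arr K}
    {v : ℕ → V} (T : Tri D A B v) (h : IsAW s A B) :
    ∃ D' : Arr K, D'.Admissible s ∧ Tri D' A B v := by
  by_cases h1 : D.N = 1
  · refine ⟨D, Or.inl ⟨h1, fun j => ?_, T.e2_of h 0 T.zero_lt, ?_⟩, T⟩
    · rcases Nat.eq_zero_or_pos j with hj | hj
      · rw [hj]; exact T.w_zero
      · exact T.w_ge (by rw [h1]; exact_mod_cast hj)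
    · have e := T.e5_of h 0 T.zero_lt
      rw [T.w_zero, T.w_ge (j := 0 + 1) (by rw [h1]; norm_num)] at e
      linear_combination e
  · have h2 : 2 ≤ D.N := by
      have := T.pos
      have h3 : 1 < D.N := lt_of_le_of_ne this (fun h => h1 h.symm)
      have := Order.add_one_le_of_lt h3
      rwa [one_add_one_eq_two] at this
    have key : ∀ j : ℕ, ((j : ℕ∞) < D.N → recSeq s (D.θ 0) (D.θ 1) j = D.θ j) ∧
        (((j + 1 : ℕ) : ℕ∞) < D.N → recSeq s (D.θ 0) (D.θ 1) (j + 1) = D.θ (j + 1)) := by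
      intro j
      induction j with
      | zero => exact ⟨fun _ => rfl, fun _ => rfl⟩
      | succ j ih =>
        refine ⟨ih.2, fun hj => ?_⟩
        show s.β * recSeq s (D.θ 0) (D.θ 1) (j + 1) + s.γs - recSeq s (D.θ 0) (D.θ 1) j = D.θ (j + 2)
        rw [ih.2 (Tri.lt_of_succ_lt hj), ih.1 (Tri.lt_of_succ_lt (Tri.lt_of_succ_lt hj)),
          T.rec_of h j hj]
    let D' : Arr K := ⟨D.N, recSeq s (D.θ 0) (D.θ 1), D.a, D.w⟩
    have T' : Tri D' A B v := by
      refine ⟨T.hw, T.pos, T.vz, T.ind, T.spn, fun j => ?_, T.hA⟩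
      by_cases hj : (j : ℕ∞) < D.N
      · show B (v j) = recSeq s (D.θ 0) (D.θ 1) j • v j
        rw [(key j).1 hj, T.hB]
      · rw [T.vz j (not_lt.mp hj), map_zero, smul_zero]
    exact ⟨D', Or.inr (closed_of_good (T'.good_of h h2 fun j => rfl)), T'⟩

/-- from a basis to a rescaled basis. -/
theorem exists_tri_of_basis {V : Type*} [AddCommGroup V] [Module K V] {A B : V →ₗ[K] V} {N : ℕ∞}
    (hN : 1 ≤ N) (b : Module.Basis {j : ℕ // (j : ℕ∞) < N} K V)
    (hB : ∀ i j, i ≠ j → b.repr (B (b j)) i = 0)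
    (hfar : ∀ i j : {j : ℕ // (j : ℕ∞) < N}, ((i : ℕ) + 1 < j ∨ (j : ℕ) + 1 < i) →
      b.repr (A (b j)) i = 0)
    (hnear : ∀ i j : {j : ℕ // (j : ℕ∞) < N}, ((i : ℕ) + 1 = j ∨ (j : ℕ) + 1 = i) →
      b.repr (A (b j)) i ≠ 0) : ∃ (D : Arr K) (v : ℕ → V), D.N = N ∧ Tri D A B v := by
  classical
  let e : ℕ → V := fun j => if h : (j : ℕ∞) < N then b ⟨j, h⟩ else 0
  have e1 : ∀ (j : ℕ) (h : (j : ℕ∞) < N), e j = b ⟨j, h⟩ := fun j h => dif_pos h
  have e0 : ∀ (j : ℕ), N ≤ j → e j = 0 := fun j h => dif_neg (not_lt.mpr h)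
  let m : ℕ → ℕ → K := fun i j => if h : (i : ℕ∞) < N ∧ (j : ℕ∞) < N then
    b.repr (A (b ⟨j, h.2⟩)) ⟨i, h.1⟩ else 0
  have m1 : ∀ (i j : ℕ) (hi : (i : ℕ∞) < N) (hj : (j : ℕ∞) < N),
      m i j = b.repr (A (b ⟨j, hj⟩)) ⟨i, hi⟩ := fun i j hi hj => dif_pos ⟨hi, hj⟩
  have m0 : ∀ (i j : ℕ), ¬ ((i : ℕ∞) < N ∧ (j : ℕ∞) < N) → m i j = 0 := fun i j h => dif_neg h
  have hAe : ∀ j : ℕ, A (e j) = m (j + 1) j • e (j + 1) + m j j • e j +
      (if j = 0 then (0 : K) else m (j - 1) j) • e (j - 1) := by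
    intro j
    by_cases hj : (j : ℕ∞) < N
    · apply b.repr.injective
      ext i
      rw [e1 j hj]
      simp only [map_add, map_smul, Finsupp.add_apply, Finsupp.smul_apply, smul_eq_mul]
      have hr : ∀ (l : ℕ), b.repr (e l) i = if (i : ℕ) = l then 1 else 0 := by
        intro l
        by_cases hl : (l : ℕ∞) < N
        · rw [e1 l hl, Module.Basis.repr_self, Finsupp.single_apply]
          by_cases h : (i : ℕ) = l
          · rw [if_pos h, if_pos (Subtype.ext h.symm)]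
          · rw [if_neg h, if_neg (fun h' => h (congrArg Subtype.val h').symm)]
        · rw [e0 l (not_lt.mp hl), map_zero, Finsupp.zero_apply, if_neg]
          intro h
          rw [← h] at hl
          exact hl i.2
      rw [hr, ← e1 j hj, hr, hr, e1 j hj]
      by_cases h1 : (i : ℕ) = j + 1
      · rw [if_pos h1, if_neg (by omega : ¬ (i : ℕ) = j), if_neg (by omega : ¬ (i : ℕ) = j - 1),
          m1 (j + 1) j (by rw [← h1]; exact i.2) hj]
        have : (⟨j + 1, by rw [← h1]; exact i.2⟩ : {j : ℕ // (j : ℕ∞) < N}) = i :=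
          Subtype.ext h1.symm
        rw [this]; ring
      · by_cases h2 : (i : ℕ) = j
        · rw [if_neg h1, if_pos h2, m1 j j hj hj]
          have : (⟨j, hj⟩ : {j : ℕ // (j : ℕ∞) < N}) = i := Subtype.ext h2.symm
          rw [this]
          by_cases hj0 : j = 0
          · rw [if_pos hj0]; ring
          · rw [if_neg (by omega : ¬ (i : ℕ) = j - 1)]; ring
        · by_cases h3 : j ≠ 0 ∧ (i : ℕ) = j - 1
          · rw [if_neg h1, if_neg h2, if_neg h3.1, if_pos h3.2,
              m1 (j - 1) j (by rw [← h3.2]; exact i.2) hj]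
            have : (⟨j - 1, by rw [← h3.2]; exact i.2⟩ : {j : ℕ // (j : ℕ∞) < N}) = i :=
              Subtype.ext h3.2.symm
            rw [this]; ring
          · rw [if_neg h1, if_neg h2, hfar i ⟨j, hj⟩ (by
              show (i : ℕ) + 1 < j ∨ j + 1 < (i : ℕ)
              omega)]
            by_cases hj0 : j = 0
            · rw [if_pos hj0]; ring
            · rw [if_neg (by omega : ¬ (i : ℕ) = j - 1)]; ring
    · have hj' := not_lt.mp hj
      rw [e0 j hj', e0 (j + 1) (hj'.trans (by exact_mod_cast Nat.le_succ j)), map_zero]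
      by_cases hj0 : j = 0
      · rw [if_pos hj0]; simp
      · rw [if_neg hj0, m0 (j - 1) j (fun h => hj h.2)]; simp
  -- the scaling factors
  let μ : ℕ → K := fun j => if ((j + 1 : ℕ) : ℕ∞) < N then m (j + 1) j else 1
  have hμ : ∀ j, μ j ≠ 0 := by
    intro j
    show (if ((j + 1 : ℕ) : ℕ∞) < N then m (j + 1) j else 1) ≠ 0
    split_ifs with h
    · have hj : (j : ℕ∞) < N := lt_of_le_of_lt (by exact_mod_cast Nat.le_succ j) h
      rw [m1 (j + 1) j h hj]
      exact hnear _ _ (Or.inr rfl)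
    · exact one_ne_zero
  let c : ℕ → K := fun j => ∏ i ∈ Finset.range j, μ i
  have cs : ∀ j, c (j + 1) = c j * μ j := fun j => Finset.prod_range_succ _ _
  have hc : ∀ j, c j ≠ 0 := fun j => Finset.prod_ne_zero_iff.mpr fun i _ => hμ i
  let t : ℕ → K := fun j => if h : (j : ℕ∞) < N then b.repr (B (b ⟨j, h⟩)) ⟨j, h⟩ else 0
  let w : ℕ → K := fun j => if 1 ≤ j ∧ (j : ℕ∞) < N then μ (j - 1) * m (j - 1) j else 0
  let D : Arr K := ⟨N, t, fun j => m j j, w⟩
  refine ⟨D, fun j => c j • e j, rfl, ?_, hN, fun j hj => ?_, ?_, ?_, fun j => ?_, fun j => ?_⟩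
  · intro j
    show (if 1 ≤ j ∧ (j : ℕ∞) < N then μ (j - 1) * m (j - 1) j else 0) ≠ 0 ↔ _
    split_ifs with h
    · constructor
      · intro _; exact h
      · intro _
        refine mul_ne_zero (hμ _) ?_
        have hj1 : ((j - 1 : ℕ) : ℕ∞) < N :=
          lt_of_le_of_lt (by exact_mod_cast Nat.sub_le j 1) h.2
        rw [m1 (j - 1) j hj1 h.2]
        exact hnear _ _ (Or.inl (Nat.sub_add_cancel h.1))
    · constructor
      · intro h'; exact absurd rfl h'
      · intro h'; exact absurd h' h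
  · show c j • e j = 0
    rw [e0 j hj, smul_zero]
  · -- independence
    have : (fun j : {j : ℕ // (j : ℕ∞) < D.N} => c j • e j) =
        fun j : {j : ℕ // (j : ℕ∞) < N} => (Units.mk0 (c j) (hc j) : Kˣ) • b j := by
      funext j
      show c j • e j = _
      rw [e1 j j.2]
      rfl
    rw [this]
    exact b.linearIndependent.units_smul _
  · rw [← b.span_eq]
    refine Submodule.span_le.mpr ?_
    rintro _ ⟨j, rfl⟩
    have : b j = (c j)⁻¹ • (c j • e j) := by
      rw [smul_smul, inv_mul_cancel₀ (hc j), one_smul, e1 j j.2]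
    rw [this]
    exact Submodule.smul_mem _ _ (Submodule.subset_span ⟨j, rfl⟩)
  · show B (c j • e j) = t j • (c j • e j)
    by_cases hj : (j : ℕ∞) < N
    · have : B (e j) = t j • e j := by
        apply b.repr.injective
        ext i
        rw [e1 j hj, map_smul, Finsupp.smul_apply, Module.Basis.repr_self, smul_eq_mul,
          Finsupp.single_apply]
        by_cases h : (⟨j, hj⟩ : {j : ℕ // (j : ℕ∞) < N}) = i
        · rw [if_pos h, ← h, mul_one]
          show _ = if h : (j : ℕ∞) < N then b.repr (B (b ⟨j, h⟩)) ⟨j, h⟩ else 0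
          rw [dif_pos hj]
        · rw [if_neg h, mul_zero]
          exact hB _ _ (fun h' => h h'.symm)
      rw [map_smul, this, smul_comm]
    · rw [e0 j (not_lt.mp hj)]; simp
  · show A (c j • e j) = c (j + 1) • e (j + 1) + m j j • (c j • e j) + w j • (c (j - 1) • e (j - 1))
    have h1 : m (j + 1) j • e (j + 1) = μ j • e (j + 1) := by
      show _ = (if ((j + 1 : ℕ) : ℕ∞) < N then m (j + 1) j else 1) • e (j + 1)
      split_ifs with h
      · rfl
      · rw [e0 (j + 1) (not_lt.mp h)]; simp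
    have h2 : c j • ((if j = 0 then (0 : K) else m (j - 1) j) • e (j - 1)) =
        w j • (c (j - 1) • e (j - 1)) := by
      show _ = (if 1 ≤ j ∧ (j : ℕ∞) < N then μ (j - 1) * m (j - 1) j else 0) •
        (c (j - 1) • e (j - 1))
      rcases j with _ | j
      · simp
      · rw [if_neg (by omega), Nat.add_sub_cancel]
        split_ifs with h
        · rw [cs j]
          module
        · rw [m0 j (j + 1) (fun h' => h ⟨by omega, h'.2⟩)]
          simp
    rw [map_smul, hAe, smul_add, smul_add, h1, h2, cs j]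
    module

end Pool.Agent.Helper9.AW
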