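import Pool.Agent.Helper9.AWIso4
import Pool.Agent.Helper9.AWModel

set_option autoImplicit false
set_option linter.unusedSectionVars false
set_option linter.unusedSimpArgs false
set_option linter.unusedVariables false

namespace Pool.Agent.Helper9.AW

open Polynomial

variable {K : Type*} [Field K] {s : Scalars K} {D D' : Arr K}

section

variable {V : Type*} [AddCommGroup V] [Module K V] {A B : V →ₗ[K] V} {v : ℕ → V}

theorem two_of_not_distinct (T : Tri D A B v) (h : ¬ D.Distinct) : 2 ≤ D.N := by
  by_contra h2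
  apply h
  intro i j hi hj _
  have h3 : D.N ≤ 1 := by
    by_contra h3
    rw [not_le] at h3
    apply h2
    have := Order.add_one_le_of_lt h3
    rwa [one_add_one_eq_two] at this
  have hi' : i < 1 := by exact_mod_cast lt_of_lt_of_le hi h3
  have hj' : j < 1 := by exact_mod_cast lt_of_lt_of_le hj h3
  omega

theorem good_of_admissible (h : D.Admissible s) (h2 : 2 ≤ D.N) : Good s D := by
  rcases h with h | h
  · rw [h.1] at h2
    exact absurd h2 (by norm_num)
  · exact good_of_closed h

/-- the irreducibility criterion -/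
theorem irr_iff (T : Tri D A B v) (hD : D.Admissible s) : Irr A B ↔
    D.Distinct ∨ (∃ m, D.Doubled m) ∨ ∃ P n, D.Periodic P n := by
  have hAW := isAW_of_admissible T hD
  by_cases h : D.Distinct
  · exact ⟨fun _ => Or.inl h, fun _ => T.irr_of_distinct h⟩
  · have G := good_of_admissible hD (two_of_not_distinct T h)
    exact ⟨fun hI => types_of_irr T G hAW hI, fun ht => irr_of_types T G hAW ht⟩

theorem Arr.Same.symm (h : D.Same D') : D'.Same D :=
  ⟨h.1.symm, fun j hj => by
    obtain ⟨a, b, c⟩ := h.2 j (by rw [h.1]; exact hj)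
    exact ⟨a.symm, b.symm, c.symm⟩⟩

theorem Arr.Mirror.symm (h : D.Mirror D') : D'.Mirror D := by
  obtain ⟨n, h1, h2, h3, h4⟩ := h
  refine ⟨n, h2, h1, fun i j hij => ?_, fun i j hi hj hij => ?_⟩
  · obtain ⟨a, b⟩ := h3 j i (by omega)
    exact ⟨a.symm, b.symm⟩
  · exact (h4 j i hj hi (by omega)).symm

variable {V' : Type*} [AddCommGroup V'] [Module K V'] {A' B' : V' →ₗ[K] V'} {v' : ℕ → V'}

/-- the isomorphism criterion -/
theorem iso_iff_equivalent (T : Tri D A B v) (hD : D.Admissible s) (T' : Tri D' A' B' v')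
    (hD' : D'.Admissible s) (hI : Irr A B) (hI' : Irr A' B') :
    (∃ f : V →ₗ[K] V', Function.Bijective f ∧ (∀ x, f (A x) = A' (f x)) ∧
      ∀ x, f (B x) = B' (f x)) ↔ D.Equivalent s D' := by
  have hAW := isAW_of_admissible T hD
  have hAW' := isAW_of_admissible T' hD'
  constructor
  · rintro ⟨f, hf, fA, fB⟩
    -- transport the second basis
    let e : V ≃ₗ[K] V' := LinearEquiv.ofBijective f hf
    have eA : ∀ x, e.symm (A' x) = A (e.symm x) := by
      intro x
      apply e.injective
      rw [e.apply_symm_apply]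
      have := fA (e.symm x)
      have h2 : f (e.symm x) = x := e.apply_symm_apply x
      rw [h2] at this
      exact this.symm
    have eB : ∀ x, e.symm (B' x) = B (e.symm x) := by
      intro x
      apply e.injective
      rw [e.apply_symm_apply]
      have := fB (e.symm x)
      have h2 : f (e.symm x) = x := e.apply_symm_apply x
      rw [h2] at this
      exact this.symm
    have T2 : Tri D' A B (fun j => e.symm (v' j)) := T'.map e.symm eA eB
    by_cases h1 : D.Distinct
    · rcases iso_distinct T T2 h1 with h | h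
      · exact Or.inl h
      · exact Or.inr (Or.inl h)
    by_cases h1' : D'.Distinct
    · rcases iso_distinct T2 T h1' with h | h
      · exact Or.inl h.symm
      · exact Or.inr (Or.inl h.symm)
    have G := good_of_admissible hD (two_of_not_distinct T h1)
    have G' := good_of_admissible hD' (two_of_not_distinct T' h1')
    rcases types_of_irr T G hAW hI with h | ⟨m, h⟩ | ⟨P, n, h⟩
    · exact absurd h h1
    · right; right; left
      obtain ⟨a1, a2, a3⟩ := iso_doubled T G hAW hI h T2 G'
      exact ⟨m, h, a1, a2, a3⟩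
    · rcases types_of_irr T' G' hAW' hI' with h' | ⟨m, h'⟩ | ⟨P', n', h'⟩
      · exact absurd h' h1'
      · right; right; left
        obtain ⟨a1, a2, a3⟩ := iso_doubled T2 G' hAW hI h' T G
        exact ⟨m, a1, h', fun j => (a2 j).symm, a3.imp id Eq.symm⟩
      · right; right; right
        obtain ⟨b1, b2, b3, b4⟩ := periodic_inv T G hAW T2 G' h.2.2.1
        exact ⟨P, n, P', n', h, h', b1, b2, b3, b4⟩
  · intro h
    suffices hs : ∃ f : V →ₗ[K] V', (∀ x, f (A x) = A' (f x)) ∧ (∀ x, f (B x) = B' (f x)) ∧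
        f (v 0) ≠ 0 by
      obtain ⟨f, fA, fB, f0⟩ := hs
      exact ⟨f, schur hI hI' f fA fB f0, fA, fB⟩
    rcases h with h | h | ⟨m, h1, h2, h3, h4⟩ | ⟨P, n, P', n', h1, h2, h3, h4, h5, h6⟩
    · obtain ⟨f, fA, fB, f0⟩ := iso_of_same T T' h
      exact ⟨f, fA, fB, by rw [f0]; exact T'.v_ne T'.zero_lt⟩
    · exact iso_of_mirror T T' h
    · have n2 : 2 ≤ D.N := by rw [h1.1]; exact_mod_cast (by omega : 2 ≤ 2 * m + 2)
      have n2' : 2 ≤ D'.N := by rw [h2.1]; exact_mod_cast (by omega : 2 ≤ 2 * m + 2)
      obtain ⟨f, fA, fB, f0⟩ := hom_doubled T (good_of_admissible hD n2) T'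
        (good_of_admissible hD' n2') hAW' h1 h2 h3 h4
      exact ⟨f, fA, fB, by rw [f0]; exact T'.v_ne T'.zero_lt⟩
    · have G := good_of_admissible hD h1.1
      have G' := good_of_admissible hD' h2.1
      obtain ⟨u, hu0, hu⟩ := exists_X0 T' G G' h1 h2 h4 h5
      obtain ⟨f, fA, fB, f0⟩ := T.hom_of G hAW' u hu.1 hu.2 (fun k hk => by
        have : k = n * P := by
          have h7 := h1.2.2.1
          rw [hk] at h7
          exact_mod_cast h7
        rw [this, h6]
        exact T'.kill (by rw [← h3]; exact h1.2.2.1) u)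
      exact ⟨f, fA, fB, by rw [f0]; exact hu0⟩

end

section

variable (s) {V : Type*} [AddCommGroup V] [Module K V] [Module (AwAlg s) V]
  [IsScalarTower K (AwAlg s) V]

theorem realizes_iff (hD : D.Admissible s) : Realizes s D V ↔
    ∃ v : ℕ → V, Tri D (act s V (gA s)) (act s V (gB s)) v := by
  obtain ⟨hw, pos⟩ := admissible_hw hD
  constructor
  · rintro ⟨v, h1, h2, h3, h4, h5⟩
    exact ⟨v, hw, pos, h1, h2, h3.ge, h4, h5⟩
  · rintro ⟨v, T⟩
    exact ⟨v, T.vz, T.ind, top_le_iff.mp T.spn, T.hB, T.hA⟩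

theorem tri_of_polyType [Nontrivial V] (h : PolyType s V) :
    ∃ (D : Arr K) (v : ℕ → V), Tri D (act s V (gA s)) (act s V (gB s)) v := by
  obtain ⟨N, b, hB, hfar, hnear⟩ := h
  have hN : 1 ≤ N := by
    by_contra h
    rw [not_le, ENat.lt_one_iff_eq_zero] at h
    subst h
    have : IsEmpty {j : ℕ // (j : ℕ∞) < 0} := ⟨fun j => absurd j.2 (by simp)⟩
    have hs : Subsingleton V := b.repr.toEquiv.subsingleton
    exact not_subsingleton V hs
  obtain ⟨D, v, _, T⟩ := exists_tri_of_basis (A := act s V (gA s)) (B := act s V (gB s)) hN b hB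
    hfar hnear
  exact ⟨D, v, T⟩

theorem polyType_of_tri {v : ℕ → V} (T : Tri D (act s V (gA s)) (act s V (gB s)) v) :
    PolyType s V := by
  have hc : ∀ (i : {j : ℕ // (j : ℕ∞) < D.N}) (x : V), T.basis.repr x i = T.c i x := by
    intro i x
    rw [Tri.c, dif_pos i.2]
    rfl
  refine ⟨D.N, T.basis, fun i j hij => ?_, fun i j hij => ?_, fun i j hij => ?_⟩
  · rw [hc, T.basis_apply]
    have := T.c_B i (v j)
    rw [T.c_ne (fun h => hij (Subtype.ext h)), mul_zero] at this
    exact this
  · rw [hc, T.basis_apply]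
    have h1 : act s V (gA s) (v j) = gA s • v j := rfl
    rw [← h1, T.hA, map_add, map_add, map_smul, map_smul, T.c_ne (by omega), T.c_ne (by omega),
      T.c_ne (by omega)]
    simp
  · rw [hc, T.basis_apply]
    have h1 : act s V (gA s) (v j) = gA s • v j := rfl
    rw [← h1, T.hA, map_add, map_add, map_smul, map_smul]
    rcases hij with h | h
    · rw [T.c_ne (by omega), T.c_ne (by omega), show (j : ℕ) - 1 = i by omega, T.c_self i.2]
      simpa using T.w_ne (by omega) j.2
    · rw [T.c_ne (by omega : (i : ℕ) ≠ j), h, T.c_self i.2]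
      have h2 : D.w j * T.c i (v (j - 1)) = 0 := by
        rw [T.c_ne (by omega), mul_zero]
      simp only [smul_eq_mul, mul_zero, add_zero, h2]
      exact one_ne_zero

end

end Pool.Agent.Helper9.AW
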