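import Pool.Agent.Helper9.AWSeq

set_option autoImplicit false
set_option linter.unusedSectionVars false
set_option linter.unusedSimpArgs false

namespace Pool.Agent.Helper9.AW

open Polynomial

variable {K : Type*} [Field K] {D : Arr K} {s : Scalars K}

/-- the first half of the walk: reflection in `e/2`. -/
structure Fold (s : Scalars K) (D : Arr K) (e : ℕ) : Prop where
  refl : ∀ t : ℤ, D.Th s t = D.Th s (e - t)
  inj : ∀ i j : ℕ, i ≤ e / 2 → j ≤ e / 2 → D.θ i = D.θ j → i = j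
  lt : ((e / 2 + 1 : ℕ) : ℕ∞) < D.N
  pos : 1 ≤ e

namespace Good

variable (G : Good s D)
include G

theorem cyc_contra {k : ℕ} (hk : 3 ≤ k) (hkN : (k : ℕ∞) < D.N) (h0 : D.θ k = D.θ 0)
    (h1 : D.θ (k + 1) = D.θ 1) (hm : D.θ (k - 1) = D.pre s 0)
    (inj : ∀ i j : ℕ, i < k → j < k → D.θ i = D.θ j → i = j) : False := by
  obtain ⟨l, rfl⟩ : ∃ l, k = l + 3 := ⟨k - 3, by omega⟩
  have hm' : D.θ (l + 2) = D.pre s 0 := hm
  have ne1 : D.θ 0 ≠ D.θ 1 := fun h => by have := inj 0 1 (by omega) (by omega) h; omega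
  have ne2 : D.θ 0 ≠ D.pre s 0 := fun h => by
    have := inj 0 (l + 2) (by omega) (by omega) (by rw [hm', h]); omega
  have ha : D.a (l + 3) = D.a 0 := by
    refine G.a_eq hkN G.zero_lt h0 ne2 ne1
  have hL := (G.cas hkN).1
  have hL0 := G.CL_zero
  simp only [Arr.CL] at hL hL0
  rw [G.w_zero] at hL0
  have e1 : D.pre s (l + 3) = D.pre s 0 := hm'
  have e2 : D.pre s (l + 3 - 1) = D.θ (l + 1) := rfl
  rw [e1, e2, ha, h0, h1] at hL
  have h3 : D.w (l + 3) * (D.θ 0 - D.θ (l + 1)) * (D.θ 1 - D.pre s 0) = 0 := by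
    linear_combination hL - hL0
  rcases mul_eq_zero.mp h3 with h4 | h4
  · rcases mul_eq_zero.mp h4 with h5 | h5
    · exact G.w_ne (by omega) hkN h5
    · have := inj 0 (l + 1) (by omega) (by omega) (sub_eq_zero.mp h5)
      omega
  · have h6 : D.θ 1 = D.θ (l + 2) := by rw [hm']; exact sub_eq_zero.mp h4
    have := inj 1 (l + 2) (by omega) (by omega) h6
    omega

theorem exists_fold (h : ¬ D.Distinct) : ∃ e, Fold s D e := by
  classical
  have h1 : ∃ k : ℕ, (k : ℕ∞) < D.N ∧ ∃ i, i < k ∧ D.θ i = D.θ k := by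
    unfold Arr.Distinct at h
    push Not at h
    obtain ⟨i, j, hi, hj, hij, hne⟩ := h
    rcases lt_or_gt_of_ne hne with h' | h'
    · exact ⟨j, hj, i, h', hij⟩
    · exact ⟨i, hi, j, h', hij.symm⟩
  obtain ⟨hkN, i, hik, hθ⟩ := Nat.find_spec h1
  have hmin := fun m => Nat.find_min h1 (m := m)
  set k := Nat.find h1 with hk
  have inj : ∀ a b : ℕ, a < k → b < k → D.θ a = D.θ b → a = b := by
    intro a b ha hb hab
    by_contra hne
    rcases lt_or_gt_of_ne hne with h' | h'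
    · exact hmin b hb ⟨Tri.lt_mono hkN hb.le, a, h', hab⟩
    · exact hmin a ha ⟨Tri.lt_mono hkN ha.le, b, h', hab.symm⟩
  have hθ' : D.Th s (i : ℤ) = D.Th s (k : ℤ) := hθ
  -- the reflection case
  have main : (∀ t, D.Th s (i + t) = D.Th s (k - t)) → ∃ e, Fold s D e := by
    intro hr
    have h2 : k ≤ i + 2 := by
      by_contra h3
      have h4 := hr 1
      have h5 : D.θ (i + 1) = D.θ (k - 1) := by
        have e1 : ((i : ℤ) + 1) = ((i + 1 : ℕ) : ℤ) := by push_cast; ring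
        have e2 : ((k : ℤ) - 1) = ((k - 1 : ℕ) : ℤ) := by omega
        rw [e1, e2, Th_nat, Th_nat] at h4
        exact h4
      have := inj (i + 1) (k - 1) (by omega) (by omega) h5
      omega
    refine ⟨i + k, fun t => ?_, fun a b ha hb => inj a b (by omega) (by omega), ?_, by omega⟩
    · have := hr (t - i)
      rw [show (i : ℤ) + (t - i) = t by ring] at this
      rw [this]
      congr 1
      push_cast
      ring
    · have : (i + k) / 2 + 1 = k := by omega
      rw [this]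
      exact hkN
  rcases G.dichotomy hθ' with hr | ht
  · exact main hr
  · have hi0 : i = 0 := by
      by_contra h0
      have h4 := ht (-1)
      have h5 : D.θ (i - 1) = D.θ (k - 1) := by
        have e1 : ((i : ℤ) + -1) = ((i - 1 : ℕ) : ℤ) := by omega
        have e2 : ((k : ℤ) + -1) = ((k - 1 : ℕ) : ℤ) := by omega
        rw [e1, e2, Th_nat, Th_nat] at h4
        exact h4
      have := inj (i - 1) (k - 1) (by omega) (by omega) h5
      omega
    subst hi0
    have hk1 : 1 ≤ k := hik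
    rcases Nat.lt_or_ge k 3 with h3 | h3
    · refine main ?_
      have hk12 : k = 1 ∨ k = 2 := by omega
      rcases hk12 with hk1 | hk2
      · rw [hk1] at ht hθ' ⊢
        refine G.reflect hθ' ?_
        have := ht 0
        simpa using this.symm
      · rw [hk2] at ht hθ' ⊢
        refine G.reflect hθ' ?_
        norm_num
    · exfalso
      refine G.cyc_contra h3 hkN hθ.symm ?_ ?_ inj
      · have h4 := ht 1
        have e1 : (((0 : ℕ) : ℤ) + 1) = ((1 : ℕ) : ℤ) := by norm_num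
        have e2 : ((k : ℤ) + 1) = ((k + 1 : ℕ) : ℤ) := by push_cast; ring
        rw [e1, e2, Th_nat, Th_nat] at h4
        exact h4.symm
      · have h4 := ht (-1)
        have e1 : (((0 : ℕ) : ℤ) + -1) = -1 := by norm_num
        have e2 : ((k : ℤ) + -1) = ((k - 1 : ℕ) : ℤ) := by omega
        rw [e1, e2, Th_nat, Th_m1] at h4
        exact h4.symm

end Good

namespace Fold

variable {e : ℕ} (F : Fold s D e) (G : Good s D)
include F

theorem nat {i : ℕ} (h : i ≤ e) : D.θ i = D.θ (e - i) := by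
  have := F.refl i
  rw [Th_nat] at this
  rw [this]
  have e2 : ((e : ℤ) - i) = ((e - i : ℕ) : ℤ) := by omega
  rw [e2, Th_nat]

theorem ne_of_ne {i j : ℕ} (hi : i ≤ e / 2) (hj : j ≤ e / 2) (h : i ≠ j) : D.θ i ≠ D.θ j :=
  fun h' => h (F.inj i j hi hj h')

theorem zero_iff {j : ℕ} (h : j ≤ e) (h0 : D.θ j = D.θ 0) : j = 0 ∨ j = e := by
  rcases Nat.lt_or_ge (e / 2) j with h1 | h1
  · right
    have h2 : D.θ (e - j) = D.θ 0 := by rw [← F.nat h, h0]
    have := F.inj (e - j) 0 (by omega) (by omega) h2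
    omega
  · left
    exact F.inj j 0 h1 (by omega) h0

theorem one_iff (h2 : 2 ≤ e) {j : ℕ} (h : j ≤ e) (h0 : D.θ j = D.θ 1) : j = 1 ∨ j = e - 1 := by
  rcases Nat.lt_or_ge (e / 2) j with h1 | h1
  · right
    have h3 : D.θ (e - j) = D.θ 1 := by rw [← F.nat h, h0]
    have := F.inj (e - j) 1 (by omega) (by omega) h3
    omega
  · left
    exact F.inj j 1 h1 (by omega) h0

theorem ne01 (h2 : 2 ≤ e) : D.θ 0 ≠ D.θ 1 := F.ne_of_ne (by omega) (by omega) (by omega)

theorem Th_succ_e : D.θ (e + 1) = D.pre s 0 := by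
  have := F.refl (-1)
  rw [Th_m1] at this
  rw [this]
  have e2 : ((e : ℤ) - -1) = ((e + 1 : ℕ) : ℤ) := by push_cast; ring
  rw [e2, Th_nat]

theorem Th_succ2_e : D.θ (e + 2) = D.Th s (-2) := by
  have := F.refl (-2)
  rw [this]
  have e2 : ((e : ℤ) - -2) = ((e + 2 : ℕ) : ℤ) := by push_cast; ring
  rw [e2, Th_nat]

theorem pre_e : D.pre s e = D.θ 1 := by
  rw [← Th_pre]
  have := F.refl 1
  rw [← this]
  rfl

include G

/-- the walk is cut before it returns to its starting point. -/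
theorem short (h : D.N ≤ (e : ℕ∞)) : D.N = (e : ℕ∞) ∧ D.pre s 0 = D.θ 1 ∧ 3 ≤ e := by
  have hfin : D.N ≠ ⊤ := fun h' => by rw [h'] at h; exact absurd h (by simp)
  obtain ⟨n, hn⟩ := ENat.ne_top_iff_exists.mp hfin
  have hlt := F.lt
  rw [← hn] at h hlt ⊢
  have h1 : n ≤ e := by exact_mod_cast h
  have h2 : e / 2 + 1 < n := by exact_mod_cast hlt
  -- the last vertex
  obtain ⟨d, rfl⟩ : ∃ d, n = d + 1 := ⟨n - 1, by omega⟩
  have hdN : (d : ℕ∞) < D.N := by rw [← hn]; exact_mod_cast Nat.lt_succ_self d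
  obtain ⟨f, hf⟩ : ∃ f, f + 1 = e - d := ⟨e - d - 1, by omega⟩
  have hfN : ((f + 1 : ℕ) : ℕ∞) < D.N := by rw [← hn]; exact_mod_cast (by omega : f + 1 < d + 1)
  have hf2 : f + 1 ≤ e / 2 := by omega
  have R := (G.cas hdN).2
  have L := (G.cas hfN).1
  have wd : D.w (d + 1) = 0 := G.w_ge (by rw [← hn])
  -- mirror identities
  have m1 : D.θ d = D.θ (f + 1) := by rw [F.nat (by omega : d ≤ e), hf]
  have m2 : D.θ (d + 1) = D.θ f := by
    rw [F.nat (by omega : d + 1 ≤ e)]
    congr 1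
    omega
  have m3 : D.pre s d = D.θ (f + 2) := by
    rw [← Th_pre, F.refl, ← Th_nat (s := s)]
    congr 1
    push_cast
    omega
  simp only [Arr.CR] at R
  simp only [Arr.CL, Nat.add_sub_cancel] at L
  have p1 : D.pre s (f + 1) = D.θ f := rfl
  rw [wd, m1, m2, m3] at R
  rw [p1, show f + 1 + 1 = f + 2 from rfl] at L
  have nef : D.θ (f + 1) ≠ D.θ f := F.ne_of_ne hf2 (by omega) (by omega)
  have key : D.a d * (D.θ (f + 1) - D.θ (f + 2)) = D.a (f + 1) * (D.θ (f + 1) - D.θ (f + 2)) := by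
    by_cases hl : D.θ (f + 1) = D.θ (f + 2)
    · rw [hl, sub_self, mul_zero, mul_zero]
    · rw [G.a_eq hdN hfN m1 nef hl]
  have h3 : D.w (f + 1) * (D.θ (f + 1) - D.pre s f) * (D.θ (f + 2) - D.θ f) = 0 := by
    have key2 : (D.a d * (D.θ (f + 1) - D.θ (f + 2))) ^ 2 =
      (D.a (f + 1) * (D.θ (f + 1) - D.θ (f + 2))) ^ 2 := by rw [key]
    linear_combination L - R + (s.γ * (D.θ (f + 1) + D.θ f) + s.ω) * key - key2
  have h4 : D.θ (f + 2) ≠ D.θ f := by
    rcases Nat.lt_or_ge (e / 2) (f + 2) with h5 | h5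
    · have h6 : f + 2 = e - (f + 1) ∨ f + 2 = e - f := by omega
      have h7 : f + 2 = e - (f + 1) := by
        rcases h6 with h6 | h6
        · exact h6
        · omega
      rw [h7, ← F.nat (by omega : f + 1 ≤ e)]
      exact nef
    · exact F.ne_of_ne h5 (by omega) (by omega)
  have h5 : D.θ (f + 1) = D.pre s f := by
    rcases mul_eq_zero.mp h3 with h6 | h6
    · rcases mul_eq_zero.mp h6 with h7 | h7
      · exact absurd h7 (G.w_ne (by omega) hfN)
      · exact sub_eq_zero.mp h7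
    · exact absurd (sub_eq_zero.mp h6) h4
  have hf0 : f = 0 := by
    rcases f with _ | g
    · rfl
    · exfalso
      have : D.θ (g + 2) = D.θ g := h5
      have := F.inj (g + 2) g (by omega) (by omega) this
      omega
  subst hf0
  refine ⟨?_, h5.symm, by omega⟩
  congr 1
  omega

/-- the walk passes its starting point. -/
theorem long (h : ((e + 1 : ℕ) : ℕ∞) < D.N) :
    D.pre s 0 = D.θ 0 ∨ D.pre s 0 = D.θ 1 ∨ D.Th s (-2) = D.θ 0 := by
  by_contra hcon
  push Not at hcon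
  obtain ⟨c1, c2, c3⟩ := hcon
  have heN : (e : ℕ∞) < D.N := Tri.lt_of_succ_lt h
  have R := (G.cas heN).2
  have L := G.CL_zero
  have m0 : D.θ e = D.θ 0 := by
    have := F.nat (le_refl e)
    rw [this, Nat.sub_self]
  have m1 := F.Th_succ_e
  have m2 := F.Th_succ2_e
  have m3 := F.pre_e
  simp only [Arr.CR] at R
  simp only [Arr.CL] at L
  rw [m0, m1, m2, m3] at R
  rw [G.w_zero] at L
  have key : D.a e * (D.θ 0 - D.θ 1) = D.a 0 * (D.θ 0 - D.θ 1) := by
    by_cases hl : D.θ 0 = D.θ 1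
    · rw [hl, sub_self, mul_zero, mul_zero]
    · rw [G.a_eq heN G.zero_lt m0 (fun h => c1 h.symm) hl]
  have h3 : D.w (e + 1) * (D.pre s 0 - D.θ 1) * (D.Th s (-2) - D.θ 0) = 0 := by
    have key2 : (D.a e * (D.θ 0 - D.θ 1)) ^ 2 = (D.a 0 * (D.θ 0 - D.θ 1)) ^ 2 := by rw [key]
    simp only [zero_add] at L
    linear_combination R - L - (s.γ * (D.θ 0 + D.pre s 0) + s.ω) * key + key2
  rcases mul_eq_zero.mp h3 with h4 | h4
  · rcases mul_eq_zero.mp h4 with h5 | h5
    · exact G.w_ne (by omega) h h5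
    · exact c2 (sub_eq_zero.mp h5)
  · exact c3 (sub_eq_zero.mp h4)

end Fold

end Pool.Agent.Helper9.AW
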