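import Pool.Agent.Helper9.AWNC

set_option autoImplicit false
set_option linter.unusedSectionVars false
set_option linter.unusedSimpArgs false

namespace Pool.Agent.Helper9.AW

open Polynomial

variable {K : Type*} [Field K] {D : Arr K} {s : Scalars K}

namespace Good

variable (G : Good s D) {T : ℕ}
include G

theorem per (hT : D.IsPeriod T) (z : ℤ) : D.Th s (z + T) = D.Th s z := by
  have h := G.translate (i := (T : ℤ)) (j := 0) hT.2.1 (by
    have : ((T : ℤ) + 1) = ((T + 1 : ℕ) : ℤ) := by push_cast; ring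
    rw [this]
    exact hT.2.2.1) z
  rw [show z + (T : ℤ) = T + z by ring, h, zero_add]

theorem per_nat (hT : D.IsPeriod T) (j : ℕ) : D.θ (j + T) = D.θ j := by
  have := G.per hT j
  exact_mod_cast this

theorem per_mul (hT : D.IsPeriod T) (z : ℤ) (n : ℤ) : D.Th s (z + n * T) = D.Th s z := by
  induction n using Int.induction_on with
  | zero => simp
  | succ n ih =>
    rw [show z + ((n : ℤ) + 1) * T = z + n * T + T by ring, G.per hT, ih]
  | pred n ih =>
    rw [← ih, ← G.per hT (z + (-(n : ℤ) - 1) * T)]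
    congr 1
    ring

theorem per_dvd (hT : D.IsPeriod T) {m : ℤ} (h : ∀ z, D.Th s (z + m) = D.Th s z) : (T : ℤ) ∣ m := by
  have hTpos : (0 : ℤ) < T := by exact_mod_cast hT.1
  set r := m % T with hr
  have h1 : 0 ≤ r := Int.emod_nonneg _ hTpos.ne'
  have h2 : r < T := Int.emod_lt_of_pos _ hTpos
  have h3 : ∀ z, D.Th s (z + r) = D.Th s z := by
    intro z
    have e : m = r + (m / T) * T := by rw [hr]; linarith [Int.emod_add_mul_ediv m T]
    have := h z
    rw [e, ← add_assoc, G.per_mul hT] at this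
    exact this
  obtain ⟨k, hk⟩ := Int.eq_ofNat_of_zero_le h1
  by_cases h0 : k = 0
  · apply Int.dvd_of_emod_eq_zero
    rw [← hr, hk, h0]
    rfl
  · exfalso
    refine hT.2.2.2 k (by omega) (by omega) ⟨?_, ?_⟩
    · have := h3 0
      rw [hk, zero_add] at this
      exact this
    · have := h3 1
      rw [hk, add_comm] at this
      exact_mod_cast this

/-- reflection around `c/2` gives a divisibility -/
theorem refl_dvd (hT : D.IsPeriod T) {c d : ℤ} (h1 : ∀ t, D.Th s t = D.Th s (c - t))
    (h2 : ∀ t, D.Th s t = D.Th s (d - t)) : (T : ℤ) ∣ c - d := by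
  refine G.per_dvd hT fun z => ?_
  rw [h1, h2 z]
  congr 1
  ring

theorem refl_loop (h : D.pre s 0 = D.θ 0) (t : ℤ) : D.Th s t = D.Th s (-1 - t) := by
  have h0 : D.Th s (-1) = D.Th s 0 := h
  have := G.reflect (i := -1) (j := 0) h0 (by norm_num; exact h0.symm) (t + 1)
  rw [show (-1 : ℤ) + (t + 1) = t by ring] at this
  rw [this]
  congr 1
  ring

theorem refl_a (h : D.pre s 0 = D.θ 1) (t : ℤ) : D.Th s t = D.Th s (0 - t) := by
  have h0 : D.Th s (-1) = D.Th s 1 := h
  have := G.reflect (i := 0) (j := 0) rfl (by norm_num; exact h0.symm) t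
  rw [zero_add] at this
  exact this

theorem refl_b (h : D.Th s (-2) = D.θ 0) (t : ℤ) : D.Th s t = D.Th s (-2 - t) := by
  have h0 : D.Th s (-2) = D.Th s 0 := h
  have := G.reflect (i := -2) (j := 0) h0 (by norm_num) (t + 2)
  rw [show (-2 : ℤ) + (t + 2) = t by ring] at this
  rw [this]
  congr 1
  ring

/-- the general classification of indices with a given eigenvalue -/
theorem class_of (hT : D.IsPeriod T) {c : ℤ} (hc : ∀ t, D.Th s t = D.Th s (c - t)) {i j : ℤ}
    (h : D.Th s i = D.Th s j) : (T : ℤ) ∣ j - i ∨ (T : ℤ) ∣ i + j - c := by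
  rcases G.dichotomy h with h1 | h1
  · right
    refine G.refl_dvd hT (c := i + j) (d := c) (fun t => ?_) hc
    have := h1 (t - i)
    rw [show i + (t - i) = t by ring] at this
    rw [this]
    congr 1
    ring
  · left
    refine G.per_dvd hT fun z => ?_
    have := h1 (z - i)
    rw [show i + (z - i) = z by ring] at this
    rw [this]
    congr 1
    ring

theorem T_one_iff (hT : D.IsPeriod T) : T = 1 ↔ D.pre s 0 = D.θ 0 ∧ D.θ 0 = D.θ 1 := by
  constructor
  · rintro rfl
    have h1 := G.per hT (-1)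
    have h2 := G.per hT 0
    norm_num at h1 h2
    exact ⟨h1.symm, h2.symm⟩
  · rintro ⟨h1, h2⟩
    by_contra h
    have h3 : 1 < T := lt_of_le_of_ne hT.1 (Ne.symm h)
    refine hT.2.2.2 1 le_rfl h3 ⟨h2.symm, ?_⟩
    have e0 := G.pre_add 0
    have e1 := G.hrec 0
    simp only [zero_add] at e0 e1 ⊢
    rw [e1, ← h2]
    rw [h1, ← h2] at e0
    linear_combination -e0

/-- constant sequences -/
theorem Th_const (h1 : D.pre s 0 = D.θ 0) (h2 : D.θ 0 = D.θ 1) (z : ℤ) : D.Th s z = D.θ 0 := by
  have h0 : D.Th s (-1) = D.Th s 0 := h1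
  have h3 : D.Th s 0 = D.Th s 1 := h2
  have := G.translate (i := -1) (j := 0) h0 (by norm_num; exact h3)
  have up : ∀ n : ℕ, D.Th s n = D.θ 0 := by
    intro n
    induction n with
    | zero => rfl
    | succ n ih =>
      have h4 := this (n + 1)
      rw [show (-1 : ℤ) + (n + 1) = n by ring, zero_add] at h4
      rw [← ih, h4]
      push_cast
      rfl
  have dn : ∀ n : ℕ, D.Th s (-(n : ℤ)) = D.θ 0 := by
    intro n
    induction n with
    | zero => rfl
    | succ n ih =>
      have h4 := this (-(n : ℤ))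
      rw [show (-1 : ℤ) + -(n : ℤ) = -((n + 1 : ℕ) : ℤ) by push_cast; ring, zero_add] at h4
      rw [h4, ih]
  rcases le_or_gt 0 z with h | h
  · obtain ⟨n, rfl⟩ := Int.eq_ofNat_of_zero_le h
    exact up n
  · obtain ⟨n, rfl⟩ : ∃ n : ℕ, z = -(n : ℤ) := ⟨(-z).toNat, by omega⟩
    exact dn n

end Good

namespace Fold

variable {e : ℕ} (F : Fold s D e) (G : Good s D)
include F G

theorem period_loop (h : D.pre s 0 = D.θ 0) (hnc : D.θ 0 ≠ D.θ 1) : D.IsPeriod (e + 1) := by
  have r1 := G.refl_loop h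
  have tr : ∀ z, D.Th s (z + (e + 1)) = D.Th s z := by
    intro z
    rw [F.refl, r1 z]
    congr 1
    ring
  refine ⟨by omega, ?_, ?_, ?_⟩
  · have := tr 0
    rw [zero_add] at this
    exact_mod_cast this
  · have := tr 1
    rw [show (1 : ℤ) + (e + 1) = ((e + 1 + 1 : ℕ) : ℤ) by push_cast; ring] at this
    exact this
  · rintro t ht1 ht2 ⟨h1, h2⟩
    rcases F.zero_iff (by omega) h1 with h3 | h3
    · omega
    · subst h3
      rw [F.Th_succ_e, h] at h2
      exact hnc h2

theorem period_a (h : D.pre s 0 = D.θ 1) : D.IsPeriod e := by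
  have r1 := G.refl_a h
  have tr : ∀ z, D.Th s (z + e) = D.Th s z := by
    intro z
    rw [F.refl, r1 z]
    congr 1
    ring
  refine ⟨F.pos, ?_, ?_, ?_⟩
  · have := tr 0
    rw [zero_add] at this
    exact_mod_cast this
  · have := tr 1
    rw [show (1 : ℤ) + e = ((e + 1 : ℕ) : ℤ) by push_cast; ring] at this
    exact this
  · rintro t ht1 ht2 ⟨h1, h2⟩
    rcases F.zero_iff (by omega) h1 with h3 | h3
    · omega
    · omega

theorem period_b (h : D.Th s (-2) = D.θ 0) (hn1 : D.pre s 0 ≠ D.θ 0) (hn2 : D.pre s 0 ≠ D.θ 1) :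
    D.IsPeriod (e + 2) := by
  have r1 := G.refl_b h
  have tr : ∀ z, D.Th s (z + (e + 2)) = D.Th s z := by
    intro z
    rw [F.refl, r1 z]
    congr 1
    ring
  refine ⟨by omega, ?_, ?_, ?_⟩
  · have := tr 0
    rw [zero_add] at this
    exact_mod_cast this
  · have := tr 1
    rw [show (1 : ℤ) + (e + 2) = ((e + 2 + 1 : ℕ) : ℤ) by push_cast; ring] at this
    exact this
  · rintro t ht1 ht2 ⟨h1, h2⟩
    by_cases h4 : t = e + 1
    · subst h4
      rw [F.Th_succ_e] at h1
      exact hn1 h1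
    · rcases F.zero_iff (by omega) h1 with h3 | h3
      · omega
      · subst h3
        rw [F.Th_succ_e] at h2
        exact hn2 h2

end Fold

end Pool.Agent.Helper9.AW
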