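import Pool.Agent.Helper9.AWEqs

set_option autoImplicit false
set_option linter.unusedSectionVars false
set_option linter.unusedSimpArgs false

namespace Pool.Agent.Helper9.AW

open Polynomial

variable {K : Type*} [Field K] {D : Arr K} {s : Scalars K}

/-- `θ_{-k}` -/
def Arr.neg (s : Scalars K) (D : Arr K) : ℕ → K
  | 0 => D.θ 0
  | 1 => D.pre s 0
  | (k + 2) => s.β * Arr.neg s D (k + 1) + s.γs - Arr.neg s D k

/-- `θ` extended to all integers -/
def Arr.Th (s : Scalars K) (D : Arr K) : ℤ → K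
  | Int.ofNat n => D.θ n
  | Int.negSucc n => D.neg s (n + 1)

theorem Th_nat (n : ℕ) : D.Th s (n : ℤ) = D.θ n := rfl

theorem Th_negnat (n : ℕ) : D.Th s (-(n : ℤ)) = D.neg s n := by
  rcases n with _ | n
  · rfl
  · rfl

theorem Th_m1 : D.Th s (-1) = D.pre s 0 := rfl

theorem Th_pre (j : ℕ) : D.Th s ((j : ℤ) - 1) = D.pre s j := by
  rcases j with _ | j
  · rfl
  · have : (((j + 1 : ℕ) : ℤ) - 1) = (j : ℤ) := by push_cast; ring
    rw [this]
    rfl

theorem Th_rec (hrec : ∀ j, D.θ (j + 2) = s.β * D.θ (j + 1) + s.γs - D.θ j) (z : ℤ) :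
    D.Th s (z + 1) + D.Th s (z - 1) = s.β * D.Th s z + s.γs := by
  rcases le_or_gt 0 z with h | h
  · obtain ⟨n, rfl⟩ := Int.eq_ofNat_of_zero_le h
    rw [Th_pre, pre_add' hrec n]
    have : ((n : ℤ) + 1) = ((n + 1 : ℕ) : ℤ) := by push_cast; ring
    rw [this, Th_nat, Th_nat]
    ring
  · obtain ⟨n, hn⟩ : ∃ n : ℕ, z = -((n + 1 : ℕ) : ℤ) := ⟨(-z - 1).toNat, by omega⟩
    subst hn
    have h1 : -((n + 1 : ℕ) : ℤ) + 1 = -(n : ℤ) := by push_cast; ring
    have h2 : -((n + 1 : ℕ) : ℤ) - 1 = -((n + 2 : ℕ) : ℤ) := by push_cast; ring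
    rw [h1, h2, Th_negnat, Th_negnat, Th_negnat]
    show _ + (s.β * D.neg s (n + 1) + s.γs - D.neg s n) = _
    ring

/-- a sequence satisfying the recurrence is determined by two consecutive values. -/
theorem seq_eq {f g : ℤ → K} {β c : K} (hf : ∀ z, f (z + 1) + f (z - 1) = β * f z + c)
    (hg : ∀ z, g (z + 1) + g (z - 1) = β * g z + c) (h0 : f 0 = g 0) (h1 : f 1 = g 1) (z : ℤ) :
    f z = g z := by
  have up : ∀ n : ℕ, f n = g n ∧ f (n + 1) = g (n + 1) := by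
    intro n
    induction n with
    | zero => exact ⟨by simpa using h0, by simpa using h1⟩
    | succ n ih =>
      refine ⟨by exact_mod_cast ih.2, ?_⟩
      have e1 := hf (n + 1)
      have e2 := hg (n + 1)
      have e3 : ((n : ℤ) + 1 - 1) = n := by ring
      rw [e3, ih.1, ih.2] at e1
      rw [e3] at e2
      have : (((n + 1 : ℕ) : ℤ) + 1) = (n : ℤ) + 1 + 1 := by push_cast; ring
      rw [this]
      linear_combination e1 - e2
  have dn : ∀ n : ℕ, f (-n) = g (-n) ∧ f (-n + 1) = g (-n + 1) := by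
    intro n
    induction n with
    | zero => exact ⟨by simpa using h0, by simpa using h1⟩
    | succ n ih =>
      have e0 : -((n + 1 : ℕ) : ℤ) + 1 = -(n : ℤ) := by push_cast; ring
      rw [e0]
      refine ⟨?_, ih.1⟩
      have e1 := hf (-n)
      have e2 := hg (-n)
      have e3 : -((n + 1 : ℕ) : ℤ) = -(n : ℤ) - 1 := by push_cast; ring
      rw [e3]
      rw [ih.1, ih.2] at e1
      linear_combination e1 - e2
  rcases le_or_gt 0 z with h | h
  · obtain ⟨n, rfl⟩ := Int.eq_ofNat_of_zero_le h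
    exact (up n).1
  · obtain ⟨n, rfl⟩ : ∃ n : ℕ, z = -(n : ℤ) := ⟨(-z).toNat, by omega⟩
    exact (dn n).1

namespace Good

variable (G : Good s D)
include G

theorem Threc (z : ℤ) : D.Th s (z + 1) + D.Th s (z - 1) = s.β * D.Th s z + s.γs :=
  Th_rec G.hrec z

theorem pre_add (j : ℕ) : D.pre s j = s.β * D.θ j + s.γs - D.θ (j + 1) := pre_add' G.hrec j

theorem ThP (z : ℤ) : s.P (D.Th s z) (D.Th s (z + 1)) = 0 := by
  rcases le_or_gt 0 z with h | h
  · obtain ⟨n, rfl⟩ := Int.eq_ofNat_of_zero_le h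
    exact_mod_cast Ppre' G.hrec G.p01 n
  · obtain ⟨n, rfl⟩ : ∃ n : ℕ, z = -(n : ℤ) - 1 := ⟨(-z - 1).toNat, by omega⟩
    have key : ∀ n : ℕ, s.P (D.Th s (-(n : ℤ))) (D.Th s (-(n : ℤ) + 1)) = 0 := by
      intro n
      induction n with
      | zero => exact G.p01
      | succ n ih =>
        have e1 := G.Threc (-(n : ℤ))
        have e2 : -((n + 1 : ℕ) : ℤ) = -(n : ℤ) - 1 := by push_cast; ring
        rw [e2, sub_add_cancel]
        have e3 : D.Th s (-(n : ℤ) - 1) = s.β * D.Th s (-(n : ℤ)) + s.γs - D.Th s (-(n : ℤ) + 1) := by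
          linear_combination e1
        rw [e3]
        simp only [Scalars.P] at ih ⊢
        linear_combination ih
    have := key (n + 1)
    have e2 : -((n + 1 : ℕ) : ℤ) = -(n : ℤ) - 1 := by push_cast; ring
    rwa [e2] at this

theorem ThP_fac (z : ℤ) (y : K) :
    s.P (D.Th s z) y = (y - D.Th s (z - 1)) * (y - D.Th s (z + 1)) := by
  have h1 := G.ThP z
  have h2 := G.Threc z
  have h3 : D.Th s (z - 1) = s.β * D.Th s z + s.γs - D.Th s (z + 1) := by linear_combination h2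
  rw [h3]
  simp only [Scalars.P] at h1 ⊢
  linear_combination h1

theorem reflect {i j : ℤ} (h0 : D.Th s i = D.Th s j) (h1 : D.Th s (i + 1) = D.Th s (j - 1)) (t : ℤ) :
    D.Th s (i + t) = D.Th s (j - t) := by
  refine seq_eq (f := fun t => D.Th s (i + t)) (g := fun t => D.Th s (j - t)) (β := s.β) (c := s.γs)
    (fun z => ?_) (fun z => ?_) (by simpa using h0) h1 t
  · have := G.Threc (i + z)
    rw [show i + (z + 1) = i + z + 1 by ring, show i + (z - 1) = i + z - 1 by ring]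
    exact this
  · have := G.Threc (j - z)
    rw [show j - (z + 1) = j - z - 1 by ring, show j - (z - 1) = j - z + 1 by ring]
    linear_combination this

theorem translate {i j : ℤ} (h0 : D.Th s i = D.Th s j) (h1 : D.Th s (i + 1) = D.Th s (j + 1))
    (t : ℤ) : D.Th s (i + t) = D.Th s (j + t) := by
  refine seq_eq (f := fun t => D.Th s (i + t)) (g := fun t => D.Th s (j + t)) (β := s.β) (c := s.γs)
    (fun z => ?_) (fun z => ?_) (by simpa using h0) h1 t
  · have := G.Threc (i + z)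
    rw [show i + (z + 1) = i + z + 1 by ring, show i + (z - 1) = i + z - 1 by ring]
    exact this
  · have := G.Threc (j + z)
    rw [show j + (z + 1) = j + z + 1 by ring, show j + (z - 1) = j + z - 1 by ring]
    exact this

theorem dichotomy {i j : ℤ} (h0 : D.Th s i = D.Th s j) :
    (∀ t, D.Th s (i + t) = D.Th s (j - t)) ∨ (∀ t, D.Th s (i + t) = D.Th s (j + t)) := by
  have h1 := G.ThP i
  rw [h0, G.ThP_fac j] at h1
  rcases mul_eq_zero.mp h1 with h | h
  · exact Or.inl (G.reflect h0 (sub_eq_zero.mp h))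
  · exact Or.inr (G.translate h0 (sub_eq_zero.mp h))

end Good

/-! ### The Casimir value -/

/-- left Casimir expression at a vertex -/
def Arr.CL (s : Scalars K) (D : Arr K) (j : ℕ) : K :=
  D.w j * (D.θ j - D.pre s (j - 1)) * (D.θ (j + 1) - D.pre s j) +
    D.a j * (D.θ j - D.θ (j + 1)) * (s.γ * (D.pre s j + D.θ j) + s.ω - D.a j * (D.θ j - D.θ (j + 1)))
    + s.ρ * D.pre s j * D.θ j + s.η * (D.pre s j + D.θ j)

/-- right Casimir expression at a vertex -/
def Arr.CR (s : Scalars K) (D : Arr K) (j : ℕ) : K :=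
  D.w (j + 1) * (D.θ (j + 1) - D.pre s j) * (D.θ (j + 2) - D.θ j) +
    D.a j * (D.θ j - D.pre s j) * (s.γ * (D.θ j + D.θ (j + 1)) + s.ω - D.a j * (D.θ j - D.pre s j))
    + s.ρ * D.θ j * D.θ (j + 1) + s.η * (D.θ j + D.θ (j + 1))

theorem CL_sub_CR (j : ℕ) : D.CL s j - D.CR s j = (D.θ (j + 1) - D.pre s j) *
    (D.w j * (D.θ j - D.pre s (j - 1)) + D.w (j + 1) * (D.θ j - D.θ (j + 2)) +
      (2 * D.θ j - D.pre s j - D.θ (j + 1)) * D.a j ^ 2 - (2 * s.γ * D.θ j + s.ω) * D.a j -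
      (s.ρ * D.θ j + s.η)) := by
  simp only [Arr.CL, Arr.CR]
  ring

theorem CR_eq_CL {j : ℕ} (e4 : D.a j * (D.θ j - D.pre s j) + D.a (j + 1) * (D.θ (j + 1) - D.θ (j + 2)) =
      s.γ * (D.θ j + D.θ (j + 1)) + s.ω) : D.CR s j = D.CL s (j + 1) := by
  have h1 : D.a (j + 1) * (D.θ (j + 1) - D.θ (j + 2)) =
      s.γ * (D.θ j + D.θ (j + 1)) + s.ω - D.a j * (D.θ j - D.pre s j) := by linear_combination e4
  simp only [Arr.CL, Arr.CR, Nat.add_sub_cancel]
  have h2 : D.pre s (j + 1) = D.θ j := rfl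
  rw [h2, show j + 1 + 1 = j + 2 from rfl, h1]
  ring

namespace Good

variable (G : Good s D)
include G

theorem w_zero : D.w 0 = 0 := by
  by_contra h
  have := (G.hw 0).mp h
  omega

theorem w_ge {j : ℕ} (h : D.N ≤ j) : D.w j = 0 := by
  by_contra h'
  exact absurd ((G.hw j).mp h').2 (not_lt.mpr h)

theorem w_ne {j : ℕ} (h1 : 1 ≤ j) (h : (j : ℕ∞) < D.N) : D.w j ≠ 0 := (G.hw j).mpr ⟨h1, h⟩

theorem zero_lt : ((0 : ℕ) : ℕ∞) < D.N := lt_of_lt_of_le (by norm_num) G.two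

theorem one_lt : ((1 : ℕ) : ℕ∞) < D.N := lt_of_lt_of_le (by norm_num) G.two

theorem CL_zero : D.CL s 0 = D.κ s := by
  simp only [Arr.CL, Arr.κ, G.w_zero]
  ring

theorem CL_eq_CR {j : ℕ} (hj : (j : ℕ∞) < D.N) : D.CL s j = D.CR s j := by
  have h := CL_sub_CR (s := s) (D := D) j
  have e5 := G.e5 j hj
  rw [sub_eq_zero.mpr e5, mul_zero] at h
  exact sub_eq_zero.mp h

theorem cas {j : ℕ} (hj : (j : ℕ∞) < D.N) : D.CL s j = D.κ s ∧ D.CR s j = D.κ s := by
  induction j with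
  | zero => exact ⟨G.CL_zero, by rw [← G.CL_eq_CR hj, G.CL_zero]⟩
  | succ j ih =>
    have h1 := ih (Tri.lt_of_succ_lt hj)
    have h2 : D.CL s (j + 1) = D.κ s := by rw [← CR_eq_CL (G.e4 j hj), h1.2]
    exact ⟨h2, by rw [← G.CL_eq_CR hj, h2]⟩

/-- the closed formula on a link -/
theorem link {j : ℕ} (hj : ((j + 1 : ℕ) : ℕ∞) < D.N) :
    D.w (j + 1) * (D.θ (j + 1) - D.pre s j) * (D.θ (j + 2) - D.θ j) +
    D.a j * D.a (j + 1) * (D.θ j - D.pre s j) * (D.θ (j + 1) - D.θ (j + 2)) +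
    s.ρ * D.θ j * D.θ (j + 1) + s.η * (D.θ j + D.θ (j + 1)) = D.κ s := by
  have h1 := (G.cas (Tri.lt_of_succ_lt hj)).2
  have e4 := G.e4 j hj
  rw [← h1]
  simp only [Arr.CR]
  linear_combination D.a j * (D.θ j - D.pre s j) * e4

/-- equal eigenvalues (not on a loop) have equal diagonal entries -/
theorem a_eq {i j : ℕ} (hi : (i : ℕ∞) < D.N) (hj : (j : ℕ∞) < D.N) (h : D.θ i = D.θ j)
    (h1 : D.θ j ≠ D.pre s j) (h2 : D.θ j ≠ D.θ (j + 1)) : D.a i = D.a j := by
  have e1 := G.e2 i hi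
  have e2 := G.e2 j hj
  have f1 := P_fac' G.hrec G.p01 i (D.θ i)
  have f2 := P_fac' G.hrec G.p01 j (D.θ j)
  rw [mul_assoc, ← f1, h] at e1
  rw [mul_assoc, ← f2] at e2
  have h3 : s.P (D.θ j) (D.θ j) ≠ 0 := by
    rw [f2]
    exact mul_ne_zero (sub_ne_zero.mpr h1) (sub_ne_zero.mpr h2)
  exact mul_right_cancel₀ h3 (e1.trans e2.symm)

end Good

end Pool.Agent.Helper9.AW
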