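import Pool.Agent.Helper9.AWGen

set_option autoImplicit false
set_option linter.unusedSectionVars false
set_option linter.unusedSimpArgs false

namespace Pool.Agent.Helper9.AW

open Polynomial

variable {K : Type*} [Field K] {D : Arr K} {s : Scalars K} {V : Type*} [AddCommGroup V]
  [Module K V] {A B : V →ₗ[K] V} {v : ℕ → V}

theorem sub_monic {P m : ℕ} (h : m < P) (c : K) :
    (D.p P - C c * D.p m).Monic ∧ (D.p P - C c * D.p m).natDegree = P := by
  have d3 : (C c * D.p m).degree < (D.p P).degree := by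
    refine degree_lt_degree ?_
    rw [p_natDegree]
    refine lt_of_le_of_lt (natDegree_C_mul_le _ _) ?_
    rw [p_natDegree]
    exact h
  constructor
  · exact (p_monic P).sub_of_left d3
  · rw [natDegree_sub_eq_left_of_natDegree_lt, p_natDegree]
    rw [p_natDegree]
    refine lt_of_le_of_lt (natDegree_C_mul_le _ _) ?_
    rw [p_natDegree]
    exact h

theorem q_monic {P : ℕ} (hP : 1 ≤ P) : (D.q P).Monic ∧ (D.q P).natDegree = P := by
  classical
  unfold Arr.q
  split_ifs with h1 h2 h3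
  · subst h1
    exact ⟨monic_X, natDegree_X⟩
  · exact sub_monic (by omega) _
  · exact ⟨p_monic P, p_natDegree P⟩
  · exact sub_monic (by omega) _

theorem Good.Th_of_dvd (G : Good s D) {P : ℕ} (hT : D.IsPeriod P) {z w : ℤ} (h : (P : ℤ) ∣ z - w) :
    D.Th s z = D.Th s w := by
  obtain ⟨k, hk⟩ := h
  have : z = w + k * P := by linear_combination hk
  rw [this, G.per_mul hT]

theorem Tri.comm_of_X0 (T : Tri D A B v) (G : Good s D) (hAW : IsAW s A B) {q : K[X]}
    (h : X0 D A B (aeval A q (v 0))) (x : V) : aeval A q (B x) = B (aeval A q x) := by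
  obtain ⟨f, fA, fB, f0⟩ := T.end_of G hAW _ h.1 h.2
  have h1 := T.end_eq_aeval fA f0
  rw [← h1, ← h1, fB]

/-- an eigenvector is mapped by `A` into the eigenspaces of the neighbours. -/
theorem Tri.c_A_far (T : Tri D A B v) (G : Good s D) (hAW : IsAW s A B) {y : V}
    (hy : B y = D.θ 0 • y) {i : ℕ} (h0 : D.θ i ≠ D.θ 0) (h1 : D.θ i ≠ D.θ 1)
    (h2 : D.θ i ≠ D.pre s 0) : T.c i (A y) = 0 := by
  have hr := congrArg (T.c i) (hAW.2 y)
  simp only [hy, map_smul, map_add, map_sub, T.c_B, smul_eq_mul] at hr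
  rw [T.c_of_eig hy h0] at hr
  have hP := P_fac' G.hrec G.p01 0 (D.θ i)
  simp only [zero_add] at hP
  simp only [Scalars.P] at hP
  have h3 : (D.θ i - D.pre s 0) * (D.θ i - D.θ 1) * T.c i (A y) = 0 := by
    rw [← hP]
    linear_combination hr
  rcases mul_eq_zero.mp h3 with h4 | h4
  · rcases mul_eq_zero.mp h4 with h5 | h5
    · exact absurd (sub_eq_zero.mp h5) h2
    · exact absurd (sub_eq_zero.mp h5) h1
  · exact h4

/-- diagonal entry at a vertex that is not a loop -/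
theorem Tri.c_A_diag (T : Tri D A B v) (G : Good s D) (hAW : IsAW s A B) {y : V}
    (hy : B y = D.θ 0 • y) {i : ℕ} (h0 : D.θ i = D.θ 0) (h1 : D.θ 0 ≠ D.θ 1)
    (h2 : D.θ 0 ≠ D.pre s 0) : T.c i (A y) = D.a 0 * T.c i y := by
  have hr := congrArg (T.c i) (hAW.2 y)
  simp only [hy, map_smul, map_add, map_sub, T.c_B, smul_eq_mul] at hr
  rw [h0] at hr
  have hP := P_fac' G.hrec G.p01 0 (D.θ 0)
  have e2 := G.e2 0 G.zero_lt
  simp only [zero_add] at hP e2
  simp only [Scalars.P] at hP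
  simp only [Scalars.R] at e2
  have h3 : (D.θ 0 - D.pre s 0) * (D.θ 0 - D.θ 1) * (T.c i (A y) - D.a 0 * T.c i y) = 0 := by
    have e3 : (D.θ 0 - D.pre s 0) * (D.θ 0 - D.θ 1) * T.c i (A y) =
      (s.γ * D.θ 0 ^ 2 + s.ω * D.θ 0 + s.ηs) * T.c i y := by
      rw [← hP]
      linear_combination hr
    rw [← e2] at e3
    linear_combination e3
  rcases mul_eq_zero.mp h3 with h4 | h4
  · rcases mul_eq_zero.mp h4 with h5 | h5
    · exact absurd (sub_eq_zero.mp h5) h2
    · exact absurd (sub_eq_zero.mp h5) h1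
  · exact sub_eq_zero.mp h4

/-- the condition of being special, in coordinates -/
theorem Tri.X0_of (T : Tri D A B v) (G : Good s D) (hAW : IsAW s A B) {y : V}
    (hy : B y = D.θ 0 • y)
    (hd : D.θ 0 ≠ D.θ 1 → ∀ i : ℕ, D.θ i = D.θ 0 → T.c i (A y) = D.a 0 * T.c i y)
    (hp : D.pre s 0 ≠ D.θ 1 → D.pre s 0 ≠ D.θ 0 → ∀ i : ℕ, D.θ i = D.pre s 0 → T.c i (A y) = 0) :
    X0 D A B y := by
  refine ⟨hy, ?_⟩
  refine T.eig_of_c fun i hi => ?_
  rw [map_sub, map_smul, smul_eq_mul]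
  by_cases h0 : D.θ i = D.θ 0
  · rw [hd (fun h => hi (h0.trans h)) i h0, sub_self]
  · rw [T.c_of_eig hy h0, mul_zero, sub_zero]
    by_cases h2 : D.θ i = D.pre s 0
    · exact hp (fun h => hi (h2.trans h)) (fun h => h0 (h2.trans h)) i h2
    · exact T.c_A_far G hAW hy h0 hi h2

/-! ### constant sequences -/

theorem gen_const (T : Tri D A B v) (G : Good s D) (h1 : D.pre s 0 = D.θ 0) (h2 : D.θ 0 = D.θ 1) :
    Gen T 1 (D.q 1) := by
  have hB : ∀ x, B x = D.θ 0 • x := by
    intro x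
    refine T.eig_of_c fun i hi => ?_
    exact absurd (G.Th_const h1 h2 i) hi
  refine ⟨le_rfl, (q_monic le_rfl).1, (q_monic le_rfl).2, fun _ x => ?_, fun _ _ l _ _ _ => one_dvd l,
    fun U hU h x hx => ?_⟩
  · rw [hB, hB, map_smul]
  · rw [h x hx ⟨hB x, by rw [← h2]; exact hB _⟩, map_zero]

/-! ### start type (a) -/

section typeA

variable (T : Tri D A B v) (G : Good s D) (hAW : IsAW s A B) {P : ℕ} (hT : D.IsPeriod P)
  (ha : D.pre s 0 = D.θ 1) (hnc : D.θ 0 ≠ D.θ 1)
include G hT ha hnc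

omit hT in
theorem period_ge_two_a (hT : D.IsPeriod P) : 2 ≤ P := by
  rcases Nat.lt_or_ge P 2 with h | h
  · have hP : P = 1 := by have := hT.1; omega
    have := (G.T_one_iff hT).mp hP
    exact absurd this.2 hnc
  · exact h

theorem typeA_q : D.q P = D.p P := by
  have hP2 := period_ge_two_a G ha hnc hT
  have h1 : D.θ (P - 1) = D.pre s 0 := by
    have : D.Th s ((P - 1 : ℕ) : ℤ) = D.Th s (-1) := G.Th_of_dvd hT (by
      have : ((P - 1 : ℕ) : ℤ) - (-1) = (P : ℤ) := by omega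
      rw [this])
    exact this
  unfold Arr.q
  rw [if_neg (by omega), if_neg (by rw [h1, ha]; exact hnc.symm), if_pos (by rw [h1, ha])]

include T hAW

theorem typeA_comm (hPN : (P : ℕ∞) < D.N) (x : V) :
    aeval A (D.q P) (B x) = B (aeval A (D.q P) x) := by
  have hP2 := period_ge_two_a G ha hnc hT
  refine T.comm_of_X0 G hAW ?_ x
  rw [typeA_q G hT ha hnc, T.v_aeval]
  have hy : B (v P) = D.θ 0 • v P := by rw [T.hB, hT.2.1]
  refine T.X0_of G hAW hy (fun _ i hi => T.c_A_diag G hAW hy hi hnc (by rw [ha]; exact hnc))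
    (fun h => absurd ha h)

theorem gen_a {n : ℕ} (hN : D.N = ((n * P : ℕ) : ℕ∞)) : Gen T P (D.q P) := by
  have hP2 := period_ge_two_a G ha hnc hT
  refine ⟨hT.1, (q_monic hT.1).1, (q_monic hT.1).2, fun hPN x => typeA_comm T G hAW hT ha hnc hPN x,
    fun u hu l hl hc _ => ?_, fun U hU h x hx => ?_⟩
  · have h1 : D.θ l = D.θ 0 := by
      by_contra h
      exact hc (T.c_of_eig hu.1 h)
    rcases G.class_of hT (G.refl_a ha) (i := 0) (j := (l : ℤ)) h1.symm with h2 | h2
    · rw [sub_zero] at h2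
      exact_mod_cast h2
    · rw [zero_add, sub_zero] at h2
      exact_mod_cast h2
  · have hy : B (T.π (D.θ 0) x) = D.θ 0 • T.π (D.θ 0) x := T.B_π _ _
    have h1 := h _ (T.π_mem hU.2 (D.θ 0) hx) (T.X0_of G hAW hy
      (fun _ i hi => T.c_A_diag G hAW hy hi hnc (by rw [ha]; exact hnc)) (fun h => absurd ha h))
    rw [← T.c_π_pos rfl x, h1, map_zero]

end typeA

end Pool.Agent.Helper9.AW
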