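import Pool.Agent.Helper9.AWT3

set_option autoImplicit false
set_option linter.unusedSectionVars false
set_option linter.unusedSimpArgs false
set_option linter.unusedVariables false

namespace Pool.Agent.Helper9.AW

open Polynomial

variable {K : Type*} [Field K] {D : Arr K} {s : Scalars K} {V : Type*} [AddCommGroup V]
  [Module K V] {A B : V →ₗ[K] V} {v : ℕ → V}

/-! ### start type (L): a loop -/

section typeL

variable (T : Tri D A B v) (G : Good s D) (hAW : IsAW s A B) {P : ℕ} (hT : D.IsPeriod P)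
  (hL : D.pre s 0 = D.θ 0) (hnc : D.θ 0 ≠ D.θ 1)
include G hL

/-- the identity at a loop link -/
theorem loop_w {j : ℕ} (hj : ((j + 1 : ℕ) : ℕ∞) < D.N) (hnc : D.θ 0 ≠ D.θ 1) (h0 : D.θ j = D.θ 0)
    (h1 : D.θ (j + 1) = D.θ 0) (h2 : D.θ (j + 2) = D.θ 1) (hp : D.pre s j = D.θ 1) :
    D.w (j + 1) = (D.a (j + 1) - D.a 0) * (D.a j - D.a 0) ∧
      (D.a j + D.a (j + 1)) * (D.θ 0 - D.θ 1) = 2 * s.γ * D.θ 0 + s.ω := by
  have L := G.link hj
  have e4 := G.e4 j hj
  have hk : D.κ s = D.a 0 * (D.θ 0 - D.θ 1) * (2 * s.γ * D.θ 0 + s.ω - D.a 0 * (D.θ 0 - D.θ 1)) +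
    s.ρ * D.θ 0 * D.θ 0 + 2 * s.η * D.θ 0 := by
    simp only [Arr.κ, hL]
    ring
  rw [hk, h0, h1, h2, hp] at L
  rw [h0, h1, h2, hp] at e4
  have e4' : (D.a j + D.a (j + 1)) * (D.θ 0 - D.θ 1) = 2 * s.γ * D.θ 0 + s.ω := by
    linear_combination e4
  refine ⟨?_, e4'⟩
  have hne : (D.θ 0 - D.θ 1) ^ 2 ≠ 0 := pow_ne_zero 2 (sub_ne_zero.mpr hnc)
  apply mul_left_cancel₀ hne
  rw [← e4'] at L
  linear_combination -L

/-- the identity at a loop end -/
theorem loop_end {m : ℕ} (hN : D.N = ((m + 1 : ℕ) : ℕ∞)) (hnc : D.θ 0 ≠ D.θ 1) (h0 : D.θ m = D.θ 0)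
    (h1 : D.θ (m + 1) = D.θ 0) (hp : D.pre s m = D.θ 1) (ha : D.a m ≠ D.a 0) :
    (D.a m + D.a 0) * (D.θ 0 - D.θ 1) = 2 * s.γ * D.θ 0 + s.ω := by
  have hm : (m : ℕ∞) < D.N := by rw [hN]; exact_mod_cast Nat.lt_succ_self m
  have R := (G.cas hm).2
  have hk : D.κ s = D.a 0 * (D.θ 0 - D.θ 1) * (2 * s.γ * D.θ 0 + s.ω - D.a 0 * (D.θ 0 - D.θ 1)) +
    s.ρ * D.θ 0 * D.θ 0 + 2 * s.η * D.θ 0 := by
    simp only [Arr.κ, hL]
    ring
  simp only [Arr.CR] at R
  rw [G.w_ge (by rw [hN]), h0, h1, hp, hk] at R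
  have hne : (D.θ 0 - D.θ 1) ≠ 0 := sub_ne_zero.mpr hnc
  have ha' : D.a m - D.a 0 ≠ 0 := sub_ne_zero.mpr ha
  apply mul_left_cancel₀ (mul_ne_zero hne ha')
  linear_combination -R

include hT hnc

theorem typeL_idx {j : ℕ} (h : P ∣ j + 1) :
    D.θ j = D.θ 0 ∧ D.θ (j + 1) = D.θ 0 ∧ D.θ (j + 2) = D.θ 1 ∧ D.pre s j = D.θ 1 := by
  have hd : ∀ k : ℤ, (P : ℤ) ∣ ((j : ℤ) + k) - (-1 + k) := by
    intro k
    have h1 : ((j : ℤ) + k) - (-1 + k) = ((j + 1 : ℕ) : ℤ) := by push_cast; ring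
    rw [h1]
    exact_mod_cast h
  have key : ∀ k : ℤ, D.Th s ((j : ℤ) + k) = D.Th s (-1 + k) := fun k => G.Th_of_dvd hT (hd k)
  have k0 := key 0
  have k1 := key 1
  have k2 := key 2
  have k3 := key (-1)
  refine ⟨?_, ?_, ?_, ?_⟩
  · rw [add_zero, add_zero, Th_m1, hL] at k0
    exact k0
  · rw [show (j : ℤ) + 1 = ((j + 1 : ℕ) : ℤ) by push_cast; ring] at k1
    exact k1
  · rw [show (j : ℤ) + 2 = ((j + 2 : ℕ) : ℤ) by push_cast; ring] at k2
    exact k2
  · rw [← sub_eq_add_neg, Th_pre] at k3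
    rw [k3, G.refl_loop hL]
    rfl

theorem typeL_ge3 : 3 ≤ P := by
  have hP1 : P ≠ 1 := fun h => hnc ((G.T_one_iff hT).mp h).2
  have hP2 : P ≠ 2 := by
    intro h
    have := (typeL_idx G hT hL hnc (j := 1) (by rw [h])).1
    exact hnc this.symm
  have := hT.1
  omega

theorem typeL_class {l : ℕ} (h : D.θ l = D.θ 0) : P ∣ l ∨ P ∣ l + 1 := by
  rcases G.class_of hT (G.refl_loop hL) (i := 0) (j := (l : ℤ)) h.symm with h2 | h2
  · left
    rw [sub_zero] at h2
    exact_mod_cast h2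
  · right
    rw [zero_add, sub_neg_eq_add] at h2
    exact_mod_cast h2

theorem typeL_q : D.q P = D.p P - C (D.a P - D.a 0) * D.p (P - 1) := by
  have h3 := typeL_ge3 G hT hL hnc
  have h1 := (typeL_idx G hT hL hnc (j := P - 1) (by rw [Nat.sub_add_cancel hT.1])).1
  unfold Arr.q
  rw [if_neg (by omega), if_pos h1]

include T hAW

theorem typeL_comm (hPN : (P : ℕ∞) < D.N) (x : V) :
    aeval A (D.q P) (B x) = B (aeval A (D.q P) x) := by
  have hP3 := typeL_ge3 G hT hL hnc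
  refine T.comm_of_X0 G hAW ?_ x
  rw [typeL_q G hT hL hnc]
  obtain ⟨t, rfl⟩ : ∃ t, P = t + 2 := ⟨P - 2, by omega⟩
  obtain ⟨i0, i1, i2, i3⟩ := typeL_idx G hT hL hnc (j := t + 1) (dvd_refl _)
  obtain ⟨hw, _⟩ := loop_w G hL hPN hnc i0 i1 i2 i3
  have i3' : D.θ t = D.θ 1 := i3
  rw [show t + 2 - 1 = t + 1 from rfl, map_sub, LinearMap.sub_apply, map_mul, aeval_C,
    Module.End.mul_apply, Module.algebraMap_end_apply, T.v_aeval, T.v_aeval]
  rw [show t + 1 + 1 = t + 2 from rfl] at *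
  refine ⟨?_, ?_⟩
  · rw [map_sub, map_smul, T.hB, T.hB, i0, i1]
    module
  · have e : A (v (t + 2) - (D.a (t + 2) - D.a 0) • v (t + 1)) -
        D.a 0 • (v (t + 2) - (D.a (t + 2) - D.a 0) • v (t + 1)) =
        v (t + 3) - ((D.a (t + 2) - D.a 0) * D.w (t + 1)) • v t := by
      rw [map_sub, map_smul, T.A_succ, T.A_succ]
      rw [show t + 1 + 1 = t + 2 from rfl, hw]
      module
    rw [e, map_sub, map_smul, T.hB, T.hB, i3', show t + 3 = t + 1 + 2 from rfl, i2]
    module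

theorem gen_L {n : ℕ} (hN : D.N = ((n * P : ℕ) : ℕ∞)) (ha : D.a (n * P - 1) ≠ D.a 0) :
    Gen T P (D.q P) := by
  have hP3 := typeL_ge3 G hT hL hnc
  have hn0 : 1 ≤ n := by
    rcases Nat.eq_zero_or_pos n with h | h
    · exfalso
      have := G.two
      rw [hN, h] at this
      simp at this
    · exact h
  have hnP : P ≤ n * P := Nat.le_mul_of_pos_left P hn0
  refine ⟨hT.1, (q_monic hT.1).1, (q_monic hT.1).2,
    fun hPN x => typeL_comm T G hAW hT hL hnc hPN x,
    fun u hu l hl hc hlead => ?_, fun U hU h x hx => ?_⟩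
  · -- the leading index
    have h1 : D.θ l = D.θ 0 := by
      by_contra h
      exact hc (T.c_of_eig hu.1 h)
    rcases typeL_class G hT hL hnc h1 with h2 | h2
    · exact h2
    exfalso
    obtain ⟨i0, i1, i2, i3⟩ := typeL_idx G hT hL hnc h2
    have hX : ∀ i : ℕ, D.θ i = D.θ 0 → T.c i (A u) = D.a 0 * T.c i u := by
      intro i hi
      have := T.c_of_eig hu.2 (i := i) (by rw [hi]; exact hnc)
      rw [map_sub, map_smul, smul_eq_mul] at this
      exact sub_eq_zero.mp this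
    by_cases hlN : ((l + 1 : ℕ) : ℕ∞) < D.N
    · have e := hX (l + 1) i1
      rw [T.c_A_succ hlN, hlead (l + 1) (by omega), hlead (l + 2) (by omega)] at e
      apply hc
      linear_combination e
    · have hlN' : l + 1 = n * P := by
        have h3 : n * P ≤ l + 1 := by
          rw [hN] at hlN
          exact_mod_cast not_lt.mp hlN
        have h4 : l < n * P := by rw [hN] at hl; exact_mod_cast hl
        omega
      obtain ⟨k, rfl⟩ : ∃ k, l = k + 1 := ⟨l - 1, by omega⟩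
      have e := hX (k + 1) i0
      rw [T.c_A_succ hl, hlead (k + 2) (by omega), T.c_of_eig hu.1 (i := k) (by
        have : D.θ k = D.θ 1 := i3
        rw [this]; exact hnc.symm)] at e
      rw [← hlN', Nat.add_sub_cancel] at ha
      have e' : (D.a (k + 1) - D.a 0) * T.c (k + 1) u = 0 := by linear_combination e
      rcases mul_eq_zero.mp e' with h3 | h3
      · exact ha (sub_eq_zero.mp h3)
      · exact hc h3
  · -- the coordinate functional
    set M := n * P - 1 with hM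
    have hN' : D.N = ((M + 1 : ℕ) : ℕ∞) := by rw [hN]; congr 1; omega
    have hdM : P ∣ M + 1 := ⟨n, by rw [hM, Nat.sub_add_cancel (by omega), mul_comm]⟩
    obtain ⟨j0, j1, j2, j3⟩ := typeL_idx G hT hL hnc hdM
    have hs := loop_end G hL hN' hnc j0 j1 j3 ha
    set x0 := T.π (D.θ 0) x with hx0
    have hx0B : B x0 = D.θ 0 • x0 := T.B_π _ _
    have hx0U : x0 ∈ U := T.π_mem hU.2 _ hx
    have c0x : T.c 0 x0 = T.c 0 x := T.c_π_pos rfl x
    set y := T.π (D.θ 0) (A x0) - D.a M • x0 with hy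
    have hyU : y ∈ U := U.sub_mem (T.π_mem hU.2 _ (hU.1 _ hx0U)) (U.smul_mem _ hx0U)
    have hyB : B y = D.θ 0 • y := by
      rw [hy, map_sub, T.B_π, map_smul, hx0B, smul_sub, smul_comm (D.a M)]
    have cy : ∀ i : ℕ, D.θ i = D.θ 0 → T.c i y = T.c i (A x0) - D.a M * T.c i x0 := by
      intro i hi
      rw [hy, map_sub, map_smul, smul_eq_mul, T.c_π_pos hi]
    have hne1 : ∀ i : ℕ, D.θ i = D.θ 1 → D.θ i ≠ D.θ 0 := fun i hi h' => hnc (h'.symm.trans hi)
    -- coordinates of `A z` for an eigenvector `z`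
    have zero_c : ∀ z : V, B z = D.θ 0 • z → T.c 0 (A z) = D.a 0 * T.c 0 z := by
      intro z hz
      rw [T.c_A_zero, T.c_of_eig hz hnc.symm]
      ring
    have up_c : ∀ z : V, B z = D.θ 0 • z → ∀ j : ℕ, P ∣ j + 1 → ((j + 1 : ℕ) : ℕ∞) < D.N →
        T.c (j + 1) (A z) = T.c j z + D.a (j + 1) * T.c (j + 1) z := by
      intro z hz j hj hjN
      obtain ⟨_, _, i2, _⟩ := typeL_idx G hT hL hnc hj
      rw [T.c_A_succ hjN, T.c_of_eig hz (hne1 _ i2)]
      ring
    have dn_c : ∀ z : V, B z = D.θ 0 • z → ∀ j : ℕ, P ∣ j + 1 → ((j : ℕ) : ℕ∞) < D.N →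
        T.c j (A z) = D.a j * T.c j z + D.w (j + 1) * T.c (j + 1) z := by
      intro z hz j hj hjN
      obtain ⟨_, _, _, i3⟩ := typeL_idx G hT hL hnc hj
      have hj3 : P ≤ j + 1 := Nat.le_of_dvd (by omega) hj
      obtain ⟨k, rfl⟩ : ∃ k, j = k + 1 := ⟨j - 1, by omega⟩
      rw [T.c_A_succ hjN, T.c_of_eig hz (hne1 k i3)]
      ring
    have hX : X0 D A B y := by
      refine T.X0_of G hAW hyB (fun _ i hi => ?_) (fun _ h' => absurd hL h')
      by_cases hiN : (i : ℕ∞) < D.N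
      swap
      · rw [T.c_ge (not_lt.mp hiN), T.c_ge (not_lt.mp hiN), mul_zero]
      rcases typeL_class G hT hL hnc hi with h2 | h2
      · rcases Nat.eq_zero_or_pos i with h3 | h3
        · rw [h3]; exact zero_c y hyB
        · obtain ⟨j, rfl⟩ : ∃ j, i = j + 1 := ⟨i - 1, by omega⟩
          obtain ⟨i0, i1, i2, i3⟩ := typeL_idx G hT hL hnc h2
          obtain ⟨hw, hs'⟩ := loop_w G hL hiN hnc i0 i1 i2 i3
          have hsum : D.a j + D.a (j + 1) = D.a M + D.a 0 := by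
            apply mul_right_cancel₀ (sub_ne_zero.mpr hnc)
            rw [hs', hs]
          rw [up_c y hyB j h2 hiN, cy j i0, cy (j + 1) i1, up_c x0 hx0B j h2 hiN,
            dn_c x0 hx0B j h2 (Tri.lt_of_succ_lt hiN), hw]
          have : D.a M = D.a j + D.a (j + 1) - D.a 0 := by linear_combination -hsum
          rw [this]
          ring
      · obtain ⟨i0, i1, i2, i3⟩ := typeL_idx G hT hL hnc h2
        by_cases hiN' : ((i + 1 : ℕ) : ℕ∞) < D.N
        · obtain ⟨hw, hs'⟩ := loop_w G hL hiN' hnc i0 i1 i2 i3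
          have hsum : D.a i + D.a (i + 1) = D.a M + D.a 0 := by
            apply mul_right_cancel₀ (sub_ne_zero.mpr hnc)
            rw [hs', hs]
          rw [dn_c y hyB i h2 hiN, cy i i0, cy (i + 1) i1, up_c x0 hx0B i h2 hiN',
            dn_c x0 hx0B i h2 hiN, hw]
          have : D.a M = D.a i + D.a (i + 1) - D.a 0 := by linear_combination -hsum
          rw [this]
          ring
        · have hiM : i = M := by
            rw [hN'] at hiN hiN'
            have h3 : i < M + 1 := by exact_mod_cast hiN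
            have h4 : M + 1 ≤ i + 1 := by exact_mod_cast not_lt.mp hiN'
            omega
          have hc1 : ∀ z : V, T.c (i + 1) z = 0 := fun z => T.c_ge (not_lt.mp hiN') z
          rw [dn_c y hyB i h2 hiN, cy i i0, dn_c x0 hx0B i h2 hiN, hc1, hc1, hiM]
          ring
    have hy0 := h y hyU hX
    have e := cy 0 rfl
    rw [hy0, map_zero, zero_c x0 hx0B, c0x] at e
    have e' : (D.a M - D.a 0) * T.c 0 x = 0 := by linear_combination e
    rcases mul_eq_zero.mp e' with h3 | h3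
    · exact absurd (sub_eq_zero.mp h3) ha
    · exact h3

end typeL

/-! ### start type (b) -/

section typeB

variable (T : Tri D A B v) (G : Good s D) (hAW : IsAW s A B) {P : ℕ} (hT : D.IsPeriod P)
  (hb : D.Th s (-2) = D.θ 0) (hn0 : D.pre s 0 ≠ D.θ 0) (hn1 : D.pre s 0 ≠ D.θ 1)
include G hb hT hn0 hn1

theorem typeB_idx {j : ℕ} (h : P ∣ j + 2) :
    D.θ j = D.θ 0 ∧ D.θ (j + 1) = D.pre s 0 ∧ D.θ (j + 2) = D.θ 0 ∧ D.θ (j + 3) = D.θ 1 ∧
      D.pre s j = D.θ 1 := by
  have hd : ∀ k : ℤ, (P : ℤ) ∣ ((j : ℤ) + k) - (-2 + k) := by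
    intro k
    have h1 : ((j : ℤ) + k) - (-2 + k) = ((j + 2 : ℕ) : ℤ) := by push_cast; ring
    rw [h1]
    exact_mod_cast h
  have key : ∀ k : ℤ, D.Th s ((j : ℤ) + k) = D.Th s (-2 + k) := fun k => G.Th_of_dvd hT (hd k)
  have k0 := key 0
  have k1 := key 1
  have k2 := key 2
  have k3 := key 3
  have k4 := key (-1)
  refine ⟨?_, ?_, ?_, ?_, ?_⟩
  · rw [add_zero, add_zero, hb] at k0
    exact k0
  · rw [show (j : ℤ) + 1 = ((j + 1 : ℕ) : ℤ) by push_cast; ring] at k1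
    exact k1
  · rw [show (j : ℤ) + 2 = ((j + 2 : ℕ) : ℤ) by push_cast; ring] at k2
    exact k2
  · rw [show (j : ℤ) + 3 = ((j + 3 : ℕ) : ℤ) by push_cast; ring] at k3
    exact k3
  · rw [← sub_eq_add_neg, Th_pre] at k4
    rw [k4, G.refl_b hb]
    rfl

theorem typeB_ge3 : 3 ≤ P := by
  have hP1 : P ≠ 1 := fun h => hn0 ((G.T_one_iff hT).mp h).1
  have hP2 : P ≠ 2 := by
    intro h
    have := (typeB_idx G hT hb hn0 hn1 (j := 0) (by rw [h])).2.1
    exact hn1 this.symm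
  have := hT.1
  omega

theorem typeB_class {l : ℕ} (h : D.θ l = D.θ 0) : P ∣ l ∨ P ∣ l + 2 := by
  rcases G.class_of hT (G.refl_b hb) (i := 0) (j := (l : ℤ)) h.symm with h2 | h2
  · left
    rw [sub_zero] at h2
    exact_mod_cast h2
  · right
    rw [zero_add, sub_neg_eq_add] at h2
    exact_mod_cast h2

theorem typeB_class_p {l : ℕ} (h : D.θ l = D.pre s 0) : P ∣ l + 1 := by
  have h' : D.Th s (-1) = D.Th s (l : ℤ) := h.symm
  rcases G.class_of hT (G.refl_b hb) (i := -1) (j := (l : ℤ)) h' with h2 | h2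
  · rw [sub_neg_eq_add] at h2
    exact_mod_cast h2
  · rw [show (-1 : ℤ) + l - -2 = ((l + 1 : ℕ) : ℤ) by push_cast; ring] at h2
    exact_mod_cast h2

theorem typeB_q : D.q P = D.p P - C (D.w P) * D.p (P - 2) := by
  have h3 := typeB_ge3 G hT hb hn0 hn1
  obtain ⟨t, rfl⟩ : ∃ t, P = t + 2 := ⟨P - 2, by omega⟩
  have h1 := (typeB_idx G hT hb hn0 hn1 (j := t) (dvd_refl _)).2.1
  unfold Arr.q
  rw [if_neg (by omega), if_neg, if_neg]
  · rw [show t + 2 - 1 = t + 1 from rfl, h1]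
    exact hn1
  · rw [show t + 2 - 1 = t + 1 from rfl, h1]
    exact hn0

/-- the sum of the two links at the centre -/
theorem typeB_sum {i j : ℕ} (hi : P ∣ i + 2) (hj : P ∣ j + 2) (hiN : ((i + 1 : ℕ) : ℕ∞) < D.N)
    (hjN : ((j + 1 : ℕ) : ℕ∞) < D.N) :
    D.w (i + 1) + D.w (i + 2) = D.w (j + 1) + D.w (j + 2) := by
  obtain ⟨i0, i1, i2, i3, i4⟩ := typeB_idx G hT hb hn0 hn1 hi
  obtain ⟨j0, j1, j2, j3, j4⟩ := typeB_idx G hT hb hn0 hn1 hj
  have e := G.e5 (i + 1) hiN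
  have f := G.e5 (j + 1) hjN
  have ha : D.a (i + 1) = D.a (j + 1) := by
    refine G.a_eq hiN hjN (by rw [i1, j1]) ?_ ?_
    · rw [j1]
      show _ ≠ D.θ j
      rw [j0]; exact hn0
    · rw [j1, j2]; exact hn0
  have p1 : D.pre s (i + 1) = D.θ 0 := i0
  have p2 : D.pre s (j + 1) = D.θ 0 := j0
  rw [Nat.add_sub_cancel, i1, i4, p1, show i + 1 + 2 = i + 3 from rfl, i3,
    show i + 1 + 1 = i + 2 from rfl, i2, ha] at e
  rw [Nat.add_sub_cancel, j1, j4, p2, show j + 1 + 2 = j + 3 from rfl, j3,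
    show j + 1 + 1 = j + 2 from rfl, j2] at f
  apply mul_right_cancel₀ (sub_ne_zero.mpr hn1)
  linear_combination e - f

include T hAW

theorem typeB_comm (hPN : (P : ℕ∞) < D.N) (x : V) :
    aeval A (D.q P) (B x) = B (aeval A (D.q P) x) := by
  have hP3 := typeB_ge3 G hT hb hn0 hn1
  refine T.comm_of_X0 G hAW ?_ x
  rw [typeB_q G hT hb hn0 hn1]
  obtain ⟨t, rfl⟩ : ∃ t, P = t + 3 := ⟨P - 3, by omega⟩
  obtain ⟨i0, i1, i2, i3, i4⟩ := typeB_idx G hT hb hn0 hn1 (j := t + 1) (dvd_refl _)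
  have i4' : D.θ t = D.θ 1 := i4
  rw [show t + 3 - 2 = t + 1 from rfl, map_sub, LinearMap.sub_apply, map_mul, aeval_C,
    Module.End.mul_apply, Module.algebraMap_end_apply, T.v_aeval, T.v_aeval]
  simp only [show t + 1 + 1 = t + 2 from rfl, show t + 1 + 2 = t + 3 from rfl,
    show t + 1 + 3 = t + 4 from rfl] at *
  refine ⟨?_, ?_⟩
  · rw [map_sub, map_smul, T.hB, T.hB, i0, i2]
    module
  · have e : A (v (t + 3) - D.w (t + 3) • v (t + 1)) -
        D.a 0 • (v (t + 3) - D.w (t + 3) • v (t + 1)) =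
        v (t + 4) + (D.a (t + 3) - D.a 0) • v (t + 3) -
          (D.w (t + 3) * (D.a (t + 1) - D.a 0)) • v (t + 1) -
          (D.w (t + 3) * D.w (t + 1)) • v t := by
      rw [map_sub, map_smul, T.A_succ, T.A_succ]
      simp only [show t + 2 + 1 = t + 3 from rfl, show t + 2 + 2 = t + 4 from rfl]
      module
    rw [e]
    by_cases h01 : D.θ 0 = D.θ 1
    · simp only [map_sub, map_add, map_smul, T.hB, i0, i2, i3, i4', h01]
      module
    · have ha1 : D.a (t + 3) = D.a 0 :=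
        G.a_eq hPN G.zero_lt i2 (fun h => hn0 h.symm) h01
      have ha2 : D.a (t + 1) = D.a 0 :=
        G.a_eq (Tri.lt_mono hPN (by omega)) G.zero_lt i0 (fun h => hn0 h.symm) h01
      rw [ha1, ha2]
      simp only [map_sub, map_add, map_smul, T.hB, i0, i2, i3, i4']
      module

theorem gen_b {n : ℕ} (hN : D.N = ((n * P : ℕ) : ℕ∞)) : Gen T P (D.q P) := by
  have hP3 := typeB_ge3 G hT hb hn0 hn1
  have hn0' : 1 ≤ n := by
    rcases Nat.eq_zero_or_pos n with h | h
    · exfalso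
      have := G.two
      rw [hN, h] at this
      simp at this
    · exact h
  have hnP : P ≤ n * P := Nat.le_mul_of_pos_left P hn0'
  -- indices with `P ∣ l + 2` are followed by another index
  have next : ∀ l : ℕ, P ∣ l + 2 → (l : ℕ∞) < D.N → ((l + 1 : ℕ) : ℕ∞) < D.N := by
    intro l hl hlN
    rw [hN] at hlN ⊢
    have h1 : l < n * P := by exact_mod_cast hlN
    have h2 : l + 1 ≠ n * P := by
      intro h
      have h3 : P ∣ (l + 2) - (l + 1) := Nat.dvd_sub hl (by rw [h]; exact dvd_mul_left P n)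
      rw [show l + 2 - (l + 1) = 1 by omega] at h3
      have := Nat.le_of_dvd (by norm_num) h3
      omega
    exact_mod_cast (by omega : l + 1 < n * P)
  refine ⟨hT.1, (q_monic hT.1).1, (q_monic hT.1).2,
    fun hPN x => typeB_comm T G hAW hT hb hn0 hn1 hPN x,
    fun u hu l hl hc hlead => ?_, fun U hU h x hx => ?_⟩
  · have h1 : D.θ l = D.θ 0 := by
      by_contra h
      exact hc (T.c_of_eig hu.1 h)
    rcases typeB_class G hT hb hn0 hn1 h1 with h2 | h2
    · exact h2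
    exfalso
    obtain ⟨i0, i1, i2, i3, i4⟩ := typeB_idx G hT hb hn0 hn1 h2
    have hlN := next l h2 hl
    have e := T.c_of_eig hu.2 (i := l + 1) (by rw [i1]; exact hn1)
    rw [map_sub, map_smul, smul_eq_mul, T.c_A_succ hlN, hlead (l + 1) (by omega),
      hlead (l + 2) (by omega)] at e
    apply hc
    linear_combination e
  · -- the coordinate functional
    obtain ⟨M, hM⟩ : ∃ M, n * P = M + 2 := ⟨n * P - 2, by omega⟩
    have hdM : P ∣ M + 2 := by rw [← hM]; exact dvd_mul_left P n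
    have hN' : D.N = ((M + 2 : ℕ) : ℕ∞) := by rw [hN, hM]
    have hM1 : ((M + 1 : ℕ) : ℕ∞) < D.N := by rw [hN']; exact_mod_cast Nat.lt_succ_self _
    set c := D.w (M + 1) with hc
    have hc0 : c ≠ 0 := G.w_ne (by omega) hM1
    have hwM2 : D.w (M + 2) = 0 := G.w_ge (by rw [hN'])
    have hsum : ∀ j : ℕ, P ∣ j + 2 → ((j + 1 : ℕ) : ℕ∞) < D.N → D.w (j + 1) + D.w (j + 2) = c := by
      intro j hj hjN
      rw [typeB_sum G hT hb hn0 hn1 hj hdM hjN hM1, hwM2, add_zero]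
    set p := D.pre s 0 with hp
    set x0 := T.π (D.θ 0) x with hx0
    have hx0B : B x0 = D.θ 0 • x0 := T.B_π _ _
    have hx0U : x0 ∈ U := T.π_mem hU.2 _ hx
    have c0x : T.c 0 x0 = T.c 0 x := T.c_π_pos rfl x
    set z := T.π p (A x0) with hz
    have hzB : B z = p • z := T.B_π _ _
    have hzU : z ∈ U := T.π_mem hU.2 _ (hU.1 _ hx0U)
    set y := T.π (D.θ 0) (A z) - c • x0 with hy
    have hyU : y ∈ U := U.sub_mem (T.π_mem hU.2 _ (hU.1 _ hzU)) (U.smul_mem _ hx0U)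
    have hyB : B y = D.θ 0 • y := by
      rw [hy, map_sub, T.B_π, map_smul, hx0B, smul_sub, smul_comm c]
    have cy : ∀ i : ℕ, D.θ i = D.θ 0 → T.c i y = T.c i (A z) - c * T.c i x0 := by
      intro i hi
      rw [hy, map_sub, map_smul, smul_eq_mul, T.c_π_pos hi]
    have hX : X0 D A B y := by
      refine T.X0_of G hAW hyB (fun h01 i hi => T.c_A_diag G hAW hyB hi h01 (fun h => hn0 h.symm))
        (fun _ _ i hi => ?_)
      by_cases hiN : (i : ℕ∞) < D.N
      swap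
      · rw [T.c_ge (not_lt.mp hiN)]
      have hdi := typeB_class_p G hT hb hn0 hn1 hi
      have hi1 : P ≤ i + 1 := Nat.le_of_dvd (by omega) hdi
      obtain ⟨k, rfl⟩ : ∃ k, i = k + 1 := ⟨i - 1, by omega⟩
      obtain ⟨i0, i1, i2, i3, i4⟩ := typeB_idx G hT hb hn0 hn1 hdi
      have hs := hsum k hdi hiN
      have hneq : D.θ 0 ≠ p := fun h => hn0 h.symm
      have hne1 : D.θ 1 ≠ p := fun h => hn1 h.symm
      have kN := Tri.lt_of_succ_lt hiN
      -- `c_{k+1} (A y)`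
      have e1 : T.c (k + 1) (A y) = T.c k y + D.w (k + 2) * T.c (k + 2) y := by
        rw [T.c_A_succ hiN, T.c_of_eig hyB (i := k + 1) (by rw [i1]; exact hn0)]
        ring
      have e2 : T.c k (A z) = D.w (k + 1) * T.c (k + 1) z := by
        rcases k with _ | k
        · have : P ∣ 2 := hdi
          have := Nat.le_of_dvd (by norm_num) this
          omega
        · have i4' : D.θ k = D.θ 1 := i4
          rw [T.c_A_succ kN, T.c_of_eig hzB (i := k) (by rw [i4']; exact hne1),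
            T.c_of_eig hzB (i := k + 1) (by rw [i0]; exact hneq)]
          ring
      have e3 : D.w (k + 2) * T.c (k + 2) (A z) = D.w (k + 2) * T.c (k + 1) z := by
        by_cases hk2 : ((k + 2 : ℕ) : ℕ∞) < D.N
        · rw [T.c_A_succ hk2, T.c_of_eig hzB (i := k + 1 + 1) (by
            rw [show k + 1 + 1 = k + 2 from rfl, i2]; exact hneq),
            T.c_of_eig hzB (i := k + 1 + 2) (by
            rw [show k + 1 + 2 = k + 3 from rfl, i3]; exact hne1)]
          ring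
        · rw [G.w_ge (not_lt.mp hk2)]; ring
      have e4 : T.c (k + 1) z = T.c k x0 + D.w (k + 2) * T.c (k + 2) x0 := by
        rw [hz, T.c_π_pos i1, T.c_A_succ hiN, T.c_of_eig hx0B (i := k + 1) (by rw [i1]; exact hn0)]
        ring
      rw [e1, cy k i0, cy (k + 2) i2, e2, mul_sub, e3, e4, ← hs]
      ring
    have hy0 := h y hyU hX
    have e := cy 0 rfl
    rw [hy0, map_zero, T.c_A_zero, T.c_of_eig hzB (i := 0) (fun h => hn0 h.symm),
      T.c_of_eig hzB (i := 1) (fun h => hn1 h.symm), c0x] at e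
    have e' : c * T.c 0 x = 0 := by linear_combination e
    rcases mul_eq_zero.mp e' with h3 | h3
    · exact absurd h3 hc0
    · exact h3

end typeB

end Pool.Agent.Helper9.AW
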