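import Mathlib

set_option autoImplicit false

namespace Pool.Agent.Helper9.Compare

open Complex

variable {n : ℕ}

/-- comparison of two one parameter groups at time one -/
theorem compare {E : Type*} [NormedAddCommGroup E] [InnerProductSpace ℂ E]
    (u w : OrthonormalBasis (Fin n) ℂ E) (H G : E →ₗ[ℂ] E) (h g : Fin n → ℝ)
    (hH : ∀ j, H (u j) = (h j : ℂ) • u j) (hG : ∀ k, G (w k) = (g k : ℂ) • w k)
    (c : ℝ) (hc : ∀ y, ‖H y - G y‖ ≤ c * ‖y‖) (x : E) (hx : ‖x‖ = 1) :
    1 - c ^ 2 / 2 ≤ (∑ j, ∑ k, (inner ℂ x (u j) * inner ℂ (w k) x * inner ℂ (u j) (w k)) *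
      cexp (((h j - g k : ℝ) : ℂ) * I)).re := by
  let Y : ℝ → E := fun r => ∑ k, (cexp (((-(r * g k) : ℝ) : ℂ) * I) * inner ℂ (w k) x) • w k
  let f : ℝ → E := fun r => ∑ j, (cexp (((r * h j : ℝ) : ℂ) * I) * inner ℂ (u j) (Y r)) • u j
  have hYinner : ∀ r k, inner ℂ (w k) (Y r) = cexp (((-(r * g k) : ℝ) : ℂ) * I) * inner ℂ (w k) x := by
    intro r k
    simp only [Y]
    rw [w.orthonormal.inner_right_fintype]
  have hfinner : ∀ r j, inner ℂ (u j) (f r) = cexp (((r * h j : ℝ) : ℂ) * I) * inner ℂ (u j) (Y r) := by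
    intro r k
    simp only [f]
    rw [u.orthonormal.inner_right_fintype]
  have hYnorm : ∀ r, ‖Y r‖ = 1 := by
    intro r
    have h1 := w.sum_sq_norm_inner_right (Y r)
    have h2 := w.sum_sq_norm_inner_right x
    have h3 : ∀ k, ‖inner ℂ (w k) (Y r)‖ ^ 2 = ‖inner ℂ (w k) x‖ ^ 2 := by
      intro k
      rw [hYinner, norm_mul, Complex.norm_exp_ofReal_mul_I, one_mul]
    simp_rw [h3] at h1
    rw [h2, hx] at h1
    have h4 : ‖Y r‖ ^ 2 = 1 := by rw [← h1]; norm_num
    have h5 := norm_nonneg (Y r)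
    nlinarith [sq_nonneg (‖Y r‖ - 1)]
  have hfnorm : ∀ r, ‖f r‖ = 1 := by
    intro r
    have h1 := u.sum_sq_norm_inner_right (f r)
    have h2 := u.sum_sq_norm_inner_right (Y r)
    have h3 : ∀ k, ‖inner ℂ (u k) (f r)‖ ^ 2 = ‖inner ℂ (u k) (Y r)‖ ^ 2 := by
      intro k
      rw [hfinner, norm_mul, Complex.norm_exp_ofReal_mul_I, one_mul]
    simp_rw [h3] at h1
    rw [h2, hYnorm] at h1
    have h4 : ‖f r‖ ^ 2 = 1 := by rw [← h1]; norm_num
    have h5 := norm_nonneg (f r)
    nlinarith [sq_nonneg (‖f r‖ - 1)]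
  have hHsym : ∀ y j, inner ℂ (u j) (H y) = (h j : ℂ) * inner ℂ (u j) y := by
    intro y j
    have h1 := u.sum_repr' y
    have h2 : H y = ∑ i, ((h i : ℂ) * inner ℂ (u i) y) • u i := by
      conv_lhs => rw [← h1]
      rw [map_sum]
      refine Finset.sum_congr rfl fun i _ => ?_
      rw [map_smul, hH, smul_smul, mul_comm]
    rw [h2, u.orthonormal.inner_right_fintype]
  have hYderiv : ∀ r, HasDerivAt Y (-I • G (Y r)) r := by
    intro r
    have h1 : -I • G (Y r) = ∑ k, ((cexp (((-(r * g k) : ℝ) : ℂ) * I) * ((-(g k) : ℝ) * I)) *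
        inner ℂ (w k) x) • w k := by
      simp only [Y]
      rw [map_sum, Finset.smul_sum]
      refine Finset.sum_congr rfl fun k _ => ?_
      rw [map_smul, hG, smul_smul, smul_smul]
      congr 1
      push_cast
      ring
    rw [h1]
    refine HasDerivAt.fun_sum fun k _ => ?_
    refine HasDerivAt.smul_const ?_ (w k)
    refine HasDerivAt.mul_const ?_ _
    refine HasDerivAt.cexp ?_
    refine HasDerivAt.mul_const ?_ _
    have h2 : HasDerivAt (fun r : ℝ => -(r * g k)) (-(g k)) r := by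
      have := ((hasDerivAt_id r).mul_const (g k)).fun_neg
      simpa using this
    exact h2.ofReal_comp
  have hfderiv : ∀ r, HasDerivAt f
      (∑ j, (cexp (((r * h j : ℝ) : ℂ) * I) * (I * inner ℂ (u j) (H (Y r) - G (Y r)))) • u j) r := by
    intro r
    refine HasDerivAt.fun_sum fun j _ => ?_
    refine HasDerivAt.smul_const ?_ (u j)
    have h1 : HasDerivAt (fun r : ℝ => cexp (((r * h j : ℝ) : ℂ) * I))
        (cexp (((r * h j : ℝ) : ℂ) * I) * ((h j : ℝ) * I)) r := by
      refine HasDerivAt.cexp ?_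
      refine HasDerivAt.mul_const ?_ _
      have h2 : HasDerivAt (fun r : ℝ => r * h j) (h j) r := by
        have := (hasDerivAt_id r).mul_const (h j)
        simpa using this
      exact h2.ofReal_comp
    have h2 : HasDerivAt (fun r : ℝ => inner ℂ (u j) (Y r)) (inner ℂ (u j) (-I • G (Y r))) r := by
      have := (hasDerivAt_const r (u j)).inner ℂ (hYderiv r)
      simpa using this
    have h3 := h1.mul h2
    convert! h3 using 1
    rw [inner_sub_right, hHsym, inner_smul_right]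
    ring
  have hbound : ‖f 1 - f 0‖ ≤ c := by
    refine norm_image_sub_le_of_norm_deriv_le_segment_01' (f := f)
      (fun r _ => (hfderiv r).hasDerivWithinAt) fun r _ => ?_
    set v := H (Y r) - G (Y r) with hv
    have h1 := u.sum_sq_norm_inner_right
      (∑ j, (cexp (((r * h j : ℝ) : ℂ) * I) * (I * inner ℂ (u j) v)) • u j)
    have h2 := u.sum_sq_norm_inner_right v
    have h3 : ∀ k, ‖inner ℂ (u k)
        (∑ j, (cexp (((r * h j : ℝ) : ℂ) * I) * (I * inner ℂ (u j) v)) • u j)‖ ^ 2 =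
        ‖inner ℂ (u k) v‖ ^ 2 := by
      intro k
      rw [u.orthonormal.inner_right_fintype, norm_mul, Complex.norm_exp_ofReal_mul_I, one_mul,
        norm_mul, Complex.norm_I, one_mul]
    simp_rw [h3] at h1
    rw [h2] at h1
    have h4 : ‖v‖ ≤ c := by
      have := hc (Y r)
      rwa [hYnorm, mul_one] at this
    have h5 := (sq_eq_sq₀ (norm_nonneg _) (norm_nonneg _)).mp h1
    rw [← h5]
    exact h4
  have hf0 : f 0 = x := by
    have hY0 : Y 0 = x := by
      simp only [Y]
      have h1 := w.sum_repr' x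
      conv_rhs => rw [← h1]
      refine Finset.sum_congr rfl fun k _ => ?_
      simp
    simp only [f]
    rw [hY0]
    have h1 := u.sum_repr' x
    conv_rhs => rw [← h1]
    refine Finset.sum_congr rfl fun k _ => ?_
    simp
  rw [hf0] at hbound
  have hc0 : 0 ≤ c := (norm_nonneg _).trans hbound
  have h1 : ‖f 1 - x‖ ^ 2 = 2 - 2 * (inner ℂ x (f 1)).re := by
    rw [@norm_sub_sq ℂ, hfnorm, hx]
    have h2 : RCLike.re (inner ℂ (f 1) x) = (inner ℂ x (f 1)).re :=
      inner_re_symm (𝕜 := ℂ) (f 1) x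
    rw [h2]
    ring
  have h2 : ‖f 1 - x‖ ^ 2 ≤ c ^ 2 := by
    have := norm_nonneg (f 1 - x)
    nlinarith
  have h3 : inner ℂ x (f 1) = ∑ j, ∑ k, (inner ℂ x (u j) * inner ℂ (w k) x * inner ℂ (u j) (w k)) *
      cexp (((h j - g k : ℝ) : ℂ) * I) := by
    simp only [f]
    rw [inner_sum]
    refine Finset.sum_congr rfl fun j _ => ?_
    rw [inner_smul_right]
    simp only [Y]
    rw [inner_sum, Finset.mul_sum, Finset.sum_mul]
    refine Finset.sum_congr rfl fun k _ => ?_
    rw [inner_smul_right]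
    have h4 : cexp (((h j - g k : ℝ) : ℂ) * I) =
        cexp (((1 * h j : ℝ) : ℂ) * I) * cexp (((-(1 * g k) : ℝ) : ℂ) * I) := by
      rw [← Complex.exp_add]
      congr 1
      push_cast
      ring
    rw [h4]
    ring
  rw [← h3]
  linarith

end Pool.Agent.Helper9.Compare
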