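import Mathlib

set_option autoImplicit false

namespace Pool.Agent.Helper9.Kernel

open MeasureTheory Complex FourierTransform Convolution Real

/-- the box function -/
noncomputable def chi : ℝ → ℂ := Set.indicator (Set.Icc (-(1 / 4) : ℝ) (1 / 4)) (fun _ => (1 : ℂ))

/-- the hat function -/
noncomputable def psiR (x : ℝ) : ℝ := max 0 (1 / 2 - |x|)

noncomputable def psi (x : ℝ) : ℂ := ((psiR x : ℝ) : ℂ)

theorem chi_integrable : Integrable chi := by
  rw [chi, integrable_indicator_iff measurableSet_Icc]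
  exact integrableOn_const (by simp) (by simp)

theorem fourier_chi (t : ℝ) : 𝓕 chi t = ((1 / 2 * sinc (π * t / 2) : ℝ) : ℂ) := by
  rw [Real.fourier_real_eq_integral_exp_smul]
  have h1 : ∀ v : ℝ, cexp (↑(-2 * π * v * t) * I) • chi v =
      Set.indicator (Set.Icc (-(1 / 4) : ℝ) (1 / 4)) (fun v : ℝ => cexp (↑(-2 * π * v * t) * I)) v := by
    intro v
    simp only [chi, Set.indicator, smul_eq_mul]
    split_ifs <;> simp
  simp_rw [h1]
  rw [integral_indicator measurableSet_Icc, integral_Icc_eq_integral_Ioc,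
    ← intervalIntegral.integral_of_le (by norm_num)]
  by_cases ht : t = 0
  · subst ht
    simp
    norm_num
  · have hc : (-2 * π * t) ≠ 0 := by
      have := Real.pi_pos.ne'
      positivity
    have h2 : ∀ v : ℝ, cexp (↑(-2 * π * v * t) * I) = (fun u : ℝ => cexp (u * I)) (v * (-2 * π * t)) := by
      intro v
      simp only
      congr 2
      push_cast
      ring
    simp_rw [h2]
    rw [intervalIntegral.integral_comp_mul_right (fun u : ℝ => cexp (u * I)) hc]
    have h3 : -(1 / 4) * (-2 * π * t) = -(-(π * t / 2)) := by ring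
    have h4 : (1 / 4) * (-2 * π * t) = -(π * t / 2) := by ring
    rw [h3, h4, integral_exp_mul_I_eq_sinc, sinc_neg]
    rw [Complex.real_smul]
    push_cast
    have hpi : (π : ℂ) ≠ 0 := by exact_mod_cast Real.pi_pos.ne'
    have ht' : (t : ℂ) ≠ 0 := by exact_mod_cast ht
    field_simp

theorem chi_conv (x : ℝ) : (chi ⋆[ContinuousLinearMap.mul ℂ ℂ, volume] chi) x = psi x := by
  rw [convolution_def]
  simp only [ContinuousLinearMap.mul_apply']
  have h1 : ∀ t : ℝ, chi t * chi (x - t) =
      Set.indicator (Set.Icc (max (-(1 / 4) : ℝ) (x - 1 / 4)) (min (1 / 4) (x + 1 / 4)))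
        (fun _ => (1 : ℂ)) t := by
    intro t
    simp only [chi, Set.indicator, Set.mem_Icc]
    by_cases h1 : -(1 / 4) ≤ t ∧ t ≤ 1 / 4
    · by_cases h2 : -(1 / 4) ≤ x - t ∧ x - t ≤ 1 / 4
      · rw [if_pos h1, if_pos h2, if_pos, mul_one]
        constructor
        · exact max_le h1.1 (by linarith [h2.2])
        · exact le_min h1.2 (by linarith [h2.1])
      · rw [if_pos h1, if_neg h2, if_neg, mul_zero]
        rintro ⟨h3, h4⟩
        apply h2
        have h5 := (le_max_right _ _).trans h3
        have h6 := h4.trans (min_le_right _ _)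
        exact ⟨by linarith, by linarith⟩
    · rw [if_neg h1, zero_mul, if_neg]
      rintro ⟨h3, h4⟩
      exact h1 ⟨(le_max_left _ _).trans h3, h4.trans (min_le_left _ _)⟩
  simp_rw [h1]
  rw [integral_indicator measurableSet_Icc]
  simp only [integral_const, MeasurableSet.univ, measureReal_restrict_apply, Set.univ_inter,
    Real.volume_real_Icc]
  rw [psi, psiR]
  rw [Complex.real_smul, mul_one]
  congr 1
  rcases le_total 0 x with hx | hx
  · have e1 : min (1 / 4 : ℝ) (x + 1 / 4) = 1 / 4 := min_eq_left (by linarith)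
    have e2 : max (-(1 / 4) : ℝ) (x - 1 / 4) = x - 1 / 4 := max_eq_right (by linarith)
    rw [abs_of_nonneg hx, e1, e2, max_comm]
    congr 1
    ring
  · have e1 : min (1 / 4 : ℝ) (x + 1 / 4) = x + 1 / 4 := min_eq_right (by linarith)
    have e2 : max (-(1 / 4) : ℝ) (x - 1 / 4) = -(1 / 4) := max_eq_left (by linarith)
    rw [abs_of_nonpos hx, e1, e2, max_comm]
    congr 1
    ring

theorem psi_eq : psi = chi ⋆[ContinuousLinearMap.mul ℂ ℂ, volume] chi := by
  funext x
  rw [chi_conv]

theorem fourier_psi (t : ℝ) : 𝓕 psi t = ((1 / 4 * sinc (π * t / 2) ^ 2 : ℝ) : ℂ) := by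
  rw [psi_eq, Real.fourier_mul_convolution_eq chi_integrable chi_integrable, fourier_chi]
  push_cast
  ring

theorem psiR_cont : Continuous psiR := by
  unfold psiR
  fun_prop

theorem psi_cont : Continuous psi := by
  unfold psi
  exact continuous_ofReal.comp psiR_cont

theorem psiR_zero (x : ℝ) (hx : 1 / 2 ≤ |x|) : psiR x = 0 := by
  rw [psiR, max_eq_left (by linarith)]

theorem psi_supp : HasCompactSupport psi := by
  refine HasCompactSupport.of_support_subset_isCompact (isCompact_Icc (a := -(1 / 2 : ℝ)) (b := 1 / 2)) ?_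
  intro x hx
  by_contra hcon
  apply hx
  rw [psi, psiR_zero x]
  · simp
  · rw [Set.mem_Icc, not_and_or] at hcon
    rw [le_abs]
    rcases hcon with h | h
    · right; linarith
    · left; linarith

theorem psi_integrable : Integrable psi := psi_cont.integrable_of_hasCompactSupport psi_supp

/-- the autocorrelation of the hat function -/
noncomputable def tau : ℝ → ℂ := psi ⋆[ContinuousLinearMap.mul ℂ ℂ, volume] psi

theorem tau_cont : Continuous tau :=
  psi_supp.continuous_convolution_right _ psi_integrable.locallyIntegrable psi_cont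

theorem tau_integrable : Integrable tau :=
  psi_integrable.integrable_convolution _ psi_integrable

theorem fourier_tau (t : ℝ) : 𝓕 tau t = ((1 / 16 * sinc (π * t / 2) ^ 4 : ℝ) : ℂ) := by
  rw [tau, Real.fourier_mul_convolution_eq psi_integrable psi_integrable, fourier_psi]
  push_cast
  ring

theorem tau_zero_of (z : ℝ) (hz : 1 ≤ |z|) : tau z = 0 := by
  rw [tau, convolution_def]
  simp only [ContinuousLinearMap.mul_apply']
  have h1 : ∀ t : ℝ, psi t * psi (z - t) = 0 := by
    intro t
    by_cases h : 1 / 2 ≤ |t|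
    · rw [psi, psiR_zero t h]; simp
    · have h2 : 1 / 2 ≤ |z - t| := by
        have h3 : |z| ≤ |z - t| + |t| := by
          have := abs_add_le (z - t) t
          rwa [sub_add_cancel] at this
        push Not at h
        linarith
      rw [psi, psi, psiR_zero (z - t) h2]; simp
  simp_rw [h1]
  simp

theorem tau_zero : tau 0 = 1 / 12 := by
  rw [tau, convolution_def]
  simp only [ContinuousLinearMap.mul_apply']
  have h1 : ∀ t : ℝ, psi t * psi (0 - t) = ((psiR t ^ 2 : ℝ) : ℂ) := by
    intro t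
    rw [psi, psi, psiR, psiR, zero_sub, abs_neg]
    push_cast
    ring
  simp_rw [h1]
  rw [integral_complex_ofReal]
  have h2 : ∫ t : ℝ, psiR t ^ 2 = 1 / 12 := by
    have h3 : ∀ t : ℝ, psiR t ^ 2 = Set.indicator (Set.Icc (-(1 / 2) : ℝ) (1 / 2))
        (fun t => (1 / 2 - |t|) ^ 2) t := by
      intro t
      by_cases h : t ∈ Set.Icc (-(1 / 2) : ℝ) (1 / 2)
      · rw [Set.indicator_of_mem h, psiR, max_eq_right]
        have := abs_le.mpr h
        linarith
      · rw [Set.indicator_of_notMem h, psiR_zero]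
        · simp
        · by_contra hc
          push Not at hc
          exact h (abs_le.mp hc.le)
    simp_rw [h3]
    rw [integral_indicator measurableSet_Icc, integral_Icc_eq_integral_Ioc,
      ← intervalIntegral.integral_of_le (by norm_num)]
    rw [← intervalIntegral.integral_add_adjacent_intervals (b := 0)]
    · have e1 : ∫ t in (-(1 / 2) : ℝ)..0, (1 / 2 - |t|) ^ 2 = ∫ t in (-(1 / 2) : ℝ)..0, (1 / 2 + t) ^ 2 := by
        refine intervalIntegral.integral_congr fun t ht => ?_
        rw [Set.uIcc_of_le (by norm_num)] at ht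
        rw [abs_of_nonpos ht.2]
        ring
      have e2 : ∫ t in (0 : ℝ)..(1 / 2), (1 / 2 - |t|) ^ 2 = ∫ t in (0 : ℝ)..(1 / 2), (1 / 2 - t) ^ 2 := by
        refine intervalIntegral.integral_congr fun t ht => ?_
        rw [Set.uIcc_of_le (by norm_num)] at ht
        rw [abs_of_nonneg ht.1]
      rw [e1, e2]
      rw [intervalIntegral.integral_comp_add_left (fun t => t ^ 2),
        intervalIntegral.integral_comp_sub_left (fun t => t ^ 2), integral_pow, integral_pow]
      norm_num
    · exact (by fun_prop : Continuous fun t : ℝ => (1 / 2 - |t|) ^ 2).intervalIntegrable _ _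
    · exact (by fun_prop : Continuous fun t : ℝ => (1 / 2 - |t|) ^ 2).intervalIntegrable _ _
  rw [h2]
  norm_num

theorem mul_sinc (u : ℝ) : u * sinc u = Real.sin u := by
  by_cases h : u = 0
  · subst h; simp
  · rw [sinc_of_ne_zero h]; field_simp

theorem sinc_sq_le (x : ℝ) : sinc x ^ 2 * (1 + x ^ 2) ≤ 2 := by
  have h1 : sinc x ^ 2 ≤ 1 := by
    have := abs_sinc_le_one x
    rw [← sq_abs]
    nlinarith [abs_nonneg (sinc x)]
  have h2 : sinc x ^ 2 * x ^ 2 = Real.sin x ^ 2 := by rw [← mul_sinc x]; ring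
  have h3 := Real.sin_sq_le_one x
  nlinarith

theorem sinc_sq_le' (t : ℝ) : sinc (π * t / 2) ^ 2 ≤ 2 * (1 + t ^ 2)⁻¹ := by
  have h1 := sinc_sq_le (π * t / 2)
  have h2 : 1 + t ^ 2 ≤ 1 + (π * t / 2) ^ 2 := by
    have hpi := Real.pi_gt_three
    have : t ^ 2 ≤ (π / 2) ^ 2 * t ^ 2 := by
      have : 1 ≤ (π / 2) ^ 2 := by nlinarith
      nlinarith [sq_nonneg t]
    nlinarith
  rw [← div_eq_mul_inv, le_div_iff₀ (by positivity)]
  exact (mul_le_mul_of_nonneg_left h2 (sq_nonneg _)).trans h1

theorem sinc_cont : Continuous fun t : ℝ => sinc (π * t / 2) :=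
  continuous_sinc.comp (by fun_prop)

theorem sinc_sq_integrable : Integrable fun t : ℝ => sinc (π * t / 2) ^ 2 := by
  refine Integrable.mono' (integrable_inv_one_add_sq.const_mul 2)
    (sinc_cont.pow 2).aestronglyMeasurable (Filter.Eventually.of_forall fun t => ?_)
  rw [Real.norm_of_nonneg (sq_nonneg _)]
  exact sinc_sq_le' t

theorem sinc_four_integrable : Integrable fun t : ℝ => sinc (π * t / 2) ^ 4 := by
  refine Integrable.mono' sinc_sq_integrable
    (sinc_cont.pow 4).aestronglyMeasurable (Filter.Eventually.of_forall fun t => ?_)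
  rw [Real.norm_of_nonneg (by positivity)]
  have h1 : sinc (π * t / 2) ^ 2 ≤ 1 := by
    have := abs_sinc_le_one (π * t / 2)
    rw [← sq_abs]
    nlinarith [abs_nonneg (sinc (π * t / 2))]
  nlinarith [sq_nonneg (sinc (π * t / 2))]

theorem inv_psi (z : ℝ) :
    ∫ t : ℝ, cexp ((2 * π * t * z : ℝ) * I) * ((1 / 4 * sinc (π * t / 2) ^ 2 : ℝ) : ℂ) = psi z := by
  have h1 : Integrable (𝓕 psi) := by
    have : 𝓕 psi = fun t : ℝ => ((1 / 4 * sinc (π * t / 2) ^ 2 : ℝ) : ℂ) := by
      funext t; exact fourier_psi t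
    rw [this]
    exact (sinc_sq_integrable.const_mul (1 / 4)).ofReal
  have h2 := psi_integrable.fourierInv_fourier_eq h1 psi_cont.continuousAt (v := z)
  rw [Real.fourierInv_eq'] at h2
  rw [← h2]
  congr 1
  funext t
  rw [fourier_psi, smul_eq_mul]
  congr 3
  push_cast
  simp
  ring

theorem inv_tau (z : ℝ) :
    ∫ t : ℝ, cexp ((2 * π * t * z : ℝ) * I) * ((1 / 16 * sinc (π * t / 2) ^ 4 : ℝ) : ℂ) = tau z := by
  have h1 : Integrable (𝓕 tau) := by
    have : 𝓕 tau = fun t : ℝ => ((1 / 16 * sinc (π * t / 2) ^ 4 : ℝ) : ℂ) := by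
      funext t; exact fourier_tau t
    rw [this]
    exact (sinc_four_integrable.const_mul (1 / 16)).ofReal
  have h2 := tau_integrable.fourierInv_fourier_eq h1 tau_cont.continuousAt (v := z)
  rw [Real.fourierInv_eq'] at h2
  rw [← h2]
  congr 1
  funext t
  rw [fourier_tau, smul_eq_mul]
  congr 3
  push_cast
  simp
  ring

/-- the kernel -/
noncomputable def pp (t : ℝ) : ℝ := 3 / 4 * sinc (π * t / 2) ^ 4

theorem pp_nonneg (t : ℝ) : 0 ≤ pp t := by unfold pp; positivity

theorem pp_integrable : Integrable pp := sinc_four_integrable.const_mul _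

theorem pp_cont : Continuous pp := (sinc_cont.pow 4).const_mul _

theorem pp_char (z : ℝ) (hz : 1 ≤ |z|) :
    ∫ t : ℝ, cexp ((2 * π * t * z : ℝ) * I) * (pp t : ℂ) = 0 := by
  have h1 : ∀ t : ℝ, cexp ((2 * π * t * z : ℝ) * I) * (pp t : ℂ) =
      12 * (cexp ((2 * π * t * z : ℝ) * I) * ((1 / 16 * sinc (π * t / 2) ^ 4 : ℝ) : ℂ)) := by
    intro t
    rw [pp]
    push_cast
    ring
  simp_rw [h1]
  rw [integral_const_mul, inv_tau, tau_zero_of z hz, mul_zero]

theorem pp_one : ∫ t : ℝ, pp t = 1 := by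
  have h0 := inv_tau 0
  rw [tau_zero] at h0
  have h1 : ∀ t : ℝ, cexp ((2 * π * t * 0 : ℝ) * I) * ((1 / 16 * sinc (π * t / 2) ^ 4 : ℝ) : ℂ) =
      ((1 / 12 * pp t : ℝ) : ℂ) := by
    intro t
    rw [pp]
    push_cast
    simp
    ring
  simp_rw [h1] at h0
  rw [integral_complex_ofReal, integral_const_mul] at h0
  have h2 : ((1 / 12 * ∫ t : ℝ, pp t : ℝ) : ℂ) = ((1 / 12 : ℝ) : ℂ) := by
    rw [h0]; push_cast; norm_num
  have h3 := Complex.ofReal_injective h2
  linarith

theorem pp_second_eq (t : ℝ) : (2 * π * t) ^ 2 * pp t =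
    6 * (sinc (π * t / 2) ^ 2 - Real.cos (π * t) * sinc (π * t / 2) ^ 2) := by
  have h1 := mul_sinc (π * t / 2)
  have h2 : Real.sin (π * t / 2) ^ 2 = (1 - Real.cos (π * t)) / 2 := by
    have := Real.cos_sq (π * t / 2)
    rw [Real.sin_sq, this]
    have : 2 * (π * t / 2) = π * t := by ring
    rw [this]
    ring
  have h3 : (2 * π * t) ^ 2 * pp t =
      12 * ((π * t / 2) * sinc (π * t / 2)) ^ 2 * sinc (π * t / 2) ^ 2 := by
    rw [pp]; ring
  rw [h3, h1, h2]
  ring

theorem pp_second_integrable : Integrable fun t : ℝ => (2 * π * t) ^ 2 * pp t := by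
  simp_rw [pp_second_eq]
  refine Integrable.const_mul (sinc_sq_integrable.sub ?_) 6
  refine Integrable.mono' sinc_sq_integrable
    ((Continuous.mul (by fun_prop) (sinc_cont.pow 2)).aestronglyMeasurable)
    (Filter.Eventually.of_forall fun t => ?_)
  rw [norm_mul, Real.norm_of_nonneg (sq_nonneg _)]
  have := Real.abs_cos_le_one (π * t)
  rw [← Real.norm_eq_abs] at this
  nlinarith [sq_nonneg (sinc (π * t / 2))]

theorem pp_second : ∫ t : ℝ, (2 * π * t) ^ 2 * pp t = 12 := by
  simp_rw [pp_second_eq]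
  have hcos : Integrable fun t : ℝ => Real.cos (π * t) * sinc (π * t / 2) ^ 2 := by
    refine Integrable.mono' sinc_sq_integrable
      ((Continuous.mul (by fun_prop) (sinc_cont.pow 2)).aestronglyMeasurable)
      (Filter.Eventually.of_forall fun t => ?_)
    rw [norm_mul, Real.norm_of_nonneg (sq_nonneg _)]
    have := Real.abs_cos_le_one (π * t)
    rw [← Real.norm_eq_abs] at this
    nlinarith [sq_nonneg (sinc (π * t / 2))]
  rw [integral_const_mul, integral_sub sinc_sq_integrable hcos]
  have h0 : ∫ t : ℝ, sinc (π * t / 2) ^ 2 = 2 := by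
    have h := inv_psi 0
    have h1 : ∀ t : ℝ, cexp ((2 * π * t * 0 : ℝ) * I) * ((1 / 4 * sinc (π * t / 2) ^ 2 : ℝ) : ℂ) =
        ((1 / 4 * sinc (π * t / 2) ^ 2 : ℝ) : ℂ) := by
      intro t
      simp
    simp_rw [h1] at h
    rw [integral_complex_ofReal, integral_const_mul, psi, psiR] at h
    have h2 := Complex.ofReal_injective h
    norm_num at h2
    linarith
  have h1 : ∫ t : ℝ, Real.cos (π * t) * sinc (π * t / 2) ^ 2 = 0 := by
    have h := inv_psi (1 / 2)
    rw [psi, psiR_zero (1 / 2) (by norm_num [abs_of_pos])] at h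
    have h1 := congrArg Complex.re h
    rw [← RCLike.re_eq_complex_re, ← integral_re] at h1
    · have h2 : ∀ t : ℝ, RCLike.re (cexp ((2 * π * t * (1 / 2) : ℝ) * I) *
          ((1 / 4 * sinc (π * t / 2) ^ 2 : ℝ) : ℂ)) =
          1 / 4 * (Real.cos (π * t) * sinc (π * t / 2) ^ 2) := by
        intro t
        rw [RCLike.re_eq_complex_re, Complex.re_mul_ofReal, Complex.exp_ofReal_mul_I_re]
        have : 2 * π * t * (1 / 2) = π * t := by ring
        rw [this]
        ring
      simp_rw [h2] at h1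
      rw [integral_const_mul] at h1
      simp at h1
      exact h1
    · refine Integrable.bdd_mul (c := 1) (sinc_sq_integrable.const_mul (1 / 4)).ofReal ?_ ?_
      · exact (by fun_prop : Continuous fun t : ℝ => cexp ((2 * π * t * (1 / 2) : ℝ) * I)).aestronglyMeasurable
      · exact Filter.Eventually.of_forall fun t => by rw [Complex.norm_exp_ofReal_mul_I]
  rw [h0, h1]
  norm_num

end Pool.Agent.Helper9.Kernel
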