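import Pool.Agent.Helper9.Kernel1D

set_option autoImplicit false

namespace Pool.Agent.Helper9.Kernel

open MeasureTheory Complex Real

variable {K : ℕ}

/-- the product kernel -/
noncomputable def PP (t : Fin K → ℝ) : ℝ := ∏ J, pp (t J)

theorem PP_nonneg (t : Fin K → ℝ) : 0 ≤ PP t := Finset.prod_nonneg fun _ _ => pp_nonneg _

theorem PP_integrable : Integrable (PP : (Fin K → ℝ) → ℝ) :=
  Integrable.fintype_prod (fun _ => pp_integrable)

theorem PP_one : ∫ t : Fin K → ℝ, PP t = 1 := by
  unfold PP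
  rw [integral_fintype_prod_volume_eq_prod (fun _ => pp)]
  simp [pp_one]

theorem PP_char (z : Fin K → ℝ) (hz : ∃ J, 1 ≤ |z J|) :
    ∫ t : Fin K → ℝ, cexp ((2 * π * ∑ J, t J * z J : ℝ) * I) * (PP t : ℂ) = 0 := by
  have h1 : ∀ t : Fin K → ℝ, cexp ((2 * π * ∑ J, t J * z J : ℝ) * I) * (PP t : ℂ) =
      ∏ J, (cexp ((2 * π * t J * z J : ℝ) * I) * (pp (t J) : ℂ)) := by
    intro t
    rw [Finset.prod_mul_distrib, ← Complex.exp_sum, PP]
    push_cast
    congr 2
    rw [Finset.mul_sum, Finset.sum_mul]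
    exact Finset.sum_congr rfl fun J _ => by ring
  simp_rw [h1]
  rw [integral_fintype_prod_volume_eq_prod
    (fun J => fun s : ℝ => cexp ((2 * π * s * z J : ℝ) * I) * (pp s : ℂ))]
  obtain ⟨J, hJ⟩ := hz
  exact Finset.prod_eq_zero (Finset.mem_univ J) (pp_char (z J) hJ)

theorem PP_second_aux (J : Fin K) (t : Fin K → ℝ) : (2 * π * t J) ^ 2 * PP t =
    ∏ L, (if L = J then fun s : ℝ => (2 * π * s) ^ 2 * pp s else pp) (t L) := by
  rw [PP, ← Finset.mul_prod_erase Finset.univ (fun L => pp (t L)) (Finset.mem_univ J),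
    ← Finset.mul_prod_erase Finset.univ _ (Finset.mem_univ J)]
  rw [if_pos rfl, ← mul_assoc]
  congr 1
  refine Finset.prod_congr rfl fun L hL => ?_
  rw [if_neg (Finset.ne_of_mem_erase hL)]

theorem PP_second_integrable (J : Fin K) :
    Integrable fun t : Fin K → ℝ => (2 * π * t J) ^ 2 * PP t := by
  simp_rw [PP_second_aux]
  refine Integrable.fintype_prod fun L => ?_
  split_ifs
  · exact pp_second_integrable
  · exact pp_integrable

theorem PP_second (J : Fin K) : ∫ t : Fin K → ℝ, (2 * π * t J) ^ 2 * PP t = 12 := by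
  simp_rw [PP_second_aux]
  rw [integral_fintype_prod_volume_eq_prod
    (fun L => (if L = J then fun s : ℝ => (2 * π * s) ^ 2 * pp s else pp))]
  rw [← Finset.mul_prod_erase Finset.univ _ (Finset.mem_univ J), if_pos rfl, pp_second]
  rw [Finset.prod_eq_one, mul_one]
  intro L hL
  rw [if_neg (Finset.ne_of_mem_erase hL), pp_one]

theorem PP_total_integrable :
    Integrable fun t : Fin K → ℝ => (∑ J, (2 * π * t J) ^ 2) * PP t := by
  simp_rw [Finset.sum_mul]
  exact integrable_finsetSum _ fun J _ => PP_second_integrable J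

theorem PP_total : ∫ t : Fin K → ℝ, (∑ J, (2 * π * t J) ^ 2) * PP t = 12 * K := by
  simp_rw [Finset.sum_mul]
  rw [integral_finsetSum _ fun J _ => PP_second_integrable J]
  simp only [PP_second, Finset.sum_const, Finset.card_univ, Fintype.card_fin, nsmul_eq_mul]
  ring

/-- A finite trigonometric sum whose frequencies avoid the open unit cube cannot be close to `1` near
the origin. -/
theorem trig_bound {ι : Type*} (s : Finset ι) (w : ι → ℂ) (z : ι → Fin K → ℝ)
    (hz : ∀ i ∈ s, ∃ J, 1 ≤ |z i J|) (η : ℝ)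
    (hg : ∀ t : Fin K → ℝ, 1 - η * ∑ J, (2 * π * t J) ^ 2 ≤
      (∑ i ∈ s, w i * cexp ((2 * π * ∑ J, t J * z i J : ℝ) * I)).re) : 1 ≤ η * (12 * K) := by
  have hint : ∀ i ∈ s, Integrable fun t : Fin K → ℝ =>
      w i * (cexp ((2 * π * ∑ J, t J * z i J : ℝ) * I) * (PP t : ℂ)) := by
    intro i _
    refine Integrable.const_mul ?_ _
    refine Integrable.bdd_mul (c := 1) PP_integrable.ofReal ?_ ?_
    · exact (by fun_prop : Continuous fun t : Fin K → ℝ =>
        cexp ((2 * π * ∑ J, t J * z i J : ℝ) * I)).aestronglyMeasurable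
    · exact Filter.Eventually.of_forall fun t => by rw [Complex.norm_exp_ofReal_mul_I]
  have h1 : ∫ t : Fin K → ℝ, (∑ i ∈ s, w i * cexp ((2 * π * ∑ J, t J * z i J : ℝ) * I)) * (PP t : ℂ)
      = 0 := by
    simp_rw [Finset.sum_mul, mul_assoc (w _)]
    rw [integral_finsetSum _ hint]
    refine Finset.sum_eq_zero fun i hi => ?_
    rw [integral_const_mul, PP_char (z i) (hz i hi), mul_zero]
  have hint2 : Integrable fun t : Fin K → ℝ =>
      (∑ i ∈ s, w i * cexp ((2 * π * ∑ J, t J * z i J : ℝ) * I)) * (PP t : ℂ) := by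
    simp_rw [Finset.sum_mul, mul_assoc (w _)]
    exact integrable_finsetSum _ hint
  have h2 : ∫ t : Fin K → ℝ,
      (∑ i ∈ s, w i * cexp ((2 * π * ∑ J, t J * z i J : ℝ) * I)).re * PP t = 0 := by
    have h3 := congrArg Complex.re h1
    rw [← RCLike.re_eq_complex_re, ← integral_re hint2] at h3
    simp only [RCLike.re_eq_complex_re, Complex.re_mul_ofReal, Complex.zero_re] at h3
    exact h3
  have h3 : ∫ t : Fin K → ℝ, (PP t - η * ((∑ J, (2 * π * t J) ^ 2) * PP t)) ≤ 0 := by
    rw [← h2]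
    refine integral_mono (PP_integrable.sub (PP_total_integrable.const_mul η)) ?_ fun t => ?_
    · have := hint2.re
      simpa only [RCLike.re_eq_complex_re, Complex.re_mul_ofReal] using this
    · have h4 := mul_le_mul_of_nonneg_right (hg t) (PP_nonneg t)
      simp only
      linarith
  rw [integral_sub PP_integrable (PP_total_integrable.const_mul η), integral_const_mul, PP_one,
    PP_total] at h3
  linarith

end Pool.Agent.Helper9.Kernel
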