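import Pool.Agent.Helper9.TDSwap

set_option autoImplicit false

namespace Pool.Agent.Helper9.TD

open Polynomial Module

section

variable {K : Type*} [Field K]

/-- the shift on initial data of the recurrence -/
def shiftPerm (β γ : K) : Equiv.Perm (K × K) where
  toFun p := (p.2, γ + β * p.2 - p.1)
  invFun p := (γ + β * p.1 - p.2, p.1)
  left_inv p := by ext <;> simp
  right_inv p := by ext <;> simp

theorem exists_rec (β γ x y : K) : ∃ a : ℤ → K, Rec β γ a ∧ a 0 = x ∧ a 1 = y := by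
  have hst : ∀ i : ℤ, (shiftPerm β γ ^ (i + 1)) (x, y) =
      (((shiftPerm β γ ^ i) (x, y)).2, γ + β * ((shiftPerm β γ ^ i) (x, y)).2 -
        ((shiftPerm β γ ^ i) (x, y)).1) := by
    intro i
    rw [add_comm, zpow_add, zpow_one, Equiv.Perm.mul_apply]
    rfl
  refine ⟨fun i => ((shiftPerm β γ ^ i) (x, y)).1, ?_, ?_, ?_⟩
  · intro i
    have h1 := hst (i - 1)
    have h2 := hst i
    rw [sub_add_cancel] at h1
    simp only
    rw [h2]
    simp only
    rw [h1]
    simp only
    ring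
  · simp
  · simp [shiftPerm]

theorem exists_ext (d : ℕ) (a : ℕ → K) (β : K)
    (h : ∀ i, i + 3 ≤ d → a i - a (i + 3) = (β + 1) * (a (i + 1) - a (i + 2))) :
    ∃ (γ : K) (A : ℤ → K), Rec β γ A ∧ ∀ i ≤ d, A i = a i := by
  obtain ⟨A, hA, h0, h1⟩ := exists_rec β (a 0 - β * a 1 + a 2) (a 0) (a 1)
  refine ⟨a 0 - β * a 1 + a 2, A, hA, ?_⟩
  have hrec : ∀ i, i + 2 ≤ d → a i - β * a (i + 1) + a (i + 2) = a 0 - β * a 1 + a 2 := by
    intro i
    induction i with
    | zero => intro _; rfl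
    | succ i ih =>
      intro hi
      rw [← ih (by omega)]
      have h2 := h i (by omega)
      have e1 : i + 1 + 1 = i + 2 := rfl
      have e2 : i + 1 + 2 = i + 3 := rfl
      rw [e1, e2]
      linear_combination -h2
  intro i
  induction i using Nat.strong_induction_on with
  | _ i ih =>
  intro hi
  rcases i with _ | _ | i
  · simpa using h0
  · simpa using h1
  · have h2 := hA (i + 1)
    have h3 := hrec i (by omega)
    have h4 := ih i (by omega) (by omega)
    have h5 := ih (i + 1) (by omega) (by omega)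
    push_cast at h5
    have c1 : (i : ℤ) + 1 - 1 = i := by ring
    rw [c1, h4, h5] at h2
    push_cast
    linear_combination h2 - h3

theorem th_eq_thZ (d : ℕ) (a : ℕ → K) (A : ℤ → K) (hA : ∀ i ≤ d, A i = a i) (i : ℕ)
    (hi : i ≤ d + 1) : th d a i = thZ d A i := by
  rw [th, thZ]
  have h0 := hA 0 (by omega)
  have hd := hA d le_rfl
  push_cast at h0
  rw [h0, hd]
  congr 1
  refine Finset.sum_congr rfl fun h hh => ?_
  have hh' : h ≤ d := by
    have := Finset.mem_range.mp hh
    omega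
  have h1 := hA h hh'
  have h2 := hA (d - h) (by omega)
  have e1 : ((d - h : ℕ) : ℤ) = (d : ℤ) - h := by omega
  rw [e1] at h2
  rw [h1, h2]

end

section

variable {K : Type*} [Field K] {V : Type*} [AddCommGroup V] [Module K V]
variable {U : Type*} [AddCommGroup U] [Module K U]

variable {A B : Module.End K V} {d : ℕ} {e : ℕ → U →ₗ[K] V} {c : ℕ → V →ₗ[K] U}

theorem Spl.congr_ab {a b a' b' : ℕ → K} {Φ : ℕ → Module.End K U} (h : Spl A B d a b Φ e c)
    (ha : ∀ i ≤ d, a i = a' i) (hb : ∀ i ≤ d, b i = b' i) : Spl A B d a' b' Φ e c where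
  hA := by
    intro i x
    by_cases hi : i ≤ d
    · rw [h.hA, ha i hi]
    · have h1 := h.hA i x
      rw [h.e_gt i (by omega)] at h1 ⊢
      simpa using h1
  hB0 := by
    intro x
    rw [h.hB0, hb 0 (by omega)]
  hB := by
    intro i x
    by_cases hi : i + 1 ≤ d
    · rw [h.hB, hb (i + 1) hi]
    · have h1 := h.hB i x
      rw [h.e_gt (i + 1) (by omega)] at h1 ⊢
      simpa using h1
  e_gt := h.e_gt
  c_e := h.c_e
  c_gt := h.c_gt
  sum := h.sum

theorem phiOp_eq_phiZ (a b : ℕ → K) (α β : ℤ → K) (ha : ∀ i ≤ d, α i = a i)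
    (hb : ∀ i ≤ d, β i = b i) (S : Module.End K U) (i : ℕ) (hi : i + 1 ≤ d) (x : U) :
    phiOp d a b S (i + 1) x = phiZ d α β S (i + 1) x := by
  rw [phiOp_apply, phiZ_apply, th_eq_thZ d a α ha (i + 1) (by omega), kap]
  have h1 := ha i (by omega)
  have h2 := ha d le_rfl
  have h3 := hb (i + 1) hi
  have h4 := hb 0 (by omega)
  have e1 : ((i + 1 : ℕ) : ℤ) - 1 = i := by omega
  push_cast at h4
  rw [e1, h1, h2, h3, h4, Nat.add_sub_cancel]

theorem phiZ_top (α β : ℤ → K) (S : Module.End K U) (x : U) : phiZ d α β S (d + 1) x = 0 := by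
  rw [phiZ_apply, thZ_last]
  simp [kap]

theorem phiOp_top (a b : ℕ → K) (S : Module.End K U) (x : U) : phiOp d a b S (d + 1) x = 0 := by
  rw [phiOp_apply, th_last]
  simp

theorem Spl.toZ {a b : ℕ → K} {S : Module.End K U} (h : Spl A B d a b (phiOp d a b S) e c)
    (α β : ℤ → K) (ha : ∀ i ≤ d, α i = a i) (hb : ∀ i ≤ d, β i = b i) :
    Spl A B d (fun i => α i) (fun i => β i) (phiZ d α β S) e c :=
  (h.congr_phi (phiZ d α β S) (fun i hi x => (phiOp_eq_phiZ a b α β ha hb S i hi x).symm)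
    (fun x => phiZ_top α β S x)).congr_ab (fun i hi => (ha i hi).symm) (fun i hi => (hb i hi).symm)

theorem Spl.ofZ {a b : ℕ → K} {S : Module.End K U} (α β : ℤ → K)
    (h : Spl A B d (fun i => α i) (fun i => β i) (phiZ d α β S) e c)
    (ha : ∀ i ≤ d, α i = a i) (hb : ∀ i ≤ d, β i = b i) :
    Spl A B d a b (phiOp d a b S) e c :=
  (h.congr_phi (phiOp d a b S) (fun i hi x => phiOp_eq_phiZ a b α β ha hb S i hi x)
    (fun x => phiOp_top a b S x)).congr_ab (fun i hi => ha i hi) (fun i hi => hb i hi)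

end

end Pool.Agent.Helper9.TD
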