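import Pool.Agent.Helper9.TDSimple
import Pool.Agent.Helper9.TDSeq

set_option autoImplicit false

namespace Pool.Agent.Helper9.TD

open Polynomial Module

variable {K : Type*} [Field K] {V : Type*} [AddCommGroup V] [Module K V]
variable {U : Type*} [AddCommGroup U] [Module K U]

/-- operator coefficients, integer indexed sequences -/
def phiZ (d : ℕ) (a b : ℤ → K) (S : Module.End K U) (i : ℕ) : Module.End K U :=
  thZ d a i • S + kap d a b i • (1 : Module.End K U)

theorem phiZ_apply (d : ℕ) (a b : ℤ → K) (S : Module.End K U) (i : ℕ) (x : U) :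
    phiZ d a b S i x = thZ d a i • S x + kap d a b i • x := rfl

section

variable {A B : Module.End K V} {d : ℕ} {a b : ℤ → K} {S : Module.End K U}
    {e : ℕ → U →ₗ[K] V} {c : ℕ → V →ₗ[K] U}

/-- the action of `S` on `V` -/
noncomputable def Sh (d : ℕ) (S : Module.End K U) (e : ℕ → U →ₗ[K] V) (c : ℕ → V →ₗ[K] U) :
    Module.End K V := ∑ i ∈ Finset.range (d + 1), e i ∘ₗ S ∘ₗ c i

theorem Sh_e {a b : ℕ → K} {Φ : ℕ → Module.End K U} (h : Spl A B d a b Φ e c) (j : ℕ) (x : U) :
    Sh d S e c (e j x) = e j (S x) := by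
  rw [Sh, LinearMap.sum_apply]
  by_cases hj : j ≤ d
  · rw [Finset.sum_eq_single j]
    · simp only [LinearMap.comp_apply]
      rw [h.c_e j hj, if_pos rfl]
    · intro i hi hij
      have hi' : i ≤ d := by simpa [Nat.lt_succ_iff] using hi
      simp only [LinearMap.comp_apply]
      rw [h.c_e i hi', if_neg hij, map_zero, map_zero]
    · intro h0
      exact absurd (Finset.mem_range.mpr (by omega)) h0
  · rw [h.e_gt j (by omega)]
    simp

theorem Sh_A {a b : ℕ → K} {Φ : ℕ → Module.End K U} (h : Spl A B d a b Φ e c) (v : V) :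
    Sh d S e c (A v) = A (Sh d S e c v) := by
  rw [← h.sum v]
  simp only [map_sum]
  refine Finset.sum_congr rfl fun i _ => ?_
  rw [h.hA, map_add, map_smul, Sh_e h, Sh_e h, h.hA]

theorem aw1_e {β γ γs : K} (ha : Rec β γ a) (hb : Rec β γs b) (had : a 0 ≠ a d)
    (h : Spl A B d (fun i => a i) (fun i => b i) (phiZ d a b S) e c) (i : ℕ) (x : U) :
    A (A (B (e i x))) - β • A (B (A (e i x))) + B (A (A (e i x)))
      - γ • (A (B (e i x)) + B (A (e i x)))
      - (a 0 ^ 2 - β * a 0 * a 1 + a 1 ^ 2 - γ * (a 0 + a 1)) • B (e i x)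
    = γs • A (A (e i x)) + omS β d a • A (Sh d S e c (e i x)) + om0 β γ γs d a b • A (e i x)
      + etS β d a • Sh d S e c (e i x) + et0 β γ γs d a b • e i x := by
  rcases i with _ | i
  · have s1 := thZ_const ha d 0
    have s2 := two_S ha d had 0
    have s3 := one_C ha hb d 0
    have s4 := two_C ha hb d 0
    have s5 := ha.diag 0
    have s6 := hb 1
    have s7 := ha 0
    rw [thZ_zero] at s1 s2
    simp only [h.hA, h.hB, h.hB0, map_add, map_smul, Sh_e h, phiZ_apply]
    simp only [zero_add] at s1 s2 s3 s4 s5 ⊢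
    push_cast at s1 s2 s3 s4 s5 s6 ⊢
    norm_num at s1 s2 s3 s4 s5 s6 s7 ⊢
    have k0 : kap d a b 0 = 0 := by simp [kap]
    rw [k0] at s3 s4
    have hom : omS β d a = - β * thZ d a 1 + thZ d a 2 := rfl
    linear_combination (norm := module) (s6) • e 2 x + (s3) • e 1 x + (s4) • e 0 x + (s5 * b 0) • e 0 x
      + (s2) • e 0 (S x) - (hom) • e 1 (S x) + s7 • (thZ d a 1 • e 0 (S x) + kap d a b 1 • e 0 x)
  · have s1 := thZ_const ha d (i + 1)
    have s2 := two_S ha d had (i + 1)
    have s3 := one_C ha hb d (i + 1)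
    have s4 := two_C ha hb d (i + 1)
    have s5 := ha.diag (i + 1)
    have s6 := hb (i + 2)
    have s7 := ha (i + 1)
    have s8 := ha.quad i
    simp only [h.hA, h.hB, map_add, map_smul, Sh_e h, phiZ_apply]
    have c1 : (i : ℤ) + 1 - 1 = i := by ring
    have c2 : (i : ℤ) + 1 + 1 = i + 2 := by ring
    have c3 : (i : ℤ) + 2 - 1 = i + 1 := by ring
    have c4 : (i : ℤ) + 2 + 1 = i + 3 := by ring
    have c5 : (i : ℤ) + 1 + 2 = i + 3 := by ring
    have n1 : i + 1 + 1 = i + 2 := rfl
    have n2 : i + 2 + 1 = i + 3 := rfl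
    simp only [n1, n2] at *
    push_cast at s1 s2 s3 s4 s5 s6 s7 s8 ⊢
    simp only [c1, c2, c3, c4, c5] at *
    have hom : omS β d a = - β * thZ d a 1 + thZ d a 2 := rfl
    linear_combination (norm := module) (s6) • e (i + 3) x + (s3) • e (i + 2) x
      + (s4) • e (i + 1) x + (s5 * b (i + 1)) • e (i + 1) x
      + (s2) • e (i + 1) (S x) + (s1) • e (i + 2) (S x) - (hom) • e (i + 2) (S x)
      + s7 • (thZ d a (i + 2) • e (i + 1) (S x) + kap d a b (i + 2) • e (i + 1) x)
      + s7 • (thZ d a (i + 1) • e (i + 1) (S x) + kap d a b (i + 1) • e (i + 1) x)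
      + s8 • (thZ d a (i + 1) • e i (S x) + kap d a b (i + 1) • e i x)

theorem aw1 {β γ γs : K} (ha : Rec β γ a) (hb : Rec β γs b) (had : a 0 ≠ a d)
    (h : Spl A B d (fun i => a i) (fun i => b i) (phiZ d a b S) e c) (v : V) :
    A (A (B v)) - β • A (B (A v)) + B (A (A v)) - γ • (A (B v) + B (A v))
      - (a 0 ^ 2 - β * a 0 * a 1 + a 1 ^ 2 - γ * (a 0 + a 1)) • B v
    = γs • A (A v) + omS β d a • A (Sh d S e c v) + om0 β γ γs d a b • A v
      + etS β d a • Sh d S e c v + et0 β γ γs d a b • v := by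
  rw [← h.sum v]
  simp only [map_sum, Finset.smul_sum, ← Finset.sum_add_distrib, ← Finset.sum_sub_distrib]
  exact Finset.sum_congr rfl fun i _ => aw1_e ha hb had h i (c i v)

end

section

variable {A B : Module.End K V} {d : ℕ} {a b : ℤ → K} {S : Module.End K U}
    {e : ℕ → U →ₗ[K] V}

/-- one step of the recursive computation of `B` on a chain -/
theorem chain_step {β γ γs : K} (ha : Rec β γ a) (hb : Rec β γs b) (had : a 0 ≠ a d)
    (hA : ∀ i x, A (e i x) = a i • e i x + e (i + 1) x)
    (hB0 : ∀ x, B (e 0 x) = b 0 • e 0 x)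
    (hB1 : ∀ x, B (e 1 x) = b 1 • e 1 x + e 0 (phiZ d a b S 1 x))
    (haw : ∀ i x, A (A (B (e i x))) - β • A (B (A (e i x))) + B (A (A (e i x)))
      - γ • (A (B (e i x)) + B (A (e i x)))
      - (a 0 ^ 2 - β * a 0 * a 1 + a 1 ^ 2 - γ * (a 0 + a 1)) • B (e i x)
      = γs • A (A (e i x)) + omS β d a • A (e i (S x)) + om0 β γ γs d a b • A (e i x)
      + etS β d a • e i (S x) + et0 β γ γs d a b • e i x) (i : ℕ) :
    (∀ x, B (e (i + 1) x) = b (i + 1 : ℕ) • e (i + 1) x + e i (phiZ d a b S (i + 1) x)) := by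
  induction i using Nat.strong_induction_on with
  | _ i ih =>
  rcases i with _ | _ | i
  · intro x
    simpa using hB1 x
  · intro x
    have h1 := haw 0 x
    have s1 := thZ_const ha d 0
    have s2 := two_S ha d had 0
    have s3 := one_C ha hb d 0
    have s4 := two_C ha hb d 0
    have s5 := ha.diag 0
    have s6 := hb 1
    have s7 := ha 0
    rw [thZ_zero] at s1 s2
    simp only [hA, hB1, hB0, map_add, map_smul, phiZ_apply] at h1 ⊢
    simp only [zero_add] at s1 s2 s3 s4 s5 h1 ⊢
    push_cast at s1 s2 s3 s4 s5 s6 h1 ⊢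
    norm_num at s1 s2 s3 s4 s5 s6 s7 h1 ⊢
    have k0 : kap d a b 0 = 0 := by simp [kap]
    rw [k0] at s3 s4
    have hom : omS β d a = - β * thZ d a 1 + thZ d a 2 := rfl
    linear_combination (norm := module) h1 - ((s6) • e 2 x + (s3) • e 1 x + (s4) • e 0 x + (s5 * b 0) • e 0 x
      + (s2) • e 0 (S x) - (hom) • e 1 (S x) + s7 • (thZ d a 1 • e 0 (S x) + kap d a b 1 • e 0 x))
  · intro x
    have h1 := haw (i + 1) x
    have hBa := ih i (by omega)
    have hBb := ih (i + 1) (by omega)
    have s1 := thZ_const ha d (i + 1)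
    have s2 := two_S ha d had (i + 1)
    have s3 := one_C ha hb d (i + 1)
    have s4 := two_C ha hb d (i + 1)
    have s5 := ha.diag (i + 1)
    have s6 := hb (i + 2)
    have s7 := ha (i + 1)
    have s8 := ha.quad i
    have c1 : (i : ℤ) + 1 - 1 = i := by ring
    have c2 : (i : ℤ) + 1 + 1 = i + 2 := by ring
    have c3 : (i : ℤ) + 2 - 1 = i + 1 := by ring
    have c4 : (i : ℤ) + 2 + 1 = i + 3 := by ring
    have c5 : (i : ℤ) + 1 + 2 = i + 3 := by ring
    have n1 : i + 1 + 1 = i + 2 := rfl
    have n2 : i + 2 + 1 = i + 3 := rfl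
    have n3 : i + 1 + 2 = i + 3 := rfl
    simp only [n1, n2] at *
    simp only [hA, hBa, hBb, map_add, map_smul, phiZ_apply] at h1 ⊢
    push_cast at s1 s2 s3 s4 s5 s6 s7 s8 h1 ⊢
    simp only [c1, c2, c3, c4, c5] at *
    have hom : omS β d a = - β * thZ d a 1 + thZ d a 2 := rfl
    linear_combination (norm := module) h1 - ((s6) • e (i + 3) x + (s3) • e (i + 2) x
      + (s4) • e (i + 1) x + (s5 * b (i + 1)) • e (i + 1) x
      + (s2) • e (i + 1) (S x) + (s1) • e (i + 2) (S x) - (hom) • e (i + 2) (S x)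
      + s7 • (thZ d a (i + 2) • e (i + 1) (S x) + kap d a b (i + 2) • e (i + 1) x)
      + s7 • (thZ d a (i + 1) • e (i + 1) (S x) + kap d a b (i + 1) • e (i + 1) x)
      + s8 • (thZ d a (i + 1) • e i (S x) + kap d a b (i + 1) • e i x))

theorem chain_aeval (A : Module.End K V) (a : ℕ → K) (e0 : U →ₗ[K] V) (i : ℕ) (x : U) :
    chain A a e0 i x = aeval A (∏ j ∈ Finset.range i, (X - C (a j))) (e0 x) := by
  induction i with
  | zero => simp [chain_zero]
  | succ i ih =>
    rw [chain_succ, ih, Finset.prod_range_succ, mul_comm, map_mul, Module.End.mul_apply]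
    simp only [map_sub, aeval_X, aeval_C, LinearMap.sub_apply, Module.algebraMap_end_apply]

theorem chainMap_bij_of {a b : ℕ → K} {Φ : ℕ → Module.End K U} {c : ℕ → V →ₗ[K] U}
    (h : Spl A B d a b Φ e c) : Function.Bijective (chainMap d e) := by
  constructor
  · rw [← LinearMap.ker_eq_bot, LinearMap.ker_eq_bot']
    intro x hx
    funext i
    rw [chainMap_apply] at hx
    have h1 := congrArg (c i) hx
    rw [map_zero, map_sum, Finset.sum_eq_single i] at h1
    · rw [h.c_e i (by omega), if_pos rfl] at h1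
      exact h1
    · intro j _ hj
      rw [h.c_e i (by omega), if_neg]
      intro h2
      exact hj (Fin.ext h2.symm)
    · intro h2
      exact absurd (Finset.mem_univ _) h2
  · intro v
    refine ⟨fun i => c i v, ?_⟩
    rw [chainMap_apply]
    have h1 := h.sum v
    rw [Finset.sum_range] at h1
    exact h1

theorem Spl.finDim {a b : ℕ → K} {Φ : ℕ → Module.End K U} {c : ℕ → V →ₗ[K] U}
    [FiniteDimensional K U] (h : Spl A B d a b Φ e c) : FiniteDimensional K V := by
  have h1 := (chainMap_bij_of h).2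
  exact Module.Finite.of_surjective (chainMap d e) h1

theorem Spl.finrank {a b : ℕ → K} {Φ : ℕ → Module.End K U} {c : ℕ → V →ₗ[K] U}
    (h : Spl A B d a b Φ e c) :
    finrank K (Fin (d + 1) → U) = finrank K V :=
  (LinearEquiv.ofBijective (chainMap d e) (chainMap_bij_of h)).finrank_eq

theorem Spl.flip [FiniteDimensional K U] {β γ γs : K} (ha : Rec β γ a) (hb : Rec β γs b)
    (had : a 0 ≠ a d) {c : ℕ → V →ₗ[K] U}
    (h : Spl A B d (fun i => a i) (fun i => b i) (phiZ d a b S) e c) :
    ∃ (e' : ℕ → U →ₗ[K] V) (c' : ℕ → V →ₗ[K] U),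
      Spl A B d (fun i => a (d - i)) (fun i => b i)
        (phiZ d (fun j => a (d - j)) b (S + kap d a b 1 • (1 : Module.End K U))) e' c' ∧
      e' 0 = e 0 := by
  have hfin := h.finDim
  set α : ℤ → K := fun j => a (d - j) with hα
  set S' : Module.End K U := S + kap d a b 1 • (1 : Module.End K U) with hS'
  set e' := chain A (fun i : ℕ => α i) (e 0) with he'
  have hA : ∀ i x, A (e' i x) = α i • e' i x + e' (i + 1) x := fun i x => chain_A A _ _ i x
  have hSh : ∀ i x, Sh d S e c (e' i x) = e' i (S x) := by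
    intro i
    induction i with
    | zero => intro x; rw [he', chain_zero, Sh_e h]
    | succ i ih =>
      intro x
      have h1 : ∀ y, e' (i + 1) y = A (e' i y) - α i • e' i y := fun y => chain_succ A _ _ i y
      rw [h1, map_sub, map_smul, Sh_A h, ih, h1]
  have hαrec : Rec β γ α := ha.rev d
  have hα0 : α 0 = a d := by simp [hα]
  have hαd : α d = a 0 := by simp [hα]
  have hαne : α 0 ≠ α d := by rw [hα0, hαd]; exact Ne.symm had
  have hrho : a 0 ^ 2 - β * a 0 * a 1 + a 1 ^ 2 - γ * (a 0 + a 1) =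
      α 0 ^ 2 - β * α 0 * α 1 + α 1 ^ 2 - γ * (α 0 + α 1) := by
    have h1 := ha.quad (d - 1)
    have e1 : (d : ℤ) - 1 + 1 = d := by ring
    rw [e1] at h1
    have h2 : α 1 = a (d - 1) := rfl
    rw [← h1, hα0, h2]
    ring
  have haw : ∀ i x, A (A (B (e' i x))) - β • A (B (A (e' i x))) + B (A (A (e' i x)))
      - γ • (A (B (e' i x)) + B (A (e' i x)))
      - (α 0 ^ 2 - β * α 0 * α 1 + α 1 ^ 2 - γ * (α 0 + α 1)) • B (e' i x)
      = γs • A (A (e' i x)) + omS β d α • A (e' i (S' x)) + om0 β γ γs d α b • A (e' i x)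
      + etS β d α • e' i (S' x) + et0 β γ γs d α b • e' i x := by
    intro i x
    have h1 := aw1 ha hb had h (e' i x)
    rw [hSh] at h1
    rw [← hrho, h1]
    have e1 := om0_rev (γ := γ) hb d had
    have e2 := et0_rev ha hb d had
    have e3 : etS β d α = etS β d a := etS_rev ha d had
    have e4 : omS β d α = omS β d a := by
      simp only [omS, hα, thZ_rev]
    have e5 : S' x = S x + kap d a b 1 • x := rfl
    rw [e3, e4, e5, ← e1, ← e2]
    simp only [map_add, map_smul]
    module
  have hB0 : ∀ x, B (e' 0 x) = b 0 • e' 0 x := by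
    intro x
    rw [he', chain_zero]
    exact h.hB0 x
  have hB1 : ∀ x, B (e' 1 x) = b 1 • e' 1 x + e' 0 (phiZ d α b S' 1 x) := by
    intro x
    have h1 : e' 1 x = A (e 0 x) - α 0 • e 0 x := chain_succ A _ _ 0 x
    have h2 : e' 0 = e 0 := rfl
    rw [h1, h2, phiZ_apply, thZ_one d α hαne]
    have e5 : S' x = S x + kap d a b 1 • x := rfl
    have e6 : kap d α b 1 = (b 1 - b 0) * (a d - a 0) := by
      simp only [kap, hαd]
      norm_num
      left
      exact hα0
    have e7 : kap d a b 1 = (b 1 - b 0) * (a 0 - a d) := by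
      simp only [kap]
      norm_num
    have e8 := h.hB 0 x
    have e9 := h.hA 0 x
    have e10 := h.hB0 x
    simp only [zero_add, phiZ_apply, thZ_one d a had] at e8
    push_cast at e8 e9 e10
    rw [e9, map_sub, map_add, map_smul, map_smul, e8, e10, e5, e6, e7, hα0]
    simp only [map_add, map_smul]
    module
  have hB := chain_step hαrec hb hαne hA hB0 hB1 haw
  have hlast : e' (d + 1) = 0 := by
    ext x
    have h0 : chain A (fun i : ℕ => a i) (e 0) (d + 1) x = 0 := by
      have h1 : ∀ i, chain A (fun i : ℕ => a i) (e 0) i x = e i x := by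
        intro i
        induction i with
        | zero => rfl
        | succ i ih => rw [chain_succ, ih, h.hA]; abel
      rw [h1, h.e_gt (d + 1) (by omega)]
      rfl
    rw [chain_aeval] at h0
    rw [he', chain_aeval]
    have h2 := Finset.prod_range_reflect (fun j : ℕ => (X - C (a j) : K[X])) (d + 1)
    rw [← h2] at h0
    simp only [Nat.add_sub_cancel] at h0
    have h3 : ∏ j ∈ Finset.range (d + 1), (X - C (a ((d - j : ℕ) : ℤ)) : K[X]) =
        ∏ j ∈ Finset.range (d + 1), (X - C (α j)) := by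
      refine Finset.prod_congr rfl fun j hj => ?_
      have hj' : j ≤ d := by simpa [Nat.lt_succ_iff] using hj
      simp only [hα]
      push_cast [hj']
      rfl
    rw [h3] at h0
    rw [h0]
    simp
  have hgt : ∀ i, d < i → e' i = 0 := chain_gt A (fun i : ℕ => α i) (e 0) d hlast
  have hsurj : Function.Surjective (chainMap d e') := by
    rw [← LinearMap.range_eq_top]
    have hmem : ∀ i x, e' i x ∈ LinearMap.range (chainMap d e') := by
      intro i x
      by_cases hi : i < d + 1
      · refine ⟨Pi.single (⟨i, hi⟩ : Fin (d + 1)) x, ?_⟩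
        rw [chainMap_apply, Finset.sum_eq_single (⟨i, hi⟩ : Fin (d + 1))]
        · rw [Pi.single_eq_same]
        · intro k _ hk
          rw [Pi.single_eq_of_ne hk, map_zero]
        · intro h; exact absurd (Finset.mem_univ _) h
      · rw [hgt i (by omega)]
        exact Submodule.zero_mem _
    have hAinv : ∀ v ∈ LinearMap.range (chainMap d e'), A v ∈ LinearMap.range (chainMap d e') := by
      rintro _ ⟨x, rfl⟩
      rw [chainMap_apply, map_sum]
      refine Submodule.sum_mem _ fun i _ => ?_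
      rw [hA]
      exact Submodule.add_mem _ (Submodule.smul_mem _ _ (hmem _ _)) (hmem _ _)
    have hmem2 : ∀ i x, e i x ∈ LinearMap.range (chainMap d e') := by
      intro i
      induction i with
      | zero => intro x; exact hmem 0 x
      | succ i ih =>
        intro x
        have h1 : e (i + 1) x = A (e i x) - a i • e i x := by rw [h.hA]; abel
        rw [h1]
        exact Submodule.sub_mem _ (hAinv _ (ih x)) (Submodule.smul_mem _ _ (ih x))
    rw [eq_top_iff]
    intro v _
    rw [← h.sum v]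
    exact Submodule.sum_mem _ fun i _ => hmem2 i _
  have hbij : Function.Bijective (chainMap d e') :=
    ⟨(LinearMap.injective_iff_surjective_of_finrank_eq_finrank h.finrank).mpr hsurj, hsurj⟩
  obtain ⟨c', hc1, hc2, hc3⟩ := exists_coords d e' hgt hbij
  exact ⟨e', c', ⟨fun i x => hA i x, hB0, fun i x => hB i x, hgt, hc1, hc2, hc3⟩, rfl⟩

end

end Pool.Agent.Helper9.TD
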