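import Pool.Agent.Helper9.TDRel

set_option autoImplicit false

namespace Pool.Agent.Helper9.TD

open Polynomial Module

variable {K : Type*} [Field K] {V : Type*} [AddCommGroup V] [Module K V]
variable {U : Type*} [AddCommGroup U] [Module K U]

section

variable {A B : Module.End K V} {d : ℕ} {a b : ℕ → K} {S : Module.End K U}
    {e : ℕ → U →ₗ[K] V} {c : ℕ → V →ₗ[K] U}
variable {V' : Type*} [AddCommGroup V'] [Module K V'] {U' : Type*} [AddCommGroup U'] [Module K U']

theorem Spl.iso (h : Spl A B d a b (phiOp d a b S) e c) {A' B' : Module.End K V'}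
    {S' : Module.End K U'} {e' : ℕ → U' →ₗ[K] V'} {c' : ℕ → V' →ₗ[K] U'}
    (h' : Spl A' B' d a b (phiOp d a b S') e' c') (ψ : U ≃ₗ[K] U') (hψ : ∀ x, ψ (S x) = S' (ψ x)) :
    ∃ σ : V ≃ₗ[K] V', (∀ v, σ (A v) = A' (σ v)) ∧ (∀ v, σ (B v) = B' (σ v)) := by
  let σ : V →ₗ[K] V' := ∑ i ∈ Finset.range (d + 1), e' i ∘ₗ ψ.toLinearMap ∘ₗ c i
  let τ : V' →ₗ[K] V := ∑ i ∈ Finset.range (d + 1), e i ∘ₗ ψ.symm.toLinearMap ∘ₗ c' i
  have hσe : ∀ j x, σ (e j x) = e' j (ψ x) := by
    intro j x
    by_cases hj : j ≤ d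
    · simp only [σ, LinearMap.sum_apply, LinearMap.comp_apply]
      rw [Finset.sum_eq_single j]
      · rw [h.c_e j hj, if_pos rfl]; rfl
      · intro i hi hij
        have hi' : i ≤ d := by simpa [Nat.lt_succ_iff] using hi
        rw [h.c_e i hi', if_neg hij, map_zero, map_zero]
      · intro h0
        exact absurd (Finset.mem_range.mpr (by omega)) h0
    · rw [h.e_gt j (by omega), h'.e_gt j (by omega)]
      simp
  have hτe : ∀ j x, τ (e' j x) = e j (ψ.symm x) := by
    intro j x
    by_cases hj : j ≤ d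
    · simp only [τ, LinearMap.sum_apply, LinearMap.comp_apply]
      rw [Finset.sum_eq_single j]
      · rw [h'.c_e j hj, if_pos rfl]; rfl
      · intro i hi hij
        have hi' : i ≤ d := by simpa [Nat.lt_succ_iff] using hi
        rw [h'.c_e i hi', if_neg hij, map_zero, map_zero]
      · intro h0
        exact absurd (Finset.mem_range.mpr (by omega)) h0
    · rw [h.e_gt j (by omega), h'.e_gt j (by omega)]
      simp
  have hστ : ∀ w, σ (τ w) = w := by
    intro w
    rw [← h'.sum w]
    simp only [map_sum]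
    exact Finset.sum_congr rfl fun i _ => by rw [hτe, hσe, LinearEquiv.apply_symm_apply]
  have hτσ : ∀ w, τ (σ w) = w := by
    intro w
    rw [← h.sum w]
    simp only [map_sum]
    exact Finset.sum_congr rfl fun i _ => by rw [hσe, hτe, LinearEquiv.symm_apply_apply]
  refine ⟨LinearEquiv.ofLinearMap σ τ (LinearMap.ext hστ) (LinearMap.ext hτσ), ?_, ?_⟩
  · intro v
    change σ (A v) = A' (σ v)
    rw [← h.sum v]
    simp only [map_sum]
    refine Finset.sum_congr rfl fun i _ => ?_
    rw [h.hA, map_add, map_smul, hσe, hσe, h'.hA]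
  · intro v
    change σ (B v) = B' (σ v)
    rw [← h.sum v]
    simp only [map_sum]
    refine Finset.sum_congr rfl fun i _ => ?_
    rcases i with _ | i
    · rw [h.hB0, map_smul, hσe, h'.hB0]
    · rw [h.hB, map_add, map_smul, hσe, hσe, h'.hB]
      congr 2
      simp only [phiOp_apply, map_add, map_smul, hψ]

/-- transport of a split form along an isomorphism -/
theorem Spl.transport {Φ : ℕ → Module.End K U} (h : Spl A B d a b Φ e c) {A' B' : Module.End K V'}
    (σ : V ≃ₗ[K] V') (hA : ∀ v, σ (A v) = A' (σ v)) (hB : ∀ v, σ (B v) = B' (σ v)) :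
    Spl A' B' d a b Φ (fun i => σ.toLinearMap ∘ₗ e i) (fun i => c i ∘ₗ σ.symm.toLinearMap) where
  hA := by
    intro i x
    simp only [LinearMap.comp_apply, LinearEquiv.coe_coe]
    rw [← hA, h.hA, map_add, map_smul]
  hB0 := by
    intro x
    simp only [LinearMap.comp_apply, LinearEquiv.coe_coe]
    rw [← hB, h.hB0, map_smul]
  hB := by
    intro i x
    simp only [LinearMap.comp_apply, LinearEquiv.coe_coe]
    rw [← hB, h.hB, map_add, map_smul]
  e_gt := by
    intro i hi
    rw [h.e_gt i hi, LinearMap.comp_zero]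
  c_e := by
    intro i hi j x
    simp only [LinearMap.comp_apply, LinearEquiv.coe_coe, LinearEquiv.symm_apply_apply]
    exact h.c_e i hi j x
  c_gt := by
    intro i hi
    rw [h.c_gt i hi, LinearMap.zero_comp]
  sum := by
    intro v
    simp only [LinearMap.comp_apply, LinearEquiv.coe_coe]
    rw [← map_sum, h.sum, LinearEquiv.apply_symm_apply]

theorem Spl.eig0 (injb : ∀ i ≤ d, ∀ j ≤ d, b i = b j → i = j)
    (h : Spl A B d a b (phiOp d a b S) e c) (y : V) (hyB : B y = b 0 • y) : y = e 0 (c 0 y) := by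
  have hcy : ∀ r k, d + 1 ≤ k + r → 1 ≤ k → c k y = 0 := by
    intro r
    induction r with
    | zero => intro k hk _; rw [h.c_gt k (by omega)]; rfl
    | succ r ih =>
      intro k hk hk1
      by_cases hkd : k ≤ d
      · have h1 := h.c_B k hkd y
        rw [hyB, map_smul, ih (k + 1) (by omega) (by omega), map_zero, add_zero, ← sub_eq_zero,
          ← sub_smul] at h1
        rcases smul_eq_zero.mp h1 with h2 | h2
        · have := injb 0 (by omega) k hkd (sub_eq_zero.mp h2)
          omega
        · exact h2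
      · rw [h.c_gt k (by omega)]; rfl
  apply h.ext_c
  intro i hi
  rw [h.c_e i hi]
  by_cases hi0 : i = 0
  · rw [if_pos hi0, hi0]
  · rw [if_neg hi0]; exact hcy (d + 1) i (by omega) (by omega)

theorem Spl.eS (had : a 0 ≠ a d) (h : Spl A B d a b (phiOp d a b S) e c) (x : U) :
    e 0 (S x) = B (A (e 0 x) - a 0 • e 0 x) - b 1 • (A (e 0 x) - a 0 • e 0 x)
      - ((b 1 - b 0) * (a 0 - a d)) • e 0 x := by
  have h2 : A (e 0 x) - a 0 • e 0 x = e 1 x := by rw [h.hA]; abel
  have h3 := h.hB 0 x
  simp only [zero_add] at h3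
  rw [phiOp_apply, th_one d a had, one_smul, map_add, map_smul, Nat.sub_self] at h3
  rw [h2, h3]
  abel

/-- the operator `S` is determined up to similarity by the pair and the orderings -/
theorem Spl.unique {S' : Module.End K U'} {e' : ℕ → U' →ₗ[K] V} {c' : ℕ → V →ₗ[K] U'}
    (had : a 0 ≠ a d) (injb : ∀ i ≤ d, ∀ j ≤ d, b i = b j → i = j)
    (h : Spl A B d a b (phiOp d a b S) e c) (h' : Spl A B d a b (phiOp d a b S') e' c') :
    ∃ ψ : U ≃ₗ[K] U', ∀ x, ψ (S x) = S' (ψ x) := by
  have key := h.eig0 injb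
  have key' := h'.eig0 injb
  have key2 := h.eS had
  have key2' := h'.eS had
  have e1 : ∀ x, e 0 x = e' 0 (c' 0 (e 0 x)) := fun x => key' _ (h.hB0 x)
  have e2 : ∀ x, e' 0 x = e 0 (c 0 (e' 0 x)) := fun x => key _ (h'.hB0 x)
  have i1 : ∀ x y, e 0 x = e 0 y → x = y := by
    intro x y hxy
    have := congrArg (c 0) hxy
    rwa [h.c_e 0 (by omega), h.c_e 0 (by omega), if_pos rfl, if_pos rfl] at this
  have i2 : ∀ x y, e' 0 x = e' 0 y → x = y := by
    intro x y hxy
    have := congrArg (c' 0) hxy
    rwa [h'.c_e 0 (by omega), h'.c_e 0 (by omega), if_pos rfl, if_pos rfl] at this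
  refine ⟨LinearEquiv.ofLinearMap (c' 0 ∘ₗ e 0) (c 0 ∘ₗ e' 0) ?_ ?_, ?_⟩
  · ext x
    apply i2
    simp only [LinearMap.comp_apply, LinearMap.id_apply]
    rw [← e2]
    exact (key' _ (h'.hB0 x)).symm
  · ext x
    apply i1
    simp only [LinearMap.comp_apply, LinearMap.id_apply]
    rw [← e1]
    exact (key _ (h.hB0 x)).symm
  · intro x
    change c' 0 (e 0 (S x)) = S' (c' 0 (e 0 x))
    apply i2
    rw [← e1, key2' (c' 0 (e 0 x)), ← e1, key2]

end

/-! ### the models -/

section

variable (F : Type*) [CommRing F] [Algebra K F]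

/-- the first map of the model -/
def mA (d : ℕ) (a : ℕ → K) : Module.End K (Fin (d + 1) → F) where
  toFun v := fun i => a i • v i + if h : 0 < (i : ℕ) then v ⟨i - 1, by omega⟩ else 0
  map_add' v w := by
    funext i
    simp only [Pi.add_apply, smul_add]
    split_ifs <;> ring
  map_smul' r v := by
    funext i
    simp only [Pi.smul_apply, RingHom.id_apply, smul_add, smul_comm (a i) r]
    split_ifs <;> simp

/-- the second map of the model -/
def mB (d : ℕ) (b : ℕ → K) (φ : ℕ → F) : Module.End K (Fin (d + 1) → F) where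
  toFun v := fun i => b i • v i + if h : (i : ℕ) < d then φ (i + 1) * v ⟨i + 1, by omega⟩ else 0
  map_add' v w := by
    funext i
    simp only [Pi.add_apply, smul_add]
    split_ifs <;> ring
  map_smul' r v := by
    funext i
    simp only [Pi.smul_apply, RingHom.id_apply, smul_add, smul_comm (b i) r]
    split_ifs <;> simp

/-- the embeddings -/
def mE (d : ℕ) (i : ℕ) : F →ₗ[K] (Fin (d + 1) → F) :=
  if h : i < d + 1 then LinearMap.single K (fun _ => F) ⟨i, h⟩ else 0

/-- the coordinates -/
def mC (d : ℕ) (i : ℕ) : (Fin (d + 1) → F) →ₗ[K] F :=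
  if h : i < d + 1 then LinearMap.proj ⟨i, h⟩ else 0

theorem mE_apply (d i : ℕ) (x : F) (j : Fin (d + 1)) :
    mE (K := K) F d i x j = if i = (j : ℕ) then x else 0 := by
  rw [mE]
  split_ifs with h1 h2 h2
  · have : j = ⟨i, h1⟩ := Fin.ext h2.symm
    subst this
    simp
  · rw [LinearMap.single_apply, Pi.single_eq_of_ne]
    intro h3
    exact h2 (congrArg Fin.val h3).symm
  · exact absurd j.isLt (by omega)
  · rfl

theorem mC_apply (d i : ℕ) (hi : i < d + 1) (v : Fin (d + 1) → F) :
    mC (K := K) F d i v = v ⟨i, hi⟩ := by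
  rw [mC, dif_pos hi]
  rfl

theorem model_spl (d : ℕ) (a b : ℕ → K) (r : F) (φ : ℕ → F)
    (hφ : ∀ i, φ i = algebraMap K F (th d a i) * r +
      algebraMap K F ((b i - b 0) * (a (i - 1) - a d))) :
    Spl (mA F d a) (mB F d b φ) d a b (phiOp d a b (LinearMap.mulLeft K r))
      (mE F d) (mC F d) where
  hA := by
    intro i x
    funext j
    simp only [mA, LinearMap.coe_mk, AddHom.coe_mk, mE_apply, Pi.add_apply, Pi.smul_apply]
    by_cases hij : i = (j : ℕ)
    · subst hij
      rw [if_pos rfl, if_neg (by omega)]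
      by_cases hj : 0 < (j : ℕ)
      · rw [dif_pos hj, if_neg (by omega)]
      · rw [dif_neg hj]
    · rw [if_neg hij, smul_zero, smul_zero, zero_add, zero_add]
      by_cases hj : 0 < (j : ℕ)
      · rw [dif_pos hj]
        by_cases hij' : i + 1 = (j : ℕ)
        · rw [if_pos hij', if_pos (by omega)]
        · rw [if_neg hij', if_neg (by omega)]
      · rw [dif_neg hj, if_neg (by omega)]
  hB0 := by
    intro x
    funext j
    simp only [mB, LinearMap.coe_mk, AddHom.coe_mk, mE_apply, Pi.smul_apply]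
    by_cases hij : 0 = (j : ℕ)
    · have hb0 : b (j : ℕ) = b 0 := by rw [← hij]
      have hz : ¬ (0 = (j : ℕ) + 1) := by omega
      rw [if_pos hij, hb0]
      simp only [if_neg hz, mul_zero]
      split_ifs <;> simp
    · have hz : ¬ (0 = (j : ℕ) + 1) := by omega
      rw [if_neg hij]
      simp only [if_neg hz, mul_zero]
      split_ifs <;> simp
  hB := by
    intro i x
    funext j
    simp only [mB, LinearMap.coe_mk, AddHom.coe_mk, mE_apply, Pi.add_apply, Pi.smul_apply]
    by_cases hij : i + 1 = (j : ℕ)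
    · have hb0 : b (j : ℕ) = b (i + 1) := by rw [← hij]
      have hz : ¬ (i + 1 = (j : ℕ) + 1) := by omega
      have hz2 : ¬ (i = (j : ℕ)) := by omega
      rw [if_pos hij, hb0, if_neg hz2]
      simp only [if_neg hz, mul_zero]
      split_ifs <;> simp
    · rw [if_neg hij, smul_zero, smul_zero, zero_add, zero_add]
      by_cases hij' : i = (j : ℕ)
      · rw [if_pos hij']
        by_cases hjd : (j : ℕ) < d
        · rw [dif_pos hjd, if_pos (by omega), phiOp_apply, ← hij', hφ, LinearMap.mulLeft_apply,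
            Algebra.smul_def, Algebra.smul_def]
          ring
        · rw [dif_neg hjd]
          have : i + 1 = d + 1 := by omega
          rw [this, phiOp_top]
      · rw [if_neg hij']
        by_cases hjd : (j : ℕ) < d
        · rw [dif_pos hjd, if_neg (by omega), mul_zero]
        · rw [dif_neg hjd]
  e_gt := by
    intro i hi
    rw [mE, dif_neg (by omega)]
  c_e := by
    intro i hi j x
    rw [mC_apply F d i (by omega), mE_apply]
    simp only
    by_cases hij : i = j
    · rw [if_pos hij, if_pos hij.symm]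
    · rw [if_neg hij, if_neg (fun h => hij h.symm)]
  c_gt := by
    intro i hi
    rw [mC, dif_neg (by omega)]
  sum := by
    intro v
    funext j
    rw [Finset.sum_apply, Finset.sum_eq_single (j : ℕ)]
    · rw [mE_apply, if_pos rfl, mC_apply F d j j.isLt]
    · intro i _ hij
      rw [mE_apply, if_neg hij]
    · intro h0
      exact absurd (Finset.mem_range.mpr j.isLt) h0

end

end Pool.Agent.Helper9.TD
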