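import Pool.Agent.Helper9.TDSys

set_option autoImplicit false

namespace Pool.Agent.Helper9.TD

open Polynomial Module

variable {K : Type*} [Field K] {V : Type*} [AddCommGroup V] [Module K V]
variable {U : Type*} [AddCommGroup U] [Module K U]

/-- products `(x - a 0) ⋯ (x - a (i-1))` -/
def pp (x : K) (a : ℕ → K) : ℕ → K
  | 0 => 1
  | (i + 1) => pp x a i * (x - a i)

/-- divided differences of the previous products -/
def gg (x y : K) (a : ℕ → K) : ℕ → K
  | 0 => 0
  | (i + 1) => (y - a i) * gg x y a i + pp x a i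

section

variable {A B : Module.End K V} {d : ℕ} {a b : ℕ → K} {Φ : ℕ → Module.End K U}
    {e : ℕ → U →ₗ[K] V} {c : ℕ → V →ₗ[K] U}

theorem Spl.compare (h : Spl A B d a b Φ e c) (hd : 1 ≤ d) (a' : ℕ → K) (e' : ℕ → U →ₗ[K] V)
    (Φ' : ℕ → Module.End K U) (he0 : e' 0 = e 0)
    (hA' : ∀ i x, A (e' i x) = a' i • e' i x + e' (i + 1) x)
    (hB' : ∀ i x, B (e' (i + 1) x) = b (i + 1) • e' (i + 1) x + e' i (Φ' (i + 1) x))
    (i : ℕ) (x : U) :
    pp (a 0) a' i • Φ' (i + 1) x = gg (a 0) (a 1) a' (i + 1) • Φ 1 x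
      - ((b (i + 1) - b 0) * pp (a 0) a' (i + 1)) • x := by
  have h0 : ∀ i x, c 0 (e' i x) = pp (a 0) a' i • x := by
    intro i
    induction i with
    | zero => intro x; rw [he0, h.c_e 0 (by omega), if_pos rfl, pp, one_smul]
    | succ i ih =>
      intro x
      have h1 : e' (i + 1) x = A (e' i x) - a' i • e' i x := by rw [hA']; abel
      rw [h1, map_sub, map_smul, h.c_A_zero, ih, smul_smul, smul_smul, ← sub_smul, pp]
      congr 1; ring
  have h1 : ∀ i x, c 1 (e' i x) = gg (a 0) (a 1) a' i • x := by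
    intro i
    induction i with
    | zero => intro x; rw [he0, h.c_e 1 hd, if_neg (by omega), gg, zero_smul]
    | succ i ih =>
      intro x
      have h1 : e' (i + 1) x = A (e' i x) - a' i • e' i x := by rw [hA']; abel
      rw [h1, map_sub, map_smul, h.c_A_succ 0 hd, zero_add, ih, h0, smul_smul, smul_smul, gg]
      module
  have h2 := congrArg (c 0) (hB' i x)
  rw [h.c_B 0 (by omega), map_add, map_smul, h0, h0, zero_add, h1, map_smul] at h2
  rw [pp] at h2 ⊢
  have h3 : pp (a 0) a' i • Φ' (i + 1) x =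
      (b 0 • (pp (a 0) a' i * (a 0 - a' i)) • x + gg (a 0) (a 1) a' (i + 1) • Φ 1 x) -
      b (i + 1) • (pp (a 0) a' i * (a 0 - a' i)) • x := by
    rw [h2]; abel
  rw [h3]
  module

theorem Spl.supp_A (h : Spl A B d a b Φ e c) (k : ℕ) (v : V) (hv : ∀ m, k < m → c m v = 0)
    (m : ℕ) (hm : k + 1 < m) : c m (A v) = 0 := by
  obtain ⟨m, rfl⟩ : ∃ m', m = m' + 1 := ⟨m - 1, by omega⟩
  by_cases hmd : m + 1 ≤ d
  · rw [h.c_A_succ m hmd, hv (m + 1) (by omega), hv m (by omega), smul_zero, add_zero]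
  · rw [h.c_gt (m + 1) (by omega)]; rfl

theorem Spl.supp_B (h : Spl A B d a b Φ e c) (k : ℕ) (v : V) (hv : ∀ m, k < m → c m v = 0)
    (m : ℕ) (hm : k < m) : c m (B v) = 0 := by
  by_cases hmd : m ≤ d
  · rw [h.c_B m hmd, hv m hm, hv (m + 1) (by omega), smul_zero, map_zero, add_zero]
  · rw [h.c_gt m (by omega)]; rfl

theorem Spl.poly_coords (h : Spl A B d a b Φ e c) (g : K[X]) :
    ∃ ζ : ℕ → K, ∀ m x, c m (aeval A g (e 0 x)) = ζ m • x := by
  induction g using Polynomial.induction_on with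
  | C r =>
    refine ⟨fun m => if m = 0 then r else 0, fun m x => ?_⟩
    rw [aeval_C, Module.algebraMap_end_apply, map_smul]
    by_cases hm0 : m = 0
    · subst hm0
      rw [h.c_e 0 (by omega)]; simp
    · by_cases hm : m ≤ d
      · rw [h.c_e m hm]; simp [hm0]
      · rw [h.c_gt m (by omega)]; simp [hm0]
  | add p q hp hq =>
    obtain ⟨ζ, hζ⟩ := hp
    obtain ⟨ξ, hξ⟩ := hq
    exact ⟨fun m => ζ m + ξ m, fun m x => by
      rw [map_add, LinearMap.add_apply, map_add, hζ, hξ, add_smul]⟩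
  | monomial n r ih =>
    obtain ⟨ζ, hζ⟩ := ih
    refine ⟨fun m => if m ≤ d then (if m = 0 then a 0 * ζ 0 else a m * ζ m + ζ (m - 1)) else 0,
      fun m x => ?_⟩
    have h1 : aeval A (C r * X ^ (n + 1)) (e 0 x) = A (aeval A (C r * X ^ n) (e 0 x)) := by
      rw [pow_succ', ← mul_assoc, mul_comm (C r) X, mul_assoc, map_mul, aeval_X]
      rfl
    rw [h1]
    rcases m with _ | m
    · rw [h.c_A_zero, hζ, smul_smul]; simp
    · by_cases hm : m + 1 ≤ d
      · rw [h.c_A_succ m hm, hζ, hζ, smul_smul, ← add_smul]; simp [hm]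
      · rw [h.c_gt (m + 1) (by omega)]; simp [hm]

end

/-- The interpolation identity. -/
theorem interp_identity {A B : Module.End K V} {d : ℕ} {a : ℕ → K} {P : ℕ → Module.End K V}
    (iA : Idem A d a P)
    (triA : ∀ i ≤ d, ∀ j ≤ d, (i + 1 < j ∨ j + 1 < i) → ∀ v, P j (B (P i v)) = 0)
    (z : K[X]) (hz : ∀ i, i + 1 ≤ d → z.eval (a (i + 1)) - z.eval (a i)
      = a (i + 1) * a i * (a (i + 1) - a i)) (v : V) :
    A (A (B (A v))) - A (B (A (A v))) = aeval A z (B v) - B (aeval A z v) := by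
  have hone : ∀ i ≤ d, ∀ v, A v = a i • v → A (A (B (A v))) - A (B (A (A v)))
      = aeval A z (B v) - B (aeval A z v) := by
    intro i hi v hv
    simp only [hv, map_smul, aeval_eig A z _ v hv]
    have hsum := iA.sum (B v)
    have hPv := iA.mem i hi v hv
    have hterm : ∀ j ∈ Finset.range (d + 1),
        a i • A (A (P j (B v))) - a i • a i • A (P j (B v)) =
          aeval A z (P j (B v)) - z.eval (a i) • P j (B v) := by
      intro j hj
      have hj' : j ≤ d := by simpa [Nat.lt_succ_iff] using hj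
      rw [aeval_eig A z _ _ (iA.eig j hj' _), iA.eig j hj', map_smul, iA.eig j hj', smul_smul,
        smul_smul, smul_smul, smul_smul, ← sub_smul, ← sub_smul]
      by_cases h1 : i + 1 < j ∨ j + 1 < i
      · have : P j (B v) = 0 := by rw [← hPv]; exact triA i hi j hj' h1 v
        rw [this, smul_zero, smul_zero]
      · congr 1
        have h2 : j = i ∨ j = i + 1 ∨ i = j + 1 := by omega
        rcases h2 with h2 | h2 | h2
        · subst h2; ring
        · subst h2
          have := hz i hj'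
          linear_combination -this
        · subst h2
          have := hz j hi
          linear_combination this
    have h3 := Finset.sum_congr rfl hterm
    rw [Finset.sum_sub_distrib, Finset.sum_sub_distrib, ← Finset.smul_sum, ← Finset.smul_sum,
      ← Finset.smul_sum, ← Finset.smul_sum, ← map_sum, ← map_sum, ← map_sum, hsum] at h3
    exact h3
  rw [← iA.sum v]
  simp only [map_sum, ← Finset.sum_sub_distrib]
  refine Finset.sum_congr rfl fun i hi => ?_
  have hi' : i ≤ d := by simpa [Nat.lt_succ_iff] using hi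
  exact hone i hi' _ (iA.eig i hi' v)

section

variable {A B : Module.End K V} {d : ℕ} {a b : ℕ → K} {Φ : ℕ → Module.End K U}
    {e : ℕ → U →ₗ[K] V} {c : ℕ → V →ₗ[K] U} {P : ℕ → Module.End K V}

/-- two polynomials in `A` that agree on `e 0 (U)` agree -/
theorem Spl.aeval_ext (h : Spl A B d a b Φ e c) (g z : K[X])
    (h0 : ∀ x, aeval A g (e 0 x) = aeval A z (e 0 x)) (v : V) : aeval A g v = aeval A z v := by
  have h1 : ∀ i x, aeval A g (e i x) = aeval A z (e i x) := by
    intro i
    induction i with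
    | zero => exact h0
    | succ i ih =>
      intro x
      have h2 : e (i + 1) x = A (e i x) - a i • e i x := by rw [h.hA]; abel
      have h3 : ∀ (q : K[X]) (w : V), aeval A q (A w) = A (aeval A q w) := by
        intro q w
        have h4 : aeval A q * A = A * aeval A q := by
          have : aeval A (q * X) = aeval A (X * q) := by rw [mul_comm]
          simpa only [map_mul, aeval_X] using this
        exact congrArg (fun T : Module.End K V => T w) h4
      rw [h2, map_sub, map_sub, map_smul, map_smul, h3, h3, ih]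
  rw [← h.sum v, map_sum, map_sum]
  exact Finset.sum_congr rfl fun i _ => h1 i _

theorem Spl.cubic (h : Spl A B d a b Φ e c) (iA : Idem A d a P)
    (triA : ∀ i ≤ d, ∀ j ≤ d, (i + 1 < j ∨ j + 1 < i) → ∀ v, P j (B (P i v)) = 0)
    (neA : ∀ i ≤ d, ∃ v, P i v ≠ 0)
    (hd : 3 ≤ d) [Nontrivial U] (binj : ∀ i ≤ d, ∀ j ≤ d, b i = b j → i = j) :
    ∃ z3 z2 z1 : K, (∀ v, A (A (B (A v))) - A (B (A (A v))) =
        z3 • (A (A (A (B v))) - B (A (A (A v)))) + z2 • (A (A (B v)) - B (A (A v)))
          + z1 • (A (B v) - B (A v))) ∧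
      ∀ i, i + 1 ≤ d → a (i + 1) * a i * (a (i + 1) - a i) =
        z3 * (a (i + 1) ^ 3 - a i ^ 3) + z2 * (a (i + 1) ^ 2 - a i ^ 2)
          + z1 * (a (i + 1) - a i) := by
  classical
  let r : ℕ → K := fun i => ∑ k ∈ Finset.range i, a (k + 1) * a k * (a (k + 1) - a k)
  let z : K[X] := Lagrange.interpolate (Finset.range (d + 1)) a r
  have hinj : Set.InjOn a (Finset.range (d + 1)) := by
    intro i hi j hj hij
    simp only [Finset.coe_range, Set.mem_Iio] at hi hj
    exact iA.inj i (by omega) j (by omega) hij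
  have hzr : ∀ i ≤ d, z.eval (a i) = r i := fun i hi =>
    Lagrange.eval_interpolate_at_node r hinj (Finset.mem_range.mpr (by omega))
  have hz : ∀ i, i + 1 ≤ d → z.eval (a (i + 1)) - z.eval (a i)
      = a (i + 1) * a i * (a (i + 1) - a i) := by
    intro i hi
    rw [hzr (i + 1) hi, hzr i (by omega)]
    simp only [r, Finset.sum_range_succ]
    ring
  have hid := interp_identity iA triA z hz
  obtain ⟨ζ, hζ⟩ := h.poly_coords z
  obtain ⟨x, hx⟩ := exists_ne (0 : U)
  -- the coefficients of index at least four vanish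
  have hζ1 : ζ (d + 1) = 0 := by
    have h1 := hζ (d + 1) x
    rw [h.c_gt (d + 1) (by omega), LinearMap.zero_apply] at h1
    rcases smul_eq_zero.mp h1.symm with h2 | h2
    · exact h2
    · exact absurd h2 hx
  have hrel : ∀ m, 4 ≤ m → m ≤ d → ζ (m + 1) = 0 → ζ m = 0 := by
    intro m hm hmd hm1
    have h1 := congrArg (c m) (hid (e 0 x))
    have hs0 : ∀ k, 0 < k → c k (e 0 x) = 0 := by
      intro k hk
      by_cases hkd : k ≤ d
      · rw [h.c_e k hkd, if_neg (by omega)]
      · rw [h.c_gt k (by omega)]; rfl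
    have hL1 : c m (A (A (B (A (e 0 x))))) = 0 := by
      refine h.supp_A 2 _ (fun k hk => h.supp_A 1 _ (fun k hk => h.supp_B 1 _ (fun k hk =>
        h.supp_A 0 _ hs0 k hk) k hk) k hk) m (by omega)
    have hL2 : c m (A (B (A (A (e 0 x))))) = 0 := by
      refine h.supp_A 2 _ (fun k hk => h.supp_B 2 _ (fun k hk => h.supp_A 1 _ (fun k hk =>
        h.supp_A 0 _ hs0 k hk) k hk) k hk) m (by omega)
    rw [map_sub, map_sub, hL1, hL2, h.hB0, map_smul, map_smul, hζ, h.c_B m hmd, hζ, hζ, hm1,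
      zero_smul, map_zero, add_zero, sub_zero] at h1
    have h2 : ((b 0 - b m) * ζ m) • x = 0 := by
      rw [h1.trans (by module : b 0 • ζ m • x - b m • ζ m • x = ((b 0 - b m) * ζ m) • x)] at *
    rcases smul_eq_zero.mp h2 with h3 | h3
    · rcases mul_eq_zero.mp h3 with h4 | h4
      · have := binj 0 (by omega) m hmd (sub_eq_zero.mp h4)
        omega
      · exact h4
    · exact absurd h3 hx
  have hζ4 : ∀ k, k + 4 ≤ d + 1 → ζ (d + 1 - k) = 0 := by
    intro k
    induction k with
    | zero => intro _; exact hζ1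
    | succ k ih =>
      intro hk
      refine hrel (d + 1 - (k + 1)) (by omega) (by omega) ?_
      have h1 : d + 1 - (k + 1) + 1 = d + 1 - k := by omega
      rw [h1]
      exact ih (by omega)
  have hζ5 : ∀ m, 4 ≤ m → m ≤ d → ζ m = 0 := by
    intro m hm hmd
    have h1 := hζ4 (d + 1 - m) (by omega)
    have h2 : d + 1 - (d + 1 - m) = m := by omega
    rwa [h2] at h1
  let g : K[X] := C (ζ 0) + C (ζ 1) * (X - C (a 0)) + C (ζ 2) * ((X - C (a 1)) * (X - C (a 0)))
    + C (ζ 3) * ((X - C (a 2)) * ((X - C (a 1)) * (X - C (a 0))))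
  have hstep : ∀ i x, aeval A (X - C (a i)) (e i x) = e (i + 1) x := by
    intro i x
    rw [map_sub, aeval_X, aeval_C, LinearMap.sub_apply, Module.algebraMap_end_apply, h.hA]
    abel
  have hg0 : ∀ x, aeval A g (e 0 x) = aeval A z (e 0 x) := by
    intro x
    have h1 : aeval A g (e 0 x) = ζ 0 • e 0 x + ζ 1 • e 1 x + ζ 2 • e 2 x + ζ 3 • e 3 x := by
      simp only [g, map_add, map_mul, LinearMap.add_apply, Module.End.mul_apply, hstep]
      simp only [aeval_C, Module.algebraMap_end_apply]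
    rw [h1]
    refine h.ext_c fun m hm => ?_
    rw [hζ]
    simp only [map_add, map_smul, h.c_e m hm]
    by_cases hm4 : 4 ≤ m
    · rw [hζ5 m hm4 hm, if_neg (by omega), if_neg (by omega), if_neg (by omega), if_neg (by omega)]
      simp
    · have : m = 0 ∨ m = 1 ∨ m = 2 ∨ m = 3 := by omega
      rcases this with rfl | rfl | rfl | rfl <;> simp
  have hgz : ∀ v, aeval A g v = aeval A z v := fun v => h.aeval_ext g z hg0 v
  -- expand `g` in powers
  let z3 := ζ 3
  let z2 := ζ 2 - ζ 3 * (a 0 + a 1 + a 2)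
  let z1 := ζ 1 - ζ 2 * (a 0 + a 1) + ζ 3 * (a 0 * a 1 + a 0 * a 2 + a 1 * a 2)
  let z0 := ζ 0 - ζ 1 * a 0 + ζ 2 * (a 0 * a 1) - ζ 3 * (a 0 * a 1 * a 2)
  have hgp : g = C z3 * X ^ 3 + C z2 * X ^ 2 + C z1 * X + C z0 := by
    simp only [g, z3, z2, z1, z0, C_add, C_sub, C_mul]
    ring
  have hgv : ∀ v, aeval A g v = z3 • A (A (A v)) + z2 • A (A v) + z1 • A v + z0 • v := by
    intro v
    rw [hgp]
    simp only [map_add, map_mul, aeval_X, aeval_C, LinearMap.add_apply,
      Module.End.mul_apply, Module.algebraMap_end_apply, pow_succ, pow_zero, one_mul]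
  refine ⟨z3, z2, z1, fun v => ?_, fun i hi => ?_⟩
  · rw [hid v, ← hgz, ← hgz, hgv, hgv]
    simp only [map_add, map_smul]
    module
  · have hev : ∀ j ≤ d, z.eval (a j) = g.eval (a j) := by
      intro j hj
      obtain ⟨v, hv⟩ := neA j hj
      have h1 := hgz (P j v)
      rw [aeval_eig A _ _ _ (iA.eig j hj v), aeval_eig A _ _ _ (iA.eig j hj v)] at h1
      have h2 : (g.eval (a j) - z.eval (a j)) • P j v = 0 := by rw [sub_smul, h1, sub_self]
      rcases smul_eq_zero.mp h2 with h3 | h3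
      · exact (sub_eq_zero.mp h3).symm
      · exact absurd h3 hv
    rw [← hz i hi, hev (i + 1) hi, hev i (by omega), hgp]
    simp only [eval_add, eval_mul, eval_pow, eval_X, eval_C]
    ring

theorem Spl.cubic_b (h : Spl A B d a b Φ e c) [Nontrivial U] (z3 z2 z1 : K)
    (hz : ∀ v, A (A (B (A v))) - A (B (A (A v))) =
        z3 • (A (A (A (B v))) - B (A (A (A v)))) + z2 • (A (A (B v)) - B (A (A v)))
          + z1 • (A (B v) - B (A v)))
    (i : ℕ) (hi : i + 3 ≤ d) : b (i + 1) - b (i + 2) = z3 * (b i - b (i + 3)) := by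
  obtain ⟨x, hx⟩ := exists_ne (0 : U)
  have h1 := congrArg (c (i + 3)) (hz (e i x))
  have key : ((b (i + 1) - b (i + 2)) - z3 * (b i - b (i + 3))) • x = 0 := by
    rcases i with _ | i
    · simp only [h.hA, map_add, map_smul, h.hB, h.hB0, h.c_e _ hi, map_sub] at h1
      simp at h1
      rw [← sub_eq_zero] at h1
      rw [← h1]
      module
    · have hne : ¬ (i + 1 + 3 = i) := by omega
      simp only [h.hA, map_add, map_smul, h.hB, h.c_e _ hi, map_sub] at h1
      simp [hne] at h1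
      rw [← sub_eq_zero] at h1
      rw [← h1]
      module
  rcases smul_eq_zero.mp key with h2 | h2
  · exact sub_eq_zero.mp h2
  · exact absurd h2 hx

theorem Spl.cubic_phi0 (h : Spl A B d a b Φ e c) (z3 z2 z1 : K)
    (hz : ∀ v, A (A (B (A v))) - A (B (A (A v))) =
        z3 • (A (A (A (B v))) - B (A (A (A v)))) + z2 • (A (A (B v)) - B (A (A v)))
          + z1 • (A (B v) - B (A v)))
    (hi : 3 ≤ d) (x : U) : Φ 1 x - Φ 2 x = - z3 • Φ 3 x - 
      (a 0 * b 0 + b 1 * (a 2 - a 0) - a 2 * b 2 - z3 * ((b 0 - b 2) * (a 0 + a 1 + a 2))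
        - z2 * (b 0 - b 2)) • x := by
  have h1 := congrArg (c 2) (hz (e 0 x))
  simp only [h.hA, map_add, map_smul, h.hB, h.hB0, h.c_e 2 (by omega), map_sub] at h1
  simp at h1
  rw [← sub_eq_zero] at h1 ⊢
  rw [← h1]
  module

theorem Spl.cubic_phi (h : Spl A B d a b Φ e c) (z3 z2 z1 : K)
    (hz : ∀ v, A (A (B (A v))) - A (B (A (A v))) =
        z3 • (A (A (A (B v))) - B (A (A (A v)))) + z2 • (A (A (B v)) - B (A (A v)))
          + z1 • (A (B v) - B (A v)))
    (i : ℕ) (hi : i + 4 ≤ d) (x : U) : Φ (i + 2) x - Φ (i + 3) x = z3 • (Φ (i + 1) x - Φ (i + 4) x) - 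
      (a (i + 1) * b (i + 1) + b (i + 2) * (a (i + 3) - a (i + 1)) - a (i + 3) * b (i + 3)
        - z3 * ((b (i + 1) - b (i + 3)) * (a (i + 1) + a (i + 2) + a (i + 3)))
        - z2 * (b (i + 1) - b (i + 3))) • x := by
  have h1 := congrArg (c (i + 3)) (hz (e (i + 1) x))
  simp only [h.hA, map_add, map_smul, h.hB, h.c_e (i + 3) (by omega), map_sub] at h1
  simp at h1
  rw [← sub_eq_zero] at h1 ⊢
  rw [← h1]
  module


/-- the normalized sums `∑_{h < i} (a_h - a_{d-h}) / (a_0 - a_d)` -/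
def th (d : ℕ) (a : ℕ → K) (i : ℕ) : K :=
  (∑ h ∈ Finset.range i, (a h - a (d - h))) / (a 0 - a d)

theorem Spl.congr_phi (h : Spl A B d a b Φ e c) (Φ' : ℕ → Module.End K U)
    (h1 : ∀ i, i + 1 ≤ d → ∀ x, Φ' (i + 1) x = Φ (i + 1) x) (h2 : ∀ x, Φ' (d + 1) x = 0) :
    Spl A B d a b Φ' e c where
  hA := h.hA
  hB0 := h.hB0
  hB := by
    intro i x
    rcases lt_trichotomy i d with hi | hi | hi
    · rw [h.hB, h1 i (by omega)]
    · subst hi
      rw [h.e_gt (i + 1) (by omega), h2]
      simp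
    · rw [h.e_gt (i + 1) (by omega), h.e_gt i hi]
      simp
  e_gt := h.e_gt
  c_e := h.c_e
  c_gt := h.c_gt
  sum := h.sum

theorem pp_ne_zero (d : ℕ) (a : ℕ → K) (inj : ∀ i ≤ d, ∀ j ≤ d, a i = a j → i = j) (i : ℕ)
    (hi : i ≤ d) : pp (a d) a i ≠ 0 := by
  induction i with
  | zero => exact one_ne_zero
  | succ i ih =>
    rw [pp]
    refine mul_ne_zero (ih (by omega)) ?_
    intro h0
    have := inj d le_rfl i (by omega) (sub_eq_zero.mp h0)
    omega

/-- two sequences with the same linear recurrence and the same initial values agree -/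
theorem rec_unique (d : ℕ) (z3 : K) (hz3 : z3 ≠ 0) (t s : ℕ → K)
    (h0 : t 0 = s 0) (h1 : t 1 = s 1) (h2 : t 2 = s 2)
    (ht : ∀ i, i + 3 ≤ d → t (i + 1) - t (i + 2) = z3 * (t i - t (i + 3)))
    (hs : ∀ i, i + 3 ≤ d → s (i + 1) - s (i + 2) = z3 * (s i - s (i + 3)))
    (i : ℕ) (hi : i ≤ d) : t i = s i := by
  induction i using Nat.strong_induction_on with
  | _ i ih =>
    rcases i with _ | _ | _ | i
    · exact h0
    · exact h1
    · exact h2
    · have e1 := ih i (by omega) (by omega)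
      have e2 := ih (i + 1) (by omega) (by omega)
      have e3 := ih (i + 2) (by omega) (by omega)
      have e4 := ht i hi
      have e5 := hs i hi
      rw [e1, e2, e3, e5] at e4
      have e6 := mul_left_cancel₀ hz3 e4
      have : t (i + 3) = s (i + 3) := by linear_combination e6
      exact this

theorem th_rec (d : ℕ) (a : ℕ → K) (z3 z2 : K)
    (hR : ∀ i, i + 2 ≤ d → a (i + 1) = z3 * (a (i + 2) + a (i + 1) + a i) + z2)
    (i : ℕ) (hi : i + 3 ≤ d) :
    th d a (i + 1) - th d a (i + 2) = z3 * (th d a i - th d a (i + 3)) := by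
  simp only [th, Finset.sum_range_succ]
  have e1 := hR i (by omega)
  have e2 := hR (d - (i + 2)) (by omega)
  have e3 : d - (i + 2) + 1 = d - (i + 1) := by omega
  have e4 : d - (i + 2) + 2 = d - i := by omega
  rw [e3, e4] at e2
  rw [← sub_div, ← sub_div, ← mul_div_assoc]
  congr 1
  linear_combination -e1 + e2

end

end Pool.Agent.Helper9.TD
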