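import Pool.Agent.Helper9.TDSuff

set_option autoImplicit false

namespace Pool.Agent.Helper9.TD

open Polynomial Module

variable {K : Type*} [Field K] {V : Type*} [AddCommGroup V] [Module K V]
variable {U : Type*} [AddCommGroup U] [Module K U]

/-- the condition on two sequences -/
def PA (d : ℕ) (a b : ℕ → K) : Prop :=
  ∃ β : K, ∀ i, i + 3 ≤ d → a i - a (i + 3) = (β + 1) * (a (i + 1) - a (i + 2)) ∧
    b i - b (i + 3) = (β + 1) * (b (i + 1) - b (i + 2))

theorem PA.ext {d : ℕ} {a b : ℕ → K} (h : PA d a b) :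
    ∃ (β γ γs : K) (α δ : ℤ → K), Rec β γ α ∧ Rec β γs δ ∧ (∀ i ≤ d, α i = a i) ∧
      ∀ i ≤ d, δ i = b i := by
  obtain ⟨β, hβ⟩ := h
  obtain ⟨γ, α, h1, h2⟩ := exists_ext d a β fun i hi => (hβ i hi).1
  obtain ⟨γs, δ, h3, h4⟩ := exists_ext d b β fun i hi => (hβ i hi).2
  exact ⟨β, γ, γs, α, δ, h1, h3, h2, h4⟩

section

variable {A B : Module.End K V} {d : ℕ} {a b : ℕ → K} {S : Module.End K U}
    {e : ℕ → U →ₗ[K] V} {c : ℕ → V →ₗ[K] U}

theorem shift_simple {S : Module.End K U} (h : IsSimpleOp S) (κ : K) :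
    IsSimpleOp (S + κ • (1 : Module.End K U)) := by
  refine ⟨h.1, fun X hX => h.2 X fun x hx => ?_⟩
  have h1 := hX x hx
  have h2 : S x = (S + κ • (1 : Module.End K U)) x - κ • x := by
    simp
  rw [h2]
  exact X.sub_mem h1 (X.smul_mem _ hx)

/-- reversing the eigenvalue sequence of `A` -/
theorem Spl.flipA [FiniteDimensional K U] (hpa : PA d a b)
    (inja : ∀ i ≤ d, ∀ j ≤ d, a i = a j → i = j) (hd : 1 ≤ d)
    (h : Spl A B d a b (phiOp d a b S) e c) :
    ∃ (e' : ℕ → U →ₗ[K] V) (c' : ℕ → V →ₗ[K] U),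
      Spl A B d (fun i => a (d - i)) b (phiOp d (fun i => a (d - i)) b
        (S + ((b 1 - b 0) * (a 0 - a d)) • (1 : Module.End K U))) e' c' := by
  obtain ⟨β, γ, γs, α, δ, hα, hδ, ha, hb⟩ := hpa.ext
  have h0 := ha 0 (by omega)
  have hd' := ha d le_rfl
  have hb0 := hb 0 (by omega)
  have hb1 := hb 1 hd
  push_cast at h0 hb0 hb1
  have had : α 0 ≠ α d := by
    rw [h0, hd']
    intro h1
    have := inja 0 (by omega) d le_rfl h1
    omega
  obtain ⟨e', c', h1, -⟩ := (h.toZ α δ ha hb).flip hα hδ had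
  have hk : kap d α δ 1 = (b 1 - b 0) * (a 0 - a d) := by
    rw [kap, hd', ← h0, ← hb0, ← hb1]
    norm_num
  rw [hk] at h1
  refine ⟨e', c', Spl.ofZ (fun j => α (d - j)) δ h1 ?_ hb⟩
  intro i hi
  have h2 := ha (d - i) (by omega)
  have e1 : ((d - i : ℕ) : ℤ) = (d : ℤ) - i := by omega
  rw [e1] at h2
  exact h2

/-- interchanging the two maps -/
theorem Spl.swapN [FiniteDimensional K U] (hpa : PA d a b)
    (inja : ∀ i ≤ d, ∀ j ≤ d, a i = a j → i = j) (injb : ∀ i ≤ d, ∀ j ≤ d, b i = b j → i = j)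
    (hd : 1 ≤ d) (hS : IsSimpleOp S) (hU : 2 ≤ Module.finrank K U)
    (h : Spl A B d a b (phiOp d a b S) e c) :
    ∃ (f : ℕ → U →ₗ[K] V) (g : ℕ → V →ₗ[K] U),
      Spl B A d (fun i => b (d - i)) (fun i => a (d - i))
        (phiOp d (fun i => b (d - i)) (fun i => a (d - i)) S) f g := by
  obtain ⟨β, γ, γs, α, δ, hα, hδ, ha, hb⟩ := hpa.ext
  have h0 := ha 0 (by omega)
  have hd' := ha d le_rfl
  have hb0 := hb 0 (by omega)
  have hbd' := hb d le_rfl
  push_cast at h0 hb0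
  have had : α 0 ≠ α d := by
    rw [h0, hd']
    intro h1
    have := inja 0 (by omega) d le_rfl h1
    omega
  have hbd : δ 0 ≠ δ d := by
    rw [hb0, hbd']
    intro h1
    have := injb 0 (by omega) d le_rfl h1
    omega
  have hinj := phiZ_inj (d := d) (a := α) (b := δ) hS hU (by
    intro i hi
    rw [ha i (by omega), hd']
    intro h1
    have := inja i (by omega) d le_rfl h1
    omega) (by
    intro i hi hid
    rw [hb i hid, hb0]
    intro h1
    have := injb i hid 0 (by omega) h1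
    omega)
  obtain ⟨f, g, h1⟩ := (h.toZ α δ ha hb).swap hα hδ had hbd hinj
  refine ⟨f, g, Spl.ofZ (fun j => δ (d - j)) (fun j => α (d - j)) h1 ?_ ?_⟩
  · intro i hi
    have h2 := hb (d - i) (by omega)
    have e1 : ((d - i : ℕ) : ℤ) = (d : ℤ) - i := by omega
    rw [e1] at h2
    exact h2
  · intro i hi
    have h2 := ha (d - i) (by omega)
    have e1 : ((d - i : ℕ) : ℤ) = (d : ℤ) - i := by omega
    rw [e1] at h2
    exact h2

theorem PA.rev {d : ℕ} {a b : ℕ → K} (h : PA d a b) :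
    PA d (fun i => a (d - i)) (fun i => b (d - i)) := by
  obtain ⟨β, hβ⟩ := h
  refine ⟨β, fun i hi => ?_⟩
  obtain ⟨h1, h2⟩ := hβ (d - (i + 3)) (by omega)
  have e1 : d - (i + 3) + 3 = d - i := by omega
  have e2 : d - (i + 3) + 1 = d - (i + 2) := by omega
  have e3 : d - (i + 3) + 2 = d - (i + 1) := by omega
  rw [e1, e2, e3] at h1 h2
  simp only
  exact ⟨by linear_combination -h1, by linear_combination -h2⟩

theorem PA.symm {d : ℕ} {a b : ℕ → K} (h : PA d a b) : PA d b a := by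
  obtain ⟨β, hβ⟩ := h
  exact ⟨β, fun i hi => ⟨(hβ i hi).2, (hβ i hi).1⟩⟩

theorem PA.revA {d : ℕ} {a b : ℕ → K} (h : PA d a b) : PA d (fun i => a (d - i)) b := by
  obtain ⟨β, hβ⟩ := h
  refine ⟨β, fun i hi => ?_⟩
  obtain ⟨h1, -⟩ := hβ (d - (i + 3)) (by omega)
  have h2 := (hβ i hi).2
  have e1 : d - (i + 3) + 3 = d - i := by omega
  have e2 : d - (i + 3) + 1 = d - (i + 2) := by omega
  have e3 : d - (i + 3) + 2 = d - (i + 1) := by omega
  rw [e1, e2, e3] at h1
  simp only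
  exact ⟨by linear_combination -h1, h2⟩

theorem PA.revB {d : ℕ} {a b : ℕ → K} (h : PA d a b) : PA d a (fun i => b (d - i)) :=
  h.symm.revA.symm

theorem inj_rev {d : ℕ} {a : ℕ → K} (h : ∀ i ≤ d, ∀ j ≤ d, a i = a j → i = j) :
    ∀ i ≤ d, ∀ j ≤ d, a (d - i) = a (d - j) → i = j := by
  intro i hi j hj hij
  have := h (d - i) (by omega) (d - j) (by omega) hij
  omega

theorem phiOp_congr {a' b' : ℕ → K} (ha : ∀ i ≤ d, a i = a' i) (hb : ∀ i ≤ d, b i = b' i)
    (S : Module.End K U) (i : ℕ) (hi : i + 1 ≤ d) (x : U) :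
    phiOp d a b S (i + 1) x = phiOp d a' b' S (i + 1) x := by
  rw [phiOp_apply, phiOp_apply]
  have h1 : th d a (i + 1) = th d a' (i + 1) := by
    rw [th, th, ha 0 (by omega), ha d le_rfl]
    congr 1
    refine Finset.sum_congr rfl fun h hh => ?_
    have := Finset.mem_range.mp hh
    rw [ha h (by omega), ha (d - h) (by omega)]
  rw [h1, hb (i + 1) hi, hb 0 (by omega), ha d le_rfl, Nat.add_sub_cancel, ha i (by omega)]

theorem Spl.congrN {a' b' : ℕ → K} (h : Spl A B d a b (phiOp d a b S) e c)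
    (ha : ∀ i ≤ d, a i = a' i) (hb : ∀ i ≤ d, b i = b' i) :
    Spl A B d a' b' (phiOp d a' b' S) e c :=
  (h.congr_phi (phiOp d a' b' S) (fun i hi x => (phiOp_congr ha hb S i hi x).symm)
    (fun x => phiOp_top a' b' S x)).congr_ab ha hb

/-- reversing the eigenvalue sequence of `B` -/
theorem Spl.flipB [FiniteDimensional K U] (hpa : PA d a b)
    (inja : ∀ i ≤ d, ∀ j ≤ d, a i = a j → i = j) (injb : ∀ i ≤ d, ∀ j ≤ d, b i = b j → i = j)
    (hd : 1 ≤ d) (hS : IsSimpleOp S) (hU : 2 ≤ Module.finrank K U)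
    (h : Spl A B d a b (phiOp d a b S) e c) :
    ∃ (e' : ℕ → U →ₗ[K] V) (c' : ℕ → V →ₗ[K] U),
      Spl A B d a (fun i => b (d - i)) (phiOp d a (fun i => b (d - i))
        (S + ((a (d - 1) - a d) * (b d - b 0)) • (1 : Module.End K U))) e' c' := by
  obtain ⟨f, g, h1⟩ := h.swapN hpa inja injb hd hS hU
  obtain ⟨f1, g1, h2⟩ := h1.flipA hpa.rev.symm (inj_rev injb) hd
  have hrr : ∀ (a : ℕ → K), ∀ i ≤ d, a (d - (d - i)) = a i := by
    intro a i hi
    congr 1
    omega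
  have h3 := h2.congrN (a' := b) (b' := fun i => a (d - i)) (fun i hi => hrr b i hi)
    (fun i _ => rfl)
  have hk : (a (d - 1) - a (d - 0)) * (b (d - 0) - b (d - d)) =
      (a (d - 1) - a d) * (b d - b 0) := by
    simp
  rw [hk] at h3
  have hS' := shift_simple hS ((a (d - 1) - a d) * (b d - b 0))
  obtain ⟨f2, g2, h4⟩ := h3.swapN hpa.revA.symm injb (inj_rev inja) hd hS' hU
  exact ⟨f2, g2, h4.congrN (fun i hi => hrr a i hi) (fun i _ => rfl)⟩

/-- sufficiency -/
theorem Spl.tdPair [FiniteDimensional K U] (hpa : PA d a b)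
    (inja : ∀ i ≤ d, ∀ j ≤ d, a i = a j → i = j) (injb : ∀ i ≤ d, ∀ j ≤ d, b i = b j → i = j)
    (hd : 1 ≤ d) (hS : IsSimpleOp S) (hU : 2 ≤ Module.finrank K U)
    (h : Spl A B d a b (phiOp d a b S) e c) :
    TDPair A B ∧ TDOrdering A B d a ∧ TDOrdering B A d b ∧
      (∀ i ≤ d, Module.finrank K (A.eigenspace (a i)) = Module.finrank K U) ∧
      (∀ i ≤ d, Module.finrank K (B.eigenspace (b i)) = Module.finrank K U) := by
  have hnt : Nontrivial U := hS.1
  obtain ⟨e', c', h'⟩ := h.flipA hpa inja hd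
  obtain ⟨f, g, h1⟩ := h.swapN hpa inja injb hd hS hU
  obtain ⟨f1, g1, h2⟩ := h1.flipA hpa.rev.symm (inj_rev injb) hd
  have hrr : ∀ (a : ℕ → K), ∀ i ≤ d, a (d - (d - i)) = a i := by
    intro a i hi
    congr 1
    omega
  have h3 := h2.congrN (a' := b) (b' := fun i => a (d - i)) (fun i hi => hrr b i hi)
    (fun i _ => rfl)
  have oA : TDOrdering A B d a := ordering_of_two h h' inja
  have oB : TDOrdering B A d b := ordering_of_two h3 h1 injb
  have iA := idem_of_nodal A d a inja (h.nodal inja)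
  have iB := idem_of_nodal B d b injb (h3.nodal injb)
  refine ⟨⟨⟨d, a, oA⟩, ⟨d, b, oB⟩, ?_⟩, oA, oB, fun i hi => h.eig_finrank iA i hi,
    fun i hi => h3.eig_finrank iB i hi⟩
  intro W hWA hWB
  have had : a 0 ≠ a d := by
    intro h1
    have := inja 0 (by omega) d le_rfl h1
    omega
  refine h.irred hS hd had injb h3 ?_ W hWA hWB
  intro i hi hid x hx
  -- injectivity of the coefficients
  obtain ⟨β, γ, γs, α, δ, hα, hδ, ha, hb⟩ := hpa.revA.symm.ext
  obtain ⟨m, rfl⟩ : ∃ m, i = m + 1 := ⟨i - 1, by omega⟩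
  rw [phiOp_eq_phiZ b (fun i => a (d - i)) α δ ha hb _ m hid] at hx
  refine phiZ_inj (shift_simple hS _) hU ?_ ?_ (m + 1) hi hid x hx
  · intro j hj
    rw [ha j (by omega), ha d le_rfl]
    intro h1
    have := injb j (by omega) d le_rfl h1
    omega
  · intro j hj hjd
    have hb0 := hb 0 (by omega)
    push_cast at hb0
    rw [hb j hjd, hb0]
    intro h1
    have := inj_rev inja j hjd 0 (by omega) h1
    omega

end

end Pool.Agent.Helper9.TD
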