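import Pool.Agent.Helper9.TDExt

set_option autoImplicit false

namespace Pool.Agent.Helper9.TD

open Polynomial Module

variable {K : Type*} [Field K] {V : Type*} [AddCommGroup V] [Module K V]
variable {U : Type*} [AddCommGroup U] [Module K U]

section

variable {A B : Module.End K V} {d : ℕ} {a b : ℕ → K} {Φ : ℕ → Module.End K U}
    {e : ℕ → U →ₗ[K] V} {c : ℕ → V →ₗ[K] U} {P : ℕ → Module.End K V}

theorem Spl.eq_zero_of_c (h : Spl A B d a b Φ e c) (w : V) (hw : ∀ k ≤ d, c k w = 0) : w = 0 :=
  h.ext_c fun i hi => by rw [hw i hi, map_zero]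

theorem Spl.low_A (h : Spl A B d a b Φ e c) (m : ℕ) (w : V) (hw : ∀ k < m, c k w = 0) (k : ℕ)
    (hk : k < m + 1) : c k (A w - a m • w) = 0 := by
  rcases k with _ | k
  · rw [map_sub, map_smul, h.c_A_zero]
    rcases m with _ | m
    · rw [sub_self]
    · rw [hw 0 (by omega)]; simp
  · by_cases hkd : k + 1 ≤ d
    · rw [map_sub, map_smul, h.c_A_succ k hkd, hw k (by omega), add_zero]
      by_cases hkm : k + 1 = m
      · rw [hkm, sub_self]
      · rw [hw (k + 1) (by omega)]; simp
    · rw [h.c_gt (k + 1) (by omega)]; simp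

theorem Spl.nodal (h : Spl A B d a b Φ e c) (inj : ∀ i ≤ d, ∀ j ≤ d, a i = a j → i = j) :
    aeval A (∏ μ ∈ vals d a, (X - C μ)) = 0 := by
  classical
  have h1 : ∏ μ ∈ vals d a, (X - C μ) = ∏ i ∈ Finset.range (d + 1), (X - C (a i)) := by
    rw [vals, Finset.prod_image]
    intro i hi j hj hij
    simp only [Finset.coe_range, Set.mem_Iio] at hi hj
    exact inj i (by omega) j (by omega) hij
  rw [h1]
  have h2 : ∀ m v, ∀ k < m, c k (aeval A (∏ i ∈ Finset.range m, (X - C (a i))) v) = 0 := by
    intro m v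
    induction m with
    | zero => intro k hk; omega
    | succ m ih =>
      have h3 := h.low_A m _ ih
      intro k hk
      have h4 := h3 k hk
      rw [Finset.prod_range_succ, mul_comm, map_mul, Module.End.mul_apply]
      simpa only [map_sub, aeval_X, aeval_C, LinearMap.sub_apply,
        Module.algebraMap_end_apply] using h4
  ext v
  exact h.eq_zero_of_c _ fun k hk => h2 (d + 1) v k (by omega)

theorem Spl.proj_zero (h : Spl A B d a b Φ e c) (iA : Idem A d a P) (r : ℕ) :
    ∀ m w, d + 1 ≤ m + r → (∀ k < m, c k w = 0) → ∀ j ≤ d, j < m → P j w = 0 := by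
  induction r with
  | zero =>
    intro m w hm hw j hj hjm
    rw [h.eq_zero_of_c w fun k hk => hw k (by omega), map_zero]
  | succ r ih =>
    intro m w hm hw j hj hjm
    by_cases hmd : d + 1 ≤ m
    · rw [h.eq_zero_of_c w fun k hk => hw k (by omega), map_zero]
    · have h1 := ih (m + 1) (A w - a m • w) (by omega) (h.low_A m w hw) j hj (by omega)
      rw [map_sub, map_smul, iA.comm j hj, ← sub_smul] at h1
      rcases smul_eq_zero.mp h1 with h2 | h2
      · have := iA.inj j hj m (by omega) (sub_eq_zero.mp h2)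
        omega
      · exact h2

theorem Spl.eig_low (h : Spl A B d a b Φ e c) (inj : ∀ i ≤ d, ∀ j ≤ d, a i = a j → i = j) (i : ℕ)
    (hi : i ≤ d) (v : V) (hv : A v = a i • v) (k : ℕ) (hk : k < i) : c k v = 0 := by
  induction k with
  | zero =>
    have h1 := h.c_A_zero v
    rw [hv, map_smul, ← sub_eq_zero, ← sub_smul] at h1
    rcases smul_eq_zero.mp h1 with h2 | h2
    · have := inj i hi 0 (by omega) (sub_eq_zero.mp h2)
      omega
    · exact h2
  | succ k ih =>
    have h1 := h.c_A_succ k (by omega) v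
    rw [hv, map_smul, ih (by omega), add_zero, ← sub_eq_zero, ← sub_smul] at h1
    rcases smul_eq_zero.mp h1 with h2 | h2
    · have := inj i hi (k + 1) (by omega) (sub_eq_zero.mp h2)
      omega
    · exact h2

theorem Spl.half_tri (h : Spl A B d a b Φ e c) (iA : Idem A d a P) (i : ℕ) (hi : i ≤ d) (j : ℕ)
    (hj : j ≤ d) (hij : j + 1 < i) (v : V) : P j (B (P i v)) = 0 := by
  refine h.proj_zero iA (d + 1) (i - 1) _ (by omega) ?_ j hj (by omega)
  intro k hk
  have hlow := h.eig_low iA.inj i hi (P i v) (iA.eig i hi v)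
  rw [h.c_B k (by omega), hlow k (by omega), hlow (k + 1) (by omega)]
  simp

theorem Spl.c_proj (h : Spl A B d a b Φ e c) (iA : Idem A d a P) (i : ℕ) (hi : i ≤ d) (x : U) :
    c i (P i (e i x)) = x := by
  have h1 : c i (e i x) = x := by rw [h.c_e i hi, if_pos rfl]
  conv_rhs => rw [← h1, ← iA.sum (e i x)]
  rw [map_sum, Finset.sum_eq_single i]
  · intro k hk hki
    have hk' : k ≤ d := by simpa [Nat.lt_succ_iff] using hk
    rcases Nat.lt_or_ge k i with hlt | hge
    · have h2 := h.proj_zero iA (d + 1) i (e i x) (by omega) (fun m hm => by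
        rw [h.c_e m (by omega), if_neg (by omega)]) k hk' hlt
      rw [h2, map_zero]
    · exact h.eig_low iA.inj k hk' _ (iA.eig k hk' _) i (by omega)
  · intro h0
    exact absurd (Finset.mem_range.mpr (by omega)) h0

theorem Spl.eig_finrank (h : Spl A B d a b Φ e c) (iA : Idem A d a P) (i : ℕ) (hi : i ≤ d) :
    Module.finrank K (A.eigenspace (a i)) = Module.finrank K U := by
  have hbij : Function.Bijective (c i ∘ₗ (A.eigenspace (a i)).subtype) := by
    constructor
    · rw [← LinearMap.ker_eq_bot, LinearMap.ker_eq_bot']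
      rintro ⟨v, hv⟩ hcv
      rw [Module.End.mem_eigenspace_iff] at hv
      have hcv' : c i v = 0 := hcv
      have hall : ∀ k ≤ d, c k v = 0 := by
        intro k
        induction k with
        | zero =>
          intro _
          rcases Nat.eq_zero_or_pos i with h0 | h0
          · rw [← h0]; exact hcv'
          · exact h.eig_low iA.inj i hi v hv 0 h0
        | succ k ih =>
          intro hk
          by_cases hki : k + 1 = i
          · rw [hki]; exact hcv'
          · have h1 := h.c_A_succ k hk v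
            rw [hv, map_smul, ih (by omega), add_zero, ← sub_eq_zero, ← sub_smul] at h1
            rcases smul_eq_zero.mp h1 with h2 | h2
            · have := iA.inj i hi (k + 1) hk (sub_eq_zero.mp h2)
              omega
            · exact h2
      exact Subtype.ext (h.eq_zero_of_c v hall)
    · intro x
      refine ⟨⟨P i (e i x), ?_⟩, ?_⟩
      · rw [Module.End.mem_eigenspace_iff]
        exact iA.eig i hi _
      · exact h.c_proj iA i hi x
  exact (LinearEquiv.ofBijective _ hbij).finrank_eq

theorem ordering_of_two {U' : Type*} [AddCommGroup U'] [Module K U'] {b' : ℕ → K}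
    {Φ' : ℕ → Module.End K U'} {e' : ℕ → U' →ₗ[K] V} {c' : ℕ → V →ₗ[K] U'} [Nontrivial U]
    (h : Spl A B d a b Φ e c) (h' : Spl A B d (fun i => a (d - i)) b' Φ' e' c')
    (inj : ∀ i ≤ d, ∀ j ≤ d, a i = a j → i = j) : TDOrdering A B d a := by
  have iA := idem_of_nodal A d a inj (h.nodal inj)
  refine tdOrdering_of iA ?_ ?_
  · intro i hi
    obtain ⟨x, hx⟩ := exists_ne (0 : U)
    refine ⟨e i x, fun h0 => hx ?_⟩
    have h1 := h.c_proj iA i hi x
    rw [h0, map_zero] at h1
    exact h1.symm
  · intro i hi j hj hij v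
    rcases hij with hij | hij
    · have h1 := h'.half_tri iA.rev (d - i) (by omega) (d - j) (by omega) (by omega) v
      have e1 : d - (d - j) = j := by omega
      have e2 : d - (d - i) = i := by omega
      simp only [e1, e2] at h1
      exact h1
    · exact h.half_tri iA i hi j hj hij v

end

section

variable {A B : Module.End K V} {d : ℕ} {a b : ℕ → K} {S : Module.End K U}
    {e : ℕ → U →ₗ[K] V} {c : ℕ → V →ₗ[K] U}

theorem Spl.irred (h : Spl A B d a b (phiOp d a b S) e c) (hS : IsSimpleOp S) (hd : 1 ≤ d)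
    (had : a 0 ≠ a d) (injb : ∀ i ≤ d, ∀ j ≤ d, b i = b j → i = j)
    {a' : ℕ → K} {Φ' : ℕ → Module.End K U} {f : ℕ → U →ₗ[K] V} {g : ℕ → V →ₗ[K] U}
    (h' : Spl B A d b a' Φ' f g) (hΦ' : ∀ i, 1 ≤ i → i ≤ d → ∀ x, Φ' i x = 0 → x = 0)
    (W : Submodule K V) (hWA : ∀ w ∈ W, A w ∈ W) (hWB : ∀ w ∈ W, B w ∈ W) : W = ⊥ ∨ W = ⊤ := by
  by_cases hW : W = ⊥
  · exact Or.inl hW
  right
  have iB := idem_of_nodal B d b injb (h'.nodal injb)
  set Q : ℕ → Module.End K V := fun i => proj B (vals d b) (b i) with hQ
  have hpoly : ∀ (p : K[X]), ∀ w ∈ W, aeval B p w ∈ W := by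
    intro p w hw
    induction p using Polynomial.induction_on' with
    | add p q hp hq => rw [map_add, LinearMap.add_apply]; exact W.add_mem hp hq
    | monomial n r =>
      rw [aeval_monomial, Module.End.mul_apply, Module.algebraMap_end_apply]
      refine W.smul_mem _ ?_
      induction n with
      | zero => simpa using hw
      | succ n ih => rw [pow_succ', Module.End.mul_apply]; exact hWB _ ih
  have hQW : ∀ i, ∀ w ∈ W, Q i w ∈ W := fun i w hw => hpoly _ w hw
  -- some eigenspace meets `W`
  obtain ⟨w, hw, hw0⟩ := Submodule.exists_mem_ne_zero_of_ne_bot hW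
  have hex : ∃ m, m ≤ d ∧ ∃ w ∈ W, Q m w ≠ 0 := by
    by_contra hcon
    push Not at hcon
    exact hw0 (iB.eq_zero w fun i hi => hcon i hi w hw)
  classical
  have hmin := Nat.find_spec hex
  set m := Nat.find hex with hm
  obtain ⟨hmd, w1, hw1, hw1Q⟩ := hmin
  have hlt : ∀ j, j < m → ∀ w ∈ W, Q j w = 0 := by
    intro j hj w hw
    by_contra hcon
    exact Nat.find_min hex hj ⟨by omega, w, hw, hcon⟩
  -- elements of `W` have vanishing low coordinates
  have hlow : ∀ w ∈ W, ∀ k < m, g k w = 0 := by
    intro w hw k hk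
    rw [← iB.sum w, map_sum]
    refine Finset.sum_eq_zero fun j hj => ?_
    have hj' : j ≤ d := by simpa [Nat.lt_succ_iff] using hj
    by_cases hjm : j < m
    · rw [hlt j hjm w hw, map_zero]
    · exact h'.eig_low injb j hj' _ (iB.eig j hj' w) k (by omega)
  have hm0 : m = 0 := by
    by_contra hm0
    obtain ⟨m', hm'⟩ : ∃ m', m = m' + 1 := ⟨m - 1, by omega⟩
    have h1 : Q m w1 ∈ W := hQW m w1 hw1
    have h2 := hlow _ (hWA _ h1) m' (by omega)
    rw [h'.c_B m' (by omega), hlow _ h1 m' (by omega), smul_zero, zero_add] at h2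
    rw [← hm'] at h2
    have h3 := hΦ' m (by omega) hmd _ h2
    -- all coordinates of `Q m w1` vanish
    have h4 : ∀ k ≤ d, g k (Q m w1) = 0 := by
      intro k
      induction k with
      | zero => intro _; exact hlow _ h1 0 (by omega)
      | succ k ih =>
        intro hk
        by_cases hkm : k + 1 = m
        · rw [hkm]; exact h3
        · have h5 := h'.c_A_succ k hk (Q m w1)
          rw [iB.eig m hmd, map_smul, ih (by omega), add_zero, ← sub_eq_zero, ← sub_smul] at h5
          rcases smul_eq_zero.mp h5 with h6 | h6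
          · have := injb m hmd (k + 1) hk (sub_eq_zero.mp h6)
            omega
          · exact h6
    exact hw1Q (h'.eq_zero_of_c _ h4)
  rw [hm0] at hw1Q
  set y := Q 0 w1 with hy
  have hyW : y ∈ W := hQW 0 w1 hw1
  have hyB : B y = b 0 • y := iB.eig 0 (by omega) w1
  -- `y = e 0 (c 0 y)`
  have hcy : ∀ r k, d + 1 ≤ k + r → 1 ≤ k → c k y = 0 := by
    intro r
    induction r with
    | zero => intro k hk _; rw [h.c_gt k (by omega)]; rfl
    | succ r ih =>
      intro k hk hk1
      by_cases hkd : k ≤ d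
      · have h1 := h.c_B k hkd y
        rw [hyB, map_smul, ih (k + 1) (by omega) (by omega), map_zero, add_zero, ← sub_eq_zero,
          ← sub_smul] at h1
        rcases smul_eq_zero.mp h1 with h2 | h2
        · have := injb 0 (by omega) k hkd (sub_eq_zero.mp h2)
          omega
        · exact h2
      · rw [h.c_gt k (by omega)]; rfl
  have hye : y = e 0 (c 0 y) := by
    apply h.ext_c
    intro i hi
    rw [h.c_e i hi]
    by_cases hi0 : i = 0
    · rw [if_pos hi0, hi0]
    · rw [if_neg hi0]; exact hcy (d + 1) i (by omega) (by omega)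
  let X : Submodule K U := W.comap (e 0)
  have hX : ∀ x ∈ X, S x ∈ X := by
    intro x hx
    rw [Submodule.mem_comap] at hx ⊢
    have h1 : e 1 x ∈ W := by
      have h2 : e 1 x = A (e 0 x) - a 0 • e 0 x := by rw [h.hA]; abel
      rw [h2]
      exact W.sub_mem (hWA _ hx) (W.smul_mem _ hx)
    have h3 := h.hB 0 x
    simp only [zero_add] at h3
    rw [phiOp_apply, th_one d a had, one_smul, map_add, map_smul] at h3
    have h4 : e 0 (S x) = B (e 1 x) - b 1 • e 1 x - ((b 1 - b 0) * (a (1 - 1) - a d)) • e 0 x := by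
      rw [h3]; abel
    rw [h4]
    exact W.sub_mem (W.sub_mem (hWB _ h1) (W.smul_mem _ h1)) (W.smul_mem _ hx)
  have hXtop : X = ⊤ := by
    rcases hS.2 X hX with h1 | h1
    · exfalso
      have h2 : c 0 y ∈ X := by rw [Submodule.mem_comap, ← hye]; exact hyW
      rw [h1, Submodule.mem_bot] at h2
      rw [h2, map_zero] at hye
      exact hw1Q hye
    · exact h1
  have hall : ∀ i x, e i x ∈ W := by
    intro i
    induction i with
    | zero =>
      intro x
      have h1 : x ∈ X := by rw [hXtop]; exact Submodule.mem_top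
      exact h1
    | succ i ih =>
      intro x
      have h2 : e (i + 1) x = A (e i x) - a i • e i x := by rw [h.hA]; abel
      rw [h2]
      exact W.sub_mem (hWA _ (ih x)) (W.smul_mem _ (ih x))
  rw [eq_top_iff]
  intro v _
  rw [← h.sum v]
  exact W.sum_mem fun i _ => hall i _

end

end Pool.Agent.Helper9.TD
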