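import Pool.Agent.Helper9.TDSplit

set_option autoImplicit false

namespace Pool.Agent.Helper9.TD

open Polynomial Module

variable {K : Type*} [Field K] {V : Type*} [AddCommGroup V] [Module K V]
variable {U : Type*} [AddCommGroup U] [Module K U]

/-- the chain `e 0, (A - a 0) e 0, (A - a 1) (A - a 0) e 0, …` -/
noncomputable def chain (A : Module.End K V) (a : ℕ → K) (e0 : U →ₗ[K] V) : ℕ → U →ₗ[K] V
  | 0 => e0
  | (i + 1) => (A - a i • (1 : Module.End K V)) ∘ₗ chain A a e0 i

theorem chain_zero (A : Module.End K V) (a : ℕ → K) (e0 : U →ₗ[K] V) : chain A a e0 0 = e0 := rfl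

theorem chain_succ (A : Module.End K V) (a : ℕ → K) (e0 : U →ₗ[K] V) (i : ℕ) (x : U) :
    chain A a e0 (i + 1) x = A (chain A a e0 i x) - a i • chain A a e0 i x := rfl

theorem chain_A (A : Module.End K V) (a : ℕ → K) (e0 : U →ₗ[K] V) (i : ℕ) (x : U) :
    A (chain A a e0 i x) = a i • chain A a e0 i x + chain A a e0 (i + 1) x := by
  rw [chain_succ]; abel

theorem chain_gt (A : Module.End K V) (a : ℕ → K) (e0 : U →ₗ[K] V) (d : ℕ)
    (h : chain A a e0 (d + 1) = 0) (i : ℕ) (hi : d < i) : chain A a e0 i = 0 := by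
  obtain ⟨m, rfl⟩ : ∃ m, i = d + 1 + m := ⟨i - (d + 1), by omega⟩
  clear hi
  induction m with
  | zero => exact h
  | succ m ih =>
    ext x
    have h1 : d + 1 + (m + 1) = (d + 1 + m) + 1 := by omega
    rw [h1, chain_succ, ih]
    simp

section

variable {A B : Module.End K V} {d : ℕ} {a b : ℕ → K} {P Q : ℕ → Module.End K V}

theorem Sys.chain_mem (h : Sys A B d a P d b Q) (i : ℕ) (x : B.eigenspace (b 0)) :
    chain A a (B.eigenspace (b 0)).subtype i x ∈ NN d P d Q i i := by
  induction i with
  | zero =>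
    rw [chain_zero, mem_NN]
    refine ⟨fun k hk hk0 => ?_, fun k hk hk0 => by omega⟩
    have hx : B (x : V) = b 0 • (x : V) := by
      have := x.2
      rwa [Module.End.mem_eigenspace_iff] at this
    have h1 := h.iB.mem 0 (by omega) (x : V) hx
    rw [Submodule.subtype_apply, ← h1, h.iB.orth k hk 0 (by omega), if_neg (by omega)]
  | succ i ih =>
    rw [chain_succ]
    exact h.NN_A i i _ ih

theorem Sys.chain_last (h : Sys A B d a P d b Q) :
    chain A a (B.eigenspace (b 0)).subtype (d + 1) = 0 := by
  ext x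
  have h1 := h.chain_mem (d + 1) x
  rw [mem_NN] at h1
  rw [h.iA.eq_zero _ (fun i hi => h1.2 i hi (by omega))]
  simp

theorem Sys.chain_Pd (h : Sys A B d a P d b Q) (i : ℕ) (x : B.eigenspace (b 0)) :
    P d (chain A a (B.eigenspace (b 0)).subtype i x) =
      (∏ j ∈ Finset.range i, (a d - a j)) • P d (x : V) := by
  induction i with
  | zero => simp [chain_zero]
  | succ i ih =>
    rw [chain_succ, map_sub, map_smul, h.iA.comm d le_rfl, ih, Finset.prod_range_succ, smul_smul,
      smul_smul, ← sub_smul]
    congr 1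
    ring

theorem Sys.P_d_inj (h : Sys A B d a P d b Q) (x : V) (hx : B x = b 0 • x) (hPx : P d x = 0) :
    x = 0 := by
  refine h.revA.disj 0 1 (by omega) x ?_
  rw [mem_NN]
  refine ⟨fun k hk hk0 => ?_, fun k hk hk1 => ?_⟩
  · have h1 := h.iB.mem 0 (by omega) x hx
    rw [← h1, h.iB.orth k hk 0 (by omega), if_neg (by omega)]
  · have : k = 0 := by omega
    subst this
    simpa using hPx

theorem Sys.Q_zero_inj (h : Sys A B d a P d b Q) (hd : 1 ≤ d) (y : V) (hy : A y = a d • y)
    (hQy : Q 0 y = 0) : y = 0 := by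
  refine h.revB.disj (d - 1) d (by omega) y ?_
  rw [mem_NN]
  refine ⟨fun k hk hk0 => ?_, fun k hk hk1 => ?_⟩
  · have : k = d := by omega
    subst this
    simpa using hQy
  · have h1 := h.iA.mem d le_rfl y hy
    rw [← h1, h.iA.orth k hk d le_rfl, if_neg (by omega)]

theorem Sys.chain_inj (h : Sys A B d a P d b Q) (i : ℕ) (hi : i ≤ d) (x : B.eigenspace (b 0))
    (hx : chain A a (B.eigenspace (b 0)).subtype i x = 0) : x = 0 := by
  have h1 := h.chain_Pd i x
  rw [hx, map_zero] at h1
  have h2 : (∏ j ∈ Finset.range i, (a d - a j)) ≠ 0 := by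
    rw [Finset.prod_ne_zero_iff]
    intro j hj h0
    have hj' : j < i := Finset.mem_range.mp hj
    have := h.iA.inj d le_rfl j (by omega) (sub_eq_zero.mp h0)
    omega
  have h3 : P d (x : V) = 0 := by
    rcases smul_eq_zero.mp h1.symm with h4 | h4
    · exact absurd h4 h2
    · exact h4
  have h4 := h.P_d_inj (x : V) (by
    have := x.2
    rwa [Module.End.mem_eigenspace_iff] at this) h3
  exact Subtype.ext h4

theorem Sys.chain_indep (h : Sys A B d a P d b Q) (x : ℕ → B.eigenspace (b 0))
    (hx : ∑ i ∈ Finset.range (d + 1), chain A a (B.eigenspace (b 0)).subtype i (x i) = 0)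
    (i : ℕ) (hi : i ≤ d) : x i = 0 := by
  induction i using Nat.strong_induction_on with
  | _ i ih =>
    apply h.chain_inj i hi
    refine h.disj i (i + 1) (by omega) _ ?_
    rw [mem_NN]
    refine ⟨(mem_NN.mp (h.chain_mem i (x i))).1, fun k hk hk1 => ?_⟩
    have h1 : chain A a (B.eigenspace (b 0)).subtype i (x i) =
        - ∑ j ∈ (Finset.range (d + 1)).erase i, chain A a (B.eigenspace (b 0)).subtype j (x j) := by
      rw [← Finset.add_sum_erase _ _ (Finset.mem_range.mpr (by omega : i < d + 1))] at hx
      exact eq_neg_of_add_eq_zero_left hx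
    rw [h1, map_neg, map_sum, neg_eq_zero]
    refine Finset.sum_eq_zero fun j hj => ?_
    rw [Finset.mem_erase, Finset.mem_range] at hj
    by_cases hji : j < i
    · rw [ih j hji (by omega), map_zero, map_zero]
    · exact (mem_NN.mp (h.chain_mem j (x j))).2 k hk (by omega)

theorem Sys.chain_bij (h : Sys A B d a P d b Q) (hd : 1 ≤ d) [FiniteDimensional K V] (ρ : ℕ)
    (hρ : ∀ i ≤ d, finrank K (A.eigenspace (a i)) = ρ) :
    Function.Bijective (chainMap d (chain A a (B.eigenspace (b 0)).subtype)) ∧
      finrank K (B.eigenspace (b 0)) = ρ := by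
  have hinj : Function.Injective (chainMap d (chain A a (B.eigenspace (b 0)).subtype)) := by
    rw [← LinearMap.ker_eq_bot, LinearMap.ker_eq_bot']
    intro x hx
    rw [chainMap_apply] at hx
    let y : ℕ → B.eigenspace (b 0) := fun i => if hi : i < d + 1 then x ⟨i, hi⟩ else 0
    have hy : ∑ i ∈ Finset.range (d + 1), chain A a (B.eigenspace (b 0)).subtype i (y i) = 0 := by
      rw [Finset.sum_range, ← hx]
      refine Finset.sum_congr rfl fun i _ => ?_
      simp only [y, dif_pos i.isLt]
    funext i
    have := h.chain_indep y hy i (by omega)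
    simp only [y, dif_pos i.isLt] at this
    exact this
  have h1 : finrank K (Fin (d + 1) → B.eigenspace (b 0)) = (d + 1) * finrank K (B.eigenspace (b 0)) := by
    rw [Module.finrank_pi_fintype]
    simp
  have h2 : finrank K V ≤ (d + 1) * ρ := by
    let T : V →ₗ[K] ((i : Fin (d + 1)) → A.eigenspace (a i)) :=
      LinearMap.pi (fun i : Fin (d + 1) => LinearMap.codRestrict (A.eigenspace (a i)) (P i)
        (fun v => by
          rw [Module.End.mem_eigenspace_iff]
          exact h.iA.eig i (by omega) v))
    have hT : Function.Injective T := by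
      rw [← LinearMap.ker_eq_bot, LinearMap.ker_eq_bot']
      intro v hv
      refine h.iA.eq_zero v fun i hi => ?_
      have := congrFun hv ⟨i, by omega⟩
      exact congrArg Subtype.val this
    have h3 := LinearMap.finrank_le_finrank_of_injective hT
    rw [Module.finrank_pi_fintype] at h3
    have h4 : ∑ i : Fin (d + 1), finrank K (A.eigenspace (a i)) = (d + 1) * ρ := by
      rw [Finset.sum_congr rfl (g := fun _ => ρ)
        (fun (i : Fin (d + 1)) _ => hρ (i : ℕ) (Nat.lt_succ_iff.mp i.isLt))]
      simp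
    rwa [h4] at h3
  have h3 : ρ ≤ finrank K (B.eigenspace (b 0)) := by
    let T : A.eigenspace (a d) →ₗ[K] B.eigenspace (b 0) :=
      LinearMap.codRestrict (B.eigenspace (b 0)) (Q 0 ∘ₗ (A.eigenspace (a d)).subtype)
        (fun v => by
          rw [Module.End.mem_eigenspace_iff]
          exact h.iB.eig 0 (by omega) v)
    have hT : Function.Injective T := by
      rw [← LinearMap.ker_eq_bot, LinearMap.ker_eq_bot']
      intro v hv
      have hv' : Q 0 (v : V) = 0 := congrArg Subtype.val hv
      have := h.Q_zero_inj hd (v : V) (by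
        have := v.2
        rwa [Module.End.mem_eigenspace_iff] at this) hv'
      exact Subtype.ext this
    have h4 := LinearMap.finrank_le_finrank_of_injective hT
    rwa [hρ d le_rfl] at h4
  have h4 := LinearMap.finrank_le_finrank_of_injective hinj
  rw [h1] at h4
  have h5 : finrank K (B.eigenspace (b 0)) = ρ := by
    have : (d + 1) * finrank K (B.eigenspace (b 0)) ≤ (d + 1) * ρ := h4.trans h2
    have := Nat.le_of_mul_le_mul_left this (by omega)
    omega
  refine ⟨?_, h5⟩
  have h6 : finrank K (Fin (d + 1) → B.eigenspace (b 0)) = finrank K V := by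
    rw [h1]
    rw [h5] at h4 ⊢
    omega
  exact ⟨hinj, (LinearMap.injective_iff_surjective_of_finrank_eq_finrank h6).mp hinj⟩

theorem Sys.exists_spl (h : Sys A B d a P d b Q) (hd : 1 ≤ d) [FiniteDimensional K V] (ρ : ℕ)
    (hρ : ∀ i ≤ d, finrank K (A.eigenspace (a i)) = ρ) :
    ∃ (Φ : ℕ → Module.End K (B.eigenspace (b 0))) (c : ℕ → V →ₗ[K] (B.eigenspace (b 0))),
      Spl A B d a b Φ (chain A a (B.eigenspace (b 0)).subtype) c := by
  obtain ⟨hbij, -⟩ := h.chain_bij hd ρ hρ
  have hgt := chain_gt A a (B.eigenspace (b 0)).subtype d h.chain_last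
  obtain ⟨c, hc1, hc2, hc3⟩ := exists_coords d _ hgt hbij
  set e := chain A a (B.eigenspace (b 0)).subtype with he
  -- elements of `NN i i` are in the image of `e i`
  have key : ∀ i ≤ d, ∀ v ∈ NN d P d Q i i, v = e i (c i v) := by
    intro i hi v hv
    have hmem : ∀ j x, e j x ∈ NN d P d Q j j := fun j x => h.chain_mem j x
    let v1 := ∑ j ∈ (Finset.range (d + 1)).filter (fun j => j < i), e j (c j v)
    let v2 := ∑ j ∈ (Finset.range (d + 1)).filter (fun j => i < j), e j (c j v)
    have hsplit : v = v1 + e i (c i v) + v2 := by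
      conv_lhs => rw [← hc3 v]
      rw [← Finset.sum_filter_add_sum_filter_not (Finset.range (d + 1)) (fun j => j < i), add_assoc]
      congr 1
      have h1 : (Finset.range (d + 1)).filter (fun j => ¬ j < i) =
          insert i ((Finset.range (d + 1)).filter (fun j => i < j)) := by
        ext j
        simp only [Finset.mem_filter, Finset.mem_range, Finset.mem_insert]
        omega
      rw [h1, Finset.sum_insert (by simp)]
    have hv1Q : ∀ k ≤ d, i ≤ k → Q k v1 = 0 := by
      intro k hk hik
      rw [map_sum]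
      refine Finset.sum_eq_zero fun j hj => ?_
      rw [Finset.mem_filter] at hj
      exact (mem_NN.mp (hmem j _)).1 k hk (by omega)
    have hv1P : ∀ k ≤ d, k < i → P k v1 = 0 → True := fun _ _ _ _ => trivial
    have hv2P : ∀ k ≤ d, k < i + 1 → P k v2 = 0 := by
      intro k hk hik
      rw [map_sum]
      refine Finset.sum_eq_zero fun j hj => ?_
      rw [Finset.mem_filter] at hj
      exact (mem_NN.mp (hmem j _)).2 k hk (by omega)
    have hv1 : v1 = 0 := by
      rcases i with _ | i
      · simp [v1]
      · refine h.disj i (i + 1) (by omega) v1 ?_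
        rw [mem_NN]
        refine ⟨fun k hk hik => hv1Q k hk (by omega), fun k hk hik => ?_⟩
        have h2 : v1 = v - e (i + 1) (c (i + 1) v) - v2 := by
          rw [sub_sub]
          exact eq_sub_of_add_eq (by rw [← add_assoc]; exact hsplit.symm)
        rw [h2, map_sub, map_sub, (mem_NN.mp hv).2 k hk hik, (mem_NN.mp (hmem (i + 1) _)).2 k hk hik,
          hv2P k hk (by omega)]
        simp
    have hv2 : v2 = 0 := by
      refine h.disj i (i + 1) (by omega) v2 ?_
      rw [mem_NN]
      refine ⟨fun k hk hik => ?_, fun k hk hik => hv2P k hk hik⟩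
      have h2 : v2 = v - e i (c i v) := by
        rw [hv1, zero_add] at hsplit
        exact eq_sub_of_add_eq (by rw [add_comm]; exact hsplit.symm)
      rw [h2, map_sub, (mem_NN.mp hv).1 k hk hik, (mem_NN.mp (hmem i _)).1 k hk hik, sub_zero]
    rw [hv1, hv2, zero_add, add_zero] at hsplit
    exact hsplit
  refine ⟨fun i => if i ≤ d then c (i - 1) ∘ₗ (B - b i • (1 : Module.End K V)) ∘ₗ e i else 0, c, ?_⟩
  refine ⟨fun i x => chain_A A a _ i x, ?_, ?_, hgt, hc1, hc2, hc3⟩
  · intro x
    exact h.NN_B0 0 _ (h.chain_mem 0 x)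
  · intro i x
    by_cases hi : i + 1 ≤ d
    · have h1 := h.NN_B i i _ (h.chain_mem (i + 1) x)
      have h2 := key i (by omega) _ h1
      rw [if_pos hi]
      simp only [Nat.add_sub_cancel, LinearMap.comp_apply, LinearMap.sub_apply, LinearMap.smul_apply,
        Module.End.one_apply]
      rw [← he] at h2
      rw [← h2]
      abel
    · rw [hgt (i + 1) (by omega), if_neg hi]
      simp

end

end Pool.Agent.Helper9.TD
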