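import Pool.Agent.Helper9.TDModel

set_option autoImplicit false

namespace Pool.Agent.Helper9.TD

open Polynomial Module

variable {K : Type*} [Field K]

section

variable {V : Type*} [AddCommGroup V] [Module K V]

/-! ### uniqueness of orderings -/

theorem step_ne {A B : Module.End K V}
    (irr : ∀ W : Submodule K V, (∀ w ∈ W, A w ∈ W) → (∀ w ∈ W, B w ∈ W) → W = ⊥ ∨ W = ⊤)
    {d : ℕ} {a : ℕ → K} {P : ℕ → Module.End K V} (iA : Idem A d a P)
    (hne : ∀ i ≤ d, ∃ v, P i v ≠ 0)
    (htri : ∀ i ≤ d, ∀ j ≤ d, (i + 1 < j ∨ j + 1 < i) → ∀ v, P j (B (P i v)) = 0)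
    (i : ℕ) (hi : i < d) : ∃ v, P (i + 1) (B (P i v)) ≠ 0 := by
  by_contra hcon
  push Not at hcon
  let W : Submodule K V := ⨅ k : ℕ, ⨅ _ : i < k ∧ k ≤ d, LinearMap.ker (P k)
  have hW : ∀ w, w ∈ W ↔ ∀ k, i < k → k ≤ d → P k w = 0 := by
    intro w
    simp [W, Submodule.mem_iInf]
  have hWA : ∀ w ∈ W, A w ∈ W := by
    intro w hw
    rw [hW] at hw ⊢
    intro k hk hkd
    rw [iA.comm k hkd, hw k hk hkd, smul_zero]
  have hWB : ∀ w ∈ W, B w ∈ W := by
    intro w hw
    rw [hW] at hw ⊢
    intro k hk hkd
    rw [← iA.sum w, map_sum, map_sum]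
    refine Finset.sum_eq_zero fun l hl => ?_
    have hl' : l ≤ d := by simpa [Nat.lt_succ_iff] using hl
    by_cases hil : i < l
    · rw [hw l hil hl', map_zero, map_zero]
    · by_cases hlk : l + 1 < k
      · exact htri l hl' k hkd (Or.inl hlk) w
      · have h1 : l = i := by omega
        have h2 : k = i + 1 := by omega
        rw [h1, h2]
        exact hcon w
  rcases irr W hWA hWB with h1 | h1
  · obtain ⟨v, hv⟩ := hne 0 (by omega)
    have h2 : P 0 v ∈ W := by
      rw [hW]
      intro k hk hkd
      rw [iA.orth k hkd 0 (by omega), if_neg (by omega)]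
    rw [h1, Submodule.mem_bot] at h2
    exact hv h2
  · obtain ⟨v, hv⟩ := hne (i + 1) (by omega)
    have h2 : v ∈ W := by rw [h1]; exact Submodule.mem_top
    exact hv ((hW v).mp h2 (i + 1) (by omega) (by omega))

theorem exists_index {A : Module.End K V} {d : ℕ} {a : ℕ → K} {P : ℕ → Module.End K V}
    (iA : Idem A d a P) (μ : K) (hμ : A.HasEigenvalue μ) : ∃ k ≤ d, a k = μ := by
  obtain ⟨v, hv⟩ := hμ.exists_hasEigenvector
  by_contra hcon
  push Not at hcon
  have h1 : A v = μ • v := hv.apply_eq_smul
  refine hv.2 (iA.eq_zero v fun k hk => ?_)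
  have h2 := iA.comm k hk v
  rw [h1, map_smul, ← sub_eq_zero, ← sub_smul] at h2
  rcases smul_eq_zero.mp h2 with h3 | h3
  · exact absurd (sub_eq_zero.mp h3).symm (hcon k hk)
  · exact h3

theorem neP {A B : Module.End K V} {d : ℕ} {a : ℕ → K} (h : TDOrdering A B d a) (i : ℕ)
    (hi : i ≤ d) : ∃ v, proj A (vals d a) (a i) v ≠ 0 := by
  obtain ⟨v, hv⟩ := (h.2.1 i hi).exists_hasEigenvector
  refine ⟨v, ?_⟩
  rw [h.idem.mem i hi v hv.apply_eq_smul]
  exact hv.2

theorem walk (π : ℕ → ℕ) (n : ℕ) (inj : ∀ i ≤ n, ∀ j ≤ n, π i = π j → i = j)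
    (hstep : ∀ i < n, π (i + 1) ≤ π i + 1 ∧ π i ≤ π (i + 1) + 1) :
    (∀ i ≤ n, π i = π 0 + i) ∨ (∀ i ≤ n, π i + i = π 0) := by
  induction n with
  | zero =>
    left
    intro i hi
    have : i = 0 := by omega
    subst this
    rfl
  | succ n ih =>
    have hs := hstep n (by omega)
    have hne : π n ≠ π (n + 1) := fun h => by
      have := inj n (by omega) (n + 1) le_rfl h
      omega
    rcases ih (fun i hi j hj => inj i (by omega) j (by omega)) (fun i hi => hstep i (by omega))
      with h1 | h1
    · by_cases hup : π (n + 1) = π n + 1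
      · left
        intro i hi
        rcases Nat.lt_or_ge i (n + 1) with h2 | h2
        · exact h1 i (by omega)
        · have : i = n + 1 := by omega
          subst this
          rw [hup, h1 n le_rfl]
          omega
      · rcases n with _ | n
        · right
          intro i hi
          have h3 : i = 0 ∨ i = 1 := by omega
          rcases h3 with rfl | rfl
          · rfl
          · simp only [zero_add] at *
            omega
        · exfalso
          have h2 : π (n + 1 + 1) = π n := by
            have := h1 n (by omega)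
            have := h1 (n + 1) (by omega)
            omega
          have := inj (n + 1 + 1) le_rfl n (by omega) h2
          omega
    · by_cases hdown : π (n + 1) + 1 = π n
      · right
        intro i hi
        rcases Nat.lt_or_ge i (n + 1) with h2 | h2
        · exact h1 i (by omega)
        · have : i = n + 1 := by omega
          subst this
          have := h1 n le_rfl
          omega
      · rcases n with _ | n
        · left
          intro i hi
          have h3 : i = 0 ∨ i = 1 := by omega
          rcases h3 with rfl | rfl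
          · rfl
          · simp only [zero_add] at *
            omega
        · exfalso
          have h2 : π (n + 1 + 1) = π n := by
            have := h1 n (by omega)
            have := h1 (n + 1) (by omega)
            omega
          have := inj (n + 1 + 1) le_rfl n (by omega) h2
          omega

theorem ordering_unique {A B : Module.End K V}
    (irr : ∀ W : Submodule K V, (∀ w ∈ W, A w ∈ W) → (∀ w ∈ W, B w ∈ W) → W = ⊥ ∨ W = ⊤)
    {d d' : ℕ} {a a' : ℕ → K} (h : TDOrdering A B d a) (h' : TDOrdering A B d' a') :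
    d = d' ∧ ((∀ i ≤ d, a' i = a i) ∨ (∀ i ≤ d, a' i = a (d - i))) := by
  have iA := h.idem
  have iA' := h'.idem
  have hex : ∀ i, ∃ k, i ≤ d' → k ≤ d ∧ a k = a' i := by
    intro i
    by_cases hi : i ≤ d'
    · obtain ⟨k, hk, hk'⟩ := exists_index iA (a' i) (h'.2.1 i hi)
      exact ⟨k, fun _ => ⟨hk, hk'⟩⟩
    · exact ⟨0, fun h0 => absurd h0 hi⟩
  have hex' : ∀ i, ∃ k, i ≤ d → k ≤ d' ∧ a' k = a i := by
    intro i
    by_cases hi : i ≤ d
    · obtain ⟨k, hk, hk'⟩ := exists_index iA' (a i) (h.2.1 i hi)
      exact ⟨k, fun _ => ⟨hk, hk'⟩⟩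
    · exact ⟨0, fun h0 => absurd h0 hi⟩
  choose π hπ using hex
  choose τ hτ using hex'
  have injπ : ∀ i ≤ d', ∀ j ≤ d', π i = π j → i = j := by
    intro i hi j hj hij
    apply h'.1 i hi j hj
    rw [← (hπ i hi).2, ← (hπ j hj).2, hij]
  have injτ : ∀ i ≤ d, ∀ j ≤ d, τ i = τ j → i = j := by
    intro i hi j hj hij
    apply h.1 i hi j hj
    rw [← (hτ i hi).2, ← (hτ j hj).2, hij]
  have hle1 : d' ≤ d := by
    have := Finset.card_le_card_of_injOn (s := Finset.range (d' + 1)) (t := Finset.range (d + 1)) π
      (fun i hi => by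
        simp only [Finset.coe_range, Set.mem_Iio] at hi ⊢
        have := (hπ i (by omega)).1
        omega)
      (fun i hi j hj hij => by
        simp only [Finset.coe_range, Set.mem_Iio] at hi hj
        exact injπ i (by omega) j (by omega) hij)
    simp only [Finset.card_range] at this
    omega
  have hle2 : d ≤ d' := by
    have := Finset.card_le_card_of_injOn (s := Finset.range (d + 1)) (t := Finset.range (d' + 1)) τ
      (fun i hi => by
        simp only [Finset.coe_range, Set.mem_Iio] at hi ⊢
        have := (hτ i (by omega)).1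
        omega)
      (fun i hi j hj hij => by
        simp only [Finset.coe_range, Set.mem_Iio] at hi hj
        exact injτ i (by omega) j (by omega) hij)
    simp only [Finset.card_range] at this
    omega
  have hdd : d = d' := le_antisymm hle2 hle1
  subst hdd
  refine ⟨rfl, ?_⟩
  have hstep : ∀ i < d, π (i + 1) ≤ π i + 1 ∧ π i ≤ π (i + 1) + 1 := by
    intro i hi
    obtain ⟨v, hv⟩ := step_ne irr iA' (fun i hi => neP h' i hi)
      (fun i hi j hj hij v => h'.tri i hi j hj hij v) i hi
    by_contra hcon
    apply hv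
    set u := proj A (vals d a') (a' i) v with hu
    have hu1 : A u = a' i • u := iA'.eig i (by omega) v
    rw [← (hπ i (by omega)).2] at hu1
    have hu2 := iA.mem (π i) (hπ i (by omega)).1 u hu1
    have h3 : proj A (vals d a) (a (π (i + 1))) (B u) = 0 := by
      rw [← hu2]
      exact h.tri (π i) (hπ i (by omega)).1 (π (i + 1)) (hπ (i + 1) (by omega)).1 (by omega) u
    rw [← iA.sum (B u), map_sum]
    refine Finset.sum_eq_zero fun l hl => ?_
    have hl' : l ≤ d := by simpa [Nat.lt_succ_iff] using hl
    by_cases hlπ : l = π (i + 1)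
    · simp only [hlπ]
      rw [h3, map_zero]
    · set w := proj A (vals d a) (a l) (B u) with hw
      have hw1 : A w = a l • w := iA.eig l hl' (B u)
      have h4 := iA'.comm (i + 1) (by omega) w
      rw [hw1, map_smul, ← sub_eq_zero, ← sub_smul] at h4
      rcases smul_eq_zero.mp h4 with h5 | h5
      · exfalso
        rw [← (hπ (i + 1) (by omega)).2] at h5
        exact hlπ (iA.inj l hl' _ (hπ (i + 1) (by omega)).1 (sub_eq_zero.mp h5))
      · exact h5
  rcases walk π d injπ hstep with h1 | h1
  · left
    intro i hi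
    have h2 := h1 d le_rfl
    have h3 := (hπ d le_rfl).1
    have h4 := h1 i hi
    have h5 : π i = i := by omega
    rw [← (hπ i hi).2, h5]
  · right
    intro i hi
    have h2 := h1 d le_rfl
    have h3 := (hπ 0 (by omega)).1
    have h4 := h1 i hi
    have h5 : π i = d - i := by omega
    rw [← (hπ i hi).2, h5]

end

section

variable {V : Type*} [AddCommGroup V] [Module K V]

/-! ### necessity -/

theorem necessity [FiniteDimensional K V] {A B : Module.End K V} (h : TDPair A B) (ρ : ℕ)
    (hρ2 : 2 ≤ ρ) (hρ : ∀ μ, A.HasEigenvalue μ → Module.finrank K (A.eigenspace μ) = ρ) :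
    ∃ (d : ℕ) (a b : ℕ → K) (f : K[X]), 1 ≤ d ∧ (∀ i ≤ d, ∀ j ≤ d, a i = a j → i = j) ∧
      (∀ i ≤ d, ∀ j ≤ d, b i = b j → i = j) ∧ PA d a b ∧ f.Monic ∧ Irreducible f ∧
      f.natDegree = ρ ∧
      ∃ (e : ℕ → (AdjoinRoot f) →ₗ[K] V) (c : ℕ → V →ₗ[K] (AdjoinRoot f)),
        Spl A B d a b (phiOp d a b (LinearMap.mulLeft K (AdjoinRoot.root f))) e c := by
  obtain ⟨d, a, oA⟩ := h.ordA
  obtain ⟨δ, b, oB⟩ := h.ordB
  have hsys : Sys A B d a (fun i => proj A (vals d a) (a i)) δ b
      (fun i => proj B (vals δ b) (b i)) :=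
    ⟨oA.idem, oB.idem, fun i hi j hj hij v => oA.tri i hi j hj hij v,
      fun i hi j hj hij v => oB.tri i hi j hj hij v, h.irred, neP oA, neP oB⟩
  have hdδ := hsys.eq
  subst hdδ
  have hρ' : ∀ i ≤ d, Module.finrank K (A.eigenspace (a i)) = ρ := fun i hi =>
    hρ (a i) (oA.2.1 i hi)
  have hd : 1 ≤ d := by
    by_contra hd0
    have hd0' : d = 0 := by omega
    subst hd0'
    obtain ⟨v, hv⟩ := neP oA 0 le_rfl
    have hA : ∀ w, A w = a 0 • w := by
      intro w
      have h1 := oA.idem.sum w
      simp only [zero_add, Finset.sum_range_one] at h1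
      have h2 := oA.idem.eig 0 le_rfl w
      rwa [h1] at h2
    have hB : ∀ w, B w = b 0 • w := by
      intro w
      have h1 := oB.idem.sum w
      simp only [zero_add, Finset.sum_range_one] at h1
      have h2 := oB.idem.eig 0 le_rfl w
      rwa [h1] at h2
    have hv0 : v ≠ 0 := by
      rintro rfl
      exact hv (map_zero _)
    rcases h.irred (Submodule.span K {v})
      (fun w hw => by rw [hA]; exact Submodule.smul_mem _ _ hw)
      (fun w hw => by rw [hB]; exact Submodule.smul_mem _ _ hw) with h1 | h1
    · exact hv0 (Submodule.span_singleton_eq_bot.mp h1)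
    · have h2 := finrank_span_singleton (K := K) hv0
      rw [h1, finrank_top] at h2
      have h3 := Submodule.finrank_le (A.eigenspace (a 0))
      have h4 := hρ' 0 le_rfl
      omega
  obtain ⟨S, e, c, hs, hS, hU, hpa⟩ := hsys.structure hd ρ hρ2 hρ'
  obtain ⟨ψ, hψ⟩ := simple_iso S hS
  have hint : IsIntegral K S := Algebra.IsIntegral.isIntegral S
  have hmonic := minpoly.monic hint
  refine ⟨d, a, b, minpoly K S, hd, oA.1, oB.1, hpa, hmonic, simple_irreducible S hS, ?_, ?_⟩
  · rw [← finrank_adjoinRoot _ hmonic, ψ.finrank_eq, hU]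
  · -- transport along `ψ`
    refine ⟨fun i => e i ∘ₗ ψ.toLinearMap, fun i => ψ.symm.toLinearMap ∘ₗ c i, ?_, ?_, ?_, ?_, ?_,
      ?_, ?_⟩
    · intro i x
      exact hs.hA i (ψ x)
    · intro x
      exact hs.hB0 (ψ x)
    · intro i x
      have h1 := hs.hB i (ψ x)
      simp only [LinearMap.comp_apply, LinearEquiv.coe_coe]
      rw [h1]
      congr 2
      simp only [phiOp_apply, map_add, map_smul, LinearMap.mulLeft_apply, hψ]
    · intro i hi
      rw [hs.e_gt i hi, LinearMap.zero_comp]
    · intro i hi j x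
      simp only [LinearMap.comp_apply, LinearEquiv.coe_coe]
      rw [hs.c_e i hi]
      split_ifs
      · exact ψ.symm_apply_apply x
      · exact map_zero _
    · intro i hi
      rw [hs.c_gt i hi, LinearMap.comp_zero]
    · intro v
      simp only [LinearMap.comp_apply, LinearEquiv.coe_coe, LinearEquiv.apply_symm_apply]
      exact hs.sum v

end

/-! ### minimal polynomials -/

section

variable {U U' : Type*} [AddCommGroup U] [Module K U] [AddCommGroup U'] [Module K U']

theorem minpoly_conj [FiniteDimensional K U] [FiniteDimensional K U'] (S : Module.End K U)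
    (S' : Module.End K U') (ψ : U ≃ₗ[K] U') (hψ : ∀ x, ψ (S x) = S' (ψ x)) :
    minpoly K S = minpoly K S' := by
  have hpoly : ∀ (g : K[X]) (x : U), ψ (aeval S g x) = aeval S' g (ψ x) := by
    intro g x
    induction g using Polynomial.induction_on' with
    | add p q hp hq => simp only [map_add, LinearMap.add_apply, hp, hq]
    | monomial n r =>
      simp only [aeval_monomial, Module.End.mul_apply, Module.algebraMap_end_apply, map_smul]
      congr 1
      induction n with
      | zero => simp
      | succ n ih => rw [pow_succ', pow_succ', Module.End.mul_apply, Module.End.mul_apply, hψ, ih]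
  have hint : IsIntegral K S := Algebra.IsIntegral.isIntegral S
  have hint' : IsIntegral K S' := Algebra.IsIntegral.isIntegral S'
  have h1 : minpoly K S ∣ minpoly K S' := by
    apply minpoly.dvd
    ext x
    apply ψ.injective
    rw [hpoly, minpoly.aeval]
    simp
  have h2 : minpoly K S' ∣ minpoly K S := by
    apply minpoly.dvd
    ext x
    obtain ⟨y, rfl⟩ := ψ.surjective x
    rw [← hpoly, minpoly.aeval]
    simp
  exact eq_of_monic_of_associated (minpoly.monic hint) (minpoly.monic hint')
    (associated_of_dvd_dvd h1 h2)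

theorem minpoly_root_shift (f : K[X]) (hf : f.Monic) (κ : K) :
    minpoly K (LinearMap.mulLeft K (AdjoinRoot.root f) + κ • (1 : Module.End K (AdjoinRoot f))) =
      f.comp (X - C κ) := by
  have h1 : LinearMap.mulLeft K (AdjoinRoot.root f) + κ • (1 : Module.End K (AdjoinRoot f)) =
      Algebra.lmul K (AdjoinRoot f) (AdjoinRoot.root f + algebraMap K (AdjoinRoot f) κ) := by
    ext x
    simp [Algebra.smul_def]
  rw [h1, minpoly.algHom_eq _ Algebra.lmul_injective, minpoly.add_algebraMap,
    AdjoinRoot.minpoly_root hf.ne_zero, hf.leadingCoeff]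
  simp

theorem minpoly_root_mul (f : K[X]) (hf : f.Monic) :
    minpoly K (LinearMap.mulLeft K (AdjoinRoot.root f)) = f := by
  have h := minpoly_root_shift f hf 0
  simpa using h

theorem simple_iso' (S : Module.End K U) [FiniteDimensional K U] (h : IsSimpleOp S) (g : K[X])
    (hg : minpoly K S = g) :
    ∃ ψ : U ≃ₗ[K] AdjoinRoot g, ∀ x, ψ (S x) = LinearMap.mulLeft K (AdjoinRoot.root g) (ψ x) := by
  subst hg
  obtain ⟨ψ, hψ⟩ := simple_iso S h
  refine ⟨ψ.symm, fun x => ?_⟩
  apply ψ.injective
  rw [LinearMap.mulLeft_apply, hψ, ψ.apply_symm_apply, ψ.apply_symm_apply]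

end

end Pool.Agent.Helper9.TD
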